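import Pool.Agent.Work.MP_9d1ffa_al.Ct.CC
import Pool.Agent.Work.MP_9d1ffa_al.Ct.CSp
import Pool.Agent.Work.MP_9d1ffa_al.VFin

-- merged part: Pool.Agent.Work.MP_9d1ffa_al.Ct.CZ
section
-- merged part: Pool.Agent.Work.MP_9d1ffa_al.Ct.KLau
section
/-! Laurent extensions of additive categories, described by their filters. -/

namespace Pool.Agent.Work.MP_9d1ffa_al.Ct

set_option linter.unusedSectionVars false
set_option linter.unusedVariables false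

variable {O : Type 1} [Add O] [Zero O]

/-- the category `𝒟` is a Laurent extension of `𝒞` -/
structure Lau (𝒞 𝒟 : SCat O) where
  e : ∀ {a b}, 𝒞.Hom a b →+ 𝒟.Hom a b
  f : (ℤ → Prop) → ∀ {a b}, 𝒟.Hom a b →+ 𝒟.Hom a b
  c : ∀ {a b}, 𝒟.Hom a b →+ 𝒞.Hom a b
  zz : ∀ a, ℤ → 𝒟.Hom a a
  e_mul : ∀ {a b c} (x : 𝒞.Hom a b) (y : 𝒞.Hom b c), e (x * y) = e x * e y
  e_one : ∀ a, e (1 : 𝒞.Hom a a) = 1
  e_ct : ∀ {a b} (x : 𝒞.Hom a b), e x.ct = (e x).ct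
  e_inl : ∀ a b, e (𝒞.inl a b) = 𝒟.inl a b
  e_inr : ∀ a b, e (𝒞.inr a b) = 𝒟.inr a b
  f_f : ∀ P Q {a b} (x : 𝒟.Hom a b), f P (f Q x) = f (fun n => P n ∧ Q n) x
  f_not : ∀ P {a b} (x : 𝒟.Hom a b), f P x + f (fun n => ¬ P n) x = x
  f_false : ∀ {a b} (x : 𝒟.Hom a b), f (fun _ => False) x = 0
  f_mul : ∀ P Q T {a b c} (x : 𝒟.Hom a b) (y : 𝒟.Hom b c), f P x = x → f Q y = y →
    (∀ m n, P m → Q n → T (m + n)) → f T (x * y) = x * y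
  e_c : ∀ {a b} (x : 𝒟.Hom a b), e (c x) = f (· = 0) x
  c_e : ∀ {a b} (x : 𝒞.Hom a b), c (e x) = x
  z_zero : ∀ a, zz a 0 = 1
  z_add : ∀ a m n, zz a m * zz a n = zz a (m + n)
  z_comm : ∀ {a b} n (x : 𝒟.Hom a b), zz a n * x = x * zz b n
  f_z : ∀ a n, f (· = n) (zz a n) = zz a n
  bdd : ∀ {a b} (x : 𝒟.Hom a b), ∃ N : ℕ, f (fun n => |n| ≤ N) x = x

namespace Lau

variable {𝒞 𝒟 : SCat O} (Λ : Lau 𝒞 𝒟) {I J K L M : O}

/-- the part in the degrees satisfying `P` -/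
def fd (P : ℤ → Prop) (x : 𝒟.Hom I J) : 𝒟.Hom I J := Λ.f P x

/-- all degrees satisfy `P` -/
def Dg (P : ℤ → Prop) (x : 𝒟.Hom I J) : Prop := Λ.fd P x = x

/-- constants -/
def cst (x : 𝒞.Hom I J) : 𝒟.Hom I J := Λ.e x

/-- the constant term -/
def c0 (x : 𝒟.Hom I J) : 𝒞.Hom I J := Λ.c x

variable {Λ} {P Q T : ℤ → Prop} {x y : 𝒟.Hom I J}

theorem fd_fd (x : 𝒟.Hom I J) : Λ.fd P (Λ.fd Q x) = Λ.fd (fun n => P n ∧ Q n) x := Λ.f_f _ _ _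

theorem fd_not (P : ℤ → Prop) (x : 𝒟.Hom I J) : Λ.fd P x + Λ.fd (fun n => ¬ P n) x = x :=
  Λ.f_not _ _

theorem fd_add (x y : 𝒟.Hom I J) : Λ.fd P (x + y) = Λ.fd P x + Λ.fd P y := map_add (Λ.f P) _ _

theorem fd_sub (x y : 𝒟.Hom I J) : Λ.fd P (x - y) = Λ.fd P x - Λ.fd P y := map_sub (Λ.f P) _ _

theorem fd_neg (x : 𝒟.Hom I J) : Λ.fd P (-x) = -Λ.fd P x := map_neg (Λ.f P) _

theorem dg_zero : Λ.Dg P (0 : 𝒟.Hom I J) := map_zero (Λ.f P)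

theorem dg_fd (P : ℤ → Prop) (x : 𝒟.Hom I J) : Λ.Dg P (Λ.fd P x) := by
  rw [Dg, fd_fd]
  simp only [and_self]

theorem Dg.mono (h : Λ.Dg P x) (hP : ∀ n, P n → Q n) : Λ.Dg Q x := by
  have : (fun n => Q n ∧ P n) = P := funext fun n => propext ⟨And.right, fun e => ⟨hP n e, e⟩⟩
  rw [Dg, ← h, fd_fd, this]

theorem Dg.fd_zero (h : Λ.Dg P x) (hP : ∀ n, P n → ¬ Q n) : Λ.fd Q x = 0 := by
  have : (fun n => Q n ∧ P n) = fun _ => False :=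
    funext fun n => propext ⟨fun e => hP n e.2 e.1, False.elim⟩
  rw [← h, fd_fd, this]
  exact Λ.f_false _

theorem Dg.and (h : Λ.Dg P x) (h' : Λ.Dg Q x) : Λ.Dg (fun n => P n ∧ Q n) x := by
  rw [Dg, ← fd_fd, h', h]

theorem Dg.add (h : Λ.Dg P x) (h' : Λ.Dg P y) : Λ.Dg P (x + y) := by rw [Dg, fd_add, h, h']

theorem Dg.sub (h : Λ.Dg P x) (h' : Λ.Dg P y) : Λ.Dg P (x - y) := by rw [Dg, fd_sub, h, h']

theorem Dg.neg (h : Λ.Dg P x) : Λ.Dg P (-x) := by rw [Dg, fd_neg, h]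

theorem Dg.mul {y : 𝒟.Hom J K} (hx : Λ.Dg P x) (hy : Λ.Dg Q y)
    (h : ∀ a b, P a → Q b → T (a + b)) : Λ.Dg T (x * y) := Λ.f_mul _ _ _ _ _ hx hy h

theorem Dg.pmul {y : 𝒟.Hom J K} (hx : Λ.Dg (0 ≤ ·) x) (hy : Λ.Dg (0 ≤ ·) y) :
    Λ.Dg (0 ≤ ·) (x * y) :=
  hx.mul hy fun _ _ => add_nonneg

theorem fd_mul_right (x : 𝒟.Hom I J) {y : 𝒟.Hom J K} (hy : Λ.Dg Q y)
    (h : ∀ a b, Q b → (T (a + b) ↔ P a)) : Λ.fd T (x * y) = Λ.fd P x * y := by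
  conv_lhs => rw [← fd_not (Λ := Λ) P x, Hm.add_mul, fd_add]
  rw [((dg_fd P x).mul hy fun a b ha hb => (h a b hb).2 ha : Λ.Dg T _),
    ((dg_fd (fun n => ¬ P n) x).mul hy (T := fun n => ¬ T n) fun a b ha hb e =>
      ha ((h a b hb).1 e)).fd_zero fun _ e e' => e e', add_zero]

theorem fd_mul_left (hx : Λ.Dg Q x) (y : 𝒟.Hom J K)
    (h : ∀ a b, Q a → (T (a + b) ↔ P b)) : Λ.fd T (x * y) = x * Λ.fd P y := by
  conv_lhs => rw [← fd_not (Λ := Λ) P y, Hm.mul_add, fd_add]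
  rw [(hx.mul (dg_fd P y) fun a b ha hb => (h a b ha).2 hb : Λ.Dg T _),
    (hx.mul (dg_fd (fun n => ¬ P n) y) (T := fun n => ¬ T n) fun a b ha hb e =>
      hb ((h a b ha).1 e)).fd_zero fun _ e e' => e e', add_zero]

theorem cst_c0 (x : 𝒟.Hom I J) : Λ.cst (Λ.c0 x) = Λ.fd (· = 0) x := Λ.e_c _

theorem c0_cst (a : 𝒞.Hom I J) : Λ.c0 (Λ.cst a) = a := Λ.c_e _

theorem cst_inj {a b : 𝒞.Hom I J} (h : Λ.cst a = Λ.cst b) : a = b := by
  rw [← c0_cst (Λ := Λ) a, h, c0_cst]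

theorem dg_cst0 (a : 𝒞.Hom I J) : Λ.Dg (· = 0) (Λ.cst a) := by rw [Dg, ← cst_c0, c0_cst]

theorem dg_cst (a : 𝒞.Hom I J) : Λ.Dg (0 ≤ ·) (Λ.cst a) := (dg_cst0 a).mono fun _ h => h.ge

theorem cst_mul (a : 𝒞.Hom I J) (b : 𝒞.Hom J K) : Λ.cst (a * b) = Λ.cst a * Λ.cst b :=
  Λ.e_mul _ _

theorem cst_add (a b : 𝒞.Hom I J) : Λ.cst (a + b) = Λ.cst a + Λ.cst b := map_add Λ.e _ _

theorem cst_sub (a b : 𝒞.Hom I J) : Λ.cst (a - b) = Λ.cst a - Λ.cst b := map_sub Λ.e _ _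

theorem cst_zero : Λ.cst (0 : 𝒞.Hom I J) = 0 := map_zero Λ.e

theorem cst_one : Λ.cst (1 : 𝒞.Hom I I) = 1 := Λ.e_one _

theorem cst_inl : 𝒟.inl I J = Λ.cst (𝒞.inl I J) := (Λ.e_inl _ _).symm

theorem cst_inr : 𝒟.inr I J = Λ.cst (𝒞.inr I J) := (Λ.e_inr _ _).symm

theorem cst_ct (a : 𝒞.Hom I J) : (Λ.cst a).ct = Λ.cst a.ct := (Λ.e_ct _).symm

theorem cst_cols (a : 𝒞.Hom I J) (b : 𝒞.Hom I K) :
    Λ.cst (fromCols a b) = fromCols (Λ.cst a) (Λ.cst b) := by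
  rw [fromCols, fromCols, cst_add, cst_mul, cst_mul, ← cst_inl, ← cst_inr]

theorem c0_add (x y : 𝒟.Hom I J) : Λ.c0 (x + y) = Λ.c0 x + Λ.c0 y := map_add Λ.c _ _

theorem c0_sub (x y : 𝒟.Hom I J) : Λ.c0 (x - y) = Λ.c0 x - Λ.c0 y := map_sub Λ.c _ _

theorem c0_zero : Λ.c0 (0 : 𝒟.Hom I J) = 0 := map_zero Λ.c

theorem c0_one : Λ.c0 (1 : 𝒟.Hom I I) = 1 := by rw [← cst_one (Λ := Λ), c0_cst]

theorem Dg.c0_zero (h : Λ.Dg P x) (h0 : ¬ P 0) : Λ.c0 x = 0 :=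
  cst_inj (Λ := Λ) (by rw [cst_c0, cst_zero, h.fd_zero (Q := (· = 0)) fun n e e' => h0 (e' ▸ e)])

theorem fd_cst (P : ℤ → Prop) (a : 𝒞.Hom I J) (x : 𝒟.Hom J K) :
    Λ.fd P (Λ.cst a * x) = Λ.cst a * Λ.fd P x :=
  fd_mul_left (dg_cst0 a) x fun a b ha => by rw [ha, zero_add]

theorem fd_cst' (P : ℤ → Prop) (x : 𝒟.Hom I J) (a : 𝒞.Hom J K) :
    Λ.fd P (x * Λ.cst a) = Λ.fd P x * Λ.cst a :=
  fd_mul_right x (dg_cst0 a) fun a b hb => by rw [hb, add_zero]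

theorem c0_cst_mul (a : 𝒞.Hom I J) (x : 𝒟.Hom J K) : Λ.c0 (Λ.cst a * x) = a * Λ.c0 x :=
  cst_inj (Λ := Λ) (by rw [cst_c0, fd_cst, cst_mul, cst_c0])

theorem c0_mul_cst (x : 𝒟.Hom I J) (a : 𝒞.Hom J K) : Λ.c0 (x * Λ.cst a) = Λ.c0 x * a :=
  cst_inj (Λ := Λ) (by rw [cst_c0, fd_cst', cst_mul, cst_c0])

theorem c0_cols (a : 𝒟.Hom I J) (b : 𝒟.Hom I K) :
    Λ.c0 (fromCols a b) = fromCols (Λ.c0 a) (Λ.c0 b) := by
  rw [fromCols, fromCols, c0_add, cst_inl (Λ := Λ), cst_inr (Λ := Λ), c0_mul_cst, c0_mul_cst]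

theorem c0_rows (a : 𝒟.Hom I K) (b : 𝒟.Hom J K) :
    Λ.c0 (fromRows a b) = fromRows (Λ.c0 a) (Λ.c0 b) := by
  rw [fromRows, fromRows, c0_add, cst_inl (Λ := Λ), cst_inr (Λ := Λ), cst_ct, cst_ct, c0_cst_mul,
    c0_cst_mul]

theorem c0_blocks (a : 𝒟.Hom I K) (b : 𝒟.Hom I L) (c : 𝒟.Hom J K) (d : 𝒟.Hom J L) :
    Λ.c0 (fromBlocks a b c d) = fromBlocks (Λ.c0 a) (Λ.c0 b) (Λ.c0 c) (Λ.c0 d) := by
  rw [fromBlocks, fromBlocks, c0_rows, c0_cols, c0_cols]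

theorem fd_cols (P : ℤ → Prop) (a : 𝒟.Hom I J) (b : 𝒟.Hom I K) :
    Λ.fd P (fromCols a b) = fromCols (Λ.fd P a) (Λ.fd P b) := by
  rw [fromCols, fromCols, fd_add, cst_inl (Λ := Λ), cst_inr (Λ := Λ), fd_cst', fd_cst']

theorem fd_rows (P : ℤ → Prop) (a : 𝒟.Hom I K) (b : 𝒟.Hom J K) :
    Λ.fd P (fromRows a b) = fromRows (Λ.fd P a) (Λ.fd P b) := by
  rw [fromRows, fromRows, fd_add, cst_inl (Λ := Λ), cst_inr (Λ := Λ), cst_ct, cst_ct, fd_cst,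
    fd_cst]

theorem c0_adj (P : ℤ → Prop) (x : 𝒟.Hom I J) (y : 𝒟.Hom J K) :
    Λ.c0 (Λ.fd P x * y) = Λ.c0 (x * Λ.fd (fun n => P (-n)) y) := by
  have z1 : Λ.c0 (Λ.fd P x * Λ.fd (fun n => ¬ P (-n)) y) = 0 :=
    ((dg_fd _ x).mul (dg_fd _ y) (T := (· ≠ 0)) fun a b ha hb e =>
      hb (by rwa [← eq_neg_of_add_eq_zero_left e])).c0_zero fun e => e rfl
  have z2 : Λ.c0 (Λ.fd (fun n => ¬ P n) x * Λ.fd (fun n => P (-n)) y) = 0 :=
    ((dg_fd _ x).mul (dg_fd _ y) (T := (· ≠ 0)) fun a b ha hb e =>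
      ha (by rwa [eq_neg_of_add_eq_zero_left e])).c0_zero fun e => e rfl
  conv_lhs => rw [← fd_not (Λ := Λ) (fun n => P (-n)) y, Hm.mul_add, c0_add, z1]
  conv_rhs => rw [← fd_not (Λ := Λ) P x, Hm.add_mul, c0_add, z2]

theorem dg_rows {a : 𝒟.Hom I K} {b : 𝒟.Hom J K} :
    Λ.Dg P (fromRows a b) ↔ Λ.Dg P a ∧ Λ.Dg P b := by
  rw [Dg, fd_rows, fromRows_ext_iff, Dg, Dg]

theorem dg_cols {a : 𝒟.Hom I J} {b : 𝒟.Hom I K} :
    Λ.Dg P (fromCols a b) ↔ Λ.Dg P a ∧ Λ.Dg P b := by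
  rw [Dg, fd_cols, fromCols_ext_iff, Dg, Dg]

theorem dg_blocks {a : 𝒟.Hom I K} {b : 𝒟.Hom I L} {c : 𝒟.Hom J K} {d : 𝒟.Hom J L} :
    Λ.Dg P (fromBlocks a b c d) ↔ (Λ.Dg P a ∧ Λ.Dg P b) ∧ Λ.Dg P c ∧ Λ.Dg P d := by
  rw [fromBlocks, dg_rows, dg_cols, dg_cols]

theorem exists_bdd (x : 𝒟.Hom I J) : ∃ N : ℕ, Λ.Dg (fun n => |n| ≤ N) x := Λ.bdd x

theorem dg_one : Λ.Dg (0 ≤ ·) (1 : 𝒟.Hom I I) := cst_one (Λ := Λ) (I := I) ▸ dg_cst 1

theorem dg_zz (n : ℤ) : Λ.Dg (· = n) (Λ.zz I n) := Λ.f_z _ _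

theorem zz_zero : Λ.zz I 0 = 1 := Λ.z_zero _

theorem zz_mul (a b : ℤ) : Λ.zz I a * Λ.zz I b = Λ.zz I (a + b) := Λ.z_add _ _ _

theorem zz_comm (a : ℤ) (x : 𝒟.Hom I J) : Λ.zz I a * x = x * Λ.zz J a := Λ.z_comm _ _

end Lau

end Pool.Agent.Work.MP_9d1ffa_al.Ct
end

-- merged part: Pool.Agent.Work.MP_9d1ffa_al.Ct.KFr
section
/-! Frames of cokernels over a Laurent extension. -/

namespace Pool.Agent.Work.MP_9d1ffa_al.Ct

set_option linter.unusedSectionVars false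
set_option linter.unusedVariables false

namespace Lau

variable {O : Type 1} [Add O] [Zero O] {𝒞 𝒟 : SCat O} {Λ : Lau 𝒞 𝒟} {I J K : O}

theorem KFr_zero (x y : 𝒞.Hom I 0) : x = y := (to_zero x).trans (to_zero y).symm

/-- the cokernel of `m` on the nonnegative part is stably free -/
def Fr (Λ : Lau 𝒞 𝒟) (m : 𝒟.Hom J I) (m' : 𝒟.Hom I J) : Prop :=
  m * m' = 1 ∧ m' * m = 1 ∧ Λ.Dg (0 ≤ ·) m ∧
  ∃ (a b : O) (B : 𝒟.Hom b I) (Ba : 𝒞.Hom b a) (D : 𝒟.Hom I b) (Da : 𝒞.Hom a b),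
    Λ.Dg (0 ≤ ·) B ∧ Λ.c0 (B * D) + Ba * Da = 1 ∧
    (∀ (L : O) (x : 𝒟.Hom L I) (y : 𝒞.Hom L a), Λ.Dg (0 ≤ ·) x →
      Λ.Dg (0 ≤ ·) ((x - Λ.cst (Λ.c0 (x * D) + y * Da) * B) * m') ∧
        (Λ.c0 (x * D) + y * Da) * Ba = y) ∧
    ∀ (L : O) (x : 𝒟.Hom L J), Λ.Dg (0 ≤ ·) x → Λ.c0 (x * (m * D)) = 0

variable {m : 𝒟.Hom J I} {m' : 𝒟.Hom I J} {n : 𝒟.Hom K J} {n' : 𝒟.Hom J K}

theorem Fr.comp (h : Λ.Fr m m') (h' : Λ.Fr n n') : Λ.Fr (n * m) (m' * n') := by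
  obtain ⟨m1, m2, m3, a, b, B, Ba, D, Da, p0, p1, p2, p3⟩ := h
  obtain ⟨n1, n2, n3, a₂, b₂, B₂, Ba₂, D₂, Da₂, q0, q1, q2, q3⟩ := h'
  have mm : ∀ {X : O} (y : 𝒟.Hom J X), m * (m' * y) = y :=
    fun y => by rw [← Hm.mul_assoc, m1, Hm.one_mul]
  refine ⟨?_, ?_, n3.pmul m3, a + a₂, b + b₂, fromRows B (B₂ * m), fromBlocks Ba 0 0 Ba₂,
    fromCols D (m' * D₂ - D * Λ.cst (Λ.c0 (B * (m' * D₂)))),
    fromBlocks Da (-(Da * Λ.c0 (B * (m' * D₂)))) 0 Da₂, dg_rows.2 ⟨p0, q0.pmul m3⟩, ?_,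
    fun L x y hx => ?_, fun L x hx => ?_⟩
  · rw [Hm.mul_assoc, mm, n1]
  · rw [Hm.mul_assoc, ← Hm.mul_assoc n', n2, Hm.one_mul, m2]
  · have e := p3 _ B₂ q0
    rw [fromRows_mul_fromCols, c0_blocks, fromBlocks_multiply, fromBlocks_add, ← fromBlocks_one]
    simp only [Hm.mul_sub, c0_sub, Hm.mul_assoc, mm, Hm.zero_mul, Hm.mul_zero,
      add_zero, zero_add, Hm.mul_neg, e, neg_zero]
    rw [← Hm.mul_assoc B D, ← Hm.mul_assoc m D, ← Hm.mul_assoc B₂ (m * D), c0_mul_cst,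
      c0_mul_cst, e, Hm.zero_mul, sub_zero, p1, q1, ← Hm.mul_assoc Ba, ← sub_eq_add_neg,
      sub_sub, ← Hm.add_mul, p1, Hm.one_mul, sub_self]
  · obtain ⟨r1, r2⟩ := p2 L x y.toCols₁ hx
    obtain ⟨r3, r4⟩ := q2 L _ y.toCols₂ r1
    have e : Λ.c0 (x * fromCols D (m' * D₂ - D * Λ.cst (Λ.c0 (B * (m' * D₂))))) +
        y * fromBlocks Da (-(Da * Λ.c0 (B * (m' * D₂)))) 0 Da₂ =
        fromCols (Λ.c0 (x * D) + y.toCols₁ * Da)
          (Λ.c0 ((x - Λ.cst (Λ.c0 (x * D) + y.toCols₁ * Da) * B) * m' * D₂) +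
            y.toCols₂ * Da₂) := by
      conv_lhs => rw [← fromCols_toCols y]
      rw [mul_fromCols, c0_cols, fromCols_mul_fromBlocks, fromCols_add]
      simp only [Hm.mul_sub, Hm.sub_mul, c0_sub, Hm.mul_assoc, c0_cst_mul,
        Hm.mul_zero, add_zero, Hm.add_mul, Hm.mul_neg]
      rw [← Hm.mul_assoc x D, c0_mul_cst]
      congr 1
      abel
    rw [e, cst_cols, fromCols_mul_fromRows, fromCols_mul_fromBlocks, Hm.mul_zero,
      Hm.mul_zero, add_zero, zero_add, r2, r4, fromCols_toCols]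
    refine ⟨?_, rfl⟩
    convert r3 using 1
    simp only [Hm.sub_mul, Hm.add_mul, Hm.mul_assoc, mm, sub_sub]
  · have e := p3 _ _ (hx.pmul n3)
    rw [mul_fromCols, mul_fromCols, c0_cols, ← fromCols_zero]
    simp only [Hm.mul_sub, c0_sub, Hm.mul_assoc, mm] at e ⊢
    rw [q3 _ x hx, ← Hm.mul_assoc m, ← Hm.mul_assoc n (m * D), ← Hm.mul_assoc x _ (Λ.cst _),
      c0_mul_cst, e, Hm.zero_mul, sub_zero]

theorem Fr.cancel (h : Λ.Fr (n * m) (m' * n')) (h' : Λ.Fr n n') (m1 : m * m' = 1)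
    (m2 : m' * m = 1) (m3 : Λ.Dg (0 ≤ ·) m) : Λ.Fr m m' := by
  obtain ⟨-, -, -, a, b, B, Ba, D, Da, p0, p1, p2, p3⟩ := h
  obtain ⟨n1, n2, n3, a₂, b₂, B₂, Ba₂, D₂, Da₂, q0, q1, q2, q3⟩ := h'
  have mm : ∀ {X : O} (y : 𝒟.Hom J X), m * (m' * y) = y :=
    fun y => by rw [← Hm.mul_assoc, m1, Hm.one_mul]
  have nn : ∀ {X : O} (y : 𝒟.Hom J X), n' * (n * y) = y :=
    fun y => by rw [← Hm.mul_assoc, n2, Hm.one_mul]
  have k0 : ∀ {L : O} (x : 𝒟.Hom L J), Λ.Dg (0 ≤ ·) (x * n') → Λ.c0 (x * (m * D)) = 0 :=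
    fun x hx => by
      have := p3 _ _ hx
      rwa [Hm.mul_assoc, Hm.mul_assoc, nn] at this
  have k1 : ∀ {L : O} (x : 𝒟.Hom L I), Λ.c0 (x * (m' * Λ.fd (0 < ·) (m * D))) =
      Λ.c0 ((x - Λ.fd (0 ≤ ·) (x * m') * m) * D) := fun x => by
    have e : x - Λ.fd (0 ≤ ·) (x * m') * m = Λ.fd (fun n => ¬ 0 ≤ n) (x * m') * m := by
      rw [sub_eq_iff_eq_add', ← Hm.add_mul, fd_not, Hm.mul_assoc, m2, Hm.mul_one]
    rw [e, Hm.mul_assoc, c0_adj, Hm.mul_assoc]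
    simp only [Left.nonneg_neg_iff, not_le]
  refine ⟨m1, m2, m3, b₂ + a, b + a₂, fromRows B 0,
    fromBlocks (Λ.c0 (Λ.fd (0 ≤ ·) (B * m') * D₂)) Ba Da₂ 0,
    fromCols (m' * Λ.fd (0 < ·) (m * D)) 0,
    fromBlocks (Λ.c0 (B₂ * (m * D))) Ba₂ Da 0, dg_rows.2 ⟨p0, dg_zero⟩, ?_,
    fun L x y hx => ?_, fun L x hx => ?_⟩
  · obtain ⟨r1, r2⟩ := q2 _ _ 0 (dg_fd (Λ := Λ) (0 ≤ ·) (B * m'))
    obtain ⟨r3, r4⟩ := q2 a₂ 0 1 dg_zero
    have r5 := k0 _ r1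
    have r6 := k0 _ r3
    rw [Hm.sub_mul, c0_sub] at r6
    simp only [Hm.zero_mul, add_zero, zero_add, c0_zero, Hm.one_mul, Hm.sub_mul, c0_sub,
      Hm.mul_assoc, c0_cst_mul] at r2 r4 r5 r6
    rw [zero_sub, neg_eq_zero] at r6
    rw [fromRows_mul_fromCols, c0_blocks, fromBlocks_multiply, fromBlocks_add, ← fromBlocks_one, k1]
    simp only [Hm.zero_mul, Hm.mul_zero, add_zero, zero_add, c0_zero, r2, r4, r6,
      Hm.sub_mul, c0_sub, Hm.mul_assoc]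
    rw [← sub_eq_zero.1 r5, ← add_assoc, sub_add_cancel, p1]
  · have hx' : Λ.Dg (0 ≤ ·) (x - Λ.fd (0 ≤ ·) (x * m') * m + Λ.cst y.toCols₁ * B₂ * m) :=
      (hx.sub ((dg_fd _ _).pmul m3)).add (((dg_cst _).pmul q0).pmul m3)
    obtain ⟨r1, r2⟩ := p2 L _ y.toCols₂ hx'
    have e : Λ.c0 (x * fromCols (m' * Λ.fd (0 < ·) (m * D)) (0 : 𝒟.Hom I a₂)) +
        y * fromBlocks (Λ.c0 (B₂ * (m * D))) Ba₂ Da 0 =
        fromCols (Λ.c0 ((x - Λ.fd (0 ≤ ·) (x * m') * m + Λ.cst y.toCols₁ * B₂ * m) * D) +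
          y.toCols₂ * Da) (y.toCols₁ * Ba₂) := by
      conv_lhs => rw [← fromCols_toCols y]
      rw [mul_fromCols, c0_cols, fromCols_mul_fromBlocks, fromCols_add, k1]
      simp only [Hm.mul_zero, c0_zero, add_zero, zero_add, Hm.add_mul, c0_add,
        Hm.mul_assoc, c0_cst_mul, add_assoc]
    rw [e]
    generalize Λ.c0 ((x - Λ.fd (0 ≤ ·) (x * m') * m + Λ.cst y.toCols₁ * B₂ * m) * D) +
      y.toCols₂ * Da = c at r1 r2 ⊢
    set p := (x - Λ.fd (0 ≤ ·) (x * m') * m + Λ.cst y.toCols₁ * B₂ * m - Λ.cst c * B) * (m' * n')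
      with hp
    have e1 : Λ.cst c * (B * m') =
        x * m' - Λ.fd (0 ≤ ·) (x * m') + (Λ.cst y.toCols₁ * B₂ - p * n) := by
      rw [hp]
      simp only [Hm.mul_assoc, n2, Hm.mul_one, Hm.sub_mul, Hm.add_mul, m1]
      abel
    have e2 : Λ.Dg (0 ≤ ·) (Λ.cst y.toCols₁ * B₂ - p * n) :=
      ((dg_cst _).pmul q0).sub (r1.pmul n3)
    rw [cst_cols, fromCols_mul_fromRows, fromCols_mul_fromBlocks, Hm.mul_zero,
      Hm.mul_zero, add_zero, add_zero, r2]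
    refine ⟨?_, ?_⟩
    · rw [Hm.sub_mul, Hm.mul_assoc, e1, ← sub_sub, sub_sub_cancel]
      exact (dg_fd _ _).sub e2
    · have e3 : c * Λ.c0 (Λ.fd (0 ≤ ·) (B * m') * D₂) = y.toCols₁ * Λ.c0 (B₂ * D₂) := by
        rw [← c0_cst_mul, ← Hm.mul_assoc, ← fd_cst, e1, fd_add, fd_sub, dg_fd, sub_self,
          zero_add, e2, Hm.sub_mul, c0_sub, Hm.mul_assoc, Hm.mul_assoc, q3 _ _ r1,
          sub_zero, c0_cst_mul]
      rw [e3, Hm.mul_assoc, ← Hm.mul_add, q1, Hm.mul_one, fromCols_toCols]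
  · rw [mul_fromCols, mul_fromCols, c0_cols, mm, Hm.mul_zero, Hm.mul_zero, c0_zero,
      (hx.mul (dg_fd _ _) (T := (0 < ·)) fun _ _ => add_pos_of_nonneg_of_pos).c0_zero
        (lt_irrefl _), fromCols_zero]

theorem fr_unit (m1 : m * m' = 1) (m2 : m' * m = 1) (m3 : Λ.Dg (0 ≤ ·) m)
    (m4 : Λ.Dg (0 ≤ ·) m') : Λ.Fr m m' :=
  ⟨m1, m2, m3, 0, 0, 0, 0, 0, 0,
    dg_zero, KFr_zero _ _, fun L x y hx =>
      ⟨by rw [Hm.mul_zero, sub_zero]; exact hx.pmul m4, KFr_zero _ _⟩,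
    fun _ _ _ => KFr_zero _ _⟩

theorem Fr.destab (h : Λ.Fr (fromBlocks m 0 0 (1 : 𝒟.Hom K K)) (fromBlocks m' 0 0 1)) :
    Λ.Fr m m' := by
  obtain ⟨m1, m2, m3, a, b, B, Ba, D, Da, p0, p1, p2, p3⟩ := h
  rw [← fromCols_toCols B] at p0 p1 p2
  rw [← fromRows_toRows D] at p1 p2 p3
  rw [fromBlocks_multiply, ← fromBlocks_one, fromBlocks_inj] at m1 m2
  simp only [Hm.mul_zero, add_zero] at m1 m2
  simp only [fromBlocks_mul_fromRows, Hm.zero_mul, add_zero, zero_add, Hm.one_mul] at p3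
  refine ⟨m1.1, m2.1, (dg_blocks.1 m3).1.1, a, b, B.toCols₁, Ba, D.toRows₁, Da, (dg_cols.1 p0).1, ?_, fun L x y hx => ?_,
    fun L x hx => ?_⟩
  · have e := p3 _ (fromCols 0 B.toCols₂) (dg_cols.2 ⟨dg_zero, (dg_cols.1 p0).2⟩)
    rw [fromCols_mul_fromRows, Hm.zero_mul, zero_add] at e
    rwa [fromCols_mul_fromRows, c0_add, e, add_zero] at p1
  · obtain ⟨r1, r2⟩ := p2 L (fromCols x 0) y (dg_cols.2 ⟨hx, dg_zero⟩)
    rw [fromCols_mul_fromRows, Hm.zero_mul, add_zero] at r1 r2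
    rw [Hm.sub_mul, mul_fromCols, fromCols_mul_fromBlocks, fromCols_mul_fromBlocks,
      sub_eq_add_neg, fromCols_neg, fromCols_add] at r1
    refine ⟨?_, r2⟩
    simpa only [Hm.mul_zero, add_zero, ← sub_eq_add_neg, Hm.sub_mul]
      using (dg_cols.1 r1).1
  · simpa only [fromCols_mul_fromRows, Hm.zero_mul, add_zero]
      using p3 L (fromCols x 0) (dg_cols.2 ⟨hx, dg_zero⟩)

theorem Fr.stab (h : Λ.Fr m m') :
    Λ.Fr (fromBlocks m 0 0 (1 : 𝒟.Hom K K)) (fromBlocks m' 0 0 1) := by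
  obtain ⟨m1, m2, m3, a, b, B, Ba, D, Da, p0, p1, p2, p3⟩ := h
  refine ⟨?_, ?_, dg_blocks.2 ⟨⟨m3, dg_zero⟩, dg_zero, dg_one⟩, a, b,
    fromCols B 0, Ba, fromRows D 0, Da, dg_cols.2 ⟨p0, dg_zero⟩, ?_,
    fun L x y hx => ?_, fun L x hx => ?_⟩
  · simp [fromBlocks_multiply, m1]
  · simp [fromBlocks_multiply, m2]
  · rwa [fromCols_mul_fromRows, Hm.mul_zero, add_zero]
  · rw [← fromCols_toCols x] at hx ⊢
    obtain ⟨r1, r2⟩ := p2 L _ y (dg_cols.1 hx).1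
    rw [fromCols_mul_fromRows, Hm.mul_zero, add_zero, Hm.sub_mul, mul_fromCols,
      fromCols_mul_fromBlocks, fromCols_mul_fromBlocks, sub_eq_add_neg, fromCols_neg, fromCols_add]
    refine ⟨dg_cols.2 ⟨?_, ?_⟩, r2⟩
    · simpa only [Hm.mul_zero, add_zero, ← sub_eq_add_neg, Hm.sub_mul] using r1
    · simpa only [Hm.mul_zero, add_zero, zero_add, Hm.mul_one, neg_zero]
        using (dg_cols.1 hx).2
  · rw [← fromCols_toCols x] at hx ⊢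
    simpa only [fromBlocks_mul_fromRows, fromCols_mul_fromRows, Hm.mul_zero, Hm.zero_mul,
      add_zero] using p3 L _ (dg_cols.1 hx).1

end Lau

end Pool.Agent.Work.MP_9d1ffa_al.Ct
end

-- merged part: Pool.Agent.Work.MP_9d1ffa_al.Ct.KWin
section
/-! Windows: the cokernel as the image of an idempotent matrix. -/

namespace Pool.Agent.Work.MP_9d1ffa_al.Ct

set_option linter.unusedSectionVars false
set_option linter.unusedVariables false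

variable {O : Type 1} [Add O] [Zero O]

/-- a finite sum of copies of an object -/
def wo (I : O) : ℕ → O
  | 0 => 0
  | n + 1 => wo I n + I

namespace Lau

variable {𝒞 𝒟 : SCat O} {Λ : Lau 𝒞 𝒟} {I J K L : O}

/-- the basis of the window -/
def wi (Λ : Lau 𝒞 𝒟) (I : O) : ∀ n, 𝒟.Hom (wo I n) I
  | 0 => 0
  | n + 1 => fromRows (wi Λ I n) (Λ.zz I n)

/-- the coordinates of the window -/
def wc (Λ : Lau 𝒞 𝒟) (I : O) : ∀ n, 𝒟.Hom I (wo I n)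
  | 0 => 0
  | n + 1 => fromCols (wc Λ I n) (Λ.zz I (-n))

theorem dg_wi (n : ℕ) : Λ.Dg (0 ≤ ·) (Λ.wi I n) := by
  induction n with
  | zero => exact dg_zero
  | succ n ih => exact dg_rows.2 ⟨ih, (dg_zz _).mono fun _ h => by omega⟩

theorem KWin_fd (n : ℕ) (x : 𝒟.Hom L I) :
    Λ.cst (Λ.c0 (x * Λ.wc I n)) * Λ.wi I n = Λ.fd (fun j => 0 ≤ j ∧ j < n) x := by
  induction n with
  | zero =>
    have : (fun j : ℤ => 0 ≤ j ∧ j < (0 : ℕ)) = fun _ => False :=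
      funext fun j => propext ⟨fun h => by omega, False.elim⟩
    rw [this]
    exact (Hm.mul_zero _).trans (Λ.f_false _).symm
  | succ n ih =>
    have e1 : Λ.fd (· = 0) (x * Λ.zz I (-n)) * Λ.zz I n = Λ.fd (· = n) x := by
      rw [fd_mul_right (P := (· = n)) x (dg_zz _) fun a b hb => by omega, Hm.mul_assoc, zz_mul,
        neg_add_cancel, zz_zero, Hm.mul_one]
    have e2 : Λ.cst (Λ.c0 (x * fromCols (Λ.wc I n) (Λ.zz I (-n)))) *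
        fromRows (Λ.wi I n) (Λ.zz I n) = Λ.fd (fun j => 0 ≤ j ∧ j < (n + 1 : ℕ)) x := by
      rw [mul_fromCols, c0_cols, cst_cols, fromCols_mul_fromRows, ih, cst_c0, e1,
        ← fd_not (Λ := Λ) (fun j => j < n) (Λ.fd (fun j => 0 ≤ j ∧ j < (n + 1 : ℕ)) x), fd_fd, fd_fd]
      congr 2 <;> funext j <;> apply propext <;> push_cast <;> omega
    exact e2

theorem win_repr (n : ℕ) {x : 𝒟.Hom L I} (h : Λ.Dg (fun j => 0 ≤ j ∧ j < n) x) :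
    Λ.cst (Λ.c0 (x * Λ.wc I n)) * Λ.wi I n = x := (KWin_fd n x).trans h

/-- the idempotent of the window -/
def win (Λ : Lau 𝒞 𝒟) (n : ℕ) (m : 𝒟.Hom J I) (m' : 𝒟.Hom I J) :
    𝒞.Hom (wo I n) (wo I n) :=
  Λ.c0 (Λ.fd (· < 0) (Λ.wi I n * m') * m * Λ.wc I n)

variable {m : 𝒟.Hom J I} {m' : 𝒟.Hom I J} {n : ℕ}

theorem KWin_pi (m2 : m' * m = 1) (x : 𝒟.Hom L I) :
    Λ.fd (· < 0) (x * m') * m = x - Λ.fd (0 ≤ ·) (x * m') * m := by
  have := fd_not (Λ := Λ) (· < 0) (x * m')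
  simp only [not_lt] at this
  rw [eq_sub_iff_add_eq, ← Hm.add_mul, this, Hm.mul_assoc, m2, Hm.mul_one]

theorem KWin_repr (m2 : m' * m = 1) (m3 : Λ.Dg (0 ≤ ·) m) (m4 : Λ.Dg (· ≤ n) m)
    {x : 𝒟.Hom L I} (hx : Λ.Dg (0 ≤ ·) x) :
    Λ.cst (Λ.c0 (Λ.fd (· < 0) (x * m') * m * Λ.wc I n)) * Λ.wi I n =
      Λ.fd (· < 0) (x * m') * m := by
  refine win_repr n (Dg.and ?_ ((dg_fd _ _).mul m4 fun a b ha hb => by omega))
  rw [KWin_pi m2]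
  exact hx.sub ((dg_fd _ _).pmul m3)

theorem KWin_mul (m1 : m * m' = 1) (m2 : m' * m = 1) (m3 : Λ.Dg (0 ≤ ·) m) (m4 : Λ.Dg (· ≤ n) m)
    {x : 𝒟.Hom L I} (hx : Λ.Dg (0 ≤ ·) x) :
    Λ.c0 (Λ.fd (· < 0) (x * m') * m * Λ.wc I n) * Λ.win n m m' =
      Λ.c0 (Λ.fd (· < 0) (x * m') * m * Λ.wc I n) := by
  rw [win, ← c0_cst_mul, ← Hm.mul_assoc, ← Hm.mul_assoc, ← fd_cst,
    ← Hm.mul_assoc (Λ.cst _), KWin_repr m2 m3 m4 hx, Hm.mul_assoc _ m m', m1,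
    Hm.mul_one, dg_fd]

theorem win_idem (m1 : m * m' = 1) (m2 : m' * m = 1) (m3 : Λ.Dg (0 ≤ ·) m)
    (m4 : Λ.Dg (· ≤ n) m) : Λ.win n m m' * Λ.win n m m' = Λ.win n m m' :=
  KWin_mul m1 m2 m3 m4 (dg_wi n)

theorem fr_win (m1 : m * m' = 1) (m2 : m' * m = 1) (m3 : Λ.Dg (0 ≤ ·) m) (m4 : Λ.Dg (· ≤ n) m)
    (h : SFIdem (Λ.win n m m')) : Λ.Fr m m' := by
  obtain ⟨a, b, U, W, h1, h2⟩ := h
  rw [← fromCols_toCols U, ← fromRows_toRows W] at h1 h2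
  rw [fromCols_mul_fromRows] at h1
  rw [fromRows_mul_fromCols, fromBlocks_inj] at h2
  obtain ⟨w1, w2, w3, w4⟩ := h2
  have k : ∀ {L : O} (x : 𝒟.Hom L I),
      Λ.c0 (x * (m' * Λ.fd (0 < ·) (m * Λ.wc I n) * Λ.cst W.toRows₁)) =
      Λ.c0 (Λ.fd (· < 0) (x * m') * m * Λ.wc I n) * W.toRows₁ := fun x => by
    rw [← Hm.mul_assoc, c0_mul_cst, Hm.mul_assoc _ m, c0_adj, Hm.mul_assoc]
    simp only [Left.neg_neg_iff]
  refine ⟨m1, m2, m3, a, b, Λ.cst U.toCols₁ * Λ.wi I n, U.toCols₂, m' * Λ.fd (0 < ·) (m * Λ.wc I n) * Λ.cst W.toRows₁,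
    W.toRows₂, (dg_cst _).pmul (dg_wi n), ?_, fun L x y hx => ?_, fun L x hx => ?_⟩
  · rw [k, Hm.mul_assoc (Λ.cst _), fd_cst, Hm.mul_assoc (Λ.cst _),
      Hm.mul_assoc (Λ.cst _), c0_cst_mul, ← win, ← w1, ← h1]
    congr 1
    rw [← Hm.mul_assoc, Hm.mul_assoc, eq_sub_of_add_eq h1, Hm.mul_sub, Hm.mul_one,
      Hm.sub_mul, Hm.one_mul, Hm.mul_assoc, ← Hm.mul_assoc W.toRows₂, w4,
      Hm.one_mul, sub_self, sub_zero]
  · rw [k, ← Hm.mul_assoc (Λ.cst _), ← cst_mul, Hm.add_mul, Hm.add_mul,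
      Hm.mul_assoc _ W.toRows₁, Hm.mul_assoc _ W.toRows₁, Hm.mul_assoc y,
      Hm.mul_assoc y, w1, w2, w3, w4, KWin_mul m1 m2 m3 m4 hx, Hm.mul_zero, Hm.mul_zero,
      add_zero, zero_add, Hm.mul_one, KWin_repr m2 m3 m4 hx, KWin_pi m2, sub_sub_cancel,
      Hm.mul_assoc, m1, Hm.mul_one]
    exact ⟨dg_fd _ _, rfl⟩
  · rw [← Hm.mul_assoc, k, Hm.mul_assoc x, m1, Hm.mul_one,
      hx.fd_zero fun _ e e' => not_lt.2 e e', Hm.zero_mul, Hm.zero_mul, c0_zero,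
      Hm.zero_mul]

theorem fr_z : Λ.Fr (Λ.zz I 1) (Λ.zz I (-1)) := by
  refine ⟨by rw [zz_mul, add_neg_cancel, zz_zero], by rw [zz_mul, neg_add_cancel, zz_zero],
    (dg_zz 1).mono fun _ h => by omega, 0, I, 1, 0, 1, 0, dg_one, ?_, fun L x y hx => ⟨?_, KFr_zero _ _⟩,
    fun L x hx => ?_⟩
  · rw [Hm.mul_one, c0_one, Hm.mul_zero, add_zero]
  · rw [Hm.mul_one, Hm.mul_zero, add_zero, Hm.mul_one, cst_c0,
      sub_eq_of_eq_add' (fd_not (Λ := Λ) (· = 0) x).symm, ← hx, fd_fd]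
    exact (dg_fd _ _).mul (dg_zz _) fun a b ha hb => by omega
  · rw [Hm.mul_one]
    exact (hx.mul (dg_zz 1) (T := (0 < ·)) fun a b ha hb => by omega).c0_zero (lt_irrefl _)

theorem fr_zz (n : ℕ) : Λ.Fr (Λ.zz I n) (Λ.zz I (-n)) := by
  induction n with
  | zero =>
    rw [Nat.cast_zero, neg_zero, zz_zero]
    exact fr_unit (Hm.mul_one _) (Hm.mul_one _) dg_one dg_one
  | succ n ih =>
    have := ih.comp fr_z
    rw [zz_mul, zz_mul] at this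
    convert this using 2 <;> push_cast <;> ring

/-- the cokernel of the standard matrix of an idempotent -/
theorem Fr.sf {E : 𝒞.Hom I I} (hE : E * E = E)
    (h : Λ.Fr (Λ.zz I 1 * Λ.cst E + Λ.cst (1 - E)) (Λ.zz I (-1) * Λ.cst E + Λ.cst (1 - E))) :
    SFIdem E := by
  obtain ⟨m1, m2, m3, a, b, B, Ba, D, Da, p0, p1, p2, p3⟩ := h
  have k : ∀ {L : O} (x : 𝒟.Hom L I),
      Λ.Dg (0 ≤ ·) (x * (Λ.zz I (-1) * Λ.cst E + Λ.cst (1 - E))) → Λ.c0 x * E = 0 := fun x hx => by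
    have := ((hx.pmul (dg_cst E)).mul (dg_zz 1) (T := (0 < ·)) fun a b ha hb => by omega).c0_zero
      (lt_irrefl _)
    rwa [Hm.mul_assoc x, Hm.add_mul, Hm.mul_assoc _ (Λ.cst E), ← cst_mul, ← cst_mul, hE,
      Hm.sub_mul, Hm.one_mul, hE, sub_self, cst_zero, add_zero, Hm.mul_assoc,
      ← zz_comm, ← Hm.mul_assoc (Λ.zz I 1), zz_mul, add_neg_cancel, zz_zero, Hm.one_mul,
      c0_mul_cst] at this
  obtain ⟨r1, r2⟩ := p2 I (Λ.cst E) 0 (dg_cst E)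
  obtain ⟨r3, r4⟩ := p2 a 0 1 dg_zero
  have r5 := k _ r1
  have r6 := k _ r3
  simp only [Hm.zero_mul, add_zero, zero_add, c0_zero, Hm.one_mul, c0_sub, c0_cst_mul,
    c0_cst, Hm.sub_mul, hE] at r2 r4 r5 r6
  rw [zero_sub, neg_eq_zero] at r6
  have r7 : Λ.c0 (B * D) = Λ.c0 B * E * Λ.c0 D := by
    have h1 : Λ.Dg (0 ≤ ·) ((B - Λ.cst (Λ.c0 B * E)) *
        (Λ.zz I (-1) * Λ.cst E + Λ.cst (1 - E))) := by
      rw [Hm.mul_add]
      refine Dg.add ?_ ((p0.sub (dg_cst _)).pmul (dg_cst _))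
      rw [zz_comm, ← Hm.mul_assoc, Hm.sub_mul, ← cst_mul, Hm.mul_assoc _ E, hE, cst_mul,
        ← Hm.sub_mul, cst_c0, sub_eq_of_eq_add' (fd_not (Λ := Λ) (· = 0) B).symm, ← p0, fd_fd]
      exact ((dg_fd _ _).mul (dg_cst E) (T := (0 < ·)) fun a b ha hb => by omega).mul (dg_zz _)
        fun a b ha hb => by omega
    have := p3 _ _ h1
    rwa [Hm.mul_assoc, ← Hm.mul_assoc _ _ D, m2, Hm.one_mul, Hm.sub_mul, c0_sub,
      c0_cst_mul, sub_eq_zero] at this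
  refine ⟨a, b,
    fromCols (Λ.c0 B * E) Ba, fromRows (E * Λ.c0 D) Da, ?_, ?_⟩
  · rw [fromCols_mul_fromRows, ← p1, r7, Hm.mul_assoc, ← Hm.mul_assoc E, hE,
      Hm.mul_assoc]
  · rw [fromRows_mul_fromCols, r2, r4, ← Hm.mul_assoc, ← Hm.mul_assoc, r6,
      ← sub_eq_zero.1 r5]

end Lau

end Pool.Agent.Work.MP_9d1ffa_al.Ct
end

-- merged part: Pool.Agent.Work.MP_9d1ffa_al.Ct.CWin
section
/-! Finite windows over a Laurent extension. -/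

namespace Pool.Agent.Work.MP_9d1ffa_al.Ct

set_option linter.unusedSectionVars false
set_option linter.unusedVariables false

open MonoidAlgebra

variable {X Γ V A : Type} [Group Γ] [Group V] [Group A] {ε : ℤˣ} {ρ : Γ →* Equiv.Perm X}
  {ρV : V →* Equiv.Perm X} {ρA : A →* Equiv.Perm X} {I J J' K L M N κ κ' : Ob X}

theorem OWin_range {γ : V × Multiplicative ℤ} :
    (∃ h, (TC.line ρV).vh.f h = γ) ↔ γ.2.toAdd = 0 :=
  ⟨fun ⟨h, e⟩ => e ▸ rfl, fun e => ⟨γ.1, Prod.ext rfl (Multiplicative.toAdd.injective e.symm)⟩⟩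

theorem OWin_sup_mp {M M' : Ob X} (A : (OC ρV).Hom M M') :
    Sup (fun γ => γ.2.toAdd = 0) (mp (TC.line ρV).vh A) :=
  (sup_mp _ A).mono fun _ h => OWin_range.1 h

theorem OWin_mul {M M' M'' : Ob X} {P Q T : ℤ → Prop}
    {A : (OC (ln ρV)).Hom M M'} {B : (OC (ln ρV)).Hom M' M''}
    (hA : Sup (fun γ => P γ.2.toAdd) A) (hB : Sup (fun γ => Q γ.2.toAdd) B)
    (h : ∀ a b, P a → Q b → T (a + b)) : Sup (fun γ => T γ.2.toAdd) (A * B) :=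
  hA.mul hB fun _ _ ha hb => h _ _ ha hb

theorem OWin_ct {M M' : Ob X} {P : ℤ → Prop} {A : (OC (ln ρV)).Hom M M'}
    (hA : Sup (fun γ => P γ.2.toAdd) A) : Sup (fun γ => P (-γ.2.toAdd)) A.ct := hA.ct

theorem OWin_adj {M M' M'' : Ob X} (P : ℤ → Prop)
    (A : (OC (ln ρV)).Hom M M') (B : (OC (ln ρV)).Hom M'' M') :
    rs (TC.line ρV).vh (TC.line ρV).hV (fm (fun γ => P γ.2.toAdd) A * B.ct) =
      rs (TC.line ρV).vh (TC.line ρV).hV (A * (fm (fun γ => P γ.2.toAdd) B).ct) := by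
  have z1 : rs (TC.line ρV).vh (TC.line ρV).hV
      (fm (fun γ => P γ.2.toAdd) A * (fm (fun γ => ¬ P γ.2.toAdd) B).ct) = 0 :=
    (OWin_mul (P := P) (Q := fun b => ¬ P (-b)) (T := fun c => c ≠ 0) (sup_fm _ A)
      (OWin_ct (P := fun b => ¬ P b) (sup_fm _ B)) fun a b ha hb e =>
        hb (by rwa [← eq_neg_of_add_eq_zero_left e])).rs_zero fun x hx => hx rfl
  have z2 : rs (TC.line ρV).vh (TC.line ρV).hV
      (fm (fun γ => ¬ P γ.2.toAdd) A * (fm (fun γ => P γ.2.toAdd) B).ct) = 0 :=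
    (OWin_mul (P := fun a => ¬ P a) (Q := fun b => P (-b)) (T := fun c => c ≠ 0) (sup_fm _ A)
      (OWin_ct (P := P) (sup_fm _ B)) fun a b ha hb e =>
        ha (by rwa [eq_neg_of_add_eq_zero_left e])).rs_zero fun x hx => hx rfl
  calc _ = rs (TC.line ρV).vh (TC.line ρV).hV (fm (fun γ => P γ.2.toAdd) A *
        (fm (fun γ => P γ.2.toAdd) B + fm (fun γ => ¬ P γ.2.toAdd) B).ct) := by rw [fm_add_not]
    _ = rs (TC.line ρV).vh (TC.line ρV).hV ((fm (fun γ => P γ.2.toAdd) A +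
        fm (fun γ => ¬ P γ.2.toAdd) A) * (fm (fun γ => P γ.2.toAdd) B).ct) := by
      rw [conjTranspose_add, Hm.mul_add, Hm.add_mul, rs_add, rs_add, z1, z2]
    _ = _ := by rw [fm_add_not]

/-- the powers of the stable letter -/
def OWin_s (V : Type) [Group V] (k : ℕ) : V × Multiplicative ℤ :=
  (1, Multiplicative.ofAdd ((k : ℤ) + 1))

/-- the translation by a power of the stable letter -/
noncomputable def OWin_z (ρV : V →* Equiv.Perm X) (I : Ob X) (k : ℕ) :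
    TU (ln ρV) (OWin_s V k) I I := TU.cen (ln ρV) (OWin_s V k) (map_one ρV) I

/-- the basis of the window -/
noncomputable def OWin_i (ρV : V →* Equiv.Perm X) (I : Ob X) :
    ∀ n : ℕ, (OC (ln ρV)).Hom (wo I n) I
  | 0 => 0
  | n + 1 => fromRows (OWin_i ρV I n) (OWin_z ρV I n).T

theorem OWin_sup_i (n : ℕ) : Sup (fun γ => 1 ≤ γ.2.toAdd) (OWin_i ρV I n) := by
  induction n with
  | zero => exact sup_zero
  | succ n ih =>
    refine sup_fromRows.2 ⟨ih, (OWin_z ρV I n).sup.mono ?_⟩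
    rintro _ rfl
    change (1 : ℤ) ≤ (n : ℤ) + 1
    omega

theorem OWin_fm (n : ℕ) (x : (OC (ln ρV)).Hom M I) :
    mp (TC.line ρV).vh (rs (TC.line ρV).vh (TC.line ρV).hV (x * (OWin_i ρV I n).ct)) *
      OWin_i ρV I n = fm (fun γ => 1 ≤ γ.2.toAdd ∧ γ.2.toAdd ≤ (n : ℤ)) x := by
  induction n with
  | zero =>
    refine (Hm.mul_zero _).trans ((sup_true x).fm_zero fun γ _ h => ?_).symm
    omega
  | succ n ih =>
    have e1 : fm (fun γ => ∃ h, (TC.line ρV).vh.f h = γ) (x * (OWin_z ρV I n).T.ct) *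
        (OWin_z ρV I n).T = fm (fun γ => γ.2.toAdd = (n : ℤ) + 1) x := by
      rw [fm_mul_right (S := fun γ => γ.2.toAdd = (n : ℤ) + 1) x (OWin_z ρV I n).sup_ct,
        Hm.mul_assoc, TU.u2, Hm.mul_one]
      rintro a _ rfl
      rw [OWin_range]
      change a.2.toAdd + -((n : ℤ) + 1) = 0 ↔ _
      omega
    have e2 : mp (TC.line ρV).vh (rs (TC.line ρV).vh (TC.line ρV).hV
        (x * (fromRows (OWin_i ρV I n) (OWin_z ρV I n).T).ct)) *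
        fromRows (OWin_i ρV I n) (OWin_z ρV I n).T =
        fm (fun γ => 1 ≤ γ.2.toAdd ∧ γ.2.toAdd ≤ ((n + 1 : ℕ) : ℤ)) x := by
      rw [conjTranspose_fromRows_eq_fromCols_conjTranspose, mul_fromCols, rs_fromCols,
        mp_fromCols, fromCols_mul_fromRows, ih, mp_rs, e1]
      refine hom_ext fun i j γ => ?_
      rw [val_add, Matrix.add_apply, coeff_add, Finsupp.add_apply, coeff_fm, coeff_fm, coeff_fm]
      split_ifs <;> omega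
    exact e2

theorem OWin_repr (n : ℕ) {x : (OC (ln ρV)).Hom M I}
    (h1 : Sup (fun γ => 1 ≤ γ.2.toAdd) x) (h2 : Sup (fun γ => γ.2.toAdd ≤ (n : ℤ)) x) :
    mp (TC.line ρV).vh (rs (TC.line ρV).vh (TC.line ρV).hV (x * (OWin_i ρV I n).ct)) *
      OWin_i ρV I n = x :=
  (OWin_fm n x).trans (Sup.fm_eq fun k l γ e => ⟨h1 k l γ e, h2 k l γ e⟩)

/-- the projection -/
noncomputable def OWin_p {M : Ob X} (N : ℤ) (g : (OC (ln ρV)).Hom K I)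
    (g' : (OC (ln ρV)).Hom I K) (x : (OC (ln ρV)).Hom M I) :
    (OC (ln ρV)).Hom M I :=
  fm (fun γ => γ.2.toAdd < N) (x * g') * g

section

variable {M M' : Ob X} {N : ℤ} {g : (OC (ln ρV)).Hom K I}
  {g' : (OC (ln ρV)).Hom I K}

theorem OWin_p_mp (A : (OC ρV).Hom M' M)
    (x : (OC (ln ρV)).Hom M I) :
    OWin_p N g g' (mp (TC.line ρV).vh A * x) = mp (TC.line ρV).vh A * OWin_p N g g' x := by
  rw [OWin_p, OWin_p, Hm.mul_assoc, fm_mul_left (S := fun γ => γ.2.toAdd < N) (OWin_sup_mp A),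
    Hm.mul_assoc]
  intro a b ha
  change a.2.toAdd + b.2.toAdd < N ↔ _
  rw [ha, zero_add]

theorem OWin_p_p (h1 : g * g' = 1) (x : (OC (ln ρV)).Hom M I) :
    OWin_p N g g' (OWin_p N g g' x) = OWin_p N g g' x := by
  rw [OWin_p, OWin_p, Hm.mul_assoc, h1, Hm.mul_one, (sup_fm _ _).fm_eq]

theorem OWin_p_adj (c : (OC (ln ρV)).Hom M' I)
    (x : (OC (ln ρV)).Hom M I) :
    rs (TC.line ρV).vh (TC.line ρV).hV (OWin_p N g'.ct g.ct c * x.ct) =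
      rs (TC.line ρV).vh (TC.line ρV).hV (c * (OWin_p N g g' x).ct) := by
  rw [OWin_p, OWin_p, Hm.mul_assoc, ← conjTranspose_mul, OWin_adj (fun a => a < N),
    conjTranspose_mul, Hm.mul_assoc]

theorem OWin_p_pos (h2 : g' * g = 1) {N₀ : ℕ} (hg : Sup (fun γ => |γ.2.toAdd| ≤ (N₀ : ℤ)) g)
    {x : (OC (ln ρV)).Hom M I} (hx : Sup (fun γ => 1 ≤ γ.2.toAdd) x) :
    Sup (fun γ => 1 ≤ γ.2.toAdd) (OWin_p (N₀ + 2) g g' x) := by
  have e : OWin_p (N₀ + 2) g g' x = x - fm (fun γ => ¬ γ.2.toAdd < (N₀ : ℤ) + 2) (x * g') * g := by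
    rw [eq_sub_iff_add_eq, OWin_p, ← Hm.add_mul, fm_add_not, Hm.mul_assoc, h2,
      Hm.mul_one]
  rw [e]
  exact hx.sub (OWin_mul (P := fun a => ¬ a < (N₀ : ℤ) + 2) (Q := fun b => |b| ≤ (N₀ : ℤ))
    (T := fun c => 1 ≤ c) (sup_fm _ _) hg fun a b ha hb => by
      have := abs_le.1 hb
      omega)

theorem OWin_p_le {N₀ : ℕ} (hg : Sup (fun γ => |γ.2.toAdd| ≤ (N₀ : ℤ)) g)
    (x : (OC (ln ρV)).Hom M I) :
    Sup (fun γ => γ.2.toAdd ≤ ((2 * N₀ + 2 : ℕ) : ℤ)) (OWin_p (N₀ + 2) g g' x) :=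
  OWin_mul (P := fun a => a < (N₀ : ℤ) + 2) (Q := fun b => |b| ≤ (N₀ : ℤ))
    (T := fun c => c ≤ ((2 * N₀ + 2 : ℕ) : ℤ)) (sup_fm _ _) hg fun a b ha hb => by
      have := abs_le.1 hb
      omega

end

/-- a finite window: the part of the positive half orthogonal to the far part of a hyperbolic
basis is the image of an idempotent `E`, and `G` extends covectors from it -/
theorem exists_window {l : (OC (ln ρV)).Hom I I} {g : (OC (ln ρV)).Hom K I}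
    {g' : (OC (ln ρV)).Hom I K} (h1 : g * g' = 1) (h2 : g' * g = 1) {ω ω' : (OC ρV).Hom K K}
    (w1 : ω * ω' = 1) (hl : l = g' * mp (TC.line ρV).vh ω * g'.ct) :
    ∃ (L : Ob X) (ι G : (OC (ln ρV)).Hom L I) (E : (OC ρV).Hom L L), E * E = E ∧
      Sup (TC.line ρV).pos ι ∧ Sup (TC.line ρV).pos G ∧
      rs (TC.line ρV).vh (TC.line ρV).hV (G * (mp (TC.line ρV).vh E * ι).ct) = E.ct ∧
      ∀ (M : Ob X) (x w : (OC (ln ρV)).Hom M I) (f : (OC ρV).Hom M L), Sup (TC.line ρV).pos x →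
        Sup (fun g => g.2.toAdd ≤ 1) w → x * l = mp (TC.line ρV).vh f * G + w →
        ∃ k : (OC ρV).Hom M L, x = mp (TC.line ρV).vh (k * E) * ι := by
  obtain ⟨N₀, hg⟩ : ∃ N₀ : ℕ, Sup (fun γ => |γ.2.toAdd| ≤ (N₀ : ℤ)) g := by
    obtain ⟨s, hs⟩ := exists_sup_finset g
    refine ⟨s.sup fun γ => γ.2.toAdd.natAbs, hs.mono fun γ hγ => ?_⟩
    rw [Int.abs_eq_natAbs]
    exact_mod_cast Finset.le_sup (f := fun γ : V × Multiplicative ℤ => γ.2.toAdd.natAbs) hγ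
  have hι := OWin_sup_i (ρV := ρV) (I := I) (2 * N₀ + 2)
  have hrep := fun (M : Ob X) (x : (OC (ln ρV)).Hom M I) =>
    OWin_repr (x := x) (2 * N₀ + 2)
  generalize OWin_i ρV I (2 * N₀ + 2) = ι at hι hrep
  have hpos := OWin_p_pos h2 hg hι
  have hE := hrep _ _ hpos (OWin_p_le hg ι)
  have hgg : g'.ct * g.ct = 1 := by rw [← conjTranspose_mul, h1, conjTranspose_one]
  refine ⟨wo I (2 * N₀ + 2), ι,
    fm (fun γ => 1 ≤ γ.2.toAdd) (OWin_p (N₀ + 2) g'.ct g.ct ι),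
    rs (TC.line ρV).vh (TC.line ρV).hV (OWin_p (N₀ + 2) g g' ι * ι.ct), ?_, hι, sup_fm _ _, ?_,
    fun M x w f hx hw e => ?_⟩
  · rw [← rs_mp_mul, ← Hm.mul_assoc, ← OWin_p_mp, hE, OWin_p_p h1]
  · rw [hE, OWin_adj (fun a => 1 ≤ a), hpos.fm_eq, OWin_p_adj, OWin_p_p h1, ← rs_ct,
      conjTranspose_mul, conjTranspose_conjTranspose]
  · have hgc : Sup (fun γ => |-γ.2.toAdd| ≤ (N₀ : ℤ)) g.ct := OWin_ct (P := fun b => |b| ≤ (N₀ : ℤ)) hg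
    have hlow : ∀ {M' : Ob X} {y : (OC (ln ρV)).Hom M' I},
        Sup (fun γ => γ.2.toAdd ≤ 1) y → Sup (fun γ => γ.2.toAdd < (N₀ : ℤ) + 2) (y * g.ct) := fun hy =>
      OWin_mul (P := fun a => a ≤ 1) (Q := fun b => |-b| ≤ (N₀ : ℤ)) (T := fun c => c < (N₀ : ℤ) + 2) hy hgc
        fun a b ha hb => by
          have := abs_le.1 hb
          omega
    have hG : Sup (fun γ => γ.2.toAdd < (N₀ : ℤ) + 2)
        (fm (fun γ => 1 ≤ γ.2.toAdd) (OWin_p (N₀ + 2) g'.ct g.ct ι) * g.ct) := by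
      rw [eq_sub_of_add_eq (fm_add_not (fun γ => 1 ≤ γ.2.toAdd) (OWin_p (N₀ + 2) g'.ct g.ct ι)),
        Hm.sub_mul]
      refine Sup.sub ?_ (hlow ((sup_fm _ _).mono fun γ hγ => by omega))
      rw [OWin_p, Hm.mul_assoc, hgg, Hm.mul_one]
      exact sup_fm _ _
    have e1 : x * g' = (mp (TC.line ρV).vh f *
        (fm (fun γ => 1 ≤ γ.2.toAdd) (OWin_p (N₀ + 2) g'.ct g.ct ι) * g.ct) + w * g.ct) *
          mp (TC.line ρV).vh ω' := by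
      rw [← Hm.mul_assoc, ← Hm.add_mul, ← e, hl, Hm.mul_assoc x, Hm.mul_assoc _ g'.ct,
        hgg, Hm.mul_one, Hm.mul_assoc x, Hm.mul_assoc g', ← mp_mul, w1, mp_one,
        Hm.mul_one]
    have hxg : Sup (fun γ => γ.2.toAdd < (N₀ : ℤ) + 2) (x * g') := by
      rw [e1]
      exact OWin_mul (P := fun a => a < (N₀ : ℤ) + 2) (Q := fun b => b = 0) (T := fun c => c < (N₀ : ℤ) + 2)
        ((OWin_mul (P := fun a => a = 0) (Q := fun b => b < (N₀ : ℤ) + 2) (T := fun c => c < (N₀ : ℤ) + 2)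
          (OWin_sup_mp f) hG fun a b ha hb => by omega).add (hlow hw)) (OWin_sup_mp ω')
        fun a b ha hb => by omega
    have hpx : OWin_p (N₀ + 2) g g' x = x := by
      rw [OWin_p, hxg.fm_eq, Hm.mul_assoc, h2, Hm.mul_one]
    have hx' := hrep _ x hx (hpx ▸ OWin_p_le hg x)
    refine ⟨rs (TC.line ρV).vh (TC.line ρV).hV (x * ι.ct), ?_⟩
    rw [mp_mul, Hm.mul_assoc, hE, ← OWin_p_mp, hx', hpx]

end Pool.Agent.Work.MP_9d1ffa_al.Ct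
end

-- merged part: Pool.Agent.Work.MP_9d1ffa_al.Ct.CChar
section
/-! Edge frames: characterisation and local frames. -/

namespace Pool.Agent.Work.MP_9d1ffa_al.Ct

set_option linter.unusedSectionVars false
set_option linter.unusedVariables false

open MonoidAlgebra

variable {X Γ V A : Type} [Group Γ] [Group V] [Group A] {ε : ℤˣ} {ρ : Γ →* Equiv.Perm X}
  {ρV : V →* Equiv.Perm X} {ρA : A →* Equiv.Perm X} {I J J' K L M N κ κ' : Ob X}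
  {C : TC ρ ρV ρA} {T : TU ρ C.t J J'}
  {W : (OC ρV).Hom (I + I) (I + I)} {θ : (OC ρV).Hom I I} {P : (OC ρV).Hom I J}
  {Q : (OC ρV).Hom I J'} {U : (OC ρA).Hom (J + J) (J + J)}

theorem CChar_rc₁ (U : (OC ρA).Hom (J + J) (J + J)) :
    (mp C.ah U.toCols₂).toRows₁ = mp C.ah U.toBlocks₁₂ := by
  rw [mp_toRows₁]
  exact congrArg _ (Hm.mul_assoc _ _ _).symm

theorem CChar_rc₂ (U : (OC ρA).Hom (J + J) (J + J)) :
    (mp C.ah U.toCols₁).toRows₂ = mp C.ah U.toBlocks₂₁ := by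
  rw [mp_toRows₂]
  exact congrArg _ (Hm.mul_assoc _ _ _).symm

/-- the clauses of an edge frame, row by row -/
theorem CChar_ef (h : C.EF T ε W θ P Q U) (hs : IsUnit (C.sys T ε W θ P Q))
    (z : (OC ρA).Hom L (J + J)) (y : (OC ρ).Hom L I)
    (e : y * C.sys T ε W θ P Q = mp C.ah z * C.sig T ε P Q) :
    ∃ (Y₁ Y₂ : (OC ρ).Hom J I) (k k' : (OC ρA).Hom L J),
      z = k * U.toRows₁ + k' * U.toRows₂ ∧ y = mp C.ah k * Y₁ + mp C.ah k' * Y₂ ∧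
      Sup C.pos (mp C.ah k * Y₁) ∧ Sup (fun g => ¬ C.pos g) (mp C.ah k' * Y₂) ∧
      rs C.ah C.hVA (Y₁ * (mp C.vh (W.toBlocks₁₁ * Q) * T.T.ct)) = U.toBlocks₁₂ ∧
      rs C.ah C.hVA (Y₂ * mp C.vh (W.toBlocks₁₁ * P)) = -U.toBlocks₂₁ := by
  obtain ⟨hU, Y, h1, h2, h3, h4⟩ := h
  obtain ⟨U', -, -, hU'⟩ := hU.inv
  have ez : z = fromCols (z * U').toCols₁ (z * U').toCols₂ * U := by
    rw [fromCols_toCols, Hm.mul_assoc, hU', Hm.mul_one]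
  generalize (z * U').toCols₁ = k at ez
  generalize (z * U').toCols₂ = k' at ez
  refine ⟨Y.toRows₁, Y.toRows₂, k, k', ?_, ?_, ?_, ?_, ?_, ?_⟩
  · rw [ez, ← fromCols_mul_fromRows, fromRows_toRows]
  · obtain ⟨μ, hμ⟩ := hs.exists_right_inv
    rw [← fromCols_mul_fromRows, fromRows_toRows, ← mp_fromCols, ← Hm.mul_one y, ← hμ,
      ← Hm.mul_assoc, e, ez, mp_mul, Hm.mul_assoc _ (mp C.ah U), ← h1, Hm.mul_assoc,
      Hm.mul_assoc, hμ, Hm.mul_one]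
  · refine (sup_mp C.ah k).mul h2.1 ?_
    rintro _ b ⟨a, rfl⟩ hb
    exact (C.left a b).2 hb
  · refine (sup_mp C.ah k').mul h2.2 ?_
    rintro _ b ⟨a, rfl⟩ hb
    exact fun e => hb ((C.left a b).1 e)
  · have h5 : Sup C.pos (Y.toRows₁ * (mp C.vh (W.toBlocks₁₁ * Q) * T.T.ct) -
        mp C.ah U.toBlocks₁₂) := by
      have := h4.1
      rwa [toRows₁_sub, toRows₁_mul, toRows₁_mul, CChar_rc₁, Hm.mul_assoc] at this
    have := h5.rs_zero (f := C.ah) (hf := C.hVA) fun a => C.npos_v _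
    rwa [rs_sub, rs_mp, sub_eq_zero] at this
  · have h5 : Sup (fun g => ¬ C.pos g) ((Y.toRows₂ * mp C.vh (W.toBlocks₁₁ * P) +
        mp C.ah U.toBlocks₂₁) * T.T) := by
      have := h3.2
      rwa [toRows₂_mul, toRows₂_add, toRows₂_mul, CChar_rc₂] at this
    have h6 := h5.mul (T.sup_ct) (T := fun g => ¬ C.pos (g * C.t)) (by
      rintro a _ ha rfl
      simpa using ha)
    rw [Hm.mul_assoc, T.u1, Hm.mul_one] at h6
    have := h6.rs_zero (f := C.ah) (hf := C.hVA) fun a => not_not.2 (C.pos_vat a)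
    rwa [rs_add, rs_mp, add_eq_zero_iff_eq_neg] at this

theorem TC.EF.neg_char (h : C.EF T ε W θ P Q U) (hs : IsUnit (C.sys T ε W θ P Q))
    (z : (OC ρA).Hom L (J + J)) (y : (OC ρ).Hom L I) (hy : Sup (fun g => ¬ C.pos g) y)
    (e : y * C.sys T ε W θ P Q = mp C.ah z * C.sig T ε P Q)
    (e1 : (rs C.ah C.hVA (y * C.bd T W P Q)).toCols₁ = -z.toCols₁) :
    ∃ k : (OC ρA).Hom L J, z = k * U.toRows₂ := by
  obtain ⟨Y₁, Y₂, k, k', h1, h2, h3, h4, h5, h6⟩ := CChar_ef h hs z y e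
  have h7 : mp C.ah k * Y₁ = 0 :=
    h3.eq_zero (S' := fun g => ¬ C.pos g) (by rw [← sub_eq_iff_eq_add.2 h2]; exact hy.sub h4)
      fun g a => not_not.2 a
  rw [h7, zero_add] at h2
  rw [TC.bd, mul_fromCols, rs_fromCols, toCols₁_fromCols, h2, Hm.mul_assoc, rs_mp_mul, h6,
    h1, Hm.mul_neg, neg_inj, toCols₁_add, toCols₁_mul, toCols₁_mul] at e1
  have h8 : k * U.toBlocks₁₁ = 0 := right_eq_add.1 e1
  have h9 : k * U.toBlocks₁₂ = 0 := by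
    rw [← h5, ← rs_mp_mul, ← Hm.mul_assoc, h7, Hm.zero_mul, rs_zero]
  refine ⟨k', ?_⟩
  rw [h1, add_eq_right, ← fromCols_toCols U.toRows₁, mul_fromCols]
  exact (congrArg₂ fromCols h8 h9).trans fromCols_zero

theorem TC.Loc.ef (hU : Uni (-ε) U) (h : C.Loc T ε W θ P Q U) : C.EF T ε W θ P Q U := by
  obtain ⟨n₁, n₂, a1, a2, a3, b1, b2, b3⟩ := h
  have hU' : mp C.ah U = fromBlocks (mp C.ah U.toBlocks₁₁) (mp C.ah U.toBlocks₁₂)
      (mp C.ah U.toBlocks₂₁) (mp C.ah U.toBlocks₂₂) := by rw [← mp_blocks, fromBlocks_toBlocks]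
  have c1 : mp C.ah U.toCols₁ = fromRows (mp C.ah U.toBlocks₁₁) (mp C.ah U.toBlocks₂₁) := by
    rw [← mp_toCols₁, hU', toCols₁_fromBlocks]
  have c2 : mp C.ah U.toCols₂ = fromRows (mp C.ah U.toBlocks₁₂) (mp C.ah U.toBlocks₂₂) := by
    rw [← mp_toCols₂, hU', toCols₂_fromBlocks]
  have t1 : T.T * mp C.vh (C.jm T T U.toBlocks₁₂) * T.T.ct = mp C.ah U.toBlocks₁₂ := by
    rw [← C.mp_va_dg T T, Hm.mul_assoc, T.u1, Hm.mul_one]
  have sv : ∀ Y : (OC ρA).Hom J J, Sup (fun g => ¬ C.pos g) (mp C.ah Y) := fun Y =>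
    (sup_mp C.ah Y).mono (by rintro _ ⟨a, rfl⟩; exact C.npos_v _)
  refine ⟨hU, fromRows (T.T * mp C.vh n₁) (mp C.vh n₂), ?_, TC.side_fromRows.2 ⟨?_, ?_⟩, ?_, ?_⟩
  · rw [fromRows_mul, hU', TC.sig, fromBlocks_mul_fromRows, TC.sys_eq]
    congr 1
    · have e : ∀ {M : Ob X} (B : (OC ρV).Hom I M), T.T * mp C.vh n₁ * mp C.vh B =
          T.T * mp C.vh (n₁ * B) := fun B => by
        rw [mp_mul, Hm.mul_assoc]
      simp only [Hm.mul_add, Hm.mul_smul, ← Hm.mul_assoc, e, a1, a2, a3]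
      rw [mp_zero, mp_neg, mp_mul, mp_ct, Hm.mul_zero, Hm.zero_mul, Hm.zero_mul,
        add_zero, t1, Hm.mul_neg, Hm.mul_neg, ← Hm.mul_assoc, ← Hm.mul_assoc,
        C.mp_va_dg T T]
    · simp only [Hm.mul_add, Hm.mul_smul, ← Hm.mul_assoc, ← mp_mul, b1, b2, b3]
      rw [mp_zero, mp_neg, mp_zsmul, mp_mul, mp_ct, Hm.zero_mul, Hm.zero_mul, smul_zero,
        add_zero, ← TC.mp_va, ← TC.mp_va, Hm.mul_neg, ← Hm.mul_assoc, Hm.neg_mul,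
        Hm.neg_mul, add_comm]
  · refine (T.sup).mul (sup_mp C.vh n₁) ?_
    rintro _ _ rfl ⟨b, rfl⟩
    exact C.pos_tv b
  · exact (sup_mp C.vh n₂).mono (by rintro _ ⟨a, rfl⟩; exact C.npos_v _)
  · rw [c1, fromRows_mul, Hm.mul_assoc, ← mp_mul, ← mp_mul, a1, b1, mp_zero, Hm.mul_zero,
      mp_neg, ← TC.mp_va, fromRows_add, fromRows_mul]
    refine TC.side_fromRows.2 ⟨?_, ?_⟩
    · rw [zero_add]
      refine (sup_mp C.ah _).mul (T.sup) ?_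
      rintro _ _ ⟨a, rfl⟩ rfl
      exact C.pos_vat a
    · rw [neg_add_cancel, Hm.zero_mul]
      exact sup_zero
  · rw [c2, fromRows_mul, Hm.mul_assoc T.T, ← mp_mul, ← mp_mul, a2, b2, mp_zero,
      fromRows_mul, t1, Hm.zero_mul, fromRows_sub]
    refine TC.side_fromRows.2 ⟨?_, ?_⟩
    · rw [sub_self]
      exact sup_zero
    · exact sup_zero.sub (sv _)

end Pool.Agent.Work.MP_9d1ffa_al.Ct
end

-- merged part: Pool.Agent.Work.MP_9d1ffa_al.Ct.SX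
section
/-! Algebraic parts of the window argument and of the realisation. -/

namespace Pool.Agent.Work.MP_9d1ffa_al.Ct

set_option linter.unusedSectionVars false
set_option linter.unusedVariables false

variable {O : Type 1} [Add O] [Zero O] {𝒞 : SCat O} {ε η : ℤˣ} {I J K L M : O}

/-- the algebraic part: a free module with a form whose system is solvable -/
theorem OW_alg {L : O}
    {U : 𝒞.Hom (J + J) (J + J)} (hU : Uni (-ε) U) {E ψ : 𝒞.Hom L L} (hE : SFIdem E)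
    (hEE : E * E = E) (Y : 𝒞.Hom L J)
    (h : ∀ (M : O) (f : 𝒞.Hom M L) (s : 𝒞.Hom M J),
      ∃ (k₀ : 𝒞.Hom M L) (k : 𝒞.Hom M J), k₀ * E * Y - k * U.toBlocks₂₂ = s ∧
        (k₀ * E * sy ε ψ + k * U.toBlocks₂₁ * Y.ct) * E.ct = f * E.ct) : ucl (-ε) U = 0 := by
  obtain ⟨a, ha⟩ := hE
  obtain ⟨b, B, W, h1, h2⟩ := USchur_left ha a
  obtain ⟨B₁, B₂, rfl⟩ : ∃ B₁ B₂, B = fromCols B₁ B₂ := ⟨_, _, (fromCols_toCols B).symm⟩
  obtain ⟨W₁, W₂, rfl⟩ : ∃ W₁ W₂, W = fromRows W₁ W₂ := ⟨_, _, (fromRows_toRows W).symm⟩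
  rw [fromCols_mul_fromRows] at h1
  rw [fromRows_mul_fromCols, fromBlocks_inj] at h2
  obtain ⟨e11, e12, e21, e22⟩ := h2
  have hB : B₁ * E = B₁ := by
    rw [← e11, ← Hm.mul_assoc, eq_sub_of_add_eq h1, Hm.sub_mul, Hm.one_mul,
      Hm.mul_assoc, e21, Hm.mul_zero, sub_zero]
  have hB' : E.ct * B₁.ct = B₁.ct := by rw [← conjTranspose_mul, hB]
  obtain ⟨Ω, -, hΩ⟩ := (ns_hyp (ε := ε) (𝒞 := 𝒞) (I := a)).inv
  have hσ := genU_swap (η := -ε) (𝒞 := 𝒞) (I := J)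
  have hW := hU.fB.mul hσ.uni
  have hW' := (uni_one (η := -ε) (𝒞 := 𝒞) (I := b)).dsum hW
  have hsys : sysM ε (dsum (1 : 𝒞.Hom (b + b) (b + b))
      (fB U * fromBlocks 0 1 (((-ε : ℤˣ) : ℤ) • 1) 0))
      (fromBlocks (B₁ * ψ * B₁.ct + B₂ * hypF 𝒞 a * B₂.ct) (B₁ * Y) 0 0) =
      fromBlocks (B₁ * sy ε ψ * B₁.ct + B₂ * sy ε (hypF 𝒞 a) * B₂.ct) (B₁ * Y)
        (U.toBlocks₂₁ * (B₁ * Y).ct) (-U.toBlocks₂₂) := by
    rw [sysM, fB, fromBlocks_multiply, ← fromBlocks_one, dsum_blocks, toBlocks_fromBlocks₁₁,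
      toBlocks_fromBlocks₁₂, sy_blocks, sy_add, sy_conj, sy_conj, sy_zero, fromBlocks_multiply,
      sub_eq_add_neg, fromBlocks_neg, fromBlocks_add]
    simp only [Hm.mul_zero, Hm.zero_mul, Hm.mul_one, Hm.one_mul, add_zero,
      zero_add, neg_zero, conjTranspose_zero, smul_zero, Hm.mul_smul, Hm.smul_mul,
      Hm.mul_neg, smul_neg, Units.val_neg, neg_smul, neg_neg, eps_eps]
  obtain ⟨k₀, k, c1, c2⟩ := h (b + J) ((fromRows 1 0 : 𝒞.Hom (b + J) b) * W₁.ct) (fromRows 0 1)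
  have n1 : (k₀ * E * W₁ + (fromRows 1 0 : 𝒞.Hom (b + J) b) * W₂.ct * Ω * W₂) * B₁ = k₀ * E := by
    rw [Hm.add_mul, Hm.mul_assoc _ W₁, e11, Hm.mul_assoc _ W₂, e21, Hm.mul_zero,
      add_zero, Hm.mul_assoc, hEE]
  have n2 : (k₀ * E * W₁ + (fromRows 1 0 : 𝒞.Hom (b + J) b) * W₂.ct * Ω * W₂) * B₂ =
      (fromRows 1 0 : 𝒞.Hom (b + J) b) * W₂.ct * Ω := by
    rw [Hm.add_mul, Hm.mul_assoc _ W₁, e12, Hm.mul_assoc _ W₂, e22, Hm.mul_zero,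
      zero_add, Hm.mul_one]
  generalize k₀ * E * W₁ + (fromRows 1 0 : 𝒞.Hom (b + J) b) * W₂.ct * Ω * W₂ = n at n1 n2
  have hC : fromCols n k * fromBlocks (B₁ * sy ε ψ * B₁.ct + B₂ * sy ε (hypF 𝒞 a) * B₂.ct) (B₁ * Y)
      (U.toBlocks₂₁ * (B₁ * Y).ct) (-U.toBlocks₂₂) = 1 := by
    rw [fromCols_mul_fromBlocks, ← fromBlocks_one, ← fromCols_fromRows_eq_fromBlocks]
    congr 1
    · have c3 := congrArg (· * B₁.ct) c2
      simp only [Hm.mul_assoc _ E.ct, hB'] at c3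
      have c4 := congrArg SCat.Hom.ct h1
      rw [conjTranspose_add, conjTranspose_mul, conjTranspose_mul, conjTranspose_one] at c4
      rw [Hm.mul_add, ← Hm.mul_assoc, ← Hm.mul_assoc, n1, ← Hm.mul_assoc n,
        ← Hm.mul_assoc n, n2, Hm.mul_assoc _ Ω, hΩ, Hm.mul_one, conjTranspose_mul,
        ← Hm.mul_assoc k, ← Hm.mul_assoc _ Y.ct, add_right_comm, ← Hm.add_mul, c3,
        Hm.mul_assoc, Hm.mul_assoc, ← Hm.mul_add, c4, Hm.mul_one]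
    · rw [← Hm.mul_assoc, n1, Hm.mul_neg, ← sub_eq_add_neg, c1]
  rw [← hsys] at hC
  have k1 := ucl_sys hW' hC
  rw [ucl_dsum uni_one hW, ucl_one, zero_add, ucl_mul hU.fB hσ.uni, ucl_gen hσ, add_zero,
    ucl_fB hU, neg_eq_zero] at k1
  rcases Int.units_eq_one_or (-ε) with e | e
  · rw [e] at k1 ⊢
    simpa using k1
  · rw [e] at k1 ⊢
    simpa using k1

theorem ORL_add (a c : 𝒞.Hom L I) (b d : 𝒞.Hom L M) :
    fromCols a b + fromCols c d = fromCols (a + c) (b + d) :=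
  fromCols_add _ _ _ _

theorem ORL_W₁ (W : 𝒞.Hom (I + I) (I + I)) :
    (dsum W (1 : 𝒞.Hom (M + M) (M + M))).toBlocks₁₁ = fromBlocks W.toBlocks₁₁ 0 0 1 := by
  rw [dsum_eq, toBlocks_fromBlocks₁₁, ← fromBlocks_one, toBlocks_fromBlocks₁₁]

theorem ORL_W₂ (W : 𝒞.Hom (I + I) (I + I)) :
    (dsum W (1 : 𝒞.Hom (M + M) (M + M))).toBlocks₁₂ = fromBlocks W.toBlocks₁₂ 0 0 0 := by
  rw [dsum_eq, toBlocks_fromBlocks₁₂, ← fromBlocks_one, toBlocks_fromBlocks₁₂]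

theorem ORL_row (W : 𝒞.Hom (I + I) (I + I)) (θ : 𝒞.Hom (I + M) (I + M)) (y₁ : 𝒞.Hom L I)
    (y₂ : 𝒞.Hom L M) : fromCols y₁ y₂ * sysM ε (dsum W (1 : 𝒞.Hom (M + M) (M + M))) θ =
      fromCols (y₁ * W.toBlocks₁₁) y₂ * sy ε θ - fromCols (y₁ * W.toBlocks₁₂) 0 := by
  rw [sysM, ORL_W₁, ORL_W₂, Hm.mul_sub, ← Hm.mul_assoc, fromCols_mul_fromBlocks,
    fromCols_mul_fromBlocks]
  simp

theorem ORL_row₀ (W : 𝒞.Hom (I + I) (I + I)) (θ : 𝒞.Hom (I + M) (I + M)) (y : 𝒞.Hom L M) :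
    fromCols (0 : 𝒞.Hom L I) y * sysM ε (dsum W (1 : 𝒞.Hom (M + M) (M + M))) θ =
      fromCols (0 : 𝒞.Hom L I) y * sy ε θ := by
  rw [ORL_row, Hm.zero_mul, Hm.zero_mul, fromCols_zero, sub_zero]

theorem ORL_col₀ (W : 𝒞.Hom (I + I) (I + I)) (y : 𝒞.Hom M L) :
    (dsum W (1 : 𝒞.Hom (M + M) (M + M))).toBlocks₁₁ * fromRows (0 : 𝒞.Hom I L) y =
      fromRows 0 y := by
  rw [ORL_W₁, fromBlocks_mul_fromRows]
  simp

/-- all rows of the form and all sources at the port are values of the system -/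
theorem ORL_key {W : 𝒞.Hom (I + I) (I + I)} (hW : Uni (-ε) W) {θ : 𝒞.Hom (I + M) (I + M)}
    {m : 𝒞.Hom I M} (h : fromCols W.toBlocks₂₁ m * sy ε θ = fromCols W.toBlocks₂₂ 0)
    (X : 𝒞.Hom L (I + M)) (φ : 𝒞.Hom L I) :
    ∃ Y : 𝒞.Hom L (I + M),
      Y * sysM ε (dsum W (1 : 𝒞.Hom (M + M) (M + M))) θ = X * sy ε θ - fromCols φ 0 := by
  obtain ⟨V, -, -, hV⟩ := hW.inv
  have e : fromCols X.toCols₁ φ * V * W = fromCols X.toCols₁ φ := by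
    rw [Hm.mul_assoc, hV, Hm.mul_one]
  generalize fromCols X.toCols₁ φ * V = Z at e
  rw [← fromCols_toCols Z, ← fromBlocks_toBlocks W, fromCols_mul_fromBlocks,
    fromCols_ext_iff] at e
  refine ⟨fromCols Z.toCols₁ (X.toCols₂ - Z.toCols₂ * m), ?_⟩
  have h1 := congrArg (Z.toCols₂ * ·) h
  simp only [← Hm.mul_assoc, mul_fromCols, Hm.mul_zero] at h1
  have h2 : X = fromCols (Z.toCols₁ * W.toBlocks₁₁) (X.toCols₂ - Z.toCols₂ * m) +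
      fromCols (Z.toCols₂ * W.toBlocks₂₁) (Z.toCols₂ * m) := by
    rw [ORL_add, e.1, sub_add_cancel, fromCols_toCols]
  have h3 : (fromCols φ 0 : 𝒞.Hom L (I + M)) = fromCols (Z.toCols₁ * W.toBlocks₁₂) 0 +
      fromCols (Z.toCols₂ * W.toBlocks₂₂) 0 := by
    rw [ORL_add, e.2, add_zero]
  rw [ORL_row, h3]
  conv_rhs => rw [h2, Hm.add_mul, h1]
  abel

theorem ORL_box {x₁ φ₁ : 𝒞.Hom I I} {x₂ φ₂ : 𝒞.Hom K K}
    (h : HasBox ε (fromBlocks x₁ 0 0 x₂) (fromBlocks φ₁ 0 0 φ₂)) :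
    ∃ (M : O) (θ : 𝒞.Hom (I + (K + M)) (I + (K + M)))
      (m₁ : 𝒞.Hom I M) (m₂ : 𝒞.Hom K M) (C : 𝒞.Hom M (I + (K + M))) (c₁ : 𝒞.Hom M I)
      (c₂ : 𝒞.Hom M K), fromCols x₁ (fromCols (0 : 𝒞.Hom I K) m₁) * sy ε θ = fromCols φ₁ 0 ∧
      fromCols (0 : 𝒞.Hom K I) (fromCols x₂ m₂) * sy ε θ = fromCols 0 (fromCols φ₂ 0) ∧
      C * sy ε θ = fromCols c₁ (fromCols c₂ 1) := by
  obtain ⟨M, θ, m, h1, C, c, h2⟩ := h
  have s : ∀ {L : O} (a : 𝒞.Hom L I) (k : 𝒞.Hom L K) (d : 𝒞.Hom L M),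
      fromCols (fromCols a k) d * (sAssoc 𝒞 I K M).ct = fromCols a (fromCols k d) :=
    fun a k d => by
      simp [sAssoc, fromBlocks_conjTranspose, fromCols_mul_fromBlocks, fromCols_mul_fromRows,
        conjTranspose_fromRows_eq_fromCols_conjTranspose,
        conjTranspose_fromCols_eq_fromRows_conjTranspose, fromCols_add]
  have e : ∀ {L : O} (Y : 𝒞.Hom L ((I + K) + M)),
      Y * (sAssoc 𝒞 I K M).ct * sy ε (sAssoc 𝒞 I K M * θ * (sAssoc 𝒞 I K M).ct) =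
      (Y * sy ε θ) * (sAssoc 𝒞 I K M).ct := fun Y => by
    rw [sy_conj, ← Hm.mul_assoc, ← Hm.mul_assoc, Hm.mul_assoc Y, unt_assoc.2, Hm.mul_one]
  rw [← fromRows_toRows m, ← fromRows_fromCols_eq_fromBlocks, ← fromRows_fromCols_eq_fromBlocks,
    fromCols_fromRows_eq_fromBlocks, ← fromRows_fromCols_eq_fromBlocks, fromRows_mul,
    ← fromRows_zero, fromCols_fromRows_eq_fromBlocks, ← fromRows_fromCols_eq_fromBlocks,
    fromRows_ext_iff] at h1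
  refine ⟨M, _, m.toRows₁, m.toRows₂, _, c.toCols₁, c.toCols₂,
    ?_, ?_, (e C).trans ?_⟩
  · rw [← s, e, h1.1, s, fromCols_zero]
  · rw [← s, e, h1.2, s]
  · rw [h2, ← s, fromCols_toCols]

end Pool.Agent.Work.MP_9d1ffa_al.Ct
end

-- merged part: Pool.Agent.Work.MP_9d1ffa_al.Ct.CW
section
/-! The edge class of a hyperbolic form over a Laurent extension vanishes. -/

namespace Pool.Agent.Work.MP_9d1ffa_al.Ct

set_option linter.unusedSectionVars false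
set_option linter.unusedVariables false

open MonoidAlgebra

variable {X Γ V A : Type} [Group Γ] [Group V] [Group A] {ε : ℤˣ} {ρ : Γ →* Equiv.Perm X}
  {ρV : V →* Equiv.Perm X} {ρA : A →* Equiv.Perm X} {I J J' K L M N κ κ' : Ob X}

/-- edge frames with trivial boundary condition, row by row -/
theorem ORep_ef {C : TC ρ ρV ρA} {T : TU ρ C.t J J'} {θ : (OC ρV).Hom I I}
    {P : (OC ρV).Hom I J} {Q : (OC ρV).Hom I J'} {a b c d : (OC ρA).Hom J J} :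
    C.EF T ε 1 θ P Q (fromBlocks a b c d) ↔ Uni (-ε) (fromBlocks a b c d) ∧
      ∃ Y₁ Y₂ : (OC ρ).Hom J I,
        Y₁ * sy ε (C.lin T θ P Q) =
          mp C.ah a * -(T.T * (mp C.vh Q).ct) + mp C.ah b * (ε : ℤ) • (mp C.vh P).ct ∧
        Y₂ * sy ε (C.lin T θ P Q) =
          mp C.ah c * -(T.T * (mp C.vh Q).ct) + mp C.ah d * (ε : ℤ) • (mp C.vh P).ct ∧
        Sup C.pos Y₁ ∧ Sup (fun g => ¬ C.pos g) Y₂ ∧
        Sup C.pos ((Y₁ * mp C.vh P + mp C.ah a) * T.T) ∧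
        Sup (fun g => ¬ C.pos g) ((Y₂ * mp C.vh P + mp C.ah c) * T.T) ∧
        Sup C.pos (Y₁ * mp C.vh Q * T.T.ct - mp C.ah b) ∧
        Sup (fun g => ¬ C.pos g) (Y₂ * mp C.vh Q * T.T.ct - mp C.ah d) := by
  have e1 : (1 : (OC ρV).Hom (I + I) (I + I)).toBlocks₁₁ = 1 := by
    rw [← fromBlocks_one, toBlocks_fromBlocks₁₁]
  rw [TC.EF, TC.sys_one, e1, Hm.one_mul, Hm.one_mul, mp_blocks, TC.sig,
    fromBlocks_mul_fromRows]
  have k1 : ∀ Y₁ Y₂ : (OC ρ).Hom J I,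
      (fromRows Y₁ Y₂ * mp C.vh P + mp C.ah (fromRows a c)) * T.T =
      fromRows ((Y₁ * mp C.vh P + mp C.ah a) * T.T) ((Y₂ * mp C.vh P + mp C.ah c) * T.T) :=
    fun Y₁ Y₂ => by rw [mp_fromRows, fromRows_mul, fromRows_add, fromRows_mul]
  have k2 : ∀ Y₁ Y₂ : (OC ρ).Hom J I,
      fromRows Y₁ Y₂ * mp C.vh Q * T.T.ct - mp C.ah (fromRows b d) =
      fromRows (Y₁ * mp C.vh Q * T.T.ct - mp C.ah b) (Y₂ * mp C.vh Q * T.T.ct - mp C.ah d) :=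
    fun Y₁ Y₂ => by
      rw [mp_fromRows, fromRows_mul, fromRows_mul, sub_eq_iff_eq_add, fromRows_add,
        sub_add_cancel, sub_add_cancel]
  rw [toCols₁_fromBlocks, toCols₂_fromBlocks]
  refine and_congr_right fun _ => ⟨?_, ?_⟩
  · rintro ⟨Y, h1, h2, h3, h4⟩
    rw [← fromRows_toRows Y, fromRows_mul, fromRows_ext_iff] at h1
    rw [← fromRows_toRows Y, k1, TC.side_fromRows] at h3
    rw [← fromRows_toRows Y, k2, TC.side_fromRows] at h4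
    exact ⟨Y.toRows₁, Y.toRows₂, h1.1, h1.2, h2.1, h2.2, h3.1, h3.2, h4.1, h4.2⟩
  · rintro ⟨Y₁, Y₂, h1, h2, h3, h4, h5, h6, h7, h8⟩
    refine ⟨fromRows Y₁ Y₂, by rw [fromRows_mul, h1, h2], TC.side_fromRows.2 ⟨h3, h4⟩, ?_, ?_⟩
    · rw [k1]
      exact TC.side_fromRows.2 ⟨h5, h6⟩
    · rw [k2]
      exact TC.side_fromRows.2 ⟨h7, h8⟩

/-- adding a form over the vertex group -/
theorem TC.EF.addV {C : TC ρ ρV ρA} {T : TU ρ C.t J J'} {U : (OC ρA).Hom (J + J) (J + J)}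
    {θ : (OC ρV).Hom I I} {P : (OC ρV).Hom I J} {Q : (OC ρV).Hom I J'} (h : C.EF T ε 1 θ P Q U)
    (θ' : (OC ρV).Hom M M) :
    C.EF T ε 1 (fromBlocks θ 0 0 θ') (fromRows P 0) (fromRows Q 0) U ∧
      C.lin T (fromBlocks θ 0 0 θ') (fromRows P 0) (fromRows Q 0) =
        fromBlocks (C.lin T θ P Q) 0 0 (mp C.vh θ') := by
  have e : C.lin T (fromBlocks θ 0 0 θ') (fromRows P 0) (fromRows Q 0) =
      fromBlocks (C.lin T θ P Q) 0 0 (mp C.vh θ') := by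
    simp only [TC.lin, mp_blocks, mp_zero, mp_fromRows, fromRows_mul,
      conjTranspose_fromRows_eq_fromCols_conjTranspose, conjTranspose_zero, mul_fromCols,
      Hm.mul_zero, Hm.zero_mul]
    refine ext_rows ?_ ?_ <;> refine ext_cols ?_ ?_ <;> simp
  refine ⟨?_, e⟩
  rw [← fromBlocks_toBlocks U, ORep_ef] at h ⊢
  obtain ⟨hu, Y₁, Y₂, a1, a2, a3, a4, a5, a6, a7, a8⟩ := h
  rw [e, sy_blocks]
  refine ⟨hu, fromCols Y₁ 0, fromCols Y₂ 0, ?_⟩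
  have k : ∀ (Y : (OC ρ).Hom J I) (a b : (OC ρ).Hom J J),
      Y * sy ε (C.lin T θ P Q) = a * -(T.T * (mp C.vh Q).ct) + b * (ε : ℤ) • (mp C.vh P).ct →
      fromCols Y (0 : (OC ρ).Hom J M) *
        fromBlocks (sy ε (C.lin T θ P Q)) (0 + (ε : ℤ) • (0 : (OC ρ).Hom M I).ct)
        (0 + (ε : ℤ) • (0 : (OC ρ).Hom I M).ct) (sy ε (mp C.vh θ')) =
        a * -(T.T * (mp C.vh (fromRows Q (0 : (OC ρV).Hom M J'))).ct) +
          b * (ε : ℤ) • (mp C.vh (fromRows P (0 : (OC ρV).Hom M J))).ct := by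
    intro Y a b h
    rw [fromCols_mul_fromBlocks]
    simp only [mp_fromRows, mp_zero, conjTranspose_zero, smul_zero,
      conjTranspose_fromRows_eq_fromCols_conjTranspose, mul_fromCols, Hm.mul_zero,
      Hm.zero_mul, add_zero, h, Hm.mul_neg, Hm.mul_smul]
    refine ext_cols ?_ ?_ <;> simp
  refine ⟨k _ _ _ a1, k _ _ _ a2, ?_⟩
  simp only [mp_fromRows, mp_zero, fromCols_mul_fromRows, Hm.mul_zero, add_zero]
  exact ⟨sup_fromCols.2 ⟨a3, sup_zero⟩, sup_fromCols.2 ⟨a4, sup_zero⟩, a5, a6, a7, a8⟩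

variable {T : TU (ln ρV) (TC.line ρV).t J J'} {U : (OC ρV).Hom (J + J) (J + J)}

theorem OW_va (Y : (OC ρV).Hom I J) : mp (TC.line ρV).ah Y = mp (TC.line ρV).vh Y := rfl

theorem OW_rs (Y : (OC (ln ρV)).Hom I J) :
    rs (TC.line ρV).ah (TC.line ρV).hVA Y = rs (TC.line ρV).vh (TC.line ρV).hV Y := rfl

theorem OW_deg {g : V × Multiplicative ℤ} (h : ∃ a, (TC.line ρV).vh.f a = g) : g.2.toAdd = 0 := by
  obtain ⟨a, rfl⟩ := h
  rfl

theorem OW_sup (Y : (OC ρV).Hom I J) :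
    Sup (fun g => g.2.toAdd = 0) (mp (TC.line ρV).vh Y) :=
  (sup_mp _ Y).mono fun _ => OW_deg (ρV := ρV)

theorem OW_pos {g : V × Multiplicative ℤ} : (TC.line ρV).pos g ↔ 1 ≤ g.2.toAdd := Iff.rfl

theorem OW_bd (P : (OC ρV).Hom I J) (Q : (OC ρV).Hom I J') : (TC.line ρV).bd T 1 P Q =
    fromCols (mp (TC.line ρV).vh P) (mp (TC.line ρV).vh Q * T.T.ct) := by
  rw [TC.bd, ← fromBlocks_one, toBlocks_fromBlocks₁₁, Hm.one_mul, Hm.one_mul]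

theorem OW_sig (z₁ z₂ : (OC ρV).Hom K J) (P : (OC ρV).Hom I J) (Q : (OC ρV).Hom I J') :
    mp (TC.line ρV).ah (fromCols z₁ z₂) * (TC.line ρV).sig T ε P Q =
      -(mp (TC.line ρV).vh z₁ * (T.T * (mp (TC.line ρV).vh Q).ct)) +
        (ε : ℤ) • mp (TC.line ρV).vh (z₂ * P.ct) := by
  rw [OW_va, mp_fromCols, TC.sig, fromCols_mul_fromRows, Hm.mul_neg, Hm.mul_smul, mp_mul,
    mp_ct]

/-- solving the linear system inside a window -/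
theorem OW_core {θ : (OC ρV).Hom I I} {P : (OC ρV).Hom I J} {Q : (OC ρV).Hom I J'}
    (h : (TC.line ρV).EF T ε 1 θ P Q U)
    (hs : IsUnit ((TC.line ρV).sys T ε 1 θ P Q)) {L : Ob X}
    {ι G : (OC (ln ρV)).Hom L I} {E : (OC ρV).Hom L L}
    (hι : Sup (TC.line ρV).pos ι) (hG : Sup (TC.line ρV).pos G)
    (hE : rs (TC.line ρV).vh (TC.line ρV).hV (G * (mp (TC.line ρV).vh E * ι).ct) = E.ct)
    (f : (OC ρV).Hom K L) (s : (OC ρV).Hom K J)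
    (hw : ∀ x w : (OC (ln ρV)).Hom K I, Sup (TC.line ρV).pos x →
      Sup (fun g => g.2.toAdd ≤ 1) w →
      x * (TC.line ρV).sys T ε 1 θ P Q = mp (TC.line ρV).vh f * G + w →
      ∃ k : (OC ρV).Hom K L, x = mp (TC.line ρV).vh (k * E) * ι) :
    ∃ (k₀ : (OC ρV).Hom K L) (k : (OC ρV).Hom K J),
      k₀ * E * rs (TC.line ρV).vh (TC.line ρV).hV
        (ι * (mp (TC.line ρV).vh Q * T.T.ct)) - k * U.toBlocks₂₂ = s ∧
      (k₀ * E * rs (TC.line ρV).vh (TC.line ρV).hV (ι * (TC.line ρV).sys T ε 1 θ P Q * ι.ct) +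
        k * U.toBlocks₂₁ * (rs (TC.line ρV).vh (TC.line ρV).hV
          (ι * (mp (TC.line ρV).vh Q * T.T.ct))).ct) * E.ct = f * E.ct := by
  have hF : Sup (TC.line ρV).pos (mp (TC.line ρV).vh f * G) :=
    (OW_sup f).mul hG fun a b ha hb => by
      rw [OW_pos] at hb ⊢
      rw [Prod.snd_mul, toAdd_mul]
      omega
  have hS : Sup (fun g => ¬ (TC.line ρV).pos g) ((ε : ℤ) • mp (TC.line ρV).vh (s * P.ct)) :=
    ((OW_sup _).zsmul _).mono fun g hg => by rw [OW_pos]; omega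
  obtain ⟨y, hy⟩ : ∃ y : (OC (ln ρV)).Hom K I, y * (TC.line ρV).sys T ε 1 θ P Q =
      mp (TC.line ρV).vh f * G + (ε : ℤ) • mp (TC.line ρV).vh (s * P.ct) := by
    obtain ⟨μ, hμ⟩ := hs.exists_left_inv
    exact ⟨(mp (TC.line ρV).vh f * G + (ε : ℤ) • mp (TC.line ρV).vh (s * P.ct)) * μ, by
      rw [Hm.mul_assoc, hμ, Hm.mul_one]⟩
  have k1 := (TC.line ρV).key_pos T (ε := ε) 1 θ P Q y
  have k2 := (TC.line ρV).key_neg T (ε := ε) 1 θ P Q y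
  have e0 := fm_add_not (TC.line ρV).pos y
  have hx := sup_fm (TC.line ρV).pos y
  have hx' := sup_fm (fun g => ¬ (TC.line ρV).pos g) y
  rw [hy, fm_add, hF.fm_eq, hS.fm_zero fun g hg => hg, add_zero] at k1
  rw [hy, fm_add, hS.fm_eq, hF.fm_zero fun g hg => not_not.2 hg, zero_add] at k2
  generalize fm (TC.line ρV).pos y = x at *
  generalize fm (fun g => ¬ (TC.line ρV).pos g) y = x' at *
  subst e0
  have z1 : rs (TC.line ρV).vh (TC.line ρV).hV ((x + x') * mp (TC.line ρV).vh P) =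
      rs (TC.line ρV).vh (TC.line ρV).hV (x' * mp (TC.line ρV).vh P) := by
    rw [Hm.add_mul, rs_add, rs_mul_mp, hx.rs_zero (TC.line ρV).npos_v, Hm.zero_mul,
      zero_add]
  have z2 : rs (TC.line ρV).vh (TC.line ρV).hV
      ((x + x') * (mp (TC.line ρV).vh Q * T.T.ct)) =
      rs (TC.line ρV).vh (TC.line ρV).hV
        (x * (mp (TC.line ρV).vh Q * T.T.ct)) := by
    have : Sup (fun g => g.2.toAdd ≤ -1) (x' * (mp (TC.line ρV).vh Q * T.T.ct)) :=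
      hx'.mul ((OW_sup Q).mul T.sup_ct (T := fun g => g.2.toAdd = -1) fun a b ha hb => by
        rw [hb, Prod.snd_mul, toAdd_mul, ha]; rfl) fun a b ha hb => by
        rw [OW_pos] at ha
        rw [Prod.snd_mul, toAdd_mul]
        omega
    rw [Hm.add_mul, rs_add, this.rs_zero fun a ha => by
      rw [OW_deg (ρV := ρV) ⟨a, rfl⟩] at ha; omega, add_zero]
  rw [OW_bd, mul_fromCols, OW_rs, rs_fromCols, z1, z2] at k1 k2
  have hz₁ : (rs (TC.line ρV).ah (TC.line ρV).hVA (x' * (TC.line ρV).bd T 1 P Q)).toCols₁ =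
      rs (TC.line ρV).vh (TC.line ρV).hV (x' * mp (TC.line ρV).vh P) := by
    rw [OW_bd, mul_fromCols, OW_rs, rs_fromCols, toCols₁_fromCols]
  generalize rs (TC.line ρV).vh (TC.line ρV).hV (x' * mp (TC.line ρV).vh P) = z₁ at *
  generalize hz₂ : rs (TC.line ρV).vh (TC.line ρV).hV
    (x * (mp (TC.line ρV).vh Q * T.T.ct)) = z₂ at k1 k2
  obtain ⟨k', hk'⟩ := h.neg_char hs (fromCols (-z₁) (s - z₂)) x' hx' (by
    rw [k2, OW_sig, OW_sig, mp_neg, Hm.neg_mul, Hm.sub_mul, mp_sub, smul_sub]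
    abel) (by rw [hz₁, toCols₁_fromCols, neg_neg])
  have hU : U.toRows₂ = fromCols U.toBlocks₂₁ U.toBlocks₂₂ := (fromCols_toCols _).symm
  rw [hU, mul_fromCols] at hk'
  obtain ⟨c1, c2⟩ := fromCols_inj hk'
  rw [OW_sig] at k1
  obtain ⟨k₀, hk₀⟩ := hw x _ hx (by
    refine Sup.add (Sup.neg ?_) (((OW_sup _).zsmul _).mono fun g hg => by omega)
    rw [← mp_ct]
    refine (OW_sup z₁).mul (T.sup.mul (OW_sup Q.ct) (T := fun g => g.2.toAdd = 1)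
      fun a b ha hb => by rw [ha, Prod.snd_mul, toAdd_mul, hb]; rfl) fun a b ha hb => ?_
    rw [Prod.snd_mul, toAdd_mul]
    omega) k1
  refine ⟨k₀, -k', ?_, ?_⟩
  · rw [← rs_mp_mul, ← Hm.mul_assoc, ← hk₀, hz₂, Hm.neg_mul, ← c2]
    abel
  · have e1 : rs (TC.line ρV).vh (TC.line ρV).hV (mp (TC.line ρV).vh (z₂ * P.ct) * ι.ct) = 0 := by
      rw [rs_mp_mul, rs_ct, hι.rs_zero (TC.line ρV).npos_v, conjTranspose_zero, Hm.mul_zero]
    have e2 : rs (TC.line ρV).vh (TC.line ρV).hV (mp (TC.line ρV).vh f * G * ι.ct) * E.ct =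
        f * E.ct := by
      rw [Hm.mul_assoc, rs_mp_mul, Hm.mul_assoc, ← rs_mul_mp, mp_ct, Hm.mul_assoc,
        ← conjTranspose_mul, hE]
    rw [← rs_mp_mul, ← Hm.mul_assoc, ← Hm.mul_assoc, ← hk₀, k1, Hm.neg_mul k', ← c1,
      neg_neg, ← rs_ct, ← rs_mp_mul, conjTranspose_mul, conjTranspose_mul, conjTranspose_conjTranspose,
      Hm.add_mul _ _ ι.ct, Hm.add_mul _ _ ι.ct, Hm.neg_mul, Hm.smul_mul, rs_add, rs_add,
      rs_neg, rs_zsmul, e1, smul_zero, add_zero, Hm.mul_assoc (mp _ z₁), neg_add_cancel_right,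
      e2]

theorem line_hyp (hV : SFI (OC ρV)) {θ : (OC ρV).Hom I I} {P : (OC ρV).Hom I J}
    {Q : (OC ρV).Hom I J'} (h : (TC.line ρV).EF T ε 1 θ P Q U)
    (hz : Iso ε ((TC.line ρV).lin T θ P Q) (hypF (OC (ln ρV)) K)) : ucl (-ε) U = 0 := by
  have hs : IsUnit ((TC.line ρV).sys T ε 1 θ P Q) := by
    rw [TC.sys_one]
    exact NS.iso hz.symm ns_hyp
  obtain ⟨g, g', h1, h2, h3⟩ := hz
  obtain ⟨ω', w1, -⟩ := (ns_hyp (ε := ε) (𝒞 := OC ρV) (I := K)).inv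
  have hl : (TC.line ρV).sys T ε 1 θ P Q =
      g' * mp (TC.line ρV).vh (sy ε (hypF (OC ρV) K)) * g'.ct := by
    rw [mp_sy, mp_hyp, h3.sy_eq, sy_conj, TC.sys_one, ← Hm.mul_assoc, ← Hm.mul_assoc, h2,
      Hm.one_mul, Hm.mul_assoc, ← conjTranspose_mul, h2, conjTranspose_one,
      Hm.mul_one]
  obtain ⟨L, ι, G, E, e1, e2, e3, e4, e5⟩ := exists_window h1 h2 w1 hl
  refine OW_alg h.1 (hV L E e1) e1
    (ψ := rs (TC.line ρV).vh (TC.line ρV).hV (ι * (TC.line ρV).lin T θ P Q * ι.ct))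
    (rs (TC.line ρV).vh (TC.line ρV).hV (ι * (mp (TC.line ρV).vh Q * T.T.ct)))
    fun M f s => ?_
  rw [rs_sy, sy_conj, ← TC.sys_one]
  exact OW_core h hs e2 e3 e4 f s fun x w => e5 M x w f

theorem TC.Rep.line_zero (hV : SFI (OC ρV)) (h : (TC.line ρV).Rep T ε 0 U) : ucl (-ε) U = 0 := by
  obtain ⟨I, θ, P, Q, h1, h2, h3⟩ := h
  obtain ⟨m, n, hz⟩ := (cls_eq_zero h1).1 h3
  obtain ⟨k1, k2⟩ := h2.addV (hypF (OC ρV) m)
  refine line_hyp (K := n) hV k1 ?_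
  rwa [k2, mp_hyp]

end Pool.Agent.Work.MP_9d1ffa_al.Ct
end

-- merged part: Pool.Agent.Work.MP_9d1ffa_al.Ct.CRL
section
/-! Realisation of edge classes. -/

namespace Pool.Agent.Work.MP_9d1ffa_al.Ct

set_option linter.unusedSectionVars false
set_option linter.unusedVariables false

open MonoidAlgebra

variable {X Γ V A : Type} [Group Γ] [Group V] [Group A] {ε : ℤˣ} {ρ : Γ →* Equiv.Perm X}
  {ρV : V →* Equiv.Perm X} {ρA : A →* Equiv.Perm X} {I J J' K L M N κ κ' : Ob X}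

theorem CRL_unit (C : TC ρ ρV ρA) (T : TU ρ C.t J J') {W : (OC ρV).Hom (I + I) (I + I)}
    (hW : Uni (-ε) W) {U : (OC ρA).Hom (J + J) (J + J)} (hU : Uni (-ε) U) {θ : (OC ρV).Hom I I}
    {P : (OC ρV).Hom I J} {Q : (OC ρV).Hom I J'} (h : C.Loc T ε W θ P Q U) {Y : (OC ρV).Hom I I}
    {a : (OC ρV).Hom I J} {b : (OC ρV).Hom I J'} (e : Y * sysM ε W θ + a * P.ct + b * Q.ct = 1) :
    IsUnit (C.sys T ε W θ P Q) := by
  obtain ⟨n₁, n₂, h1, h2, h3, h4, h5, h6⟩ := h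
  obtain ⟨U', -, -, hU'⟩ := hU.inv
  have r : ∀ {L : Ob X} (n : (OC ρV).Hom L I),
      mp C.vh n * C.sys T ε W θ P Q = mp C.vh (n * sysM ε W θ) +
      mp C.vh (n * (W.toBlocks₁₁ * P)) * T.T * (mp C.vh Q).ct +
      (ε : ℤ) • (mp C.vh (n * (W.toBlocks₁₁ * Q)) * T.T.ct * (mp C.vh P).ct) := fun n => by
    simp only [C.sys_eq, Hm.mul_add, Hm.mul_smul, mp_mul C.vh n, Hm.mul_assoc]
  have k1 : fromRows (T.T * mp C.vh n₁) (mp C.vh n₂) * C.sys T ε W θ P Q =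
      mp C.ah U * C.sig T ε P Q := by
    conv_rhs => rw [← fromBlocks_toBlocks U, mp_blocks, TC.sig, fromBlocks_mul_fromRows]
    rw [fromRows_mul, Hm.mul_assoc, r, r, h1, h2, h3, h4, h5, h6]
    congr 1
    · rw [mp_zero, Hm.zero_mul, Hm.zero_mul, add_zero, mp_neg, mp_mul, mp_ct,
        Hm.mul_add, Hm.mul_neg, Hm.mul_neg, Hm.mul_smul, Hm.mul_smul,
        ← Hm.mul_assoc, ← Hm.mul_assoc, ← Hm.mul_assoc, ← Hm.mul_assoc,
        ← C.mp_va_dg, ← C.mp_va_dg, Hm.mul_assoc _ T.T T.T.ct, T.u1,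
        Hm.mul_one]
    · rw [mp_zero, Hm.zero_mul, Hm.zero_mul, smul_zero, add_zero, mp_neg, mp_zsmul, mp_mul,
        mp_ct, ← C.mp_va, ← C.mp_va, Hm.mul_neg, Hm.mul_smul, Hm.neg_mul,
        Hm.neg_mul, Hm.mul_assoc, add_comm]
  obtain ⟨Z, k2⟩ : ∃ Z : (OC ρ).Hom (J + J) I, Z * C.sys T ε W θ P Q = C.sig T ε P Q :=
    ⟨mp C.ah U' * fromRows (T.T * mp C.vh n₁) (mp C.vh n₂), by
      rw [Hm.mul_assoc, k1, ← Hm.mul_assoc, ← mp_mul, hU', mp_one, Hm.one_mul]⟩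
  rw [← fromRows_toRows Z, fromRows_mul, TC.sig, fromRows_ext_iff] at k2
  have kQ : -(T.T.ct * Z.toRows₁) * C.sys T ε W θ P Q = (mp C.vh Q).ct := by
    rw [Hm.neg_mul, Hm.mul_assoc, k2.1, Hm.mul_neg, neg_neg, ← Hm.mul_assoc,
      T.u2, Hm.one_mul]
  have kP : ((ε : ℤ) • Z.toRows₂) * C.sys T ε W θ P Q = (mp C.vh P).ct := by
    rw [Hm.smul_mul, k2.2, eps_eps]
  have e' := congrArg (mp C.vh) e
  rw [mp_add, mp_add, mp_mul, mp_mul, mp_mul, mp_ct, mp_ct, mp_one] at e'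
  refine sys_unit (hW.mp C.vh) (C := mp C.vh Y +
    (mp C.vh a - (ε : ℤ) • (mp C.vh Y * (mp C.vh (W.toBlocks₁₁ * Q) * T.T.ct))) *
      ((ε : ℤ) • Z.toRows₂) +
    (mp C.vh b - mp C.vh Y * (mp C.vh (W.toBlocks₁₁ * P) * T.T)) *
      -(T.T.ct * Z.toRows₁)) ?_
  change _ * C.sys T ε W θ P Q = 1
  rw [Hm.add_mul, Hm.add_mul, Hm.mul_assoc, Hm.mul_assoc, kP, kQ, ← e', C.sys_eq]
  simp only [Hm.mul_add, Hm.sub_mul, Hm.mul_smul, Hm.smul_mul, Hm.mul_assoc]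
  abel

theorem TC.rl (C : TC ρ ρV ρA) (T : TU ρ C.t J J') {W : (OC ρV).Hom (I + I) (I + I)}
    (hW : Uni (-ε) W) {U : (OC ρA).Hom (J + J) (J + J)} (hU : Uni (-ε) U)
    (h : ucl (-ε) W =
      (ε : ℤ) • (ucl (-ε) (mp C.ih U) - ucl (-ε) (C.jm (T.sum T) (T.sum T) U))) :
    ∃ (M : Ob X) (θ : (OC ρV).Hom (I + M) (I + M)) (P : (OC ρV).Hom (I + M) J)
      (Q : (OC ρV).Hom (I + M) J'),
      IsUnit (C.sys T ε (dsum W (1 : (OC ρV).Hom (M + M) (M + M))) θ P Q) ∧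
      C.Loc T ε (dsum W (1 : (OC ρV).Hom (M + M) (M + M))) θ P Q U := by
  have hi := hU.mp C.ih
  have hj := C.uni_jm T hU
  have h0 : ucl (-ε)
      (dsum W (dsum (fA (-ε) (mp C.ih U)) (fB (C.jm (T.sum T) (T.sum T) U)))) = 0 := by
    rw [ucl_dsum hW (hi.fA.dsum hj.fB), ucl_dsum hi.fA hj.fB, ucl_fA hi, ucl_fB hj, h,
      Units.val_neg, neg_smul, neg_smul, smul_sub]
    abel
  have hb := hasBox_lower (hW.dsum (hi.fA.dsum hj.fB)) h0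
  rw [dsum_eq, toBlocks_fromBlocks₂₁, toBlocks_fromBlocks₂₂, dsum_eq, toBlocks_fromBlocks₂₁,
    toBlocks_fromBlocks₂₂, fA, fB, toBlocks_fromBlocks₂₁, toBlocks_fromBlocks₂₂,
    toBlocks_fromBlocks₂₁, toBlocks_fromBlocks₂₂, C.jm_eq, toBlocks_fromBlocks₁₂,
    toBlocks_fromBlocks₁₁] at hb
  obtain ⟨M, θ, m₁, m₂, D, c₁, c₂, h1, h2, h3⟩ := ORL_box hb
  obtain ⟨P, hP⟩ : ∃ P : (OC ρV).Hom (I + ((J + J') + M)) J,
      P = fromRows 0 (fromRows (fromRows 1 0) 0) := ⟨_, rfl⟩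
  obtain ⟨Q, hQ⟩ : ∃ Q : (OC ρV).Hom (I + ((J + J') + M)) J',
      Q = fromRows 0 (fromRows (fromRows 0 1) 0) := ⟨_, rfl⟩
  have cP : P.ct = fromCols 0 (fromCols (fromCols 1 0) 0) := by
    simp only [hP, conjTranspose_fromRows_eq_fromCols_conjTranspose, conjTranspose_zero,
      conjTranspose_one]
  have cQ : Q.ct = fromCols 0 (fromCols (fromCols 0 1) 0) := by
    simp only [hQ, conjTranspose_fromRows_eq_fromCols_conjTranspose, conjTranspose_zero,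
      conjTranspose_one]
  have h4 := congrArg (fromCols (1 : (OC ρV).Hom J J) (0 : (OC ρV).Hom J J') * ·) h2
  have h5 := congrArg (fromCols (0 : (OC ρV).Hom J' J) (1 : (OC ρV).Hom J' J') * ·) h2
  simp only [← Hm.mul_assoc, mul_fromCols, Hm.mul_zero, fromCols_mul_fromBlocks,
    Hm.one_mul, Hm.zero_mul, add_zero, zero_add] at h4 h5
  have hL : C.Loc T ε (dsum W (1 : (OC ρV).Hom (((J + J') + M) + ((J + J') + M)) _)) θ P Q U := by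
    refine ⟨-fromCols 0 (fromCols (fromCols 0 (-C.jm T T U.toBlocks₁₂))
        (fromCols (0 : (OC ρV).Hom J' J) (1 : (OC ρV).Hom J' J') * m₂)),
      (ε : ℤ) • fromCols 0 (fromCols (fromCols (((-ε : ℤˣ) : ℤ) • (mp C.ih U).toBlocks₂₁) 0)
        (fromCols (1 : (OC ρV).Hom J J) (0 : (OC ρV).Hom J J') * m₂)), ?_, ?_, ?_, ?_, ?_, ?_⟩
    · rw [hP, ORL_col₀]
      simp [fromCols_mul_fromRows]
    · rw [hQ, ORL_col₀]
      simp [fromCols_mul_fromRows]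
    · rw [Hm.neg_mul, ORL_row₀, h5, cQ]
      simp
    · rw [hP, ORL_col₀, Hm.smul_mul]
      simp only [fromCols_mul_fromRows, mp_toBlocks₂₁, Hm.mul_zero,
        Hm.mul_one, add_zero, zero_add, Units.val_neg, neg_smul, smul_neg, eps_eps]
    · rw [hQ, ORL_col₀, Hm.smul_mul]
      simp [fromCols_mul_fromRows]
    · rw [Hm.smul_mul, ORL_row₀, h4, cP]
      simp [mp_toBlocks₂₂]
  refine ⟨(J + J') + M, θ, P, Q, ?_, hL⟩
  obtain ⟨Y, hY⟩ := ORL_key hW h1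
    (fromRows (0 : (OC ρV).Hom I _) (fromRows (0 : (OC ρV).Hom (J + J') _) D))
    (fromRows (-1 : (OC ρV).Hom I I) (fromRows 0 c₁))
  refine CRL_unit C T (hW.dsum uni_one) hU hL (Y := Y)
    (a := fromRows 0 (fromRows (fromRows 1 0) (-c₂.toCols₁)))
    (b := fromRows 0 (fromRows (fromRows 0 1) (-c₂.toCols₂))) ?_
  rw [hY, cP, cQ]
  obtain ⟨d₁, d₂, rfl⟩ := exists_cols c₂
  simp only [fromRows_mul, h3, Hm.zero_mul, Hm.one_mul, Hm.neg_mul, toCols₁_fromCols,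
    toCols₂_fromCols]
  refine ext_rows ?_ (ext_rows (ext_rows ?_ ?_) ?_)
  all_goals
    refine ext_cols ?_ (ext_cols (ext_cols ?_ ?_) ?_) <;> simp

end Pool.Agent.Work.MP_9d1ffa_al.Ct
end

-- merged part: Pool.Agent.Work.MP_9d1ffa_al.Ct.CZ
section
/-! The splitting theorem and the odd groups. -/

namespace Pool.Agent.Work.MP_9d1ffa_al.Ct

set_option linter.unusedSectionVars false
set_option linter.unusedVariables false

open MonoidAlgebra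

variable {X Γ V A : Type} [Group Γ] [Group V] [Group A] {ε : ℤˣ} {ρ : Γ →* Equiv.Perm X}
  {ρV : V →* Equiv.Perm X} {ρA : A →* Equiv.Perm X} {I J J' K L M N κ κ' : Ob X}

theorem TC.split (C : TC ρ ρV ρA) (hG : TA ρ C.T) (hU : UNilTree Γ C.T ε)
    (h2 : ∀ g : Γ, g * g = 1 → g = 1) (hA : SFI (OC ρA)) (h1 : Van1 (OC ρA) (-ε))
    {ψ : (OC ρ).Hom I I} (hψ : NS ε ψ) :
    ∃ (J : Ob X) (θ : (OC ρV).Hom J J), NS ε θ ∧ Z ε (fromBlocks ψ 0 0 (-mp C.vh θ)) := by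
  obtain ⟨N, κ, Y, J, J', T, θ, P, Q, k1, k2, k3⟩ := C.linOK_all (ε := ε) ψ
  have k4 : Iso ε (fromBlocks ψ 0 0 κ) (C.lin T θ P Q) := (iso_ext ψ κ Y).trans (Iso.of_eqv k3)
  have k5 : NS ε (C.lin T θ P Q) := NS.iso k4 (hψ.sum k1)
  obtain ⟨κ₁, κ₂, T', U, hE⟩ := TC.exists_ef (C := C) (T := T) (W := 1) (θ := θ) (P := P)
    (Q := Q) hA uni_one (by rw [TC.sys_one]; exact k5)
  have hR : C.Rep (T.sum T') ε (cls ε ψ) U := ⟨_, θ, _, _, by rwa [TC.lin_pad], hE, by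
    rw [TC.lin_pad, ← cls_iso k4, cls_sum hψ k1, (cls_eq_zero k1).2 k2, add_zero]⟩
  obtain ⟨L, L', T'', hR'⟩ := hR.norm (h1 _ U hE.1)
  obtain ⟨y, hy⟩ := hR'.split_one hU hG h2
  obtain ⟨n, φ, hφ, rfl⟩ := cls_surj y
  refine ⟨n, φ, hφ, (cls_eq_zero (hψ.sum (hφ.mp (f := C.vh)).neg)).1 ?_⟩
  rw [cls_sum hψ (hφ.mp (f := C.vh)).neg, cls_neg, ← m0_cls _ hφ, hy, add_neg_cancel]

/-- every form comes from the vertex group -/
theorem split (C : Cut Γ V A) (ρ : Γ →* Equiv.Perm X) (hρ : ∀ g y, ρ g y = y → ∃ w, C.v w = g)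
    (hU : UNilTree Γ C.T ε) (h2 : ∀ g : Γ, g * g = 1 → g = 1) (hA : SFI (OC (ρ.comp C.va)))
    (h1 : Van1 (OC (ρ.comp C.va)) (-ε)) (I : Ob X) (ψ : (OC ρ).Hom I I) (hψ : NS ε ψ) :
    ∃ (J : Ob X) (θ : (OC (ρ.comp C.v)).Hom J J),
      NS ε θ ∧ Z ε (fromBlocks ψ 0 0 (-mp (AH.of ρ C.v) θ)) :=
  (exists_TA C hρ).elim fun hG => (TC.of C ρ).split hG hU h2 hA h1 hψ

/-- the odd groups vanish if the even groups of the Laurent extension do -/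
theorem van1_of_line (ρ : V →* Equiv.Perm X) (hV : SFI (OC ρ))
    (h : Van0 (OC (ρ.comp (MonoidHom.fst V (Multiplicative ℤ)))) ε) : Van1 (OC ρ) (-ε) := by
  intro J U hU
  obtain ⟨M, θ, P, Q, k1, k2⟩ := (TC.line ρ).rl (lineT ρ J) (I := J) (W := 1) uni_one hU (by
    rw [TC.jm_eq, line_jm, line_jm, line_jm, line_jm, fromBlocks_toBlocks, line_ih, sub_self,
      smul_zero, ucl_one])
  rw [dsum_one] at k1 k2
  rw [TC.sys_one] at k1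
  exact (ucl_eq_zero hU).1 (TC.Rep.line_zero hV
    ⟨_, θ, P, Q, k1, k2.ef hU, (cls_eq_zero k1).2 (h _ _ k1)⟩)

end Pool.Agent.Work.MP_9d1ffa_al.Ct
end

-- merged part: Pool.Agent.Work.MP_9d1ffa_al.Ct.KKT
section
/-! Formal properties of the classes of isomorphisms, and functors that fix the objects. -/

namespace Pool.Agent.Work.MP_9d1ffa_al.Ct

set_option linter.unusedSectionVars false
set_option linter.unusedVariables false

variable {O : Type 1} [Add O] [Zero O] {𝒞 𝒟 : SCat O} {I J K L : O}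

theorem KKT_swap (a : 𝒞.Hom I K) (b : 𝒞.Hom I L) (c : 𝒞.Hom J K) (d : 𝒞.Hom J L) :
    sComm 𝒞 I J * fromBlocks a b c d * sComm 𝒞 L K = fromBlocks d c b a := by
  simp [sComm, fromBlocks_multiply]

namespace KT

variable (T : KT 𝒞)

theorem one : T.D (1 : 𝒞.Hom I I) := by simpa using T.mul (T.neg I) (T.neg I)

theorem swap {a : 𝒞.Hom I K} {b : 𝒞.Hom I L} {c : 𝒞.Hom J K} {d : 𝒞.Hom J L}
    (hu : T.D (fromBlocks a b c d)) : T.D (fromBlocks d c b a) :=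
  KKT_swap a b c d ▸ T.mul (T.mul (T.comm _ _) hu) (T.comm _ _)

theorem inv' {u : 𝒞.Hom I J} {u' : 𝒞.Hom J I} (hu : T.D u) (h1 : u * u' = 1) : T.D u' := by
  obtain ⟨w, -, h2⟩ := T.inv hu
  obtain rfl : w = u' := by rw [← Hm.mul_one w, ← h1, ← Hm.mul_assoc, h2, Hm.one_mul]
  have h := T.mul (T.comm I J) (T.mul (T.mul (T.upper u) (T.lower (-w))) (T.upper u))
  have e : T.D (fromBlocks (-w) 0 0 u) := by simpa [sComm, fromBlocks_multiply, h1, h2] using h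
  simpa using T.mul (T.cancel e hu) (T.neg I)

theorem of_mul {u : 𝒞.Hom I J} {w : 𝒞.Hom J K} (huw : T.D (u * w)) (hw : T.D w) : T.D u := by
  obtain ⟨w', h1, -⟩ := T.inv hw
  simpa only [Hm.mul_assoc, h1, Hm.mul_one] using T.mul huw (T.inv' hw h1)

theorem of_mul' {u : 𝒞.Hom I J} {w : 𝒞.Hom J K} (huw : T.D (u * w)) (hu : T.D u) : T.D w := by
  obtain ⟨u', h1, h2⟩ := T.inv hu
  simpa only [← Hm.mul_assoc, h2, Hm.one_mul] using T.mul (T.inv' hu h1) huw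

/-- block triangular morphisms -/
theorem tri {u : 𝒞.Hom I J} {w : 𝒞.Hom K L} (X : 𝒞.Hom I L) (hw : T.D w) :
    T.D (fromBlocks u X 0 w) ↔ T.D u := by
  obtain ⟨w', h1, h2⟩ := T.inv hw
  have e : fromBlocks u X 0 w =
      fromBlocks (1 : 𝒞.Hom I I) (X * w') 0 (1 : 𝒞.Hom K K) * fromBlocks u 0 0 w := by
    simp [fromBlocks_multiply, Hm.mul_assoc, h2]
  rw [e]
  exact ⟨fun a => T.cancel (T.of_mul' a (T.upper _)) hw, fun a => T.mul (T.upper _) (T.sum a hw)⟩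

/-- Schur complements -/
theorem schur {a φ : 𝒞.Hom I J} {X : 𝒞.Hom I L} {Y : 𝒞.Hom K J} {κ : 𝒞.Hom K L}
    {w : 𝒞.Hom L J} (hκ : T.D κ) (h1 : a + X * w = φ) (h2 : Y + κ * w = 0) :
    T.D (fromBlocks a X Y κ) ↔ T.D φ := by
  have e : fromBlocks a X Y κ * fromBlocks (1 : 𝒞.Hom J J) 0 w (1 : 𝒞.Hom L L) =
      fromBlocks φ X 0 κ := by
    simp [fromBlocks_multiply, h1, h2]
  rw [← T.tri X hκ, ← e]
  exact ⟨fun b => T.mul b (T.lower w), fun b => T.of_mul b (T.lower w)⟩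

end KT

/-- isomorphisms -/
def Iv (u : 𝒞.Hom I J) : Prop := ∃ u' : 𝒞.Hom J I, u * u' = 1 ∧ u' * u = 1

/-- a class of isomorphisms from a shorter list of properties -/
def KT.of (D : ∀ {a b : O}, 𝒞.Hom a b → Prop) (unit : ∀ {a b : O} {u : 𝒞.Hom a b}, D u → Iv u)
    (mul : ∀ {a b c : O} {u : 𝒞.Hom a b} {v : 𝒞.Hom b c}, D u → D v → D (u * v))
    (inv : ∀ {a b : O} {u : 𝒞.Hom a b} {u' : 𝒞.Hom b a}, D u → u * u' = 1 → D u')
    (stab : ∀ {a b : O} (c : O) {u : 𝒞.Hom a b}, D (fromBlocks u 0 0 (1 : 𝒞.Hom c c)) ↔ D u)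
    (upper : ∀ {a b : O} (x : 𝒞.Hom a b), D (fromBlocks (1 : 𝒞.Hom a a) x 0 (1 : 𝒞.Hom b b)))
    (comm : ∀ a b : O, D (sComm 𝒞 a b)) (neg : ∀ a : O, D (-1 : 𝒞.Hom a a)) : KT 𝒞 :=
  have swap : ∀ {I J K L : O} {a : 𝒞.Hom I K} {b : 𝒞.Hom I L} {c : 𝒞.Hom J K} {d : 𝒞.Hom J L},
      D (fromBlocks a b c d) → D (fromBlocks d c b a) := fun {_ _ _ _ a b c d} h =>
    KKT_swap a b c d ▸ mul (mul (comm _ _) h) (comm _ _)
  { D := D
    inv := unit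
    mul := mul
    sum := fun {a b c d u v} hu hv => by
      simpa [fromBlocks_multiply] using mul ((stab c).2 hu) (swap ((stab b).2 hv))
    cancel := fun {a b c d u v} h hv => by
      obtain ⟨v', h1, -⟩ := unit hv
      refine (stab c).1 ?_
      simpa [fromBlocks_multiply, h1] using mul h (swap ((stab b).2 (inv hv h1)))
    upper := upper
    lower := fun x => swap (upper x)
    comm := comm
    neg := neg }

theorem Unt.iv {u : 𝒞.Hom I J} (h : Unt u) : Iv u := ⟨_, h.1, h.2⟩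

/-- the class of all isomorphisms -/
def ktIv (𝒞 : SCat O) : KT 𝒞 :=
  KT.of Iv id
    (fun ⟨u', h1, h2⟩ ⟨w', h3, h4⟩ => ⟨w' * u', by
      rw [Hm.mul_assoc, ← Hm.mul_assoc _ w', h3, Hm.one_mul, h1], by
      rw [Hm.mul_assoc, ← Hm.mul_assoc u', h2, Hm.one_mul, h4]⟩)
    (fun {_ _ u u'} ⟨w, h1, h2⟩ h => ⟨u, by
      rw [← Hm.one_mul u', ← h2, Hm.mul_assoc w, h, Hm.mul_one, h2], h⟩)
    (fun {I J} K u => by
      refine ⟨fun ⟨w, h1, h2⟩ => ?_, fun ⟨u', h1, h2⟩ =>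
        ⟨fromBlocks u' 0 0 1, by simp [fromBlocks_multiply, h1], by simp [fromBlocks_multiply, h2]⟩⟩
      obtain ⟨a, b, c, d, rfl⟩ := exists_blocks w
      rw [fromBlocks_multiply, ← fromBlocks_one, fromBlocks_inj] at h1 h2
      exact ⟨a, by simpa using h1.1, by simpa using h2.1⟩)
    (fun X => ⟨fromBlocks 1 (-X) 0 1, by simp [fromBlocks_multiply], by simp [fromBlocks_multiply]⟩)
    (fun _ _ => unt_comm.iv) fun _ => ⟨-1, by simp, by simp⟩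

/-- a functor that fixes the objects and the sums -/
structure IF (𝒞 𝒟 : SCat O) where
  m : ∀ {a b}, 𝒞.Hom a b →+ 𝒟.Hom a b
  m_mul : ∀ {a b c} (x : 𝒞.Hom a b) (y : 𝒞.Hom b c), m (x * y) = m x * m y
  m_one : ∀ a, m (1 : 𝒞.Hom a a) = 1
  m_ct : ∀ {a b} (x : 𝒞.Hom a b), m x.ct = (m x).ct
  m_inl : ∀ a b, m (𝒞.inl a b) = 𝒟.inl a b
  m_inr : ∀ a b, m (𝒞.inr a b) = 𝒟.inr a b

namespace IF

variable (F : IF 𝒞 𝒟)

theorem m_cols (a : 𝒞.Hom I J) (b : 𝒞.Hom I K) : F.m (fromCols a b) = fromCols (F.m a) (F.m b) := by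
  rw [fromCols, fromCols, map_add, F.m_mul, F.m_mul, F.m_inl, F.m_inr]

theorem m_rows (a : 𝒞.Hom I K) (b : 𝒞.Hom J K) : F.m (fromRows a b) = fromRows (F.m a) (F.m b) := by
  rw [fromRows, fromRows, map_add, F.m_mul, F.m_mul, F.m_ct, F.m_ct, F.m_inl, F.m_inr]

theorem m_blocks (a : 𝒞.Hom I K) (b : 𝒞.Hom I L) (c : 𝒞.Hom J K) (d : 𝒞.Hom J L) :
    F.m (fromBlocks a b c d) = fromBlocks (F.m a) (F.m b) (F.m c) (F.m d) := by
  rw [fromBlocks, fromBlocks, m_rows, m_cols, m_cols]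

theorem iv {u : 𝒞.Hom I J} (h : Iv u) : Iv (F.m u) := by
  obtain ⟨u', h1, h2⟩ := h
  exact ⟨F.m u', by rw [← F.m_mul, h1, F.m_one], by rw [← F.m_mul, h2, F.m_one]⟩

theorem sf {E : 𝒞.Hom I I} (h : SFIdem E) : SFIdem (F.m E) := by
  obtain ⟨a, b, U, W, h1, h2⟩ := h
  exact ⟨a, b, F.m U, F.m W, by rw [← F.m_mul, h1, F.m_one], by
    rw [← F.m_mul, h2, m_blocks, map_zero, map_zero, F.m_one]⟩

/-- the identity functor -/
def id (𝒞 : SCat O) : IF 𝒞 𝒞 :=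
  ⟨AddMonoidHom.id _, fun _ _ => rfl, fun _ => rfl, fun _ => rfl, fun _ _ => rfl, fun _ _ => rfl⟩

end IF

end Pool.Agent.Work.MP_9d1ffa_al.Ct
end

-- merged part: Pool.Agent.Work.MP_9d1ffa_al.Ct.KCut0
section
/-! Categories that split along one edge. -/

namespace Pool.Agent.Work.MP_9d1ffa_al.Ct

set_option linter.unusedSectionVars false
set_option linter.unusedVariables false

variable {O : Type 1} [Add O] [Zero O]

/-- a category `𝒮` that splits like the group ring of an HNN extension, with vertex category `ℬ`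
and edge category `𝒜` -/
structure RCut (𝒮 ℬ 𝒜 : SCat O) where
  v : IF ℬ 𝒮
  i : IF 𝒜 ℬ
  IsT : ∀ {a b}, 𝒮.Hom a b → Prop
  fp : ∀ {a b}, 𝒮.Hom a b →+ 𝒮.Hom a b
  ra : ∀ {a b}, 𝒮.Hom a b →+ 𝒜.Hom a b
  rv : ∀ {a b}, 𝒮.Hom a b →+ ℬ.Hom a b
  t_unt : ∀ {a b} {T : 𝒮.Hom a b}, IsT T → Unt T
  t_sum : ∀ {a b c d} {T : 𝒮.Hom a b} {T' : 𝒮.Hom c d}, IsT T → IsT T' →
    IsT (fromBlocks T 0 0 T')
  t_ex : ∀ a, ∃ (b : O) (T : 𝒮.Hom a b), IsT T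
  rel : ∀ {a b c d} {T : 𝒮.Hom a b} {T' : 𝒮.Hom c d}, IsT T → IsT T' → ∀ W : 𝒜.Hom a c,
    ∃ w : ℬ.Hom b d, v.m (i.m W) * T' = T * v.m w
  ra_ct : ∀ {a b} (x : 𝒮.Hom a b), ra x.ct = (ra x).ct
  rv_ct : ∀ {a b} (x : 𝒮.Hom a b), rv x.ct = (rv x).ct
  fp_v : ∀ {a b c} (x : 𝒮.Hom a b) (y : ℬ.Hom b c), fp (x * v.m y) = fp x * v.m y
  fp_t : ∀ {a b c} (x : 𝒮.Hom a b) {T : 𝒮.Hom b c}, IsT T →
    fp (x * T) = fp x * T + v.m (i.m (ra x)) * T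
  fp_one : ∀ a, fp (1 : 𝒮.Hom a a) = 0
  fp_rows : ∀ {a b c} (x : 𝒮.Hom a c) (y : 𝒮.Hom b c), fp (fromRows x y) = fromRows (fp x) (fp y)
  ra_l : ∀ {a b c} (y : 𝒜.Hom a b) (x : 𝒮.Hom b c), ra (v.m (i.m y) * x) = y * ra x
  ra_one : ∀ a, ra (1 : 𝒮.Hom a a) = 1
  ra_fp : ∀ {a b} (x : 𝒮.Hom a b), ra (fp x) = 0
  rv_l : ∀ {a b c} (y : ℬ.Hom a b) (x : 𝒮.Hom b c), rv (v.m y * x) = y * rv x
  rv_one : ∀ a, rv (1 : 𝒮.Hom a a) = 1
  rv_fp : ∀ {a b} (x : 𝒮.Hom a b), rv (fp x) = 0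
  rv_neg : ∀ {a b c} {T : 𝒮.Hom a b} {x : 𝒮.Hom a c}, IsT T → fp x = 0 → rv (T.ct * x) = 0
  ra_rv : ∀ {a b} (x : 𝒮.Hom a b), ra (v.m (rv x)) = ra x
  ra_conj : ∀ {a b c d} {T : 𝒮.Hom a b} {T' : 𝒮.Hom c d} (x : 𝒮.Hom b d), IsT T → IsT T' →
    ra (T * v.m (rv x) * T'.ct) = ra (T * x * T'.ct)
  gen : ∀ P : ∀ {a b}, 𝒮.Hom a b → Prop, (∀ {a b} (y : ℬ.Hom a b), P (v.m y)) →
    (∀ {a b} {T : 𝒮.Hom a b}, IsT T → P T ∧ P T.ct) →
    (∀ {a b} {x y : 𝒮.Hom a b}, P x → P y → P (x + y)) →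
    (∀ {a b c} {x : 𝒮.Hom a b} {y : 𝒮.Hom b c}, P x → P y → P (x * y)) →
    ∀ {a b} (x : 𝒮.Hom a b), P x

namespace RCut

variable {𝒮 ℬ 𝒜 : SCat O} (C : RCut 𝒮 ℬ 𝒜) {I J J₁ K L : O}

/-- morphisms of the vertex category -/
def mv (x : ℬ.Hom I J) : 𝒮.Hom I J := C.v.m x

/-- the embedding of the edge category -/
def mi (x : 𝒜.Hom I J) : ℬ.Hom I J := C.i.m x

/-- the positive part -/
def fP (x : 𝒮.Hom I J) : 𝒮.Hom I J := C.fp x

/-- the edge part -/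
def rA (x : 𝒮.Hom I J) : 𝒜.Hom I J := C.ra x

/-- the vertex part -/
def rV (x : 𝒮.Hom I J) : ℬ.Hom I J := C.rv x

theorem mv_mul (a : ℬ.Hom I J) (b : ℬ.Hom J K) : C.mv (a * b) = C.mv a * C.mv b := C.v.m_mul _ _

theorem mv_add (a b : ℬ.Hom I J) : C.mv (a + b) = C.mv a + C.mv b := map_add C.v.m _ _

theorem mv_sub (a b : ℬ.Hom I J) : C.mv (a - b) = C.mv a - C.mv b := map_sub C.v.m _ _

theorem mv_neg (a : ℬ.Hom I J) : C.mv (-a) = -C.mv a := map_neg C.v.m _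

theorem mv_zero : C.mv (0 : ℬ.Hom I J) = 0 := map_zero C.v.m

theorem mv_one : C.mv (1 : ℬ.Hom I I) = 1 := C.v.m_one _

theorem mv_ct (a : ℬ.Hom I J) : C.mv a.ct = (C.mv a).ct := C.v.m_ct _

theorem mv_cols (a : ℬ.Hom I J) (b : ℬ.Hom I K) :
    C.mv (fromCols a b) = fromCols (C.mv a) (C.mv b) := C.v.m_cols _ _

theorem mv_rows (a : ℬ.Hom I K) (b : ℬ.Hom J K) :
    C.mv (fromRows a b) = fromRows (C.mv a) (C.mv b) := C.v.m_rows _ _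

theorem mv_blocks (a : ℬ.Hom I K) (b : ℬ.Hom I L) (c : ℬ.Hom J K) (d : ℬ.Hom J L) :
    C.mv (fromBlocks a b c d) = fromBlocks (C.mv a) (C.mv b) (C.mv c) (C.mv d) :=
  C.v.m_blocks _ _ _ _

theorem mi_mul (a : 𝒜.Hom I J) (b : 𝒜.Hom J K) : C.mi (a * b) = C.mi a * C.mi b := C.i.m_mul _ _

theorem mi_sub (a b : 𝒜.Hom I J) : C.mi (a - b) = C.mi a - C.mi b := map_sub C.i.m _ _

theorem mi_zero : C.mi (0 : 𝒜.Hom I J) = 0 := map_zero C.i.m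

theorem mi_one : C.mi (1 : 𝒜.Hom I I) = 1 := C.i.m_one _

theorem mi_ct (a : 𝒜.Hom I J) : C.mi a.ct = (C.mi a).ct := C.i.m_ct _

theorem mi_cols (a : 𝒜.Hom I J) (b : 𝒜.Hom I K) :
    C.mi (fromCols a b) = fromCols (C.mi a) (C.mi b) := C.i.m_cols _ _

theorem mi_rows (a : 𝒜.Hom I K) (b : 𝒜.Hom J K) :
    C.mi (fromRows a b) = fromRows (C.mi a) (C.mi b) := C.i.m_rows _ _

theorem mi_blocks (a : 𝒜.Hom I K) (b : 𝒜.Hom I L) (c : 𝒜.Hom J K) (d : 𝒜.Hom J L) :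
    C.mi (fromBlocks a b c d) = fromBlocks (C.mi a) (C.mi b) (C.mi c) (C.mi d) :=
  C.i.m_blocks _ _ _ _

theorem fP_add (x y : 𝒮.Hom I J) : C.fP (x + y) = C.fP x + C.fP y := map_add C.fp _ _

theorem fP_rows (x : 𝒮.Hom I K) (y : 𝒮.Hom J K) :
    C.fP (fromRows x y) = fromRows (C.fP x) (C.fP y) := C.fp_rows _ _

theorem rA_add (x y : 𝒮.Hom I J) : C.rA (x + y) = C.rA x + C.rA y := map_add C.ra _ _

theorem rA_sub (x y : 𝒮.Hom I J) : C.rA (x - y) = C.rA x - C.rA y := map_sub C.ra _ _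

theorem rA_zero : C.rA (0 : 𝒮.Hom I J) = 0 := map_zero C.ra

theorem rA_ct (x : 𝒮.Hom I J) : C.rA x.ct = (C.rA x).ct := C.ra_ct _

theorem rA_one : C.rA (1 : 𝒮.Hom I I) = 1 := C.ra_one _

theorem rA_fP (x : 𝒮.Hom I J) : C.rA (C.fP x) = 0 := C.ra_fp _

theorem rA_rV (x : 𝒮.Hom I J) : C.rA (C.mv (C.rV x)) = C.rA x := C.ra_rv _

theorem rV_add (x y : 𝒮.Hom I J) : C.rV (x + y) = C.rV x + C.rV y := map_add C.rv _ _

theorem rV_ct (x : 𝒮.Hom I J) : C.rV x.ct = (C.rV x).ct := C.rv_ct _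

theorem rV_one : C.rV (1 : 𝒮.Hom I I) = 1 := C.rv_one _

theorem rV_fP (x : 𝒮.Hom I J) : C.rV (C.fP x) = 0 := C.rv_fp _

theorem fP_mv (x : 𝒮.Hom I J) (b : ℬ.Hom J K) : C.fP (x * C.mv b) = C.fP x * C.mv b := C.fp_v _ _

theorem rA_l (a : 𝒜.Hom I J) (x : 𝒮.Hom J K) : C.rA (C.mv (C.mi a) * x) = a * C.rA x := C.ra_l _ _

theorem rA_r (x : 𝒮.Hom I J) (a : 𝒜.Hom J K) : C.rA (x * C.mv (C.mi a)) = C.rA x * a :=
  ct_inj (by rw [← rA_ct, conjTranspose_mul, ← mv_ct, ← mi_ct, rA_l, conjTranspose_mul, rA_ct])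

theorem rV_l (b : ℬ.Hom I J) (x : 𝒮.Hom J K) : C.rV (C.mv b * x) = b * C.rV x := C.rv_l _ _

theorem rV_r (x : 𝒮.Hom I J) (b : ℬ.Hom J K) : C.rV (x * C.mv b) = C.rV x * b :=
  ct_inj (by rw [← rV_ct, conjTranspose_mul, ← mv_ct, rV_l, conjTranspose_mul, rV_ct])

theorem rA_cols (a : 𝒮.Hom I J) (b : 𝒮.Hom I K) :
    C.rA (fromCols a b) = fromCols (C.rA a) (C.rA b) := by
  rw [fromCols, fromCols, rA_add, ← C.v.m_inl, ← C.v.m_inr, ← C.i.m_inl, ← C.i.m_inr]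
  exact congrArg₂ (· + ·) (C.rA_r _ _) (C.rA_r _ _)

theorem rA_rows (a : 𝒮.Hom I K) (b : 𝒮.Hom J K) :
    C.rA (fromRows a b) = fromRows (C.rA a) (C.rA b) :=
  ct_inj (by rw [← rA_ct, conjTranspose_fromRows_eq_fromCols_conjTranspose, rA_cols,
    conjTranspose_fromRows_eq_fromCols_conjTranspose, rA_ct, rA_ct])

theorem rA_mi (a : 𝒜.Hom I J) : C.rA (C.mv (C.mi a)) = a := by
  rw [← Hm.mul_one (C.mv _), rA_l, rA_one, Hm.mul_one]

theorem fP_v (b : ℬ.Hom J K) : C.fP (C.mv b) = 0 := by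
  rw [← Hm.one_mul (C.mv b), fP_mv, fP, C.fp_one, Hm.zero_mul]

variable {C} {T : 𝒮.Hom J J₁}

theorem tt_ti (h : C.IsT T) : T * T.ct = 1 := (C.t_unt h).1

theorem ti_tt (h : C.IsT T) : T.ct * T = 1 := (C.t_unt h).2

theorem fP_tt (h : C.IsT T) (x : 𝒮.Hom I J) :
    C.fP (x * T) = C.fP x * T + C.mv (C.mi (C.rA x)) * T := C.fp_t x h

theorem fP_ti (h : C.IsT T) (x : 𝒮.Hom I J₁) :
    C.fP (x * T.ct) = C.fP x * T.ct - C.mv (C.mi (C.rA (x * T.ct))) := by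
  have := congrArg (· * T.ct) (fP_tt h (x * T.ct))
  simp only [Hm.add_mul, Hm.mul_assoc, ti_tt h, tt_ti h, Hm.mul_one] at this
  rw [this, add_sub_cancel_right]

theorem fP_tv (h : C.IsT T) (b : ℬ.Hom J₁ K) : C.fP (T * C.mv b) = T * C.mv b := by
  rw [fP_mv, ← Hm.one_mul T, fP_tt h, fP, C.fp_one, rA_one, mi_one, mv_one, Hm.zero_mul, zero_add]

theorem rA_pos_ti (h : C.IsT T) (x : 𝒮.Hom I J₁) : C.rA (C.fP x * T.ct) = C.rA (x * T.ct) := by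
  have := congrArg C.rA (fP_ti h x)
  rwa [rA_fP, rA_sub, rA_mi, eq_comm, sub_eq_zero] at this

theorem rV_neg (h : C.IsT T) {x : 𝒮.Hom J K} (hx : C.fP x = 0) : C.rV (T.ct * x) = 0 :=
  C.rv_neg h hx

theorem rA_conj (h : C.IsT T) {T' : 𝒮.Hom K L} (h' : C.IsT T') (x : 𝒮.Hom J₁ L) :
    C.rA (T * C.mv (C.rV x) * T'.ct) = C.rA (T * x * T'.ct) := C.ra_conj x h h'

theorem rel_ex (h : C.IsT T) {T' : 𝒮.Hom K L} (h' : C.IsT T') (W : 𝒜.Hom J K) :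
    ∃ w : ℬ.Hom J₁ L, T.ct * (C.mv (C.mi W) * T') = C.mv w ∧
      C.mv w * T'.ct = T.ct * C.mv (C.mi W) := by
  obtain ⟨w, e⟩ := C.rel h h' W
  have e1 : T.ct * (C.mv (C.mi W) * T') = C.mv w := by
    rw [mv, mi, e, ← Hm.mul_assoc, ti_tt h, Hm.one_mul, mv]
  exact ⟨w, e1, by rw [← e1, Hm.mul_assoc, Hm.mul_assoc, tt_ti h', Hm.mul_one]⟩

end RCut

end Pool.Agent.Work.MP_9d1ffa_al.Ct
end

-- merged part: Pool.Agent.Work.MP_9d1ffa_al.Ct.KCut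
section
/-! Splitting isomorphisms along one edge. -/

namespace Pool.Agent.Work.MP_9d1ffa_al.Ct

set_option linter.unusedSectionVars false
set_option linter.unusedVariables false

namespace RCut

variable {O : Type 1} [Add O] [Zero O] {𝒮 ℬ 𝒜 : SCat O} (C : RCut 𝒮 ℬ 𝒜)
  {I I' J J₁ J' J₁' L : O}

/-- a morphism that is linear in the stable letter and its inverse -/
def lin (a : ℬ.Hom I I') (P : ℬ.Hom I J) (T : 𝒮.Hom J J₁) (Q : ℬ.Hom J₁ I') (P' : ℬ.Hom I J₁')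
    (T' : 𝒮.Hom J' J₁') (Q' : ℬ.Hom J' I') : 𝒮.Hom I I' :=
  C.mv a + C.mv P * (T * C.mv Q) + C.mv P' * T'.ct * C.mv Q'

/-- the class contains the isomorphisms coming from the vertex category, the stable letters, and
the isomorphisms that move forward along the tree -/
structure Gens (D : KT 𝒮) : Prop where
  hv : ∀ {I J : O} (a : ℬ.Hom I J), Iv a → D.D (C.mv a)
  ht : ∀ {I J : O} {T : 𝒮.Hom I J}, C.IsT T → D.D T
  hn : ∀ {J J₁ J' J₁' : O} {T : 𝒮.Hom J J₁} {T' : 𝒮.Hom J' J₁'} (n₁₁ : ℬ.Hom J₁ J)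
    (n₁₂ : ℬ.Hom J₁ J₁') (n₂₁ : ℬ.Hom J' J) (n₂₂ : ℬ.Hom J' J₁'), C.IsT T → C.IsT T' →
    C.rA (T * C.mv n₁₂ * T'.ct) = 0 → C.rA (C.mv n₂₁) = 0 →
    Iv (1 + fromBlocks (T * C.mv n₁₁) (T * C.mv n₁₂ * T'.ct) (C.mv n₂₁) (C.mv n₂₂ * T'.ct)) →
    D.D (1 + fromBlocks (T * C.mv n₁₁) (T * C.mv n₁₂ * T'.ct) (C.mv n₂₁) (C.mv n₂₂ * T'.ct))

variable {C} {D : KT 𝒮} {a : ℬ.Hom I I'} {P : ℬ.Hom I J} {T : 𝒮.Hom J J₁} {Q : ℬ.Hom J₁ I'}
  {P' : ℬ.Hom I J₁'} {T' : 𝒮.Hom J' J₁'} {Q' : ℬ.Hom J' I'} {β : 𝒮.Hom I' I}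

theorem key (hT : C.IsT T) (hT' : C.IsT T') (y : 𝒮.Hom L I) :
    C.fP y * C.lin a P T Q P' T' Q' = C.fP (y * C.lin a P T Q P' T' Q') -
    C.mv (C.mi (C.rA (y * C.mv P))) * (T * C.mv Q) +
    C.mv (C.mi (C.rA (y * (C.mv P' * T'.ct)))) * C.mv Q' := by
  simp only [lin, Hm.mul_add, fP_add, ← Hm.mul_assoc, fP_mv, fP_tt hT, fP_ti hT', Hm.add_mul,
    Hm.sub_mul]
  abel

theorem lin_ct : (C.lin a P T Q P' T' Q').ct = C.lin a.ct Q'.ct T' P'.ct Q.ct T P.ct := by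
  simp only [lin, conjTranspose_add, conjTranspose_mul, mv_ct, conjTranspose_conjTranspose,
    Hm.mul_assoc]
  abel

theorem std_right (hT : C.IsT T) (hT' : C.IsT T') (h1 : C.lin a P T Q P' T' Q' * β = 1)
    (h2 : β * C.lin a P T Q P' T' Q' = 1) (r11 : C.rA (T * C.mv Q * β * C.mv P) = 0)
    (r12 : C.rA (T * C.mv Q * β * (C.mv P' * T'.ct)) = 0)
    (r21 : C.rA (C.mv Q' * β * C.mv P) = 0) (r22 : C.rA (C.mv Q' * β * (C.mv P' * T'.ct)) = 0) :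
    a * C.rV β = 1 := by
  have k1 := key (a := a) (P := P) (Q := Q) (P' := P') (Q' := Q') hT hT' (T * C.mv Q * β)
  have k2 := key (a := a) (P := P) (Q := Q) (P' := P') (Q' := Q') hT hT' (C.mv Q' * β)
  rw [r11, r12, Hm.mul_assoc _ β, h2, Hm.mul_one, fP_tv hT] at k1
  rw [r21, r22, Hm.mul_assoc _ β, h2, Hm.mul_one, fP_v] at k2
  simp only [mi_zero, mv_zero, Hm.zero_mul, sub_zero, add_zero] at k1 k2
  have k3 : C.fP (T * C.mv Q * β) = T * C.mv Q * β := by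
    rw [← Hm.mul_one (C.fP _), ← h1, ← Hm.mul_assoc, k1]
  have k4 : C.fP (C.mv Q' * β) = 0 := by
    rw [← Hm.mul_one (C.fP _), ← h1, ← Hm.mul_assoc, k2, Hm.zero_mul]
  have := congrArg C.rV h1
  rwa [lin, Hm.add_mul, Hm.add_mul, rV_add, rV_add, rV_l, Hm.mul_assoc, rV_l, ← k3,
    rV_fP, Hm.mul_assoc, Hm.mul_assoc, rV_l, rV_neg hT' k4, Hm.mul_zero, Hm.mul_zero,
    add_zero, add_zero, rV_one] at this

theorem std (G : C.Gens D) (hT : C.IsT T) (hT' : C.IsT T') (h1 : C.lin a P T Q P' T' Q' * β = 1)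
    (h2 : β * C.lin a P T Q P' T' Q' = 1) (r11 : C.rA (T * C.mv Q * β * C.mv P) = 0)
    (r12 : C.rA (T * C.mv Q * β * (C.mv P' * T'.ct)) = 0)
    (r21 : C.rA (C.mv Q' * β * C.mv P) = 0) (r22 : C.rA (C.mv Q' * β * (C.mv P' * T'.ct)) = 0) :
    D.D (C.lin a P T Q P' T' Q') := by
  have a1 := std_right hT hT' h1 h2 r11 r12 r21 r22
  have a2 : C.rV β * a = 1 := by
    have c : ∀ {X Y : O} {x : 𝒮.Hom X Y} {y : 𝒮.Hom Y X}, C.rA x = 0 → y = x.ct →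
        C.rA y = 0 := fun h e => by rw [e, rA_ct, h, conjTranspose_zero]
    have := std_right (a := a.ct) (P := Q'.ct) (Q := P'.ct) (P' := Q.ct) (Q' := P.ct) (β := β.ct)
      hT' hT (by rw [← lin_ct, ← conjTranspose_mul, h2, conjTranspose_one])
      (by rw [← lin_ct, ← conjTranspose_mul, h1, conjTranspose_one]) (c r22 ?_) (c r12 ?_)
      (c r21 ?_) (c r11 ?_)
    · rw [rV_ct, ← conjTranspose_mul] at this
      rw [← conjTranspose_conjTranspose (C.rV β * a), this, conjTranspose_one]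
    all_goals simp only [conjTranspose_mul, mv_ct, conjTranspose_conjTranspose, Hm.mul_assoc]
  have e1 : C.mv a + fromCols (C.mv P) (C.mv P' * T'.ct) * fromRows (T * C.mv Q) (C.mv Q') =
      C.lin a P T Q P' T' Q' := by rw [fromCols_mul_fromRows, lin, add_assoc]
  have e2 : -fromRows (T * C.mv Q) (C.mv Q') +
      (1 : 𝒮.Hom (J + J') (J + J')) * fromRows (T * C.mv Q) (C.mv Q') = 0 := by
    rw [Hm.one_mul, neg_add_cancel]
  have e3 : (1 : 𝒮.Hom (J + J') (J + J')) + -fromRows (T * C.mv Q) (C.mv Q') *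
      -(C.mv (C.rV β) * fromCols (C.mv P) (C.mv P' * T'.ct)) =
      1 + fromBlocks (T * C.mv (Q * C.rV β * P)) (T * C.mv (Q * C.rV β * P') * T'.ct)
        (C.mv (Q' * C.rV β * P)) (C.mv (Q' * C.rV β * P') * T'.ct) := by
    rw [Hm.neg_mul, Hm.mul_neg, neg_neg, mul_fromCols, fromRows_mul_fromCols]
    simp only [mv_mul, Hm.mul_assoc]
  have e4 : fromCols (C.mv P) (C.mv P' * T'.ct) +
      C.mv a * -(C.mv (C.rV β) * fromCols (C.mv P) (C.mv P' * T'.ct)) = 0 := by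
    rw [Hm.mul_neg, ← Hm.mul_assoc, ← mv_mul, a1, mv_one, Hm.one_mul, add_neg_cancel]
  have hv := G.hv a ⟨_, a1, a2⟩
  refine (D.schur D.one e1 e2).1 (D.swap ((D.schur hv e3 e4).2 (G.hn _ _ _ _ hT hT' ?_ ?_
    (((ktIv 𝒮).schur (D.inv hv) e3 e4).1 ((ktIv 𝒮).swap
      (((ktIv 𝒮).schur (ktIv 𝒮).one e1 e2).2 ⟨β, h1, h2⟩))))))
  · rw [← rV_l, ← rV_r, rA_conj hT hT', ← r12]
    simp only [Hm.mul_assoc]
  · rw [← rV_l, ← rV_r, rA_rV, r21]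

theorem normal (G : C.Gens D) (hT : C.IsT T) (hT' : C.IsT T')
    (h1 : C.lin a P T Q P' T' Q' * β = 1) (h2 : β * C.lin a P T Q P' T' Q' = 1) {b b' : O}
    {W₁ : 𝒜.Hom J b} {W₂ : 𝒜.Hom J' b} {W₁' : 𝒜.Hom J b'} {W₂' : 𝒜.Hom J' b'}
    (hW : Iv (fromBlocks W₁ W₁' W₂ W₂'))
    (r1 : C.rA (fromRows (T * C.mv Q * β) (-(C.mv Q' * β)) *
      (C.mv P * C.mv (C.mi W₁) + C.mv P' * T'.ct * C.mv (C.mi W₂))) = fromRows 0 (-W₂))
    (r2 : C.rA (fromRows (T * C.mv Q * β) (-(C.mv Q' * β)) *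
      (C.mv P * C.mv (C.mi W₁') + C.mv P' * T'.ct * C.mv (C.mi W₂'))) = fromRows W₁' 0) :
    D.D (C.lin a P T Q P' T' Q') := by
  obtain ⟨b₁, S, hS⟩ := C.t_ex b
  obtain ⟨b₁', S', hS'⟩ := C.t_ex b'
  obtain ⟨w₁, c₁, -⟩ := rel_ex hT hS W₁
  obtain ⟨w₂, c₂, -⟩ := rel_ex hT' hS W₂
  obtain ⟨w₁', -, c₁'⟩ := rel_ex hT hS' W₁'
  obtain ⟨w₂', -, c₂'⟩ := rel_ex hT' hS' W₂'
  have hW' := G.hv _ (C.i.iv hW)
  obtain ⟨U, u1, u2⟩ := hW
  set y := fromRows (T * C.mv Q * β) (-(C.mv Q' * β)) with hy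
  have k : D.D (fromBlocks 0 1 (-T.ct) 0 : 𝒮.Hom (J' + J₁) (J + J')) := by
    simpa [sComm, fromBlocks_multiply] using D.mul (D.sum (D.one (I := J'))
      (D.mul (D.neg _) (D.inv' (G.ht hT) (tt_ti hT)))) (D.comm J J')
  have e1 : C.mv a + fromCols (C.mv P) (-(C.mv P' * T'.ct)) *
      fromRows (T * C.mv Q) (-C.mv Q') = C.lin a P T Q P' T' Q' := by
    rw [fromCols_mul_fromRows, lin, add_assoc, Hm.neg_mul, Hm.mul_neg, neg_neg]
  have e2 : fromRows (C.mv Q') (C.mv Q) + (fromBlocks 0 1 (-T.ct) 0 : 𝒮.Hom (J' + J₁) (J + J')) *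
      fromRows (T * C.mv Q) (-C.mv Q') = 0 := by
    rw [fromBlocks_mul_fromRows, Hm.neg_mul, ← Hm.mul_assoc T.ct, ti_tt hT]
    simp
  have hΩ : D.D (fromBlocks (1 : 𝒮.Hom I' I') 0 0
      (C.mv (C.mi (fromBlocks W₁ W₁' W₂ W₂')) * fromBlocks S 0 0 (1 : 𝒮.Hom b' b'))) :=
    D.sum D.one (D.mul hW' (D.sum (G.ht hS) D.one))
  have e3 : fromBlocks (C.mv a) (fromCols (C.mv P) (-(C.mv P' * T'.ct)))
      (fromRows (C.mv Q') (C.mv Q)) (fromBlocks 0 1 (-T.ct) 0) *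
      fromBlocks (1 : 𝒮.Hom I' I') 0 0
        (C.mv (C.mi (fromBlocks W₁ W₁' W₂ W₂')) * fromBlocks S 0 0 (1 : 𝒮.Hom b' b')) =
      C.lin (fromBlocks a (fromCols (-(P' * w₂)) (P * C.mi W₁')) (fromRows Q' Q)
        (fromBlocks 0 (C.mi W₂') (-w₁) 0))
        (fromRows (P * C.mi W₁) (fromRows (C.mi W₂) 0)) S (fromCols 0 (fromCols 1 0))
        (fromRows (-(P' * w₂')) (fromRows 0 (-w₁'))) S' (fromCols 0 (fromCols 0 1)) := by
    simp only [lin, mi_blocks, mv_blocks, mv_cols, mv_rows, mv_neg, mv_mul, mv_zero, mv_one,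
      fromBlocks_multiply, fromCols_mul_fromBlocks, mul_fromCols, fromRows_mul, Hm.mul_zero,
      Hm.zero_mul, Hm.mul_one, Hm.one_mul, add_zero, zero_add, Hm.neg_mul,
      Hm.mul_assoc, c₁, c₂, c₁', c₂']
    refine ext_rows ?_ (ext_rows ?_ ?_) <;> simp [add_comm]
  have hI := (ktIv 𝒮).mul (((ktIv 𝒮).schur (D.inv k) e1 e2).2 ⟨β, h1, h2⟩) (D.inv hΩ)
  refine (D.schur k e1 e2).1 (D.of_mul ?_ hΩ)
  have hy1 : y * C.lin a P T Q P' T' Q' = fromRows (T * C.mv Q) (-C.mv Q') := by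
    rw [hy, fromRows_mul, Hm.neg_mul, Hm.mul_assoc _ β, Hm.mul_assoc _ β, h2,
      Hm.mul_one, Hm.mul_one]
  set g : 𝒮.Hom (J + J') (I + (J' + J₁)) := fromCols y
    (fromCols (fromRows 0 1 + y * (C.mv P' * T'.ct)) ((y * C.mv P - fromRows 1 0) * T))
    with hg
  have e4 : g * fromBlocks (C.mv a) (fromCols (C.mv P) (-(C.mv P' * T'.ct)))
      (fromRows (C.mv Q') (C.mv Q)) (fromBlocks 0 1 (-T.ct) 0) = fromCols 0 1 := by
    rw [hg, fromCols_mul_fromBlocks, fromCols_mul_fromRows, fromCols_mul_fromBlocks, mul_fromCols]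
    congr 1
    · have : y * C.mv a = fromRows (T * C.mv Q) (-C.mv Q') - y * (C.mv P * (T * C.mv Q)) -
          y * (C.mv P' * T'.ct * C.mv Q') := by
        rw [← hy1, lin, Hm.mul_add, Hm.mul_add]
        abel
      have z : fromRows (T * C.mv Q) (-C.mv Q') =
          fromRows (T * C.mv Q) 0 - fromRows 0 (C.mv Q') := by simp
      rw [this, z]
      simp only [Hm.add_mul, Hm.sub_mul, Hm.mul_assoc, fromRows_mul, Hm.one_mul, Hm.zero_mul]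
      abel
    · simp only [Hm.mul_zero, Hm.mul_one, zero_add, add_zero, Hm.mul_neg, Hm.mul_assoc, tt_ti hT,
        fromCols_add]
      rw [← fromBlocks_one, ← fromCols_fromRows_eq_fromBlocks]
      congr 1 <;> abel
  rw [e3] at hI ⊢
  obtain ⟨β', v1, v2⟩ := hI
  have e5 : C.mv (C.mi U) * g = fromRows
      (S * C.mv (fromCols 0 (fromCols 1 0) : ℬ.Hom b₁ (I' + (b₁ + b'))) * β')
      (C.mv (fromCols 0 (fromCols 0 1) : ℬ.Hom b' (I' + (b₁ + b'))) * β') := by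
    rw [← Hm.mul_one g, ← v1, ← e3, ← Hm.mul_assoc g, ← Hm.mul_assoc g, e4,
      fromCols_mul_fromBlocks, ← Hm.mul_assoc, mul_fromCols, ← fromRows_mul]
    congr 1
    simp only [Hm.mul_zero, add_zero, zero_add, Hm.one_mul, mv_cols,
      mv_zero, mv_one, mul_fromCols, Hm.mul_one]
    rw [← Hm.mul_assoc, ← mv_mul, ← mi_mul, u2, mi_one, mv_one, Hm.one_mul,
      fromRows_fromCols_eq_fromBlocks, ← fromCols_fromRows_eq_fromBlocks (0 : 𝒮.Hom b I'),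
      fromRows_zero, fromRows_fromCols_eq_fromBlocks]
  have e6 : C.rA (g * C.mv (fromRows (P * C.mi W₁) (fromRows (C.mi W₂) (0 : ℬ.Hom J₁ b)))) =
      0 := by
    rw [hg, mv_rows, mv_rows, fromCols_mul_fromRows, fromCols_mul_fromRows, mv_zero,
      Hm.mul_zero, add_zero, Hm.add_mul, add_left_comm, mv_mul, Hm.mul_assoc y,
      ← Hm.mul_add, rA_add, r1, fromRows_mul, Hm.zero_mul, Hm.one_mul, rA_rows, rA_zero,
      rA_mi]
    simp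
  have e7 : C.rA (g * (C.mv (fromRows (-(P' * w₂'))
      (fromRows (0 : ℬ.Hom J' b₁') (-w₁'))) * S'.ct)) = 0 := by
    have : g * (C.mv (fromRows (-(P' * w₂'))
        (fromRows (0 : ℬ.Hom J' b₁') (-w₁'))) * S'.ct) = fromRows (C.mv (C.mi W₁')) 0 -
          y * (C.mv P * C.mv (C.mi W₁') + C.mv P' * T'.ct * C.mv (C.mi W₂')) := by
      have c : T * (T.ct * C.mv (C.mi W₁')) = C.mv (C.mi W₁') := by
        rw [← Hm.mul_assoc, tt_ti hT, Hm.one_mul]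
      simp only [hg, mv_rows, fromRows_mul, fromCols_mul_fromRows, mv_zero, mv_neg, mv_mul,
        Hm.zero_mul, Hm.mul_zero, zero_add, Hm.neg_mul, Hm.mul_neg,
        Hm.mul_assoc, c₁', c₂', c, Hm.sub_mul, Hm.one_mul, Hm.mul_add]
      abel
    rw [this, rA_sub, r2, rA_rows, rA_mi, rA_zero, sub_self]
  have e8 := congrArg (U * ·) e6
  have e9 := congrArg (U * ·) e7
  simp only [← rA_l, ← Hm.mul_assoc (C.mv (C.mi U)), e5, fromRows_mul, rA_rows,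
    Hm.mul_zero] at e8 e9
  rw [← fromRows_zero, fromRows_ext_iff] at e8 e9
  exact std G hS hS' v1 v2 e8.1 e9.1 e8.2 e9.2

end RCut

end Pool.Agent.Work.MP_9d1ffa_al.Ct
end

-- merged part: Pool.Agent.Work.MP_9d1ffa_al.Ct.KAll
section
/-! All isomorphisms split along one edge. -/

namespace Pool.Agent.Work.MP_9d1ffa_al.Ct

set_option linter.unusedSectionVars false
set_option linter.unusedVariables false

variable {O : Type 1} [Add O] [Zero O] {𝒮 ℬ 𝒜 : SCat O} {I I' J J₁ J' J₁' K L : O}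

/-- frames of an idempotent and of its complement -/
theorem exists_frames {E : 𝒜.Hom J J} (hE : E * E = E) (h : SFIdem E) (h' : SFIdem (1 - E)) :
    ∃ (c c' b b' : O) (W : 𝒜.Hom J b) (W' : 𝒜.Hom J b') (V : 𝒜.Hom c b) (V' : 𝒜.Hom c' b'),
      Iv (fromRows (fromCols W W') (fromBlocks V 0 0 V')) ∧ E * W = W ∧ E * W' = 0 := by
  obtain ⟨c, b, U, W, h1, h2⟩ := h
  obtain ⟨c', b', U', W', h1', h2'⟩ := h'
  rw [← fromCols_toCols U, ← fromRows_toRows W] at h1 h2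
  rw [← fromCols_toCols U', ← fromRows_toRows W'] at h1' h2'
  rw [fromCols_mul_fromRows] at h1 h1'
  rw [fromRows_mul_fromCols, fromBlocks_inj] at h2 h2'
  obtain ⟨w1, w2, w3, w4⟩ := h2
  obtain ⟨w1', w2', w3', w4'⟩ := h2'
  have a1 : E * W.toRows₁ = W.toRows₁ := by
    rw [← w1, Hm.mul_assoc, eq_sub_of_add_eq h1, Hm.mul_sub, Hm.mul_one,
      ← Hm.mul_assoc, w2, Hm.zero_mul, sub_zero]
  have a2 : (1 - E) * W'.toRows₁ = W'.toRows₁ := by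
    rw [← w1', Hm.mul_assoc, eq_sub_of_add_eq h1', Hm.mul_sub, Hm.mul_one,
      ← Hm.mul_assoc, w2', Hm.zero_mul, sub_zero]
  have a3 : U.toCols₁ * E = U.toCols₁ := by
    rw [← w1, ← Hm.mul_assoc, eq_sub_of_add_eq h1, Hm.sub_mul, Hm.one_mul,
      Hm.mul_assoc, w3, Hm.mul_zero, sub_zero]
  have a4 : U'.toCols₁ * (1 - E) = U'.toCols₁ := by
    rw [← w1', ← Hm.mul_assoc, eq_sub_of_add_eq h1', Hm.sub_mul, Hm.one_mul,
      Hm.mul_assoc, w3', Hm.mul_zero, sub_zero]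
  have a5 : E * W'.toRows₁ = 0 := by
    rw [← a2, ← Hm.mul_assoc, Hm.mul_sub, Hm.mul_one, hE, sub_self, Hm.zero_mul]
  have a6 : U.toCols₁ * W'.toRows₁ = 0 := by rw [← a3, Hm.mul_assoc, a5, Hm.mul_zero]
  have a7 : U'.toCols₁ * W.toRows₁ = 0 := by
    rw [← a4, Hm.mul_assoc, Hm.sub_mul, Hm.one_mul, a1, sub_self, Hm.mul_zero]
  refine ⟨c, c', b, b', W.toRows₁, W'.toRows₁, W.toRows₂, W'.toRows₂,
    ⟨fromCols (fromRows U.toCols₁ U'.toCols₁) (fromBlocks U.toCols₂ 0 0 U'.toCols₂), ?_, ?_⟩, a1,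
    a5⟩
  · rw [fromRows_mul_fromCols, fromCols_mul_fromRows, fromCols_mul_fromBlocks,
      fromBlocks_mul_fromRows, fromBlocks_multiply]
    simp [w1, w2, w3, w4, w1', w2', w3', w4']
  · rw [fromCols_mul_fromRows, fromRows_mul_fromCols, fromBlocks_multiply, fromBlocks_add]
    simp [h1, h1', a6, a7]

namespace RCut

variable {C : RCut 𝒮 ℬ 𝒜} {D : KT 𝒮} {a : ℬ.Hom I I'} {P : ℬ.Hom I J} {T : 𝒮.Hom J J₁}
  {Q : ℬ.Hom J₁ I'} {P' : ℬ.Hom I J₁'} {T' : 𝒮.Hom J' J₁'} {Q' : ℬ.Hom J' I'} {β : 𝒮.Hom I' I}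

theorem idem (hT : C.IsT T) (hT' : C.IsT T') (h1 : C.lin a P T Q P' T' Q' * β = 1)
    (h2 : β * C.lin a P T Q P' T' Q' = 1) {E : 𝒜.Hom (J + J') (J + J')}
    (hE : E = fromBlocks 1 0 0 0 - C.rA (fromRows (T * C.mv Q * β) (-(C.mv Q' * β)) *
      fromCols (C.mv P) (C.mv P' * T'.ct))) : E * E = E := by
  set y := fromRows (T * C.mv Q * β) (-(C.mv Q' * β)) with hy
  have hy1 : y * C.lin a P T Q P' T' Q' = fromRows (T * C.mv Q) (-C.mv Q') := by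
    rw [hy, fromRows_mul, Hm.neg_mul, Hm.mul_assoc _ β, Hm.mul_assoc _ β, h2,
      Hm.mul_one, Hm.mul_one]
  rw [mul_fromCols, rA_cols] at hE
  have k := key (a := a) (P := P) (Q := Q) (P' := P') (Q' := Q') hT hT' y
  have e1 : C.fP (fromRows (T * C.mv Q) (-C.mv Q')) = fromRows (T * C.mv Q) 0 := by
    rw [← mv_neg, fP_rows, fP_v, fP_tv hT]
  have e2 : C.mv (C.mi E) = fromBlocks 1 0 0 0 - fromCols (C.mv (C.mi (C.rA (y * C.mv P))))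
      (C.mv (C.mi (C.rA (y * (C.mv P' * T'.ct))))) := by
    simp only [hE, mi_sub, mv_sub, mi_blocks, mv_blocks, mi_cols, mv_cols, mi_zero, mv_zero, mi_one,
      mv_one]
  have e3 : C.fP y = C.mv (C.mi E) * y := by
    rw [← Hm.mul_one (C.fP y), ← Hm.mul_one (_ * y), ← h1, ← Hm.mul_assoc,
      ← Hm.mul_assoc, Hm.mul_assoc _ y, k, hy1, e1, e2, Hm.sub_mul,
      fromBlocks_mul_fromRows, fromCols_mul_fromRows]
    simp only [Hm.one_mul, Hm.zero_mul, Hm.mul_neg, neg_zero, add_zero]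
    congr 1
    abel
  have e4 : E * C.rA (y * C.mv P) = 0 := by
    rw [← rA_l, ← Hm.mul_assoc, ← e3, ← fP_mv, rA_fP]
  have e5 : E * C.rA (y * (C.mv P' * T'.ct)) = C.rA (y * (C.mv P' * T'.ct)) := by
    rw [← rA_l, ← Hm.mul_assoc, ← e3, ← Hm.mul_assoc, ← fP_mv, rA_pos_ti hT', Hm.mul_assoc]
  calc E * E = E * fromBlocks 1 0 0 0 - fromCols 0 (C.rA (y * (C.mv P' * T'.ct))) := by
        rw [← e5, ← e4, ← mul_fromCols, ← Hm.mul_sub, ← hE]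
    _ = E := by
        rw [hE, Hm.sub_mul, fromBlocks_multiply, fromCols_mul_fromBlocks]
        refine ext_cols ?_ ?_ <;> simp

theorem lin_all (G : C.Gens D) (hA : SFI 𝒜) (hT : C.IsT T) (hT' : C.IsT T')
    (h : Iv (C.lin a P T Q P' T' Q')) : D.D (C.lin a P T Q P' T' Q') := by
  obtain ⟨β, h1, h2⟩ := h
  have hE := idem hT hT' h1 h2 rfl
  set ρ := C.rA (fromRows (T * C.mv Q * β) (-(C.mv Q' * β)) *
    fromCols (C.mv P) (C.mv P' * T'.ct)) with hρ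
  obtain ⟨c, c', b, b', W, W', V, V', hI, a1, a2⟩ :=
    exists_frames hE (hA _ _ hE) (hA _ _ (by
      rw [Hm.mul_sub, Hm.sub_mul, Hm.sub_mul 1, hE]
      simp))
  obtain ⟨W₁, W₂, rfl⟩ := exists_rows W
  obtain ⟨W₁', W₂', rfl⟩ := exists_rows W'
  obtain ⟨c₁, S, hS⟩ := C.t_ex c
  obtain ⟨c₁', S', hS'⟩ := C.t_ex c'
  have e : C.lin a (fromCols P (0 : ℬ.Hom I c)) (fromBlocks T 0 0 S) (fromRows Q 0)
      (fromCols P' (0 : ℬ.Hom I c₁')) (fromBlocks T' 0 0 S') (fromRows Q' 0) =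
      C.lin a P T Q P' T' Q' := by
    simp only [lin, mv_cols, mv_rows, mv_zero, fromBlocks_conjTranspose, fromBlocks_mul_fromRows,
      fromCols_mul_fromBlocks, fromCols_mul_fromRows, Hm.mul_zero, Hm.zero_mul, add_zero]
  have k : ∀ {X : O} (w₁ : 𝒜.Hom J X) (w₂ : 𝒜.Hom J' X) (v : 𝒜.Hom c X)
      (v' : 𝒜.Hom c' X), C.rA (fromRows
        (fromBlocks T 0 0 S * C.mv (fromRows Q (0 : ℬ.Hom c₁ I')) * β)
        (-(C.mv (fromRows Q' (0 : ℬ.Hom c' I')) * β)) *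
        (C.mv (fromCols P (0 : ℬ.Hom I c)) * C.mv (C.mi (fromRows w₁ v)) +
          C.mv (fromCols P' (0 : ℬ.Hom I c₁')) * (fromBlocks T' 0 0 S').ct *
            C.mv (C.mi (fromRows w₂ v')))) =
      fromRows (fromRows (ρ * fromRows w₁ w₂).toRows₁ 0)
        (fromRows (ρ * fromRows w₁ w₂).toRows₂ 0) := fun w₁ w₂ v v' => by
    rw [hρ, ← rA_r, Hm.mul_assoc]
    simp only [mi_rows, mv_cols, mv_rows, mv_zero, fromBlocks_conjTranspose, conjTranspose_zero,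
      fromBlocks_mul_fromRows,
      fromCols_mul_fromBlocks, fromCols_mul_fromRows, Hm.mul_zero, Hm.zero_mul, add_zero,
      fromRows_mul, rA_rows, toRows₁_fromRows, toRows₂_fromRows, rA_zero, Hm.neg_mul,
      fromRows_neg, neg_zero, Hm.mul_assoc]
  rw [← e] at h1 h2 ⊢
  refine normal G (C.t_sum hT hS) (C.t_sum hT' hS') h1 h2 (W₁ := fromRows W₁ V)
    (W₂ := fromRows W₂ 0) (W₁' := fromRows W₁' 0) (W₂' := fromRows W₂' V') ?_ ?_ ?_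
  · convert (ktIv 𝒜).mul (unt_four (I := J) (J := J') (K := c) (L := c')).iv hI using 1
    rw [fromCols_fromRows_eq_fromBlocks, sFour, fromBlocks_mul_fromRows]
    refine iff_of_eq (congrArg Iv ?_)
    refine ext_rows (ext_rows ?_ ?_) (ext_rows ?_ ?_) <;> simp [fromBlocks_multiply]
  · rw [Hm.sub_mul, sub_eq_iff_eq_add, ← sub_eq_iff_eq_add', fromBlocks_mul_fromRows] at a1
    rw [k, ← a1]
    simp [fromRows_neg]
  · rw [Hm.sub_mul, sub_eq_zero, fromBlocks_mul_fromRows] at a2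
    rw [k, ← a2]
    simp

variable (C) in
/-- the morphisms that are linear in the stable letter and its inverse -/
def Lin (σ : 𝒮.Hom I I') : Prop :=
  ∃ (J J₁ J' J₁' : O) (a : ℬ.Hom I I') (P : ℬ.Hom I J) (T : 𝒮.Hom J J₁) (Q : ℬ.Hom J₁ I')
    (P' : ℬ.Hom I J₁') (T' : 𝒮.Hom J' J₁') (Q' : ℬ.Hom J' I'), C.IsT T ∧ C.IsT T' ∧
      C.lin a P T Q P' T' Q' = σ

theorem lin_v (a : ℬ.Hom I I') : C.Lin (C.mv a) := by
  obtain ⟨_, T, h⟩ := C.t_ex I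
  exact ⟨_, _, _, _, a, 0, T, 0, 0, T, 0, h, h, by simp [lin, mv_zero]⟩

theorem lin_zero : C.Lin (0 : 𝒮.Hom I I') := C.mv_zero (I := I) (J := I') ▸ lin_v 0

theorem lin_neg_one : C.Lin (-1 : 𝒮.Hom I I) := by
  simpa only [mv_neg, mv_one] using lin_v (C := C) (-1 : ℬ.Hom I I)

theorem lin_t (h : C.IsT T) : C.Lin T ∧ C.Lin T.ct :=
  ⟨⟨_, _, _, _, 0, 1, T, 1, 0, T, 0, h, h, by simp [lin, mv_zero, mv_one]⟩,
    ⟨_, _, _, _, 0, 0, T, 0, 1, T, 1, h, h, by simp [lin, mv_zero, mv_one]⟩⟩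

theorem Lin.add {x y : 𝒮.Hom I I'} (h : C.Lin x) (h' : C.Lin y) : C.Lin (x + y) := by
  obtain ⟨_, _, _, _, a, P, T, Q, P', T', Q', h1, h2, rfl⟩ := h
  obtain ⟨_, _, _, _, b, R, S, U, R', S', U', k1, k2, rfl⟩ := h'
  refine ⟨_, _, _, _, a + b, fromCols P R, _, fromRows Q U, fromCols P' R', _, fromRows Q' U',
    C.t_sum h1 k1, C.t_sum h2 k2, ?_⟩
  simp only [lin, mv_cols, mv_rows, mv_add, fromBlocks_conjTranspose, conjTranspose_zero,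
    fromBlocks_mul_fromRows, fromCols_mul_fromBlocks, fromCols_mul_fromRows, Hm.mul_zero,
    Hm.zero_mul, add_zero, zero_add]
  abel

theorem Lin.left {x : 𝒮.Hom I I'} (h : C.Lin x) (b : ℬ.Hom K I) : C.Lin (C.mv b * x) := by
  obtain ⟨_, _, _, _, a, P, T, Q, P', T', Q', h1, h2, rfl⟩ := h
  exact ⟨_, _, _, _, b * a, b * P, T, Q, b * P', T', Q', h1, h2, by
    simp only [lin, mv_mul, Hm.mul_add, Hm.mul_assoc]⟩

theorem Lin.right {x : 𝒮.Hom I I'} (h : C.Lin x) (b : ℬ.Hom I' K) : C.Lin (x * C.mv b) := by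
  obtain ⟨_, _, _, _, a, P, T, Q, P', T', Q', h1, h2, rfl⟩ := h
  exact ⟨_, _, _, _, a * b, P, T, Q * b, P', T', Q' * b, h1, h2, by
    simp only [lin, mv_mul, Hm.add_mul, Hm.mul_assoc]⟩

theorem Lin.cols {x : 𝒮.Hom I J} {y : 𝒮.Hom I K} (h : C.Lin x) (h' : C.Lin y) :
    C.Lin (fromCols x y) := by
  rw [fromCols, ← C.v.m_inl, ← C.v.m_inr]
  exact (h.right _).add (h'.right _)

theorem Lin.rows {x : 𝒮.Hom I K} {y : 𝒮.Hom J K} (h : C.Lin x) (h' : C.Lin y) :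
    C.Lin (fromRows x y) := by
  rw [fromRows, ← C.v.m_inl, ← C.v.m_inr, ← C.v.m_ct, ← C.v.m_ct]
  exact (h.left _).add (h'.left _)

variable (C D) in
/-- the morphism is a Schur complement of a linear morphism -/
def LK (φ : 𝒮.Hom I J) : Prop :=
  ∃ (K L : O) (a : 𝒮.Hom I J) (X : 𝒮.Hom I L) (Y : 𝒮.Hom K J) (κ : 𝒮.Hom K L) (w : 𝒮.Hom L J),
    C.Lin a ∧ C.Lin X ∧ C.Lin Y ∧ C.Lin κ ∧ D.D κ ∧ a + X * w = φ ∧ Y + κ * w = 0

theorem Lin.lk {φ : 𝒮.Hom I J} (h : C.Lin φ) : C.LK D φ :=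
  ⟨I, I, φ, 0, 0, -1, 0, h, lin_zero, lin_zero, lin_neg_one, D.neg I, by simp, by simp⟩

theorem LK.add {φ φ' : 𝒮.Hom I J} (h1 : C.LK D φ) (h2 : C.LK D φ') : C.LK D (φ + φ') := by
  obtain ⟨K, L, a, X, Y, κ, w, p1, p2, p3, p4, p5, p6, p7⟩ := h1
  obtain ⟨K', L', a', X', Y', κ', w', q1, q2, q3, q4, q5, q6, q7⟩ := h2
  refine ⟨K + K', L + L', a + a', fromCols X X', fromRows Y Y', fromBlocks κ 0 0 κ', fromRows w w',
    p1.add q1, p2.cols q2, p3.rows q3, (p4.cols lin_zero).rows (lin_zero.cols q4), D.sum p5 q5,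
    ?_, ?_⟩
  · rw [fromCols_mul_fromRows, add_add_add_comm, p6, q6]
  · rw [fromBlocks_mul_fromRows, Hm.zero_mul, Hm.zero_mul, add_zero, zero_add, fromRows_add, p7, q7,
      fromRows_zero]

theorem LK.mul {φ : 𝒮.Hom I J} {φ' : 𝒮.Hom J K} (h1 : C.LK D φ) (h2 : C.LK D φ') :
    C.LK D (φ * φ') := by
  obtain ⟨N, L, a, X, Y, κ, w, p1, p2, p3, p4, p5, p6, p7⟩ := h1
  obtain ⟨N', L', a', X', Y', κ', w', q1, q2, q3, q4, q5, q6, q7⟩ := h2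
  refine ⟨(N + J) + N', (L + J) + L', 0, fromCols (fromCols X a) 0, fromRows (fromRows 0 a') Y',
    fromBlocks (fromBlocks κ Y 0 (-1)) (fromRows 0 X') 0 κ', fromRows (fromRows (w * φ') φ') w',
    lin_zero, (p2.cols p1).cols lin_zero, (lin_zero.rows q1).rows q3,
    (Lin.cols ((p4.cols p3).rows (lin_zero.cols lin_neg_one)) (lin_zero.rows q2)).rows
      (lin_zero.cols q4), (D.tri _ q5).2 ((D.tri _ (D.neg _)).2 p5), ?_, ?_⟩
  · rw [fromCols_mul_fromRows, fromCols_mul_fromRows, ← p6, Hm.add_mul, Hm.mul_assoc,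
      Hm.zero_mul, zero_add, add_zero, add_comm]
  · have e1 : κ * (w * φ') + Y * φ' = 0 := by
      rw [← Hm.mul_assoc, ← Hm.add_mul, add_comm, p7, Hm.zero_mul]
    have e2 : a' + (-φ' + X' * w') = 0 := by rw [← q6]; abel
    rw [fromBlocks_mul_fromRows, fromBlocks_mul_fromRows, fromRows_mul, e1]
    simp only [Hm.zero_mul, zero_add, Hm.neg_mul, Hm.one_mul, fromRows_add, e2, q7, fromRows_zero]

/-- a class that contains the generators contains all isomorphisms -/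
theorem Gens.all (G : C.Gens D) (hA : SFI 𝒜) {φ : 𝒮.Hom I J} (hφ : Iv φ) : D.D φ := by
  obtain ⟨K, L, a, X, Y, κ, w, p1, p2, p3, p4, p5, p6, p7⟩ := C.gen (C.LK D)
    (fun y => (lin_v y).lk) (fun h => ⟨(lin_t h).1.lk, (lin_t h).2.lk⟩) LK.add LK.mul φ
  have h := ((ktIv 𝒮).schur (D.inv p5) p6 p7).2 hφ
  refine (D.schur p5 p6 p7).1 ?_
  obtain ⟨_, _, _, _, b, P, T, Q, P', T', Q', h1, h2, e⟩ : C.Lin (fromBlocks a X Y κ) :=
    (p1.cols p2).rows (p3.cols p4)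
  rw [← e] at h ⊢
  exact lin_all G hA h1 h2 h

end RCut

end Pool.Agent.Work.MP_9d1ffa_al.Ct
end

-- merged part: Pool.Agent.Work.MP_9d1ffa_al.Ct.KOc
section
/-! The obstruction category of an HNN extension splits along the base edge. -/

namespace Pool.Agent.Work.MP_9d1ffa_al.Ct

set_option linter.unusedSectionVars false
set_option linter.unusedVariables false

variable {X G H Γ V A : Type} [Group G] [Group H] [Group Γ] [Group V] [Group A] {I J : Ob X}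

/-- the functor given by a homomorphism of groups -/
noncomputable def mpIF {ρ : G →* Equiv.Perm X} {ρ' : H →* Equiv.Perm X} (f : AH ρ ρ') :
    IF (OC ρ) (OC ρ') where
  m := AddMonoidHom.mk' (mp f) (mp_add f)
  m_mul := mp_mul f
  m_one _ := mp_one f
  m_ct := mp_ct f
  m_inl a b := mp_pm1 (I := a) (J := a + b) (e := Sum.inl) (h2 := fun _ => rfl)
    (h4 := fun _ => rfl) f
  m_inr a b := mp_pm1 (I := b) (J := a + b) (e := Sum.inr) (h2 := fun _ => rfl)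
    (h4 := fun _ => rfl) f

variable {ρ : Γ →* Equiv.Perm X} {ρV : V →* Equiv.Perm X} {ρA : A →* Equiv.Perm X}

theorem KOc_gen (S : Set Γ) (hS : Subgroup.closure S = ⊤)
    (P : ∀ {a b : Ob X}, (OC ρ).Hom a b → Prop)
    (h1 : ∀ {a b : Ob X} (x : (OC ρ).Hom a b), Sup (· = 1) x → P x)
    (h2 : ∀ g ∈ S, ∀ {a b : Ob X} (T : TU ρ g a b), P T.T ∧ P T.T.ct)
    (h3 : ∀ {a b : Ob X} {x y : (OC ρ).Hom a b}, P x → P y → P (x + y))
    (h4 : ∀ {a b c : Ob X} {x : (OC ρ).Hom a b} {y : (OC ρ).Hom b c}, P x → P y → P (x * y))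
    (x : (OC ρ).Hom I J) : P x := by
  have k : ∀ (g h : Γ) {a b c : Ob X} (T : TU ρ g a b) (x : (OC ρ).Hom a c), Sup (· = g * h) x →
      P T.T → (Sup (· = h) (T.T.ct * x) → P (T.T.ct * x)) → P x := fun g h _ _ _ T x hx p q => by
    have := h4 p (q (T.sup_ct.mul hx fun _ _ e e' => by rw [e, e', inv_mul_cancel_left]))
    rwa [← Hm.mul_assoc, T.u1, Hm.one_mul] at this
  have key : ∀ g : Γ, ∀ {a b : Ob X} (x : (OC ρ).Hom a b), Sup (· = g) x → P x := fun g => by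
    have hg : g ∈ Subgroup.closure S := hS ▸ Subgroup.mem_top g
    induction hg using Subgroup.closure_induction'' with
    | mem g hg =>
      exact fun {a _} x hx => k g 1 (TU.src ρ g a) x (by rwa [mul_one]) (h2 g hg _).1 (h1 _)
    | inv_mem g hg =>
      exact fun {a _} x hx => k g⁻¹ 1 (TU.tgt ρ g a).symm x (by rwa [mul_one]) (h2 g hg _).2 (h1 _)
    | one => exact h1
    | mul g h _ _ p q => exact fun {a _} x hx => k g h (TU.src ρ g a) x hx (p _ (TU.sup _)) (q _)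
  obtain ⟨s, hs⟩ := exists_sup_finset x
  rw [eq_sum_fm s hs]
  exact Finset.sum_induction _ P (fun _ _ => h3) (h1 _ sup_zero) fun g _ => key g _ (sup_fm _ _)

variable (C : Cut Γ V A) (hV : ∀ h, ρ (C.v h) = ρV h) (hA : ∀ a, ρV (C.i a) = ρA a)

/-- the vertex group -/
def aV : AH ρV ρ := ⟨C.v, hV⟩

/-- the edge group in the vertex group -/
def aI : AH ρA ρV := ⟨C.i, hA⟩

/-- the edge group -/
def aA : AH ρA ρ := (aV C hV).comp (aI C hA)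

theorem aV_inj : Function.Injective (aV C hV).f := C.vinj

theorem aA_inj : Function.Injective (aA C hV hA).f := C.vainj

theorem KOc_fm (x : (OC ρ).Hom I J) :
    fm (fun g => C.pos (g * C.t)) x = fm C.pos x + fm (fun g => ∃ a, C.va a = g) x :=
  hom_ext fun i j g => by
    classical
    rw [val_add, Matrix.add_apply, MonoidAlgebra.coeff_add, Finsupp.add_apply, coeff_fm, coeff_fm,
      coeff_fm, C.OCut_pos_t]
    by_cases h : C.pos g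
    · simp [h, C.OCut_excl h]
    · simp [h]

/-- the splitting of the obstruction category -/
noncomputable def rcut : RCut (OC ρ) (OC ρV) (OC ρA) where
  v := mpIF (aV C hV)
  i := mpIF (aI C hA)
  IsT T := Sup (· = C.t) T ∧ Unt T
  fp := AddMonoidHom.mk' (fm C.pos) (fm_add _)
  ra := AddMonoidHom.mk' (rs (aA C hV hA) (aA_inj C hV hA)) rs_add
  rv := AddMonoidHom.mk' (rs (aV C hV) (aV_inj C hV)) rs_add
  t_unt h := h.2
  t_sum h h' := ⟨sup_fromBlocks.2 ⟨h.1, sup_zero, sup_zero, h'.1⟩, h.2.sum h'.2⟩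
  t_ex a := ⟨_, (TU.src ρ C.t a).T, TU.sup _, TU.unt _⟩
  rel {a b c d T T'} h h' W := by
    refine ⟨rs (aV C hV) (aV_inj C hV) (T.ct * (mp (aA C hV hA) W * T')), ?_⟩
    change mp _ (mp _ W) * T' = T * mp _ _
    rw [Sup.mp_rs, ← Hm.mul_assoc, h.2.1, Hm.one_mul, mp_mp, aA]
    refine h.1.ct.mul ((sup_mp _ W).mul h'.1 (T := fun g => ∃ a, C.t * C.v (C.j a) = g) ?_) ?_
    · rintro _ _ ⟨a, rfl⟩ rfl
      exact ⟨a, (C.rel a).symm⟩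
    · rintro g _ e ⟨a, rfl⟩
      exact ⟨C.j a, by rw [← e, mul_inv_cancel_left]; rfl⟩
  ra_ct := rs_ct
  rv_ct := rs_ct
  fp_v x y := fm_mul_right x (sup_mp _ y) (by
    rintro a _ ⟨h, rfl⟩
    exact C.right a h)
  fp_t x T h := by
    change fm _ _ = fm _ _ * T + mp _ (mp _ (rs _ _ _)) * T
    rw [mp_mp, ← aA, mp_rs, ← Hm.add_mul]
    exact (fm_mul_right x h.1 fun a b e => by rw [e]).trans (congrArg (· * T) (KOc_fm C x))
  fp_one a := sup_one.fm_zero fun g e => e ▸ C.one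
  fp_rows := fm_fromRows _
  ra_l y x := by
    change rs _ _ (mp _ (mp _ y) * x) = _
    rw [mp_mp]
    exact rs_mp_mul _ _
  ra_one _ := rs_one
  ra_fp x := (sup_fm _ x).rs_zero fun a h => C.OCut_excl h ⟨a, rfl⟩
  rv_l y x := rs_mp_mul _ _
  rv_one _ := rs_one
  rv_fp x := (sup_fm _ x).rs_zero C.npos_v
  rv_neg {a b c T x} h hx := by
    have e : Sup (fun g => ¬ C.pos g) x := by
      rw [← fm_add_not C.pos x, show fm C.pos x = 0 from hx, zero_add]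
      exact sup_fm _ _
    exact (h.1.ct.mul e (T := fun g => ¬ C.pos (C.t * g)) fun a b e e' => by
      rwa [← e, inv_mul_cancel_left]).rs_zero fun h k => k (C.pos_tv h)
  ra_rv x := by
    change rs _ _ (mp _ (rs _ _ x)) = _
    rw [mp_rs]
    exact rs_fm _ fun a => ⟨C.i a, rfl⟩
  ra_conj {a b c d T T'} x h h' := by
    change rs _ _ (T * mp _ (rs _ _ x) * T'.ct) = rs _ _ _
    rw [mp_rs]
    conv_rhs => rw [← fm_add_not (fun g => ∃ h, (aV C hV).f h = g) x, Hm.mul_add, Hm.add_mul, rs_add]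
    refine (add_zero _).symm.trans (congrArg _ (Eq.symm ?_))
    refine ((h.1.mul (sup_fm _ x) (T := fun g => ¬ ∃ h, C.t * C.v h = g) ?_).mul h'.1.ct
      (T := fun g => ¬ ∃ h, C.t * C.v h = g * C.t) ?_).rs_zero fun a k => k ⟨C.j a, (C.rel a).symm⟩
    · rintro _ b rfl e ⟨h, k⟩
      exact e ⟨h, mul_left_cancel k⟩
    · intro a b e e'
      rwa [show a * b * C.t = a by rw [← e', mul_inv_cancel_right]]
  gen P h1 h2 h3 h4 _ _ x := by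
    have k : ∀ {a b : Ob X} (x : (OC ρ).Hom a b), Sup (fun g => ∃ h, C.v h = g) x → P x :=
      fun x hx => Sup.mp_rs (hf := aV_inj C hV) hx ▸ h1 _
    refine KOc_gen _ C.gen P (fun x hx => k x (hx.mono fun g e => ⟨1, by rw [e, map_one]⟩)) ?_ h3
      h4 x
    rintro _ (rfl | ⟨h, rfl⟩) a b T
    · exact h2 ⟨T.sup, T.unt⟩
    · exact ⟨k _ (T.sup.mono fun g e => ⟨h, e.symm⟩),
        k _ (T.sup_ct.mono fun g e => ⟨h⁻¹, by rw [e, map_inv]⟩)⟩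

include hA in
/-- a class that contains the isomorphisms of the vertex category, the translations and the
isomorphisms between finite objects contains all isomorphisms -/
theorem kt_all (𝒯 : TA ρ C.T) (D : KT (OC ρ)) (hS : SFI (OC ρA))
    (hv : ∀ {I J : Ob X} (a : (OC ρV).Hom I J), Iv a → D.D (mp (aV C hV) a))
    (ht : ∀ {I J : Ob X} (T : (OC ρ).Hom I J), Sup (· = C.t) T → Unt T → D.D T)
    (hf : ∀ I : Ob X, Finite I.I → ∀ u : (OC ρ).Hom I I, IsUnit u → D.D u)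
    {φ : (OC ρ).Hom I J} (hφ : Iv φ) : D.D φ := by
  refine RCut.Gens.all (C := rcut C hV hA) ⟨hv, fun h => ht _ h.1 h.2, ?_⟩ hS hφ
  intro J J₁ J' J₁' T T' n₁₁ n₁₂ n₂₁ n₂₂ h h' r1 r2 ⟨u, u1, u2⟩
  have z : ∀ {I J : Ob X} {S : Γ → Prop} {x : (OC ρ).Hom I J}, Sup S x →
      rs (aA C hV hA) (aA_inj C hV hA) x = 0 → Sup (fun g => S g ∧ ¬ ∃ a, C.va a = g) x :=
    fun {_ _ S x} hx e => by
      have := sup_sub_fm (S := fun g => ∃ a, (aA C hV hA).f a = g) hx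
      rwa [← mp_rs (hf := aA_inj C hV hA), e, mp_zero, sub_zero] at this
  have s1 : ∀ {L : Ob X} (n : (OC ρV).Hom J₁ L),
      Sup (fun g => ∃ h, C.t * C.v h = g) (T * mp (aV C hV) n) := fun n =>
    h.1.mul (sup_mp _ n) (by rintro _ _ rfl ⟨k, rfl⟩; exact ⟨k, rfl⟩)
  have s2 : Sup (· = C.t⁻¹) T'.ct := h'.1.ct.mono fun g e => by rw [← e, inv_inv]
  refine 𝒯.kt_fil D (fun w hw hw' => ?_) hf (a := Sum.elim (fun _ => C.o) fun _ => C.t • C.o)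
    (b := Sum.elim (fun _ => C.t • C.o) fun _ => C.o) ?_ ?_ ?_ _ ?_ ⟨⟨_, u, u1, u2⟩, rfl⟩
  · have e := Sup.mp_rs (hf := aV_inj C hV) (hw.mono fun g e => ⟨1, by rw [e, map_one]⟩)
    have e' := Sup.mp_rs (hf := aV_inj C hV)
      ((BFil_sup_ct hw).mono fun g e => ⟨1, by rw [e, map_one]⟩)
    rw [← e]
    exact hv _ ⟨rs (aV C hV) (aV_inj C hV) w.ct, mp_inj (aV_inj C hV) (by rw [mp_mul, e, e', hw'.1, mp_one]),
      mp_inj (aV_inj C hV) (by rw [mp_mul, e, e', hw'.2, mp_one])⟩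
  · exact (Set.toFinite {C.o, C.t • C.o}).subset (by rintro _ ⟨i | i, rfl⟩ <;> simp)
  · exact (Set.toFinite {C.o, C.t • C.o}).subset (by rintro _ ⟨i | i, rfl⟩ <;> simp)
  · rintro (i | i)
    exacts [OSn_adj C, (OSn_adj C).symm]
  · rw [val_fromBlocks]
    rintro (k | k) (l | l) g e
    · exact OSn_a C (s1 _ k l g e)
    · obtain ⟨⟨y, rfl⟩, k2⟩ := z ((s1 n₁₂).mul s2 (T := fun g => ∃ h, C.t * C.v h * C.t⁻¹ = g)
        (by rintro _ _ ⟨k, rfl⟩ rfl; exact ⟨k, rfl⟩)) r1 k l g e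
      refine OSn_b C ⟨y, fun ⟨a, ha⟩ => k2 ⟨a, ?_⟩, rfl⟩
      rw [← ha, ← C.va_t, mul_inv_cancel_right]
    · obtain ⟨⟨y, rfl⟩, k2⟩ := z (sup_mp _ n₂₁) r2 k l g e
      exact OSn_c C ⟨y, fun ⟨a, ha⟩ => k2 ⟨a, congrArg C.v ha⟩, rfl⟩
    · exact OSn_d C ((sup_mp _ n₂₂).mul s2 (T := fun g => ∃ h, C.v h * C.t⁻¹ = g)
        (by rintro _ _ ⟨k, rfl⟩ rfl; exact ⟨k, rfl⟩) k l g e)

end Pool.Agent.Work.MP_9d1ffa_al.Ct
end

-- merged part: Pool.Agent.Work.MP_9d1ffa_al.Ct.KTr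
section
/-! Isomorphisms of a Laurent extension with trivial boundary class. -/

namespace Pool.Agent.Work.MP_9d1ffa_al.Ct

set_option linter.unusedSectionVars false
set_option linter.unusedVariables false

namespace Lau

variable {O : Type 1} [Add O] [Zero O] {𝒞 𝒟 𝒞' 𝒟' : SCat O} {Λ : Lau 𝒞 𝒟} {Λ' : Lau 𝒞' 𝒟'}
  {I J K L : O}

/-- the boundary class of the isomorphism is trivial -/
def Tr (Λ : Lau 𝒞 𝒟) (u : 𝒟.Hom I J) : Prop :=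
  ∃ (u' : 𝒟.Hom J I) (N : ℕ), Λ.Fr (Λ.zz I N * u) (u' * Λ.zz I (-N))

variable {u : 𝒟.Hom I J} {u' : 𝒟.Hom J I}

theorem KT_can (a : ℤ) (x : 𝒟.Hom I L) : Λ.zz I (-a) * (Λ.zz I a * x) = x := by
  rw [← Hm.mul_assoc, zz_mul, neg_add_cancel, zz_zero, Hm.one_mul]

theorem KT_can' (a : ℤ) (x : 𝒟.Hom I L) : Λ.zz I a * (Λ.zz I (-a) * x) = x := by
  rw [← Hm.mul_assoc, zz_mul, add_neg_cancel, zz_zero, Hm.one_mul]

theorem KT_inv (a : ℤ) : (Λ.zz I a * u * (u' * Λ.zz I (-a)) = 1 ↔ u * u' = 1) ∧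
    (u' * Λ.zz I (-a) * (Λ.zz I a * u) = 1 ↔ u' * u = 1) := by
  rw [Hm.mul_assoc u', KT_can, Hm.mul_assoc, ← Hm.mul_assoc u, ← zz_comm, KT_can']
  exact ⟨Iff.rfl, Iff.rfl⟩

theorem Fr.tr (h : Λ.Fr u u') : Λ.Tr u :=
  ⟨u', 0, by rwa [Nat.cast_zero, neg_zero, zz_zero, Hm.one_mul, Hm.mul_one]⟩

theorem Tr.fr (h : Λ.Tr u) (h1 : u * u' = 1) (h0 : Λ.Dg (0 ≤ ·) u) : Λ.Fr u u' := by
  obtain ⟨w, N, h⟩ := h
  have a1 := (KT_inv _).1.1 h.1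
  have a2 := (KT_inv _).2.1 h.2.1
  obtain rfl : w = u' := by rw [← Hm.mul_one w, ← h1, ← Hm.mul_assoc, a2, Hm.one_mul]
  exact h.cancel (fr_zz N) a1 a2 h0

theorem exists_pos (u : 𝒟.Hom I J) : ∃ N : ℕ, Λ.Dg (0 ≤ ·) (Λ.zz I N * u) := by
  obtain ⟨N, h⟩ := exists_bdd (Λ := Λ) u
  exact ⟨N, (dg_zz _).mul h fun a b ha hb => by have := abs_le.1 hb; omega⟩

theorem Tr.mul {w : 𝒟.Hom J K} (h : Λ.Tr u) (h' : Λ.Tr w) : Λ.Tr (u * w) := by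
  obtain ⟨u', N, h⟩ := h
  obtain ⟨w', M, h'⟩ := h'
  refine ⟨w' * u', N + M, ?_⟩
  convert h'.comp h using 1
  · rw [Hm.mul_assoc, ← Hm.mul_assoc u (Λ.zz J M), ← zz_comm, Hm.mul_assoc,
      ← Hm.mul_assoc (Λ.zz I N), zz_mul, Nat.cast_add]
  · rw [Hm.mul_assoc, Hm.mul_assoc, ← Hm.mul_assoc (Λ.zz J _), zz_comm,
      Hm.mul_assoc, zz_mul, Nat.cast_add, neg_add_rev]

theorem Tr.inv (h : Λ.Tr u) (h1 : u * u' = 1) : Λ.Tr u' := by
  obtain ⟨w, N, h⟩ := h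
  have a2 := (KT_inv _).2.1 h.2.1
  obtain rfl : w = u' := by rw [← Hm.mul_one w, ← h1, ← Hm.mul_assoc, a2, Hm.one_mul]
  obtain ⟨M, hM⟩ := exists_pos (Λ := Λ) w
  refine ⟨u, M, Fr.cancel ?_ h ((KT_inv _).1.2 a2) ((KT_inv _).2.2 h1) hM⟩
  convert fr_zz (Λ := Λ) (I := I) (N + M) using 1
  · rw [Hm.mul_assoc, ← Hm.mul_assoc u, ← zz_comm, Hm.mul_assoc, h1, Hm.mul_one,
      zz_mul, Nat.cast_add]
  · rw [← zz_comm, Hm.mul_assoc, ← Hm.mul_assoc u, h1, Hm.one_mul, zz_mul, Nat.cast_add,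
      neg_add_rev]

theorem tr_unit (h1 : u * u' = 1) (h2 : u' * u = 1) (h3 : Λ.Dg (0 ≤ ·) u)
    (h4 : Λ.Dg (0 ≤ ·) u') : Λ.Tr u :=
  (fr_unit h1 h2 h3 h4).tr

theorem tr_cst {a : 𝒞.Hom I J} {a' : 𝒞.Hom J I} (h1 : a * a' = 1) (h2 : a' * a = 1) :
    Λ.Tr (Λ.cst a) :=
  tr_unit (u' := Λ.cst a') (by rw [← cst_mul, h1, cst_one]) (by rw [← cst_mul, h2, cst_one])
    (dg_cst _) (dg_cst _)

theorem tr_diag (N : ℕ) :
    Λ.Tr (fromBlocks (Λ.zz I N) 0 0 (1 : 𝒟.Hom K K)) :=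
  (fr_zz N).stab.tr

theorem tr_diag' (N : ℕ) :
    Λ.Tr (fromBlocks (Λ.zz I (-N)) 0 0 (1 : 𝒟.Hom K K)) :=
  (tr_diag N).inv (by simp [fromBlocks_multiply, zz_mul, zz_zero])

theorem Tr.stab (K : O) : Λ.Tr (fromBlocks u 0 0 (1 : 𝒟.Hom K K)) ↔ Λ.Tr u := by
  refine ⟨fun h => ?_, fun ⟨u', N, h⟩ => ?_⟩
  · obtain ⟨N, hN⟩ := exists_pos (Λ := Λ) u
    have h1 := (tr_diag N).mul h
    obtain ⟨w, M, h⟩ := h
    have a1 := (KT_inv _).1.1 h.1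
    obtain ⟨a, b, c, d, rfl⟩ := exists_blocks w
    rw [fromBlocks_multiply, ← fromBlocks_one, fromBlocks_inj] at a1
    simp only [fromBlocks_multiply, Hm.mul_zero, Hm.zero_mul, add_zero, zero_add,
      Hm.mul_one] at h1 a1
    refine ⟨a, N, Fr.destab (h1.fr ?_ (dg_blocks.2 ⟨⟨hN, dg_zero⟩, dg_zero, dg_one⟩))⟩
    simp [fromBlocks_multiply, (KT_inv _).1.2 a1.1]
  · simpa [fromBlocks_multiply, KT_can] using (tr_diag' (K := K) N).mul h.stab.tr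

theorem tr_up (X : 𝒟.Hom I J) : Λ.Tr (fromBlocks (1 : 𝒟.Hom I I) X 0 (1 : 𝒟.Hom J J)) := by
  obtain ⟨N, hN⟩ := exists_pos (Λ := Λ) X
  have h : Λ.Tr (fromBlocks (1 : 𝒟.Hom I I) (Λ.zz I N * X) 0 (1 : 𝒟.Hom J J)) :=
    tr_unit (u' := fromBlocks 1 (-(Λ.zz I N * X)) 0 1) (by simp [fromBlocks_multiply])
      (by simp [fromBlocks_multiply]) (dg_blocks.2 ⟨⟨dg_one, hN⟩, dg_zero, dg_one⟩)
      (dg_blocks.2 ⟨⟨dg_one, hN.neg⟩, dg_zero, dg_one⟩)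
  simpa [fromBlocks_multiply, KT_can, zz_mul, zz_zero] using
    ((tr_diag' N).mul h).mul (tr_diag N)

/-- the isomorphisms with trivial boundary class -/
def kt (Λ : Lau 𝒞 𝒟) : KT 𝒟 :=
  KT.of Λ.Tr (fun ⟨u', _, h⟩ => ⟨u', (KT_inv _).1.1 h.1, (KT_inv _).2.1 h.2.1⟩) Tr.mul Tr.inv
    (fun K _ => Tr.stab K) tr_up
    (fun _ _ => tr_unit unt_comm.1 unt_comm.2 (dg_blocks.2 ⟨⟨dg_zero, dg_one⟩, dg_one, dg_zero⟩) (by
      rw [sComm, fromBlocks_conjTranspose, conjTranspose_zero, conjTranspose_zero,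
        conjTranspose_one, conjTranspose_one]
      exact dg_blocks.2 ⟨⟨dg_zero, dg_one⟩, dg_one, dg_zero⟩))
    fun _ => tr_unit (u' := -1) (by simp) (by simp) dg_one.neg dg_one.neg

theorem std_inv {E : 𝒞.Hom I I} (hE : E * E = E) {a b : ℤ} (h : a + b = 0) :
    (Λ.zz I a * Λ.cst E + Λ.cst (1 - E)) * (Λ.zz I b * Λ.cst E + Λ.cst (1 - E)) = 1 := by
  rw [Hm.add_mul, Hm.mul_add, Hm.mul_add, Hm.mul_assoc, ← Hm.mul_assoc (Λ.cst E),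
    ← zz_comm, Hm.mul_assoc, ← Hm.mul_assoc (Λ.zz I a), zz_mul, h, zz_zero, Hm.one_mul,
    Hm.mul_assoc, ← Hm.mul_assoc _ (Λ.zz I _), ← zz_comm, Hm.mul_assoc]
  simp only [← cst_mul, Hm.mul_sub, Hm.sub_mul, Hm.mul_one, Hm.one_mul, hE,
    sub_self, cst_zero, Hm.mul_zero, add_zero, zero_add, sub_zero]
  rw [← cst_add, add_sub_cancel, cst_one]

theorem Tr.sf {E : 𝒞.Hom I I} (hE : E * E = E)
    (h : Iv (Λ.zz I 1 * Λ.cst E + Λ.cst (1 - E)) → Λ.Tr (Λ.zz I 1 * Λ.cst E + Λ.cst (1 - E))) :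
    SFIdem E :=
  Fr.sf hE ((h ⟨_, std_inv hE (add_neg_cancel 1), std_inv hE (neg_add_cancel 1)⟩).fr
    (std_inv hE (add_neg_cancel 1))
    ((((dg_zz 1).mono fun _ h => by omega).pmul (dg_cst E)).add (dg_cst _)))

/-- a morphism of Laurent extensions -/
structure Hom (Λ' : Lau 𝒞' 𝒟') (Λ : Lau 𝒞 𝒟) where
  φ : IF 𝒞' 𝒞
  ψ : IF 𝒟' 𝒟
  he : ∀ {a b} (x : 𝒞'.Hom a b), ψ.m (Λ'.cst x) = Λ.cst (φ.m x)
  hf : ∀ P {a b} (x : 𝒟'.Hom a b), ψ.m (Λ'.fd P x) = Λ.fd P (ψ.m x)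
  hz : ∀ a n, ψ.m (Λ'.zz a n) = Λ.zz a n

theorem Hom.tr (H : Hom Λ' Λ) {w : 𝒟'.Hom I J} (hw : Iv w)
    (hS : ∀ n (E : 𝒞'.Hom (wo J n) (wo J n)), E * E = E → SFIdem (H.φ.m E)) :
    Λ.Tr (H.ψ.m w) := by
  obtain ⟨w', h1, h2⟩ := hw
  have hdg : ∀ {X Y : O} {P : ℤ → Prop} {x : 𝒟'.Hom X Y}, Λ'.Dg P x →
      Λ.Dg P (H.ψ.m x) := fun h => by rw [Dg, ← H.hf, h]
  have hc : ∀ {X Y : O} (x : 𝒟'.Hom X Y), H.φ.m (Λ'.c0 x) = Λ.c0 (H.ψ.m x) :=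
    fun x => cst_inj (Λ := Λ) (by rw [cst_c0, ← H.hf, ← cst_c0, H.he])
  obtain ⟨N, hN⟩ := exists_pos (Λ := Λ') w
  obtain ⟨n, hn⟩ := exists_bdd (Λ := Λ') (Λ'.zz I N * w)
  have hn' : Λ'.Dg (· ≤ n) (Λ'.zz I N * w) := hn.mono fun _ h => (abs_le.1 h).2
  have a1 := (KT_inv (Λ := Λ') N).1.2 h1
  have a2 := (KT_inv (Λ := Λ') N).2.2 h2
  refine ⟨H.ψ.m w', N, ?_⟩
  rw [← H.hz, ← H.hz, ← H.ψ.m_mul, ← H.ψ.m_mul]
  refine fr_win (by rw [← H.ψ.m_mul, a1, H.ψ.m_one]) (by rw [← H.ψ.m_mul, a2, H.ψ.m_one]) (hdg hN)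
    (hdg hn') ?_
  convert hS _ _ (win_idem a1 a2 hN hn') using 1
  have e1 : ∀ n, H.ψ.m (Λ'.wi J n) = Λ.wi J n := fun n => by
    induction n with
    | zero => exact map_zero _
    | succ n ih => exact (H.ψ.m_rows _ _).trans (congrArg₂ fromRows ih (H.hz _ _))
  have e2 : ∀ n, H.ψ.m (Λ'.wc J n) = Λ.wc J n := fun n => by
    induction n with
    | zero => exact map_zero _
    | succ n ih => exact (H.ψ.m_cols _ _).trans (congrArg₂ fromCols ih (H.hz _ _))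
  rw [win, win, hc, H.ψ.m_mul (Λ'.fd _ _ * _), H.ψ.m_mul (Λ'.fd _ _), H.hf,
    H.ψ.m_mul (Λ'.wi J n), e1, e2]

theorem tr_win {w : 𝒟.Hom I J} (hw : Iv w)
    (hS : ∀ n (E : 𝒞.Hom (wo J n) (wo J n)), E * E = E → SFIdem E) : Λ.Tr w :=
  Hom.tr (Λ' := Λ) ⟨IF.id 𝒞, IF.id 𝒟, fun _ => rfl, fun _ _ _ _ => rfl, fun _ _ => rfl⟩ hw hS

end Lau

end Pool.Agent.Work.MP_9d1ffa_al.Ct
end
end

-- merged part: Pool.Agent.Work.MP_9d1ffa_al.LL.Cp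
section
/-! Functors, full subcategories, swindles and Laurent extensions. -/

set_option linter.unusedSectionVars false
set_option linter.unusedVariables false

namespace Pool.Agent.Work.MP_9d1ffa_al.Ct

namespace Fn

variable {O O' : Type 1} [Add O] [Zero O] [Add O'] [Zero O'] {𝒞 : SCat O} {𝒟 : SCat O'}
  (F : Fn 𝒞 𝒟) {I J K L : O} {ε : ℤˣ}

/-- the functor as an additive map -/
def ahom (a b : O) : 𝒞.Hom a b →+ 𝒟.Hom (F.ob a) (F.ob b) := AddMonoidHom.mk' F.map F.map_add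

theorem mzero : F.map (0 : 𝒞.Hom I J) = 0 := (F.ahom I J).map_zero

theorem mneg (x : 𝒞.Hom I J) : F.map (-x) = -F.map x := (F.ahom I J).map_neg x

theorem msub (x y : 𝒞.Hom I J) : F.map (x - y) = F.map x - F.map y := (F.ahom I J).map_sub x y

theorem mzsmul (n : ℤ) (x : 𝒞.Hom I J) : F.map (n • x) = n • F.map x :=
  (F.ahom I J).map_zsmul n x

theorem msy (x : 𝒞.Hom I I) : F.map (sy ε x) = sy ε (F.map x) := by
  rw [sy, sy, F.map_add, F.mzsmul, F.map_ct]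

/-- the comparison of sums -/
def ww (a b : O) : 𝒟.Hom (F.ob a + F.ob b) (F.ob (a + b)) :=
  fromRows (F.map (𝒞.inl a b)) (F.map (𝒞.inr a b))

theorem ww_conj (x : 𝒞.Hom (I + J) (K + L)) : F.ww I J * F.map x * (F.ww K L).ct =
    fromBlocks (F.map x.toBlocks₁₁) (F.map x.toBlocks₁₂) (F.map x.toBlocks₂₁)
      (F.map x.toBlocks₂₂) := by
  rw [ww, ww, conjTranspose_fromRows_eq_fromCols_conjTranspose, fromRows_mul, fromRows_mul_fromCols]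
  simp only [← F.map_ct, ← F.map_mul]
  rfl

theorem ww_blocks (a : 𝒞.Hom I K) (b : 𝒞.Hom I L) (c : 𝒞.Hom J K) (d : 𝒞.Hom J L) :
    F.ww I J * F.map (fromBlocks a b c d) * (F.ww K L).ct =
      fromBlocks (F.map a) (F.map b) (F.map c) (F.map d) := by
  simp [ww_conj]

theorem unt_ww : Unt (F.ww I J) := by
  constructor
  · have := F.ww_blocks (1 : 𝒞.Hom I I) 0 0 (1 : 𝒞.Hom J J)
    rwa [fromBlocks_one, F.map_one, Hm.mul_one, F.map_one, F.map_one, F.mzero, F.mzero,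
      fromBlocks_one] at this
  · rw [ww, conjTranspose_fromRows_eq_fromCols_conjTranspose, fromCols_mul_fromRows, ← F.map_ct,
      ← F.map_ct, ← F.map_mul, ← F.map_mul, ← F.map_add, SC_tot, F.map_one]

theorem miso_sum (a : 𝒞.Hom I I) (b : 𝒞.Hom J J) :
    Iso ε (F.map (fromBlocks a 0 0 b)) (fromBlocks (F.map a) 0 0 (F.map b)) :=
  UZ_re F.unt_ww (by rw [ww_blocks, F.mzero, F.mzero])

theorem miso_hyp : Iso ε (F.map (hypF 𝒞 I)) (hypF 𝒟 (F.ob I)) :=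
  UZ_re F.unt_ww (by rw [hypF, ww_blocks, F.mzero, F.map_one, hypF])

theorem meqv {a b : 𝒞.Hom I I} (h : Eqv ε a b) : Eqv ε (F.map a) (F.map b) := by
  obtain ⟨χ, rfl⟩ := h
  exact ⟨F.map χ, by rw [F.msub, F.map_add, F.mzsmul, F.map_ct]⟩

theorem miso {a : 𝒞.Hom I I} {b : 𝒞.Hom J J} (h : Iso ε a b) : Iso ε (F.map a) (F.map b) := by
  obtain ⟨g, g', h1, h2, h⟩ := h
  refine ⟨F.map g, F.map g', by rw [← F.map_mul, h1, F.map_one], by rw [← F.map_mul, h2, F.map_one],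
    ?_⟩
  rw [← F.map_ct, ← F.map_mul, ← F.map_mul]
  exact F.meqv h

theorem mz {a : 𝒞.Hom I I} (h : Z ε a) : Z ε (F.map a) := by
  obtain ⟨m, n, h⟩ := h
  exact ⟨F.ob m, F.ob n, (((Iso.refl _).sum F.miso_hyp.symm).trans (F.miso_sum _ _).symm).trans
    ((F.miso h).trans F.miso_hyp)⟩

theorem mns {a : 𝒞.Hom I I} (h : NS ε a) : NS ε (F.map a) := by
  obtain ⟨μ, -, h⟩ := h.inv
  exact ns_of_left (C := F.map μ) (by rw [← F.msy, ← F.map_mul, h, F.map_one])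

theorem munt {u : 𝒞.Hom I J} (h : Unt u) : Unt (F.map u) :=
  ⟨by rw [← F.map_ct, ← F.map_mul, h.1, F.map_one], by rw [← F.map_ct, ← F.map_mul, h.2, F.map_one]⟩

theorem msf {E : 𝒞.Hom I I} (h : SFIdem E) : SFIdem (F.map E) := by
  obtain ⟨a, b, U, W, h1, h2⟩ := h
  refine ⟨F.ob a, F.ob b, F.map U * (F.ww I a).ct, F.ww I a * F.map W, ?_, ?_⟩
  · rw [Hm.mul_assoc, ← Hm.mul_assoc _ (F.ww I a), F.unt_ww.2, Hm.one_mul, ← F.map_mul, h1, F.map_one]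
  · rw [← Hm.mul_assoc, Hm.mul_assoc _ (F.map W), ← F.map_mul, h2, ww_blocks, F.mzero,
      F.mzero, F.map_one]

end Fn

end Pool.Agent.Work.MP_9d1ffa_al.Ct

namespace Pool.Agent.Work.MP_9d1ffa_al.Ct.LL

open MonoidAlgebra

section

variable {O O' : Type 1} [Add O] [Zero O] [Add O'] [Zero O'] {𝒞 : SCat O} {𝒟 : SCat O'} {η : ℤˣ}
  {I J : O}

theorem cp_mul (S : Fn 𝒞 𝒟) (x y : 𝒞.Hom (J + J) (J + J)) :
    S.ww J J * S.map x * (S.ww J J).ct * (S.ww J J * S.map y * (S.ww J J).ct) =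
      S.ww J J * S.map (x * y) * (S.ww J J).ct := by
  rw [S.map_mul]
  simp only [Hm.mul_assoc]
  rw [← Hm.mul_assoc (S.ww J J).ct, S.unt_ww.2, Hm.one_mul]

theorem cp_uni (S : Fn 𝒞 𝒟) {U : 𝒞.Hom (J + J) (J + J)} (hU : Uni η U) :
    Uni η (S.ww J J * S.map U * (S.ww J J).ct) := by
  obtain ⟨U', -, h1, h2⟩ := hU.inv
  have e : hypF 𝒟 (S.ob J) = S.ww J J * S.map (hypF 𝒞 J) * (S.ww J J).ct := by
    rw [hypF, hypF, S.ww_blocks, S.mzero, S.map_one]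
  refine ⟨OU1_unit (V := S.ww J J * S.map U' * (S.ww J J).ct) ?_ ?_, ?_⟩
  · rw [cp_mul, h1, S.map_one, Hm.mul_one, S.unt_ww.1]
  · rw [cp_mul, h2, S.map_one, Hm.mul_one, S.unt_ww.1]
  · rw [e, cp_mul, conjTranspose_mul, conjTranspose_mul, conjTranspose_conjTranspose,
      ← Hm.mul_assoc (S.ww J J) (S.map U).ct, ← S.map_ct, cp_mul]
    exact (S.meqv hU.2).conj _

/-- the image of a matrix of two by two blocks -/
def fu (S : Fn 𝒞 𝒟) (U : 𝒞.Hom (J + J) (J + J)) : 𝒟.Hom (S.ob J + S.ob J) (S.ob J + S.ob J) :=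
  S.ww J J * S.map U * (S.ww J J).ct

theorem fu_blocks (S : Fn 𝒞 𝒟) (a b c d : 𝒞.Hom J J) :
    fu S (fromBlocks a b c d) = fromBlocks (S.map a) (S.map b) (S.map c) (S.map d) :=
  S.ww_blocks a b c d

theorem fu_uni (S : Fn 𝒞 𝒟) {U : 𝒞.Hom (J + J) (J + J)} (hU : Uni η U) : Uni η (fu S U) :=
  cp_uni S hU

theorem fu_ru (S : Fn 𝒞 𝒟) {U : 𝒞.Hom (J + J) (J + J)} (h : U ∈ RU 𝒞 η J) :
    fu S U ∈ RU 𝒟 η (S.ob J) := by
  induction h using Submonoid.closure_induction with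
  | mem x hx =>
    cases hx with
    | gl g g' h1 h2 =>
      rw [fu_blocks, S.mzero, S.map_ct]
      exact (GenU.gl _ _ (by rw [← S.map_mul, h1, S.map_one])
        (by rw [← S.map_mul, h2, S.map_one])).mem
    | sh χ =>
      rw [fu_blocks, S.mzero, S.map_one, S.msub, S.mzsmul, S.map_ct]
      exact (GenU.sh _).mem
    | sw κ s h =>
      rw [fu_blocks, S.msub, S.mzsmul, S.map_one, S.map_mul, S.map_ct]
      exact (GenU.sw _ _ (by rw [← S.map_ct, ← S.map_mul, h, S.map_one])).mem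
  | one =>
    rw [fu, S.map_one, Hm.mul_one, S.unt_ww.1]
    exact one_mem _
  | mul x y _ _ hx hy =>
    rw [fu, ← cp_mul]
    exact mul_mem hx hy

theorem fu_nul (S : Fn 𝒞 𝒟) {U : 𝒞.Hom (J + J) (J + J)} (h : Nul η U) : Nul η (fu S U) := by
  obtain ⟨κ, h⟩ := h
  refine ⟨S.ob κ, ?_⟩
  have := ru_reindex (fu_ru S h) (S.unt_ww (I := J) (J := κ))
  obtain ⟨a, b, c, d, rfl⟩ := exists_blocks U
  rw [← fromBlocks_one (I := κ) (J := κ), dsum_blocks, fu_blocks, reix_blocks] at this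
  rw [← fromBlocks_one (I := S.ob κ) (J := S.ob κ), fu_blocks, dsum_blocks]
  simpa only [S.ww_blocks, S.mzero, S.map_one] using this

/-- a class of objects that is closed under sums -/
structure Cls (O : Type 1) [Add O] [Zero O] where
  P : O → Prop
  h0 : P 0
  hadd : ∀ a b, P a → P b → P (a + b)

/-- the objects of the class -/
def Cls.T (P : Cls O) : Type 1 := {a // P.P a}

instance (P : Cls O) : Add P.T := ⟨fun a b => ⟨a.1 + b.1, P.hadd _ _ a.2 b.2⟩⟩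

instance (P : Cls O) : Zero P.T := ⟨⟨0, P.h0⟩⟩

/-- the full subcategory -/
def full (𝒞 : SCat O) (P : Cls O) : SCat P.T where
  Hom a b := 𝒞.Hom a.1 b.1
  acg a b := 𝒞.acg a.1 b.1
  mul := 𝒞.mul
  one a := 𝒞.one a.1
  cj := 𝒞.cj
  inl a b := 𝒞.inl a.1 b.1
  inr a b := 𝒞.inr a.1 b.1
  mul_assoc := 𝒞.mul_assoc
  one_mul := 𝒞.one_mul
  mul_one := 𝒞.mul_one
  mul_add := 𝒞.mul_add
  add_mul := 𝒞.add_mul
  cj_add := 𝒞.cj_add
  cj_mul := 𝒞.cj_mul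
  cj_cj := 𝒞.cj_cj
  inl_inl a b := 𝒞.inl_inl a.1 b.1
  inr_inr a b := 𝒞.inr_inr a.1 b.1
  inl_inr a b := 𝒞.inl_inr a.1 b.1
  total a b := 𝒞.total a.1 b.1
  one_zero := 𝒞.one_zero

theorem ru_full {P : Cls O} {I : P.T} {U : (full 𝒞 P).Hom (I + I) (I + I)}
    (h : U ∈ RU (full 𝒞 P) η I) :
    (show 𝒞.Hom (I.1 + I.1) (I.1 + I.1) from U) ∈ RU 𝒞 η I.1 := by
  induction h using Submonoid.closure_induction with
  | mem x hx =>
    cases hx with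
    | gl g g' h1 h2 => exact (GenU.gl (𝒞 := 𝒞) g g' h1 h2).mem
    | sh χ => exact (GenU.sh (𝒞 := 𝒞) χ).mem
    | sw κ s h => exact (GenU.sw (𝒞 := 𝒞) κ.1 s h).mem
  | one => exact (RU 𝒞 η I.1).one_mem
  | mul x y _ _ hx hy => exact (RU 𝒞 η I.1).mul_mem hx hy

end

section

variable {X G : Type} [Group G] {ρ : G →* Equiv.Perm X} {I J : Ob X} {ε : ℤˣ}

theorem z_iff_hyp {ψ : (OC ρ).Hom I I} : Z ε ψ ↔ HypC ρ ε I (val ψ) := by
  have e : ∀ (k l : Ob X) (g : (OC ρ).Hom (l + l) (I + (k + k))) (χ : (OC ρ).Hom (l + l) (l + l)),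
      g * fromBlocks ψ 0 0 (hypF (OC ρ) k) * g.ct = hypF (OC ρ) l + χ - (ε : ℤ) • χ.ct ↔
        val (g * fromBlocks ψ 0 0 (hypF (OC ρ) k) * g.ct) =
          val (hypF (OC ρ) l + χ - (ε : ℤ) • χ.ct) := fun k l g χ => ⟨congrArg _, val_inj⟩
  simp only [val_mul, val_fromBlocks, val_sub, val_add, val_hyp] at e
  constructor
  · rintro ⟨k, l, g, g', h1, h2, χ, h3⟩
    exact ⟨k, l, val g, val g', val χ, val_ctl g, val_ctl g', val_ctl χ,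
      (congrArg val h1).trans (BPm_one _ _), (congrArg val h2).trans (BPm_one _ _),
      (e k l g χ).1 h3⟩
  · rintro ⟨k, l, g, g', χ, c1, c2, c3, h1, h2, h3⟩
    exact ⟨k, l, mk g c1, mk g' c2, val_inj (h1.trans (BPm_one _ _)),
      val_inj (h2.trans (BPm_one _ _)), mk χ c3, (e k l (mk g c1) (mk χ c3)).2 h3⟩

/-- forms are defined over finitely generated subgroups -/
theorem van0_loc (h : ∀ S : Finset G, ∃ (H : Type) (_ : Group H) (σ : H →* Equiv.Perm X)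
    (f : AH σ ρ), Function.Injective f.f ∧ (∀ g ∈ S, ∃ k, f.f k = g) ∧ Van0 (OC σ) ε) :
    Van0 (OC ρ) ε := by
  classical
  intro I ψ hψ
  obtain ⟨μ, -, h2⟩ := hψ.inv
  obtain ⟨S, hS⟩ := exists_sup_finset ψ
  obtain ⟨S', hS'⟩ := exists_sup_finset μ
  obtain ⟨H, _, σ, f, hf, k1, k2⟩ := h (S ∪ S')
  have e1 : mp f (rs f hf ψ) = ψ := (hS.mono fun g k => k1 g (Finset.mem_union_left _ k)).mp_rs
  have e2 : mp f (rs f hf μ) = μ := (hS'.mono fun g k => k1 g (Finset.mem_union_right _ k)).mp_rs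
  rw [← e1]
  refine (k2 _ _ (ns_of_left (C := rs f hf μ) ?_)).mp f
  rw [rs_sy, ← rs_mp_mul, e2, h2, rs_one]

theorem sfi_loc (h : ∀ S : Finset G, ∃ (H : Type) (_ : Group H) (σ : H →* Equiv.Perm X)
    (f : AH σ ρ), Function.Injective f.f ∧ (∀ g ∈ S, ∃ k, f.f k = g) ∧ SFI (OC σ)) :
    SFI (OC ρ) := fun I E hE => by
  obtain ⟨s, hs⟩ := exists_sup_finset E
  obtain ⟨H, _, σ, f, hf, h2, h3⟩ := h s
  have e := Sup.mp_rs (hf := hf) (hs.mono h2)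
  rw [← e]
  exact (h3 I _ (mp_inj hf (by rw [mp_mul, e, hE]))).mp _

theorem cp_pos (z y : X) : 0 ≤ Finsupp.single z (1 : ℝ) y := by
  classical
  rw [Finsupp.single_apply]
  split_ifs
  exacts [zero_le_one, le_rfl]

theorem cp_two {μ : X →₀ ℝ} (h : l1 μ = 1) (z : X) : l1 (μ - Finsupp.single z 1) ≤ 2 := by
  rw [sub_eq_add_neg]
  refine (l1_add_le _ _).trans ?_
  rw [l1_neg, h, l1_single]
  norm_num

theorem cp_two' {μ ν : X →₀ ℝ} (h : l1 μ = 1) (h' : l1 ν = 1) : l1 (μ - ν) ≤ 2 := by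
  rw [sub_eq_add_neg]
  refine (l1_add_le _ _).trans ?_
  rw [l1_neg, h, h']
  norm_num

/-- the sum of all shifts of an object, moved slowly to the points `φ i` -/
noncomputable def swQ (a : Ob X) (φ : a.I → X) (h : (Set.range φ).Finite) : Ob X where
  I := a.I × ℕ
  t p := a.t p.1 + p.2
  x p := BSw_w (a.t p.1) p.2 • a.x p.1 + (1 - BSw_w (a.t p.1) p.2) • Finsupp.single (φ p.1) 1
  fin := (swO id a).fin
  pos p y := add_nonneg (mul_nonneg (BSw_w0 _ _) (a.pos _ y))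
    (mul_nonneg (sub_nonneg.2 (BSw_w1 _ _)) (cp_pos _ y))
  tot p := by
    rw [l1_add_pos (fun y => mul_nonneg (BSw_w0 _ _) (a.pos _ y))
      fun y => mul_nonneg (sub_nonneg.2 (BSw_w1 _ _)) (cp_pos _ y), l1_smul,
      l1_smul, l1_single, a.tot, abs_of_nonneg (BSw_w0 _ _),
      abs_of_nonneg (sub_nonneg.2 (BSw_w1 _ _)), abs_one]
    ring
  cpt := by
    classical
    obtain ⟨F, hF⟩ := a.cpt
    refine ⟨F ∪ h.toFinset, fun p y hy => Finset.mem_union.2 ?_⟩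
    rcases Finset.mem_union.1 (Finsupp.support_add hy) with k | k
    · exact Or.inl (hF _ y (Finsupp.support_smul k))
    · have := Finset.mem_singleton.1 (Finsupp.support_single_subset (Finsupp.support_smul k))
      exact Or.inr (h.mem_toFinset.2 ⟨p.1, this.symm⟩)

theorem ctl_swQ (ρ : G →* Equiv.Perm X) (a : Ob X) (φ : a.I → X) (h : (Set.range φ).Finite) :
    Ctl ρ (swQ a φ h) (a + swQ a φ h) (pmM swE fun _ => 1) := by
  refine ctl_pmM (a := swQ a φ h) (b := a + swQ a φ h) swE _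
    ⟨{1}, fun _ => Finset.mem_singleton_self _⟩ ⟨1, ?_⟩ fun δ hδ => ?_
  · rintro ⟨i, _ | n⟩
    · exact ⟨show a.t i + 0 ≤ a.t i + 1 by omega, show a.t i ≤ a.t i + 0 + 1 by omega⟩
    · exact ⟨show a.t i + (n + 1) ≤ a.t i + n + 1 by omega,
        show a.t i + n ≤ a.t i + (n + 1) + 1 by omega⟩
  · obtain ⟨N, hN⟩ := BSw_small 2 hδ
    refine ⟨N, ?_⟩
    rintro ⟨i, _ | n⟩ hi <;> rw [mapDomain_rho_one]
    · have : (swQ a φ h).x (i, 0) = a.x i := by simp [swQ, BSw_wz]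
      rw [this]
      change l1 (a.x i - a.x i) ≤ δ
      rw [sub_self, l1_zero]
      exact hδ.le
    · have e : (swQ a φ h).x (i, n + 1) - (swQ a φ h).x (i, n) =
          (BSw_w (a.t i) (n + 1) - BSw_w (a.t i) n) • (a.x i - Finsupp.single (φ i) 1) := by
        simp only [swQ]
        module
      change l1 ((swQ a φ h).x (i, n + 1) - (swQ a φ h).x (i, n)) ≤ δ
      rw [e, l1_smul]
      refine le_trans ?_ (hN (a.t i) (n + 1) hi)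
      exact (mul_le_mul (BSw_step _ _) (cp_two (a.tot i) _) (l1_nonneg _)
        (by positivity)).trans_eq (by ring)

theorem ctl_swR {a b : Ob X} {φ : a.I → X} {φ' : b.I → X} (h : (Set.range φ).Finite)
    (h' : (Set.range φ').Finite) {A : Matrix a.I b.I (ZG G)} (hA : Ctl ρ a b A)
    (e : ∀ i j g, (A i j).coeff g ≠ 0 → φ i = ρ g (φ' j)) :
    Ctl ρ (swQ a φ h) (swQ b φ' h') (swM A) := by
  obtain ⟨⟨S, h1⟩, ⟨c, h2⟩, h3⟩ := hA
  refine ⟨⟨S, fun p q g e => h1 _ _ g (BSw_ne e).2⟩, ⟨c, fun p q e => ?_⟩, fun δ hδ => ?_⟩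
  · obtain ⟨g, hg⟩ := CA_ne.1 e
    have := h2 _ _ (CA_ne.2 ⟨g, (BSw_ne hg).2⟩)
    have := (BSw_ne hg).1
    simp only [swQ]
    omega
  · obtain ⟨n₀, hn⟩ := h3 (δ / 3) (by positivity)
    obtain ⟨N, hN⟩ := BSw_small (2 * n₀ + 2 * c) (δ := δ / 3) (by positivity)
    refine ⟨N, ?_⟩
    rintro ⟨i, n⟩ ⟨j, m⟩ g hi e0
    obtain ⟨rfl, e'⟩ : n = m ∧ (A i j).coeff g ≠ 0 := BSw_ne e0
    have hc := h2 _ _ (CA_ne.2 ⟨g, e'⟩)
    have k1 := hN (a.t i) n hi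
    have k2 := BSw_diff n hc.1 hc.2
    have t1 : l1 ((b.x j).mapDomain (ρ g)) = 1 := (l1_mapDomain_perm _ _).trans (b.tot j)
    have e1 : (swQ a φ h).x (i, n) - ((swQ b φ' h').x (j, n)).mapDomain (ρ g) =
        BSw_w (a.t i) n • (a.x i - (b.x j).mapDomain (ρ g)) +
          (BSw_w (a.t i) n - BSw_w (b.t j) n) •
            ((b.x j).mapDomain (ρ g) - Finsupp.single (φ i) 1) := by
      simp only [swQ, Finsupp.mapDomain_add, Finsupp.mapDomain_smul, Finsupp.mapDomain_single,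
        ← e i j g e']
      module
    have k3 : BSw_w (a.t i) n * l1 (a.x i - (b.x j).mapDomain (ρ g)) ≤
        δ / 3 + 2 * n₀ / ((a.t i : ℝ) + n + 1) := by
      by_cases ht : n₀ ≤ a.t i
      · have k4 := mul_le_mul (BSw_w1 (a.t i) n) (hn i j g ht e') (l1_nonneg _) zero_le_one
        have : (0 : ℝ) ≤ 2 * n₀ / ((a.t i : ℝ) + n + 1) := by positivity
        linarith
      · have k4 : BSw_w (a.t i) n ≤ n₀ / ((a.t i : ℝ) + n + 1) := by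
          have : (a.t i : ℝ) + 1 ≤ n₀ := by exact_mod_cast not_le.1 ht
          unfold BSw_w
          gcongr
        have k5 := mul_le_mul k4 (cp_two' (a.tot i) t1) (l1_nonneg _) (by positivity)
        have : 2 * (n₀ : ℝ) / ((a.t i : ℝ) + n + 1) = n₀ / ((a.t i : ℝ) + n + 1) * 2 := by ring
        linarith
    have k6 := mul_le_mul k2 (cp_two t1 (φ i)) (l1_nonneg _) (by positivity)
    rw [e1]
    refine (l1_add_le _ _).trans ?_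
    rw [l1_smul, l1_smul, abs_of_nonneg (BSw_w0 _ _)]
    have : (2 * (n₀ : ℝ) + 2 * c) / ((a.t i : ℝ) + n + 1) =
      2 * n₀ / ((a.t i : ℝ) + n + 1) + c / ((a.t i : ℝ) + n + 1) * 2 := by ring
    linarith

theorem flq_of_fix (y : X) (h : ∀ g, ρ g y = y) : Nonempty (Flq (OC ρ)) := by
  have hf : ∀ a : Ob X, (Set.range fun _ : a.I => y).Finite := fun a =>
    (Set.finite_singleton y).subset Set.range_const_subset
  exact ⟨{
    S :=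
      { ob := fun a => swQ a (fun _ => y) (hf a)
        map := fun A => mk (swM (val A))
          (ctl_swR (hf _) (hf _) (val_ctl A) fun _ _ g _ => (h g).symm)
        map_add := fun A B => val_inj (swM_add _ _)
        map_mul := fun A B => val_inj (swM_cmul _ _)
        map_one := fun a => val_inj (@swM_one G _ a.I (fun _ _ => Classical.propDecidable _)
          fun _ _ => Classical.propDecidable _)
        map_ct := fun A => val_inj (by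
          funext p q
          by_cases e : p.2 = q.2
          · simp [val_ct, swM, e]
          · simp [val_ct, swM, e, Ne.symm e]) }
    u := fun a => mk (pmM swE fun _ => 1) (ctl_swQ ρ a _ (hf a))
    unt := fun a =>
      ⟨val_inj (@pmM_mul_ct _ _ _ _ (fun _ _ => Classical.propDecidable _) _ swE_bij.1 _),
        val_inj (@pmM_ct_mul _ _ _ _ (fun _ _ => Classical.propDecidable _) _ swE_bij _)⟩
    nat := fun {a b} A => val_inj (by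
      funext p q
      obtain ⟨q, rfl⟩ := swE_bij.2 q
      rw [val_mul, val_mul, val_fromBlocks]
      refine (pmM_cmul _ _ _ _ _).trans (Eq.trans ?_ (cmul_pmM swE_bij.1 _ _ _ _).symm)
      rw [CB_one, one_mul, mul_one]
      exact swM_nat _ p q) }⟩

/-- the constants -/
def aC (ρ : G →* Equiv.Perm X) : AH ρ (ln ρ) := ⟨MonoidHom.inl G _, fun _ => rfl⟩

theorem aC_inj : Function.Injective (aC ρ).f := fun _ _ h => congrArg Prod.fst h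

/-- the powers of the variable -/
noncomputable def tC (ρ : G →* Equiv.Perm X) (a : Ob X) (n : ℤ) :
    TU (ln ρ) (1, Multiplicative.ofAdd n) a a :=
  TU.cen (ln ρ) (1, Multiplicative.ofAdd n) (map_one ρ) a

theorem val_tC (n : ℤ) : val (tC ρ I n).T = pmM id fun _ => (1, Multiplicative.ofAdd n) := rfl

/-- the Laurent extension of the obstruction category -/
noncomputable def lauO (ρ : G →* Equiv.Perm X) : Lau (OC ρ) (OC (ln ρ)) where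
  e := (mpIF (aC ρ)).m
  f P := AddMonoidHom.mk' (fm fun g => P g.2.toAdd) (fm_add _)
  c := AddMonoidHom.mk' (rs (aC ρ) aC_inj) rs_add
  zz a n := (tC ρ a n).T
  e_mul := (mpIF (aC ρ)).m_mul
  e_one := (mpIF (aC ρ)).m_one
  e_ct := (mpIF (aC ρ)).m_ct
  e_inl := (mpIF (aC ρ)).m_inl
  e_inr := (mpIF (aC ρ)).m_inr
  f_f P Q _ _ x := hom_ext fun i j g => by
    change (val (fm _ (fm _ x)) i j).coeff g = (val (fm _ x) i j).coeff g
    rw [coeff_fm, coeff_fm, coeff_fm]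
    by_cases h : P g.2.toAdd <;> by_cases h' : Q g.2.toAdd <;> simp [h, h']
  f_not P _ _ x := fm_add_not _ x
  f_false x := (sup_true x).fm_zero fun _ _ => id
  f_mul P Q T _ _ _ x y hx hy h :=
    (Sup.mul (hx ▸ sup_fm _ x) (hy ▸ sup_fm _ y) fun a b => h _ _).fm_eq
  e_c x := (mp_rs x).trans (congrArg (fm · x) (funext fun g => propext
    ⟨fun ⟨h, e⟩ => e ▸ rfl, fun e => ⟨g.1, Prod.ext rfl e.symm⟩⟩))
  c_e := rs_mp
  z_zero a := val_inj (@pmM_id _ _ _ fun _ _ => Classical.propDecidable _)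
  z_add a m n := val_inj (funext fun i => funext fun k => by
    rw [pmM_mul (val_tC m), val_tC, val_tC, id]
    by_cases h : i = k
    · subst h
      rw [show pmM id _ i i = _ from CB_pm_self id _ i,
        show pmM id _ i i = _ from CB_pm_self id _ i, single_mul_single, one_mul]
      exact congrArg (single · 1) (by simp [ofAdd_add])
    · rw [CB_pm_ne id _ h, CB_pm_ne id _ h, mul_zero])
  z_comm n x := cen_comm (t := (1, Multiplicative.ofAdd n)) (map_one ρ)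
    (fun g => by ext <;> simp [add_comm]) x
  f_z a n := ((tC ρ a n).sup.mono fun g e => by rw [e]; rfl).fm_eq
  bdd x := by
    obtain ⟨s, hs⟩ := exists_sup_finset x
    refine ⟨s.sup fun g => g.2.toAdd.natAbs, (hs.mono fun g e => ?_).fm_eq⟩
    exact (Int.abs_eq_natAbs _).trans_le
      (Int.ofNat_le.2 (Finset.le_sup (f := fun g : G × Multiplicative ℤ => g.2.toAdd.natAbs) e))

end

end Pool.Agent.Work.MP_9d1ffa_al.Ct.LL
end

-- merged part: Pool.Agent.Work.MP_9d1ffa_al.LL.Fa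
section
/-! Lagrangians and sublagrangians of possibly singular forms. -/

set_option linter.unusedSectionVars false
set_option linter.unusedVariables false

namespace Pool.Agent.Work.MP_9d1ffa_al.Ct.LL

variable {O O' : Type 1} [Add O] [Zero O] [Add O'] [Zero O'] {𝒞 : SCat O} {𝒟 : SCat O'} {η : ℤˣ}
  {I J K L D : O}

/-- the rows of `l` span a lagrangian -/
def LagD (η : ℤˣ) (θ : 𝒞.Hom I I) (l : 𝒞.Hom L I) : Prop :=
  Eqv η 0 (l * θ * l.ct) ∧ ∃ (b : 𝒞.Hom L I) (a : 𝒞.Hom I L), sy η θ * l.ct * b + a * l = 1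

/-- there is a lagrangian -/
def Lag (η : ℤˣ) (θ : 𝒞.Hom I I) : Prop := ∃ (L : O) (l : 𝒞.Hom L I), LagD η θ l

/-- there is a lagrangian after adding a hyperbolic form -/
def SL (η : ℤˣ) (θ : 𝒞.Hom I I) : Prop := ∃ k : O, Lag η (fromBlocks θ 0 0 (hypF 𝒞 k))

/-- the form is the sum of a nonsingular form on a retract and a zero form -/
def RF (η : ℤˣ) (θ : 𝒞.Hom I I) : Prop :=
  ∃ Γ : 𝒞.Hom I I, sy η θ * Γ * sy η θ = sy η θ ∧
    Eqv η 0 ((1 - sy η θ * Γ) * θ * (1 - sy η θ * Γ).ct)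

/-- the rows of `l` span a sublagrangian, and the rows of `ι` span its annihilator modulo `l` -/
def SubD (η : ℤˣ) (θ : 𝒞.Hom I I) (l : 𝒞.Hom D I) (ι : 𝒞.Hom J I) : Prop :=
  Eqv η 0 (l * θ * l.ct) ∧ ι * (sy η θ * l.ct) = 0 ∧
    ∃ (s : 𝒞.Hom D I) (α : 𝒞.Hom I J) (γ : 𝒞.Hom I D), sy η θ * l.ct * s + α * ι + γ * l = 1

variable {θ : 𝒞.Hom I I} {θ' : 𝒞.Hom J J} {l : 𝒞.Hom L I}

theorem iso_sy (h : Eqv η 0 (l * θ * l.ct)) : l * sy η θ * l.ct = 0 := by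
  rw [← sy_conj, ← h.sy_eq, sy_zero]

theorem Fa_r {x : 𝒞.Hom I J} {y : 𝒞.Hom J K} {z : 𝒞.Hom I K} (h : x * y = z) (w : 𝒞.Hom K L) :
    x * (y * w) = z * w := by
  rw [← Hm.mul_assoc, h]

theorem Fa_z (h : Eqv η 0 (l * θ * l.ct)) (c : 𝒞.Hom K L) :
    Eqv η 0 (c * l * θ * (c * l).ct) := by
  simpa only [Hm.mul_zero, Hm.zero_mul, conjTranspose_mul, Hm.mul_assoc] using h.conj c

theorem Fa_ct {x : 𝒞.Hom I J} {y : 𝒞.Hom J K} {z : 𝒞.Hom I K} (h : x * y = z) :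
    y.ct * x.ct = z.ct := by
  rw [← conjTranspose_mul, h]

theorem Fa_lal {b : 𝒞.Hom L I} {a : 𝒞.Hom I L} (e : Eqv η 0 (l * θ * l.ct))
    (k : sy η θ * l.ct * b + a * l = 1) : l * (a * l) = l := by
  have h := congrArg (l * ·) k
  simp only [Hm.mul_add, Hm.mul_one] at h
  rwa [← Hm.mul_assoc, ← Hm.mul_assoc, iso_sy e, Hm.zero_mul, zero_add] at h

theorem LagD.idem (h : LagD η θ l) : ∃ a : 𝒞.Hom I L, LagD η θ (a * l) ∧ l * (a * l) = l := by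
  obtain ⟨e, b, a, k⟩ := h
  have h1 := Fa_lal e k
  refine ⟨a, ⟨Fa_z e a, l.ct * b, 1, ?_⟩, h1⟩
  rw [Hm.one_mul, Hm.mul_assoc, Fa_r (Fa_ct h1), ← Hm.mul_assoc, k]

theorem LagD.eqv {θ₂ : 𝒞.Hom I I} (h : LagD η θ l) (e : Eqv η θ θ₂) : LagD η θ₂ l := by
  obtain ⟨e0, b, a, k⟩ := h
  exact ⟨e0.trans (e.conj l), b, a, e.sy_eq ▸ k⟩

theorem LagD.push {U : 𝒞.Hom J I} {W : 𝒞.Hom I J} (h : LagD η θ l) (h1 : U * W = 1)
    (e : Eqv η θ (W * θ' * W.ct)) : LagD η θ' (l * W) := by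
  obtain ⟨e0, b, a, k⟩ := h
  refine ⟨?_, b * W, U * a, ?_⟩
  · simpa only [conjTranspose_mul, Hm.mul_assoc] using e0.trans (e.conj l)
  · have k1 := congrArg (U * · * W) k
    rw [e.sy_eq, sy_conj] at k1
    simpa only [Hm.mul_add, Hm.add_mul, Hm.mul_assoc, Fa_r h1, Hm.one_mul, Hm.mul_one, h1,
      conjTranspose_mul] using k1

theorem LagD.pull {U : 𝒞.Hom J I} {W : 𝒞.Hom I J} {l' : 𝒞.Hom L J} (h : LagD η θ' l')
    (h1 : U * W = 1) (e : Eqv η θ (W * θ' * W.ct)) :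
    LagD η θ (fromRows (l' * U) (1 - W * U)) := by
  obtain ⟨e0, b, a, k⟩ := h
  have w : fromRows (l' * U) (1 - W * U) * W = fromRows l' 0 := by
    simp only [fromRows_mul, Hm.sub_mul, Hm.mul_assoc, h1, Hm.mul_one, Hm.one_mul, sub_self]
  refine ⟨Eqv.trans ?_ (e.conj _).symm, fromRows (b * U) 0, fromCols (W * a) 1, ?_⟩
  · rw [← Hm.mul_assoc, ← Hm.mul_assoc, w, Hm.mul_assoc, Fa_ct w,
      conjTranspose_fromRows_eq_fromCols_conjTranspose, fromRows_mul, fromRows_mul_fromCols,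
      ← fromBlocks_zero]
    exact eqv_blocks e0 (Eqv.of_eq (by simp)) (by simp)
  · rw [e.sy_eq, sy_conj, Hm.mul_assoc (W * _), Fa_ct w,
      conjTranspose_fromRows_eq_fromCols_conjTranspose, Hm.mul_assoc, fromCols_mul_fromRows,
      fromCols_mul_fromRows]
    have k1 := congrArg (W * · * U) k
    simp only [Hm.mul_add, Hm.add_mul, Hm.mul_assoc, Hm.one_mul, Hm.mul_one] at k1
    simp only [Hm.mul_zero, add_zero, Hm.one_mul, Hm.mul_assoc]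
    rw [← add_assoc, k1, add_sub_cancel]

theorem LagD.conj {g : 𝒞.Hom J I} {g' : 𝒞.Hom I J} (h : LagD η θ l) (h1 : g * g' = 1)
    (h2 : g' * g = 1) (e : Eqv η θ' (g * θ * g.ct)) : LagD η θ' (l * g') := by
  refine h.push h1 ?_
  have := e.conj g'
  rw [← Hm.mul_assoc, ← Hm.mul_assoc, h2, Hm.one_mul, Hm.mul_assoc θ, Fa_ct h2, conjTranspose_one,
    Hm.mul_one] at this
  exact this.symm

theorem Lag.iso (h : Lag η θ) (e : Iso η θ θ') : Lag η θ' := by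
  obtain ⟨L, l, h⟩ := h
  obtain ⟨g, g', h1, h2, e⟩ := e
  exact ⟨L, _, h.conj h1 h2 e⟩

theorem LagD.sum {l' : 𝒞.Hom K J} (h : LagD η θ l) (h' : LagD η θ' l') :
    LagD η (fromBlocks θ 0 0 θ') (fromBlocks l 0 0 l') := by
  obtain ⟨e, b, a, k⟩ := h
  obtain ⟨e', b', a', k'⟩ := h'
  refine ⟨?_, fromBlocks b 0 0 b', fromBlocks a 0 0 a', ?_⟩
  · simpa [fromBlocks_multiply, fromBlocks_conjTranspose] using
      eqv_blocks e e' (b := 0) (c := 0) rfl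
  · simp [OL0_sy, fromBlocks_multiply, fromBlocks_conjTranspose, fromBlocks_add, k, k']

theorem lagD_hyp (k : O) : LagD η (hypF 𝒞 k) (fromCols 1 0 : 𝒞.Hom k (k + k)) := by
  refine ⟨Eqv.of_eq ?_, fromCols 0 ((η : ℤ) • 1), fromRows 1 0, ?_⟩
  · simp [hypF, fromCols_mul_fromBlocks, conjTranspose_fromCols_eq_fromRows_conjTranspose,
      fromCols_mul_fromRows]
  · rw [sy_hyp, conjTranspose_fromCols_eq_fromRows_conjTranspose, fromBlocks_mul_fromRows,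
      fromRows_mul_fromCols, fromRows_mul_fromCols, fromBlocks_add]
    simp only [conjTranspose_one, conjTranspose_zero, Hm.mul_zero, Hm.zero_mul, add_zero, zero_add,
      Hm.mul_one, Hm.one_mul, Hm.smul_mul, eps_eps, smul_zero, fromBlocks_one]

theorem Lag.sum (h : Lag η θ) (h' : Lag η θ') : Lag η (fromBlocks θ 0 0 θ') := by
  obtain ⟨L, l, h⟩ := h
  obtain ⟨L', l', h'⟩ := h'
  exact ⟨_, _, h.sum h'⟩

theorem Lag.sl (h : Lag η θ) : SL η θ := by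
  exact ⟨0, h.sum ⟨_, _, lagD_hyp 0⟩⟩

theorem SL.iso (h : SL η θ) (e : Iso η θ θ') : SL η θ' := by
  obtain ⟨k, h⟩ := h
  exact ⟨k, h.iso (e.sum (Iso.refl _))⟩

theorem Fa_st {W : 𝒞.Hom I J} (e : Eqv η θ (W * θ' * W.ct)) (G : 𝒞.Hom K K) :
    Eqv η (fromBlocks θ 0 0 G) (fromBlocks W 0 0 (1 : 𝒞.Hom K K) * fromBlocks θ' 0 0 G *
      (fromBlocks W 0 0 (1 : 𝒞.Hom K K)).ct) := by
  simpa [fromBlocks_multiply, fromBlocks_conjTranspose] using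
    eqv_blocks e (Eqv.refl G) (b := 0) (c := 0) rfl

theorem Fa_st1 {U : 𝒞.Hom J I} {W : 𝒞.Hom I J} (h1 : U * W = 1) :
    fromBlocks U 0 0 (1 : 𝒞.Hom K K) * fromBlocks W 0 0 (1 : 𝒞.Hom K K) = 1 := by
  simp [fromBlocks_multiply, h1]

theorem SL.push {U : 𝒞.Hom J I} {W : 𝒞.Hom I J} (h : SL η θ) (h1 : U * W = 1)
    (e : Eqv η θ (W * θ' * W.ct)) : SL η θ' := by
  obtain ⟨k, L, l, h⟩ := h
  exact ⟨k, _, _, h.push (Fa_st1 h1) (Fa_st e _)⟩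

theorem SL.pull {U : 𝒞.Hom J I} {W : 𝒞.Hom I J} (h : SL η θ') (h1 : U * W = 1)
    (e : Eqv η θ (W * θ' * W.ct)) : SL η θ := by
  obtain ⟨k, L, l, h⟩ := h
  exact ⟨k, _, _, h.pull (Fa_st1 h1) (Fa_st e _)⟩

theorem SL.unhyp (h : SL η (fromBlocks θ 0 0 (hypF 𝒞 K))) : SL η θ := by
  obtain ⟨k, h⟩ := h
  exact ⟨K + k, h.iso ((UZ_assoc _ _ _).symm.trans ((Iso.refl θ).sum UZ_hsum))⟩

theorem sl_of_z (h : Z η θ) : SL η θ := by
  obtain ⟨m, n, k⟩ := h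
  exact ⟨m, Lag.iso ⟨_, _, lagD_hyp n⟩ k.symm⟩

theorem z_of_free (hθ : NS η θ) (h : LagD η θ l) {a : 𝒞.Hom I L} (ha : l * a = 1) : Z η θ := by
  obtain ⟨e, b, a0, k⟩ := h
  obtain ⟨μ, -, m2⟩ := hθ.inv
  have h1 : l * a0 = 1 := by
    have := congrArg (· * a) (Fa_lal e k)
    simpa only [Hm.mul_assoc, ha, Hm.mul_one] using this
  have h2 : l * (sy η θ * l.ct) = 0 := by rw [← Hm.mul_assoc, iso_sy e]
  have h3 : a0.ct * μ * (sy η θ * l.ct) = 1 := by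
    rw [Hm.mul_assoc, Fa_r m2, Hm.one_mul, Fa_ct h1, conjTranspose_one]
  have h4 : b * (sy η θ * l.ct) = 1 := by
    have := congrArg (a0.ct * μ * · * (sy η θ * l.ct)) k
    simp only [Hm.mul_add, Hm.add_mul, Fa_r h3, Hm.mul_one, Hm.one_mul, h3] at this
    rwa [Hm.mul_assoc _ (a0 * l), Hm.mul_assoc a0, h2, Hm.mul_zero, Hm.mul_zero, add_zero] at this
  have h5 : b * a0 = 0 := by
    have := congrArg (a0.ct * μ * · * a0) k
    simp only [Hm.mul_add, Hm.add_mul, Fa_r h3, Hm.mul_one, Hm.one_mul] at this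
    rwa [Hm.mul_assoc _ (a0 * l), Hm.mul_assoc a0, h1, Hm.mul_one, add_eq_right] at this
  have h6 : l * θ * b.ct + (η : ℤ) • (b * θ * l.ct).ct = (η : ℤ) • 1 := by
    have := Fa_ct h4
    rw [conjTranspose_mul, conjTranspose_conjTranspose, sy_ct, conjTranspose_one] at this
    rw [← this]
    simp only [sy, conjTranspose_mul, conjTranspose_conjTranspose, Hm.mul_smul, Hm.smul_mul,
      eps_eps, Hm.mul_add, Hm.add_mul, Hm.mul_assoc]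
  have g1 : fromRows l b * fromCols a0 (sy η θ * l.ct) = 1 := by
    rw [fromRows_mul_fromCols, h1, h2, h4, h5, fromBlocks_one]
  have g2 : fromCols a0 (sy η θ * l.ct) * fromRows l b = 1 := by
    rw [fromCols_mul_fromRows, add_comm, k]
  refine Z.iso (iso_conj θ g1 g2).symm ?_
  rw [conjTranspose_fromRows_eq_fromCols_conjTranspose, fromRows_mul, fromRows_mul_fromCols]
  refine Z.eqv (eqv_blocks e (Eqv.refl _) rfl) (z_lag _ _ _ ((η : ℤ) • 1) ?_ ?_) <;>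
    rw [h6, Hm.smul_mul, Hm.one_mul, eps_eps]

theorem Fa_retr {U : 𝒞.Hom K L} {W : 𝒞.Hom L K} (h : LagD η θ l) (h1 : W * (U * l) = l) :
    LagD η θ (U * l) := by
  obtain ⟨e, b, a, k⟩ := h
  refine ⟨Fa_z e U, W.ct * b, a * W, ?_⟩
  rw [Hm.mul_assoc, Fa_r (Fa_ct h1), ← Hm.mul_assoc, Hm.mul_assoc a, h1, k]

theorem z_of_lag (hS : SFI 𝒞) (hθ : NS η θ) (h : Lag η θ) : Z η θ := by
  obtain ⟨L, l, h⟩ := h
  obtain ⟨a, hf, h1⟩ := h.idem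
  have h2 : a * l * (a * l) = a * l := by rw [Hm.mul_assoc, h1]
  obtain ⟨c, d, U, W, k1, k2⟩ := hS I _ h2
  have h3 := Fa_retr (U := U) (W := W) (hf.sum (lagD_hyp c))
    (by rw [Fa_r k2]; simp [fromBlocks_multiply, h2])
  refine (z_of_free (hθ.sum ns_hyp) h3
    (a := fromBlocks 1 0 0 (fromRows (1 : 𝒞.Hom c c) 0) * W) ?_).cancel (z_hyp c)
  have h4 : fromBlocks (a * l) 0 0 (fromCols (1 : 𝒞.Hom c c) (0 : 𝒞.Hom c c)) *
      fromBlocks 1 0 0 (fromRows (1 : 𝒞.Hom c c) 0) = W * U := by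
    simp [k2, fromBlocks_multiply, fromCols_mul_fromRows]
  rw [Hm.mul_assoc, Fa_r h4, Hm.mul_assoc, k1, Hm.mul_one, k1]

theorem z_of_sl (hS : SFI 𝒞) (hθ : NS η θ) (h : SL η θ) : Z η θ := by
  obtain ⟨k, h⟩ := h
  exact (z_of_lag hS (hθ.sum ns_hyp) h).cancel (z_hyp k)

theorem rf_of_ns (h : NS η θ) : RF η θ := by
  obtain ⟨μ, m1, -⟩ := h.inv
  exact ⟨μ, by rw [m1, Hm.one_mul], Eqv.of_eq (by simp [m1])⟩

theorem Fa_split (hV : Van0 𝒞 η) {Γ : 𝒞.Hom I I} {U : 𝒞.Hom J I} {W : 𝒞.Hom I J}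
    (h1 : sy η θ * Γ * sy η θ = sy η θ)
    (h2 : Eqv η 0 ((1 - sy η θ * Γ) * θ * (1 - sy η θ * Γ).ct)) (k1 : U * W = 1)
    (k2 : W * U = sy η θ * Γ) : SL η θ := by
  rw [← k2] at h1 h2
  have h3 : sy η θ * (W * U).ct = sy η θ := by
    have := congrArg ((η : ℤ) • ·) (Fa_ct h1)
    simpa only [sy_ct, Hm.smul_mul, eps_eps] using this
  have h4 : sy η (U * θ * U.ct) * (W.ct * Γ * W) = 1 := by
    rw [sy_conj, Hm.mul_assoc W.ct, Hm.mul_assoc, Fa_r (Fa_ct rfl), Hm.mul_assoc, Fa_r h3,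
      Fa_r k2.symm, Hm.mul_assoc, k1, Hm.mul_one, k1]
  have h5 : NS η (U * θ * U.ct) := by
    refine ns_of_left (C := (η : ℤ) • (W.ct * Γ * W).ct) ?_
    rw [Hm.smul_mul, ← Hm.mul_smul, ← sy_ct, Fa_ct h4, conjTranspose_one]
  refine (sl_of_z (hV _ _ h5)).pull k1 ?_
  have h6 := eqv_cross (ε := η) (1 - W * U) (W * U) θ
  rw [sub_add_cancel, conjTranspose_one, Hm.one_mul, Hm.mul_one, Hm.sub_mul _ _ (sy η θ), h1,
    Hm.one_mul, sub_self, Hm.zero_mul, add_zero] at h6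
  refine h6.symm.trans ((h2.symm.add (Eqv.refl _)).trans (Eqv.of_eq ?_))
  simp only [zero_add, conjTranspose_mul, Hm.mul_assoc]

theorem sl_of_rf (hS : SFI 𝒞) (hV : Van0 𝒞 η) (h : RF η θ) : SL η θ := by
  obtain ⟨Γ, h1, h2⟩ := h
  obtain ⟨a, b, U, W, k1, k2⟩ := hS I (sy η θ * Γ) (by rw [← Hm.mul_assoc, h1])
  obtain ⟨ν, n1, -⟩ := (ns_hyp (ε := η) (𝒞 := 𝒞) (I := a)).inv
  have e : sy η (fromBlocks θ 0 0 (hypF 𝒞 a)) * fromBlocks Γ 0 0 ν =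
      fromBlocks (sy η θ * Γ) 0 0 1 := by
    simp [OL0_sy, fromBlocks_multiply, n1]
  refine SL.unhyp (K := a) (Fa_split hV (Γ := fromBlocks Γ 0 0 ν)
    (U := fromBlocks U 0 0 (1 : 𝒞.Hom a a) * (sAssoc 𝒞 I a a).ct)
    (W := sAssoc 𝒞 I a a * fromBlocks W 0 0 (1 : 𝒞.Hom a a)) ?_ ?_ ?_ ?_)
  · rw [e]
    simp [OL0_sy, fromBlocks_multiply, h1]
  · rw [e, ← fromBlocks_one, fromBlocks_sub, fromBlocks_conjTranspose, ← fromBlocks_zero]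
    simpa [fromBlocks_multiply] using eqv_blocks h2 (Eqv.refl (0 : 𝒞.Hom (a + a) (a + a)))
      (b := 0) (c := 0) rfl
  · rw [Hm.mul_assoc, Fa_r unt_assoc.2, Hm.one_mul, Fa_st1 k1]
  · rw [e, Hm.mul_assoc, Fa_r (fromBlocks_multiply _ _ _ _ _ _ _ _), k2]
    simp [sAssoc, fromBlocks_conjTranspose, fromBlocks_multiply,
      conjTranspose_fromRows_eq_fromCols_conjTranspose,
      conjTranspose_fromCols_eq_fromRows_conjTranspose, fromCols_mul_fromRows,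
      fromBlocks_mul_fromRows, fromRows_fromCols_eq_fromBlocks,
      fromCols_fromRows_eq_fromBlocks, fromBlocks_add]

variable {l₀ : 𝒞.Hom D I} {ι : 𝒞.Hom J I}

theorem SubD.sum (h : SubD η θ l₀ ι) (G : 𝒞.Hom K K) :
    SubD η (fromBlocks θ 0 0 G) (fromCols l₀ 0)
      (fromBlocks ι 0 0 (1 : 𝒞.Hom K K)) := by
  obtain ⟨e, h1, s, α, γ, k⟩ := h
  refine ⟨?_, ?_, fromCols s 0, fromBlocks α 0 0 1, fromRows γ 0, ?_⟩
  · simpa [fromCols_mul_fromBlocks, conjTranspose_fromCols_eq_fromRows_conjTranspose,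
      fromCols_mul_fromRows] using e
  · simp [OL0_sy, conjTranspose_fromCols_eq_fromRows_conjTranspose, fromBlocks_mul_fromRows, h1]
  · rw [OL0_sy, conjTranspose_fromCols_eq_fromRows_conjTranspose, fromBlocks_mul_fromRows,
      fromRows_mul_fromCols, fromRows_mul_fromCols, fromBlocks_multiply, fromBlocks_add,
      fromBlocks_add]
    simp [k]

theorem Fa_tr (h : ι * (sy η θ * l₀.ct) = 0) : l₀ * (sy η θ * ι.ct) = 0 := by
  have := congrArg ((η : ℤ) • ·) (Fa_ct h)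
  simpa only [conjTranspose_mul, conjTranspose_conjTranspose, sy_ct, Hm.smul_mul, Hm.mul_smul,
    eps_eps, conjTranspose_zero, smul_zero, Hm.mul_assoc] using this

theorem Fa_kt {s : 𝒞.Hom D I} {α : 𝒞.Hom I J} {γ : 𝒞.Hom I D}
    (k : sy η θ * l₀.ct * s + α * ι + γ * l₀ = 1) :
    (η : ℤ) • (s.ct * (l₀ * sy η θ)) + ι.ct * α.ct + l₀.ct * γ.ct = 1 := by
  have := congrArg SCat.Hom.ct k
  simpa only [conjTranspose_add, conjTranspose_mul, conjTranspose_conjTranspose, sy_ct,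
    Hm.mul_smul, conjTranspose_one] using this

theorem Fa_A {s : 𝒞.Hom D I} {α : 𝒞.Hom I J} {γ : 𝒞.Hom I D} (h : ι * (sy η θ * l₀.ct) = 0)
    (k : sy η θ * l₀.ct * s + α * ι + γ * l₀ = 1) :
    α * (ι * (sy η θ * ι.ct)) = sy η θ * ι.ct - sy η θ * (l₀.ct * (s * (sy η θ * ι.ct))) := by
  have := congrArg (· * (sy η θ * ι.ct)) k
  simp only [Hm.add_mul, Hm.mul_assoc, Fa_tr h, Hm.mul_zero, add_zero, Hm.one_mul] at this
  exact eq_sub_of_add_eq' this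

theorem Fa_B {s : 𝒞.Hom D I} {α : 𝒞.Hom I J} {γ : 𝒞.Hom I D} {μ : 𝒞.Hom I I}
    (h : ι * (sy η θ * l₀.ct) = 0) (k : sy η θ * l₀.ct * s + α * ι + γ * l₀ = 1)
    (m : sy η θ * μ = 1) :
    ι * (sy η θ * (ι.ct * (α.ct * μ))) = ι - (η : ℤ) • (ι * (sy η θ * (s.ct * l₀))) := by
  have := congrArg (ι * sy η θ * · * μ) (Fa_kt k)
  have h' : ι * (sy η θ * (l₀.ct * (γ.ct * μ))) = 0 := by
    rw [← Hm.mul_assoc (sy η θ), Fa_r h, Hm.zero_mul]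
  simp only [Hm.add_mul, Hm.mul_add, Hm.mul_assoc, Hm.mul_smul, Hm.smul_mul, m, Hm.mul_one, h',
    add_zero] at this
  exact eq_sub_of_add_eq' this

theorem SubD.rf (h : SubD η θ l₀ ι) (hθ : NS η θ) : RF η (ι * θ * ι.ct) := by
  obtain ⟨e, h1, s, α, γ, k⟩ := h
  obtain ⟨μ, m1, m2⟩ := hθ.inv
  have h0 : l₀ * (sy η θ * l₀.ct) = 0 := by rw [← Hm.mul_assoc, iso_sy e]
  have b : sy η (ι * θ * ι.ct) * (α.ct * μ * α) =
      (ι - (η : ℤ) • (ι * (sy η θ * (s.ct * l₀)))) * α := by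
    rw [← Fa_B h1 k m1, sy_conj]
    simp only [Hm.mul_assoc]
  refine ⟨α.ct * μ * α, ?_, ?_⟩
  · have a1 := Fa_r h1 (s * (sy η θ * ι.ct))
    have a2 := Fa_r h0 (s * (sy η θ * ι.ct))
    rw [Hm.mul_assoc, Hm.zero_mul] at a1 a2
    rw [b, sy_conj, Hm.mul_assoc, Hm.mul_assoc ι, Fa_A h1 k]
    simp only [Hm.mul_sub, Hm.sub_mul, Hm.smul_mul, Hm.mul_assoc, a1, a2, Fa_tr h1, Hm.mul_zero,
      smul_zero, sub_zero]
  · have a1 := congrArg (ι * ·) k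
    have a2 := congrArg (l₀ * ·) k
    simp only [Hm.mul_add, Fa_r h1, Fa_r h0, Hm.zero_mul, zero_add, Hm.mul_one] at a1 a2
    have c : (1 - sy η (ι * θ * ι.ct) * (α.ct * μ * α)) * ι =
        (ι * γ + (η : ℤ) • (ι * (sy η θ * (s.ct * (1 - l₀ * γ))))) * l₀ := by
      rw [b]
      simp only [Hm.mul_sub, Hm.sub_mul, Hm.add_mul, Hm.smul_mul, Hm.mul_assoc, Hm.one_mul,
        Hm.mul_one, eq_sub_of_add_eq a1, eq_sub_of_add_eq a2]
      abel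
    have := Fa_z e (ι * γ + (η : ℤ) • (ι * (sy η θ * (s.ct * (1 - l₀ * γ)))))
    rw [← c, conjTranspose_mul] at this
    simpa only [Hm.mul_assoc] using this

theorem SubD.lag (h : SubD η θ l₀ ι) (hθ : NS η θ) :
    Lag η (fromBlocks θ 0 0 (-(ι * θ * ι.ct))) := by
  obtain ⟨e, h1, s, α, γ, k⟩ := h
  obtain ⟨μ, m1, m2⟩ := hθ.inv
  refine ⟨J + D, fromBlocks ι 1 l₀ 0, ?_, fromBlocks (α.ct * μ) 0 (γ.ct * μ) 0,
    fromBlocks 0 ((η : ℤ) • (sy η θ * s.ct)) 1 (-((η : ℤ) • (ι * (sy η θ * s.ct)))), ?_⟩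
  · rw [fromBlocks_conjTranspose, fromBlocks_multiply, fromBlocks_multiply, ← fromBlocks_zero]
    refine eqv_blocks (Eqv.of_eq (by simp)) (by simpa using e) ?_
    simpa [sy, Hm.mul_add, Hm.add_mul, Hm.mul_assoc, -zsmul_eq_mul] using h1.symm
  · have a1 := congrArg (sy η θ * · * μ) (Fa_kt k)
    simp only [Hm.add_mul, Hm.mul_add, Hm.mul_assoc, Hm.mul_smul, Hm.smul_mul, m1,
      Hm.mul_one] at a1
    rw [OL0_sy, sy_neg, sy_conj, fromBlocks_conjTranspose, fromBlocks_multiply, fromBlocks_multiply,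
      fromBlocks_multiply, fromBlocks_add, ← fromBlocks_one, fromBlocks_inj]
    simp only [conjTranspose_one, conjTranspose_zero, Hm.mul_zero, Hm.zero_mul, add_zero, zero_add,
      Hm.mul_one, Hm.one_mul, Hm.neg_mul, Hm.smul_mul, Hm.mul_assoc, Fa_B h1 k m1, true_and,
      and_true]
    exact ⟨by rw [add_comm, ← add_assoc, a1], by abel⟩

theorem SubD.lift (h : SubD η θ l₀ ι) {l' : 𝒞.Hom L J} (h' : LagD η (ι * θ * ι.ct) l') :
    LagD η θ (fromRows l₀ (l' * ι)) := by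
  obtain ⟨e, h1, s, α, γ, k⟩ := h
  obtain ⟨e', b, a, k'⟩ := h'
  refine ⟨?_, fromRows (s - s * (sy η θ * (ι.ct * (l'.ct * (b * ι))))) (b * ι),
    fromCols γ (α * a), ?_⟩
  · rw [conjTranspose_fromRows_eq_fromCols_conjTranspose, fromRows_mul, fromRows_mul_fromCols,
      ← fromBlocks_zero]
    refine eqv_blocks e (by simpa only [conjTranspose_mul, Hm.mul_assoc] using e') ?_
    have := Fa_r (Fa_tr h1) l'.ct
    simpa [sy, Hm.mul_add, Hm.add_mul, Hm.mul_assoc, -zsmul_eq_mul] using this.symm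
  · have a1 := congrArg (α * · * ι) k'
    have a2 := congrArg (· * (l'.ct * (b * ι))) (Fa_A h1 k)
    rw [sy_conj] at a1
    simp only [Hm.add_mul, Hm.mul_add, Hm.sub_mul, Hm.mul_assoc, Hm.mul_one] at a1 a2
    rw [conjTranspose_fromRows_eq_fromCols_conjTranspose, mul_fromCols, fromCols_mul_fromRows,
      fromCols_mul_fromRows, ← k, ← a1, a2]
    simp only [Hm.mul_sub, conjTranspose_mul, Hm.mul_assoc]
    abel

theorem SubD.sl (h : SubD η θ l₀ ι) (h' : SL η (ι * θ * ι.ct)) : SL η θ := by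
  obtain ⟨k, L, l', h'⟩ := h'
  refine ⟨k, _, _, (h.sum (hypF 𝒞 k)).lift (h'.eqv (Eqv.of_eq ?_))⟩
  simp [fromBlocks_multiply, fromBlocks_conjTranspose]

theorem SubD.z (hS : SFI 𝒞) (h : SubD η θ l₀ ι) (hz : Z η θ) (h' : NS η (ι * θ * ι.ct)) :
    Z η (ι * θ * ι.ct) := by
  have h1 := z_of_lag hS (hz.ns.sum h'.neg) (h.lag hz.ns)
  have h2 := ((h1.iso (UZ_comm _ _)).cancel hz).neg
  rwa [neg_neg] at h2

theorem SubD.comp {l : 𝒞.Hom I I} (h : SubD η θ l ι) {i : 𝒞.Hom K I} (hi : i * i.ct = 1)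
    (c1 : i.ct * i * θ = θ * (i.ct * i)) (c2 : i.ct * i * l = l * (i.ct * i))
    (c3 : ι * (i.ct * i) = ι) : SubD η (i * θ * i.ct) (i * l * i.ct) (ι * i.ct) := by
  obtain ⟨e, h1, s, α, γ, k⟩ := h
  have p1 : i * (i.ct * i) = i := by rw [Fa_r hi, Hm.one_mul]
  have p2 : (i.ct * i).ct = i.ct * i := by rw [conjTranspose_mul, conjTranspose_conjTranspose]
  have f1 : i * l * i.ct * i = i * l := by
    rw [Hm.mul_assoc, Hm.mul_assoc, ← c2, Fa_r p1]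
  have f2 : ι * i.ct * i = ι := by rw [Hm.mul_assoc, c3]
  have f3 : i.ct * i * sy η θ = sy η θ * (i.ct * i) := by
    have := Fa_ct c1
    rw [conjTranspose_mul θ, p2] at this
    rw [sy, Hm.mul_add, Hm.add_mul, c1, Hm.mul_smul, Hm.smul_mul, this]
  have f4 : i.ct * i * l.ct = l.ct * (i.ct * i) := by
    have := Fa_ct c2
    rw [conjTranspose_mul l, p2] at this
    exact this.symm
  have f5 : sy η (i * θ * i.ct) * (i * l * i.ct).ct = i * (sy η θ * l.ct) * i.ct := by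
    rw [sy_conj, Hm.mul_assoc, Fa_ct f1, conjTranspose_mul]
    simp only [Hm.mul_assoc]
  refine ⟨?_, ?_, i * s * i.ct, i * α, i * γ * i.ct, ?_⟩
  · rw [← Hm.mul_assoc, ← Hm.mul_assoc, f1, Hm.mul_assoc, Fa_ct f1]
    exact Fa_z e i
  · rw [f5, ← Hm.mul_assoc, ← Hm.mul_assoc, f2, h1, Hm.zero_mul]
  · have f6 : i * (sy η θ * l.ct) * i.ct * i = i * (sy η θ * l.ct) := by
      rw [Hm.mul_assoc, Hm.mul_assoc, Hm.mul_assoc, ← f4, ← Hm.mul_assoc (sy η θ), ← f3,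
        Hm.mul_assoc _ (sy η θ), Fa_r p1]
    have f7 : i.ct * (i * l * i.ct) = l * i.ct := by
      rw [← Hm.mul_assoc, ← Hm.mul_assoc, c2, Hm.mul_assoc, Hm.mul_assoc, hi, Hm.mul_one]
    have a := congrArg (i * · * i.ct) k
    simp only [Hm.mul_one, hi] at a
    rw [f5, Hm.mul_assoc i s, Fa_r f6, Hm.mul_assoc (i * γ), f7, ← a]
    simp only [Hm.mul_add, Hm.add_mul, Hm.mul_assoc]

theorem LagD.map (F : Fn 𝒞 𝒟) (h : LagD η θ l) : LagD η (F.map θ) (F.map l) := by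
  obtain ⟨e, b, a, k⟩ := h
  refine ⟨?_, F.map b, F.map a, ?_⟩
  · rw [← F.map_ct, ← F.map_mul, ← F.map_mul, ← F.mzero]
    exact F.meqv e
  · rw [← F.msy, ← F.map_ct, ← F.map_mul, ← F.map_mul, ← F.map_mul, ← F.map_add, k, F.map_one]

theorem SL.map (F : Fn 𝒞 𝒟) (h : SL η θ) : SL η (F.map θ) := by
  obtain ⟨k, L, l, h⟩ := h
  exact ⟨F.ob k, Lag.iso ⟨_, _, h.map F⟩ ((F.miso_sum _ _).trans ((Iso.refl _).sum F.miso_hyp))⟩

end Pool.Agent.Work.MP_9d1ffa_al.Ct.LL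
end

-- merged part: Pool.Agent.Work.MP_9d1ffa_al.LL.Lw
section
/-! Laurent extensions in which the degrees are bounded only level by level. -/

set_option linter.unusedSectionVars false
set_option linter.unusedVariables false

namespace Pool.Agent.Work.MP_9d1ffa_al.Ct.LL

variable {O : Type 1} [Add O] [Zero O]

/-- the category `𝒟` is a Laurent extension of `𝒞`, level by level -/
structure La (𝒞 𝒟 : SCat O) where
  e : ∀ {a b}, 𝒞.Hom a b →+ 𝒟.Hom a b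
  f : (ℕ → ℤ → Prop) → ∀ {a b}, 𝒟.Hom a b →+ 𝒟.Hom a b
  c : ∀ {a b}, 𝒟.Hom a b →+ 𝒞.Hom a b
  zz : ∀ a, (ℕ → ℤ) → 𝒟.Hom a a
  wo : O → (ℕ → ℕ) → O
  wi : ∀ a n, 𝒟.Hom (wo a n) a
  wc : ∀ a n, 𝒟.Hom a (wo a n)
  e_mul : ∀ {a b c} (x : 𝒞.Hom a b) (y : 𝒞.Hom b c), e (x * y) = e x * e y
  e_one : ∀ a, e (1 : 𝒞.Hom a a) = 1
  e_ct : ∀ {a b} (x : 𝒞.Hom a b), e x.ct = (e x).ct
  e_inl : ∀ a b, e (𝒞.inl a b) = 𝒟.inl a b
  e_inr : ∀ a b, e (𝒞.inr a b) = 𝒟.inr a b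
  f_f : ∀ P Q {a b} (x : 𝒟.Hom a b), f P (f Q x) = f (fun i n => P i n ∧ Q i n) x
  f_not : ∀ P {a b} (x : 𝒟.Hom a b), f P x + f (fun i n => ¬ P i n) x = x
  f_false : ∀ {a b} (x : 𝒟.Hom a b), f (fun _ _ => False) x = 0
  f_mul : ∀ P Q T {a b c} (x : 𝒟.Hom a b) (y : 𝒟.Hom b c), f P x = x → f Q y = y →
    (∀ i m n, P i m → Q i n → T i (m + n)) → f T (x * y) = x * y
  e_c : ∀ {a b} (x : 𝒟.Hom a b), e (c x) = f (fun _ n => n = 0) x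
  c_e : ∀ {a b} (x : 𝒞.Hom a b), c (e x) = x
  z_zero : ∀ a, zz a 0 = 1
  z_add : ∀ a m n, zz a m * zz a n = zz a (m + n)
  z_comm : ∀ {a b} n (x : 𝒟.Hom a b), zz a n * x = x * zz b n
  f_z : ∀ a n, f (fun i j => j = n i) (zz a n) = zz a n
  bdd : ∀ {a b} (x : 𝒟.Hom a b), ∃ N : ℕ → ℕ, f (fun i n => |n| ≤ N i) x = x
  f_wi : ∀ a n, f (fun i j => 0 ≤ j ∧ j < n i) (wi a n) = wi a n
  wi_wc : ∀ a n, c (wi a n * wc a n) = 1
  w_fd : ∀ {a b} n (x : 𝒟.Hom b a), e (c (x * wc a n)) * wi a n = f (fun i j => 0 ≤ j ∧ j < n i) x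

/-- a sequence of natural numbers as a sequence of integers -/
def up (n : ℕ → ℕ) : ℕ → ℤ := fun i => n i

theorem up_add (m n : ℕ → ℕ) : up (m + n) = up m + up n := funext fun i => Nat.cast_add _ _

theorem up_zero : up 0 = 0 := rfl

namespace La

variable {𝒞 𝒟 : SCat O} (Λ : La 𝒞 𝒟) {I J K L M : O}

/-- the part in the degrees satisfying `P` -/
def fd (P : ℕ → ℤ → Prop) (x : 𝒟.Hom I J) : 𝒟.Hom I J := Λ.f P x

/-- all degrees satisfy `P` -/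
def Dg (P : ℕ → ℤ → Prop) (x : 𝒟.Hom I J) : Prop := Λ.fd P x = x

/-- constants -/
def cst (x : 𝒞.Hom I J) : 𝒟.Hom I J := Λ.e x

/-- the constant term -/
def c0 (x : 𝒟.Hom I J) : 𝒞.Hom I J := Λ.c x

variable {Λ} {P Q T : ℕ → ℤ → Prop} {x y : 𝒟.Hom I J}

theorem fd_fd (x : 𝒟.Hom I J) : Λ.fd P (Λ.fd Q x) = Λ.fd (fun i n => P i n ∧ Q i n) x := Λ.f_f _ _ _

theorem fd_not (P : ℕ → ℤ → Prop) (x : 𝒟.Hom I J) : Λ.fd P x + Λ.fd (fun i n => ¬ P i n) x = x :=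
  Λ.f_not _ _

theorem fd_add (x y : 𝒟.Hom I J) : Λ.fd P (x + y) = Λ.fd P x + Λ.fd P y := map_add (Λ.f P) _ _

theorem fd_sub (x y : 𝒟.Hom I J) : Λ.fd P (x - y) = Λ.fd P x - Λ.fd P y := map_sub (Λ.f P) _ _

theorem fd_neg (x : 𝒟.Hom I J) : Λ.fd P (-x) = -Λ.fd P x := map_neg (Λ.f P) _

theorem dg_zero : Λ.Dg P (0 : 𝒟.Hom I J) := map_zero (Λ.f P)

theorem dg_fd (P : ℕ → ℤ → Prop) (x : 𝒟.Hom I J) : Λ.Dg P (Λ.fd P x) := by
  rw [Dg, fd_fd]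
  simp only [and_self]

theorem Dg.mono (h : Λ.Dg P x) (hP : ∀ i n, P i n → Q i n) : Λ.Dg Q x := by
  have : (fun i n => Q i n ∧ P i n) = P :=
    funext₂ fun i n => propext ⟨And.right, fun e => ⟨hP i n e, e⟩⟩
  rw [Dg, ← h, fd_fd, this]

theorem Dg.fd_zero (h : Λ.Dg P x) (hP : ∀ i n, P i n → ¬ Q i n) : Λ.fd Q x = 0 := by
  have : (fun i n => Q i n ∧ P i n) = fun _ _ => False :=
    funext₂ fun i n => propext ⟨fun e => hP i n e.2 e.1, False.elim⟩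
  rw [← h, fd_fd, this]
  exact Λ.f_false _

theorem Dg.and (h : Λ.Dg P x) (h' : Λ.Dg Q x) : Λ.Dg (fun i n => P i n ∧ Q i n) x := by
  rw [Dg, ← fd_fd, h', h]

theorem Dg.add (h : Λ.Dg P x) (h' : Λ.Dg P y) : Λ.Dg P (x + y) := by rw [Dg, fd_add, h, h']

theorem Dg.sub (h : Λ.Dg P x) (h' : Λ.Dg P y) : Λ.Dg P (x - y) := by rw [Dg, fd_sub, h, h']

theorem Dg.neg (h : Λ.Dg P x) : Λ.Dg P (-x) := by rw [Dg, fd_neg, h]

theorem Dg.mul {y : 𝒟.Hom J K} (hx : Λ.Dg P x) (hy : Λ.Dg Q y)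
    (h : ∀ i a b, P i a → Q i b → T i (a + b)) : Λ.Dg T (x * y) := Λ.f_mul _ _ _ _ _ hx hy h

theorem Dg.pmul {y : 𝒟.Hom J K} (hx : Λ.Dg (fun _ n => 0 ≤ n) x) (hy : Λ.Dg (fun _ n => 0 ≤ n) y) :
    Λ.Dg (fun _ n => 0 ≤ n) (x * y) :=
  hx.mul hy fun _ _ _ => add_nonneg

theorem fd_mul_right (x : 𝒟.Hom I J) {y : 𝒟.Hom J K} (hy : Λ.Dg Q y)
    (h : ∀ i a b, Q i b → (T i (a + b) ↔ P i a)) : Λ.fd T (x * y) = Λ.fd P x * y := by
  conv_lhs => rw [← fd_not (Λ := Λ) P x, Hm.add_mul, fd_add]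
  rw [((dg_fd P x).mul hy fun i a b ha hb => (h i a b hb).2 ha : Λ.Dg T _),
    ((dg_fd (fun i n => ¬ P i n) x).mul hy (T := fun i n => ¬ T i n) fun i a b ha hb e =>
      ha ((h i a b hb).1 e)).fd_zero fun _ _ e e' => e e', add_zero]

theorem fd_mul_left (hx : Λ.Dg Q x) (y : 𝒟.Hom J K)
    (h : ∀ i a b, Q i a → (T i (a + b) ↔ P i b)) : Λ.fd T (x * y) = x * Λ.fd P y := by
  conv_lhs => rw [← fd_not (Λ := Λ) P y, Hm.mul_add, fd_add]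
  rw [(hx.mul (dg_fd P y) fun i a b ha hb => (h i a b ha).2 hb : Λ.Dg T _),
    (hx.mul (dg_fd (fun i n => ¬ P i n) y) (T := fun i n => ¬ T i n) fun i a b ha hb e =>
      hb ((h i a b ha).1 e)).fd_zero fun _ _ e e' => e e', add_zero]

theorem cst_c0 (x : 𝒟.Hom I J) : Λ.cst (Λ.c0 x) = Λ.fd (fun _ n => n = 0) x := Λ.e_c _

theorem c0_cst (a : 𝒞.Hom I J) : Λ.c0 (Λ.cst a) = a := Λ.c_e _

theorem cst_inj {a b : 𝒞.Hom I J} (h : Λ.cst a = Λ.cst b) : a = b := by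
  rw [← c0_cst (Λ := Λ) a, h, c0_cst]

theorem dg_cst0 (a : 𝒞.Hom I J) : Λ.Dg (fun _ n => n = 0) (Λ.cst a) := by rw [Dg, ← cst_c0, c0_cst]

theorem dg_cst (a : 𝒞.Hom I J) : Λ.Dg (fun _ n => 0 ≤ n) (Λ.cst a) := (dg_cst0 a).mono fun _ _ h => h.ge

theorem cst_mul (a : 𝒞.Hom I J) (b : 𝒞.Hom J K) : Λ.cst (a * b) = Λ.cst a * Λ.cst b :=
  Λ.e_mul _ _

theorem cst_add (a b : 𝒞.Hom I J) : Λ.cst (a + b) = Λ.cst a + Λ.cst b := map_add Λ.e _ _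

theorem cst_sub (a b : 𝒞.Hom I J) : Λ.cst (a - b) = Λ.cst a - Λ.cst b := map_sub Λ.e _ _

theorem cst_zero : Λ.cst (0 : 𝒞.Hom I J) = 0 := map_zero Λ.e

theorem cst_one : Λ.cst (1 : 𝒞.Hom I I) = 1 := Λ.e_one _

theorem cst_inl : 𝒟.inl I J = Λ.cst (𝒞.inl I J) := (Λ.e_inl _ _).symm

theorem cst_inr : 𝒟.inr I J = Λ.cst (𝒞.inr I J) := (Λ.e_inr _ _).symm

theorem cst_ct (a : 𝒞.Hom I J) : (Λ.cst a).ct = Λ.cst a.ct := (Λ.e_ct _).symm

theorem cst_cols (a : 𝒞.Hom I J) (b : 𝒞.Hom I K) :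
    Λ.cst (fromCols a b) = fromCols (Λ.cst a) (Λ.cst b) := by
  rw [fromCols, fromCols, cst_add, cst_mul, cst_mul, ← cst_inl, ← cst_inr]

theorem c0_add (x y : 𝒟.Hom I J) : Λ.c0 (x + y) = Λ.c0 x + Λ.c0 y := map_add Λ.c _ _

theorem c0_sub (x y : 𝒟.Hom I J) : Λ.c0 (x - y) = Λ.c0 x - Λ.c0 y := map_sub Λ.c _ _

theorem c0_zero : Λ.c0 (0 : 𝒟.Hom I J) = 0 := map_zero Λ.c

theorem c0_one : Λ.c0 (1 : 𝒟.Hom I I) = 1 := by rw [← cst_one (Λ := Λ), c0_cst]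

theorem Dg.c0_zero (h : Λ.Dg P x) (h0 : ∀ i, ¬ P i 0) : Λ.c0 x = 0 :=
  cst_inj (Λ := Λ) (by rw [cst_c0, cst_zero, h.fd_zero (Q := (fun _ n => n = 0)) fun i n e e' => h0 i (e' ▸ e)])

theorem fd_cst (P : ℕ → ℤ → Prop) (a : 𝒞.Hom I J) (x : 𝒟.Hom J K) :
    Λ.fd P (Λ.cst a * x) = Λ.cst a * Λ.fd P x :=
  fd_mul_left (dg_cst0 a) x fun i a b ha => by rw [ha, zero_add]

theorem fd_cst' (P : ℕ → ℤ → Prop) (x : 𝒟.Hom I J) (a : 𝒞.Hom J K) :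
    Λ.fd P (x * Λ.cst a) = Λ.fd P x * Λ.cst a :=
  fd_mul_right x (dg_cst0 a) fun i a b hb => by rw [hb, add_zero]

theorem c0_cst_mul (a : 𝒞.Hom I J) (x : 𝒟.Hom J K) : Λ.c0 (Λ.cst a * x) = a * Λ.c0 x :=
  cst_inj (Λ := Λ) (by rw [cst_c0, fd_cst, cst_mul, cst_c0])

theorem c0_mul_cst (x : 𝒟.Hom I J) (a : 𝒞.Hom J K) : Λ.c0 (x * Λ.cst a) = Λ.c0 x * a :=
  cst_inj (Λ := Λ) (by rw [cst_c0, fd_cst', cst_mul, cst_c0])

theorem c0_cols (a : 𝒟.Hom I J) (b : 𝒟.Hom I K) :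
    Λ.c0 (fromCols a b) = fromCols (Λ.c0 a) (Λ.c0 b) := by
  rw [fromCols, fromCols, c0_add, cst_inl (Λ := Λ), cst_inr (Λ := Λ), c0_mul_cst, c0_mul_cst]

theorem c0_rows (a : 𝒟.Hom I K) (b : 𝒟.Hom J K) :
    Λ.c0 (fromRows a b) = fromRows (Λ.c0 a) (Λ.c0 b) := by
  rw [fromRows, fromRows, c0_add, cst_inl (Λ := Λ), cst_inr (Λ := Λ), cst_ct, cst_ct, c0_cst_mul,
    c0_cst_mul]

theorem c0_blocks (a : 𝒟.Hom I K) (b : 𝒟.Hom I L) (c : 𝒟.Hom J K) (d : 𝒟.Hom J L) :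
    Λ.c0 (fromBlocks a b c d) = fromBlocks (Λ.c0 a) (Λ.c0 b) (Λ.c0 c) (Λ.c0 d) := by
  rw [fromBlocks, fromBlocks, c0_rows, c0_cols, c0_cols]

theorem fd_cols (P : ℕ → ℤ → Prop) (a : 𝒟.Hom I J) (b : 𝒟.Hom I K) :
    Λ.fd P (fromCols a b) = fromCols (Λ.fd P a) (Λ.fd P b) := by
  rw [fromCols, fromCols, fd_add, cst_inl (Λ := Λ), cst_inr (Λ := Λ), fd_cst', fd_cst']

theorem fd_rows (P : ℕ → ℤ → Prop) (a : 𝒟.Hom I K) (b : 𝒟.Hom J K) :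
    Λ.fd P (fromRows a b) = fromRows (Λ.fd P a) (Λ.fd P b) := by
  rw [fromRows, fromRows, fd_add, cst_inl (Λ := Λ), cst_inr (Λ := Λ), cst_ct, cst_ct, fd_cst,
    fd_cst]

theorem c0_adj (P : ℕ → ℤ → Prop) (x : 𝒟.Hom I J) (y : 𝒟.Hom J K) :
    Λ.c0 (Λ.fd P x * y) = Λ.c0 (x * Λ.fd (fun i n => P i (-n)) y) := by
  have z1 : Λ.c0 (Λ.fd P x * Λ.fd (fun i n => ¬ P i (-n)) y) = 0 :=
    ((dg_fd _ x).mul (dg_fd _ y) (T := (fun _ n => n ≠ 0)) fun i a b ha hb e =>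
      hb (by rwa [← eq_neg_of_add_eq_zero_left e])).c0_zero fun _ e => e rfl
  have z2 : Λ.c0 (Λ.fd (fun i n => ¬ P i n) x * Λ.fd (fun i n => P i (-n)) y) = 0 :=
    ((dg_fd _ x).mul (dg_fd _ y) (T := (fun _ n => n ≠ 0)) fun i a b ha hb e =>
      ha (by rwa [eq_neg_of_add_eq_zero_left e])).c0_zero fun _ e => e rfl
  conv_lhs => rw [← fd_not (Λ := Λ) (fun i n => P i (-n)) y, Hm.mul_add, c0_add, z1]
  conv_rhs => rw [← fd_not (Λ := Λ) P x, Hm.add_mul, c0_add, z2]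

theorem dg_rows {a : 𝒟.Hom I K} {b : 𝒟.Hom J K} :
    Λ.Dg P (fromRows a b) ↔ Λ.Dg P a ∧ Λ.Dg P b := by
  rw [Dg, fd_rows, fromRows_ext_iff, Dg, Dg]

theorem dg_cols {a : 𝒟.Hom I J} {b : 𝒟.Hom I K} :
    Λ.Dg P (fromCols a b) ↔ Λ.Dg P a ∧ Λ.Dg P b := by
  rw [Dg, fd_cols, fromCols_ext_iff, Dg, Dg]

theorem dg_blocks {a : 𝒟.Hom I K} {b : 𝒟.Hom I L} {c : 𝒟.Hom J K} {d : 𝒟.Hom J L} :
    Λ.Dg P (fromBlocks a b c d) ↔ (Λ.Dg P a ∧ Λ.Dg P b) ∧ Λ.Dg P c ∧ Λ.Dg P d := by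
  rw [fromBlocks, dg_rows, dg_cols, dg_cols]

theorem exists_bdd (x : 𝒟.Hom I J) : ∃ N : ℕ → ℕ, Λ.Dg (fun i n => |n| ≤ N i) x := Λ.bdd x

theorem dg_one : Λ.Dg (fun _ n => 0 ≤ n) (1 : 𝒟.Hom I I) := cst_one (Λ := Λ) (I := I) ▸ dg_cst 1

theorem dg_zz (n : ℕ → ℤ) : Λ.Dg (fun i j => j = n i) (Λ.zz I n) := Λ.f_z _ _

theorem zz_zero : Λ.zz I 0 = 1 := Λ.z_zero _

theorem zz_mul (a b : ℕ → ℤ) : Λ.zz I a * Λ.zz I b = Λ.zz I (a + b) := Λ.z_add _ _ _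

theorem zz_comm (a : ℕ → ℤ) (x : 𝒟.Hom I J) : Λ.zz I a * x = x * Λ.zz J a := Λ.z_comm _ _

theorem KFr_zero (x y : 𝒞.Hom I 0) : x = y := (to_zero x).trans (to_zero y).symm

/-- the cokernel of `m` on the nonnegative part is stably free -/
def Fr (Λ : La 𝒞 𝒟) (m : 𝒟.Hom J I) (m' : 𝒟.Hom I J) : Prop :=
  m * m' = 1 ∧ m' * m = 1 ∧ Λ.Dg (fun _ n => 0 ≤ n) m ∧
  ∃ (a b : O) (B : 𝒟.Hom b I) (Ba : 𝒞.Hom b a) (D : 𝒟.Hom I b) (Da : 𝒞.Hom a b),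
    Λ.Dg (fun _ n => 0 ≤ n) B ∧ Λ.c0 (B * D) + Ba * Da = 1 ∧
    (∀ (L : O) (x : 𝒟.Hom L I) (y : 𝒞.Hom L a), Λ.Dg (fun _ n => 0 ≤ n) x →
      Λ.Dg (fun _ n => 0 ≤ n) ((x - Λ.cst (Λ.c0 (x * D) + y * Da) * B) * m') ∧
        (Λ.c0 (x * D) + y * Da) * Ba = y) ∧
    ∀ (L : O) (x : 𝒟.Hom L J), Λ.Dg (fun _ n => 0 ≤ n) x → Λ.c0 (x * (m * D)) = 0

variable {m : 𝒟.Hom J I} {m' : 𝒟.Hom I J} {n : 𝒟.Hom K J} {n' : 𝒟.Hom J K}

theorem Fr.comp (h : Λ.Fr m m') (h' : Λ.Fr n n') : Λ.Fr (n * m) (m' * n') := by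
  obtain ⟨m1, m2, m3, a, b, B, Ba, D, Da, p0, p1, p2, p3⟩ := h
  obtain ⟨n1, n2, n3, a₂, b₂, B₂, Ba₂, D₂, Da₂, q0, q1, q2, q3⟩ := h'
  have mm : ∀ {X : O} (y : 𝒟.Hom J X), m * (m' * y) = y :=
    fun y => by rw [← Hm.mul_assoc, m1, Hm.one_mul]
  refine ⟨?_, ?_, n3.pmul m3, a + a₂, b + b₂, fromRows B (B₂ * m), fromBlocks Ba 0 0 Ba₂,
    fromCols D (m' * D₂ - D * Λ.cst (Λ.c0 (B * (m' * D₂)))),
    fromBlocks Da (-(Da * Λ.c0 (B * (m' * D₂)))) 0 Da₂, dg_rows.2 ⟨p0, q0.pmul m3⟩, ?_,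
    fun L x y hx => ?_, fun L x hx => ?_⟩
  · rw [Hm.mul_assoc, mm, n1]
  · rw [Hm.mul_assoc, ← Hm.mul_assoc n', n2, Hm.one_mul, m2]
  · have e := p3 _ B₂ q0
    rw [fromRows_mul_fromCols, c0_blocks, fromBlocks_multiply, fromBlocks_add, ← fromBlocks_one]
    simp only [Hm.mul_sub, c0_sub, Hm.mul_assoc, mm, Hm.zero_mul, Hm.mul_zero,
      add_zero, zero_add, Hm.mul_neg, e, neg_zero]
    rw [← Hm.mul_assoc B D, ← Hm.mul_assoc m D, ← Hm.mul_assoc B₂ (m * D), c0_mul_cst,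
      c0_mul_cst, e, Hm.zero_mul, sub_zero, p1, q1, ← Hm.mul_assoc Ba, ← sub_eq_add_neg,
      sub_sub, ← Hm.add_mul, p1, Hm.one_mul, sub_self]
  · obtain ⟨r1, r2⟩ := p2 L x y.toCols₁ hx
    obtain ⟨r3, r4⟩ := q2 L _ y.toCols₂ r1
    have e : Λ.c0 (x * fromCols D (m' * D₂ - D * Λ.cst (Λ.c0 (B * (m' * D₂))))) +
        y * fromBlocks Da (-(Da * Λ.c0 (B * (m' * D₂)))) 0 Da₂ =
        fromCols (Λ.c0 (x * D) + y.toCols₁ * Da)
          (Λ.c0 ((x - Λ.cst (Λ.c0 (x * D) + y.toCols₁ * Da) * B) * m' * D₂) +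
            y.toCols₂ * Da₂) := by
      conv_lhs => rw [← fromCols_toCols y]
      rw [mul_fromCols, c0_cols, fromCols_mul_fromBlocks, fromCols_add]
      simp only [Hm.mul_sub, Hm.sub_mul, c0_sub, Hm.mul_assoc, c0_cst_mul,
        Hm.mul_zero, add_zero, Hm.add_mul, Hm.mul_neg]
      rw [← Hm.mul_assoc x D, c0_mul_cst]
      congr 1
      abel
    rw [e, cst_cols, fromCols_mul_fromRows, fromCols_mul_fromBlocks, Hm.mul_zero,
      Hm.mul_zero, add_zero, zero_add, r2, r4, fromCols_toCols]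
    refine ⟨?_, rfl⟩
    convert r3 using 1
    simp only [Hm.sub_mul, Hm.add_mul, Hm.mul_assoc, mm, sub_sub]
  · have e := p3 _ _ (hx.pmul n3)
    rw [mul_fromCols, mul_fromCols, c0_cols, ← fromCols_zero]
    simp only [Hm.mul_sub, c0_sub, Hm.mul_assoc, mm] at e ⊢
    rw [q3 _ x hx, ← Hm.mul_assoc m, ← Hm.mul_assoc n (m * D), ← Hm.mul_assoc x _ (Λ.cst _),
      c0_mul_cst, e, Hm.zero_mul, sub_zero]

theorem Fr.cancel (h : Λ.Fr (n * m) (m' * n')) (h' : Λ.Fr n n') (m1 : m * m' = 1)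
    (m2 : m' * m = 1) (m3 : Λ.Dg (fun _ n => 0 ≤ n) m) : Λ.Fr m m' := by
  obtain ⟨-, -, -, a, b, B, Ba, D, Da, p0, p1, p2, p3⟩ := h
  obtain ⟨n1, n2, n3, a₂, b₂, B₂, Ba₂, D₂, Da₂, q0, q1, q2, q3⟩ := h'
  have mm : ∀ {X : O} (y : 𝒟.Hom J X), m * (m' * y) = y :=
    fun y => by rw [← Hm.mul_assoc, m1, Hm.one_mul]
  have nn : ∀ {X : O} (y : 𝒟.Hom J X), n' * (n * y) = y :=
    fun y => by rw [← Hm.mul_assoc, n2, Hm.one_mul]
  have k0 : ∀ {L : O} (x : 𝒟.Hom L J), Λ.Dg (fun _ n => 0 ≤ n) (x * n') → Λ.c0 (x * (m * D)) = 0 :=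
    fun x hx => by
      have := p3 _ _ hx
      rwa [Hm.mul_assoc, Hm.mul_assoc, nn] at this
  have k1 : ∀ {L : O} (x : 𝒟.Hom L I), Λ.c0 (x * (m' * Λ.fd (fun _ n => 0 < n) (m * D))) =
      Λ.c0 ((x - Λ.fd (fun _ n => 0 ≤ n) (x * m') * m) * D) := fun x => by
    have e : x - Λ.fd (fun _ n => 0 ≤ n) (x * m') * m = Λ.fd (fun _ n => ¬ 0 ≤ n) (x * m') * m := by
      rw [sub_eq_iff_eq_add', ← Hm.add_mul, fd_not, Hm.mul_assoc, m2, Hm.mul_one]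
    rw [e, Hm.mul_assoc, c0_adj, Hm.mul_assoc]
    simp only [Left.nonneg_neg_iff, not_le]
  refine ⟨m1, m2, m3, b₂ + a, b + a₂, fromRows B 0,
    fromBlocks (Λ.c0 (Λ.fd (fun _ n => 0 ≤ n) (B * m') * D₂)) Ba Da₂ 0,
    fromCols (m' * Λ.fd (fun _ n => 0 < n) (m * D)) 0,
    fromBlocks (Λ.c0 (B₂ * (m * D))) Ba₂ Da 0, dg_rows.2 ⟨p0, dg_zero⟩, ?_,
    fun L x y hx => ?_, fun L x hx => ?_⟩
  · obtain ⟨r1, r2⟩ := q2 _ _ 0 (dg_fd (Λ := Λ) (fun _ n => 0 ≤ n) (B * m'))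
    obtain ⟨r3, r4⟩ := q2 a₂ 0 1 dg_zero
    have r5 := k0 _ r1
    have r6 := k0 _ r3
    rw [Hm.sub_mul, c0_sub] at r6
    simp only [Hm.zero_mul, add_zero, zero_add, c0_zero, Hm.one_mul, Hm.sub_mul, c0_sub,
      Hm.mul_assoc, c0_cst_mul] at r2 r4 r5 r6
    rw [zero_sub, neg_eq_zero] at r6
    rw [fromRows_mul_fromCols, c0_blocks, fromBlocks_multiply, fromBlocks_add, ← fromBlocks_one, k1]
    simp only [Hm.zero_mul, Hm.mul_zero, add_zero, zero_add, c0_zero, r2, r4, r6,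
      Hm.sub_mul, c0_sub, Hm.mul_assoc]
    rw [← sub_eq_zero.1 r5, ← add_assoc, sub_add_cancel, p1]
  · have hx' : Λ.Dg (fun _ n => 0 ≤ n) (x - Λ.fd (fun _ n => 0 ≤ n) (x * m') * m + Λ.cst y.toCols₁ * B₂ * m) :=
      (hx.sub ((dg_fd _ _).pmul m3)).add (((dg_cst _).pmul q0).pmul m3)
    obtain ⟨r1, r2⟩ := p2 L _ y.toCols₂ hx'
    have e : Λ.c0 (x * fromCols (m' * Λ.fd (fun _ n => 0 < n) (m * D)) (0 : 𝒟.Hom I a₂)) +
        y * fromBlocks (Λ.c0 (B₂ * (m * D))) Ba₂ Da 0 =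
        fromCols (Λ.c0 ((x - Λ.fd (fun _ n => 0 ≤ n) (x * m') * m + Λ.cst y.toCols₁ * B₂ * m) * D) +
          y.toCols₂ * Da) (y.toCols₁ * Ba₂) := by
      conv_lhs => rw [← fromCols_toCols y]
      rw [mul_fromCols, c0_cols, fromCols_mul_fromBlocks, fromCols_add, k1]
      simp only [Hm.mul_zero, c0_zero, add_zero, zero_add, Hm.add_mul, c0_add,
        Hm.mul_assoc, c0_cst_mul, add_assoc]
    rw [e]
    generalize Λ.c0 ((x - Λ.fd (fun _ n => 0 ≤ n) (x * m') * m + Λ.cst y.toCols₁ * B₂ * m) * D) +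
      y.toCols₂ * Da = c at r1 r2 ⊢
    set p := (x - Λ.fd (fun _ n => 0 ≤ n) (x * m') * m + Λ.cst y.toCols₁ * B₂ * m - Λ.cst c * B) * (m' * n')
      with hp
    have e1 : Λ.cst c * (B * m') =
        x * m' - Λ.fd (fun _ n => 0 ≤ n) (x * m') + (Λ.cst y.toCols₁ * B₂ - p * n) := by
      rw [hp]
      simp only [Hm.mul_assoc, n2, Hm.mul_one, Hm.sub_mul, Hm.add_mul, m1]
      abel
    have e2 : Λ.Dg (fun _ n => 0 ≤ n) (Λ.cst y.toCols₁ * B₂ - p * n) :=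
      ((dg_cst _).pmul q0).sub (r1.pmul n3)
    rw [cst_cols, fromCols_mul_fromRows, fromCols_mul_fromBlocks, Hm.mul_zero,
      Hm.mul_zero, add_zero, add_zero, r2]
    refine ⟨?_, ?_⟩
    · rw [Hm.sub_mul, Hm.mul_assoc, e1, ← sub_sub, sub_sub_cancel]
      exact (dg_fd _ _).sub e2
    · have e3 : c * Λ.c0 (Λ.fd (fun _ n => 0 ≤ n) (B * m') * D₂) = y.toCols₁ * Λ.c0 (B₂ * D₂) := by
        rw [← c0_cst_mul, ← Hm.mul_assoc, ← fd_cst, e1, fd_add, fd_sub, dg_fd, sub_self,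
          zero_add, e2, Hm.sub_mul, c0_sub, Hm.mul_assoc, Hm.mul_assoc, q3 _ _ r1,
          sub_zero, c0_cst_mul]
      rw [e3, Hm.mul_assoc, ← Hm.mul_add, q1, Hm.mul_one, fromCols_toCols]
  · rw [mul_fromCols, mul_fromCols, c0_cols, mm, Hm.mul_zero, Hm.mul_zero, c0_zero,
      (hx.mul (dg_fd _ _) (T := (fun _ n => 0 < n)) fun _ _ _ => add_pos_of_nonneg_of_pos).c0_zero
        (fun _ => lt_irrefl _), fromCols_zero]

theorem fr_unit (m1 : m * m' = 1) (m2 : m' * m = 1) (m3 : Λ.Dg (fun _ n => 0 ≤ n) m)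
    (m4 : Λ.Dg (fun _ n => 0 ≤ n) m') : Λ.Fr m m' :=
  ⟨m1, m2, m3, 0, 0, 0, 0, 0, 0,
    dg_zero, KFr_zero _ _, fun L x y hx =>
      ⟨by rw [Hm.mul_zero, sub_zero]; exact hx.pmul m4, KFr_zero _ _⟩,
    fun _ _ _ => KFr_zero _ _⟩

theorem Fr.destab (h : Λ.Fr (fromBlocks m 0 0 (1 : 𝒟.Hom K K)) (fromBlocks m' 0 0 1)) :
    Λ.Fr m m' := by
  obtain ⟨m1, m2, m3, a, b, B, Ba, D, Da, p0, p1, p2, p3⟩ := h
  rw [← fromCols_toCols B] at p0 p1 p2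
  rw [← fromRows_toRows D] at p1 p2 p3
  rw [fromBlocks_multiply, ← fromBlocks_one, fromBlocks_inj] at m1 m2
  simp only [Hm.mul_zero, add_zero] at m1 m2
  simp only [fromBlocks_mul_fromRows, Hm.zero_mul, add_zero, zero_add, Hm.one_mul] at p3
  refine ⟨m1.1, m2.1, (dg_blocks.1 m3).1.1, a, b, B.toCols₁, Ba, D.toRows₁, Da, (dg_cols.1 p0).1, ?_, fun L x y hx => ?_,
    fun L x hx => ?_⟩
  · have e := p3 _ (fromCols 0 B.toCols₂) (dg_cols.2 ⟨dg_zero, (dg_cols.1 p0).2⟩)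
    rw [fromCols_mul_fromRows, Hm.zero_mul, zero_add] at e
    rwa [fromCols_mul_fromRows, c0_add, e, add_zero] at p1
  · obtain ⟨r1, r2⟩ := p2 L (fromCols x 0) y (dg_cols.2 ⟨hx, dg_zero⟩)
    rw [fromCols_mul_fromRows, Hm.zero_mul, add_zero] at r1 r2
    rw [Hm.sub_mul, mul_fromCols, fromCols_mul_fromBlocks, fromCols_mul_fromBlocks,
      sub_eq_add_neg, fromCols_neg, fromCols_add] at r1
    refine ⟨?_, r2⟩
    simpa only [Hm.mul_zero, add_zero, ← sub_eq_add_neg, Hm.sub_mul]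
      using (dg_cols.1 r1).1
  · simpa only [fromCols_mul_fromRows, Hm.zero_mul, add_zero]
      using p3 L (fromCols x 0) (dg_cols.2 ⟨hx, dg_zero⟩)

theorem Fr.stab (h : Λ.Fr m m') :
    Λ.Fr (fromBlocks m 0 0 (1 : 𝒟.Hom K K)) (fromBlocks m' 0 0 1) := by
  obtain ⟨m1, m2, m3, a, b, B, Ba, D, Da, p0, p1, p2, p3⟩ := h
  refine ⟨?_, ?_, dg_blocks.2 ⟨⟨m3, dg_zero⟩, dg_zero, dg_one⟩, a, b,
    fromCols B 0, Ba, fromRows D 0, Da, dg_cols.2 ⟨p0, dg_zero⟩, ?_,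
    fun L x y hx => ?_, fun L x hx => ?_⟩
  · simp [fromBlocks_multiply, m1]
  · simp [fromBlocks_multiply, m2]
  · rwa [fromCols_mul_fromRows, Hm.mul_zero, add_zero]
  · rw [← fromCols_toCols x] at hx ⊢
    obtain ⟨r1, r2⟩ := p2 L _ y (dg_cols.1 hx).1
    rw [fromCols_mul_fromRows, Hm.mul_zero, add_zero, Hm.sub_mul, mul_fromCols,
      fromCols_mul_fromBlocks, fromCols_mul_fromBlocks, sub_eq_add_neg, fromCols_neg, fromCols_add]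
    refine ⟨dg_cols.2 ⟨?_, ?_⟩, r2⟩
    · simpa only [Hm.mul_zero, add_zero, ← sub_eq_add_neg, Hm.sub_mul] using r1
    · simpa only [Hm.mul_zero, add_zero, zero_add, Hm.mul_one, neg_zero]
        using (dg_cols.1 hx).2
  · rw [← fromCols_toCols x] at hx ⊢
    simpa only [fromBlocks_mul_fromRows, fromCols_mul_fromRows, Hm.mul_zero, Hm.zero_mul,
      add_zero] using p3 L _ (dg_cols.1 hx).1

theorem dg_wi (n : ℕ → ℕ) : Λ.Dg (fun _ n => 0 ≤ n) (Λ.wi I n) :=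
  Dg.mono (Λ.f_wi I n) fun _ _ h => h.1

theorem KWin_fd (n : ℕ → ℕ) (x : 𝒟.Hom L I) :
    Λ.cst (Λ.c0 (x * Λ.wc I n)) * Λ.wi I n = Λ.fd (fun i j => 0 ≤ j ∧ j < n i) x := Λ.w_fd n x

theorem win_repr (n : ℕ → ℕ) {x : 𝒟.Hom L I} (h : Λ.Dg (fun i j => 0 ≤ j ∧ j < n i) x) :
    Λ.cst (Λ.c0 (x * Λ.wc I n)) * Λ.wi I n = x := (KWin_fd n x).trans h

/-- the idempotent of the window -/
def win (Λ : La 𝒞 𝒟) (n : ℕ → ℕ) (m : 𝒟.Hom J I) (m' : 𝒟.Hom I J) :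
    𝒞.Hom (Λ.wo I n) (Λ.wo I n) :=
  Λ.c0 (Λ.fd (fun _ n => n < 0) (Λ.wi I n * m') * m * Λ.wc I n)

variable {m : 𝒟.Hom J I} {m' : 𝒟.Hom I J} {n : ℕ → ℕ}

theorem KWin_pi (m2 : m' * m = 1) (x : 𝒟.Hom L I) :
    Λ.fd (fun _ n => n < 0) (x * m') * m = x - Λ.fd (fun _ n => 0 ≤ n) (x * m') * m := by
  have := fd_not (Λ := Λ) (fun _ n => n < 0) (x * m')
  simp only [not_lt] at this
  rw [eq_sub_iff_add_eq, ← Hm.add_mul, this, Hm.mul_assoc, m2, Hm.mul_one]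

theorem KWin_repr (m2 : m' * m = 1) (m3 : Λ.Dg (fun _ n => 0 ≤ n) m) (m4 : Λ.Dg (fun i j => j ≤ n i) m)
    {x : 𝒟.Hom L I} (hx : Λ.Dg (fun _ n => 0 ≤ n) x) :
    Λ.cst (Λ.c0 (Λ.fd (fun _ n => n < 0) (x * m') * m * Λ.wc I n)) * Λ.wi I n =
      Λ.fd (fun _ n => n < 0) (x * m') * m := by
  refine win_repr n (Dg.and ?_ ((dg_fd _ _).mul m4 fun i a b ha hb => by omega))
  rw [KWin_pi m2]
  exact hx.sub ((dg_fd _ _).pmul m3)

theorem KWin_mul (m1 : m * m' = 1) (m2 : m' * m = 1) (m3 : Λ.Dg (fun _ n => 0 ≤ n) m) (m4 : Λ.Dg (fun i j => j ≤ n i) m)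
    {x : 𝒟.Hom L I} (hx : Λ.Dg (fun _ n => 0 ≤ n) x) :
    Λ.c0 (Λ.fd (fun _ n => n < 0) (x * m') * m * Λ.wc I n) * Λ.win n m m' =
      Λ.c0 (Λ.fd (fun _ n => n < 0) (x * m') * m * Λ.wc I n) := by
  rw [win, ← c0_cst_mul, ← Hm.mul_assoc, ← Hm.mul_assoc, ← fd_cst,
    ← Hm.mul_assoc (Λ.cst _), KWin_repr m2 m3 m4 hx, Hm.mul_assoc _ m m', m1,
    Hm.mul_one, dg_fd]

theorem win_idem (m1 : m * m' = 1) (m2 : m' * m = 1) (m3 : Λ.Dg (fun _ n => 0 ≤ n) m)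
    (m4 : Λ.Dg (fun i j => j ≤ n i) m) : Λ.win n m m' * Λ.win n m m' = Λ.win n m m' :=
  KWin_mul m1 m2 m3 m4 (dg_wi n)

theorem fr_win (m1 : m * m' = 1) (m2 : m' * m = 1) (m3 : Λ.Dg (fun _ n => 0 ≤ n) m) (m4 : Λ.Dg (fun i j => j ≤ n i) m)
    (h : SFIdem (Λ.win n m m')) : Λ.Fr m m' := by
  obtain ⟨a, b, U, W, h1, h2⟩ := h
  rw [← fromCols_toCols U, ← fromRows_toRows W] at h1 h2
  rw [fromCols_mul_fromRows] at h1
  rw [fromRows_mul_fromCols, fromBlocks_inj] at h2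
  obtain ⟨w1, w2, w3, w4⟩ := h2
  have k : ∀ {L : O} (x : 𝒟.Hom L I),
      Λ.c0 (x * (m' * Λ.fd (fun _ n => 0 < n) (m * Λ.wc I n) * Λ.cst W.toRows₁)) =
      Λ.c0 (Λ.fd (fun _ n => n < 0) (x * m') * m * Λ.wc I n) * W.toRows₁ := fun x => by
    rw [← Hm.mul_assoc, c0_mul_cst, Hm.mul_assoc _ m, c0_adj, Hm.mul_assoc]
    simp only [Left.neg_neg_iff]
  refine ⟨m1, m2, m3, a, b, Λ.cst U.toCols₁ * Λ.wi I n, U.toCols₂, m' * Λ.fd (fun _ n => 0 < n) (m * Λ.wc I n) * Λ.cst W.toRows₁,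
    W.toRows₂, (dg_cst _).pmul (dg_wi n), ?_, fun L x y hx => ?_, fun L x hx => ?_⟩
  · rw [k, Hm.mul_assoc (Λ.cst _), fd_cst, Hm.mul_assoc (Λ.cst _),
      Hm.mul_assoc (Λ.cst _), c0_cst_mul, ← win, ← w1, ← h1]
    congr 1
    rw [← Hm.mul_assoc, Hm.mul_assoc, eq_sub_of_add_eq h1, Hm.mul_sub, Hm.mul_one,
      Hm.sub_mul, Hm.one_mul, Hm.mul_assoc, ← Hm.mul_assoc W.toRows₂, w4,
      Hm.one_mul, sub_self, sub_zero]
  · rw [k, ← Hm.mul_assoc (Λ.cst _), ← cst_mul, Hm.add_mul, Hm.add_mul,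
      Hm.mul_assoc _ W.toRows₁, Hm.mul_assoc _ W.toRows₁, Hm.mul_assoc y,
      Hm.mul_assoc y, w1, w2, w3, w4, KWin_mul m1 m2 m3 m4 hx, Hm.mul_zero, Hm.mul_zero,
      add_zero, zero_add, Hm.mul_one, KWin_repr m2 m3 m4 hx, KWin_pi m2, sub_sub_cancel,
      Hm.mul_assoc, m1, Hm.mul_one]
    exact ⟨dg_fd _ _, rfl⟩
  · rw [← Hm.mul_assoc, k, Hm.mul_assoc x, m1, Hm.mul_one,
      hx.fd_zero fun _ _ e e' => not_lt.2 e e', Hm.zero_mul, Hm.zero_mul, c0_zero,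
      Hm.zero_mul]

theorem fr_zz (n : ℕ → ℕ) : Λ.Fr (Λ.zz I (up n)) (Λ.zz I (-up n)) := by
  refine ⟨by rw [zz_mul, add_neg_cancel, zz_zero], by rw [zz_mul, neg_add_cancel, zz_zero],
    (dg_zz _).mono fun _ _ h => h ▸ Int.natCast_nonneg _, 0, Λ.wo I n, Λ.wi I n, 0, Λ.wc I n, 0,
    dg_wi n, ?_, fun L x y hx => ⟨?_, KFr_zero _ _⟩, fun L x hx => ?_⟩
  · rw [Hm.mul_zero, add_zero]
    exact Λ.wi_wc I n
  · rw [Hm.mul_zero, add_zero, KWin_fd,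
      sub_eq_of_eq_add' (fd_not (Λ := Λ) (fun i j => 0 ≤ j ∧ j < n i) x).symm, ← hx, fd_fd]
    exact (dg_fd _ _).mul (dg_zz _) fun i a b ha hb => by
      simp only [Pi.neg_apply, up] at hb
      omega
  · have h1 : Λ.Dg (fun i j => (n i : ℤ) ≤ j) (x * Λ.zz I (up n)) :=
      hx.mul (dg_zz _) fun i a b ha hb => by
        simp only [up] at hb
        omega
    have h2 := KWin_fd (Λ := Λ) n (x * Λ.zz I (up n))
    rw [h1.fd_zero fun i j e e' => by omega] at h2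
    have h3 := congrArg (fun t => Λ.c0 (t * Λ.wc I n)) h2
    simp only [Hm.mul_assoc, c0_cst_mul, Hm.zero_mul, c0_zero] at h3
    rwa [show Λ.c0 (Λ.wi I n * Λ.wc I n) = 1 from Λ.wi_wc I n, Hm.mul_one] at h3

/-- the cokernel of the standard matrix of an idempotent -/
theorem Fr.sf {E : 𝒞.Hom I I} (hE : E * E = E)
    (h : Λ.Fr (Λ.zz I 1 * Λ.cst E + Λ.cst (1 - E)) (Λ.zz I (-1) * Λ.cst E + Λ.cst (1 - E))) :
    SFIdem E := by
  obtain ⟨m1, m2, m3, a, b, B, Ba, D, Da, p0, p1, p2, p3⟩ := h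
  have k : ∀ {L : O} (x : 𝒟.Hom L I),
      Λ.Dg (fun _ n => 0 ≤ n) (x * (Λ.zz I (-1) * Λ.cst E + Λ.cst (1 - E))) → Λ.c0 x * E = 0 := fun x hx => by
    have := ((hx.pmul (dg_cst E)).mul (dg_zz 1) (T := (fun _ n => 0 < n)) fun i a b ha hb => by
      simp only [Pi.one_apply] at hb
      omega).c0_zero
      (fun _ => lt_irrefl _)
    rwa [Hm.mul_assoc x, Hm.add_mul, Hm.mul_assoc _ (Λ.cst E), ← cst_mul, ← cst_mul, hE,
      Hm.sub_mul, Hm.one_mul, hE, sub_self, cst_zero, add_zero, Hm.mul_assoc,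
      ← zz_comm, ← Hm.mul_assoc (Λ.zz I 1), zz_mul, add_neg_cancel, zz_zero, Hm.one_mul,
      c0_mul_cst] at this
  obtain ⟨r1, r2⟩ := p2 I (Λ.cst E) 0 (dg_cst E)
  obtain ⟨r3, r4⟩ := p2 a 0 1 dg_zero
  have r5 := k _ r1
  have r6 := k _ r3
  simp only [Hm.zero_mul, add_zero, zero_add, c0_zero, Hm.one_mul, c0_sub, c0_cst_mul,
    c0_cst, Hm.sub_mul, hE] at r2 r4 r5 r6
  rw [zero_sub, neg_eq_zero] at r6
  have r7 : Λ.c0 (B * D) = Λ.c0 B * E * Λ.c0 D := by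
    have h1 : Λ.Dg (fun _ n => 0 ≤ n) ((B - Λ.cst (Λ.c0 B * E)) *
        (Λ.zz I (-1) * Λ.cst E + Λ.cst (1 - E))) := by
      rw [Hm.mul_add]
      refine Dg.add ?_ ((p0.sub (dg_cst _)).pmul (dg_cst _))
      rw [zz_comm, ← Hm.mul_assoc, Hm.sub_mul, ← cst_mul, Hm.mul_assoc _ E, hE, cst_mul,
        ← Hm.sub_mul, cst_c0, sub_eq_of_eq_add' (fd_not (Λ := Λ) (fun _ n => n = 0) B).symm, ← p0, fd_fd]
      exact ((dg_fd _ _).mul (dg_cst E) (T := (fun _ n => 0 < n)) fun i a b ha hb => by omega).mul (dg_zz _)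
        fun i a b ha hb => by
          simp only [Pi.neg_apply, Pi.one_apply] at hb
          omega
    have := p3 _ _ h1
    rwa [Hm.mul_assoc, ← Hm.mul_assoc _ _ D, m2, Hm.one_mul, Hm.sub_mul, c0_sub,
      c0_cst_mul, sub_eq_zero] at this
  refine ⟨a, b,
    fromCols (Λ.c0 B * E) Ba, fromRows (E * Λ.c0 D) Da, ?_, ?_⟩
  · rw [fromCols_mul_fromRows, ← p1, r7, Hm.mul_assoc, ← Hm.mul_assoc E, hE,
      Hm.mul_assoc]
  · rw [fromRows_mul_fromCols, r2, r4, ← Hm.mul_assoc, ← Hm.mul_assoc, r6,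
      ← sub_eq_zero.1 r5]

/-- the boundary class of the isomorphism is trivial -/
def Tr (Λ : La 𝒞 𝒟) (u : 𝒟.Hom I J) : Prop :=
  ∃ (u' : 𝒟.Hom J I) (N : ℕ → ℕ), Λ.Fr (Λ.zz I (up N) * u) (u' * Λ.zz I (-up N))

variable {u : 𝒟.Hom I J} {u' : 𝒟.Hom J I}

theorem KT_can (a : ℕ → ℤ) (x : 𝒟.Hom I L) : Λ.zz I (-a) * (Λ.zz I a * x) = x := by
  rw [← Hm.mul_assoc, zz_mul, neg_add_cancel, zz_zero, Hm.one_mul]

theorem KT_can' (a : ℕ → ℤ) (x : 𝒟.Hom I L) : Λ.zz I a * (Λ.zz I (-a) * x) = x := by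
  rw [← Hm.mul_assoc, zz_mul, add_neg_cancel, zz_zero, Hm.one_mul]

theorem KT_inv (a : ℕ → ℤ) : (Λ.zz I a * u * (u' * Λ.zz I (-a)) = 1 ↔ u * u' = 1) ∧
    (u' * Λ.zz I (-a) * (Λ.zz I a * u) = 1 ↔ u' * u = 1) := by
  rw [Hm.mul_assoc u', KT_can, Hm.mul_assoc, ← Hm.mul_assoc u, ← zz_comm, KT_can']
  exact ⟨Iff.rfl, Iff.rfl⟩

theorem Fr.tr (h : Λ.Fr u u') : Λ.Tr u :=
  ⟨u', 0, by rwa [up_zero, neg_zero, zz_zero, Hm.one_mul, Hm.mul_one]⟩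

theorem Tr.fr (h : Λ.Tr u) (h1 : u * u' = 1) (h0 : Λ.Dg (fun _ n => 0 ≤ n) u) : Λ.Fr u u' := by
  obtain ⟨w, N, h⟩ := h
  have a1 := (KT_inv _).1.1 h.1
  have a2 := (KT_inv _).2.1 h.2.1
  obtain rfl : w = u' := by rw [← Hm.mul_one w, ← h1, ← Hm.mul_assoc, a2, Hm.one_mul]
  exact h.cancel (fr_zz N) a1 a2 h0

theorem exists_pos (u : 𝒟.Hom I J) : ∃ N : ℕ → ℕ, Λ.Dg (fun _ n => 0 ≤ n) (Λ.zz I (up N) * u) := by
  obtain ⟨N, h⟩ := exists_bdd (Λ := Λ) u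
  exact ⟨N, (dg_zz _).mul h fun i a b ha hb => by
    have := abs_le.1 hb
    simp only [up] at ha
    omega⟩

theorem Tr.mul {w : 𝒟.Hom J K} (h : Λ.Tr u) (h' : Λ.Tr w) : Λ.Tr (u * w) := by
  obtain ⟨u', N, h⟩ := h
  obtain ⟨w', M, h'⟩ := h'
  refine ⟨w' * u', N + M, ?_⟩
  convert h'.comp h using 1
  · rw [Hm.mul_assoc, ← Hm.mul_assoc u (Λ.zz J (up M)), ← zz_comm, Hm.mul_assoc,
      ← Hm.mul_assoc (Λ.zz I (up N)), zz_mul, up_add]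
  · rw [Hm.mul_assoc, Hm.mul_assoc, ← Hm.mul_assoc (Λ.zz J _), zz_comm,
      Hm.mul_assoc, zz_mul, up_add, neg_add_rev]

theorem Tr.inv (h : Λ.Tr u) (h1 : u * u' = 1) : Λ.Tr u' := by
  obtain ⟨w, N, h⟩ := h
  have a2 := (KT_inv _).2.1 h.2.1
  obtain rfl : w = u' := by rw [← Hm.mul_one w, ← h1, ← Hm.mul_assoc, a2, Hm.one_mul]
  obtain ⟨M, hM⟩ := exists_pos (Λ := Λ) w
  refine ⟨u, M, Fr.cancel ?_ h ((KT_inv _).1.2 a2) ((KT_inv _).2.2 h1) hM⟩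
  convert fr_zz (Λ := Λ) (I := I) (N + M) using 1
  · rw [Hm.mul_assoc, ← Hm.mul_assoc u, ← zz_comm, Hm.mul_assoc, h1, Hm.mul_one,
      zz_mul, up_add]
  · rw [← zz_comm, Hm.mul_assoc, ← Hm.mul_assoc u, h1, Hm.one_mul, zz_mul, up_add,
      neg_add_rev]

theorem tr_unit (h1 : u * u' = 1) (h2 : u' * u = 1) (h3 : Λ.Dg (fun _ n => 0 ≤ n) u)
    (h4 : Λ.Dg (fun _ n => 0 ≤ n) u') : Λ.Tr u :=
  (fr_unit h1 h2 h3 h4).tr

theorem tr_cst {a : 𝒞.Hom I J} {a' : 𝒞.Hom J I} (h1 : a * a' = 1) (h2 : a' * a = 1) :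
    Λ.Tr (Λ.cst a) :=
  tr_unit (u' := Λ.cst a') (by rw [← cst_mul, h1, cst_one]) (by rw [← cst_mul, h2, cst_one])
    (dg_cst _) (dg_cst _)

theorem tr_diag (N : ℕ → ℕ) :
    Λ.Tr (fromBlocks (Λ.zz I (up N)) 0 0 (1 : 𝒟.Hom K K)) :=
  (fr_zz N).stab.tr

theorem tr_diag' (N : ℕ → ℕ) :
    Λ.Tr (fromBlocks (Λ.zz I (-up N)) 0 0 (1 : 𝒟.Hom K K)) :=
  (tr_diag N).inv (by simp [fromBlocks_multiply, zz_mul, zz_zero])

theorem Tr.stab (K : O) : Λ.Tr (fromBlocks u 0 0 (1 : 𝒟.Hom K K)) ↔ Λ.Tr u := by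
  refine ⟨fun h => ?_, fun ⟨u', N, h⟩ => ?_⟩
  · obtain ⟨N, hN⟩ := exists_pos (Λ := Λ) u
    have h1 := (tr_diag N).mul h
    obtain ⟨w, M, h⟩ := h
    have a1 := (KT_inv _).1.1 h.1
    obtain ⟨a, b, c, d, rfl⟩ := exists_blocks w
    rw [fromBlocks_multiply, ← fromBlocks_one, fromBlocks_inj] at a1
    simp only [fromBlocks_multiply, Hm.mul_zero, Hm.zero_mul, add_zero, zero_add,
      Hm.mul_one] at h1 a1
    refine ⟨a, N, Fr.destab (h1.fr ?_ (dg_blocks.2 ⟨⟨hN, dg_zero⟩, dg_zero, dg_one⟩))⟩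
    simp [fromBlocks_multiply, (KT_inv _).1.2 a1.1]
  · simpa [fromBlocks_multiply, KT_can] using (tr_diag' (K := K) N).mul h.stab.tr

theorem tr_up (X : 𝒟.Hom I J) : Λ.Tr (fromBlocks (1 : 𝒟.Hom I I) X 0 (1 : 𝒟.Hom J J)) := by
  obtain ⟨N, hN⟩ := exists_pos (Λ := Λ) X
  have h : Λ.Tr (fromBlocks (1 : 𝒟.Hom I I) (Λ.zz I (up N) * X) 0 (1 : 𝒟.Hom J J)) :=
    tr_unit (u' := fromBlocks 1 (-(Λ.zz I (up N) * X)) 0 1) (by simp [fromBlocks_multiply])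
      (by simp [fromBlocks_multiply]) (dg_blocks.2 ⟨⟨dg_one, hN⟩, dg_zero, dg_one⟩)
      (dg_blocks.2 ⟨⟨dg_one, hN.neg⟩, dg_zero, dg_one⟩)
  simpa [fromBlocks_multiply, KT_can, zz_mul, zz_zero] using
    ((tr_diag' N).mul h).mul (tr_diag N)

/-- the isomorphisms with trivial boundary class -/
def kt (Λ : La 𝒞 𝒟) : KT 𝒟 :=
  KT.of Λ.Tr (fun ⟨u', _, h⟩ => ⟨u', (KT_inv _).1.1 h.1, (KT_inv _).2.1 h.2.1⟩) Tr.mul Tr.inv
    (fun K _ => Tr.stab K) tr_up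
    (fun _ _ => tr_unit unt_comm.1 unt_comm.2 (dg_blocks.2 ⟨⟨dg_zero, dg_one⟩, dg_one, dg_zero⟩) (by
      rw [sComm, fromBlocks_conjTranspose, conjTranspose_zero, conjTranspose_zero,
        conjTranspose_one, conjTranspose_one]
      exact dg_blocks.2 ⟨⟨dg_zero, dg_one⟩, dg_one, dg_zero⟩))
    fun _ => tr_unit (u' := -1) (by simp) (by simp) dg_one.neg dg_one.neg

theorem std_inv {E : 𝒞.Hom I I} (hE : E * E = E) {a b : ℕ → ℤ} (h : a + b = 0) :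
    (Λ.zz I a * Λ.cst E + Λ.cst (1 - E)) * (Λ.zz I b * Λ.cst E + Λ.cst (1 - E)) = 1 := by
  rw [Hm.add_mul, Hm.mul_add, Hm.mul_add, Hm.mul_assoc, ← Hm.mul_assoc (Λ.cst E),
    ← zz_comm, Hm.mul_assoc, ← Hm.mul_assoc (Λ.zz I a), zz_mul, h, zz_zero, Hm.one_mul,
    Hm.mul_assoc, ← Hm.mul_assoc _ (Λ.zz I _), ← zz_comm, Hm.mul_assoc]
  simp only [← cst_mul, Hm.mul_sub, Hm.sub_mul, Hm.mul_one, Hm.one_mul, hE,
    sub_self, cst_zero, Hm.mul_zero, add_zero, zero_add, sub_zero]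
  rw [← cst_add, add_sub_cancel, cst_one]

theorem Tr.sf {E : 𝒞.Hom I I} (hE : E * E = E)
    (h : Iv (Λ.zz I 1 * Λ.cst E + Λ.cst (1 - E)) → Λ.Tr (Λ.zz I 1 * Λ.cst E + Λ.cst (1 - E))) :
    SFIdem E :=
  Fr.sf hE ((h ⟨_, std_inv hE (add_neg_cancel 1), std_inv hE (neg_add_cancel 1)⟩).fr
    (std_inv hE (add_neg_cancel 1))
    ((((dg_zz 1).mono fun _ _ h => by simp only [h, Pi.one_apply, zero_le_one]).pmul (dg_cst E)).add (dg_cst _)))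

theorem tr_win {w : 𝒟.Hom I J} (hw : Iv w)
    (hS : ∀ n (E : 𝒞.Hom (Λ.wo J n) (Λ.wo J n)), E * E = E → SFIdem E) : Λ.Tr w := by
  obtain ⟨w', h1, h2⟩ := hw
  obtain ⟨N, hN⟩ := exists_pos (Λ := Λ) w
  obtain ⟨n, hn⟩ := exists_bdd (Λ := Λ) (Λ.zz I (up N) * w)
  have hn' : Λ.Dg (fun i j => j ≤ n i) (Λ.zz I (up N) * w) := hn.mono fun _ _ h => (abs_le.1 h).2
  have a1 := (KT_inv (Λ := Λ) (up N)).1.2 h1
  have a2 := (KT_inv (Λ := Λ) (up N)).2.2 h2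
  exact ⟨w', N, fr_win a1 a2 hN hn' (hS _ _ (win_idem a1 a2 hN hn'))⟩

end La

end Pool.Agent.Work.MP_9d1ffa_al.Ct.LL
end
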