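import Pool.Agent.Work.MP_9d1ffa_al.LL.Lc
import Pool.Agent.Work.MP_9d1ffa_al.WL.Cm
import Pool.Agent.Work.MP_9d1ffa_al.WL.BA
import Pool.Agent.Work.MP_9d1ffa_al.WL.Et
import Pool.Agent.Work.MP_9d1ffa_al.WL.En

-- merged part: Pool.Agent.Work.MP_9d1ffa_al.LL.Ten
section
/-! Twisted tensor products of controlled morphisms with integral matrices.  This is the analogue of
`tw` in `WL/ToC.lean`. -/

set_option linter.unusedSectionVars false
set_option linter.unusedVariables false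

namespace Pool.Agent.Work.MP_9d1ffa_al.Ct.LL

open MonoidAlgebra WL

variable {X Ω K B B' B'' : Type} [Group K] [Fintype B] [Fintype B'] [Fintype B'']
  {ρ : K →* Equiv.Perm X} {σ : K →* Equiv.Perm Ω} {I J L : Ob X}

/-- finitely many copies of an object -/
def tn (a : Ob X) (B : Type) [Fintype B] : Ob X :=
  pull a (Prod.fst : a.I × B → a.I) fun i =>
    (Set.finite_range fun k : B => (i, k)).subset fun k hk => ⟨k.2, Prod.ext hk.symm rfl⟩

/-- the twisted tensor product -/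
noncomputable def trM (M : K → Matrix B B' ℤ) (x : (OC ρ).Hom I J) :
    (OC ρ).Hom (tn I B) (tn J B') :=
  mk (Matrix.of fun s t => ofCoeff ((fun g => M g s.2 t.2) • (val x s.1 t.1).coeff)) (by
    obtain ⟨⟨S, h1⟩, ⟨c, h2⟩, h3⟩ := val_ctl x
    refine ⟨⟨S, fun s t g e => h1 _ _ g (right_ne_zero_of_mul e)⟩, ⟨c, fun s t e => ?_⟩,
      fun δ hδ => (h3 δ hδ).imp fun n hn s t g k e => hn _ _ g k (right_ne_zero_of_mul e)⟩
    obtain ⟨g, hg⟩ := CA_ne.1 e
    exact h2 _ _ (CA_ne.2 ⟨g, right_ne_zero_of_mul hg⟩))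

variable {M M' : K → Matrix B B' ℤ} {x y : (OC ρ).Hom I J} {T : K → Prop}

theorem trM_coeff (M : K → Matrix B B' ℤ) (x : (OC ρ).Hom I J) (s : I.I × B) (t : J.I × B') (g : K) :
    (val (trM M x) s t).coeff g = M g s.2 t.2 * (val x s.1 t.1).coeff g := rfl

theorem trM_ne {s : I.I × B} {t : J.I × B'} {g : K} (h : (val (trM M x) s t).coeff g ≠ 0) :
    M g s.2 t.2 ≠ 0 ∧ (val x s.1 t.1).coeff g ≠ 0 :=
  ⟨left_ne_zero_of_mul h, right_ne_zero_of_mul h⟩

theorem trM_add (M : K → Matrix B B' ℤ) (x y : (OC ρ).Hom I J) :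
    trM M (x + y) = trM M x + trM M y := by
  exact hom_ext fun s t g => mul_add (M g s.2 t.2) _ _

theorem trM_zero (M : K → Matrix B B' ℤ) : trM M (0 : (OC ρ).Hom I J) = 0 := by
  exact hom_ext fun s t g => mul_zero (M g s.2 t.2)

theorem trM_neg (M : K → Matrix B B' ℤ) (x : (OC ρ).Hom I J) : trM M (-x) = -trM M x := by
  exact hom_ext fun s t g => mul_neg (M g s.2 t.2) _

theorem trM_sub (M : K → Matrix B B' ℤ) (x y : (OC ρ).Hom I J) :
    trM M (x - y) = trM M x - trM M y := by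
  rw [sub_eq_add_neg, trM_add, trM_neg, ← sub_eq_add_neg]

theorem trM_zsmul (M : K → Matrix B B' ℤ) (n : ℤ) (x : (OC ρ).Hom I J) :
    trM M (n • x) = n • trM M x := by
  exact hom_ext fun s t g => mul_left_comm (M g s.2 t.2) n _

theorem trM_add' (M M' : K → Matrix B B' ℤ) (x : (OC ρ).Hom I J) :
    trM (fun g => M g + M' g) x = trM M x + trM M' x := by
  exact hom_ext fun s t g => add_mul (M g s.2 t.2) _ _

theorem trM_sub' (M M' : K → Matrix B B' ℤ) (x : (OC ρ).Hom I J) :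
    trM (fun g => M g - M' g) x = trM M x - trM M' x := by
  rw [eq_sub_iff_add_eq, ← trM_add']
  simp only [sub_add_cancel]

theorem trM_zero' (x : (OC ρ).Hom I J) : trM (fun _ => (0 : Matrix B B' ℤ)) x = 0 := by
  exact hom_ext fun s t g => zero_mul ((val x s.1 t.1).coeff g)

theorem trM_congr (hx : Sup T x) (h : ∀ g, T g → M g = M' g) : trM M x = trM M' x := by
  refine hom_ext fun s t g => ?_
  rw [trM_coeff, trM_coeff]
  by_cases e : (val x s.1 t.1).coeff g = 0
  · rw [e, mul_zero, mul_zero]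
  · rw [h g (hx _ _ g e)]

theorem trM_ct (M : K → Matrix B B' ℤ) (x : (OC ρ).Hom I J) :
    (trM M x).ct = trM (fun g => (M g⁻¹).transpose) x.ct := by
  refine hom_ext fun t s g => ?_
  rw [coeff_ct, trM_coeff, trM_coeff, coeff_ct, Matrix.transpose_apply]

theorem Ten_entry (E : Matrix B B' ℤ) (x : (OC ρ).Hom I J) (s : I.I × B) (t : J.I × B') :
    val (trM (fun _ => E) x) s t = E s.2 t.2 • val x s.1 t.1 :=
  MonoidAlgebra.ext (Finsupp.ext fun _ => rfl)

theorem trM_one [DecidableEq B] : trM (fun _ => (1 : Matrix B B ℤ)) (1 : (OC ρ).Hom I I) = 1 := by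
  classical
  refine val_inj (funext fun s => funext fun t => ?_)
  rw [Ten_entry, val_one, val_one]
  by_cases h : s = t
  · rw [h, Matrix.one_apply_eq, Matrix.one_apply_eq, Matrix.one_apply_eq, one_smul]
  · rw [Matrix.one_apply_ne h]
    by_cases h1 : s.1 = t.1
    · rw [Matrix.one_apply_ne fun h2 => h (Prod.ext h1 h2), zero_smul]
    · rw [Matrix.one_apply_ne h1, smul_zero]

theorem sup_trM (M : K → Matrix B B' ℤ) (hx : Sup T x) : Sup T (trM M x) :=
  fun s t g e => hx _ _ g (trM_ne e).2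

/-- products of constant families -/
theorem trM_const (E : Matrix B B' ℤ) (F : Matrix B' B'' ℤ) (x : (OC ρ).Hom I J)
    (y : (OC ρ).Hom J L) :
    trM (fun _ => E) x * trM (fun _ => F) y = trM (fun _ => E * F) (x * y) := by
  refine val_inj (funext fun s => funext fun u => ?_)
  rw [Ten_entry, val_mul, val_mul,
    CB_row _ _ _ (val_fin x s.1).toFinset fun j hj => (val_fin x s.1).mem_toFinset.2 hj,
    CB_row (A := val (trM (fun _ => E) x)) _ s u
      ((val_fin x s.1).toFinset ×ˢ (Finset.univ : Finset B')) fun t ht => Finset.mem_product.2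
        ⟨(val_fin x s.1).mem_toFinset.2 fun e => ht (by rw [Ten_entry, e, smul_zero]),
          Finset.mem_univ _⟩, Finset.smul_sum]
  refine (Finset.sum_product _ _ _).trans (Finset.sum_congr rfl fun j _ => ?_)
  rw [Matrix.mul_apply, Finset.sum_smul]
  refine Finset.sum_congr rfl fun b _ => ?_
  rw [Ten_entry, Ten_entry, smul_mul_smul_comm]

/-- induction over the support -/
theorem sup_ind {P : (OC ρ).Hom I J → Prop} (h0 : P 0) (ha : ∀ x y, P x → P y → P (x + y))
    (hs : ∀ g, T g → ∀ z, Sup (· = g) z → P z) (hx : Sup T x) : P x := by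
  obtain ⟨s, h⟩ := exists_sup_finset x
  rw [eq_sum_fm s h]
  refine Finset.sum_induction _ P ha h0 fun g _ => ?_
  by_cases hg : T g
  · exact hs g hg _ (sup_fm _ _)
  · rw [hx.fm_zero (S' := (· = g)) fun k hk e => hg (e ▸ hk)]
    exact h0

/-- products with a morphism supported at the unit -/
theorem trM_left {x₀ : (OC ρ).Hom I J} (h : Sup (· = 1) x₀) (E : Matrix B B' ℤ)
    (M : K → Matrix B' B'' ℤ) (y : (OC ρ).Hom J L) :
    trM (fun _ => E) x₀ * trM M y = trM (fun g => E * M g) (x₀ * y) := by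
  refine sup_ind (P := fun y => trM (fun _ => E) x₀ * trM M y = trM (fun g => E * M g) (x₀ * y))
    (by rw [trM_zero, Hm.mul_zero, Hm.mul_zero, trM_zero])
    (fun a b ha hb => by rw [trM_add, Hm.mul_add, Hm.mul_add, trM_add, ha, hb])
    (fun g _ z hz => ?_) (sup_true y)
  rw [trM_congr (M' := fun _ => M g) hz fun k hk => by rw [hk], trM_const]
  exact trM_congr (T := (· = g)) (h.mul hz fun a b ha hb => by rw [ha, hb, one_mul])
    fun k hk => by rw [hk]

theorem trM_right {y₀ : (OC ρ).Hom J L} (h : Sup (· = 1) y₀) (M : K → Matrix B B' ℤ)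
    (F : Matrix B' B'' ℤ) (x : (OC ρ).Hom I J) :
    trM M x * trM (fun _ => F) y₀ = trM (fun g => M g * F) (x * y₀) := by
  refine sup_ind (P := fun x => trM M x * trM (fun _ => F) y₀ = trM (fun g => M g * F) (x * y₀))
    (by rw [trM_zero, Hm.zero_mul, Hm.zero_mul, trM_zero])
    (fun a b ha hb => by rw [trM_add, Hm.add_mul, Hm.add_mul, trM_add, ha, hb])
    (fun g _ z hz => ?_) (sup_true x)
  rw [trM_congr (M' := fun _ => M g) hz fun k hk => by rw [hk], trM_const]
  exact trM_congr (T := (· = g)) (hz.mul h fun a b ha hb => by rw [ha, hb, mul_one])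
    fun k hk => by rw [hk]

theorem cn_trM {η : ℝ} {p : B → Ω → ℝ} {q : B' → Ω → ℝ} (hx : Sup T x)
    (h : ∀ g, T g → ∀ a b, M g a b ≠ 0 → Cl η (σ g) (q b) (p a)) :
    Cn σ η (I := tn I B) (J := tn J B') (fun s => p s.2) (fun s => q s.2) (trM M x) :=
  fun s t g e => h g (hx _ _ g (trM_ne e).2) _ _ (trM_ne e).1

/-- one copy -/
noncomputable def tU (ρ : K →* Equiv.Perm X) (a : Ob X) : (OC ρ).Hom (tn a Unit) a :=
  pm1 ρ Prod.fst (fun _ => rfl) fun _ => rfl

theorem Ten_pm (a : Ob X) : IsPm (tU ρ a) Prod.fst := isPm_pm1 _ _ _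

theorem unt_tU (a : Ob X) : Unt (tU ρ a) := by
  exact (Ten_pm a).unt ⟨fun s t h => Prod.ext h rfl, fun i => ⟨(i, ()), rfl⟩⟩

/-- conjugation with the unitaries -/
theorem tU_conj (x : (OC ρ).Hom I J) :
    tU ρ I * x * (tU ρ J).ct = trM (fun _ => (1 : Matrix Unit Unit ℤ)) x := by
  refine val_inj (funext fun s => funext fun t => ?_)
  rw [(Ten_pm I).both (Ten_pm J), Ten_entry, Matrix.one_apply_eq, one_smul]

variable [DecidableEq B] {d E : Matrix B B ℤ} {Φ : K → Matrix B B ℤ}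

/-- the transfer relative to a base point `x₀` with support at `1` -/
noncomputable def trF (Φ : K → Matrix B B ℤ) (x₀ x : (OC ρ).Hom I I) :
    (OC ρ).Hom (tn I B) (tn I B) := trM Φ (x - x₀) + trM (fun _ => 1) x₀

variable {x₀ y₀ x y : (OC ρ).Hom I I}

theorem trF_comm (h : ∀ g, T g → d * Φ g = Φ g * d) (h₀ : Sup (· = 1) x₀) (hx : Sup T (x - x₀)) :
    trM (fun _ => d) 1 * trF Φ x₀ x = trF Φ x₀ x * trM (fun _ => d) 1 := by
  rw [trF, Hm.mul_add, Hm.add_mul, trM_left sup_one, trM_right sup_one, trM_const, trM_const,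
    Hm.one_mul, Hm.one_mul, Hm.mul_one, Hm.mul_one, Matrix.mul_one, Matrix.one_mul, trM_congr hx h]

theorem Ten_nul {H : K → K → Matrix B B ℤ}
    (e : ∀ g, T g → ∀ h, T h → d * H g h + H g h * d = Φ g * Φ h - Φ (g * h))
    {P : (OC ρ).Hom (tn I B) (tn I B) → Prop} (h0 : P 0) (ha : ∀ a b, P a → P b → P (a + b))
    (hP : ∀ g, T g → ∀ h, T h → ∀ z : (OC ρ).Hom I I, Sup (· = g * h) z →
      P (trM (fun _ => H g h) z)) (hx : Sup T x) (hy : Sup T y) :
    ∃ h, trM Φ x * trM Φ y - trM Φ (x * y) =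
      trM (fun _ => d) 1 * h + h * trM (fun _ => d) 1 ∧ P h := by
  refine sup_ind (P := fun x => ∃ h, trM Φ x * trM Φ y - trM Φ (x * y) =
      trM (fun _ => d) 1 * h + h * trM (fun _ => d) 1 ∧ P h) ⟨0, ?_, h0⟩ ?_ (fun g hg z hz => ?_) hx
  · simp only [trM_zero, Hm.zero_mul, Hm.mul_zero, sub_zero, add_zero]
  · rintro a b ⟨h, k1, k2⟩ ⟨h', k1', k2'⟩
    refine ⟨h + h', ?_, ha _ _ k2 k2'⟩
    rw [trM_add, Hm.add_mul, Hm.add_mul, trM_add, add_sub_add_comm, k1, k1', Hm.mul_add, Hm.add_mul,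
      add_add_add_comm]
  refine sup_ind (P := fun y => ∃ h, trM Φ z * trM Φ y - trM Φ (z * y) =
      trM (fun _ => d) 1 * h + h * trM (fun _ => d) 1 ∧ P h) ⟨0, ?_, h0⟩ ?_ (fun k hk w hw => ?_) hy
  · simp only [trM_zero, Hm.zero_mul, Hm.mul_zero, sub_zero, add_zero]
  · rintro a b ⟨h, k1, k2⟩ ⟨h', k1', k2'⟩
    refine ⟨h + h', ?_, ha _ _ k2 k2'⟩
    rw [trM_add, Hm.mul_add, Hm.mul_add, trM_add, add_sub_add_comm, k1, k1', Hm.mul_add, Hm.add_mul,
      add_add_add_comm]
  have hs : Sup (· = g * k) (z * w) := hz.mul hw fun a b ha hb => by rw [ha, hb]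
  refine ⟨_, ?_, hP g hg k hk _ hs⟩
  rw [trM_congr (M' := fun _ => Φ g) hz fun a ha => by rw [ha],
    trM_congr (M' := fun _ => Φ k) hw fun a ha => by rw [ha],
    trM_congr (M := Φ) (M' := fun _ => Φ (g * k)) hs fun a ha => by rw [ha], trM_const, trM_const,
    trM_const, Hm.one_mul, Hm.mul_one, ← trM_add', ← trM_sub', e g hg k hk]

/-- the transfer is multiplicative up to a homotopy -/
theorem trF_mul {H : K → K → Matrix B B ℤ}
    (e : ∀ g, T g → ∀ h, T h → d * H g h + H g h * d = Φ g * Φ h - Φ (g * h))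
    {P : (OC ρ).Hom (tn I B) (tn I B) → Prop} (h0 : P 0) (ha : ∀ a b, P a → P b → P (a + b))
    (hP : ∀ g, T g → ∀ h, T h → ∀ z : (OC ρ).Hom I I, Sup (· = g * h) z →
      P (trM (fun _ => H g h) z))
    (s₁ : Sup (· = 1) x₀) (s₂ : Sup (· = 1) y₀) (hx : Sup T (x - x₀)) (hy : Sup T (y - y₀))
    (k₀ : x₀ * y₀ = 1) (k : x * y = 1) :
    ∃ h, trF Φ x₀ x * trF Φ y₀ y =
      1 + (trM (fun _ => d) 1 * h + h * trM (fun _ => d) 1) ∧ P h := by
  obtain ⟨h, k1, k2⟩ := Ten_nul e h0 ha hP hx hy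
  refine ⟨h, ?_, k2⟩
  have k3 : (x - x₀) * y₀ + x₀ * (y - y₀) = -((x - x₀) * (y - y₀)) := by
    simp only [Hm.mul_sub, Hm.sub_mul, k, k₀]
    abel
  have k4 := congrArg (trM Φ) k3
  rw [trM_add, trM_neg] at k4
  rw [← k1, trF, trF, Hm.add_mul, Hm.mul_add, Hm.mul_add, trM_right s₂, trM_left s₁, trM_const, k₀]
  simp only [Matrix.mul_one, Matrix.one_mul]
  rw [trM_one, sub_eq_add_neg (trM Φ _ * _), ← k4]
  abel

/-- the transfer is constant up to a homotopy -/
theorem trM_htpy {Jh : K → Matrix B B ℤ} (e : ∀ g, T g → d * Jh g + Jh g * d = Φ g - E)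
    (hx : Sup T x) : trM Φ x = trM (fun _ => E) x +
      (trM (fun _ => d) 1 * trM Jh x + trM Jh x * trM (fun _ => d) 1) := by
  rw [trM_left sup_one, trM_right sup_one, Hm.one_mul, Hm.mul_one, ← trM_add', trM_congr hx e,
    trM_sub', add_sub_cancel]

end Pool.Agent.Work.MP_9d1ffa_al.Ct.LL
end

-- merged part: Pool.Agent.Work.MP_9d1ffa_al.LL.Vz
section
/-! The vanishing property for all Laurent extensions, and the strong transfer theorem. -/

namespace Pool.Agent.Work.MP_9d1ffa_al.Ct.LL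

variable {G H X : Type} [Group G] [Group H] {ρ : G →* Equiv.Perm X}

theorem V0.loc (h : ∀ S : Finset G, ∃ (K : Type) (_ : Group K) (f : K →* G),
    Function.Injective f ∧ (∀ g ∈ S, ∃ k, f k = g) ∧ V0 (ρ.comp f)) : V0 ρ :=
  ⟨sfi_loc fun S => let ⟨K, i, f, h1, h2, h3⟩ := h S; ⟨K, i, _, AH.of ρ f, h1, h2, h3.1⟩,
    fun ε => van0_loc fun S =>
      let ⟨K, i, f, h1, h2, h3⟩ := h S; ⟨K, i, _, AH.of ρ f, h1, h2, h3.2 ε⟩⟩

theorem V0.bij {σ : H →* Equiv.Perm X} (h : V0 σ) (f : H →* G) (hf : Function.Bijective f)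
    (e : ∀ k, ρ (f k) = σ k) : V0 ρ :=
  V0.loc fun _ => ⟨H, inferInstance, f, hf.1, fun g _ => hf.2 g, by
    rwa [show ρ.comp f = σ from MonoidHom.ext e]⟩

/-- the property for all Laurent extensions -/
def VZ (ρ : G →* Equiv.Perm X) : Prop :=
  ∀ (K : Type) [Group K], FA K → V0 (ρ.comp (MonoidHom.fst G K))

theorem fa_unit : FA (Multiplicative (Fin 0 → ℤ)) := ⟨0, ⟨MulEquiv.refl _⟩⟩

theorem fa_succ (h : FA G) : FA (Multiplicative ℤ × G) := by
  obtain ⟨n, ⟨e⟩⟩ := h
  exact ⟨n + 1, ⟨((MulEquiv.refl _).prodCongr e).trans ((MulEquiv.prodMultiplicative _ _).symm.trans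
    (AddEquiv.toMultiplicative (Fin.consLinearEquiv ℤ fun _ : Fin (n + 1) => ℤ).toAddEquiv))⟩⟩

theorem VF.vz (h : VF ρ) : VZ ρ := fun _ _ _ => h _ _

theorem VZ.v0 (h : VZ ρ) : V0 ρ :=
  (h _ fa_unit).bij (MulEquiv.prodUnique : _ ≃* G).toMonoidHom (MulEquiv.bijective _) fun _ => rfl

theorem VZ.bij {σ : H →* Equiv.Perm X} (h : VZ σ) (f : H →* G) (hf : Function.Bijective f)
    (e : ∀ k, ρ (f k) = σ k) : VZ ρ := fun K _ hK =>
  (h K hK).bij (f.prodMap (MonoidHom.id K)) (hf.prodMap Function.bijective_id) fun k => e k.1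

theorem VZ.int (h : VZ ρ) : VZ (ρ.comp (MonoidHom.fst G (Multiplicative ℤ))) := fun K _ hK =>
  (h _ (fa_succ hK)).bij MulEquiv.prodAssoc.symm.toMonoidHom (MulEquiv.bijective _) fun _ => rfl

theorem VZ.van1 (h : VZ ρ) (η : ℤˣ) : Van1 (OC ρ) η := by
  have := van1_of_line (ε := -η) ρ h.v0.1 (h.int.v0.2 _)
  rwa [neg_neg] at this

/-- the isomorphism from a product onto a full preimage -/
theorem exists_sub {K : Type} [Group K] (L : Subgroup G) (L' : Subgroup (G × K))
    (e : ∀ g, g ∈ L' ↔ g.1 ∈ L) :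
    ∃ f : L × K →* L', Function.Bijective f ∧ ∀ k, (f k).1.1 = k.1.1 :=
  ⟨(L.subtype.prodMap (MonoidHom.id K)).codRestrict L' fun g => (e _).2 g.1.2,
    ⟨fun _ _ k => Prod.ext (Subtype.ext (congrArg (fun x => x.1.1) k)) (congrArg (fun x => x.1.2) k),
      fun g => ⟨(⟨g.1.1, (e _).1 g.2⟩, g.1.2), rfl⟩⟩, fun _ => rfl⟩

/-- stabilisers in the product with the integers -/
theorem VZ.sub_int {L : Subgroup G} (h : VZ (ρ.comp L.subtype))
    (L' : Subgroup (G × Multiplicative ℤ)) (e : ∀ g, g ∈ L' ↔ g.1 ∈ L) :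
    VZ ((ρ.comp (MonoidHom.fst G _)).comp L'.subtype) :=
  let ⟨f, h1, h2⟩ := exists_sub L L' e
  h.int.bij f h1 fun k => congrArg ρ (h2 k)

/-- the strong transfer theorem: only full preimages and their Laurent extensions are used -/
def CoreZ : Prop :=
  ∀ (Q : Type) [Group Q] (Good : Subgroup Q → Prop), FIc Good → WL.CDat Q Good →
    ∀ (K X : Type) [Group K] (φ : K →* Q) (ρ : K →* Equiv.Perm X),
      (∀ L : Subgroup K, φ.ker ≤ L → Good (L.map φ) → VZ (ρ.comp L.subtype)) → V0 ρ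

theorem CoreZ.core (h : CoreZ) : Core := fun Q _ Good h1 h2 K X _ φ ρ k =>
  h Q Good h1 h2 K X φ ρ fun L _ e => (k L e).vz

end Pool.Agent.Work.MP_9d1ffa_al.Ct.LL
end

-- merged part: Pool.Agent.Work.MP_9d1ffa_al.LL.FinA
section
/-! The formal part for transfer theorems that need classes closed under finite index. -/

namespace Pool.Agent.Work.MP_9d1ffa_al.Ct.LL

open WL

/-- what the formal part uses about the class `W` -/
structure WF (W : (G : Type) → [Group G] → Prop) : Prop where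
  iso : ∀ (G H : Type) [Group G] [Group H], (G ≃* H) → W G → W H
  loc : ∀ (G : Type) [Group G], (∀ T : Finset G, W (Subgroup.closure (T : Set G))) → W G
  thm : ∀ (Q : Type) [Group Q] (Good : Subgroup Q → Prop), FIc Good → CDat Q Good →
    ∀ (K : Type) [Group K] (φ : K →* Q), (∀ L : Subgroup K, Good (L.map φ) → W L) → W K

variable {W 𝒮 : (G : Type) → [Group G] → Prop} {c : ℕ} {G Q F : Type} [Group G] [Group Q] [Group F]

theorem fi_incl {H H' : Subgroup G} (e : H' ≤ H) (k : H'.relIndex H ≠ 0) (L : Subgroup H')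
    [L.FiniteIndex] : (L.map (Subgroup.inclusion e)).FiniteIndex := ⟨by
  rw [L.index_map_of_injective (Subgroup.inclusion_injective e), Subgroup.inclusion_range]
  exact mul_ne_zero Subgroup.FiniteIndex.index_ne_zero k⟩

theorem fic_goodW (Fam : Subgroup G → Prop) : FIc (GoodW (F := F) Fam) := by
  rintro H H' e k ⟨L, _, h⟩
  refine ⟨L.map (Subgroup.inclusion e), fi_incl e k L, fun q => (h q).imp fun U k' => ⟨k'.1, ?_⟩⟩
  rintro _ ⟨g, hg, rfl⟩
  exact k'.2 g hg

namespace WF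

variable (hW : WF W)
include hW

theorem app (h : Rl W 𝒮 Q) {K : Type} [Group K] (L : Subgroup K) (φ : L →* Q)
    (k : ∀ L' : Subgroup L, 𝒮 (L'.map φ) → W (L'.map L.subtype)) : W L :=
  h L φ fun L' e => hW.iso _ _ (L'.equivMapOfInjective _ L.subtype_injective).symm (k L' e)

/-- transitivity -/
theorem trans (sub : ∀ (A B : Type) [Group A] [Group B] (f : A →* B), Function.Injective f →
    𝒮 B → 𝒮 A) {K : Type} [Group K] (φ : K →* Q) (k : ∀ L : Subgroup K, 𝒮 (L.map φ) → W L)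
    (L : Subgroup K) (h : Rl W 𝒮 (L.map φ)) : W L :=
  hW.app h L (φ.subgroupMap L) fun L' e' => k _ (sub _ _
    (((L'.map L.subtype).map φ).subtype.codRestrict (L.map φ) (by
      rintro ⟨_, _, ⟨x, -, rfl⟩, rfl⟩
      exact ⟨x, x.2, rfl⟩) |>.codRestrict _ (by
      rintro ⟨_, _, ⟨x, hx, rfl⟩, rfl⟩
      exact ⟨x, hx, rfl⟩)) (fun a b e => Subtype.ext (congrArg (fun x => x.1.1) e)) e')

theorem base (h : Sc c Q) : Rl W (Sc c) Q := fun _ _ _ k =>
  hW.iso _ _ Subgroup.topEquiv (k ⊤ (h.sub _))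

theorem rl_prod (h : Rl W (Sc c) G) (h' : Rl W (Sc c) Q) : Rl W (Sc c) (G × Q) := by
  intro K _ φ k
  refine h K ((MonoidHom.fst G Q).comp φ) fun L e => ?_
  refine hW.app h' L (((MonoidHom.snd G Q).comp φ).comp L.subtype) fun L' e' => k _ ?_
  refine ((e.prod e').inj (Subgroup.prodEquiv _ _).toMonoidHom (MulEquiv.injective _)).mono ?_
  rintro _ ⟨_, ⟨x, hx, rfl⟩, rfl⟩
  exact ⟨⟨x, x.2, rfl⟩, ⟨x, hx, rfl⟩⟩

theorem pw_prod (h : PW W (Sc c) G) (h' : PW W (Sc c) Q) : PW W (Sc c) (G × Q) :=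
  fun F _ _ => (hW.rl_prod (h F) (h' F)).inj
    ((wmap F (MonoidHom.fst G Q)).prod (wmap F (MonoidHom.snd G Q))) fun _ _ e =>
      RegularWreathProduct.ext (funext fun q => Prod.ext
        (congrFun (congrArg (fun x => x.1.left) e) q) (congrFun (congrArg (fun x => x.2.left) e) q))
        (congrArg (fun x => x.1.right) e)

theorem pw_base (h : Sc c Q) : PW W (Sc c) Q := fun _ _ _ => hW.base h.wreath

theorem pw_pi {ι : Type} [Finite ι] (G : ι → Type) [∀ i, Group (G i)]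
    (h : ∀ i, PW W (Sc c) (G i)) : PW W (Sc c) (∀ i, G i) :=
  pi_ind (P := fun G _ => PW W (Sc c) G)
    (fun _ _ _ => hW.pw_base (sc_comm fun _ _ => Subsingleton.elim _ _))
    (fun _ _ _ _ φ hφ h => h.inj φ hφ) (fun _ _ _ _ => hW.pw_prod) G h

theorem good_rl [Finite F] {Fam : Subgroup G → Prop}
    (hF : ∀ H, Fam H → PW W (Sc c) H) {H : Subgroup (G ≀ᵣ F)} (h : GoodW Fam H) :
    Rl W (Sc c) H := by
  obtain ⟨H₀, hf, h⟩ := h
  choose H' h1 h2 using h
  let r : H →* F := RegularWreathProduct.rightHom.comp H.subtype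
  let ι : (H₀ ⊓ r.ker : Subgroup H) →* (RegularWreathProduct.rightHom : G ≀ᵣ F →* F).ker :=
    (H.subtype.comp (Subgroup.subtype _)).codRestrict _ fun g => g.2.2
  refine (hW.pw_pi (fun q => H' q) fun q => hF _ (h1 q)).rl_fin (H₀ ⊓ r.ker) inferInstance
    (MonoidHom.pi fun q => ((Pi.evalMonoidHom _ q).comp ((wleft G F).comp ι)).codRestrict _
      fun g => h2 q g g.2.1 g.2.2) fun a b e => ?_
  have : ι a = ι b := wleft_inj (funext fun q => congrArg Subtype.val (congrFun e q))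
  exact Subtype.ext (Subtype.ext (congrArg (fun x => (x.1 : G ≀ᵣ F)) this))

theorem pw_loc (h : ∀ H : Subgroup G, H.FG → PW W (Sc c) H) : PW W (Sc c) G := by
  classical
  intro F _ _ K _ φ k
  have := Fintype.ofFinite F
  refine hW.loc K fun T => ?_
  let U : Finset G := (T ×ˢ (Finset.univ : Finset F)).image fun p => (φ p.1).left p.2
  let θ := wmap F (Subgroup.closure (U : Set G)).subtype
  have hθ : Function.Injective θ := wmap_inj (Subgroup.subtype_injective _)
  have hle : Subgroup.closure (T : Set K) ≤ θ.range.comap φ := (Subgroup.closure_le _).2 fun t ht =>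
    ⟨⟨fun q => ⟨(φ t).left q, Subgroup.subset_closure (Finset.mem_coe.2 (Finset.mem_image.2
      ⟨(t, q), Finset.mem_product.2 ⟨ht, Finset.mem_univ _⟩, rfl⟩))⟩, (φ t).right⟩, rfl⟩
  let ψ : Subgroup.closure (T : Set K) →* _ := (MonoidHom.ofInjective hθ).symm.toMonoidHom.comp
    ((φ.comp (Subgroup.subtype _)).codRestrict θ.range fun x => hle x.2)
  have hψ : θ.comp ψ = φ.comp (Subgroup.subtype _) := MonoidHom.ext fun x =>
    MonoidHom.apply_ofInjective_symm hθ _
  refine hW.app (h _ ⟨U, rfl⟩ F) _ ψ fun L e => k _ ?_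
  rw [Subgroup.map_map, ← hψ, ← Subgroup.map_map]
  exact e.inj ((L.map ψ).equivMapOfInjective θ hθ).symm.toMonoidHom (MulEquiv.injective _)

theorem closed (c : ℕ) : Closed2 c (PW W (Sc c)) where
  base _ _ := hW.pw_base
  loc _ _ := hW.pw_loc
  fin G _ H hH h F _ _ := (hW.good_rl (fun _ e => e ▸ h) (goodW_top H hH)).inj
    Subgroup.topEquiv.symm.toMonoidHom (MulEquiv.injective _)
  prod _ _ _ _ := hW.pw_prod
  ker G Q _ _ φ h h1 h2 F _ _ := by
    let ι : (wmap F φ).ker →* (RegularWreathProduct.rightHom : G ≀ᵣ F →* F).ker :=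
      Subgroup.inclusion fun g hg => (wmap_ker hg).1
    have hι : Function.Injective ((wleft G F).comp ι) :=
      wleft_inj.comp (Subgroup.inclusion_injective _)
    refine (h F).ker (wmap F φ) (fun a ha b hb => ?_) fun a ha => ?_
    · have : (⟨a, ha⟩ * ⟨b, hb⟩ : (wmap F φ).ker) = ⟨b, hb⟩ * ⟨a, ha⟩ := hι (by
        rw [map_mul, map_mul]
        exact funext fun q => h1 _ ((wmap_ker ha).2 q) _ ((wmap_ker hb).2 q))
      exact congrArg Subtype.val this
    · have : (⟨a, ha⟩ ^ c : (wmap F φ).ker) = 1 := hι (by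
        rw [map_pow, map_one]
        exact funext fun q => h2 _ ((wmap_ker ha).2 q))
      exact congrArg Subtype.val this
  geo G _ Fam hF h F _ _ K _ φ k := hW.thm _ _ (fic_goodW Fam) (h F) K φ fun L e =>
    hW.trans (fun _ _ _ _ f hf s => s.inj f hf) φ k L (hW.good_rl hF e)

end WF

end Pool.Agent.Work.MP_9d1ffa_al.Ct.LL
end

-- merged part: Pool.Agent.Work.MP_9d1ffa_al.LL.FinB
section
/-! Virtually nilpotent groups relative to the virtually cyclic subgroups. -/

namespace Pool.Agent.Work.MP_9d1ffa_al.Ct.LL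

open WL Function

variable {W : (G : Type) → [Group G] → Prop} {r : ℕ} {G Q : Type} [Group G] [Group Q]

theorem vz_inj (A B : Type) [Group A] [Group B] (f : A →* B) (hf : Injective f)
    (h : WL.VZ r B) : WL.VZ r A :=
  let ⟨U, θ, _, _, k⟩ := h
  ⟨U.comap f, θ.comp (f.subgroupComap U), inferInstance, finiteIndex_comap f U,
    k.comp fun _ _ e => Subtype.ext (hf (congrArg Subtype.val e))⟩

theorem vz_of_fi (U : Subgroup G) [U.FiniteIndex] (θ : U →* Multiplicative (Fin r → ℤ))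
    (h : Injective θ) : WL.VZ r G :=
  ⟨U.normalCore, θ.comp (Subgroup.inclusion U.normalCore_le), inferInstance, inferInstance,
    h.comp (Subgroup.inclusion_injective _)⟩

theorem fic_vz : FIc fun H : Subgroup G => WL.VZ r H := by
  rintro H H' e k ⟨A, θ, _, _, h⟩
  have := fi_incl e k A
  exact vz_of_fi _ (θ.comp (A.equivMapOfInjective _
    (Subgroup.inclusion_injective e)).symm.toMonoidHom) (h.comp (MulEquiv.injective _))

theorem cyc_one : IsCyclic (Multiplicative (Fin 1 → ℤ)) :=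
  isCyclic_of_injective (G' := Multiplicative ℤ)
    (AddEquiv.toMultiplicative (AddEquiv.funUnique (Fin 1) ℤ)).toMonoidHom (MulEquiv.injective _)

theorem mx_surj (h : Mx G) (φ : G →* Q) (hφ : Surjective φ) : Mx Q := fun L => by
  rw [← Subgroup.map_comap_eq_self_of_surjective hφ L]
  exact (Subgroup.fg_iff_submonoid_fg _).2 (((Subgroup.fg_iff_submonoid_fg _).1 (h _)).map φ)

namespace WF

variable (hW : WF W)
include hW

theorem vc_base (h : WL.VZ 1 G) : Rl W (WL.VZ 1) G := fun _ _ _ k =>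
  hW.iso _ _ Subgroup.topEquiv (k ⊤ (vz_inj _ _ _ (Subgroup.subtype_injective _) h))

theorem rl_vz (r : ℕ) : ∀ (G : Type) [Group G], WL.VZ r G → Rl W (WL.VZ 1) G := by
  induction r with
  | zero =>
    rintro G _ ⟨A, θ, _, _, hθ⟩
    exact hW.vc_base (vz_of_fi A 1 fun _ _ _ => hθ (Subsingleton.elim _ _))
  | succ r ih =>
    intro G _ h
    cases r with
    | zero => exact hW.vc_base h
    | succ m =>
      obtain ⟨A, θ, _, _, hθ⟩ := h
      obtain ⟨C, -, hC⟩ := exists_coc A θ hθ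
      have := Fintype.ofFinite (G ⧸ A)
      exact fun K _ φ k => hW.thm _ _ fic_vz (zt_big C hC (grid_bl _)).cdat K φ fun L e =>
        hW.trans vz_inj φ k L (ih _ e)

theorem rl_nil (c : ℕ) : ∀ (Q : Type) [Group Q], Mx Q → ∀ (U : Subgroup Q) [U.Normal]
    [U.FiniteIndex] [Group.IsNilpotent U], Group.nilpotencyClass U ≤ c → Rl W (WL.VZ 1) Q := by
  induction c with
  | zero =>
    intro Q _ hQ U _ _ _ h
    have : Group.FG Q := ⟨hQ ⊤⟩
    have := nilpotencyClass_zero_iff_subsingleton.1 (Nat.le_zero.1 h)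
    obtain ⟨r, hr⟩ := vz_of_comm U fun a ha b hb =>
      congrArg Subtype.val (Subsingleton.elim (⟨a, ha⟩ * ⟨b, hb⟩ : U) (⟨b, hb⟩ * ⟨a, ha⟩))
    exact hW.rl_vz r Q hr
  | succ c ih =>
    intro Q _ hQ U _ _ _ h K _ φ k
    let π := QuotientGroup.mk' ((Subgroup.center U).map U.subtype)
    have hπ : Surjective π := QuotientGroup.mk'_surjective _
    have := Subgroup.Normal.map ‹U.Normal› π hπ
    have : (U.map π).FiniteIndex :=
      ⟨ne_zero_of_dvd_ne_zero Subgroup.FiniteIndex.index_ne_zero (U.index_map_dvd hπ)⟩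
    let q : U ⧸ Subgroup.center U →* U.map π := QuotientGroup.lift _ (π.subgroupMap U)
      fun x hx => Subtype.ext ((QuotientGroup.eq_one_iff _).2 ⟨x, hx, rfl⟩)
    have hq : Surjective q := by
      rintro ⟨_, x, hx, rfl⟩
      exact ⟨(⟨x, hx⟩ : U), rfl⟩
    have := nilpotent_of_surjective q hq
    refine ih _ (mx_surj hQ π hπ) (U.map π) ((nilpotencyClass_le_of_surjective q hq).trans (by
      rw [nilpotencyClass_quotient_center]
      omega)) K (π.comp φ) ?_
    rintro L ⟨A, θ, _, _, hθ⟩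
    refine hW.trans vz_inj φ k L ?_
    have := (Group.fg_iff_subgroup_fg _).2 (hQ (L.map φ))
    let p : L.map φ →* L.map (π.comp φ) := (π.comp (Subgroup.subtype _)).codRestrict _ (by
      rintro ⟨_, x, hx, rfl⟩
      exact ⟨x, hx, rfl⟩)
    have := finiteIndex_comap p A
    have := cyc_one
    obtain ⟨r, hr⟩ := vz_of_comm (A.comap p ⊓ U.subgroupOf (L.map φ)) fun a ha b hb =>
      congrArg Subtype.val (commutative_of_cyclic_center_quotient
        (G := (A.comap p ⊓ U.subgroupOf (L.map φ) : Subgroup (L.map φ)))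
        (θ.comp ((p.subgroupComap A).comp (Subgroup.inclusion inf_le_left))) (fun x hx => by
          obtain ⟨z, hz, e⟩ := (QuotientGroup.eq_one_iff (x.1.1 : Q)).1
            (congrArg (fun y : A => y.1.1) (hθ (hx.trans (map_one θ).symm)))
          refine Subgroup.mem_center_iff.2 fun y => Subtype.ext (Subtype.ext ?_)
          have := congrArg Subtype.val (Subgroup.mem_center_iff.1 hz ⟨y.1.1, y.2.2⟩)
          change y.1.1 * x.1.1 = x.1.1 * y.1.1
          rw [← e]
          exact this) ⟨a, ha⟩ ⟨b, hb⟩)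
    exact hW.rl_vz r _ hr

theorem rl_vnil [Group.FG Q] (U : Subgroup Q) [U.FiniteIndex] [Group.IsNilpotent U] :
    Rl W (WL.VZ 1) Q :=
  have : Group.IsNilpotent U.normalCore :=
    Group.nilpotent_of_mulEquiv (Subgroup.subgroupOfEquivOfLe U.normalCore_le)
  hW.rl_nil _ Q (Mx.fin U mx_of_nil) U.normalCore le_rfl

end WF

end Pool.Agent.Work.MP_9d1ffa_al.Ct.LL
end
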