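import Pool.Agent.Work.MP_9d1ffa_al.LL.Lw

-- merged part: Pool.Agent.Work.MP_9d1ffa_al.LL.Gc
section
/-! Control structures and the category of germs of sequences with small control. -/

set_option linter.unusedSectionVars false
set_option linter.unusedVariables false

namespace Pool.Agent.Work.MP_9d1ffa_al.Ct.LL

open Filter

variable {O O' : Type 1} [Add O] [Zero O] [Add O'] [Zero O'] {𝒞 : SCat O} {𝒟 : SCat O'}

/-- a control structure -/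
structure Cs (𝒞 : SCat O) where
  N : ℝ → ∀ {a b : O}, 𝒞.Hom a b → Prop
  mono : ∀ {η η' : ℝ} {a b : O} {x : 𝒞.Hom a b}, N η x → η ≤ η' → N η' x
  zero : ∀ (η : ℝ) (a b : O), N η (0 : 𝒞.Hom a b)
  add : ∀ {η : ℝ} {a b : O} {x y : 𝒞.Hom a b}, N η x → N η y → N η (x + y)
  neg : ∀ {η : ℝ} {a b : O} {x : 𝒞.Hom a b}, N η x → N η (-x)
  mul : ∀ {η η' : ℝ} {a b c : O} {x : 𝒞.Hom a b} {y : 𝒞.Hom b c}, N η x → N η' y →
    N (η + η') (x * y)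
  ct : ∀ {η : ℝ} {a b : O} {x : 𝒞.Hom a b}, N η x → N η x.ct
  one : ∀ a : O, N 0 (1 : 𝒞.Hom a a)
  inl : ∀ a b : O, N 0 (𝒞.inl a b)
  inr : ∀ a b : O, N 0 (𝒞.inr a b)

namespace Cs

variable (N : Cs 𝒞) {η η' : ℝ} {I J K L : O}

/-- the morphisms with control zero -/
def zs (a b : O) : AddSubgroup (𝒞.Hom a b) where
  carrier := {x | N.N 0 x}
  zero_mem' := N.zero 0 a b
  add_mem' := N.add
  neg_mem' := N.neg

/-- the category of the morphisms with control zero -/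
def zc : SCat O where
  Hom a b := N.zs a b
  acg a b := inferInstance
  mul x y := ⟨x.1 * y.1, N.mono (N.mul x.2 y.2) (add_zero _).le⟩
  one a := ⟨1, N.one a⟩
  cj x := ⟨x.1.ct, N.ct x.2⟩
  inl a b := ⟨𝒞.inl a b, N.inl a b⟩
  inr a b := ⟨𝒞.inr a b, N.inr a b⟩
  mul_assoc x y z := Subtype.ext (Hm.mul_assoc _ _ _)
  one_mul x := Subtype.ext (Hm.one_mul _)
  mul_one x := Subtype.ext (Hm.mul_one _)
  mul_add x y z := Subtype.ext (Hm.mul_add _ _ _)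
  add_mul x y z := Subtype.ext (Hm.add_mul _ _ _)
  cj_add x y := Subtype.ext (conjTranspose_add _ _)
  cj_mul x y := Subtype.ext (conjTranspose_mul _ _)
  cj_cj x := Subtype.ext (conjTranspose_conjTranspose _)
  inl_inl a b := Subtype.ext SC_ll
  inr_inr a b := Subtype.ext SC_rr
  inl_inr a b := Subtype.ext SC_lr
  total a b := Subtype.ext SC_tot
  one_zero := Subtype.ext 𝒞.one_zero

/-- the inclusion of the morphisms with control zero -/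
def zi : IF N.zc 𝒞 where
  m := (N.zs _ _).subtype
  m_mul _ _ := rfl
  m_one _ := rfl
  m_ct _ := rfl
  m_inl _ _ := rfl
  m_inr _ _ := rfl

variable {N}

theorem sub {x y : 𝒞.Hom I J} (h : N.N η x) (h' : N.N η y) : N.N η (x - y) :=
  sub_eq_add_neg x y ▸ N.add h (N.neg h')

theorem zsmul {x : 𝒞.Hom I J} (n : ℤ) (h : N.N η x) : N.N η (n • x) :=
  AddSubgroup.zsmul_mem (⟨⟨⟨{y | N.N η y}, N.add⟩, N.zero η I J⟩, N.neg⟩ :
    AddSubgroup (𝒞.Hom I J)) h n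

theorem mul0 {x : 𝒞.Hom I J} {y : 𝒞.Hom J K} (h : N.N η x) (h' : N.N 0 y) : N.N η (x * y) :=
  N.mono (N.mul h h') (add_zero _).le

theorem mul0' {x : 𝒞.Hom I J} {y : 𝒞.Hom J K} (h : N.N 0 x) (h' : N.N η y) : N.N η (x * y) :=
  N.mono (N.mul h h') (zero_add _).le

theorem rows {x : 𝒞.Hom I K} {y : 𝒞.Hom J K} (h : N.N η x) (h' : N.N η y) :
    N.N η (fromRows x y) := N.add (mul0' (N.ct (N.inl _ _)) h) (mul0' (N.ct (N.inr _ _)) h')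

theorem cols {x : 𝒞.Hom K I} {y : 𝒞.Hom K J} (h : N.N η x) (h' : N.N η y) :
    N.N η (fromCols x y) := N.add (mul0 h (N.inl _ _)) (mul0 h' (N.inr _ _))

theorem blocks {a : 𝒞.Hom I K} {b : 𝒞.Hom I L} {c : 𝒞.Hom J K} {d : 𝒞.Hom J L} (ha : N.N η a)
    (hb : N.N η b) (hc : N.N η c) (hd : N.N η d) : N.N η (fromBlocks a b c d) :=
  rows (cols ha hb) (cols hc hd)

theorem one' (h : 0 ≤ η) : N.N η (1 : 𝒞.Hom I I) := N.mono (N.one I) h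

variable (N) {a b c d : ℕ → O}

/-- the control tends to zero -/
def Sm (x : ∀ m, 𝒞.Hom (a m) (b m)) : Prop := ∀ η : ℝ, 0 < η → ∀ᶠ m in atTop, N.N η (x m)

variable {N}

theorem sm_of_zero {x : ∀ m, 𝒞.Hom (a m) (b m)} (h : ∀ᶠ m in atTop, N.N 0 (x m)) : N.Sm x :=
  fun η hη => h.mono fun _ e => N.mono e hη.le

/-- a sequence with control `C / (m + 1)` -/
theorem sm_of_div {x : ∀ m, 𝒞.Hom (a m) (b m)} (C : ℝ)
    (h : ∀ᶠ m : ℕ in atTop, N.N (C * (1 / ((m : ℝ) + 1))) (x m)) : N.Sm x := fun η hη => by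
  have := (tendsto_one_div_add_atTop_nhds_zero_nat (𝕜 := ℝ)).const_mul C
  rw [mul_zero] at this
  exact (h.and (Filter.Tendsto.eventually_le_const hη this)).mono fun m e => N.mono e.1 e.2

theorem Sm.mul {x : ∀ m, 𝒞.Hom (a m) (b m)} {y : ∀ m, 𝒞.Hom (b m) (c m)} (h : N.Sm x)
    (h' : N.Sm y) : N.Sm fun m => x m * y m := fun η hη =>
  ((h _ (half_pos hη)).and (h' _ (half_pos hη))).mono fun _ e =>
    N.mono (N.mul e.1 e.2) (add_halves η).le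

theorem Sm.ct {x : ∀ m, 𝒞.Hom (a m) (b m)} (h : N.Sm x) : N.Sm fun m => (x m).ct :=
  fun η hη => (h η hη).mono fun _ e => N.ct e

theorem Sm.congr {x y : ∀ m, 𝒞.Hom (a m) (b m)} (h : N.Sm x) (e : ∀ᶠ m in atTop, x m = y m) :
    N.Sm y := fun η hη => ((h η hη).and e).mono fun _ k => k.2 ▸ k.1

variable (N)

/-- the sequences whose control tends to zero -/
def ss (a b : ℕ → O) : AddSubgroup (∀ m, 𝒞.Hom (a m) (b m)) where
  carrier := {x | N.Sm x}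
  zero_mem' := fun η _ => .of_forall fun _ => N.zero η _ _
  add_mem' := fun h h' η hη => ((h η hη).and (h' η hη)).mono fun _ e => N.add e.1 e.2
  neg_mem' := fun h η hη => (h η hη).mono fun _ e => N.neg e

/-- the sequences that vanish eventually -/
def ez (a b : ℕ → O) : AddSubgroup (N.ss a b) where
  carrier := {x | ∀ᶠ m in atTop, x.1 m = 0}
  zero_mem' := .of_forall fun _ => rfl
  add_mem' := fun {x y} h h' => (h.and h').mono fun m e => by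
    change x.1 m + y.1 m = 0
    rw [e.1, e.2, add_zero]
  neg_mem' := fun {x} h => h.mono fun m e => by
    change -x.1 m = 0
    rw [e, neg_zero]

variable {N}

theorem q_eq {x y : N.ss a b} : (x : N.ss a b ⧸ N.ez a b) = y ↔ ∀ᶠ m in atTop, x.1 m = y.1 m := by
  rw [QuotientAddGroup.eq]
  exact eventually_congr (.of_forall fun m => neg_add_eq_zero)

theorem q_rel {x y : N.ss a b} :
    (QuotientAddGroup.leftRel (N.ez a b)) x y ↔ ∀ᶠ m in atTop, x.1 m = y.1 m :=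
  QuotientAddGroup.leftRel_apply.trans (eventually_congr (.of_forall fun m => neg_add_eq_zero))

theorem q_ext {x y : N.ss a b} (h : ∀ m, x.1 m = y.1 m) : (x : N.ss a b ⧸ N.ez a b) = y :=
  q_eq.2 (.of_forall h)

end Cs

open Cs

/-- the category of germs -/
def Gm (N : Cs 𝒞) : SCat (ℕ → O) where
  Hom a b := N.ss a b ⧸ N.ez a b
  acg a b := inferInstance
  mul := Quotient.map₂ (fun x y => ⟨fun m => x.1 m * y.1 m, Sm.mul x.2 y.2⟩) fun _ _ h _ _ h' =>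
    q_rel.2 (((q_rel.1 h).and (q_rel.1 h')).mono fun m e => congrArg₂ (· * ·) e.1 e.2)
  one a := QuotientAddGroup.mk ⟨fun m => 1, sm_of_zero (.of_forall fun _ => N.one _)⟩
  cj := Quotient.map (fun x => ⟨fun m => (x.1 m).ct, Sm.ct x.2⟩) fun _ _ h =>
    q_rel.2 ((q_rel.1 h).mono fun m e => congrArg SCat.Hom.ct e)
  inl a b := QuotientAddGroup.mk ⟨fun m => 𝒞.inl (a m) (b m),
    sm_of_zero (.of_forall fun _ => N.inl _ _)⟩
  inr a b := QuotientAddGroup.mk ⟨fun m => 𝒞.inr (a m) (b m),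
    sm_of_zero (.of_forall fun _ => N.inr _ _)⟩
  mul_assoc x y z := Quotient.inductionOn₃ x y z fun _ _ _ => q_ext fun _ => Hm.mul_assoc _ _ _
  one_mul x := Quotient.inductionOn x fun _ => q_ext fun _ => Hm.one_mul _
  mul_one x := Quotient.inductionOn x fun _ => q_ext fun _ => Hm.mul_one _
  mul_add x y z := Quotient.inductionOn₃ x y z fun _ _ _ => q_ext fun _ => Hm.mul_add _ _ _
  add_mul x y z := Quotient.inductionOn₃ x y z fun _ _ _ => q_ext fun _ => Hm.add_mul _ _ _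
  cj_add x y := Quotient.inductionOn₂ x y fun _ _ => q_ext fun _ => conjTranspose_add _ _
  cj_mul x y := Quotient.inductionOn₂ x y fun _ _ => q_ext fun _ => conjTranspose_mul _ _
  cj_cj x := Quotient.inductionOn x fun _ => q_ext fun _ => conjTranspose_conjTranspose _
  inl_inl a b := q_ext fun _ => SC_ll
  inr_inr a b := q_ext fun _ => SC_rr
  inl_inr a b := q_ext fun _ => SC_lr
  total a b := q_ext fun _ => SC_tot
  one_zero := q_ext fun _ => 𝒞.one_zero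

variable {N : Cs 𝒞} {a b c d : ℕ → O}

/-- the germ of a sequence -/
def gm (x : ∀ m, 𝒞.Hom (a m) (b m)) (h : N.Sm x) : (Gm N).Hom a b :=
  (QuotientAddGroup.mk ⟨x, h⟩ : N.ss a b ⧸ N.ez a b)

/-- the sequence represents the germ -/
def Rp (X : (Gm N).Hom a b) (x : ∀ m, 𝒞.Hom (a m) (b m)) : Prop := ∃ h, gm x h = X

theorem rp_gm {x : ∀ m, 𝒞.Hom (a m) (b m)} (h : N.Sm x) : Rp (gm x h) x := ⟨h, rfl⟩

theorem exists_rp (X : (Gm N).Hom a b) : ∃ x, Rp X x :=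
  Quotient.inductionOn X fun x => ⟨x.1, x.2, rfl⟩

namespace Rp

variable {X Y : (Gm N).Hom a b} {x y : ∀ m, 𝒞.Hom (a m) (b m)}

theorem sm (h : Rp X x) : N.Sm x := h.1

theorem eq_iff (h : Rp X x) (h' : Rp Y y) : X = Y ↔ ∀ᶠ m in atTop, x m = y m := by
  obtain ⟨_, rfl⟩ := h
  obtain ⟨_, rfl⟩ := h'
  exact q_eq

theorem ext (h : Rp X x) (h' : Rp Y y) (e : ∀ m, x m = y m) : X = Y :=
  (h.eq_iff h').2 (.of_forall e)

theorem congr (h : Rp X x) (e : ∀ᶠ m in atTop, x m = y m) : Rp X y :=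
  ⟨h.sm.congr e, ((rp_gm _).eq_iff h).2 (e.mono fun _ k => k.symm)⟩

theorem zero : Rp (0 : (Gm N).Hom a b) fun _ => 0 := ⟨(N.ss a b).zero_mem, rfl⟩

theorem one : Rp (1 : (Gm N).Hom a a) fun _ => 1 := ⟨_, rfl⟩

theorem inl : Rp ((Gm N).inl a b) fun m => 𝒞.inl (a m) (b m) := ⟨_, rfl⟩

theorem inr : Rp ((Gm N).inr a b) fun m => 𝒞.inr (a m) (b m) := ⟨_, rfl⟩

theorem add (h : Rp X x) (h' : Rp Y y) : Rp (X + Y) fun m => x m + y m := by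
  obtain ⟨h, rfl⟩ := h
  obtain ⟨h', rfl⟩ := h'
  exact ⟨(N.ss a b).add_mem h h', rfl⟩

theorem neg (h : Rp X x) : Rp (-X) fun m => -x m := by
  obtain ⟨h, rfl⟩ := h
  exact ⟨(N.ss a b).neg_mem h, rfl⟩

theorem sub (h : Rp X x) (h' : Rp Y y) : Rp (X - Y) fun m => x m - y m := by
  simpa only [sub_eq_add_neg] using h.add h'.neg

theorem zsmul (n : ℤ) (h : Rp X x) : Rp (n • X) fun m => n • x m := by
  obtain ⟨h, rfl⟩ := h
  exact ⟨(N.ss a b).zsmul_mem h n, rfl⟩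

theorem mul {Y : (Gm N).Hom b c} {y : ∀ m, 𝒞.Hom (b m) (c m)} (h : Rp X x) (h' : Rp Y y) :
    Rp (X * Y) fun m => x m * y m := by
  obtain ⟨h, rfl⟩ := h
  obtain ⟨h', rfl⟩ := h'
  exact ⟨h.mul h', rfl⟩

theorem ct (h : Rp X x) : Rp X.ct fun m => (x m).ct := by
  obtain ⟨h, rfl⟩ := h
  exact ⟨h.ct, rfl⟩

theorem rows {X : (Gm N).Hom a c} {Y : (Gm N).Hom b c} {x : ∀ m, 𝒞.Hom (a m) (c m)}
    {y : ∀ m, 𝒞.Hom (b m) (c m)} (h : Rp X x) (h' : Rp Y y) :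
    Rp (fromRows X Y) fun m => fromRows (x m) (y m) := (inl.ct.mul h).add (inr.ct.mul h')

theorem cols {X : (Gm N).Hom c a} {Y : (Gm N).Hom c b} {x : ∀ m, 𝒞.Hom (c m) (a m)}
    {y : ∀ m, 𝒞.Hom (c m) (b m)} (h : Rp X x) (h' : Rp Y y) :
    Rp (fromCols X Y) fun m => fromCols (x m) (y m) := (h.mul inl).add (h'.mul inr)

theorem blocks {X₁ : (Gm N).Hom a c} {X₂ : (Gm N).Hom a d} {X₃ : (Gm N).Hom b c}
    {X₄ : (Gm N).Hom b d} {x₁ : ∀ m, 𝒞.Hom (a m) (c m)} {x₂ : ∀ m, 𝒞.Hom (a m) (d m)}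
    {x₃ : ∀ m, 𝒞.Hom (b m) (c m)} {x₄ : ∀ m, 𝒞.Hom (b m) (d m)} (h₁ : Rp X₁ x₁) (h₂ : Rp X₂ x₂)
    (h₃ : Rp X₃ x₃) (h₄ : Rp X₄ x₄) :
    Rp (fromBlocks X₁ X₂ X₃ X₄) fun m => fromBlocks (x₁ m) (x₂ m) (x₃ m) (x₄ m) :=
  (h₁.cols h₂).rows (h₃.cols h₄)

theorem sy {X : (Gm N).Hom a a} {x : ∀ m, 𝒞.Hom (a m) (a m)} (ε : ℤˣ) (h : Rp X x) :
    Rp (sy ε X) fun m => sy ε (x m) := h.add (h.ct.zsmul _)

theorem hyp : Rp (hypF (Gm N) a) fun m => hypF 𝒞 (a m) := blocks zero one zero zero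

end Rp

/-- the functor on germs given by a sequence of functors -/
noncomputable def gfn {N' : Cs 𝒟} (F : ℕ → Fn 𝒞 𝒟) (P : Cls (ℕ → O)) (P' : Cls (ℕ → O'))
    (hP : ∀ a, P.P a → P'.P fun m => (F m).ob (a m))
    (hS : ∀ a b, P.P a → P.P b → ∀ x : ∀ m, 𝒞.Hom (a m) (b m), N.Sm x →
      N'.Sm fun m => (F m).map (x m)) : Fn (full (Gm N) P) (full (Gm N') P') where
  ob a := ⟨fun m => (F m).ob (a.1 m), hP _ a.2⟩
  map {a b} := Quotient.map (fun x => ⟨fun m => (F m).map (x.1 m), hS _ _ a.2 b.2 _ x.2⟩)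
    fun _ _ h => q_rel.2 ((q_rel.1 h).mono fun m e => congrArg (F m).map e)
  map_add x y := Quotient.inductionOn₂ x y fun _ _ => q_ext fun m => (F m).map_add _ _
  map_mul x y := Quotient.inductionOn₂ x y fun _ _ => q_ext fun m => (F m).map_mul _ _
  map_one a := q_ext fun m => (F m).map_one _
  map_ct x := Quotient.inductionOn x fun _ => q_ext fun m => (F m).map_ct _

theorem rp_gfn {N' : Cs 𝒟} {F : ℕ → Fn 𝒞 𝒟} {P : Cls (ℕ → O)} {P' : Cls (ℕ → O')}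
    {hP : ∀ a, P.P a → P'.P fun m => (F m).ob (a m)}
    {hS : ∀ a b, P.P a → P.P b → ∀ x : ∀ m, 𝒞.Hom (a m) (b m), N.Sm x →
      N'.Sm fun m => (F m).map (x m)} {a b : P.T} {X : (Gm N).Hom a.1 b.1}
    {x : ∀ m, 𝒞.Hom (a.1 m) (b.1 m)} (h : Rp X x) :
    Rp (N := N') (a := fun m => (F m).ob (a.1 m)) (b := fun m => (F m).ob (b.1 m))
      ((gfn F P P' hP hS).map (a := a) (b := b) X) fun m => (F m).map (x m) := by
  obtain ⟨h, rfl⟩ := h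
  exact ⟨hS _ _ a.2 b.2 _ h, rfl⟩

end Pool.Agent.Work.MP_9d1ffa_al.Ct.LL
end

-- merged part: Pool.Agent.Work.MP_9d1ffa_al.LL.Gw
section
/-! The Laurent extension of a category of germs. -/

set_option linter.unusedSectionVars false
set_option linter.unusedVariables false

namespace Pool.Agent.Work.MP_9d1ffa_al.Ct.LL

open Filter Cs

variable {O : Type 1} [Add O] [Zero O] {𝒞 𝒟 : SCat O}

/-- a Laurent extension that respects the control -/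
structure CLau (Λ : Lau 𝒞 𝒟) (N : Cs 𝒞) (N' : Cs 𝒟) : Prop where
  e : ∀ {η : ℝ} {a b : O} {x : 𝒞.Hom a b}, N.N η x → N'.N η (Λ.cst x)
  f : ∀ {η : ℝ} {a b : O} (P : ℤ → Prop) {x : 𝒟.Hom a b}, N'.N η x → N'.N η (Λ.fd P x)
  c : ∀ {η : ℝ} {a b : O} {x : 𝒟.Hom a b}, N'.N η x → N.N η (Λ.c0 x)
  z : ∀ (a : O) (n : ℤ), N'.N 0 (Λ.zz a n)

variable {Λ : Lau 𝒞 𝒟} {N : Cs 𝒞} {N' : Cs 𝒟}

theorem CLau.wi (h : CLau Λ N N') (a : O) (n : ℕ) : N'.N 0 (Λ.wi a n) := by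
  induction n with
  | zero => exact N'.zero _ _ _
  | succ n ih => exact Cs.rows ih (h.z _ _)

theorem CLau.wc (h : CLau Λ N N') (a : O) (n : ℕ) : N'.N 0 (Λ.wc a n) := by
  induction n with
  | zero => exact N'.zero _ _ _
  | succ n ih => exact Cs.cols ih (h.z _ _)

theorem lau_dg_wi (Λ : Lau 𝒞 𝒟) (a : O) (n : ℕ) : Λ.Dg (fun j => 0 ≤ j ∧ j < n) (Λ.wi a n) := by
  induction n with
  | zero => exact Lau.dg_zero
  | succ n ih =>
    exact Lau.dg_rows.2 ⟨ih.mono fun _ h => by omega, (Lau.dg_zz _).mono fun _ h => by omega⟩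

theorem lau_dg_wc (Λ : Lau 𝒞 𝒟) (a : O) (n : ℕ) : Λ.Dg (fun j => j ≤ 0 ∧ -j < n) (Λ.wc a n) := by
  induction n with
  | zero => exact Lau.dg_zero
  | succ n ih =>
    exact Lau.dg_cols.2 ⟨ih.mono fun _ h => by omega, (Lau.dg_zz _).mono fun _ h => by omega⟩

theorem lau_wi_wc (Λ : Lau 𝒞 𝒟) (a : O) (n : ℕ) : Λ.c0 (Λ.wi a n * Λ.wc a n) = 1 := by
  induction n with
  | zero => exact Lau.KFr_zero _ _
  | succ n ih =>
    have e : Λ.c0 (fromRows (Λ.wi a n) (Λ.zz a n) * fromCols (Λ.wc a n) (Λ.zz a (-n))) = 1 := by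
      rw [fromRows_mul_fromCols, Lau.c0_blocks, ih, Lau.zz_mul, add_neg_cancel, Lau.zz_zero,
        Lau.c0_one, ((lau_dg_wi Λ a n).mul (Lau.dg_zz _) (T := (· ≠ 0))
          fun _ _ _ _ => by omega).c0_zero fun e => e rfl, ((Lau.dg_zz _).mul (lau_dg_wc Λ a n)
          (T := (· ≠ 0)) fun _ _ _ _ => by omega).c0_zero fun e => e rfl, fromBlocks_one]
    exact e

/-- an additive operation on germs given level by level -/
def gop {𝒞 𝒟 : SCat O} {N : Cs 𝒞} {N' : Cs 𝒟} {a b : ℕ → O}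
    (f : ∀ m, 𝒞.Hom (a m) (b m) →+ 𝒟.Hom (a m) (b m))
    (hf : ∀ m η x, N.N η x → N'.N η (f m x)) : (Gm N).Hom a b →+ (Gm N').Hom a b :=
  AddMonoidHom.mk' (Quotient.map
    (fun x => ⟨fun m => f m (x.1 m), fun η hη => (x.2 η hη).mono fun m => hf m η _⟩)
    fun _ _ h => q_rel.2 ((q_rel.1 h).mono fun m e => congrArg (f m) e))
    fun x y => Quotient.inductionOn₂ x y fun _ _ => q_ext fun m => map_add (f m) _ _

theorem rp_gop {𝒞 𝒟 : SCat O} {N : Cs 𝒞} {N' : Cs 𝒟} {a b : ℕ → O}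
    {f : ∀ m, 𝒞.Hom (a m) (b m) →+ 𝒟.Hom (a m) (b m)}
    {hf : ∀ m η x, N.N η x → N'.N η (f m x)} {X : (Gm N).Hom a b} {x : ∀ m, 𝒞.Hom (a m) (b m)}
    (h : Rp X x) : Rp (gop f hf X) fun m => f m (x m) := by
  obtain ⟨h, rfl⟩ := h
  exact ⟨_, rfl⟩

/-- the Laurent extension of the category of germs -/
noncomputable def gla (h : CLau Λ N N') (P : Cls (ℕ → O))
    (hP : ∀ a (n : ℕ → ℕ), P.P a → P.P fun m => wo (a m) (n m)) :
    La (full (Gm N) P) (full (Gm N') P) where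
  e := gop (fun _ => Λ.e) fun _ _ _ => h.e
  f Q := gop (fun m => Λ.f (Q m)) fun m _ _ => h.f (Q m)
  c := gop (fun _ => Λ.c) fun _ _ _ => h.c
  zz a n := gm (fun m => Λ.zz (a.1 m) (n m)) (sm_of_zero (.of_forall fun _ => h.z _ _))
  wo a n := ⟨fun m => wo (a.1 m) (n m), hP _ _ a.2⟩
  wi a n := gm (fun m => Λ.wi (a.1 m) (n m)) (sm_of_zero (.of_forall fun _ => h.wi _ _))
  wc a n := gm (fun m => Λ.wc (a.1 m) (n m)) (sm_of_zero (.of_forall fun _ => h.wc _ _))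
  e_mul x y := Quotient.inductionOn₂ x y fun _ _ => q_ext fun _ => Λ.e_mul _ _
  e_one a := q_ext fun _ => Λ.e_one _
  e_ct x := Quotient.inductionOn x fun _ => q_ext fun _ => Λ.e_ct _
  e_inl a b := q_ext fun _ => Λ.e_inl _ _
  e_inr a b := q_ext fun _ => Λ.e_inr _ _
  f_f P Q _ _ x := Quotient.inductionOn x fun _ => q_ext fun _ => Λ.f_f _ _ _
  f_not P _ _ x := Quotient.inductionOn x fun _ => q_ext fun _ => Λ.f_not _ _
  f_false x := Quotient.inductionOn x fun _ => q_ext fun _ => Λ.f_false _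
  f_mul P Q T _ _ _ x y := Quotient.inductionOn₂ x y fun _ _ hx hy k =>
    q_eq.2 (((q_eq.1 hx).and (q_eq.1 hy)).mono fun m e => Λ.f_mul _ _ _ _ _ e.1 e.2 (k m))
  e_c x := Quotient.inductionOn x fun _ => q_ext fun _ => Λ.e_c _
  c_e x := Quotient.inductionOn x fun _ => q_ext fun _ => Λ.c_e _
  z_zero a := q_ext fun _ => Λ.z_zero _
  z_add a m n := q_ext fun _ => Λ.z_add _ _ _
  z_comm n x := Quotient.inductionOn x fun _ => q_ext fun _ => Λ.z_comm _ _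
  f_z a n := q_ext fun _ => Λ.f_z _ _
  bdd x := Quotient.inductionOn x fun x =>
    ⟨fun m => (Λ.bdd (x.1 m)).choose, q_ext fun m => (Λ.bdd (x.1 m)).choose_spec⟩
  f_wi a n := q_ext fun _ => lau_dg_wi Λ _ _
  wi_wc a n := q_ext fun _ => lau_wi_wc Λ _ _
  w_fd n x := Quotient.inductionOn x fun _ => q_ext fun _ => Lau.KWin_fd _ _

end Pool.Agent.Work.MP_9d1ffa_al.Ct.LL
end

-- merged part: Pool.Agent.Work.MP_9d1ffa_al.LL.Fb
section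
/-! Boxes of lagrangians, and the vanishing properties relative to a class of objects. -/

set_option linter.unusedSectionVars false
set_option linter.unusedVariables false

namespace Pool.Agent.Work.MP_9d1ffa_al.Ct.LL

variable {O : Type 1} [Add O] [Zero O] {𝒞 : SCat O} {ε η : ℤˣ} {I J K L M : O}

/-- a box for a rectangular pair of matrices -/
def BoxG (ε : ℤˣ) (x φ : 𝒞.Hom L I) (θ : 𝒞.Hom (I + M) (I + M)) (m : 𝒞.Hom L M) : Prop :=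
  fromCols x m * sy ε θ = fromCols φ 0 ∧
    ∃ (B : 𝒞.Hom M (I + M)) (c : 𝒞.Hom M I), B * sy ε θ = fromCols c 1

/-- there is a box -/
def HB (ε : ℤˣ) (x φ : 𝒞.Hom L I) : Prop :=
  ∃ (M : O) (θ : 𝒞.Hom (I + M) (I + M)) (m : 𝒞.Hom L M), BoxG ε x φ θ m

/-- the lagrangian with the standard lagrangian added -/
def padl (κ : O) (l : 𝒞.Hom L (I + I)) : 𝒞.Hom (L + κ) ((I + κ) + (I + κ)) :=
  fromCols (fromBlocks l.toCols₁ 0 0 1) (fromBlocks l.toCols₂ 0 0 0)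

/-- the extension by the identity along an isometric embedding -/
def xtU (j : 𝒞.Hom I J) (U : 𝒞.Hom (I + I) (I + I)) : 𝒞.Hom (J + J) (J + J) :=
  1 + (fromBlocks j 0 0 j).ct * (U - 1) * fromBlocks j 0 0 j

theorem BoxG.left {x φ : 𝒞.Hom L I} {θ : 𝒞.Hom (I + M) (I + M)} {m : 𝒞.Hom L M}
    (h : BoxG ε x φ θ m) (t : 𝒞.Hom K L) : BoxG ε (t * x) (t * φ) θ (t * m) :=
  ⟨by rw [← mul_fromCols, Hm.mul_assoc, h.1, mul_fromCols, Hm.mul_zero], h.2⟩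

theorem HB.left {x φ : 𝒞.Hom L I} (h : HB ε x φ) (t : 𝒞.Hom K L) : HB ε (t * x) (t * φ) := by
  obtain ⟨M, θ, m, h⟩ := h
  exact ⟨M, θ, _, h.left t⟩

theorem HB.destab {x φ : 𝒞.Hom L I}
    (h : HB ε (fromBlocks x 0 0 (1 : 𝒞.Hom J J)) (fromBlocks φ 0 0 (0 : 𝒞.Hom J J))) :
    HB ε x φ := by
  obtain ⟨M, θ, m, h2, C, c, h3⟩ := h
  have e1 : fromCols (fromBlocks x 0 0 (1 : 𝒞.Hom J J)) m =
      fromRows (fromCols (fromCols x 0) m.toRows₁) (fromCols (fromCols 0 1) m.toRows₂) := by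
    refine ext_rows ?_ ?_ <;> simp
  have e2 : fromCols (fromBlocks φ 0 0 (0 : 𝒞.Hom J J)) (0 : 𝒞.Hom (L + J) M) =
      fromRows (fromCols (fromCols φ 0) 0) 0 := by
    refine ext_rows ?_ ?_ <;> simp
  rw [e1, e2, fromRows_mul, fromRows_ext_iff] at h2
  let T : 𝒞.Hom (I + M) ((I + J) + M) := fromBlocks (fromCols 1 0) 0 0 1
  have key : ∀ {L : O} (a : 𝒞.Hom L I) (b : 𝒞.Hom L M),
      fromCols a b * T = fromCols (fromCols a 0) b := by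
    intro L a b
    simp [T, fromCols_mul_fromBlocks, mul_fromCols]
  have key2 : ∀ {L : O} (a : 𝒞.Hom L (I + J)) (b : 𝒞.Hom L M),
      fromCols a b * T.ct = fromCols a.toCols₁ b := by
    intro L a b
    conv_lhs => rw [← fromCols_toCols a]
    simp [T, fromBlocks_conjTranspose, conjTranspose_fromCols_eq_fromRows_conjTranspose,
      fromCols_mul_fromBlocks, fromCols_mul_fromRows, -fromCols_toCols]
  refine ⟨M, T * θ * T.ct, m.toRows₁, ?_,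
    fromCols C.toCols₁.toCols₁ (C.toCols₂ - C.toCols₁.toCols₂ * m.toRows₂), c.toCols₁, ?_⟩
  · rw [OBox_T0, key, h2.1, key2, toCols₁_fromCols]
  · have e3 : fromCols (fromCols C.toCols₁.toCols₁ 0)
        (C.toCols₂ - C.toCols₁.toCols₂ * m.toRows₂) =
        C - C.toCols₁.toCols₂ * fromCols (fromCols 0 1) m.toRows₂ := by
      rw [mul_fromCols, mul_fromCols, Hm.mul_zero, Hm.mul_one]
      refine ext_cols (ext_cols ?_ ?_) ?_ <;> simp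
    rw [OBox_T0, key, e3, Hm.sub_mul, Hm.mul_assoc _ _ (sy ε θ), h2.2, Hm.mul_zero,
      sub_zero, h3, key2]

theorem nul_of_box {V : 𝒞.Hom (I + I) (I + I)} (hV : Uni (-ε) V)
    (h : HB ε V.toBlocks₁₁ V.toBlocks₁₂) : Nul (-ε) V := by
  have hg := genU_swap (𝒞 := 𝒞) (η := -ε) (I := I)
  have hW := hg.uni.mul hV
  obtain ⟨M, θ, m, hb⟩ := h.left (((-ε : ℤˣ) : ℤ) • (1 : 𝒞.Hom I I))
  obtain ⟨C, hC⟩ := (BoxD.sys hW (θ := θ) (m := m) (by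
    rw [← fromBlocks_toBlocks V, fromBlocks_multiply, toBlocks_fromBlocks₂₁, toBlocks_fromBlocks₂₂,
      Hm.zero_mul, Hm.zero_mul, add_zero, add_zero]
    exact hb)).exists_left_inv
  have := ucl_sys (hW.dsum uni_one) hC
  rwa [ucl_dsum hW uni_one, ucl_one, add_zero, ucl_mul hg.uni hV, ucl_gen hg, zero_add,
    ucl_eq_zero hV] at this

theorem hb_of_nul {V : 𝒞.Hom (I + I) (I + I)} (hV : Uni (-ε) V) (h : Nul (-ε) V) :
    HB ε V.toBlocks₁₁ V.toBlocks₁₂ :=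
  hasBox_upper hV ((ucl_eq_zero hV).2 h)

theorem Fb_row {j : 𝒞.Hom I J} (hj : j * j.ct = 1) (a : 𝒞.Hom I I) :
    j * (1 + j.ct * (a - 1) * j) = a * j := by
  rw [Hm.mul_add, Hm.mul_one, ← Hm.mul_assoc, ← Hm.mul_assoc, hj, Hm.one_mul, Hm.sub_mul,
    Hm.one_mul, add_sub_cancel]

theorem Fb_mul {j : 𝒞.Hom I J} (hj : j * j.ct = 1) (a b : 𝒞.Hom I I) :
    (1 + j.ct * (a - 1) * j) * (1 + j.ct * (b - 1) * j) = 1 + j.ct * (a * b - 1) * j := by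
  rw [Hm.add_mul, Hm.one_mul, Hm.mul_assoc _ j, Fb_row hj]
  simp only [Hm.mul_sub, Hm.sub_mul, Hm.mul_assoc, Hm.mul_one]
  abel

theorem Fb_dd {j : 𝒞.Hom I J} (hj : j * j.ct = 1) :
    fromBlocks j 0 0 j * (fromBlocks j 0 0 j).ct = 1 := by
  simp [fromBlocks_conjTranspose, fromBlocks_multiply, hj]

theorem Fb_blocks (j : 𝒞.Hom I J) (a b c d : 𝒞.Hom I I) : xtU j (fromBlocks a b c d) =
    fromBlocks (1 + j.ct * (a - 1) * j) (j.ct * b * j) (j.ct * c * j) (1 + j.ct * (d - 1) * j) := by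
  rw [xtU, ← fromBlocks_one (I := I), ← fromBlocks_one (I := J), fromBlocks_sub]
  simp only [fromBlocks_conjTranspose, fromBlocks_multiply, fromBlocks_add, conjTranspose_zero,
    Hm.mul_zero, Hm.zero_mul, add_zero, zero_add, sub_zero]

theorem xtU_row {j : 𝒞.Hom I J} (hj : j * j.ct = 1) (U : 𝒞.Hom (I + I) (I + I)) :
    fromBlocks j 0 0 j * xtU j U = U * fromBlocks j 0 0 j :=
  Fb_row (Fb_dd hj) U

theorem xtU_mul {j : 𝒞.Hom I J} (hj : j * j.ct = 1) (U V : 𝒞.Hom (I + I) (I + I)) :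
    xtU j U * xtU j V = xtU j (U * V) :=
  Fb_mul (Fb_dd hj) U V

theorem ru_xtU {j : 𝒞.Hom I J} (hj : j * j.ct = 1) {U : 𝒞.Hom (I + I) (I + I)}
    (h : U ∈ RU 𝒞 η I) : xtU j U ∈ RU 𝒞 η J := by
  induction h using Submonoid.closure_induction with
  | one =>
    rw [xtU, sub_self, Hm.mul_zero, Hm.zero_mul, add_zero]
    exact one_mem _
  | mul U U' _ _ h h' => exact xtU_mul hj U U' ▸ mul_mem h h'
  | mem U h =>
    cases h with
    | gl g g' h1 h2 =>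
      refine OU2_of_eq (GenU.gl (1 + j.ct * (g - 1) * j) (1 + j.ct * (g' - 1) * j) ?_ ?_) ?_
      · rw [Fb_mul hj, h1, sub_self, Hm.mul_zero, Hm.zero_mul, add_zero]
      · rw [Fb_mul hj, h2, sub_self, Hm.mul_zero, Hm.zero_mul, add_zero]
      · simp [Fb_blocks, Hm.mul_assoc]
    | sh χ =>
      refine OU2_of_eq (GenU.sh (j.ct * χ * j)) ?_
      simp [Fb_blocks, Hm.mul_assoc, Hm.mul_sub, Hm.sub_mul, -zsmul_eq_mul]
    | sw κ s h =>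
      refine OU2_of_eq (GenU.sw κ (s * j) ?_) ?_
      · rw [conjTranspose_mul, Hm.mul_assoc, ← Hm.mul_assoc j, hj, Hm.one_mul, h]
      · simp [Fb_blocks, Hm.mul_assoc, sub_eq_add_neg, -zsmul_eq_mul]

theorem Fb_iso {θ : 𝒞.Hom I I} {l : 𝒞.Hom L I} (h : Eqv η 0 (l * θ * l.ct)) (t : 𝒞.Hom K L) :
    Eqv η 0 (t * l * θ * (t * l).ct) := by
  simpa only [Hm.mul_zero, Hm.zero_mul, conjTranspose_mul, Hm.mul_assoc] using h.conj t

theorem LagD.compl {θ : 𝒞.Hom I I} {l : 𝒞.Hom L I} (h : LagD η θ l) :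
    ∃ E : 𝒞.Hom I I, E * E = E ∧ l * E = l ∧ Eqv η 0 (E * θ * E.ct) ∧
      Eqv η 0 ((1 - E) * θ * (1 - E).ct) := by
  obtain ⟨h0, b, a, h⟩ := h
  have h1 := iso_sy h0
  have h3 : l * (sy η θ * l.ct * b) = 0 := by
    rw [← Hm.mul_assoc, ← Hm.mul_assoc, h1, Hm.zero_mul]
  have h4 : sy η θ * l.ct * b * sy η θ * l.ct * b = sy η θ * l.ct * b := by
    conv_lhs => rw [eq_sub_of_add_eq h]
    rw [Hm.mul_assoc, Hm.mul_assoc, ← Hm.mul_assoc (sy η θ), Hm.sub_mul, Hm.one_mul, Hm.mul_assoc a,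
      h3, Hm.mul_zero, sub_zero]
  generalize sy η θ * l.ct * b = g at h h3 h4
  have h5 : l * ((a + g * (b * θ).ct) * l) = l := by
    conv_rhs => rw [← Hm.mul_one l, ← h]
    rw [Hm.add_mul, Hm.mul_add, Hm.mul_add, ← Hm.mul_assoc _ (g * _), ← Hm.mul_assoc _ g, h3,
      Hm.zero_mul, Hm.zero_mul, add_comm]
  refine ⟨(a + g * (b * θ).ct) * l, by rw [Hm.mul_assoc, h5], h5, Fb_iso h0 _, ?_⟩
  have e : 1 - (a + g * (b * θ).ct) * l = g + -(g * (b * θ).ct) * l := by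
    rw [← h, Hm.add_mul, Hm.neg_mul]
    abel
  have e2 : g * θ * g.ct + g * sy η θ * (-(g * (b * θ).ct) * l).ct = 0 := by
    simp only [conjTranspose_mul, conjTranspose_neg, conjTranspose_conjTranspose, Hm.mul_neg,
      ← Hm.mul_assoc, h4, add_neg_cancel]
  rw [e]
  refine Eqv.trans ?_ (eqv_cross _ _ _)
  rw [e2, zero_add]
  exact Fb_iso h0 _

theorem Fb_ds {X : 𝒞.Hom (I + I) (I + I)} {Y : 𝒞.Hom (J + J) (J + J)}
    (hX : Eqv η 0 (X * hypF 𝒞 I * X.ct)) (hY : Y * hypF 𝒞 J * Y.ct = 0) :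
    Eqv η 0 (dsum X Y * hypF 𝒞 (I + J) * (dsum X Y).ct) := by
  have e : hypF 𝒞 (I + J) = dsum (hypF 𝒞 I) (hypF 𝒞 J) := by simp [hypF, dsum_blocks]
  rw [e, dsum_ct, dsum_mul, dsum_mul, dsum_four]
  simpa using (eqv_blocks hX (Eqv.of_eq hY.symm) (b := 0) (c := 0) rfl).conj (sFour 𝒞 I I J J)

theorem Fb_left (κ : O) (t : 𝒞.Hom K L) (l : 𝒞.Hom L (I + I)) :
    fromBlocks t 0 0 1 * padl κ l = padl κ (t * l) := by
  simp [padl, fromBlocks_multiply, toCols₁_mul, toCols₂_mul]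

theorem Fb_right (κ : O) (l : 𝒞.Hom L (I + I)) (E : 𝒞.Hom (I + I) (I + I)) :
    padl κ l * dsum E (fromBlocks 1 0 0 0) = padl κ (l * E) := by
  obtain ⟨a, b, c, d, rfl⟩ := exists_blocks E
  obtain ⟨x, y, rfl⟩ := exists_cols l
  simp [padl, dsum_blocks, fromCols_mul_fromBlocks, fromBlocks_multiply, fromBlocks_add]

theorem ul_of (hS : SFI 𝒞) (hT : Stab 𝒞) {l : 𝒞.Hom L (I + I)} (h : LagD η (hypF 𝒞 I) l) :
    ∃ (κ : O) (U : 𝒞.Hom ((I + κ) + (I + κ)) ((I + κ) + (I + κ))) (t : 𝒞.Hom (L + κ) (I + κ)),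
      Uni η U ∧ padl κ l = t * U.toRows₁ := by
  obtain ⟨E, e0, e1, e2, e3⟩ := h.compl
  obtain ⟨κ, f1, f2⟩ := exists_padF hT (hS _ _ e0) (hS _ _ (IsIdempotentElem.one_sub e0))
  have e : 1 - dsum E (fromBlocks 1 0 0 0 : 𝒞.Hom (κ + κ) (κ + κ)) =
      dsum (1 - E) (fromBlocks 0 0 0 1) := by
    obtain ⟨a, b, c, d, rfl⟩ := exists_blocks E
    rw [← fromBlocks_one (I := I), ← fromBlocks_one (I := I + κ), ← fromBlocks_one (I := I) (J := κ),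
      fromBlocks_sub, dsum_blocks, dsum_blocks, ← fromBlocks_zero (I := I) (J := κ) (K := I) (L := κ)]
    simp only [fromBlocks_sub, sub_self, sub_zero]
  obtain ⟨U, u0, u1, u2⟩ := exists_frame f1 f2
    (Fb_ds e2 (by rw [OU1_conj]; simp)) (e ▸ Fb_ds e3 (by rw [OU1_conj]; simp))
  obtain ⟨V, -, -, hV⟩ := u0.inv
  refine ⟨κ, U, padl κ l * V.toCols₁, u0, ?_⟩
  rw [← fromRows_toRows U, mul_fromRows_eq] at hV
  conv_lhs => rw [← e1, ← Fb_right, ← Hm.one_mul (dsum _ _), ← hV]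
  rw [Hm.add_mul, Hm.mul_assoc, Hm.mul_assoc, u1, u2, Hm.mul_zero, add_zero, Hm.mul_assoc]

theorem ru_of (hS : SFI 𝒞) (hT : Stab 𝒞) (h1 : Van1 𝒞 η) {l : 𝒞.Hom L (I + I)}
    (h : LagD η (hypF 𝒞 I) l) :
    ∃ (κ : O) (U : 𝒞.Hom ((I + κ) + (I + κ)) ((I + κ) + (I + κ))) (t : 𝒞.Hom (L + κ) (I + κ)),
      U ∈ RU 𝒞 η (I + κ) ∧ padl κ l = t * U.toRows₁ := by
  obtain ⟨κ, U, t, hU, e⟩ := ul_of hS hT h
  obtain ⟨κ', hr⟩ := h1 _ U hU
  have hu := unt_assoc (𝒞 := 𝒞) (I := I) (J := κ) (K := κ')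
  refine ⟨κ + κ', _, sAssoc 𝒞 L κ κ' * fromBlocks t 0 0 1 * (sAssoc 𝒞 I κ κ').ct,
    ru_reindex hr hu, ?_⟩
  have e1 : (dsum U (1 : 𝒞.Hom (κ' + κ') (κ' + κ'))).toRows₁ = padl κ' U.toRows₁ := by
    rw [← fromBlocks_one, dsum_eq]
    simp only [toRows₁_fromBlocks, toBlocks_fromBlocks₁₁, toBlocks_fromBlocks₁₂]
    rfl
  have e2 : sAssoc 𝒞 L κ κ' * padl κ' (padl κ l) =
      padl (κ + κ') l * fromBlocks (sAssoc 𝒞 I κ κ') 0 0 (sAssoc 𝒞 I κ κ') := by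
    simp [padl, sAssoc, fromBlocks_multiply, fromCols_mul_fromBlocks, fromBlocks_mul_fromRows,
      ← fromBlocks_one]
  rw [reix, toRows₁_mul, toRows₁_mul, toRows₁_fromBlocks, fromCols_mul_eq, Hm.zero_mul, add_zero,
    e1, ← Hm.mul_assoc, ← Hm.mul_assoc, Hm.mul_assoc _ _ (sAssoc 𝒞 I κ κ'), hu.2, Hm.mul_one,
    Hm.mul_assoc _ _ (padl _ _), Fb_left, ← e, e2, Hm.mul_assoc, (hu.sum hu).1, Hm.mul_one]

theorem hb_of (hS : SFI 𝒞) (hT : Stab 𝒞) (h1 : Van1 𝒞 (-ε)) {l : 𝒞.Hom L (I + I)}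
    (h : LagD (-ε) (hypF 𝒞 I) l) : HB ε l.toCols₁ l.toCols₂ := by
  obtain ⟨κ, U, t, hU, e⟩ := ul_of hS hT h
  have := (hb_of_nul hU (h1 _ U hU)).left t
  rw [SCat.Hom.toBlocks₁₁, SCat.Hom.toBlocks₁₂, ← toCols₁_mul, ← toCols₂_mul, ← e, padl,
    toCols₁_fromCols, toCols₂_fromCols] at this
  exact this.destab

/-- idempotents, forms and isometries on the object are trivial -/
def Tri (𝒞 : SCat O) (I : O) : Prop :=
  (∀ E : 𝒞.Hom I I, E * E = E → SFIdem E) ∧ (∀ (ε : ℤˣ) (ψ : 𝒞.Hom I I), NS ε ψ → Z ε ψ) ∧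
    ∀ (η : ℤˣ) (U : 𝒞.Hom (I + I) (I + I)), Uni η U → Nul η U

/-- all invariants vanish -/
def V3 (𝒞 : SCat O) : Prop := ∀ I, Tri 𝒞 I

theorem V3.sfi (h : V3 𝒞) : SFI 𝒞 := fun I => (h I).1

theorem V3.van0 (h : V3 𝒞) (ε : ℤˣ) : Van0 𝒞 ε := fun I => (h I).2.1 ε

theorem V3.van1 (h : V3 𝒞) (η : ℤˣ) : Van1 𝒞 η := fun I => (h I).2.2 η

theorem v3_of (h : SFI 𝒞) (h0 : ∀ ε, Van0 𝒞 ε) (h1 : ∀ η, Van1 𝒞 η) : V3 𝒞 :=
  fun I => ⟨h I, fun ε => h0 ε I, fun η => h1 η I⟩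

/-- idempotents are stably free inside the class -/
def SFr (𝒞 : SCat O) (P : O → Prop) : Prop :=
  ∀ I, P I → ∀ E : 𝒞.Hom I I, E * E = E →
    ∃ a b, P a ∧ P b ∧ FreeOn b (fromBlocks E 0 0 (1 : 𝒞.Hom a a))

/-- forms have stable lagrangians inside the class -/
def SLr (𝒞 : SCat O) (η : ℤˣ) (P : O → Prop) : Prop :=
  ∀ I, P I → ∀ θ : 𝒞.Hom I I, RF η θ → ∃ k, P k ∧ Lag η (fromBlocks θ 0 0 (hypF 𝒞 k))

/-- lagrangians have boxes inside the class -/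
def BXr (𝒞 : SCat O) (ε : ℤˣ) (P : O → Prop) : Prop :=
  ∀ I, P I → ∀ (L : O) (l : 𝒞.Hom L (I + I)), LagD (-ε) (hypF 𝒞 I) l →
    ∃ N, P N ∧ ∃ (θ : 𝒞.Hom (I + N) (I + N)) (m : 𝒞.Hom L N), BoxG ε l.toCols₁ l.toCols₂ θ m

/-- lagrangians are stably elementary -/
def ULr (𝒞 : SCat O) (η : ℤˣ) (P : O → Prop) : Prop :=
  ∀ I, P I → ∀ (L : O) (l : 𝒞.Hom L (I + I)), LagD η (hypF 𝒞 I) l →
    ∃ (κ : O) (U : 𝒞.Hom ((I + κ) + (I + κ)) ((I + κ) + (I + κ))) (t : 𝒞.Hom (L + κ) (I + κ)),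
      U ∈ RU 𝒞 η (I + κ) ∧ padl κ l = t * U.toRows₁

/-- a smaller class as a class of objects of the full subcategory -/
def Cls.res (P P' : Cls O) : Cls P.T :=
  ⟨fun a => P'.P a.1, P'.h0, fun a b => P'.hadd a.1 b.1⟩

variable {𝒢 : SCat O} {P P' : Cls O}

theorem sfr_of (le : ∀ a, P'.P a → P.P a) (h : SFI (full 𝒢 P')) :
    SFr (full 𝒢 P) (P.res P').P := by
  intro I hI E hE
  obtain ⟨a, b, h⟩ := h ⟨I.1, hI⟩ E hE
  exact ⟨⟨a.1, le _ a.2⟩, ⟨b.1, le _ b.2⟩, a.2, b.2, h⟩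

theorem slr_of (le : ∀ a, P'.P a → P.P a) (h : V3 (full 𝒢 P')) (η : ℤˣ) :
    SLr (full 𝒢 P) η (P.res P').P := by
  intro I hI θ hθ
  obtain ⟨k, L, l, h⟩ := sl_of_rf (I := ⟨I.1, hI⟩) (θ := θ) h.sfi (h.van0 η) hθ
  exact ⟨⟨k.1, le _ k.2⟩, k.2, ⟨L.1, le _ L.2⟩, l, h⟩

theorem bxr_of (le : ∀ a, P'.P a → P.P a) (h : V3 (full 𝒢 P')) (hT : Stab (full 𝒢 P')) (ε : ℤˣ) :
    BXr (full 𝒢 P) ε (P.res P').P := by
  intro I hI L l hl
  obtain ⟨a, h1, h2⟩ := hl.idem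
  obtain ⟨N, θ, m, h⟩ := hb_of (I := ⟨I.1, hI⟩) (L := ⟨I.1, hI⟩ + ⟨I.1, hI⟩) (l := a * l) h.sfi hT
    (h.van1 _) h1
  have := BoxG.left (𝒞 := full 𝒢 P) (M := ⟨N.1, le _ N.2⟩) (x := (a * l).toCols₁)
    (φ := (a * l).toCols₂) h l
  rw [← toCols₁_mul, ← toCols₂_mul, h2] at this
  exact ⟨⟨N.1, le _ N.2⟩, N.2, _, _, this⟩

theorem Fb_ru (le : ∀ a, P'.P a → P.P a) {I : P'.T} {U : (full 𝒢 P').Hom (I + I) (I + I)}
    (h : U ∈ RU (full 𝒢 P') η I) :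
    (show (full 𝒢 P).Hom (⟨I.1, le _ I.2⟩ + ⟨I.1, le _ I.2⟩) (⟨I.1, le _ I.2⟩ + ⟨I.1, le _ I.2⟩)
      from U) ∈ RU (full 𝒢 P) η ⟨I.1, le _ I.2⟩ := by
  induction h using Submonoid.closure_induction with
  | mem x hx =>
    cases hx with
    | gl g g' h1 h2 => exact (GenU.gl (𝒞 := full 𝒢 P) (I := ⟨I.1, le _ I.2⟩) g g' h1 h2).mem
    | sh χ => exact (GenU.sh (𝒞 := full 𝒢 P) (I := ⟨I.1, le _ I.2⟩) χ).mem
    | sw κ s h =>
      exact (GenU.sw (𝒞 := full 𝒢 P) (I := ⟨I.1, le _ I.2⟩) ⟨κ.1, le _ κ.2⟩ s h).mem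
  | one => exact (RU (full 𝒢 P) η ⟨I.1, le _ I.2⟩).one_mem
  | mul x y _ _ hx hy => exact (RU (full 𝒢 P) η ⟨I.1, le _ I.2⟩).mul_mem hx hy

theorem ulr_of (le : ∀ a, P'.P a → P.P a) (h : V3 (full 𝒢 P')) (hT : Stab (full 𝒢 P')) (η : ℤˣ) :
    ULr (full 𝒢 P) η (P.res P').P := by
  intro I hI L l hl
  obtain ⟨a, h1, h2⟩ := hl.idem
  obtain ⟨κ, U, t, hU, e⟩ := ru_of (I := ⟨I.1, hI⟩) (L := ⟨I.1, hI⟩ + ⟨I.1, hI⟩) (l := a * l) h.sfi
    hT (h.van1 _) h1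
  refine ⟨⟨κ.1, le _ κ.2⟩, U, fromBlocks l 0 0 1 * (show (full 𝒢 P).Hom
    (I + I + ⟨κ.1, le _ κ.2⟩) (I + ⟨κ.1, le _ κ.2⟩) from t), Fb_ru le hU, ?_⟩
  conv_lhs => rw [← h2, ← Fb_left]
  rw [Hm.mul_assoc]
  exact congrArg _ e

/-- a chain of four objects in which only neighbours interact -/
def Cut4 (𝒞 𝒟 : SCat O) (P₁ P₂ P₀ : O → Prop) : Prop :=
  ∀ I, ∃ (A C₁ C₂ B : O) (w : 𝒞.Hom ((A + C₁) + (C₂ + B)) I), Unt w ∧ P₁ A ∧ P₀ C₁ ∧ P₀ C₂ ∧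
    P₂ B ∧ (∀ x : 𝒟.Hom A C₂, x = 0) ∧ (∀ x : 𝒟.Hom A B, x = 0) ∧ ∀ x : 𝒟.Hom C₁ B, x = 0

end Pool.Agent.Work.MP_9d1ffa_al.Ct.LL
end

-- merged part: Pool.Agent.Work.MP_9d1ffa_al.LL.Tri
section
/-! Formal properties of trivial objects. -/

set_option linter.unusedSectionVars false
set_option linter.unusedVariables false

namespace Pool.Agent.Work.MP_9d1ffa_al.Ct.LL

variable {O O' : Type 1} [Add O] [Zero O] [Add O'] [Zero O'] {𝒞 : SCat O} {𝒟 : SCat O'}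
  {I J K : O}

theorem Tri_free_ret {Y : 𝒞.Hom I I} {S : 𝒞.Hom J I} {T : 𝒞.Hom I J} (hT : T * S = 1)
    (h : FreeIdem (S * Y * T)) : FreeIdem Y := by
  obtain ⟨b, U, W, h1, h2⟩ := h
  refine ⟨b, U * S, T * W, ?_, ?_⟩
  · have e : W = S * Y * T * W := by rw [← h2, Hm.mul_assoc, h1, Hm.mul_one]
    calc U * S * (T * W) = U * S * (T * (S * Y * T * W)) := by rw [← e]
      _ = U * (S * ((T * S) * Y) * T * W) := by simp only [Hm.mul_assoc]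
      _ = 1 := by rw [hT, Hm.one_mul, ← e, h1]
  · calc T * W * (U * S) = T * (W * U) * S := by simp only [Hm.mul_assoc]
      _ = (T * S) * Y * (T * S) := by rw [h2]; simp only [Hm.mul_assoc]
      _ = Y := by rw [hT, Hm.one_mul, Hm.mul_one]

theorem Tri_free_sum {E : 𝒞.Hom I I} {F : 𝒞.Hom J J} (h : FreeIdem E) (h' : FreeIdem F) :
    FreeIdem (fromBlocks E 0 0 F) := by
  obtain ⟨b, U, W, h1, h2⟩ := h
  obtain ⟨b', U', W', h1', h2'⟩ := h'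
  refine ⟨b + b', fromBlocks U 0 0 U', fromBlocks W 0 0 W', ?_, ?_⟩ <;>
    simp [fromBlocks_multiply, h1, h2, h1', h2']

theorem Tri_sf_re {E : 𝒞.Hom I I} {F : 𝒞.Hom J J} (h : SFIdem E) {u : 𝒞.Hom J I} (hu : Unt u)
    (e : u * E * u.ct = F) : SFIdem F := by
  obtain ⟨a, h⟩ := h
  refine ⟨a, ?_⟩
  have := USchur_reindex h (hu.sum (unt_one (I := a)))
  simpa [fromBlocks_conjTranspose, fromBlocks_multiply, e] using this

theorem Tri_sf_sum {E : 𝒞.Hom I I} {F : 𝒞.Hom J J} (h : SFIdem E) (h' : SFIdem F) :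
    SFIdem (fromBlocks E 0 0 F) := by
  obtain ⟨a, h⟩ := h
  obtain ⟨a', h'⟩ := h'
  refine ⟨a + a', ?_⟩
  have := USchur_reindex (Tri_free_sum h h') unt_four
  simpa [sFour, fromBlocks_conjTranspose, fromBlocks_multiply, fromBlocks_add] using this

theorem Tri_sf_comm {E : 𝒞.Hom I I} {F : 𝒞.Hom J J} (h : SFIdem (fromBlocks E 0 0 F)) :
    SFIdem (fromBlocks F 0 0 E) :=
  Tri_sf_re h unt_comm (by simp [sComm, fromBlocks_conjTranspose, fromBlocks_multiply])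

theorem Tri_sf_assoc {a : 𝒞.Hom I I} {b : 𝒞.Hom J J} {c : 𝒞.Hom K K}
    (h : SFIdem (fromBlocks (fromBlocks a 0 0 b) 0 0 c)) :
    SFIdem (fromBlocks a 0 0 (fromBlocks b 0 0 c)) :=
  Tri_sf_re h unt_assoc (by
    simp [sAssoc, fromBlocks_conjTranspose, fromBlocks_multiply,
      conjTranspose_fromRows_eq_fromCols_conjTranspose,
      conjTranspose_fromCols_eq_fromRows_conjTranspose, fromCols_mul_fromRows,
      fromCols_mul_fromBlocks, fromCols_fromRows_eq_fromBlocks])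

theorem Tri_sf_one {E : 𝒞.Hom I I} (h : SFIdem (fromBlocks E 0 0 (1 : 𝒞.Hom J J))) :
    SFIdem E := by
  obtain ⟨a, h⟩ := h
  refine ⟨J + a, ?_⟩
  have := USchur_reindex h unt_assoc
  simpa [sAssoc, fromBlocks_conjTranspose, fromBlocks_multiply,
    conjTranspose_fromRows_eq_fromCols_conjTranspose,
    conjTranspose_fromCols_eq_fromRows_conjTranspose, fromCols_mul_fromRows,
    fromCols_mul_fromBlocks, fromRows_fromCols_eq_fromBlocks,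
    fromCols_fromRows_eq_fromBlocks, fromBlocks_add] using this

theorem Tri_sf_cancel {E : 𝒞.Hom I I} {F : 𝒞.Hom J J} (h : SFIdem (fromBlocks E 0 0 F))
    (h' : FreeIdem F) : SFIdem E := by
  obtain ⟨a, h⟩ := h
  obtain ⟨b, U, W, h1, h2⟩ := h'
  refine Tri_sf_one (J := b) ⟨a, Tri_free_ret (J := (I + J) + a)
    (S := fromBlocks (fromBlocks 1 0 0 W) 0 0 1) (T := fromBlocks (fromBlocks 1 0 0 U) 0 0 1) ?_ ?_⟩
  · simp [fromBlocks_multiply, h1]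
  · simpa [fromBlocks_multiply, h2] using h

theorem Tri_compl {P : 𝒞.Hom J J} (hP : P * P = P) : FreeIdem (fromBlocks P 0 0 (1 - P)) := by
  refine ⟨J, fromCols P (1 - P), fromRows P (1 - P), ?_, ?_⟩
  · simp [fromCols_mul_fromRows, Hm.mul_sub, Hm.sub_mul, hP]
  · simp [fromRows_mul_fromCols, Hm.mul_sub, Hm.sub_mul, hP, -fromRows_mul, -mul_fromCols]

theorem Tri_conj {X : 𝒞.Hom I I} {Y : 𝒞.Hom J J} {u : 𝒞.Hom I J} (hu : Unt u)
    (e : X * u = u * Y) : u * Y * u.ct = X := by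
  rw [← e, Hm.mul_assoc, hu.1, Hm.mul_one]

/-- the zero object -/
theorem Tri.zero : Tri 𝒞 0 := by
  refine ⟨fun E _ => ⟨0, 0 + 0, 1, 1, Hm.mul_one _, ?_⟩,
    fun ε ψ _ => UZ_of ((UZ_comm ψ (hypF 𝒞 0)).trans (OL0_empty _ _)), fun η U _ => ?_⟩
  · rw [Hm.mul_one, (to_zero E).trans (to_zero 1).symm, fromBlocks_one]
  · obtain ⟨a, b, c, d, rfl⟩ := exists_blocks U
    rw [(to_zero a).trans (to_zero 1).symm, to_zero b, to_zero c,
      (to_zero d).trans (to_zero 1).symm, fromBlocks_one]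
    exact Nul.of_mem (one_mem _)

/-- invariance under unitaries -/
theorem Tri.unt (h : Tri 𝒞 I) {u : 𝒞.Hom J I} (hu : Unt u) : Tri 𝒞 J := by
  refine ⟨fun E hE => Tri_sf_re (h.1 (u.ct * E * u) ?_) hu ?_, fun ε ψ hψ => ?_, fun η U hU => ?_⟩
  · rw [Hm.mul_assoc _ u, ← Hm.mul_assoc u, ← Hm.mul_assoc u, hu.1, Hm.one_mul, ← Hm.mul_assoc,
      Hm.mul_assoc _ E E, hE]
  · rw [← Hm.mul_assoc, ← Hm.mul_assoc, hu.1, Hm.one_mul, Hm.mul_assoc, hu.1, Hm.mul_one]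
  · exact (h.2.1 ε _ (hψ.iso (iso_unt ψ hu.ct))).iso (iso_unt ψ hu.ct).symm
  · have := (h.2.2 η _ (hU.reindex hu.ct)).reindex hu.ct.ct
    rwa [reix_reix hu.ct] at this

theorem Tri_diag (z : ∀ x : 𝒞.Hom I J, x = 0) (x : 𝒞.Hom (I + J) (I + J)) :
    ∃ a d, x = fromBlocks a 0 0 d := by
  obtain ⟨a, b, c, d, rfl⟩ := exists_blocks x
  exact ⟨a, d, by rw [z b, ct_inj ((z c.ct).trans conjTranspose_zero.symm)]⟩

theorem Tri_uni_dsum (z : ∀ x : 𝒞.Hom I J, x = 0)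
    {X : 𝒞.Hom ((I + J) + (I + J)) ((I + J) + (I + J))} {η : ℤˣ} (hX : Uni η X) :
    ∃ U V, X = dsum U V ∧ Uni η U ∧ Uni η V := by
  obtain ⟨Y, -, h1, h2⟩ := hX.inv
  obtain ⟨A, B, C, D, rfl⟩ := exists_blocks X
  obtain ⟨A', B', C', D', rfl⟩ := exists_blocks Y
  obtain ⟨a, a', rfl⟩ := Tri_diag z A
  obtain ⟨b, b', rfl⟩ := Tri_diag z B
  obtain ⟨c, c', rfl⟩ := Tri_diag z C
  obtain ⟨d, d', rfl⟩ := Tri_diag z D
  obtain ⟨x, x', rfl⟩ := Tri_diag z A'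
  obtain ⟨y, y', rfl⟩ := Tri_diag z B'
  obtain ⟨v, v', rfl⟩ := Tri_diag z C'
  obtain ⟨w, w', rfl⟩ := Tri_diag z D'
  obtain ⟨-, e1, e2, e3⟩ := uni_iff.1 hX
  rw [← fromBlocks_one (I := I + J), ← fromBlocks_one (I := I) (J := J),
    ← fromBlocks_zero (I := I) (J := J) (K := I) (L := J)] at h1 h2
  rw [← fromBlocks_one (I := I) (J := J)] at e3
  rw [← fromBlocks_zero (I := I) (J := J) (K := I) (L := J)] at e1 e2
  simp only [fromBlocks_conjTranspose, fromBlocks_multiply, fromBlocks_add, fromBlocks_smul,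
    conjTranspose_zero, Hm.mul_zero, Hm.zero_mul, add_zero, zero_add, smul_zero, fromBlocks_inj,
    true_and] at h1 h2 e1 e2 e3
  have f1 := OU1_eqv_blocks e1
  have f2 := OU1_eqv_blocks e2
  refine ⟨_, _, (dsum_blocks a b c d a' b' c' d').symm,
    uni_iff.2 ⟨OU1_unit (V := fromBlocks x y v w) ?_ ?_, f1.1, f2.1, e3.1⟩,
    uni_iff.2 ⟨OU1_unit (V := fromBlocks x' y' v' w') ?_ ?_, f1.2.1, f2.2.1, e3.2⟩⟩
  · rw [fromBlocks_multiply, h1.1.1, h1.2.1.1, h1.2.2.1.1, h1.2.2.2.1, fromBlocks_one]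
  · rw [fromBlocks_multiply, h2.1.1, h2.2.1.1, h2.2.2.1.1, h2.2.2.2.1, fromBlocks_one]
  · rw [fromBlocks_multiply, h1.1.2, h1.2.1.2, h1.2.2.1.2, h1.2.2.2.2, fromBlocks_one]
  · rw [fromBlocks_multiply, h2.1.2, h2.2.1.2, h2.2.2.1.2, h2.2.2.2.2, fromBlocks_one]

/-- sums of objects without morphisms between them -/
theorem Tri.sum (h : Tri 𝒞 I) (h' : Tri 𝒞 J) (z : ∀ x : 𝒞.Hom I J, x = 0) : Tri 𝒞 (I + J) := by
  refine ⟨fun E hE => ?_, fun ε ψ hψ => ?_, fun η X hX => ?_⟩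
  · obtain ⟨a, d, rfl⟩ := Tri_diag z E
    simp only [fromBlocks_multiply, Hm.mul_zero, Hm.zero_mul, add_zero, zero_add, fromBlocks_inj,
      true_and] at hE
    exact Tri_sf_sum (h.1 a hE.1) (h'.1 d hE.2)
  · obtain ⟨a, d, rfl⟩ := Tri_diag z ψ
    exact (h.2.1 ε a hψ.left).sum (h'.2.1 ε d hψ.right)
  · obtain ⟨U, V, rfl, hU, hV⟩ := Tri_uni_dsum z hX
    exact (h.2.2 η U hU).dsum (h'.2.2 η V hV)

theorem Tri_eqv_lift (F : Fn 𝒞 𝒟) (hF : Function.Bijective (F.map : 𝒞.Hom I I → _)) {ε : ℤˣ}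
    {a : 𝒞.Hom I I} (h : Eqv ε 0 (F.map a)) : Eqv ε 0 a := by
  obtain ⟨χ, h⟩ := h
  obtain ⟨χ, rfl⟩ := hF.2 χ
  exact ⟨χ, hF.1 (by rw [h, F.msub, F.map_add, F.mzsmul, F.map_ct, F.mzero])⟩

theorem Tri_fu_surj (F : Fn 𝒞 𝒟) (hF : Function.Bijective (F.map : 𝒞.Hom I I → _))
    (X : 𝒟.Hom (F.ob I + F.ob I) (F.ob I + F.ob I)) : ∃ U, X = fu F U := by
  obtain ⟨A, B, C, D, rfl⟩ := exists_blocks X
  obtain ⟨a, rfl⟩ := hF.2 A
  obtain ⟨b, rfl⟩ := hF.2 B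
  obtain ⟨c, rfl⟩ := hF.2 C
  obtain ⟨d, rfl⟩ := hF.2 D
  exact ⟨_, (fu_blocks F a b c d).symm⟩

theorem Tri_fu_one (F : Fn 𝒞 𝒟) (hF : Function.Bijective (F.map : 𝒞.Hom I I → _))
    {U V : 𝒞.Hom (I + I) (I + I)} (h : fu F U * fu F V = 1) : U * V = 1 := by
  have e : fu F (U * V) = 1 := (cp_mul F U V).symm.trans h
  obtain ⟨a, b, c, d, e'⟩ := exists_blocks (U * V)
  rw [e', fu_blocks, ← fromBlocks_one, fromBlocks_inj, ← F.map_one, ← F.mzero] at e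
  rw [e', hF.1 e.1, hF.1 e.2.1, hF.1 e.2.2.1, hF.1 e.2.2.2, fromBlocks_one]

/-- images under functors that are bijective on endomorphisms -/
theorem tri_of_full (F : Fn 𝒞 𝒟) (hF : Function.Bijective (F.map : 𝒞.Hom I I → _))
    (h : Tri 𝒞 I) : Tri 𝒟 (F.ob I) := by
  refine ⟨fun E hE => ?_, fun ε ψ hψ => ?_, fun η X hX => ?_⟩
  · obtain ⟨E, rfl⟩ := hF.2 E
    exact F.msf (h.1 E (hF.1 ((F.map_mul E E).trans hE)))
  · obtain ⟨ψ, rfl⟩ := hF.2 ψ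
    obtain ⟨μ, -, h2⟩ := hψ.inv
    obtain ⟨μ, rfl⟩ := hF.2 μ
    exact F.mz (h.2.1 ε ψ (ns_of_left (C := μ) (hF.1 (by rw [F.map_mul, F.msy, h2, F.map_one]))))
  · obtain ⟨Y, -, h1, h2⟩ := hX.inv
    obtain ⟨U, rfl⟩ := Tri_fu_surj F hF X
    obtain ⟨V, rfl⟩ := Tri_fu_surj F hF Y
    refine fu_nul F (h.2.2 η U ?_)
    have hU := OU1_unit (Tri_fu_one F hF h1) (Tri_fu_one F hF h2)
    obtain ⟨a, b, c, d, rfl⟩ := exists_blocks U
    rw [fu_blocks, uni_iff] at hX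
    obtain ⟨-, e1, e2, e3⟩ := hX
    rw [← F.map_ct, ← F.map_mul] at e1 e2
    refine uni_iff.2 ⟨hU, Tri_eqv_lift F hF e1, Tri_eqv_lift F hF e2, hF.1 ?_⟩
    rw [F.map_add, F.mzsmul, F.map_mul, F.map_mul, F.map_ct, F.map_ct, e3, F.map_one]

/-- cancellation of an idempotent -/
theorem sf_cancel {E : 𝒞.Hom I I} {P : 𝒞.Hom J J} {Q : 𝒞.Hom K K} (hP : P * P = P)
    {u : 𝒞.Hom (I + J) (J + K)} (hu : Unt u)
    (e : fromBlocks E 0 0 P * u = u * fromBlocks P 0 0 Q) (h : SFIdem Q) : SFIdem E := by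
  have h1 := Tri_sf_assoc (Tri_sf_sum (Tri_sf_comm ⟨0, USchur_one (Tri_compl hP) 0⟩) h)
  have h2 : SFIdem (fromBlocks (1 - P) 0 0 (fromBlocks E 0 0 P)) :=
    Tri_sf_re h1 (unt_one.sum hu) (by
      rw [← Tri_conj hu e]
      simp [fromBlocks_conjTranspose, fromBlocks_multiply])
  exact Tri_sf_cancel (Tri_sf_assoc (Tri_sf_comm h2)) (Tri_compl hP)

theorem Tri_ucl_re {η : ℤˣ} {U : 𝒞.Hom (I + I) (I + I)} (hU : Uni η U) {u : 𝒞.Hom J I}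
    (hu : Unt u) : ucl η (reix u U) = ucl η U := by
  obtain ⟨V, -, h1, -⟩ := hU.inv
  obtain ⟨V', -, h1', -⟩ := (hU.reindex hu).inv
  rw [OL1_ucl hU h1, OL1_ucl (hU.reindex hu) h1']
  exact OL1cl_reindex hu rfl

/-- the telescope argument -/
theorem telescope (F T : Fn 𝒞 𝒞) (u : ∀ a, 𝒞.Hom (a + T.ob a) (T.ob a + F.ob a))
    (hu : ∀ a, Unt (u a))
    (nat : ∀ a (x : 𝒞.Hom a a),
      fromBlocks x 0 0 (T.map x) * u a = u a * fromBlocks (T.map x) 0 0 (F.map x))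
    (h : ∀ a, Tri 𝒞 (F.ob a)) : V3 𝒞 := by
  refine fun I => ⟨fun E hE => ?_, fun ε ψ hψ => ?_, fun η U hU => ?_⟩
  · exact sf_cancel (by rw [← T.map_mul, hE]) (hu I) (nat I E)
      ((h I).1 _ (by rw [← F.map_mul, hE]))
  · have e := cls_iso (UZ_re (ε := ε) (hu I) (Tri_conj (hu I) (nat I ψ)))
    rw [cls_sum (T.mns hψ) (F.mns hψ), cls_sum hψ (T.mns hψ),
      (cls_eq_zero (F.mns hψ)).2 ((h I).2.1 ε _ (F.mns hψ)), add_zero] at e
    exact (cls_eq_zero hψ).1 (add_eq_right.1 e.symm)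
  · have e : reix (u I) (dsum (fu T U) (fu F U)) = dsum U (fu T U) := by
      obtain ⟨a, b, c, d, rfl⟩ := exists_blocks U
      rw [fu_blocks, fu_blocks, dsum_blocks, dsum_blocks, reix_blocks, Tri_conj (hu I) (nat I a),
        Tri_conj (hu I) (nat I b), Tri_conj (hu I) (nat I c), Tri_conj (hu I) (nat I d)]
    have e' := Tri_ucl_re ((fu_uni T hU).dsum (fu_uni F hU)) (hu I)
    rw [e, ucl_dsum hU (fu_uni T hU), ucl_dsum (fu_uni T hU) (fu_uni F hU),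
      (ucl_eq_zero (fu_uni F hU)).2 ((h I).2.2 η _ (fu_uni F hU)), add_zero] at e'
    exact (ucl_eq_zero hU).1 (add_eq_right.1 e')

/-- `V3` only depends on the class -/
theorem v3_congr {P P' : Cls O} (e : ∀ a, P.P a ↔ P'.P a) (h : V3 (full 𝒞 P)) :
    V3 (full 𝒞 P') := by
  obtain ⟨P, h0, h1⟩ := P
  obtain ⟨P', h0', h1'⟩ := P'
  obtain rfl : P = P' := funext fun a => propext (e a)
  exact h

end Pool.Agent.Work.MP_9d1ffa_al.Ct.LL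
end

-- merged part: Pool.Agent.Work.MP_9d1ffa_al.LL.Gl
section
/-! Passage between germs and levels. -/

set_option linter.unusedSectionVars false
set_option linter.unusedVariables false

namespace Pool.Agent.Work.MP_9d1ffa_al.Ct.LL

open Filter

variable {O : Type 1} [Add O] [Zero O] {𝒞 : SCat O} {N : Cs 𝒞} {P : Cls (ℕ → O)} {a : P.T}
  {ε : ℤˣ}

theorem ev_sf {E : (full (Gm N) P).Hom a a} {e : ∀ m, 𝒞.Hom (a.1 m) (a.1 m)}
    (h : Rp (N := N) (a := a.1) (b := a.1) E e) (hE : SFIdem E) : ∀ᶠ m in atTop, SFIdem (e m) := by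
  obtain ⟨c, b, U, W, h1, h2⟩ := hE
  obtain ⟨u, hu⟩ := exists_rp (N := N) (a := b.1) (b := a.1 + c.1) U
  obtain ⟨w, hw⟩ := exists_rp (N := N) (a := a.1 + c.1) (b := b.1) W
  filter_upwards [((hu.mul hw).eq_iff .one).1 h1,
    ((hw.mul hu).eq_iff (h.blocks .zero .zero .one)).1 h2] with m k1 k2
  exact ⟨c.1 m, b.1 m, u m, w m, k1, k2⟩

theorem ev_sl {θ : (full (Gm N) P).Hom a a} {t : ∀ m, 𝒞.Hom (a.1 m) (a.1 m)}
    (h : Rp (N := N) (a := a.1) (b := a.1) θ t) (hθ : SL ε θ) : ∀ᶠ m in atTop, SL ε (t m) := by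
  obtain ⟨k, L, l, ⟨χ, h1⟩, B, A, h2⟩ := hθ
  obtain ⟨l', hl⟩ := exists_rp (N := N) (a := L.1) (b := a.1 + (k.1 + k.1)) l
  obtain ⟨χ', hχ⟩ := exists_rp (N := N) (a := L.1) (b := L.1) χ
  obtain ⟨B', hB⟩ := exists_rp (N := N) (a := L.1) (b := a.1 + (k.1 + k.1)) B
  obtain ⟨A', hA⟩ := exists_rp (N := N) (a := a.1 + (k.1 + k.1)) (b := L.1) A
  have ht := h.blocks .zero .zero (Rp.hyp (a := k.1))
  filter_upwards [(((hl.mul ht).mul hl.ct).eq_iff ((Rp.zero.add hχ).sub (hχ.ct.zsmul ε))).1 h1,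
    (((((ht.sy ε).mul hl.ct).mul hB).add (hA.mul hl)).eq_iff .one).1 h2] with m k1 k2
  exact ⟨k.1 m, L.1 m, l' m, ⟨χ' m, k1⟩, B' m, A' m, k2⟩

/-- the converse direction for the property `RF` -/
theorem rf_gm {t Γ χ : ∀ m, 𝒞.Hom (a.1 m) (a.1 m)} (ht : N.Sm t) (hΓ : N.Sm Γ) (hχ : N.Sm χ)
    (h1 : ∀ m, sy ε (t m) * Γ m * sy ε (t m) = sy ε (t m))
    (h2 : ∀ m, (1 - sy ε (t m) * Γ m) * t m * (1 - sy ε (t m) * Γ m).ct =
      χ m - (ε : ℤ) • (χ m).ct) :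
    RF (𝒞 := full (Gm N) P) (I := a) ε (gm t ht) := by
  have r := (rp_gm ht).sy ε
  have r1 := r.mul (rp_gm hΓ)
  have r2 := Rp.one.sub r1
  exact ⟨gm Γ hΓ, (r1.mul r).ext r h1, gm χ hχ, ((r2.mul (rp_gm ht)).mul r2.ct).ext
    ((Rp.zero.add (rp_gm hχ)).sub ((rp_gm hχ).ct.zsmul ε)) fun m => by rw [h2, zero_add]⟩

/-- a sequence with control zero represents its germ -/
theorem Gl_rp {a b : ℕ → O} {x : ∀ m, 𝒞.Hom (a m) (b m)} (h : ∀ m, N.N 0 (x m)) :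
    ∃ X : (Gm N).Hom a b, Rp X x := ⟨_, rp_gm (Cs.sm_of_zero (.of_forall h))⟩

theorem Gl_h0 {a : ℕ → O}
    (h0 : ∀ x : ∀ m, 𝒞.Hom (a m) (a m), N.Sm x → ∀ᶠ m in atTop, N.N 0 (x m))
    {X : (Gm N).Hom (a + a) (a + a)} {x : ∀ m, 𝒞.Hom (a m + a m) (a m + a m)}
    (h : Rp (a := a + a) (b := a + a) X x) : ∀ᶠ m in atTop, N.N 0 (x m) := by
  filter_upwards [h0 _ ((Rp.inl.mul h).mul Rp.inl.ct).sm, h0 _ ((Rp.inl.mul h).mul Rp.inr.ct).sm,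
    h0 _ ((Rp.inr.mul h).mul Rp.inl.ct).sm, h0 _ ((Rp.inr.mul h).mul Rp.inr.ct).sm]
    with m k1 k2 k3 k4
  rw [← fromBlocks_toBlocks (x m)]
  exact Cs.blocks k1 k2 k3 k4

variable {𝒮 : Cls O}

theorem sf_lift (hP : ∀ b : ℕ → O, (∀ m, 𝒮.P (b m)) → P.P b) (ha : ∀ᶠ m in atTop, 𝒮.P (a.1 m))
    (h0 : ∀ x : ∀ m, 𝒞.Hom (a.1 m) (a.1 m), N.Sm x → ∀ᶠ m in atTop, N.N 0 (x m))
    (h : SFI (full N.zc 𝒮)) (E : (full (Gm N) P).Hom a a) (hE : E * E = E) : SFIdem E := by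
  obtain ⟨e, he⟩ := exists_rp (N := N) (a := a.1) (b := a.1) E
  have hg := ha.and ((h0 _ he.sm).and (((he.mul he).eq_iff he).1 hE))
  have key : ∀ m, ∃ (c b : O) (u : 𝒞.Hom b (a.1 m + c)) (w : 𝒞.Hom (a.1 m + c) b),
      𝒮.P c ∧ 𝒮.P b ∧ N.N 0 u ∧ N.N 0 w ∧ (𝒮.P (a.1 m) ∧ N.N 0 (e m) ∧ e m * e m = e m →
        u * w = 1 ∧ w * u = fromBlocks (e m) 0 0 1) := fun m => by
    by_cases g : 𝒮.P (a.1 m) ∧ N.N 0 (e m) ∧ e m * e m = e m
    · obtain ⟨c, b, U, W, k1, k2⟩ := h ⟨a.1 m, g.1⟩ ⟨e m, g.2.1⟩ (Subtype.ext g.2.2)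
      exact ⟨c.1, b.1, U.1, W.1, c.2, b.2, U.2, W.2, fun _ =>
        ⟨congrArg Subtype.val k1, congrArg Subtype.val k2⟩⟩
    · exact ⟨0, 0, 0, 0, 𝒮.h0, 𝒮.h0, N.zero _ _ _, N.zero _ _ _, fun g' => absurd g' g⟩
  choose c b u w hc hb hu hw k using key
  obtain ⟨U, hu⟩ := Gl_rp (a := b) (b := a.1 + c) hu
  obtain ⟨W, hw⟩ := Gl_rp (a := a.1 + c) (b := b) hw
  exact ⟨⟨c, hP c hc⟩, ⟨b, hP b hb⟩, U, W,
    ((hu.mul hw).eq_iff .one).2 (hg.mono fun m g => (k m g).1),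
    ((hw.mul hu).eq_iff (he.blocks .zero .zero .one)).2 (hg.mono fun m g => (k m g).2)⟩

theorem z_lift (hP : ∀ b : ℕ → O, (∀ m, 𝒮.P (b m)) → P.P b) (ha : ∀ᶠ m in atTop, 𝒮.P (a.1 m))
    (h0 : ∀ x : ∀ m, 𝒞.Hom (a.1 m) (a.1 m), N.Sm x → ∀ᶠ m in atTop, N.N 0 (x m))
    (h : Van0 (full N.zc 𝒮) ε) (ψ : (full (Gm N) P).Hom a a) (hψ : NS ε ψ) : Z ε ψ := by
  obtain ⟨μ, -, h1⟩ := hψ.inv
  obtain ⟨t, ht⟩ := exists_rp (N := N) (a := a.1) (b := a.1) ψ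
  obtain ⟨s, hs⟩ := exists_rp (N := N) (a := a.1) (b := a.1) μ
  have hg := (ha.and (h0 _ ht.sm)).and ((h0 _ hs.sm).and (((hs.mul (ht.sy ε)).eq_iff .one).1 h1))
  have key : ∀ m, ∃ (c b : O) (u : 𝒞.Hom (b + b) (a.1 m + (c + c)))
      (w : 𝒞.Hom (a.1 m + (c + c)) (b + b)) (χ : 𝒞.Hom (b + b) (b + b)),
      𝒮.P c ∧ 𝒮.P b ∧ N.N 0 u ∧ N.N 0 w ∧ N.N 0 χ ∧
        ((𝒮.P (a.1 m) ∧ N.N 0 (t m)) ∧ N.N 0 (s m) ∧ s m * sy ε (t m) = 1 →
          u * w = 1 ∧ w * u = 1 ∧ u * fromBlocks (t m) 0 0 (hypF 𝒞 c) * u.ct =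
            hypF 𝒞 b + χ - (ε : ℤ) • χ.ct) := fun m => by
    by_cases g : (𝒮.P (a.1 m) ∧ N.N 0 (t m)) ∧ N.N 0 (s m) ∧ s m * sy ε (t m) = 1
    · obtain ⟨c, b, U, W, k1, k2, χ, k3⟩ := h ⟨a.1 m, g.1.1⟩ ⟨t m, g.1.2⟩
        (ns_of_left (C := ⟨s m, g.2.1⟩) (Subtype.ext g.2.2))
      exact ⟨c.1, b.1, U.1, W.1, χ.1, c.2, b.2, U.2, W.2, χ.2, fun _ =>
        ⟨congrArg Subtype.val k1, congrArg Subtype.val k2, congrArg Subtype.val k3⟩⟩
    · exact ⟨0, 0, 0, 0, 0, 𝒮.h0, 𝒮.h0, N.zero _ _ _, N.zero _ _ _, N.zero _ _ _,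
        fun g' => absurd g' g⟩
  choose c b u w χ hc hb hu hw hχ k using key
  obtain ⟨U, hu⟩ := Gl_rp (a := b + b) (b := a.1 + (c + c)) hu
  obtain ⟨W, hw⟩ := Gl_rp (a := a.1 + (c + c)) (b := b + b) hw
  obtain ⟨X, hχ⟩ := Gl_rp (a := b + b) (b := b + b) hχ
  exact ⟨⟨c, hP c hc⟩, ⟨b, hP b hb⟩, U, W,
    ((hu.mul hw).eq_iff .one).2 (hg.mono fun m g => (k m g).1),
    ((hw.mul hu).eq_iff .one).2 (hg.mono fun m g => (k m g).2.1), X,
    (((hu.mul (ht.blocks .zero .zero .hyp)).mul hu.ct).eq_iff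
      ((Rp.hyp.add hχ).sub (hχ.ct.zsmul ε))).2 (hg.mono fun m g => (k m g).2.2)⟩

theorem nul_lift (hP : ∀ b : ℕ → O, (∀ m, 𝒮.P (b m)) → P.P b) (ha : ∀ᶠ m in atTop, 𝒮.P (a.1 m))
    (h0 : ∀ x : ∀ m, 𝒞.Hom (a.1 m) (a.1 m), N.Sm x → ∀ᶠ m in atTop, N.N 0 (x m))
    (h : Van1 (full N.zc 𝒮) (-ε)) (U : (full (Gm N) P).Hom (a + a) (a + a)) (hU : Uni (-ε) U) :
    Nul (-ε) U := by
  obtain ⟨V, -, h1, h2⟩ := hU.inv
  obtain ⟨χ, h3⟩ := hU.2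
  obtain ⟨u, hu⟩ := exists_rp (N := N) (a := a.1 + a.1) (b := a.1 + a.1) U
  obtain ⟨v, hv⟩ := exists_rp (N := N) (a := a.1 + a.1) (b := a.1 + a.1) V
  obtain ⟨x, hx⟩ := exists_rp (N := N) (a := a.1 + a.1) (b := a.1 + a.1) χ
  have hg := (ha.and ((Gl_h0 h0 hu).and ((Gl_h0 h0 hv).and (Gl_h0 h0 hx)))).and
    ((((hu.mul hv).eq_iff .one).1 h1).and ((((hv.mul hu).eq_iff .one).1 h2).and
      ((((hu.mul .hyp).mul hu.ct).eq_iff ((Rp.hyp.add hx).sub (hx.ct.zsmul _))).1 h3)))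
  have key : ∀ m, ∃ (M : O) (θ : 𝒞.Hom (a.1 m + M) (a.1 m + M)) (n : 𝒞.Hom (a.1 m) M)
      (B : 𝒞.Hom M (a.1 m + M)) (c : 𝒞.Hom M (a.1 m)),
      𝒮.P M ∧ N.N 0 θ ∧ N.N 0 n ∧ N.N 0 B ∧ N.N 0 c ∧
        ((𝒮.P (a.1 m) ∧ N.N 0 (u m) ∧ N.N 0 (v m) ∧ N.N 0 (x m)) ∧ u m * v m = 1 ∧ v m * u m = 1 ∧
          u m * hypF 𝒞 (a.1 m) * (u m).ct =
            hypF 𝒞 (a.1 m) + x m - ((-ε : ℤˣ) : ℤ) • (x m).ct →
          fromCols (SCat.Hom.toBlocks₁₁ (u m)) n * sy ε θ = fromCols (SCat.Hom.toBlocks₁₂ (u m)) 0 ∧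
            B * sy ε θ = fromCols c 1) := fun m => by
    refine (Classical.em _).elim (fun g => ?_) fun g => ⟨0, 0, 0, 0, 0, 𝒮.h0, N.zero _ _ _,
      N.zero _ _ _, N.zero _ _ _, N.zero _ _ _, fun g' => absurd g' g⟩
    have hW : Uni (𝒞 := full N.zc 𝒮) (I := ⟨a.1 m, g.1.1⟩) (-ε) ⟨u m, g.1.2.1⟩ :=
      ⟨OU1_unit (V := ⟨v m, g.1.2.2.1⟩) (Subtype.ext g.2.1) (Subtype.ext g.2.2.1),
        ⟨x m, g.1.2.2.2⟩, Subtype.ext g.2.2.2⟩
    obtain ⟨M, θ, n, k1, B, c, k2⟩ := hb_of_nul hW (h _ _ hW)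
    exact ⟨M.1, θ.1, n.1, B.1, c.1, M.2, θ.2, n.2, B.2, c.2, fun _ =>
      ⟨congrArg Subtype.val k1, congrArg Subtype.val k2⟩⟩
  choose M θ n B c hM hθ hn hB hc k using key
  obtain ⟨θ', hθ⟩ := Gl_rp (a := a.1 + M) (b := a.1 + M) hθ
  obtain ⟨n', hn⟩ := Gl_rp hn
  obtain ⟨B', hB⟩ := Gl_rp (a := M) (b := a.1 + M) hB
  obtain ⟨c', hc⟩ := Gl_rp hc
  exact nul_of_box hU ⟨⟨M, hP M hM⟩, θ', n',
    (((((Rp.inl.mul hu).mul Rp.inl.ct).cols hn).mul (hθ.sy ε)).eq_iff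
      (((Rp.inl.mul hu).mul Rp.inr.ct).cols .zero)).2 (hg.mono fun m g => (k m g).1), B', c',
    ((hB.mul (hθ.sy ε)).eq_iff (hc.cols .one)).2 (hg.mono fun m g => (k m g).2)⟩

theorem tri_lift (hP : ∀ b : ℕ → O, (∀ m, 𝒮.P (b m)) → P.P b) (ha : ∀ᶠ m in atTop, 𝒮.P (a.1 m))
    (h0 : ∀ x : ∀ m, 𝒞.Hom (a.1 m) (a.1 m), N.Sm x → ∀ᶠ m in atTop, N.N 0 (x m))
    (h : V3 (full N.zc 𝒮)) : Tri (full (Gm N) P) a :=
  ⟨sf_lift hP ha h0 h.sfi, fun ε => z_lift hP ha h0 (h.van0 ε), fun η U hU => by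
    have := nul_lift (ε := -η) hP ha h0 (h.van1 _) U
    rw [neg_neg] at this
    exact this hU⟩

end Pool.Agent.Work.MP_9d1ffa_al.Ct.LL
end

-- merged part: Pool.Agent.Work.MP_9d1ffa_al.LL.M0
section
/-! The Mayer-Vietoris argument for forms.  In this file `μ` is the inverse of `sy ε ψ`, where `ψ` is
a form on `M + E`; `sy ε ψ = fromBlocks a b c d` and `μ = fromBlocks a' b' c' d'`; `κ = k*` and
`κ * k * f = f` for all `f : M → E`, hence also `f * κ * k = f` for all `f : E → M`. -/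

set_option linter.unusedSectionVars false
set_option linter.unusedVariables false

namespace Pool.Agent.Work.MP_9d1ffa_al.Ct.LL

variable {O : Type 1} [Add O] [Zero O] {𝒞 : SCat O} {ε : ℤˣ} {M E C N : O}
  {ψ μ : 𝒞.Hom (M + E) (M + E)} {k : 𝒞.Hom C M}

/-- the boundary lagrangian `(a' κ, b' c κ)` -/
def bdl (ε : ℤˣ) (ψ μ : 𝒞.Hom (M + E) (M + E)) (k : 𝒞.Hom C M) : 𝒞.Hom M (C + C) :=
  fromCols (μ.toBlocks₁₁ * k.ct) (μ.toBlocks₁₂ * (sy ε ψ).toBlocks₂₁ * k.ct)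

/-- the block identities -/
theorem M0_bl (h1 : sy ε ψ * μ = 1) (h2 : μ * sy ε ψ = 1) :
    ∃ p q r s a' b' c' d' b c, ψ = fromBlocks p q r s ∧ μ = fromBlocks a' b' c' d' ∧
      b = q + (ε : ℤ) • r.ct ∧ c = r + (ε : ℤ) • q.ct ∧
      sy ε ψ = fromBlocks (sy ε p) b c (sy ε s) ∧
      (sy ε p * a' + b * c' = 1 ∧ sy ε p * b' + b * d' = 0 ∧ c * a' + sy ε s * c' = 0 ∧
        c * b' + sy ε s * d' = 1) ∧
      (a' * sy ε p + b' * c = 1 ∧ a' * b + b' * sy ε s = 0 ∧ c' * sy ε p + d' * c = 0 ∧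
        c' * b + d' * sy ε s = 1) ∧
      a'.ct = (ε : ℤ) • a' ∧ b'.ct = (ε : ℤ) • c' ∧ c'.ct = (ε : ℤ) • b' ∧
      c.ct = (ε : ℤ) • b := by
  have h3 := inv_ct h1 h2
  obtain ⟨p, q, r, s, rfl⟩ := exists_blocks ψ
  obtain ⟨a', b', c', d', rfl⟩ := exists_blocks μ
  rw [sy_blocks, fromBlocks_multiply, ← fromBlocks_one, fromBlocks_inj] at h1 h2
  rw [fromBlocks_conjTranspose, fromBlocks_smul, fromBlocks_inj] at h3
  refine ⟨p, q, r, s, a', b', c', d', _, _, rfl, rfl, rfl, rfl, sy_blocks _ _ _ _, h1, h2, h3.1,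
    h3.2.2.1, h3.2.1, ?_⟩
  rw [conjTranspose_add, ct_zsmul, conjTranspose_conjTranspose, smul_add, eps_eps, add_comm]

theorem M0_hf (hf : ∀ f : 𝒞.Hom M E, k.ct * k * f = f) (f : 𝒞.Hom E M) : f * (k.ct * k) = f := by
  apply ct_inj
  rw [conjTranspose_mul, conjTranspose_mul, conjTranspose_conjTranspose, hf]

theorem bdl_lag (h1 : sy ε ψ * μ = 1) (h2 : μ * sy ε ψ = 1) (hk : k * k.ct = 1)
    (hf : ∀ f : 𝒞.Hom M E, k.ct * k * f = f) : LagD (-ε) (hypF 𝒞 C) (bdl ε ψ μ k) := by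
  obtain ⟨p, q, r, s, a', b', c', d', b, c, rfl, rfl, hb, hc, hs, ⟨e1, e2, e3, -⟩, ⟨f1, -, f3, -⟩,
    g1, g2, g3, g4⟩ := M0_bl h1 h2
  have hφ : (b' * c * k.ct).ct = k * (b * c') := by
    simp only [conjTranspose_mul, conjTranspose_conjTranspose, g2, g4, Hm.mul_smul, Hm.smul_mul,
      eps_eps]
  rw [bdl, hs]
  simp only [toBlocks_fromBlocks₁₁, toBlocks_fromBlocks₁₂, toBlocks_fromBlocks₂₁]
  generalize ha : sy ε p = a at *
  refine ⟨⟨a' * q * c' + b' * r * a' + b' * s * c', ?_⟩,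
    fromCols k.ct (-(a * k.ct)), fromRows (k * a) k, ?_⟩
  · rw [OEx_hyp, toCols₁_fromCols, toCols₂_fromCols, hφ, Hm.mul_assoc, ← Hm.mul_assoc k.ct,
      ← Hm.mul_assoc (k.ct * k), hf, zero_add, ← add_zero (a' * (b * c')), ← Hm.mul_zero (K := M) b',
      ← e3, hb, hc]
    simp only [sy, conjTranspose_add, conjTranspose_mul, g1, g2, g3, Hm.mul_smul, Hm.smul_mul,
      eps_eps, Hm.mul_add, Hm.add_mul, Hm.mul_assoc, Units.val_neg, neg_smul, smul_add]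
    abel
  · have e5 : a * (b' * c) = b * (c' * a) := by
      rw [← Hm.mul_assoc, eq_neg_of_add_eq_zero_left e2, eq_neg_of_add_eq_zero_left f3,
        Hm.neg_mul, Hm.mul_neg, Hm.mul_assoc]
    have e6 : ∀ u v : 𝒞.Hom M M, u + v = 1 → k * (u * k.ct) + k * (v * k.ct) = 1 := fun u v h => by
      rw [← Hm.mul_add, ← Hm.add_mul, h, Hm.one_mul, hk]
    rw [sy_hyp, conjTranspose_fromCols_eq_fromRows_conjTranspose, hφ, fromBlocks_mul_fromRows,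
      fromRows_mul_fromCols, fromRows_mul_fromCols, fromBlocks_add, ← fromBlocks_one, fromBlocks_inj]
    simp only [conjTranspose_mul, conjTranspose_conjTranspose, g1, Hm.mul_smul, Hm.smul_mul,
      eps_eps, Units.val_neg, neg_smul, Hm.zero_mul, Hm.one_mul, zero_add, add_zero, Hm.mul_neg,
      Hm.neg_mul, neg_neg, smul_zero, smul_neg]
    refine ⟨?_, ?_, ?_, ?_⟩
    · simpa only [Hm.mul_assoc] using e6 _ _ ((add_comm _ _).trans e1)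
    · rw [Hm.mul_assoc k a, ← Hm.mul_assoc a, e5]
      simp only [Hm.mul_assoc, neg_add_cancel]
    · simp only [Hm.mul_assoc, neg_add_cancel]
    · simpa only [Hm.mul_assoc] using e6 _ _ f1

/-- correction of the quadratic form of the box -/
theorem box_fix (h1 : sy ε ψ * μ = 1) (h2 : μ * sy ε ψ = 1) (hk : k * k.ct = 1)
    (hf : ∀ f : 𝒞.Hom M E, k.ct * k * f = f) {θ : 𝒞.Hom (C + N) (C + N)} {m : 𝒞.Hom M N}
    (h : BoxG ε (bdl ε ψ μ k).toCols₁ (bdl ε ψ μ k).toCols₂ θ m)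
    (hm : ∃ m' : 𝒞.Hom (C + C) N, m = bdl ε ψ μ k * m') :
    ∃ θ' : 𝒞.Hom (C + N) (C + N), BoxG ε (bdl ε ψ μ k).toCols₁ (bdl ε ψ μ k).toCols₂ θ' m ∧
      Eqv ε (μ.toRows₁ * ψ * μ.toRows₁.ct)
        (μ.toBlocks₁₁ * ψ.toBlocks₁₁ * μ.toBlocks₁₁.ct +
          fromCols (μ.toBlocks₁₁ * k.ct) m * θ' * (fromCols (μ.toBlocks₁₁ * k.ct) m).ct) := by
  obtain ⟨aL, -, hl⟩ := (bdl_lag h1 h2 hk hf).idem
  obtain ⟨m', hm⟩ := hm
  have hm' : bdl ε ψ μ k * aL * m = m := by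
    rw [hm, ← Hm.mul_assoc, Hm.mul_assoc _ aL, hl]
  rw [← Hm.mul_assoc] at hl
  obtain ⟨p, q, r, s, a', b', c', d', b, c, rfl, rfl, hb, hc, hs, ⟨-, -, -, e4⟩, ⟨-, f2, -, -⟩,
    g1, g2, g3, g4⟩ := M0_bl h1 h2
  clear hm
  rw [bdl, hs] at h hm' hl ⊢
  simp only [toBlocks_fromBlocks₁₁, toBlocks_fromBlocks₁₂, toBlocks_fromBlocks₂₁, toCols₁_fromCols,
    toCols₂_fromCols, toRows₁_fromBlocks] at h hm' hl ⊢
  generalize hx : a' * k.ct = x at h hm' hl ⊢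
  generalize hφ : b' * c * k.ct = φ at h hm' hl ⊢
  generalize he : fromCols x φ * aL = e at hm' hl
  rw [mul_fromCols, fromCols_ext_iff] at hl
  obtain ⟨hn, hB⟩ := h
  have hb' : b' = φ * (k * b') - x * (k * (b * d')) := by
    rw [← hx, ← hφ, Hm.mul_assoc, Hm.mul_assoc a', ← Hm.mul_assoc k.ct, ← Hm.mul_assoc k.ct, hf, hf,
      ← Hm.mul_assoc a', eq_neg_of_add_eq_zero_left f2, Hm.neg_mul, sub_neg_eq_add, Hm.mul_assoc,
      Hm.mul_assoc, ← Hm.mul_add, e4, Hm.mul_one]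
  have eb : e * b' = b' := by
    rw [hb', Hm.mul_sub, ← Hm.mul_assoc e, ← Hm.mul_assoc e, hl.1, hl.2]
  have en : e * fromCols x m = fromCols x m := by rw [mul_fromCols, hl.1, hm']
  have hφx : φ * x.ct = b' * c * a'.ct := by
    rw [← hx, ← hφ, conjTranspose_mul, conjTranspose_conjTranspose, Hm.mul_assoc, ← Hm.mul_assoc k.ct,
      ← Hm.mul_assoc, Hm.mul_assoc b', M0_hf hf]
  have hr : fromCols x m * (fromCols (fromRows 1 0) (sy ε θ).toCols₁ * aL) = e := by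
    rw [← Hm.mul_assoc, mul_fromCols, ← toCols₁_mul, hn, fromCols_mul_fromRows, ← he]
    simp
  generalize fromCols (fromRows 1 0) (sy ε θ).toCols₁ * aL = R at hr
  have hnn : fromCols x m * sy ε θ * (fromCols x m).ct = φ * x.ct := by
    rw [hn, conjTranspose_fromCols_eq_fromRows_conjTranspose, fromCols_mul_fromRows, Hm.zero_mul,
      add_zero]
  generalize hn0 : fromCols x m = n at hn en hr hnn ⊢
  have hδ : sy ε (φ * x.ct + b' * s * b'.ct + -(n * θ * n.ct)) = 0 := by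
    rw [sy_add, sy_add, sy_neg, sy_conj, sy_conj, hnn, sy, hφx, ← Hm.zero_mul (I := M) b'.ct, ← f2]
    simp only [conjTranspose_mul, conjTranspose_conjTranspose, g4, Hm.mul_smul, Hm.smul_mul,
      eps_eps, Hm.add_mul, Hm.mul_assoc]
    abel
  have hθ : sy ε (θ + R * (φ * x.ct + b' * s * b'.ct + -(n * θ * n.ct)) * R.ct) = sy ε θ := by
    rw [sy_add, sy_conj, hδ, Hm.mul_zero, Hm.zero_mul, add_zero]
  have hd : n * (R * (φ * x.ct + b' * s * b'.ct + -(n * θ * n.ct)) * R.ct) * n.ct =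
      φ * x.ct + b' * s * b'.ct + -(n * θ * n.ct) := by
    have : n * (R * (φ * x.ct + b' * s * b'.ct + -(n * θ * n.ct)) * R.ct) * n.ct =
        n * R * φ * (n * R * x).ct + n * R * b' * s * (n * R * b').ct +
          -(n * R * n * θ * (n * R * n).ct) := by
      simp only [conjTranspose_mul, Hm.mul_add, Hm.add_mul, Hm.mul_neg, Hm.neg_mul, Hm.mul_assoc]
    rw [this, hr, hl.1, hl.2, eb, en]
  refine ⟨θ + R * (φ * x.ct + b' * s * b'.ct + -(n * θ * n.ct)) * R.ct, ?_, -(a' * q * b'.ct), ?_⟩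
  · rw [BoxG, hθ, hn0]
    exact ⟨hn, hB⟩
  · rw [Hm.mul_add n, Hm.add_mul, hd, hφx, hc, fromCols_mul_fromBlocks,
      conjTranspose_fromCols_eq_fromRows_conjTranspose, fromCols_mul_fromRows]
    simp only [conjTranspose_mul, conjTranspose_conjTranspose, conjTranspose_neg, Hm.mul_smul,
      Hm.smul_mul, Hm.mul_add, Hm.add_mul, Hm.mul_assoc, smul_neg]
    abel

/-- the form on `M` closed up by the box -/
def clo (ψ : 𝒞.Hom (M + E) (M + E)) (k : 𝒞.Hom C M) (θ : 𝒞.Hom (C + N) (C + N)) :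
    𝒞.Hom (M + N) (M + N) :=
  fromBlocks ψ.toBlocks₁₁ 0 0 0 +
    fromBlocks k.ct 0 0 (1 : 𝒞.Hom N N) * θ * (fromBlocks k.ct 0 0 (1 : 𝒞.Hom N N)).ct

theorem clo_ns (h1 : sy ε ψ * μ = 1) (h2 : μ * sy ε ψ = 1) (hk : k * k.ct = 1)
    (hf : ∀ f : 𝒞.Hom M E, k.ct * k * f = f) {θ : 𝒞.Hom (C + N) (C + N)} {m : 𝒞.Hom M N}
    (h : BoxG ε (bdl ε ψ μ k).toCols₁ (bdl ε ψ μ k).toCols₂ θ m) :
    fromCols μ.toBlocks₁₁ m * sy ε (clo ψ k θ) = fromCols 1 0 ∧ NS ε (clo ψ k θ) := by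
  obtain ⟨p, q, r, s, a', b', c', d', b, c, rfl, rfl, -, -, hs, -, ⟨f1, -⟩, -⟩ := M0_bl h1 h2
  rw [bdl, hs] at h
  simp only [toBlocks_fromBlocks₁₁, toBlocks_fromBlocks₁₂, toBlocks_fromBlocks₂₁, toCols₁_fromCols,
    toCols₂_fromCols] at h ⊢
  obtain ⟨hn, B, c₀, hB⟩ := h
  have hK : (fromBlocks k.ct 0 0 (1 : 𝒞.Hom N N)).ct = fromBlocks k 0 0 1 := by
    simp [fromBlocks_conjTranspose]
  have hc : sy ε (clo (fromBlocks p q r s) k θ) = fromBlocks (sy ε p) 0 0 0 +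
      fromBlocks k.ct 0 0 (1 : 𝒞.Hom N N) * sy ε θ * fromBlocks k 0 0 1 := by
    rw [clo, sy_add, sy_conj, OL0_sy, sy_zero, toBlocks_fromBlocks₁₁, hK]
  have h3 : fromCols a' m * sy ε (clo (fromBlocks p q r s) k θ) = fromCols 1 0 := by
    rw [hc, Hm.mul_add, ← Hm.mul_assoc, ← Hm.mul_assoc, fromCols_mul_fromBlocks,
      fromCols_mul_fromBlocks]
    simp only [Hm.mul_zero, Hm.mul_one, add_zero, zero_add]
    rw [hn, fromCols_mul_fromBlocks, fromCols_add]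
    simp only [Hm.mul_zero, Hm.zero_mul, add_zero]
    rw [Hm.mul_assoc, Hm.mul_assoc b', M0_hf hf, f1]
  have hKK : fromBlocks k 0 0 (1 : 𝒞.Hom N N) * fromBlocks k.ct 0 0 (1 : 𝒞.Hom N N) = 1 := by
    simp [fromBlocks_multiply, hk]
  obtain ⟨B₁, B₂, hB'⟩ := exists_cols (B * fromBlocks k 0 0 (1 : 𝒞.Hom N N))
  have h4 : B * fromBlocks k 0 0 (1 : 𝒞.Hom N N) * sy ε (clo (fromBlocks p q r s) k θ) =
      fromCols (B₁ * sy ε p + c₀ * k) 1 := by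
    rw [hc, Hm.mul_add, ← Hm.mul_assoc, ← Hm.mul_assoc, Hm.mul_assoc B _ (fromBlocks k.ct _ _ _), hKK,
      Hm.mul_one, hB, hB', fromCols_mul_fromBlocks, fromCols_mul_fromBlocks, fromCols_add]
    simp
  refine ⟨h3, ns_of_left (C := fromRows (fromCols a' m) (B * fromBlocks k 0 0 (1 : 𝒞.Hom N N) -
    (B₁ * sy ε p + c₀ * k) * fromCols a' m)) ?_⟩
  rw [fromRows_mul, Hm.sub_mul, Hm.mul_assoc _ (fromCols a' m), h3, h4, ← fromBlocks_one, fromBlocks]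
  simp

theorem clo_sub (h1 : sy ε ψ * μ = 1) (h2 : μ * sy ε ψ = 1) (hk : k * k.ct = 1)
    (hf : ∀ f : 𝒞.Hom M E, k.ct * k * f = f) {θ : 𝒞.Hom (C + N) (C + N)} {m : 𝒞.Hom M N}
    (h : fromCols μ.toBlocks₁₁ m * sy ε (clo ψ k θ) = fromCols 1 0)
    (e : Eqv ε (μ.toRows₁ * ψ * μ.toRows₁.ct)
      (μ.toBlocks₁₁ * ψ.toBlocks₁₁ * μ.toBlocks₁₁.ct +
        fromCols (μ.toBlocks₁₁ * k.ct) m * θ * (fromCols (μ.toBlocks₁₁ * k.ct) m).ct)) :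
    SubD ε (fromBlocks ψ 0 0 (-clo ψ k θ)) (fromCols μ.toRows₁ (fromCols μ.toBlocks₁₁ m))
      (fromBlocks (fromBlocks k 0 0 (1 : 𝒞.Hom E E)) (fromBlocks k 0 (0 : 𝒞.Hom E M) (0 : 𝒞.Hom E N))
        (0 : 𝒞.Hom N (M + E)) (fromCols (0 : 𝒞.Hom N M) (1 : 𝒞.Hom N N))) := by
  have h3 : μ.toRows₁ * sy ε ψ = fromCols 1 0 := by rw [← toRows₁_mul, h2, toRows₁_one]
  have h4 : sy ε (fromBlocks ψ 0 0 (-clo ψ k θ)) * (fromCols μ.toRows₁ (fromCols μ.toBlocks₁₁ m)).ct =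
      (ε : ℤ) • fromRows (fromRows 1 0) (fromRows (-1) 0) := by
    apply ct_inj
    rw [conjTranspose_mul, sy_ct, conjTranspose_conjTranspose, Hm.mul_smul, OL0_sy, sy_neg,
      fromCols_mul_fromBlocks, ct_zsmul]
    simp only [Hm.mul_zero, add_zero, zero_add, Hm.mul_neg, h, h3, fromCols_neg, neg_zero,
      conjTranspose_fromRows_eq_fromCols_conjTranspose, conjTranspose_one, conjTranspose_zero,
      conjTranspose_neg]
  refine ⟨?_, ?_, ?_⟩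
  · have := e.symm.add (Eqv.refl (-(μ.toBlocks₁₁ * ψ.toBlocks₁₁ * μ.toBlocks₁₁.ct +
      fromCols (μ.toBlocks₁₁ * k.ct) m * θ * (fromCols (μ.toBlocks₁₁ * k.ct) m).ct)))
    rw [add_neg_cancel] at this
    refine this.trans (Eqv.of_eq ?_)
    have h5 : fromCols μ.toBlocks₁₁ m * fromBlocks k.ct 0 0 (1 : 𝒞.Hom N N) =
        fromCols (μ.toBlocks₁₁ * k.ct) m := by simp [fromCols_mul_fromBlocks]
    rw [fromCols_mul_fromBlocks, conjTranspose_fromCols_eq_fromRows_conjTranspose μ.toRows₁,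
      fromCols_mul_fromRows, clo, ← h5]
    simp only [Hm.mul_zero, add_zero, zero_add, Hm.mul_neg, Hm.neg_mul, Hm.mul_add, Hm.add_mul,
      conjTranspose_mul, Hm.mul_assoc]
    congr 3
    rw [conjTranspose_fromCols_eq_fromRows_conjTranspose, fromBlocks_mul_fromRows,
      fromCols_mul_fromRows]
    simp
  · rw [h4, Hm.mul_smul, fromBlocks_mul_fromRows, fromBlocks_mul_fromRows, fromBlocks_mul_fromRows,
      fromCols_mul_fromRows]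
    simp
  · obtain ⟨p, q, r, s, a', b', c', d', b, c, rfl, rfl, -, -, -, ⟨e1, e2, -⟩, -⟩ := M0_bl h1 h2
    rw [h4]
    simp only [toBlocks_fromBlocks₁₁, toRows₁_fromBlocks]
    generalize sy ε p = a at e1 e2
    have d0 : (1 - k.ct * k) * b = 0 := by rw [Hm.sub_mul, hf, Hm.one_mul, sub_self]
    have d1 : (1 - k.ct * k) * a * a' = 1 - k.ct * k := by
      rw [Hm.mul_assoc, eq_sub_of_add_eq e1, Hm.mul_sub, ← Hm.mul_assoc, d0]; simp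
    have d2 : (1 - k.ct * k) * a * b' = 0 := by
      rw [Hm.mul_assoc, eq_neg_of_add_eq_zero_left e2, Hm.mul_neg, ← Hm.mul_assoc, d0]; simp
    generalize (1 - k.ct * k) * a = D at d1 d2
    refine ⟨(ε : ℤ) • fromCols (fromCols 1 0) 0,
      fromBlocks (fromBlocks 0 0 0 1) 0 (fromBlocks k.ct 0 0 0) (fromRows (-(D * m)) 1),
      fromRows 0 (fromRows D 0), ?_⟩
    rw [Hm.smul_mul, Hm.mul_smul, eps_eps]
    simp only [fromRows_mul_fromCols, fromBlocks_multiply, fromBlocks_add, Hm.mul_zero, Hm.zero_mul,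
      Hm.mul_one, add_zero, zero_add, d1, d2]
    simp

theorem mv0 {P₁ P₂ P₀ : Cls O} (hS : SFI 𝒞) (cut : Cut4 𝒞 𝒞 P₁.P P₂.P P₀.P)
    (le₁ : ∀ a, P₀.P a → P₁.P a) (le₂ : ∀ a, P₀.P a → P₂.P a) (h₁ : SLr 𝒞 ε P₁.P)
    (h₂ : SLr 𝒞 ε P₂.P) (h₀ : BXr 𝒞 ε P₀.P) : Van0 𝒞 ε := by
  intro I ψ₀ hψ₀
  obtain ⟨A, C₁, C₂, B, w, hw, pA, pC₁, pC₂, pB, z1, z2, -⟩ := cut I
  have i := iso_unt (ε := ε) ψ₀ hw
  refine Z.iso i.symm ?_
  have hψ := hψ₀.iso i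
  generalize w * ψ₀ * w.ct = ψ at hψ
  obtain ⟨μ, h1, h2⟩ := hψ.inv
  have hk : 𝒞.inr A C₁ * (𝒞.inr A C₁).ct = 1 := SC_rr
  have hf : ∀ f : 𝒞.Hom (A + C₁) (C₂ + B), (𝒞.inr A C₁).ct * 𝒞.inr A C₁ * f = f := fun f => by
    have z : 𝒞.inl A C₁ * f = 0 := ext_cols (by rw [z1 (SCat.Hom.toCols₁ _), toCols₁_zero])
      (by rw [z2 (SCat.Hom.toCols₂ _), toCols₂_zero])
    conv_rhs => rw [← Hm.one_mul f, ← SC_tot, Hm.add_mul, Hm.mul_assoc, z, Hm.mul_zero, zero_add]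
  obtain ⟨a, ha, hl⟩ := (bdl_lag h1 h2 hk hf).idem
  obtain ⟨N, pN, θ, m, hb⟩ := h₀ C₁ pC₁ _ _ ha
  have hb' := hb.left (bdl ε ψ μ (𝒞.inr A C₁))
  rw [← toCols₁_mul, ← toCols₂_mul, hl] at hb'
  obtain ⟨θ', hθ, e⟩ := box_fix h1 h2 hk hf hb' ⟨m, rfl⟩
  obtain ⟨hc, hns⟩ := clo_ns h1 h2 hk hf hθ
  have hsub := clo_sub h1 h2 hk hf hc e
  obtain ⟨k₁, -, l₁⟩ := h₁ _ (P₁.hadd _ _ (P₁.hadd _ _ pA (le₁ _ pC₁)) (le₁ _ pN)) _ (rf_of_ns hns)
  have hΘ := hψ.sum hns.neg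
  obtain ⟨k₂, -, l₂⟩ := h₂ _ (P₂.hadd _ _ (P₂.hadd _ _ (le₂ _ pC₁) (P₂.hadd _ _ (le₂ _ pC₂) pB))
    (le₂ _ pN)) _ (hsub.rf hΘ)
  exact (z_of_sl hS hΘ (hsub.sl ⟨k₂, l₂⟩)).cancel (z_of_sl hS hns ⟨k₁, l₁⟩).neg

end Pool.Agent.Work.MP_9d1ffa_al.Ct.LL
end

-- merged part: Pool.Agent.Work.MP_9d1ffa_al.LL.M1
section
/-! The Mayer-Vietoris argument for isometries. -/

set_option linter.unusedSectionVars false
set_option linter.unusedVariables false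

namespace Pool.Agent.Work.MP_9d1ffa_al.Ct.LL

variable {O : Type 1} [Add O] [Zero O] {𝒞 : SCat O} {ε η : ℤˣ} {I M C Q K κ L : O}

/-- the inverse of an isometry -/
theorem uni_inv {x φ y ψ : 𝒞.Hom I I} (h : Uni η (fromBlocks x φ y ψ)) :
    fromBlocks x φ y ψ * fromBlocks ψ.ct ((η : ℤ) • φ.ct) ((η : ℤ) • y.ct) x.ct = 1 ∧
      fromBlocks ψ.ct ((η : ℤ) • φ.ct) ((η : ℤ) • y.ct) x.ct * fromBlocks x φ y ψ = 1 := by
  obtain ⟨-, h1, h2, h3⟩ := uni_iff.1 h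
  have k1 := h1.sy_eq
  have k2 := h2.sy_eq
  have k3 := congrArg SCat.Hom.ct h3
  simp only [sy, conjTranspose_mul, conjTranspose_conjTranspose, conjTranspose_zero, smul_zero,
    add_zero, conjTranspose_add, ct_zsmul, conjTranspose_one] at k1 k2 k3
  have e : fromBlocks x φ y ψ * fromBlocks ψ.ct ((η : ℤ) • φ.ct) ((η : ℤ) • y.ct) x.ct = 1 := by
    rw [fromBlocks_multiply, ← fromBlocks_one, fromBlocks_inj]
    simp only [Hm.mul_smul]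
    refine ⟨h3, ?_, k2.symm, (add_comm _ _).trans k3⟩
    rw [← eps_eps (ε := η) (φ * x.ct), ← smul_add, ← k1, smul_zero]
  exact ⟨e, (h.of_inv e).2⟩

theorem M1_rel {x φ y ψ : 𝒞.Hom I I} (h : Uni η (fromBlocks x φ y ψ)) :
    (x * ψ.ct + (η : ℤ) • (φ * y.ct) = 1 ∧ (η : ℤ) • (x * φ.ct) + φ * x.ct = 0 ∧
      (η : ℤ) • (y * φ.ct) + ψ * x.ct = 1) ∧
    ψ.ct * x + (η : ℤ) • (φ.ct * y) = 1 ∧ ψ.ct * φ + (η : ℤ) • (φ.ct * ψ) = 0 ∧
      (η : ℤ) • (y.ct * x) + x.ct * y = 0 ∧ (η : ℤ) • (y.ct * φ) + x.ct * ψ = 1 := by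
  obtain ⟨h1, h2⟩ := uni_inv h
  rw [fromBlocks_multiply, ← fromBlocks_one, fromBlocks_inj] at h1 h2
  simp only [Hm.mul_smul, Hm.smul_mul] at h1 h2
  exact ⟨⟨h1.1, h1.2.1, h1.2.2.2⟩, h2⟩

theorem M1_box {x φ y ψ : 𝒞.Hom I I} (h : Uni (-ε) (fromBlocks x φ y ψ)) {A : 𝒞.Hom I K}
    {B : 𝒞.Hom K I} (h1 : B * A * B = B) (h2 : A * B * φ.ct = φ.ct)
    (hB : ∀ (L : O) (l : 𝒞.Hom L (K + K)), LagD (-ε) (hypF 𝒞 K) l → HB ε l.toCols₁ l.toCols₂) :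
    HB ε x φ := by
  obtain ⟨-, r1, r2, r3, r4⟩ := M1_rel h
  have h3 := (uni_iff.1 h).2.1
  have hl : LagD (-ε) (hypF 𝒞 K) (fromBlocks (x * A) (φ * B.ct) (1 - B * A) 0) := by
    generalize -ε = η at *
    constructor
    · have e : fromBlocks (x * A) (φ * B.ct) (1 - B * A) 0 * hypF 𝒞 K *
          (fromBlocks (x * A) (φ * B.ct) (1 - B * A) 0).ct = fromBlocks (x * φ.ct) 0 0 0 := by
        simp only [hypF, fromBlocks_conjTranspose, fromBlocks_multiply, Hm.mul_zero, Hm.zero_mul,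
          Hm.mul_one, add_zero, zero_add, conjTranspose_zero, conjTranspose_mul,
          conjTranspose_conjTranspose, fromBlocks_inj, and_true, true_and]
        constructor
        · rw [Hm.mul_assoc, ← Hm.mul_assoc A, h2]
        · rw [← Hm.mul_assoc, Hm.sub_mul, h1, Hm.one_mul, sub_self, Hm.zero_mul]
      rw [e, ← fromBlocks_zero]
      exact eqv_blocks h3 (Eqv.refl _) rfl
    · refine ⟨fromBlocks ((η : ℤ) • (y * A)) ((η : ℤ) • (ψ * B.ct)) 0 ((η : ℤ) • 1),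
        fromBlocks (B * ψ.ct) 1 ((η : ℤ) • (A.ct * y.ct)) 0, ?_⟩
      have a1 := congrArg (fun z => B * z * A) r1
      have a2 := congrArg (fun z => B * z * B.ct) r2
      have a3 := congrArg (fun z => A.ct * z * A) r3
      have a4 := congrArg (fun z => A.ct * z * B.ct) r4
      rw [sy_hyp, ← fromBlocks_one]
      simp only [fromBlocks_conjTranspose, fromBlocks_multiply, fromBlocks_add, Hm.mul_zero,
        Hm.zero_mul, Hm.mul_one, Hm.one_mul, add_zero, zero_add, conjTranspose_zero,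
        conjTranspose_mul, conjTranspose_conjTranspose, fromBlocks_inj, Hm.mul_smul, Hm.smul_mul,
        eps_eps, conjTranspose_sub, conjTranspose_one, Hm.mul_add, Hm.add_mul, Hm.mul_assoc,
        smul_zero] at a1 a2 a3 a4 ⊢
      refine ⟨?_, ?_, ?_, ?_⟩
      · rw [← add_assoc, add_comm ((η : ℤ) • _), a1]
        abel
      · rw [add_comm, a2]
      · rw [add_comm, a3]
      · rw [add_right_comm, add_comm _ ((η : ℤ) • _), a4]
        abel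
  obtain ⟨N, θ, m, k1, B₂, c, k2⟩ := hB _ _ hl
  obtain ⟨m₁, m₂, rfl⟩ := exists_rows m
  obtain ⟨B₁, B₂, rfl⟩ := exists_cols B₂
  rw [toCols₁_fromBlocks, toCols₂_fromBlocks, fromCols_fromRows_eq_fromBlocks, ← fromRows_zero,
    fromCols_fromRows_eq_fromBlocks, fromBlocks, fromBlocks, fromRows_mul, fromRows_ext_iff,
    fromCols_zero] at k1
  have h4 := congrArg SCat.Hom.ct h2
  rw [conjTranspose_mul, conjTranspose_mul, conjTranspose_conjTranspose, ← Hm.mul_assoc] at h4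
  refine ⟨N, fromBlocks A 0 0 1 * θ * (fromBlocks A 0 0 1).ct, m₁, ?_,
    fromCols (B₁ * B) (B₂ - B₁ * m₂), c * A.ct, ?_⟩
  · rw [sy_conj, ← Hm.mul_assoc, ← Hm.mul_assoc, fromCols_mul_fromBlocks]
    simp only [Hm.mul_zero, Hm.mul_one, add_zero, zero_add]
    rw [k1.1, fromBlocks_conjTranspose, fromCols_mul_fromBlocks]
    simp [h4]
  · have e : fromCols (B₁ * B) (B₂ - B₁ * m₂) * fromBlocks A 0 0 1 =
        fromCols B₁ B₂ - B₁ * fromCols (1 - B * A) m₂ := by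
      simp [fromCols_mul_fromBlocks, Hm.mul_sub, Hm.mul_assoc]
    rw [sy_conj, ← Hm.mul_assoc, ← Hm.mul_assoc, e, Hm.sub_mul, Hm.mul_assoc B₁, k1.2, k2,
      Hm.mul_zero, sub_zero, fromBlocks_conjTranspose, fromCols_mul_fromBlocks]
    simp

theorem M1_r (a : 𝒞.Hom I K) (b : 𝒞.Hom I L) :
    fromRows (fromCols a b) (0 : 𝒞.Hom M (K + L)) = fromBlocks a b 0 0 := by
  rw [fromBlocks, fromCols_zero]

theorem M1_c (a : 𝒞.Hom I K) (c : 𝒞.Hom M K) :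
    fromCols (fromRows a c) (0 : 𝒞.Hom (I + M) L) = fromBlocks a 0 c 0 := by
  rw [← fromCols_fromRows_eq_fromBlocks, fromRows_zero]

theorem M1_c' (b : 𝒞.Hom I L) (d : 𝒞.Hom M L) :
    fromCols (0 : 𝒞.Hom (I + M) K) (fromRows b d) = fromBlocks 0 b 0 d := by
  rw [← fromCols_fromRows_eq_fromBlocks, fromRows_zero]

theorem M1_pi {q : 𝒞.Hom Q I} (hq : q * q.ct = 1) :
    (1 - q.ct * q) * (1 - q.ct * q) = 1 - q.ct * q := by
  rw [Hm.mul_sub, Hm.mul_one, ← Hm.mul_assoc, Hm.sub_mul _ _ q.ct, Hm.one_mul, Hm.mul_assoc, hq,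
    Hm.mul_one, sub_self, Hm.zero_mul, sub_zero]

/-- an isometry whose upper right block is supported on a summand has a box -/
theorem box_core {V : 𝒞.Hom (I + I) (I + I)} (hV : Uni (-ε) V) {q : 𝒞.Hom Q I} (hq : q * q.ct = 1)
    (h0 : (1 - q.ct * q) * V.toBlocks₁₂ = 0)
    (hB : ∀ (L : O) (l : 𝒞.Hom L ((Q + Q) + (Q + Q))), LagD (-ε) (hypF 𝒞 (Q + Q)) l →
      HB ε l.toCols₁ l.toCols₂) : HB ε V.toBlocks₁₁ V.toBlocks₁₂ := by
  obtain ⟨x, φ, y, ψ, rfl⟩ := exists_blocks V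
  rw [toBlocks_fromBlocks₁₂] at h0 ⊢
  rw [toBlocks_fromBlocks₁₁]
  obtain ⟨⟨s1, s2, -⟩, r1, -⟩ := M1_rel hV
  have hp := M1_pi hq
  have e0 : φ.ct * q.ct * q = φ.ct := by
    have := congrArg SCat.Hom.ct h0
    rw [conjTranspose_mul, conjTranspose_sub, conjTranspose_mul, conjTranspose_conjTranspose,
      conjTranspose_one, conjTranspose_zero, Hm.mul_sub, Hm.mul_one, sub_eq_zero] at this
    rw [Hm.mul_assoc, ← this]
  have e1 : fromCols (ψ.ct * q.ct) (((-ε : ℤˣ) : ℤ) • (φ.ct * q.ct)) * fromRows (q * x) (q * y) =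
      1 - ψ.ct * (1 - q.ct * q) * x := by
    rw [fromCols_mul_fromRows, Hm.smul_mul, ← Hm.mul_assoc (φ.ct * q.ct), e0, Hm.mul_sub,
      Hm.sub_mul, Hm.mul_one, ← r1]
    simp only [Hm.mul_assoc]
    abel
  generalize 1 - q.ct * q = p at *
  have e2 : p * x * φ.ct = 0 := by
    rw [Hm.mul_assoc, ← eps_eps (ε := -ε) (x * φ.ct), eq_neg_of_add_eq_zero_left s2, Hm.mul_smul,
      Hm.mul_neg, ← Hm.mul_assoc, h0, Hm.zero_mul, neg_zero, smul_zero]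
  have e3 : p * x * ψ.ct * p = p := by
    rw [Hm.mul_assoc p, eq_sub_of_add_eq s1, Hm.mul_sub, Hm.mul_smul, ← Hm.mul_assoc, h0,
      Hm.zero_mul, smul_zero, sub_zero, Hm.mul_one, hp]
  have e4 : (1 - ψ.ct * p * x) * (1 - ψ.ct * p * x) = 1 - ψ.ct * p * x := by
    have : ψ.ct * p * x * (ψ.ct * p * x) = ψ.ct * (p * x * ψ.ct * p) * x := by
      simp only [Hm.mul_assoc]
    rw [Hm.mul_sub, Hm.mul_one, Hm.sub_mul, Hm.one_mul, this, e3, sub_self, sub_zero]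
  have e5 : (1 - ψ.ct * p * x) * φ.ct = φ.ct := by
    rw [Hm.sub_mul, Hm.one_mul, Hm.mul_assoc ψ.ct, Hm.mul_assoc ψ.ct, e2, Hm.mul_zero, sub_zero]
  generalize 1 - ψ.ct * p * x = g at *
  refine M1_box hV (A := fromCols (ψ.ct * q.ct) (((-ε : ℤˣ) : ℤ) • (φ.ct * q.ct)))
    (B := fromRows (q * x) (q * y) * g) ?_ ?_ hB
  · rw [Hm.mul_assoc, ← Hm.mul_assoc _ _ g, e1, e4, Hm.mul_assoc, e4]
  · rw [← Hm.mul_assoc, e1, e4, e5]

theorem M1_sub {N N' : O} {ν a : 𝒞.Hom N I} {l b : 𝒞.Hom I N} {J : 𝒞.Hom N' N}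
    {k : 𝒞.Hom C N'} {q : 𝒞.Hom Q I} (hq : q * q.ct = 1) (h1 : ν * b + a * l = 1) (h2 : b * ν = 1)
    (h3 : l * ν = 0) (hJ : J * J.ct = 1) (h4 : J.ct * (J * (ν * (1 - q.ct * q))) = ν * (1 - q.ct * q))
    (h5 : ∀ z : 𝒞.Hom N' Q, k.ct * k * z = z) :
    ∃ ι : 𝒞.Hom C N', ι * (J * (ν * (1 - q.ct * q))) = 0 ∧
      ∃ (s : 𝒞.Hom I N') (α : 𝒞.Hom N' C) (γ : 𝒞.Hom N' I),
        J * (ν * (1 - q.ct * q)) * s + α * ι + γ * ((1 - q.ct * q) * l * J.ct) = 1 := by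
  have hp := M1_pi hq
  have e1 : q * (1 - q.ct * q) = 0 := by
    rw [Hm.mul_sub, ← Hm.mul_assoc, hq, Hm.one_mul, Hm.mul_one, sub_self]
  refine ⟨k * ((J * ν * q.ct * (q * b) + J * a * q.ct * (q * l)) * J.ct), ?_,
    (1 - q.ct * q) * b * J.ct, k.ct, J * a * (1 - q.ct * q), ?_⟩
  · rw [Hm.mul_assoc, Hm.mul_assoc, h4, Hm.add_mul, Hm.mul_assoc _ (q * b), Hm.mul_assoc _ (q * l),
      Hm.mul_assoc q, Hm.mul_assoc q, ← Hm.mul_assoc b, ← Hm.mul_assoc l, h2, h3, Hm.one_mul, e1]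
    simp
  · have e2 : k.ct * (k * ((J * ν * q.ct * (q * b) + J * a * q.ct * (q * l)) * J.ct)) =
        J * (ν * (q.ct * q) * b + a * (q.ct * q) * l) * J.ct := by
      rw [← Hm.mul_assoc, ← Hm.mul_assoc, Hm.mul_add, ← Hm.mul_assoc _ _ (q * b),
        ← Hm.mul_assoc _ _ (q * l), h5, h5]
      simp only [Hm.mul_add, Hm.mul_assoc]
    have e3 : J * (ν * (1 - q.ct * q)) * ((1 - q.ct * q) * b * J.ct) =
        J * (ν * ((1 - q.ct * q) * (1 - q.ct * q)) * b) * J.ct := by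
      simp only [Hm.mul_assoc]
    have e4 : J * a * (1 - q.ct * q) * ((1 - q.ct * q) * l * J.ct) =
        J * (a * ((1 - q.ct * q) * (1 - q.ct * q)) * l) * J.ct := by
      simp only [Hm.mul_assoc]
    rw [e2, e3, e4, hp, ← Hm.add_mul, ← Hm.add_mul, ← Hm.mul_add, ← Hm.mul_add]
    have e5 : ν * (1 - q.ct * q) * b + (ν * (q.ct * q) * b + a * (q.ct * q) * l) +
        a * (1 - q.ct * q) * l = 1 := by
      rw [← h1]
      simp only [Hm.mul_sub, Hm.sub_mul, Hm.mul_one]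
      abel
    rw [e5, Hm.mul_one, hJ]

/-- the part of the lagrangian outside a summand is a sublagrangian -/
theorem sub_core {U : 𝒞.Hom (I + I) (I + I)} (hU : Uni η U) {j : 𝒞.Hom M I} (hj : j * j.ct = 1)
    {k : 𝒞.Hom C M} {q : 𝒞.Hom Q I} (hq : q * q.ct = 1)
    (ha : ∀ x : 𝒞.Hom I I, (1 - q.ct * q) * x * (j.ct * j) = (1 - q.ct * q) * x)
    (hb : ∀ x : 𝒞.Hom M Q, k.ct * k * x = x) :
    ∃ ι : 𝒞.Hom (C + C) (M + M),
      SubD η (hypF 𝒞 M) ((1 - q.ct * q) * U.toRows₁ * (fromBlocks j 0 0 j).ct) ι := by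
  obtain ⟨x, φ, y, ψ, rfl⟩ := exists_blocks U
  obtain ⟨⟨s1, s2, s3⟩, r1, r2, r3, r4⟩ := M1_rel hU
  have hc : (1 - q.ct * q).ct = 1 - q.ct * q := by simp
  have ha' : ∀ z : 𝒞.Hom I I, j.ct * (j * (z * (1 - q.ct * q))) = z * (1 - q.ct * q) := fun z => by
    have := congrArg SCat.Hom.ct (ha z.ct)
    rwa [conjTranspose_mul, conjTranspose_mul, conjTranspose_mul, hc, conjTranspose_conjTranspose,
      conjTranspose_conjTranspose, Hm.mul_assoc] at this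
  obtain ⟨ι, k1, k2⟩ := M1_sub (ν := fromRows φ.ct ((η : ℤ) • x.ct))
    (a := fromRows ψ.ct ((η : ℤ) • y.ct)) (l := fromCols x φ)
    (b := fromCols ((η : ℤ) • y) ((η : ℤ) • ψ)) (J := fromBlocks j 0 0 j)
    (k := fromBlocks k 0 0 k) hq
    (by
      rw [fromRows_mul_fromCols, fromRows_mul_fromCols, fromBlocks_add, ← fromBlocks_one,
        fromBlocks_inj]
      simp only [Hm.mul_smul, Hm.smul_mul, eps_eps]
      exact ⟨(add_comm _ _).trans r1, (add_comm _ _).trans r2, (add_comm _ _).trans r3,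
        (add_comm _ _).trans r4⟩)
    (by rw [fromCols_mul_fromRows, Hm.smul_mul, Hm.smul_mul, Hm.mul_smul, eps_eps, s3])
    (by rw [fromCols_mul_fromRows, Hm.mul_smul, ← eps_eps (ε := η) (x * φ.ct), ← smul_add, s2,
      smul_zero])
    (by simp [fromBlocks_conjTranspose, fromBlocks_multiply, hj])
    (by simp [fromBlocks_conjTranspose, fromBlocks_mul_fromRows, ha'])
    (fun z => by
      obtain ⟨z₁, z₂, rfl⟩ := exists_rows z
      simp [fromBlocks_conjTranspose, fromBlocks_multiply, fromBlocks_mul_fromRows, hb])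
  have e : sy η (hypF 𝒞 M) * ((1 - q.ct * q) * (fromBlocks x φ y ψ).toRows₁ *
      (fromBlocks j 0 0 j).ct).ct =
      fromBlocks j 0 0 j * (fromRows φ.ct ((η : ℤ) • x.ct) * (1 - q.ct * q)) := by
    rw [conjTranspose_mul, conjTranspose_mul, hc]
    simp only [sy_hyp, fromBlocks_mul_fromRows, conjTranspose_fromCols_eq_fromRows_conjTranspose,
      toRows₁_fromBlocks, conjTranspose_conjTranspose, fromRows_mul, Hm.zero_mul, Hm.one_mul,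
      Hm.smul_mul, Hm.mul_smul, smul_zero, add_zero, zero_add]
  refine ⟨ι, ?_, by rw [e, k1], by rw [e, toRows₁_fromBlocks]; exact k2⟩
  have e' : (1 - q.ct * q) * (fromBlocks x φ y ψ).toRows₁ * (fromBlocks j 0 0 j).ct * hypF 𝒞 M *
      ((1 - q.ct * q) * (fromBlocks x φ y ψ).toRows₁ * (fromBlocks j 0 0 j).ct).ct =
      (1 - q.ct * q) * (x * φ.ct) * (1 - q.ct * q).ct := by
    rw [conjTranspose_mul, conjTranspose_mul, hc, Hm.mul_assoc _ (x * φ.ct), Hm.mul_assoc x,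
      ← ha' φ.ct]
    simp [hypF, fromBlocks_conjTranspose, fromBlocks_mul_fromRows, fromCols_mul_fromBlocks,
      fromCols_mul_fromRows, conjTranspose_fromCols_eq_fromRows_conjTranspose, Hm.mul_assoc]
  have := (uni_iff.1 hU).2.1.conj (1 - q.ct * q)
  rwa [Hm.mul_zero, Hm.zero_mul, ← e'] at this

/-- reduction to the case of `box_core` -/
theorem nul_core {U : 𝒞.Hom (I + I) (I + I)} (hU : Uni (-ε) U) {j : 𝒞.Hom M I}
    (hj : j * j.ct = 1) {q : 𝒞.Hom Q I} (hq : q * q.ct = 1)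
    (ha : ∀ x : 𝒞.Hom I I, (1 - q.ct * q) * x * (j.ct * j) = (1 - q.ct * q) * x)
    {l : 𝒞.Hom L ((M + K) + (M + K))} {s : 𝒞.Hom I L}
    (hs : s * l = fromCols (fromCols ((1 - q.ct * q) * U.toBlocks₁₁ * j.ct) 0)
      (fromCols ((1 - q.ct * q) * U.toBlocks₁₂ * j.ct) 0))
    {U₀ : 𝒞.Hom (((M + K) + κ) + ((M + K) + κ)) (((M + K) + κ) + ((M + K) + κ))}
    (h₀ : U₀ ∈ RU 𝒞 (-ε) ((M + K) + κ)) {t : 𝒞.Hom (L + κ) ((M + K) + κ)}
    (ht : padl κ l = t * U₀.toRows₁)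
    (hB : ∀ (L : O) (l : 𝒞.Hom L (((Q + K) + (Q + K)) + ((Q + K) + (Q + K)))),
      LagD (-ε) (hypF 𝒞 ((Q + K) + (Q + K))) l → HB ε l.toCols₁ l.toCols₂) : Nul (-ε) U := by
  obtain ⟨x, φ, y, ψ, rfl⟩ := exists_blocks U
  rw [toBlocks_fromBlocks₁₁, toBlocks_fromBlocks₁₂] at hs
  obtain ⟨l₁, l₂, rfl⟩ := exists_cols l
  rw [mul_fromCols, fromCols_ext_iff] at hs
  obtain ⟨j', ej⟩ : ∃ j' : 𝒞.Hom ((M + K) + κ) ((I + K) + κ),
    j' = fromBlocks (fromBlocks j 0 0 1) 0 0 1 := ⟨_, rfl⟩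
  have hj' : j' * j'.ct = 1 := by simp [ej, fromBlocks_conjTranspose, fromBlocks_multiply, hj]
  have hR := ru_xtU hj' h₀
  obtain ⟨W, hW, w1, w2⟩ := (Uni.of_mem hR).inv
  have hU' := (hU.dsum (uni_one (I := K))).dsum (uni_one (I := κ))
  obtain ⟨q', eq⟩ : ∃ q' : 𝒞.Hom (Q + K) ((I + K) + κ),
    q' = fromCols (fromBlocks q 0 0 1) 0 := ⟨_, rfl⟩
  have hq' : q' * q'.ct = 1 := by
    simp [eq, fromBlocks_conjTranspose, fromBlocks_multiply, hq, fromCols_mul_fromRows,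
      conjTranspose_fromCols_eq_fromRows_conjTranspose]
  have e1 : 1 - q'.ct * q' = fromBlocks (fromBlocks (1 - q.ct * q) 0 0 0) 0 0 1 := by
    rw [eq, conjTranspose_fromCols_eq_fromRows_conjTranspose, fromRows_mul_fromCols,
      sub_eq_iff_eq_add]
    simp [fromBlocks_conjTranspose, fromBlocks_multiply, fromBlocks_add]
  have e2 : (1 - q'.ct * q') * (dsum (dsum (fromBlocks x φ y ψ) (1 : 𝒞.Hom (K + K) (K + K)))
      (1 : 𝒞.Hom (κ + κ) (κ + κ))).toRows₁ =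
      fromBlocks (fromRows s 0) 0 0 1 * padl κ (fromCols l₁ l₂) * fromBlocks j' 0 0 j' := by
    have a1 := ha x
    have a2 := ha φ
    rw [← Hm.mul_assoc] at a1 a2
    rw [e1, ← fromBlocks_one (I := K), ← fromBlocks_one (I := κ), dsum_blocks, dsum_blocks, ej, padl]
    simp [fromBlocks_multiply, fromCols_mul_fromBlocks, hs.1, hs.2, a1, a2, M1_r]
  have e3 : U₀.toRows₁ * fromBlocks j' 0 0 j' * W = fromCols j' 0 := by
    rw [← toRows₁_mul, ← xtU_row hj', ← toRows₁_mul, Hm.mul_assoc, w1, Hm.mul_one,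
      toRows₁_fromBlocks]
  have hV := hU'.mul hW
  have hN := nul_of_box hV (box_core hV hq' (by
    rw [SCat.Hom.toBlocks₁₂, ← toCols₂_mul, toRows₁_mul, ← Hm.mul_assoc, e2, ht, Hm.mul_assoc,
      Hm.mul_assoc, Hm.mul_assoc, ← Hm.mul_assoc U₀.toRows₁, e3]
    simp) hB)
  have := hN.mul (Nul.of_mem hR)
  rw [Hm.mul_assoc, w2, Hm.mul_one] at this
  exact nul_dsum_one.1 (nul_dsum_one.1 this)

/-- the Mayer-Vietoris argument -/
theorem mv1 {P₁ P₂ P₀ : Cls O} (cut : Cut4 𝒞 𝒞 P₁.P P₂.P P₀.P)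
    (le₁ : ∀ a, P₀.P a → P₁.P a) (le₂ : ∀ a, P₀.P a → P₂.P a) (h₀ : SLr 𝒞 (-ε) P₀.P)
    (h₁ : ULr 𝒞 (-ε) P₁.P) (h₂ : BXr 𝒞 ε P₂.P) : Van1 𝒞 (-ε) := by
  intro I U hU
  obtain ⟨A, C₁, C₂, B, w, hw, pA, pC₁, pC₂, pB, z1, z2, z3⟩ := cut I
  rw [← reix_reix hw U]
  refine Nul.reindex ?_ hw.ct
  have hU' := hU.reindex hw
  generalize reix w U = V at hU' ⊢
  obtain ⟨j, ej⟩ : ∃ j : 𝒞.Hom ((A + C₁) + C₂) ((A + C₁) + (C₂ + B)),
    j = fromBlocks 1 0 0 (fromCols 1 0) := ⟨_, rfl⟩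
  obtain ⟨q, eq⟩ : ∃ q : 𝒞.Hom (C₂ + B) ((A + C₁) + (C₂ + B)), q = fromCols 0 1 := ⟨_, rfl⟩
  have hj : j * j.ct = 1 := by
    simp [ej, fromBlocks_conjTranspose, fromBlocks_multiply, fromCols_mul_fromRows,
      conjTranspose_fromCols_eq_fromRows_conjTranspose]
  have hq : q * q.ct = 1 := by
    simp [eq, fromCols_mul_fromRows, conjTranspose_fromCols_eq_fromRows_conjTranspose]
  have e1 : 1 - q.ct * q = fromBlocks 1 0 0 0 := by
    rw [eq, conjTranspose_fromCols_eq_fromRows_conjTranspose, fromRows_mul_fromCols,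
      sub_eq_iff_eq_add]
    simp [fromBlocks_add]
  have ha : ∀ x : 𝒞.Hom ((A + C₁) + (C₂ + B)) ((A + C₁) + (C₂ + B)),
      (1 - q.ct * q) * x * (j.ct * j) = (1 - q.ct * q) * x := fun x => by
    obtain ⟨a, b, c, d, rfl⟩ := exists_blocks x
    obtain ⟨b₁, b₂, b₃, b₄, rfl⟩ := exists_blocks b
    rw [e1, ej, z2 b₂, z3 b₄]
    simp [fromBlocks_conjTranspose, fromBlocks_multiply,
      conjTranspose_fromCols_eq_fromRows_conjTranspose, M1_c]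
  obtain ⟨ι, hι⟩ := sub_core hU' hj (k := fromBlocks (fromCols 0 1) 0 0 1) (C := C₁ + C₂) hq ha
    fun x => by
      obtain ⟨a, b, rfl⟩ := exists_rows x
      obtain ⟨b₁, b₂, b₃, b₄, rfl⟩ := exists_blocks a
      rw [z1 b₁, z2 b₂]
      simp [fromBlocks_conjTranspose, fromBlocks_multiply, fromBlocks_mul_fromRows,
        conjTranspose_fromCols_eq_fromRows_conjTranspose, M1_c']
  have pC := P₀.hadd _ _ pC₁ pC₂
  obtain ⟨K, pK, L', l', hl'⟩ := h₀ _ (P₀.hadd _ _ pC pC) _ (hι.rf ns_hyp)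
  have k1 := (hι.sum (hypF 𝒞 K)).lift (l' := l') (by
    simpa [fromBlocks_conjTranspose, fromBlocks_multiply] using hl')
  have k2 := k1.conj (θ' := hypF 𝒞 (((A + C₁) + C₂) + K)) unt_four.1 unt_four.2 (Eqv.of_eq (by
    simp [sFour, hypF, fromBlocks_conjTranspose, fromBlocks_multiply, fromBlocks_add]))
  obtain ⟨κ, U₀, t, hU₀, ht⟩ := h₁ _ (P₁.hadd _ _ (P₁.hadd _ _ (P₁.hadd _ _ pA (le₁ _ pC₁))
    (le₁ _ pC₂)) (le₁ _ pK)) _ _ k2
  have pQ := P₂.hadd _ _ (P₂.hadd _ _ (le₂ _ pC₂) pB) (le₂ _ pK)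
  refine nul_core hU' hj hq ha (s := fromCols 1 0) ?_ hU₀ ht fun L l hl => ?_
  · rw [← Hm.mul_assoc, fromCols_mul_fromRows, toRows₁_eq]
    simp [sFour, fromBlocks_conjTranspose, fromCols_mul_fromBlocks]
  · obtain ⟨N, -, θ, m, h⟩ := h₂ _ (P₂.hadd _ _ pQ pQ) L l hl
    exact ⟨N, θ, m, h⟩

end Pool.Agent.Work.MP_9d1ffa_al.Ct.LL
end
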