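import Pool.Agent.Work.MP_9d1ffa_al.LL.Lc
import Pool.Agent.Work.MP_9d1ffa_al.LL.M1

/-! The category of the morphisms with control zero decomposes along the orbits of labels. -/

set_option linter.unusedSectionVars false
set_option linter.unusedVariables false

namespace Pool.Agent.Work.MP_9d1ffa_al.Ct.LL

open Filter WL

variable {X Ω K : Type} [Group K] {ρ : K →* Equiv.Perm X} {σ : K →* Equiv.Perm Ω}
  {𝒞 : Set (Ω → ℝ)}

/-- the stabiliser of a label -/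
def Stc (σ : K →* Equiv.Perm Ω) (ν : Ω → ℝ) : Subgroup K := (St (Equiv.Perm Ω) ν).comap σ

theorem mem_stc {ν : Ω → ℝ} {g : K} : g ∈ Stc σ ν ↔ Cl 0 (σ g) ν ν :=
  forall_congr' fun _ => by rw [abs_nonpos_iff, sub_eq_zero]

/-- the objects with labels in a given set -/
def lab (X : Type) (𝒞 : Set (Ω → ℝ)) : Cls (LOb X Ω) where
  P a := ∀ i, a.p i ∈ 𝒞
  h0 i := i.elim
  hadd _ _ h h' := Sum.rec h h'

/-- induction from the stabiliser -/
noncomputable def indF (ρ : K →* Equiv.Perm X) (σ : K →* Equiv.Perm Ω) {ν : Ω → ℝ} (hν : ν ∈ 𝒞) :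
    Fn (OC (ρ.comp (Stc σ ν).subtype)) (full (cs ρ σ).zc (lab X 𝒞)) where
  ob b := ⟨⟨b, fun _ => ν, (Set.finite_singleton ν).subset Set.range_const_subset⟩, fun _ => hν⟩
  map x := ⟨mp (AH.of ρ (Stc σ ν).subtype) x, fun i j g e => by
    obtain ⟨g, rfl⟩ := sup_mp _ x i j g e
    exact mem_stc.1 g.2⟩
  map_add _ _ := Subtype.ext (mp_add _ _ _)
  map_mul _ _ := Subtype.ext (mp_mul _ _ _)
  map_one _ := Subtype.ext (mp_one _)
  map_ct _ := Subtype.ext (mp_ct _ _)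

theorem indF_bij {ν : Ω → ℝ} (hν : ν ∈ 𝒞) (b : Ob X) :
    Function.Bijective ((indF ρ σ hν).map : (OC (ρ.comp (Stc σ ν).subtype)).Hom b b → _) :=
  ⟨fun _ _ e => mp_inj (f := AH.of ρ (Stc σ ν).subtype) Subtype.val_injective
    (congrArg Subtype.val e), fun y => ⟨rs (AH.of ρ (Stc σ ν).subtype) Subtype.val_injective y.1,
      Subtype.ext (Sup.mp_rs fun i j g e => ⟨⟨g, mem_stc.2 (y.2 i j g e)⟩, rfl⟩)⟩⟩

/-- the object with translated positions -/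
noncomputable def Gd_mv (ρ : K →* Equiv.Perm X) (a : Ob X) (γ : a.I → K)
    (h : ∃ S : Finset K, ∀ i, γ i ∈ S) : Ob X where
  I := a.I
  t := a.t
  x i := (a.x i).mapDomain (ρ (γ i)⁻¹)
  fin := a.fin
  pos i := mapDomain_pos _ (a.pos i)
  tot i := (l1_mapDomain_perm _ _).trans (a.tot i)
  cpt := by
    classical
    obtain ⟨F, hF⟩ := a.cpt
    obtain ⟨S, hS⟩ := h
    refine ⟨S.biUnion fun g => F.image (ρ g⁻¹), fun i y hy => ?_⟩
    obtain ⟨z, k1, rfl⟩ := Finset.mem_image.1 (Finsupp.mapDomain_support hy)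
    exact Finset.mem_biUnion.2 ⟨_, hS i, Finset.mem_image_of_mem _ (hF i z k1)⟩

/-- the translation -/
noncomputable def Gd_u (ρ : K →* Equiv.Perm X) (a : Ob X) (γ : a.I → K)
    (h : ∃ S : Finset K, ∀ i, γ i ∈ S) : (OC ρ).Hom a (Gd_mv ρ a γ h) :=
  pm ρ id γ h (fun _ => rfl) fun i => (mapDomain_rho_mul ρ (γ i) (γ i)⁻¹ (a.x i)).symm.trans
    (by rw [mul_inv_cancel, mapDomain_rho_one])

theorem Gd_tri {a b : (lab X 𝒞).T} (h : Tri (full (cs ρ σ).zc (lab X 𝒞)) b)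
    {u : (OC ρ).Hom a.1.a b.1.a} (hu : Unt u) (hc : Cn σ 0 a.1.p b.1.p u) :
    Tri (full (cs ρ σ).zc (lab X 𝒞)) a :=
  h.unt (u := ⟨u, hc⟩) ⟨Subtype.ext hu.1, Subtype.ext hu.2⟩

/-- the inclusion of a part -/
noncomputable def Gd_inc (ρ : K →* Equiv.Perm X) (σ : K →* Equiv.Perm Ω) (a : (lab X 𝒞).T)
    (P : a.1.a.I → Prop) :
    (full (cs ρ σ).zc (lab X 𝒞)).Hom ⟨lsub a.1 P, fun i => a.2 i.1⟩ a :=
  ⟨inc ρ _ P, cn_pm1 (e := Subtype.val) rfl fun _ => rfl⟩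

theorem Gd_unt (a : (lab X 𝒞).T) (P : a.1.a.I → Prop) :
    Unt (fromRows (Gd_inc ρ σ a P) (Gd_inc ρ σ a fun i => ¬ P i)) :=
  ⟨Subtype.ext (unt_inc P).1, Subtype.ext (unt_inc P).2⟩

/-- one orbit -/
theorem tri_orbit {ν : Ω → ℝ} (hν : ν ∈ 𝒞) (h : V3 (OC (ρ.comp (Stc σ ν).subtype)))
    (a : (lab X 𝒞).T) (ha : ∀ i, ∃ g, Cl 0 (σ g) ν (a.1.p i)) :
    Tri (full (cs ρ σ).zc (lab X 𝒞)) a := by
  classical
  have k : ∀ μ : Ω → ℝ, ∃ g, (∃ g, Cl 0 (σ g) ν μ) → Cl 0 (σ g) ν μ := fun μ =>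
    (em _).elim (fun ⟨g, k⟩ => ⟨g, fun _ => k⟩) fun k => ⟨1, fun k' => absurd k' k⟩
  choose γ hγ using k
  have hS : ∃ S : Finset K, ∀ i, γ (a.1.p i) ∈ S := ⟨a.1.fin.toFinset.image γ, fun i =>
    Finset.mem_image_of_mem _ (a.1.fin.mem_toFinset.2 ⟨i, rfl⟩)⟩
  have e : val (Gd_u ρ a.1.a _ hS) = pmM id fun i => γ (a.1.p i) := rfl
  exact Gd_tri (tri_of_full _ (indF_bij hν _) (h (Gd_mv ρ a.1.a _ hS))) (u := Gd_u ρ a.1.a _ hS)
    (pmM_unt e Function.bijective_id) (cn_pm e fun i => hγ _ (ha i))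

theorem v3_zc (h : ∀ ν ∈ 𝒞, V3 (OC (ρ.comp (Stc σ ν).subtype))) :
    V3 (full (cs ρ σ).zc (lab X 𝒞)) := by
  have key : ∀ F : Set (Ω → ℝ), F.Finite → ∀ a : (lab X 𝒞).T, (∀ i, a.1.p i ∈ F) →
      Tri (full (cs ρ σ).zc (lab X 𝒞)) a := fun F hF => by
    induction F, hF using Set.Finite.induction_on with
    | empty =>
      exact fun a ha => Tri.zero.unt (u := 0) ⟨Subtype.ext (hom_ext fun i => (ha i).elim),
        (to_zero _).trans (to_zero _).symm⟩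
    | @insert ν F _ _ ih =>
      intro a ha
      by_cases hν : ν ∈ 𝒞
      · refine Tri.unt (Tri.sum ?_ ?_ fun x => ?_)
          (Gd_unt a fun i => ∃ g, Cl 0 (σ g) ν (a.1.p i)).ct
        · exact tri_orbit hν (h ν hν) _ fun i => i.2
        · refine ih _ fun i => (ha i.1).resolve_left fun e => i.2 ⟨1, ?_⟩
          rw [map_one, e]
          exact cl_rfl le_rfl _
        · refine Subtype.ext (hom_ext fun i j g => by_contra fun e => ?_)
          obtain ⟨k, hk⟩ := i.2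
          have := cl_mul (cl_symm (x.2 i j g e)) hk
          rw [add_zero, ← map_inv, ← map_mul] at this
          exact j.2 ⟨_, this⟩
      · exact ih a fun i => (ha i).resolve_left fun e => hν (e ▸ a.2 i)
  exact fun a => key _ a.1.fin a fun i => ⟨i, rfl⟩

end Pool.Agent.Work.MP_9d1ffa_al.Ct.LL
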