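import Pool.Agent.Work.MP_9d1ffa_al.LL.Gs
import Pool.Agent.Work.MP_9d1ffa_al.LL.Gd
import Pool.Agent.Work.MP_9d1ffa_al.LL.M1
import Pool.Agent.Work.MP_9d1ffa_al.LL.FinB

/-! The base case of the induction over the thresholds. -/

set_option linter.unusedSectionVars false
set_option linter.unusedVariables false

namespace Pool.Agent.Work.MP_9d1ffa_al.Ct.LL

open Filter WL

variable {X Ω K : Type} [Group K] {ρ : K →* Equiv.Perm X} {σ : K →* Equiv.Perm Ω} {δ : ℝ}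
  {I : Finset ℕ}

/-- change of the labels -/
def rlF (ρ : K →* Equiv.Perm X) (f : (Ω → ℝ) → Ω → ℝ) : Fn (LC ρ Ω) (LC ρ Ω) where
  ob a := ⟨a.a, fun i => f (a.p i), (a.fin.image f).subset fun _ ⟨i, h⟩ => ⟨_, ⟨i, rfl⟩, h⟩⟩
  map x := x
  map_add _ _ := rfl
  map_mul _ _ := rfl
  map_one _ := rfl
  map_ct _ := rfl

/-- finitely many copies with changed labels -/
noncomputable def tlF (ρ : K →* Equiv.Perm X) (n : ℕ) (f : Fin n → (Ω → ℝ) → Ω → ℝ) :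
    Fn (LC ρ Ω) (LC ρ Ω) where
  ob a := ⟨tn a.a (Fin n), fun s => f s.2 (a.p s.1),
    (Set.finite_iUnion fun k => a.fin.image (f k)).subset fun _ ⟨s, h⟩ =>
      Set.mem_iUnion.2 ⟨s.2, _, ⟨s.1, rfl⟩, h⟩⟩
  map x := trM (fun _ => (1 : Matrix (Fin n) (Fin n) ℤ)) x
  map_add := trM_add _
  map_mul x y := by
    have := trM_const (1 : Matrix (Fin n) (Fin n) ℤ) (1 : Matrix (Fin n) (Fin n) ℤ) (ρ := ρ) x y
    rw [Matrix.one_mul] at this
    exact this.symm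
  map_one _ := trM_one
  map_ct x := by
    have := trM_ct (ρ := ρ) (fun _ => (1 : Matrix (Fin n) (Fin n) ℤ)) x
    rw [Matrix.transpose_one] at this
    exact this.symm

/-- the segment from a label to its rounding -/
noncomputable def seg (δ : ℝ) (I : Finset ℕ) (t : ℝ) (μ : Ω → ℝ) : Ω → ℝ :=
  fun ω => (1 - t) * μ ω + t * stp δ I (μ ω)

/-- the segments preserve small control -/
theorem cl_seg {η c t : ℝ} {g : Equiv.Perm Ω} {μ ν : Ω → ℝ} (hμ : μ ∈ MI Ω δ I c) (h : Cl η g μ ν)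
    (hη : η < c) (h0 : 0 ≤ t) (h1 : t ≤ 1) : Cl η g (seg δ I t μ) (seg δ I t ν) := by
  intro ω
  have e := stp_eq hμ h hη ω
  rw [abs_nonpos_iff, sub_eq_zero, Function.comp_apply, Function.comp_apply] at e
  have e' : seg δ I t ν (g • ω) - seg δ I t μ ω = (1 - t) * (ν (g • ω) - μ ω) := by
    rw [seg, seg, e]
    ring
  rw [e', abs_mul, abs_of_nonneg (sub_nonneg.2 h1)]
  exact (mul_le_of_le_one_left (abs_nonneg _) (sub_le_self _ h0)).trans (h ω)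

/-- neighbouring points of the segment are close -/
theorem cl_step (hδ : 0 < δ) (hI : ∀ r ∈ I, (2 * r + 2) * δ ≤ 1) {μ : Ω → ℝ}
    (hμ : ∀ ω, 0 ≤ μ ω ∧ μ ω ≤ 1) (t t' : ℝ) :
    Cl |t - t'| (1 : Equiv.Perm Ω) (seg δ I t μ) (seg δ I t' μ) := by
  intro ω
  have e' : seg δ I t' μ ((1 : Equiv.Perm Ω) • ω) - seg δ I t μ ω =
      (t - t') * (μ ω - stp δ I (μ ω)) := by
    rw [one_smul, seg, seg]
    ring
  have k := Ds_bd hδ hI (μ ω)
  rw [e', abs_mul]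
  exact mul_le_of_le_one_right (abs_nonneg _)
    (abs_le.2 ⟨by linarith only [(hμ ω).1, k.2], by linarith only [(hμ ω).2, k.1]⟩)

theorem Gt_seg (δ : ℝ) (I : Finset ℕ) (μ : Ω → ℝ) (ω : Ω) :
    ∃ a : ℕ, seg δ I 1 μ ω = 2 * δ * a :=
  ⟨_, by rw [seg, sub_self, zero_mul, zero_add, one_mul, stp]⟩

/-- the values of `stp` are multiples of `2 δ` -/
theorem cl_disc (hδ : 0 < δ) {g : Equiv.Perm Ω} {μ ν : Ω → ℝ}
    (h : Cl δ g (seg δ I 1 μ) (seg δ I 1 ν)) : Cl 0 g (seg δ I 1 μ) (seg δ I 1 ν) := by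
  intro ω
  have k := abs_le.1 (h ω)
  obtain ⟨a, ha⟩ := Gt_seg δ I ν (g • ω)
  obtain ⟨b, hb⟩ := Gt_seg δ I μ ω
  rw [ha, hb] at k ⊢
  have h1 : (a : ℝ) < b + 1 := lt_of_mul_lt_mul_left (by linarith only [k.2, hδ]) hδ.le
  have h2 : (b : ℝ) < a + 1 := lt_of_mul_lt_mul_left (by linarith only [k.1, hδ]) hδ.le
  have h3 : a < b + 1 := by exact_mod_cast h1
  have h4 : b < a + 1 := by exact_mod_cast h2
  rw [show a = b by omega, sub_self, abs_zero]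

/-- the shift by one step -/
def tlE (ι : Type) (n : ℕ) : ι ⊕ ι × Fin (n + 1) → (ι × Fin (n + 1)) ⊕ ι
  | .inl i => .inl (i, 0)
  | .inr (i, s) => Fin.lastCases (.inr i) (fun s' => .inl (i, s'.succ)) s

theorem Gt_last {ι : Type} {n : ℕ} (i : ι) : tlE ι n (.inr (i, Fin.last n)) = .inr i := by
  simp [tlE]

theorem Gt_cast {ι : Type} {n : ℕ} (i : ι) (s : Fin n) :
    tlE ι n (.inr (i, s.castSucc)) = .inl (i, s.succ) := by
  simp [tlE]

theorem tlE_bij (ι : Type) (n : ℕ) : Function.Bijective (tlE ι n) := by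
  constructor
  · rintro (i | ⟨i, s⟩) (j | ⟨j, t⟩) h
    · simpa [tlE] using h
    · induction t using Fin.lastCases <;> simp [tlE, (Fin.succ_ne_zero _).symm] at h
    · induction s using Fin.lastCases <;> simp [tlE] at h
    · induction s using Fin.lastCases <;> induction t using Fin.lastCases <;> simp_all [tlE]
  · rintro (⟨i, s⟩ | i)
    · induction s using Fin.cases with
      | zero => exact ⟨.inl i, rfl⟩
      | succ s => exact ⟨.inr (i, s.castSucc), Gt_cast i s⟩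
    · exact ⟨.inr (i, Fin.last n), Gt_last i⟩

/-- the shift as a morphism -/
noncomputable def tlU (ρ : K →* Equiv.Perm X) (n : ℕ) (a : Ob X) :
    (OC ρ).Hom (a + tn a (Fin (n + 1))) (tn a (Fin (n + 1)) + a) :=
  pm1 ρ (tlE a.I n) (by
    rintro (i | ⟨i, s⟩)
    · rfl
    · induction s using Fin.lastCases <;> simp [tlE] <;> rfl) (by
    rintro (i | ⟨i, s⟩)
    · rfl
    · induction s using Fin.lastCases <;> simp [tlE] <;> rfl)

theorem Gt_pm (n : ℕ) (a : Ob X) : IsPm (tlU ρ n a) (tlE a.I n) := isPm_pm1 _ _ _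

theorem Gt_nat {ι R : Type} [AddCommGroup R] {n : ℕ} (A : Matrix ι ι R)
    (B : Matrix (ι × Fin (n + 1)) (ι × Fin (n + 1)) R)
    (h : ∀ s t, B s t = (1 : Matrix (Fin (n + 1)) (Fin (n + 1)) ℤ) s.2 t.2 • A s.1 t.1)
    (p q : ι ⊕ ι × Fin (n + 1)) :
    Matrix.fromBlocks B 0 0 A (tlE ι n p) (tlE ι n q) = Matrix.fromBlocks A 0 0 B p q := by
  rcases p with i | ⟨i, s⟩ <;> rcases q with j | ⟨j, t⟩
  · simp [tlE, h]
  · induction t using Fin.lastCases <;> simp [tlE, h, (Fin.succ_ne_zero _).symm]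
  · induction s using Fin.lastCases <;> simp [tlE, h]
  · induction s using Fin.lastCases <;> induction t using Fin.lastCases <;>
      simp [tlE, h, Matrix.one_apply, (Fin.castSucc_ne_last _).symm]

/-- naturality of the shift -/
theorem tlU_nat (n : ℕ) {a : Ob X} (x : (OC ρ).Hom a a) :
    fromBlocks x 0 0 (trM (fun _ => (1 : Matrix (Fin (n + 1)) (Fin (n + 1)) ℤ)) x) * tlU ρ n a =
      tlU ρ n a * fromBlocks (trM (fun _ => (1 : Matrix (Fin (n + 1)) (Fin (n + 1)) ℤ)) x) 0 0 x := by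
  have hu := (Gt_pm (ρ := ρ) n a).unt (tlE_bij _ n)
  have e : tlU ρ n a * fromBlocks (trM (fun _ => (1 : Matrix (Fin (n + 1)) (Fin (n + 1)) ℤ)) x) 0 0 x *
      (tlU ρ n a).ct =
      fromBlocks x 0 0 (trM (fun _ => (1 : Matrix (Fin (n + 1)) (Fin (n + 1)) ℤ)) x) := by
    refine val_inj (funext fun p => funext fun q => ?_)
    rw [(Gt_pm n a).both (Gt_pm n a), val_fromBlocks, val_fromBlocks]
    exact Gt_nat (val x) _ (Ten_entry 1 x) p q
  rw [← e, Hm.mul_assoc, hu.2, Hm.mul_one]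

/-- control of the shift -/
theorem cn_tlU (hδ : 0 < δ) (hI : ∀ r ∈ I, (2 * r + 2) * δ ≤ 1) (n : ℕ) (a : LOb X Ω)
    (ha : ∀ i ω, 0 ≤ a.p i ω ∧ a.p i ω ≤ 1) :
    Cn σ (1 * (1 / ((n : ℝ) + 1)))
      (a + (tlF ρ (n + 1) fun s => seg δ I ((((s : ℕ) : ℝ) + 1) / (n + 1))).ob a).p
      ((tlF ρ (n + 1) fun s => seg δ I ((((s : ℕ) : ℝ) + 1) / (n + 1))).ob a +
        (rlF ρ (seg δ I 1)).ob a).p (tlU ρ n a.a) := by
  have hn : (0 : ℝ) < n + 1 := by positivity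
  have key : ∀ (i : a.a.I) (t t' : ℝ), |t - t'| ≤ 1 →
      Cl (1 * (1 / ((n : ℝ) + 1))) (σ 1) (seg δ I (t / (n + 1)) (a.p i))
        (seg δ I (t' / (n + 1)) (a.p i)) := fun i t t' e => by
    rw [map_one]
    refine cl_le (cl_step hδ hI (ha i) _ _) ?_
    rw [← sub_div, abs_div, abs_of_pos hn, one_mul]
    exact div_le_div_of_nonneg_right e hn.le
  refine cn_pm (Gt_pm n a.a) ?_
  rintro (i | ⟨i, s⟩)
  · have e : seg δ I (0 / (n + 1)) (a.p i) = a.p i := funext fun ω => by simp [seg]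
    have := key i ((((0 : Fin (n + 1)) : ℕ) : ℝ) + 1) 0 (by simp)
    rw [e] at this
    exact this
  · induction s using Fin.lastCases with
    | last =>
      have := key i (n + 1) (((Fin.last n : ℕ) : ℝ) + 1) (by simp)
      rw [div_self hn.ne'] at this
      erw [Gt_last]
      exact this
    | cast s =>
      erw [Gt_cast]
      exact key i (((s.succ : ℕ) : ℝ) + 1) (((s.castSucc : ℕ) : ℝ) + 1) (by simp)

theorem Gt_lev {𝒦 : Set (Set Ω)} {a : ℕ → LOb X Ω}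
    (h : (lev X fun c => PP 𝒦 ∩ MI Ω δ I c).P a) :
    ∃ c : ℝ, 0 < c ∧ ∀ᶠ m in atTop, ∀ i, (a m).p i ∈ PP 𝒦 ∩ MI Ω δ I c :=
  h.imp fun c k => ⟨k.1, k.2.mono fun m e i => (e i).elim fun c' z =>
    ⟨z.2.1, fun r hr => ⟨fun ω => z.1.trans ((z.2.2 r hr).1 ω), (z.2.2 r hr).2⟩⟩⟩

/-- the base case -/
theorem gv_base (hδ : 0 < δ) (hne : I.Nonempty) (hI : ∀ r ∈ I, (2 * r + 2) * δ ≤ 1)
    {𝒦 : Set (Set Ω)} (h𝒦 : ∀ s ∈ 𝒦, ∀ t, t ⊆ s → t ∈ 𝒦)
    (h : ∀ ν : Ω → ℝ, (Function.support ν).Nonempty → Function.support ν ∈ 𝒦 →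
      V3 (OC (ρ.comp (Stc σ ν).subtype))) : GV ρ σ fun c => PP 𝒦 ∩ MI Ω δ I c := by
  have ht : ∀ (m : ℕ) (s : Fin (m + 1)), 0 ≤ (((s : ℕ) : ℝ) + 1) / (m + 1) ∧
      (((s : ℕ) : ℝ) + 1) / (m + 1) ≤ 1 := fun m s =>
    ⟨by positivity, (div_le_one (by positivity)).2 (by exact_mod_cast s.2)⟩
  let P := lev X fun c => PP 𝒦 ∩ MI Ω δ I c
  let F₀ : ℕ → Fn (LC ρ Ω) (LC ρ Ω) := fun _ => rlF ρ (seg δ I 1)
  let T₀ : ℕ → Fn (LC ρ Ω) (LC ρ Ω) := fun m =>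
    tlF ρ (m + 1) fun s => seg δ I ((((s : ℕ) : ℝ) + 1) / (m + 1))
  have pF : ∀ a, P.P a → P.P fun m => (F₀ m).ob (a m) := fun a ha => by
    obtain ⟨c, hc, e⟩ := Gt_lev ha
    exact ⟨min c δ, lt_min hc hδ, e.mono fun m k i =>
      ⟨_, le_rfl, stp_seg hδ hc hI h𝒦 (k i) zero_le_one le_rfl⟩⟩
  have pT : ∀ a, P.P a → P.P fun m => (T₀ m).ob (a m) := fun a ha => by
    obtain ⟨c, hc, e⟩ := Gt_lev ha
    exact ⟨min c δ, lt_min hc hδ, e.mono fun m k s =>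
      ⟨_, le_rfl, stp_seg hδ hc hI h𝒦 (k s.1) (ht m s.2).1 (ht m s.2).2⟩⟩
  have sF : ∀ a b, P.P a → P.P b → ∀ x : ∀ m, (LC ρ Ω).Hom (a m) (b m), (cs ρ σ).Sm x →
      (cs ρ σ).Sm fun m => (F₀ m).map (x m) := fun a b _ hb x hx η hη => by
    obtain ⟨c, hc, e⟩ := Gt_lev hb
    exact ((hx _ (lt_min hη (half_pos hc))).and e).mono fun m k i j g z => cl_le
      (cl_seg (k.2 j).2 (k.1 i j g z) ((min_le_right _ _).trans_lt (half_lt_self hc)) zero_le_one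
        le_rfl) (min_le_left _ _)
  have sT : ∀ a b, P.P a → P.P b → ∀ x : ∀ m, (LC ρ Ω).Hom (a m) (b m), (cs ρ σ).Sm x →
      (cs ρ σ).Sm fun m => (T₀ m).map (x m) := fun a b _ hb x hx η hη => by
    obtain ⟨c, hc, e⟩ := Gt_lev hb
    refine ((hx _ (lt_min hη (half_pos hc))).and e).mono fun m k => ?_
    rintro ⟨i, s⟩ ⟨j, t⟩ g z
    obtain ⟨z1, z2⟩ := trM_ne z
    obtain rfl : s = t := by_contra fun ne => z1 (Matrix.one_apply_ne ne)
    exact cl_le (cl_seg (k.2 j).2 (k.1 i j g z2) ((min_le_right _ _).trans_lt (half_lt_self hc))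
      (ht m s).1 (ht m s).2) (min_le_left _ _)
  have su : ∀ a : P.T, (cs ρ σ).Sm (a := a.1 + fun m => (T₀ m).ob (a.1 m))
      (b := (fun m => (T₀ m).ob (a.1 m)) + fun m => (F₀ m).ob (a.1 m))
      fun m => tlU ρ m (a.1 m).a := fun a => by
    obtain ⟨c, hc, e⟩ := Gt_lev a.2
    exact Cs.sm_of_div 1 (e.mono fun m k => cn_tlU hδ hI m (a.1 m) fun i => (k i).1.1)
  have hu : ∀ (m : ℕ) (a : Ob X), Unt (tlU ρ m a) := fun m a => (Gt_pm m a).unt (tlE_bij _ m)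
  refine telescope (gfn F₀ P P pF sF) (gfn T₀ P P pT sT) (fun a => gm _ (su a))
    (fun a => ⟨((rp_gm (su a)).mul (rp_gm (su a)).ct).ext Rp.one fun m => (hu m _).1,
      ((rp_gm (su a)).ct.mul (rp_gm (su a))).ext Rp.one fun m => (hu m _).2⟩)
    (fun a x => ?_) fun a => ?_
  · obtain ⟨y, hy⟩ := exists_rp (N := cs ρ σ) (a := a.1) (b := a.1) x
    have hT := rp_gfn (hP := pT) (hS := sT) hy
    have hF := rp_gfn (hP := pF) (hS := sF) hy
    exact ((hy.blocks .zero .zero hT).mul (rp_gm (su a))).ext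
      ((rp_gm (su a)).mul (hT.blocks .zero .zero hF)) fun m => tlU_nat m (y m)
  · obtain ⟨c, hc, e⟩ := Gt_lev a.2
    refine tri_lift (𝒮 := lab X (PP 𝒦 ∩ MI Ω δ I (min c δ)))
      (fun b hb => ⟨min c δ, lt_min hc hδ, .of_forall fun m i => ⟨_, le_rfl, hb m i⟩⟩)
      (e.mono fun m k i => stp_seg hδ hc hI h𝒦 (k i) zero_le_one le_rfl)
      (fun x hx => (hx δ hδ).mono fun m k i j g z => cl_disc hδ (k i j g z))
      (v3_zc fun ν hν => h ν ?_ hν.1.2)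
    obtain ⟨r, hr⟩ := hne
    obtain ⟨ω, hω⟩ := (hν.2 r hr).2
    exact ⟨ω, (lt_trans (by positivity) hω).ne'⟩

end Pool.Agent.Work.MP_9d1ffa_al.Ct.LL
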