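import Pool.Agent.Work.MP_9d1ffa_al.LL.Lw
import Pool.Agent.Work.MP_9d1ffa_al.WL.En
import Pool.Agent.Work.MP_9d1ffa_al.LL.M1

-- merged part: Pool.Agent.Work.MP_9d1ffa_al.LL.Vf
section
/-! The vanishing properties of an action and the statement of the transfer theorem. -/

namespace Pool.Agent.Work.MP_9d1ffa_al.Ct.LL

variable {G X : Type} [Group G]

/-- idempotents are stably free and forms are stably hyperbolic -/
def V0 (ρ : G →* Equiv.Perm X) : Prop := SFI (OC ρ) ∧ ∀ ε, Van0 (OC ρ) ε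

/-- the fibred property -/
def VF (ρ : G →* Equiv.Perm X) : Prop := ∀ (K : Type) [Group K] (φ : K →* G), V0 (ρ.comp φ)

/-- closed under passage to overgroups of finite index -/
def FIc (Good : Subgroup G → Prop) : Prop :=
  ∀ H H' : Subgroup G, H' ≤ H → H'.relIndex H ≠ 0 → Good H' → Good H

/-- the transfer theorem -/
def Core : Prop :=
  ∀ (Q : Type) [Group Q] (Good : Subgroup Q → Prop), FIc Good → WL.CDat Q Good →
    ∀ (K X : Type) [Group K] (φ : K →* Q) (ρ : K →* Equiv.Perm X),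
      (∀ L : Subgroup K, Good (L.map φ) → VF (ρ.comp L.subtype)) → V0 ρ

theorem VF.comp {ρ : G →* Equiv.Perm X} (h : VF ρ) {K : Type} [Group K] (φ : K →* G) :
    VF (ρ.comp φ) := fun K' _ ψ => h K' (φ.comp ψ)

theorem VF.v0 {ρ : G →* Equiv.Perm X} (h : VF ρ) : V0 ρ := h G (MonoidHom.id G)

theorem VF.van1 {ρ : G →* Equiv.Perm X} (h : VF ρ) (η : ℤˣ) : Van1 (OC ρ) η := by
  have := van1_of_line (ε := -η) ρ h.v0.1 ((h _ (MonoidHom.fst G (Multiplicative ℤ))).2 _)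
  rwa [neg_neg] at this

end Pool.Agent.Work.MP_9d1ffa_al.Ct.LL
end

-- merged part: Pool.Agent.Work.MP_9d1ffa_al.LL.Lc
section
/-! Objects of the obstruction category with labels, and germs over a family of sets of labels. -/

set_option linter.unusedSectionVars false
set_option linter.unusedVariables false

namespace Pool.Agent.Work.MP_9d1ffa_al.Ct.LL

open Filter WL MonoidAlgebra

section

variable {Q Ω : Type} [Group Q] [MulAction Q Ω] {η η' : ℝ} {g h : Q} {μ ν ξ : Ω → ℝ}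

theorem cl_rfl (h : 0 ≤ η) (μ : Ω → ℝ) : Cl η (1 : Q) μ μ := fun ω => by
  rwa [one_smul, sub_self, abs_zero]

theorem cl_le (a : Cl η g μ ν) (h : η ≤ η') : Cl η' g μ ν := fun ω => (a ω).trans h

theorem cl_symm (a : Cl η g μ ν) : Cl η g⁻¹ ν μ := fun ω => by
  have := a (g⁻¹ • ω)
  rwa [smul_inv_smul, abs_sub_comm] at this

theorem cl_mul (a : Cl η g ν ξ) (b : Cl η' h μ ν) : Cl (η + η') (g * h) μ ξ := fun ω => by
  rw [mul_smul]
  linarith [b ω, a (h • ω), abs_sub_le (ξ (g • h • ω)) (ν (h • ω)) (μ ω)]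

end

/-- an object with finitely many different labels -/
structure LOb (X Ω : Type) : Type 1 where
  a : Ob X
  p : a.I → Ω → ℝ
  fin : (Set.range p).Finite

variable {X Ω K : Type} [Group K]

instance : Add (LOb X Ω) :=
  ⟨fun a b => ⟨a.a + b.a, Sum.elim a.p b.p, Set.Sum.elim_range a.p b.p ▸ a.fin.union b.fin⟩⟩

instance : Zero (LOb X Ω) := ⟨⟨0, Empty.elim, Set.toFinite (α := Ω → ℝ)
  (s := Set.range (Empty.elim : Empty → Ω → ℝ))⟩⟩

/-- the obstruction category with labels -/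
noncomputable def LC (ρ : K →* Equiv.Perm X) (Ω : Type) : SCat (LOb X Ω) where
  Hom a b := (OC ρ).Hom a.a b.a
  acg a b := (OC ρ).acg a.a b.a
  mul := (OC ρ).mul
  one a := (OC ρ).one a.a
  cj := (OC ρ).cj
  inl a b := (OC ρ).inl a.a b.a
  inr a b := (OC ρ).inr a.a b.a
  mul_assoc := (OC ρ).mul_assoc
  one_mul := (OC ρ).one_mul
  mul_one := (OC ρ).mul_one
  mul_add := (OC ρ).mul_add
  add_mul := (OC ρ).add_mul
  cj_add := (OC ρ).cj_add
  cj_mul := (OC ρ).cj_mul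
  cj_cj := (OC ρ).cj_cj
  inl_inl a b := (OC ρ).inl_inl a.a b.a
  inr_inr a b := (OC ρ).inr_inr a.a b.a
  inl_inr a b := (OC ρ).inl_inr a.a b.a
  total a b := (OC ρ).total a.a b.a
  one_zero := (OC ρ).one_zero

/-- forgetting the labels -/
def fgt (ρ : K →* Equiv.Perm X) (Ω : Type) : Fn (LC ρ Ω) (OC ρ) where
  ob a := a.a
  map x := x
  map_add _ _ := rfl
  map_mul _ _ := rfl
  map_one _ := rfl
  map_ct _ := rfl

variable {ρ : K →* Equiv.Perm X} {σ : K →* Equiv.Perm Ω} {η η' : ℝ} {I J L : Ob X}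

/-- control with respect to labels -/
def Cn (σ : K →* Equiv.Perm Ω) (η : ℝ) (p : I.I → Ω → ℝ) (q : J.I → Ω → ℝ) (x : (OC ρ).Hom I J) :
    Prop := ∀ i j g, (val x i j).coeff g ≠ 0 → Cl η (σ g) (q j) (p i)

variable {p : I.I → Ω → ℝ} {q : J.I → Ω → ℝ} {r : L.I → Ω → ℝ} {x y : (OC ρ).Hom I J}

theorem Cn.mono (h : Cn σ η p q x) (e : η ≤ η') : Cn σ η' p q x :=
  fun i j g k => cl_le (h i j g k) e

theorem cn_zero : Cn σ η p q (0 : (OC ρ).Hom I J) := fun _ _ _ k => absurd rfl k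

theorem Cn.add (h : Cn σ η p q x) (h' : Cn σ η p q y) : Cn σ η p q (x + y) := fun i j g k => by
  by_cases e : (val x i j).coeff g = 0
  · refine h' i j g fun e' => k ?_
    rw [val_add, Matrix.add_apply, coeff_add, Finsupp.add_apply, e, e', add_zero]
  · exact h i j g e

theorem Cn.neg (h : Cn σ η p q x) : Cn σ η p q (-x) := fun i j g k => h i j g fun e => k (by
  rw [val_neg, Matrix.neg_apply, coeff_neg, Finsupp.neg_apply, e, neg_zero])

theorem Cn.sub (h : Cn σ η p q x) (h' : Cn σ η p q y) : Cn σ η p q (x - y) :=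
  sub_eq_add_neg x y ▸ h.add h'.neg

theorem Cn.mul {y : (OC ρ).Hom J L} (h : Cn σ η p q x) (h' : Cn σ η' q r y) :
    Cn σ (η + η') p r (x * y) := fun i k g e => by
  obtain ⟨j, g₁, g₂, rfl, h1, h2⟩ := coeff_cmul_ne e
  rw [map_mul]
  exact cl_mul (h _ _ _ h1) (h' _ _ _ h2)

theorem Cn.ct (h : Cn σ η p q x) : Cn σ η q p x.ct := fun j i g e => by
  rw [val_ct, Matrix.conjTranspose_apply, coeff_star] at e
  have := cl_symm (h _ _ _ e)
  rwa [← map_inv, inv_inv] at this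

theorem cn_pm {e : I.I → J.I} {γ : I.I → K} (hx : val x = pmM e γ)
    (h : ∀ i, Cl η (σ (γ i)) (q (e i)) (p i)) : Cn σ η p q x := fun i j g k => by
  rw [hx] at k
  obtain ⟨rfl, rfl⟩ := CA_pm k
  exact h i

theorem cn_pm1 {e : I.I → J.I} (hx : IsPm x e) (h : ∀ i, q (e i) = p i) : Cn σ 0 p q x :=
  cn_pm hx fun i => by
    rw [map_one, h]
    exact cl_rfl le_rfl _

theorem isPm_one : IsPm (1 : (OC ρ).Hom I I) id :=
  (@pmM_id _ _ _ fun _ _ => Classical.propDecidable _).symm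

/-- the control structure given by the labels -/
def cs (ρ : K →* Equiv.Perm X) (σ : K →* Equiv.Perm Ω) : Cs (LC ρ Ω) where
  N η a b x := Cn σ η a.p b.p x
  mono := Cn.mono
  zero _ _ _ := cn_zero
  add := Cn.add
  neg := Cn.neg
  mul := Cn.mul
  ct := Cn.ct
  one _ := cn_pm1 isPm_one fun _ => rfl
  inl a b := cn_pm1 (J := a.a + b.a) (e := Sum.inl) rfl fun _ => rfl
  inr a b := cn_pm1 (J := a.a + b.a) (e := Sum.inr) rfl fun _ => rfl

/-- a part of an object -/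
def lsub (a : LOb X Ω) (P : a.a.I → Prop) : LOb X Ω :=
  ⟨sub a.a P, fun i => a.p i.1, a.fin.subset fun _ ⟨i, h⟩ => ⟨i.1, h⟩⟩

/-- the Laurent extension -/
noncomputable def lauL (ρ : K →* Equiv.Perm X) (Ω : Type) : Lau (LC ρ Ω) (LC (ln ρ) Ω) where
  e := (lauO ρ).e
  f P := (lauO ρ).f P
  c := (lauO ρ).c
  zz a := (lauO ρ).zz a.a
  e_mul := (lauO ρ).e_mul
  e_one a := (lauO ρ).e_one a.a
  e_ct := (lauO ρ).e_ct
  e_inl a b := (lauO ρ).e_inl a.a b.a
  e_inr a b := (lauO ρ).e_inr a.a b.a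
  f_f P Q _ _ := (lauO ρ).f_f P Q
  f_not P _ _ := (lauO ρ).f_not P
  f_false := (lauO ρ).f_false
  f_mul P Q T _ _ _ := (lauO ρ).f_mul P Q T
  e_c := (lauO ρ).e_c
  c_e := (lauO ρ).c_e
  z_zero a := (lauO ρ).z_zero a.a
  z_add a := (lauO ρ).z_add a.a
  z_comm := (lauO ρ).z_comm
  f_z a := (lauO ρ).f_z a.a
  bdd := (lauO ρ).bdd

theorem clau (ρ : K →* Equiv.Perm X) (σ : K →* Equiv.Perm Ω) :
    CLau (lauL ρ Ω) (cs ρ σ) (cs (ln ρ) (ln σ)) where
  e {η a b x} h i j g k := by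
    obtain ⟨g, rfl⟩ := sup_mp (aC ρ) x i j g k
    exact h i j g fun e => k ((coeff_mp (f := aC ρ) aC_inj x i j g).trans e)
  f {η a b} P x h i j g k := h i j g fun e => k (by
    classical
    change (val (fm (fun g : K × Multiplicative ℤ => P g.2.toAdd) x) i j).coeff g = 0
    rw [coeff_fm, e, ite_self])
  c {η a b x} h i j g k := h i j ((aC ρ).f g) k
  z a n := cn_pm (val_tC n) fun i => by
    change Cl 0 (σ 1) _ _
    rw [map_one]
    exact cl_rfl le_rfl _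

/-- the sequences of objects whose labels lie deep inside the family -/
def lev (X : Type) (𝒜 : ℝ → Set (Ω → ℝ)) : Cls (ℕ → LOb X Ω) where
  P a := ∃ c : ℝ, 0 < c ∧ ∀ᶠ m in atTop, ∀ i, ∃ c', c ≤ c' ∧ (a m).p i ∈ 𝒜 c'
  h0 := ⟨1, one_pos, .of_forall fun _ i => i.elim⟩
  hadd a b := fun ⟨c, hc, h⟩ ⟨c', hc', h'⟩ => ⟨min c c', lt_min hc hc', (h.and h').mono fun m e =>
    Sum.rec (fun i => (e.1 i).imp fun _ k => ⟨(min_le_left _ _).trans k.1, k.2⟩)
      fun i => (e.2 i).imp fun _ k => ⟨(min_le_right _ _).trans k.1, k.2⟩⟩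

variable {𝒜 𝒜' : ℝ → Set (Ω → ℝ)} {a b : ℕ → LOb X Ω}

theorem lev_of (h : (lev X 𝒜).P a) (e : ∀ m i, ∃ j, (b m).p i = (a m).p j) : (lev X 𝒜).P b :=
  h.imp fun _ k => ⟨k.1, k.2.mono fun m z i => (e m i).elim fun j e => e ▸ z j⟩

theorem lev_mono (h : (lev X 𝒜).P a) (e : ∀ c, 𝒜 c ⊆ 𝒜' c) : (lev X 𝒜').P a :=
  h.imp fun _ k => ⟨k.1, k.2.mono fun m z i => (z i).imp fun c y => ⟨y.1, e c y.2⟩⟩

theorem wo_p (a : LOb X Ω) (n : ℕ) : ∀ i, ∃ j, (wo a n).p i = a.p j := by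
  induction n with
  | zero => exact fun i => i.elim
  | succ n ih => exact Sum.rec ih fun j => ⟨j, rfl⟩

theorem lev_wo (a : ℕ → LOb X Ω) (n : ℕ → ℕ) (h : (lev X 𝒜).P a) :
    (lev X 𝒜).P fun m => wo (a m) (n m) := lev_of h fun m => wo_p _ _

/-- the category of germs over the family -/
noncomputable abbrev GC (ρ : K →* Equiv.Perm X) (σ : K →* Equiv.Perm Ω) (𝒜 : ℝ → Set (Ω → ℝ)) :
    SCat (lev X 𝒜).T := full (Gm (cs ρ σ)) (lev X 𝒜)

/-- all invariants of the category of germs vanish -/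
def GV (ρ : K →* Equiv.Perm X) (σ : K →* Equiv.Perm Ω) (𝒜 : ℝ → Set (Ω → ℝ)) : Prop :=
  V3 (GC ρ σ 𝒜)

theorem gv_congr (e : ∀ c, 𝒜 c = 𝒜' c) (h : GV ρ σ 𝒜) : GV ρ σ 𝒜' := funext e ▸ h

/-- the sum of all shifts -/
noncomputable def lsw (a : LOb X Ω) : LOb X Ω :=
  ⟨swO id a.a, fun x => a.p x.1, a.fin.subset fun _ ⟨i, h⟩ => ⟨i.1, h⟩⟩

theorem cn_swU (a : LOb X Ω) : Cn σ 0 (lsw a).p (a + lsw a).p (swU ρ id a.a) :=
  cn_pm1 (e := swE) rfl (by rintro ⟨i, _ | n⟩ <;> rfl)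

theorem stab_gc : Stab (GC ρ σ 𝒜) := stab_of_absorb fun a => by
  have h : (cs ρ σ).Sm (a := fun m => lsw (a.1 m)) (b := a.1 + fun m => lsw (a.1 m))
      fun m => swU ρ id (a.1 m).a := Cs.sm_of_zero (.of_forall fun m => cn_swU _)
  exact ⟨⟨fun m => lsw (a.1 m), lev_of a.2 fun _ i => ⟨i.1, rfl⟩⟩, gm _ h,
    ((rp_gm h).mul (rp_gm h).ct).ext Rp.one fun m => (unt_swU id _).1,
    ((rp_gm h).ct.mul (rp_gm h)).ext Rp.one fun m => (unt_swU id _).2⟩

/-- the Laurent extension of the category of germs -/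
noncomputable def laG (ρ : K →* Equiv.Perm X) (σ : K →* Equiv.Perm Ω) (𝒜 : ℝ → Set (Ω → ℝ)) :
    La (GC ρ σ 𝒜) (GC (ln ρ) (ln σ) 𝒜) := gla (clau ρ σ) _ lev_wo

/-- level families that are open and invariant under the permutations in `σ.range` -/
def Opn (σ : K →* Equiv.Perm Ω) (𝒜 : ℝ → Set (Ω → ℝ)) : Prop :=
  ∀ (c c' η : ℝ) (g : K) (μ ν : Ω → ℝ), 0 < c' → 0 ≤ η → c' + η ≤ c → μ ∈ 𝒜 c →
    Cl η (σ g) μ ν → ν ∈ 𝒜 c'

end Pool.Agent.Work.MP_9d1ffa_al.Ct.LL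
end
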