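import Pool.Agent.Work.MP_9d1ffa_al.LL.Lc
import Pool.Agent.Work.MP_9d1ffa_al.WL.Top

-- merged part: Pool.Agent.Work.MP_9d1ffa_al.LL.Tk
section
/-! The torsion of a controlled homotopy equivalence in the obstruction category. -/

set_option linter.unusedSectionVars false
set_option linter.unusedVariables false

namespace Pool.Agent.Work.MP_9d1ffa_al.Ct.LL

open WL

theorem kt_swap {O : Type 1} [Add O] [Zero O] {𝒞 : SCat O} {I J : O} (D : KT 𝒞) (a : 𝒞.Hom I J)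
    (b : 𝒞.Hom J I) (h : D.D (1 + a * b)) : D.D (1 + b * a) :=
  (D.schur (a := 1) (X := -b) (Y := a) (w := -a) D.one (by simp) (by simp)).1
    (D.swap ((D.schur (a := 1) (X := a) (Y := -b) (w := b) D.one rfl (by simp)).2 h))

variable {X Ω K : Type} [Group K] {ρ : K →* Equiv.Perm X} {σ : K →* Equiv.Perm Ω} {I : Ob X}

/-- homogeneous morphisms -/
def Deg (c : I.I → ℕ) (r : ℤ) (x : (OC ρ).Hom I I) : Prop :=
  ∀ a b, val x a b ≠ 0 → (c a : ℤ) = c b + r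

/-- concentrated in degree zero -/
def Bot (c : I.I → ℕ) (z : (OC ρ).Hom I I) : Prop := ∀ a b, val z a b ≠ 0 → c a = 0 ∧ c b = 0

variable {c : I.I → ℕ} {r : ℤ} {x y : (OC ρ).Hom I I}

theorem Deg.zero : Deg c r (0 : (OC ρ).Hom I I) := fun _ _ h => (h rfl).elim

theorem Deg.one : Deg c 0 (1 : (OC ρ).Hom I I) := fun a b h => by rw [val_one_ne h, add_zero]

theorem Deg.add (hx : Deg c r x) (hy : Deg c r y) : Deg c r (x + y) := fun a b h =>
  (val_add_ne h).elim (hx a b) (hy a b)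

theorem Tk_neg (hx : Deg c r x) : Deg c r (-x) := fun a b h => hx a b (neg_ne_zero.1 h)

theorem Tk_sub (hx : Deg c r x) (hy : Deg c r y) : Deg c r (x - y) :=
  sub_eq_add_neg x y ▸ hx.add (Tk_neg hy)

theorem Tk_mul {s t : ℤ} (hx : Deg c r x) (hy : Deg c s y) (e : t = r + s) : Deg c t (x * y) :=
  fun a b h => by
    obtain ⟨k, h1, h2⟩ := val_mul_ne h
    have h1 := hx a k h1
    have h2 := hy k b h2
    omega

theorem Tk_pow (hx : Deg c r x) (n : ℕ) : Deg c (n * r) (x ^ n) := by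
  induction n with
  | zero => simpa using Deg.one
  | succ n ih =>
    rw [pow_succ]
    exact Tk_mul ih hx (by push_cast; ring)

theorem Tk_nil {N : ℕ} (hc : ∀ a, c a ≤ N) (hx : Deg c 2 x) : x ^ (N + 1) = 0 :=
  val_inj (funext fun a => funext fun b => by
    by_contra h
    have h1 := Tk_pow hx (N + 1) a b h
    have h2 := hc a
    push_cast at h1
    omega)

theorem Tk_ite {q : Prop} [Decidable q] {u : ZG K} {g : K}
    (h : (if q then u else 0).coeff g ≠ 0) : u.coeff g ≠ 0 := by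
  split_ifs at h
  exacts [h, (h rfl).elim]

/-- the projection onto the even part -/
noncomputable def Tk_ev (ρ : K →* Equiv.Perm X) (c : I.I → ℕ) : (OC ρ).Hom I I :=
  mk (Matrix.of fun a b => if c a % 2 = 0 then val (1 : (OC ρ).Hom I I) a b else 0)
    ((val_ctl 1).mono fun _ _ _ => Tk_ite)

theorem Tk_ev_mul (a b : I.I) :
    val (Tk_ev ρ c * x) a b = if c a % 2 = 0 then val x a b else 0 := by
  split_ifs with h
  · conv_rhs => rw [← Hm.one_mul x]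
    exact finsum_congr fun j => congrArg (· * val x j b) (if_pos h)
  · exact CB_zero _ _ _ _ fun j => (congrArg (· * val x j b) (if_neg h)).trans (zero_mul _)

theorem Tk_mul_ev (a b : I.I) :
    val (x * Tk_ev ρ c) a b = if c b % 2 = 0 then val x a b else 0 := by
  have e : ∀ j, val (Tk_ev ρ c) j b =
      if c b % 2 = 0 then val (1 : (OC ρ).Hom I I) j b else 0 := fun j => by
    by_cases k : val (1 : (OC ρ).Hom I I) j b = 0
    · change (if _ then _ else _) = _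
      rw [k, ite_self, ite_self]
    · obtain rfl := val_one_ne k
      rfl
  split_ifs with h
  · conv_rhs => rw [← Hm.mul_one x]
    exact finsum_congr fun j => congrArg (val x a j * ·) ((e j).trans (if_pos h))
  · exact CB_zero _ _ _ _ fun j =>
      (congrArg (val x a j * ·) ((e j).trans (if_neg h))).trans (mul_zero _)

theorem Tk_ev_ev : Tk_ev ρ c * Tk_ev ρ c = Tk_ev ρ c :=
  val_inj (funext fun a => funext fun b => by
    rw [Tk_ev_mul]
    split_ifs with h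
    exacts [rfl, (if_neg h).symm])

theorem Tk_even (h : ∀ a b, val x a b ≠ 0 → c a % 2 = c b % 2) :
    Tk_ev ρ c * x = x * Tk_ev ρ c :=
  val_inj (funext fun a => funext fun b => by
    rw [Tk_ev_mul, Tk_mul_ev]
    by_cases e : val x a b = 0
    · rw [e, ite_self, ite_self]
    · rw [h a b e])

theorem Tk_odd (h : ∀ a b, val x a b ≠ 0 → c a % 2 ≠ c b % 2) :
    Tk_ev ρ c * x = x * (1 - Tk_ev ρ c) :=
  val_inj (funext fun a => funext fun b => by
    rw [Hm.mul_sub, Hm.mul_one, val_sub, Matrix.sub_apply, Tk_ev_mul, Tk_mul_ev]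
    by_cases e : val x a b = 0
    · rw [e, ite_self, ite_self, sub_zero]
    · have := h a b e
      split_ifs <;> first | omega | simp)

theorem Tk_ev0 (h : Deg c 0 x) : Tk_ev ρ c * x = x * Tk_ev ρ c :=
  Tk_even fun a b e => by have := h a b e; omega

theorem Tk_ev_ne {a b : I.I} (h : val (Tk_ev ρ c * x) a b ≠ 0) : val x a b ≠ 0 := fun e =>
  h (by rw [Tk_ev_mul, e, ite_self])

theorem Tk_deg_ev : Deg c 0 (Tk_ev ρ c) := fun a b h =>
  Deg.one a b (Tk_ev_ne (by rwa [Hm.mul_one]))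

theorem Tk_odd_add {D Γ : (OC ρ).Hom I I} (hD : Deg c (-1) D) (hΓ : Deg c 1 Γ) :
    Tk_ev ρ c * (D + Γ) = (D + Γ) * (1 - Tk_ev ρ c) := by
  rw [mul_add, add_mul, Tk_odd fun a b e => by have := hD a b e; omega,
    Tk_odd fun a b e => by have := hΓ a b e; omega]

section Tors

variable (T : KT (OC ρ))
  (hu : ∀ {a b : Ob X} (u : (OC ρ).Hom a b), Sup (· = 1) u → Unt u → T.D u)

include hu

theorem Tk_triv_rs (m : I.I → ℕ) (M : ℕ) (hM : ∀ a, m a ≤ M)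
    (hx : ∀ a b, val x a b ≠ 0 → m b < m a) : T.D (A2.rs (Tk_ev ρ c) (1 + x)) := by
  rw [A2.rs_add]
  exact T.of_level hu M I _ m hM fun a b e => hx a b (Tk_ev_ne e)

/-- the torsion does not depend on the contraction -/
theorem Tk_triv_contr {N : ℕ} (hc : ∀ a, c a ≤ N) {D Γ Γ' s : (OC ρ).Hom I I} (hDD : D * D = 0)
    (h : D * Γ + Γ * D = 1) (h' : D * Γ' + Γ' * D = 1) (hD : Deg c (-1) D) (hΓ : Deg c 1 Γ)
    (hΓ' : Deg c 1 Γ') (hs : s * s = 1) (hP : Tk_ev ρ c * s = s * (1 - Tk_ev ρ c))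
    (hT : T.D (A2.rs (Tk_ev ρ c) ((D + Γ) * s))) : T.D (A2.rs (Tk_ev ρ c) (s * (D + Γ'))) := by
  refine T.of_mul' ?_ hT
  have a1 : D * Γ = 1 - Γ * D := eq_sub_of_add_eq h
  have a2 : D * Γ' = 1 - Γ' * D := eq_sub_of_add_eq h'
  have a3 : D * ((Γ - Γ') * D) = 0 := by
    rw [← mul_assoc, mul_sub, a1, a2, sub_mul, sub_mul, sub_mul, mul_assoc, mul_assoc, hDD]
    simp
  have hx : Deg c 0 ((Γ - Γ') * D) := Tk_mul (Tk_sub hΓ hΓ') hD (by norm_num)
  have a4 : (Γ - Γ') * D * (Γ * D) = (Γ - Γ') * D := by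
    rw [mul_assoc, ← mul_assoc D, a1, sub_mul 1, mul_assoc, hDD, mul_zero, sub_zero, one_mul]
  have a5 : (Γ - Γ') * D * ((Γ - Γ') * D) = 0 := by rw [mul_assoc, a3, mul_zero]
  have a6 : (D + Γ) * s * (s * (D + Γ')) = 1 + (Γ - Γ') * D + Γ * Γ' := by
    rw [mul_assoc, ← mul_assoc s, hs, one_mul, add_mul, mul_add, mul_add, hDD, a2, sub_mul]
    abel
  have a7 : Γ * D * ((Γ - Γ') * D) = 0 := by rw [mul_assoc, a3, mul_zero]
  generalize (Γ - Γ') * D = x at hx a4 a5 a6 a7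
  have a8 : 1 + x + Γ * Γ' = (1 + x) * (1 + (1 - x) * (Γ * Γ')) := by
    rw [mul_add, ← mul_assoc, mul_sub, mul_one, add_mul, a5]
    simp
  rw [A2.rs_mul Tk_ev_ev (A2.odd_mul (Tk_odd_add hD hΓ) hP), a6, a8,
    ← A2.rs_mul Tk_ev_ev (Tk_ev0 (Deg.one.add hx))]
  refine T.mul ?_ (Tk_triv_rs T hu c N hc fun a b e => ?_)
  · rw [A2.rs_add, ← a4, ← mul_assoc]
    refine kt_swap T _ _ ?_
    rw [← mul_assoc, ← Tk_ev0 (Tk_mul hΓ hD (by norm_num)), mul_assoc, a7, mul_zero, add_zero]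
    exact T.one
  · have h1 := Tk_mul (Tk_sub Deg.one hx) (Tk_mul hΓ hΓ' rfl) rfl a b e
    omega

end Tors

variable {p : I.I → Ω → ℝ} {η : ℝ}

theorem Tk_cn_one (h : 0 ≤ η) : Cn σ η p p (1 : (OC ρ).Hom I I) :=
  (cn_pm1 isPm_one fun _ => rfl).mono h

theorem Tk_cn_ev (h : 0 ≤ η) : Cn σ η p p (Tk_ev ρ c) := fun a b g k =>
  Tk_cn_one h a b g (Tk_ite k)

theorem Tk_cn_rs (h : 0 ≤ η) (hx : Cn σ η p p x) : Cn σ η p p (A2.rs (Tk_ev ρ c) x) := by
  have := (Tk_cn_ev (c := c) le_rfl).mul hx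
  rw [zero_add] at this
  exact this.add ((Tk_cn_one h).sub (Tk_cn_ev h))

theorem Tk_cn_pow (hx : Cn σ η p p x) (n : ℕ) : Cn σ (n * η) p p (x ^ n) := by
  induction n with
  | zero => simpa using Tk_cn_one le_rfl
  | succ n ih =>
    rw [pow_succ, Nat.cast_succ, add_mul, one_mul]
    exact ih.mul hx

theorem Tk_cn_geom (h : 0 ≤ η) (hx : Cn σ η p p x) (n : ℕ) :
    Cn σ (n * η) p p (∑ i ∈ Finset.range n, x ^ i) :=
  Finset.sum_induction _ (Cn σ (n * η) p p) (fun _ _ => Cn.add) cn_zero fun i hi =>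
    (Tk_cn_pow hx i).mono
      (mul_le_mul_of_nonneg_right (Nat.cast_le.2 (Finset.mem_range.1 hi).le) h)

/-- a controlled contraction gives a controlled automorphism -/
theorem Tk_cn_contr {N : ℕ} (hc : ∀ a, c a ≤ N) {D Γ s : (OC ρ).Hom I I} (hDD : D * D = 0)
    (h : D * Γ + Γ * D = 1) (hD : Deg c (-1) D) (hΓ : Deg c 1 Γ) (hs : s * s = 1)
    (hP : Tk_ev ρ c * s = s * (1 - Tk_ev ρ c)) (h0 : 0 ≤ η) (cD : Cn σ η p p D)
    (cΓ : Cn σ η p p Γ) (cs : Cn σ 0 p p s) :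
    ∃ A', (A2.rs (Tk_ev ρ c) ((D + Γ) * s) * A' = 1 ∧ A' * A2.rs (Tk_ev ρ c) ((D + Γ) * s) = 1) ∧
      Cn σ ((2 * N + 3) * η) p p (A2.rs (Tk_ev ρ c) ((D + Γ) * s)) ∧
        Cn σ ((2 * N + 3) * η) p p A' := by
  obtain ⟨e1, e2⟩ := A2.sq_inv hDD h (Tk_nil hc (Tk_neg (Tk_mul hΓ hΓ (by norm_num))))
  have c1 := cs.mul ((cD.add cΓ).mul (Tk_cn_geom (add_nonneg h0 h0) (cΓ.mul cΓ).neg (N + 1)))
  have hX := Tk_odd_add hD hΓ
  have hN : (0 : ℝ) ≤ N * η := mul_nonneg N.cast_nonneg h0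
  have h1 : 0 ≤ (2 * N + 3) * η := by linarith
  refine ⟨_, ⟨?_, ?_⟩, Tk_cn_rs h1 (((cD.add cΓ).mul cs).mono (by linarith)),
    Tk_cn_rs (c := c) h1 (c1.mono (by push_cast; linarith))⟩
  · rw [A2.rs_mul Tk_ev_ev (A2.odd_mul hX hP), mul_assoc, ← mul_assoc s, hs, one_mul, e1,
      A2.rs_one]
  · rw [A2.rs_mul Tk_ev_ev (A2.odd_mul hP (A2.odd_inv hX e1 e2)), mul_assoc, ← mul_assoc _ _ s, e2,
      one_mul, hs, A2.rs_one]

/-- the degree in the cone -/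
def Tk_cc (c : I.I → ℕ) : (I + I).I → ℕ := Sum.elim c fun a => c a + 1

theorem Tk_blk {P : (I + I).I → (I + I).I → Prop} {x y z w : (OC ρ).Hom I I}
    (hx : ∀ a b, val x a b ≠ 0 → P (.inl a) (.inl b))
    (hy : ∀ a b, val y a b ≠ 0 → P (.inl a) (.inr b))
    (hz : ∀ a b, val z a b ≠ 0 → P (.inr a) (.inl b))
    (hw : ∀ a b, val w a b ≠ 0 → P (.inr a) (.inr b)) :
    ∀ a b, val (fromBlocks x y z w) a b ≠ 0 → P a b := by
  rw [val_fromBlocks]
  rintro (a | a) (b | b) h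
  exacts [hx a b h, hy a b h, hz a b h, hw a b h]

theorem Tk_deg_blk {s t : ℤ} {x y z w : (OC ρ).Hom I I} (hx : Deg c r x) (hy : Deg c s y)
    (hz : Deg c t z) (hw : Deg c r w) (e : s = r + 1) (e' : t = r - 1) :
    Deg (Tk_cc c) r (fromBlocks x y z w) := by
  refine Tk_blk hx (fun a b h => ?_) (fun a b h => ?_) fun a b h => ?_
  · have := hy a b h
    change (c a : ℤ) = (c b + 1 : ℕ) + r
    omega
  · have := hz a b h
    change ((c a + 1 : ℕ) : ℤ) = c b + r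
    omega
  · have := hw a b h
    change ((c a + 1 : ℕ) : ℤ) = (c b + 1 : ℕ) + r
    omega

theorem Tk_cn_blk {x y z w : (OC ρ).Hom I I} (hx : Cn σ η p p x) (hy : Cn σ η p p y)
    (hz : Cn σ η p p z) (hw : Cn σ η p p w) :
    Cn σ η (I := I + I) (J := I + I) (Sum.elim p p) (Sum.elim p p) (fromBlocks x y z w) := by
  rw [Cn, val_fromBlocks]
  rintro (a | a) (b | b) g h
  exacts [hx a b g h, hy a b g h, hz a b g h, hw a b g h]

theorem Tk_sw_sw : sComm (OC ρ) I I * sComm (OC ρ) I I = 1 := by simp [sComm, fromBlocks_multiply]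

theorem Tk_ev_sw :
    Tk_ev ρ (Tk_cc c) * sComm (OC ρ) I I = sComm (OC ρ) I I * (1 - Tk_ev ρ (Tk_cc c)) := by
  refine Tk_odd (Tk_blk (fun _ _ h => (h rfl).elim) (fun a b h => ?_) (fun a b h => ?_)
    fun _ _ h => (h rfl).elim)
  · obtain rfl := val_one_ne h
    change c a % 2 ≠ (c a + 1) % 2
    omega
  · obtain rfl := val_one_ne h
    change (c a + 1) % 2 ≠ c a % 2
    omega

theorem Tk_ev_cc : Tk_ev ρ (Tk_cc c) = fromBlocks (Tk_ev ρ c) 0 0 (1 - Tk_ev ρ c) :=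
  val_inj (funext fun a => funext fun b => by
    rw [← Hm.mul_one (Tk_ev ρ (Tk_cc c)), Tk_ev_mul, ← fromBlocks_one, val_fromBlocks,
      val_fromBlocks]
    rcases a with a | a <;> rcases b with b | b
    · rfl
    · exact ite_self _
    · exact ite_self _
    · change (if (c a + 1) % 2 = 0 then val (1 : (OC ρ).Hom I I) a b else 0) =
        val (1 : (OC ρ).Hom I I) a b - if c a % 2 = 0 then val (1 : (OC ρ).Hom I I) a b else 0
      split_ifs <;> first | omega | simp)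

theorem Tk_bot_deg (h : Bot c x) : Deg c 0 x := fun a b e => by
  have := h a b e
  omega

theorem Tk_bot_ev (h : Bot c x) : Tk_ev ρ c * x = x :=
  val_inj (funext fun a => funext fun b => by
    rw [Tk_ev_mul]
    by_cases e : val x a b = 0
    · rw [e, ite_self]
    · rw [(h a b e).1, if_pos rfl])

section Tors

variable (T : KT (OC ρ))
  (hu : ∀ {a b : Ob X} (u : (OC ρ).Hom a b), Sup (· = 1) u → Unt u → T.D u)

include hu

/-- the cone of an automorphism that differs from the identity only in degree zero -/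
theorem Tk_triv_bot {N : ℕ} (hc : ∀ a, c a ≤ N) {d z z' : (OC ρ).Hom I I} (hd : Deg c (-1) d)
    (hz : Bot c z) (hz' : Bot c z') (e : z' * d = 0)
    (h : T.D (A2.rs (Tk_ev ρ (Tk_cc c))
      (sComm (OC ρ) I I * fromBlocks d (1 + z) (1 + z') (-d)))) : T.D (1 + z') := by
  have a1 : z' * (Tk_ev ρ c * d) = 0 := by
    rw [← mul_assoc, ← Tk_ev0 (Tk_bot_deg hz'), Tk_bot_ev hz', e]
  have a : A2.rs (Tk_ev ρ (Tk_cc c)) (sComm (OC ρ) I I * fromBlocks d (1 + z) (1 + z') (-d)) =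
      fromBlocks (1 + z') 0 0 1 *
        (1 + fromBlocks 0 (-(Tk_ev ρ c * d)) ((1 - Tk_ev ρ c) * d) 0) := by
    rw [A2.rs, Tk_ev_cc, sComm, ← fromBlocks_one, fromBlocks_sub]
    simp only [fromBlocks_multiply, fromBlocks_add, fromBlocks_inj, Hm.zero_mul,
      Hm.one_mul, Hm.mul_one, zero_add, add_zero, mul_add, add_mul,
      sub_mul, Tk_bot_ev hz, Tk_bot_ev hz', mul_neg, a1, neg_zero, sub_zero]
    refine ⟨by abel, trivial, trivial, by abel⟩
  rw [a] at h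
  refine T.cancel (T.of_mul h (T.of_level hu N _ _ (Sum.elim (N - c ·) (N - c ·)) ?_
    (Tk_blk (fun _ _ k => (k rfl).elim) (fun a b k => ?_) (fun a b k => ?_)
      fun _ _ k => (k rfl).elim))) T.one
  · rintro (a | a) <;> exact Nat.sub_le _ _
  · have := Tk_neg (Tk_mul Tk_deg_ev hd rfl) a b k
    have := hc b
    change N - c b < N - c a
    omega
  · have := Tk_mul (Tk_sub Deg.one Tk_deg_ev) hd rfl a b k
    have := hc b
    change N - c b < N - c a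
    omega

/-- homotopic maps have cones with the same torsion -/
theorem Tk_triv_conj {j : (OC ρ).Hom I I} (hj : Deg c 1 j) {W : (OC ρ).Hom (I + I) (I + I)}
    (hW : Tk_ev ρ (Tk_cc c) * W = W * (1 - Tk_ev ρ (Tk_cc c)))
    (h : T.D (A2.rs (Tk_ev ρ (Tk_cc c))
      (sComm (OC ρ) I I * (fromBlocks 1 (-j) 0 1 * W * fromBlocks 1 j 0 1)))) :
    T.D (A2.rs (Tk_ev ρ (Tk_cc c)) (sComm (OC ρ) I I * W)) := by
  have a1 : sComm (OC ρ) I I * (fromBlocks 1 (-j) 0 1 * W * fromBlocks 1 j 0 1) =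
      (1 + fromBlocks 0 0 (-j) 0) * (sComm (OC ρ) I I * W * (1 + fromBlocks 0 j 0 0)) := by
    have b1 : sComm (OC ρ) I I * fromBlocks 1 (-j) 0 1 =
        (1 + fromBlocks 0 0 (-j) 0) * sComm (OC ρ) I I := by
      rw [← fromBlocks_one, fromBlocks_add]
      simp [sComm, fromBlocks_multiply]
    have b2 : fromBlocks 1 j 0 1 = (1 : (OC ρ).Hom (I + I) (I + I)) + fromBlocks 0 j 0 0 := by
      rw [← fromBlocks_one, fromBlocks_add]
      simp
    rw [← mul_assoc, ← mul_assoc, b1, b2]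
    simp only [mul_assoc]
  have a2 : Tk_ev ρ (Tk_cc c) * (1 + fromBlocks 0 0 (-j) 0) =
      (1 + fromBlocks 0 0 (-j) 0) * Tk_ev ρ (Tk_cc c) := by
    have := Tk_deg_blk (r := 2) Deg.zero Deg.zero (Tk_neg hj) Deg.zero rfl rfl
    rw [mul_add, add_mul, mul_one, one_mul, Tk_even fun a b e => by have := this a b e; omega]
  rw [a1, ← A2.rs_mul Tk_ev_ev a2, ← A2.rs_mul Tk_ev_ev (A2.odd_mul Tk_ev_sw hW)] at h
  have z : ∀ {P : I.I → I.I → Prop} a b, val (0 : (OC ρ).Hom I I) a b ≠ 0 → P a b :=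
    fun _ _ k => (k rfl).elim
  refine T.of_mul (T.of_mul' h (Tk_triv_rs T hu (Sum.elim (fun _ => 0) fun _ => 1) 1 ?_
    (Tk_blk z z (fun _ _ _ => one_pos) z)))
    (Tk_triv_rs T hu (Sum.elim (fun _ => 1) fun _ => 0) 1 ?_ (Tk_blk z (fun _ _ _ => one_pos) z z))
  · rintro (a | a)
    exacts [zero_le_one, le_rfl]
  · rintro (a | a)
    exacts [le_rfl, zero_le_one]

end Tors

/-- the torsion of a controlled homotopy equivalence -/
theorem cone (D : KT (OC ρ))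
    (hu : ∀ {a b : Ob X} (u : (OC ρ).Hom a b), Sup (· = 1) u → Unt u → D.D u)
    {p : I.I → Ω → ℝ} {η : ℝ} {N : ℕ} (hc : ∀ a, c a ≤ N)
    {d ψ ψ' h k j z z' : (OC ρ).Hom I I} (dd : d * d = 0) (e : d * ψ = ψ * d)
    (e' : d * ψ' = ψ' * d) (e1 : ψ * ψ' - 1 = d * h + h * d) (e2 : ψ' * ψ - 1 = d * k + k * d)
    (e3 : ψ - (1 + z) = d * j + j * d) (e4 : (1 + z) * (1 + z') = 1) (e5 : (1 + z') * (1 + z) = 1)
    (e6 : z' * d = 0) (e7 : d * z' = 0)
    (gd : Deg c (-1) d) (gψ : Deg c 0 ψ) (gψ' : Deg c 0 ψ') (gh : Deg c 1 h) (gk : Deg c 1 k)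
    (gj : Deg c 1 j) (gz : Bot c z) (gz' : Bot c z') (h0 : 0 ≤ η) (cd : Cn σ η p p d)
    (cψ : Cn σ η p p ψ) (cψ' : Cn σ η p p ψ') (ch : Cn σ η p p h) (ck : Cn σ η p p k) :
    ∃ A A' : (OC ρ).Hom (I + I) (I + I), (A * A' = 1 ∧ A' * A = 1) ∧
      (Cn σ ((6 * N + 15) * η) (I := I + I) (J := I + I) (Sum.elim p p) (Sum.elim p p) A ∧
        Cn σ ((6 * N + 15) * η) (I := I + I) (J := I + I) (Sum.elim p p) (Sum.elim p p) A') ∧
      (D.D A → D.D (1 + z')) := by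
  have hc' : ∀ a, Tk_cc c a ≤ N + 1 := by
    rintro (a | a)
    exacts [(hc a).trans N.le_succ, Nat.succ_le_succ (hc a)]
  have gD : ∀ φ : (OC ρ).Hom I I, Deg c 0 φ → Deg (Tk_cc c) (-1) (fromBlocks d φ 0 (-d)) :=
    fun φ hφ => Tk_deg_blk gd hφ Deg.zero (Tk_neg gd) rfl rfl
  have DD : fromBlocks d ψ 0 (-d) * fromBlocks d ψ 0 (-d) = 0 := by
    simp [fromBlocks_multiply, dd, e]
  have a1 : fromBlocks d ψ 0 (-d) * fromBlocks (-h) 0 ψ' k +
      fromBlocks (-h) 0 ψ' k * fromBlocks d ψ 0 (-d) = 1 + fromBlocks 0 (ψ * k - h * ψ) 0 0 := by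
    rw [← fromBlocks_one]
    simp only [fromBlocks_multiply, fromBlocks_add, fromBlocks_inj, eq_add_of_sub_eq e1,
      eq_add_of_sub_eq e2, neg_mul, e']
    refine ⟨?_, ?_, ?_, ?_⟩ <;> noncomm_ring
  have a2 := A2.fix_contr DD a1 (by simp [fromBlocks_multiply])
  have gΓ : Deg (Tk_cc c) 1
      (fromBlocks (-h) 0 ψ' k * (1 - fromBlocks 0 (ψ * k - h * ψ) 0 0)) :=
    Tk_mul (Tk_deg_blk (Tk_neg gh) Deg.zero gψ' gk rfl rfl) (Tk_sub Deg.one (Tk_deg_blk Deg.zero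
      (Tk_sub (Tk_mul gψ gk rfl) (Tk_mul gh gψ rfl)) Deg.zero Deg.zero rfl rfl)) rfl
  have cΓ := (Tk_cn_blk ch.neg cn_zero cψ' ck).mul ((Tk_cn_one (add_nonneg h0 h0)).sub
    (Tk_cn_blk cn_zero ((cψ.mul ck).sub (ch.mul cψ)) cn_zero cn_zero))
  obtain ⟨A', u, c1, c2⟩ := Tk_cn_contr hc' DD a2 (gD ψ gψ) gΓ Tk_sw_sw Tk_ev_sw (by linarith)
    ((Tk_cn_blk cd cψ cn_zero cd.neg).mono (by linarith)) cΓ
    (Tk_cn_blk cn_zero (Tk_cn_one le_rfl) (Tk_cn_one le_rfl) cn_zero)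
  have en : (2 * ((N + 1 : ℕ) : ℝ) + 3) * (η + (η + η)) = (6 * N + 15) * η := by
    push_cast
    ring
  rw [en] at c1 c2
  refine ⟨_, A', u, ⟨c1, c2⟩, fun hT => ?_⟩
  have b1 : fromBlocks d (1 + z) 0 (-d) * fromBlocks 0 0 (1 + z') 0 +
      fromBlocks 0 0 (1 + z') 0 * fromBlocks d (1 + z) 0 (-d) = 1 := by
    rw [← fromBlocks_one]
    simp only [fromBlocks_multiply, fromBlocks_add, fromBlocks_inj, e4, e5]
    simp [mul_add, add_mul, e6, e7]
  have b2 := A2.conj_contr (U := fromBlocks 1 j 0 1) (V := fromBlocks 1 (-j) 0 1) b1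
    (by simp [fromBlocks_multiply]) (by simp [fromBlocks_multiply])
  have b3 : fromBlocks 1 (-j) 0 1 * fromBlocks d (1 + z) 0 (-d) * fromBlocks 1 j 0 1 =
      fromBlocks d ψ 0 (-d) := by
    simp only [fromBlocks_multiply, fromBlocks_inj, eq_add_of_sub_eq e3]
    refine ⟨?_, ?_, ?_, ?_⟩ <;> noncomm_ring
  have g0 : Deg (Tk_cc c) 1 (fromBlocks 0 0 (1 + z') 0) :=
    Tk_deg_blk Deg.zero Deg.zero (Deg.one.add (Tk_bot_deg gz')) Deg.zero rfl rfl
  rw [b3] at b2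
  have b4 := Tk_triv_contr D hu hc' DD a2 b2 (gD ψ gψ) gΓ
    (Tk_mul (Tk_mul (Tk_deg_blk Deg.one (Tk_neg gj) Deg.zero Deg.one rfl rfl) g0 rfl)
      (Tk_deg_blk Deg.one gj Deg.zero Deg.one rfl rfl) rfl) Tk_sw_sw Tk_ev_sw hT
  rw [← b3, ← add_mul, ← mul_add] at b4
  have b5 := Tk_triv_conj D hu gj (Tk_odd_add (gD _ (Deg.one.add (Tk_bot_deg gz))) g0) b4
  rw [fromBlocks_add] at b5
  simp only [add_zero, zero_add] at b5
  exact Tk_triv_bot D hu hc gd gz gz' e6 b5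

end Pool.Agent.Work.MP_9d1ffa_al.Ct.LL
end

-- merged part: Pool.Agent.Work.MP_9d1ffa_al.LL.Sd
section
/-! Self-dual transfer data. -/

set_option linter.unusedSectionVars false
set_option linter.unusedVariables false

namespace Pool.Agent.Work.MP_9d1ffa_al.Ct.LL

open WL Matrix

variable {Q Ω : Type} [Group Q] [MulAction Q Ω]

/-- self-dual chain level transfer data -/
structure SD (B : Type) [Fintype B] [DecidableEq B] (S : Finset Q) (ε : ℝ) (p : B → Ω → ℝ) where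
  d : Matrix B B ℤ
  μ : Matrix B B ℤ
  Φ : Q → Matrix B B ℤ
  H : Q → Q → Matrix B B ℤ
  J : Q → Matrix B B ℤ
  u : B → ℤ
  v : B → ℤ
  dd : d * d = 0
  dΦ : ∀ g ∈ S, d * Φ g = Φ g * d
  dH : ∀ g ∈ S, ∀ h ∈ S, d * H g h + H g h * d = Φ g * Φ h - Φ (g * h)
  dJ : ∀ g ∈ S, d * J g + J g * d = Φ g - vecMulVec u v
  vu : v ⬝ᵥ u = 1
  vd : v ᵥ* d = 0
  μT : μᵀ = μ
  μμ : μ * μ = 1
  μu : μ *ᵥ u = v
  dμ : dᵀ * μ = μ * d
  Φμ : ∀ g, (Φ g⁻¹)ᵀ * μ = μ * Φ g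
  d_cl : ∀ b' b, d b' b ≠ 0 → Cl ε (1 : Q) (p b) (p b')
  μ_cl : ∀ b' b, μ b' b ≠ 0 → Cl ε (1 : Q) (p b) (p b')
  Φ_cl : ∀ g ∈ S, ∀ b' b, Φ g b' b ≠ 0 → Cl ε g (p b) (p b')
  H_cl : ∀ g ∈ S, ∀ h ∈ S, ∀ b' b, H g h b' b ≠ 0 → Cl ε (g * h) (p b) (p b')

section

variable {η η' : ℝ} {g h : Q} {μ ν μ' ν' ξ : Ω → ℝ}

theorem Sd_rfl (h : 0 ≤ η) (μ : Ω → ℝ) : Cl η (1 : Q) μ μ := fun ω => by
  rwa [one_smul, sub_self, abs_zero]

theorem Sd_symm (a : Cl η g⁻¹ μ ν) : Cl η g ν μ := fun ω => by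
  have := a (g • ω)
  rwa [inv_smul_smul, abs_sub_comm] at this

theorem Sd_mul (a : Cl η g ν ξ) (b : Cl η' h μ ν) : Cl (η + η') (g * h) μ ξ := fun ω => by
  rw [mul_smul]
  linarith [b ω, a (h • ω), abs_sub_le (ξ (g • h • ω)) (ν (h • ω)) (μ ω)]

theorem Sd_two (h : 0 ≤ η) (a : Cl η g μ ν) : Cl (2 * η) g μ ν := fun ω =>
  (a ω).trans (by linarith)

theorem Sd_max (a : Cl η g μ ν) (b : Cl η g μ' ν') :
    Cl η g (fun ω => max (μ ω) (μ' ω)) fun ω => max (ν ω) (ν' ω) := fun ω =>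
  (abs_max_sub_max_le_max _ _ _ _).trans (max_le (a ω) (b ω))

end

section

open Kronecker

variable {B : Type} [Fintype B] [DecidableEq B] {c : B → ℕ} {A d K C : Matrix B B ℤ}

/-- the sign given by the degree -/
def Sd_s (c : B → ℕ) : Matrix B B ℤ := diagonal fun b => (-1) ^ c b

theorem Sd_ss : Sd_s c * Sd_s c = 1 := by
  rw [Sd_s, diagonal_mul_diagonal, ← diagonal_one]
  exact congrArg _ (funext fun b => by rw [← mul_pow]; simp)

theorem Sd_even (h : ∀ a b, A a b ≠ 0 → c a = c b) : Sd_s c * Aᵀ = Aᵀ * Sd_s c := by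
  ext a b
  rw [Sd_s, diagonal_mul, mul_diagonal, transpose_apply]
  by_cases e : A b a = 0
  · simp [e]
  · rw [h _ _ e, mul_comm]

theorem Sd_odd (h : ∀ a b, A a b ≠ 0 → c a = c b + 1 ∨ c a + 1 = c b) :
    Aᵀ * Sd_s c = -(Sd_s c * Aᵀ) := by
  ext a b
  rw [neg_apply, Sd_s, diagonal_mul, mul_diagonal, transpose_apply]
  by_cases e : A b a = 0
  · simp [e]
  · rcases h _ _ e with k | k
    · rw [k]
      ring
    · rw [← k]
      ring

theorem Sd_nl (A C : Matrix B B ℤ) : (-A) ⊗ₖ C = -(A ⊗ₖ C) := by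
  ext a b
  simp [kroneckerMap_apply]

theorem Sd_sl (A K C : Matrix B B ℤ) : (A - K) ⊗ₖ C = A ⊗ₖ C - K ⊗ₖ C := by
  ext a b
  simp [kroneckerMap_apply, sub_mul]

theorem Sd_sr (A K C : Matrix B B ℤ) : C ⊗ₖ (A - K) = C ⊗ₖ A - C ⊗ₖ K := by
  ext a b
  simp [kroneckerMap_apply, mul_sub]

/-- the differential of the tensor product of the dual complex with the complex -/
def Sd_d (c : B → ℕ) (d : Matrix B B ℤ) : Matrix (B × B) (B × B) ℤ :=
  dᵀ ⊗ₖ (1 : Matrix B B ℤ) + Sd_s c ⊗ₖ d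

theorem Sd_map (hA : Sd_s c * Aᵀ = Aᵀ * Sd_s c) (h : d * A = A * d) (h' : d * C = C * d) :
    Sd_d c d * (Aᵀ ⊗ₖ C) = (Aᵀ ⊗ₖ C) * Sd_d c d := by
  simp only [Sd_d, mul_add, add_mul, ← mul_kronecker_mul, one_mul, mul_one, ← transpose_mul, h, h',
    hA]

theorem Sd_left (hK : Kᵀ * Sd_s c = -(Sd_s c * Kᵀ)) (h' : d * C = C * d) :
    Sd_d c d * (Kᵀ ⊗ₖ C) + (Kᵀ ⊗ₖ C) * Sd_d c d = (d * K + K * d)ᵀ ⊗ₖ C := by
  simp only [Sd_d, mul_add, add_mul, ← mul_kronecker_mul, one_mul, mul_one, h', hK, Sd_nl,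
    transpose_add, transpose_mul, add_kronecker]
  abel

theorem Sd_right (hd : dᵀ * Sd_s c = -(Sd_s c * dᵀ)) (hA : Sd_s c * Aᵀ = Aᵀ * Sd_s c)
    (h : d * A = A * d) (K : Matrix B B ℤ) :
    Sd_d c d * ((Sd_s c * Aᵀ) ⊗ₖ K) + ((Sd_s c * Aᵀ) ⊗ₖ K) * Sd_d c d =
      Aᵀ ⊗ₖ (d * K + K * d) := by
  have e1 : dᵀ * (Sd_s c * Aᵀ) = -(Sd_s c * Aᵀ * dᵀ) := by
    rw [← mul_assoc, hd, neg_mul, mul_assoc, mul_assoc, ← transpose_mul, ← transpose_mul, h]
  have e2 : Sd_s c * (Sd_s c * Aᵀ) = Aᵀ := by rw [← mul_assoc, Sd_ss, one_mul]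
  have e3 : Sd_s c * Aᵀ * Sd_s c = Aᵀ := by rw [mul_assoc, ← hA, e2]
  simp only [Sd_d, mul_add, add_mul, ← mul_kronecker_mul, one_mul, mul_one, e1, e2, e3, Sd_nl,
    kronecker_add]
  abel

/-- the signed flip -/
def Sd_m (c : B → ℕ) : Matrix (B × B) (B × B) ℤ :=
  of fun x y => if x.swap = y then (-1) ^ (c x.1 * c x.2) else 0

theorem Sd_ml (M : Matrix (B × B) (B × B) ℤ) (x y : B × B) :
    (Sd_m c * M) x y = (-1) ^ (c x.1 * c x.2) * M x.swap y := by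
  simp [Sd_m, mul_apply]

theorem Sd_mT : (Sd_m c)ᵀ = Sd_m c := by
  ext ⟨a, b⟩ ⟨a', b'⟩
  simp only [Sd_m, transpose_apply, of_apply, Prod.swap_prod_mk, Prod.mk.injEq]
  by_cases h : b = a' ∧ a = b'
  · obtain ⟨rfl, rfl⟩ := h
    simp [mul_comm]
  · rw [if_neg h, if_neg fun e => h ⟨e.2.symm, e.1.symm⟩]

theorem Sd_mr (M : Matrix (B × B) (B × B) ℤ) (x y : B × B) :
    (Mᵀ * Sd_m c) x y = (-1) ^ (c y.1 * c y.2) * M y.swap x := by
  rw [← Sd_ml, ← transpose_apply (Sd_m c * M), transpose_mul, Sd_mT]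

theorem Sd_dm (h : ∀ a b, d a b ≠ 0 → c a + 1 = c b) :
    (Sd_d c d)ᵀ * Sd_m c = Sd_m c * Sd_d c d := by
  ext ⟨a, b⟩ ⟨a', b'⟩
  rw [Sd_mr, Sd_ml]
  simp only [Sd_d, Sd_s, Prod.swap_prod_mk, Matrix.add_apply, kroneckerMap_apply, transpose_apply,
    one_apply, diagonal_apply, mul_add]
  rw [add_comm]
  congr 1
  · by_cases e : d a' b = 0
    · simp [e]
    · by_cases k : a = b'
      · subst k
        rw [if_pos rfl, if_pos rfl, ← h _ _ e]
        ring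
      · simp [k, Ne.symm k]
  · by_cases e : d a b' = 0
    · simp [e]
    · by_cases k : b = a'
      · subst k
        rw [if_pos rfl, if_pos rfl, ← h _ _ e]
        ring
      · simp [k, Ne.symm k]

theorem Sd_pm (h : ∀ a b, A a b ≠ 0 → c a = c b) (h' : ∀ a b, C a b ≠ 0 → c a = c b) :
    (Aᵀ ⊗ₖ C)ᵀ * Sd_m c = Sd_m c * (Cᵀ ⊗ₖ A) := by
  ext ⟨a, b⟩ ⟨a', b'⟩
  rw [Sd_mr, Sd_ml]
  simp only [Prod.swap_prod_mk, kroneckerMap_apply, transpose_apply]
  by_cases e : A a b' = 0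
  · simp [e]
  · by_cases k : C a' b = 0
    · simp [k]
    · rw [h _ _ e, h' _ _ k, mul_comm (c b), mul_comm (A a b')]

theorem Sd_uv (u v : B → ℤ) : vecMulVec (fun x : B × B => v x.1 * u x.2) (fun x => u x.1 * v x.2) =
    (vecMulVec u v)ᵀ ⊗ₖ vecMulVec u v := by
  ext ⟨a, b⟩ ⟨a', b'⟩
  simp only [vecMulVec_apply, kroneckerMap_apply, transpose_apply]
  ring

end

open Kronecker in
theorem exists_sd (S : Finset Q) : ∃ S' : Finset Q, ∀ (Ω : Type) [MulAction Q Ω] (B : Type)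
    [Fintype B] [DecidableEq B] (N : ℕ) (ε : ℝ) (p : B → Ω → ℝ), 0 ≤ ε → CD B S' N ε p →
      Nonempty (SD (B × B) S (2 * ε) fun b ω => max (p b.1 ω) (p b.2 ω)) := by
  classical
  refine ⟨S ∪ S.image (·⁻¹) ∪ (S ×ˢ S).image fun x => (x.1 * x.2)⁻¹,
    fun Ω _ B _ _ N ε p h0 C => ?_⟩
  have s1 := fun g (hg : g ∈ S) => Finset.mem_union_left
    ((S ×ˢ S).image fun x => (x.1 * x.2)⁻¹) (Finset.mem_union_left (S.image (·⁻¹)) hg)
  have s2 := fun g (hg : g ∈ S) => Finset.mem_union_left ((S ×ˢ S).image fun x => (x.1 * x.2)⁻¹)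
    (Finset.mem_union_right S (Finset.mem_image_of_mem (·⁻¹) hg))
  have s3 := fun g (hg : g ∈ S) h (hh : h ∈ S) => Finset.mem_union_right (S ∪ S.image (·⁻¹))
    (Finset.mem_image_of_mem (fun x : Q × Q => (x.1 * x.2)⁻¹) (Finset.mk_mem_product hg hh))
  have o1 := Sd_odd (c := C.dg) fun a b e => Or.inr (C.d_dg a b e)
  have o2 := fun g => Sd_even (C.Φ_dg g)
  have z1 : vecMulVec C.u C.v * C.d = 0 := by rw [vecMulVec_mul, C.vd, vecMulVec_zero]
  have z2 : C.d * vecMulVec C.u C.v = 0 := by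
    ext a b
    refine Finset.sum_eq_zero fun x _ => mul_eq_zero.2 (by_contra fun e => ?_)
    have h1 := C.d_dg _ _ (not_or.1 e).1
    have h2 := C.u_dg x (left_ne_zero_of_mul (not_or.1 e).2)
    omega
  have o3 : Sd_s C.dg * (vecMulVec C.u C.v)ᵀ = (vecMulVec C.u C.v)ᵀ * Sd_s C.dg :=
    Sd_even fun a b e =>
      (C.u_dg a (left_ne_zero_of_mul e)).trans (C.v_dg b (right_ne_zero_of_mul e)).symm
  have vu : (fun x : B × B => C.u x.1 * C.v x.2) ⬝ᵥ (fun x => C.v x.1 * C.u x.2) = 1 := by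
    have := C.vu
    simp only [dotProduct] at this ⊢
    rw [← mul_one (1 : ℤ), Fintype.sum_prod_type]
    nth_rw 1 [← this]
    rw [← this, Finset.sum_mul_sum]
    exact Finset.sum_congr rfl fun a _ => Finset.sum_congr rfl fun b _ => by ring
  have sd : ∀ {A : Matrix B B ℤ} {a b}, (Sd_s C.dg * Aᵀ) a b ≠ 0 → A b a ≠ 0 := fun e => by
    rw [Sd_s, diagonal_mul] at e
    exact right_ne_zero_of_mul e
  exact ⟨{
    d := Sd_d C.dg C.d
    μ := Sd_m C.dg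
    Φ := fun g => (C.Φ g⁻¹)ᵀ ⊗ₖ C.Φ g
    H := fun g h => (C.H h⁻¹ g⁻¹)ᵀ ⊗ₖ (C.Φ g * C.Φ h) + (Sd_s C.dg * (C.Φ (g * h)⁻¹)ᵀ) ⊗ₖ C.H g h
    J := fun g => (C.J g⁻¹)ᵀ ⊗ₖ C.Φ g + (Sd_s C.dg * (vecMulVec C.u C.v)ᵀ) ⊗ₖ C.J g
    u := fun x => C.v x.1 * C.u x.2
    v := fun x => C.u x.1 * C.v x.2
    dd := by
      simp only [Sd_d, mul_add, add_mul, ← mul_kronecker_mul, one_mul, mul_one, ← transpose_mul,
        C.dd, o1, Sd_nl, transpose_zero, zero_kronecker, kronecker_zero]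
      abel
    dΦ := fun g hg => Sd_map (o2 _) (C.dΦ _ (s2 g hg)) (C.dΦ _ (s1 g hg))
    dH := fun g hg h hh => by
      rw [mul_add, add_mul, add_add_add_comm, Sd_left
        (Sd_odd fun a b e => Or.inl (C.H_dg _ _ a b e)) (by
          rw [← mul_assoc, C.dΦ _ (s1 g hg), mul_assoc, C.dΦ _ (s1 h hh), mul_assoc]),
        Sd_right o1 (o2 _) (C.dΦ _ (s3 g hg h hh)), C.dH _ (s2 h hh) _ (s2 g hg),
        C.dH _ (s1 g hg) _ (s1 h hh), ← mul_kronecker_mul, transpose_sub, transpose_mul, Sd_sl,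
        Sd_sr, _root_.mul_inv_rev]
      abel
    dJ := fun g hg => by
      rw [mul_add, add_mul, add_add_add_comm, Sd_left
        (Sd_odd fun a b e => Or.inl (C.J_dg _ a b e)) (C.dΦ _ (s1 g hg)),
        Sd_right o1 o3 (z2.trans z1.symm), C.dJ _ (s2 g hg), C.dJ _ (s1 g hg), Sd_uv,
        transpose_sub, Sd_sl, Sd_sr]
      abel
    vu := vu
    vd := by
      have e : vecMulVec (fun x : B × B => C.v x.1 * C.u x.2) (fun x => C.u x.1 * C.v x.2) *
          Sd_d C.dg C.d = 0 := by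
        rw [Sd_uv, Sd_d, mul_add, ← mul_kronecker_mul, ← mul_kronecker_mul, ← transpose_mul, z1, z2,
          transpose_zero, zero_kronecker, kronecker_zero, add_zero]
      have := congrArg ((fun x : B × B => C.u x.1 * C.v x.2) ᵥ* ·) e
      simp only [← vecMul_vecMul, vecMul_vecMulVec, vu, one_smul, vecMul_zero] at this
      exact this
    μT := Sd_mT
    μμ := by
      ext x y
      rw [Sd_ml, Sd_m, of_apply, Prod.swap_swap, one_apply, Prod.fst_swap, Prod.snd_swap,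
        mul_comm (C.dg x.2)]
      split_ifs
      · rw [← mul_pow]
        simp
      · simp
    μu := by
      funext x
      have : (Sd_m C.dg *ᵥ fun x => C.v x.1 * C.u x.2) x =
          (-1) ^ (C.dg x.1 * C.dg x.2) * (C.v x.2 * C.u x.1) := by
        simp [Sd_m, mulVec, dotProduct]
      rw [this]
      by_cases e : C.u x.1 = 0
      · simp [e]
      · rw [C.u_dg _ e]
        ring
    dμ := Sd_dm C.d_dg
    Φμ := fun g => by
      rw [inv_inv]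
      exact Sd_pm (C.Φ_dg _) (C.Φ_dg _)
    d_cl := fun x y e => by
      by_cases k : C.d y.1 x.1 * (1 : Matrix B B ℤ) x.2 y.2 = 0
      · have e' : Sd_s C.dg x.1 y.1 * C.d x.2 y.2 ≠ 0 := fun z => e (by
          rw [Sd_d, Matrix.add_apply, kroneckerMap_apply, kroneckerMap_apply, transpose_apply, k, z,
            add_zero])
        have : x.1 = y.1 := by_contra fun z => left_ne_zero_of_mul e' (diagonal_apply_ne _ z)
        exact Sd_two h0 (Sd_max (this ▸ Sd_rfl h0 _) (C.d_cl _ _ (right_ne_zero_of_mul e')))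
      · have : x.2 = y.2 := by_contra fun z => right_ne_zero_of_mul k (one_apply_ne z)
        exact Sd_two h0 (Sd_max (Sd_symm (by
          rw [inv_one]
          exact C.d_cl _ _ (left_ne_zero_of_mul k)))
          (this ▸ Sd_rfl h0 _))
    μ_cl := fun x y e ω => by
      obtain rfl : x.swap = y := by_contra fun z => e (if_neg z)
      simp only [one_smul, Prod.fst_swap, Prod.snd_swap]
      rw [max_comm, sub_self, abs_zero]
      linarith
    Φ_cl := fun g hg x y e => Sd_two h0 (Sd_max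
      (Sd_symm (C.Φ_cl _ (s2 g hg) _ _ (left_ne_zero_of_mul e)))
      (C.Φ_cl _ (s1 g hg) _ _ (right_ne_zero_of_mul e)))
    H_cl := fun g hg h hh x y e => by
      by_cases k : C.H h⁻¹ g⁻¹ y.1 x.1 * (C.Φ g * C.Φ h) x.2 y.2 = 0
      · have e' : (Sd_s C.dg * (C.Φ (g * h)⁻¹)ᵀ) x.1 y.1 * C.H g h x.2 y.2 ≠ 0 := fun z => e (by
          rw [Matrix.add_apply, kroneckerMap_apply, kroneckerMap_apply, transpose_apply, k, z, add_zero])
        exact Sd_two h0 (Sd_max (Sd_symm (C.Φ_cl _ (s3 g hg h hh) _ _ (sd (left_ne_zero_of_mul e'))))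
          (C.H_cl _ (s1 g hg) _ (s1 h hh) _ _ (right_ne_zero_of_mul e')))
      · obtain ⟨b, -, hb⟩ := Finset.exists_ne_zero_of_sum_ne_zero (right_ne_zero_of_mul k)
        refine Sd_max (Sd_two h0 (Sd_symm ?_)) (two_mul ε ▸ Sd_mul
          (C.Φ_cl _ (s1 g hg) _ _ (left_ne_zero_of_mul hb))
          (C.Φ_cl _ (s1 h hh) _ _ (right_ne_zero_of_mul hb)))
        rw [_root_.mul_inv_rev]
        exact C.H_cl _ (s2 h hh) _ (s2 g hg) _ _ (left_ne_zero_of_mul k) }⟩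

theorem pos_max {Good : Subgroup Q → Prop} (hG : FIc Good) {N : ℕ} {μ ν : Ω → ℝ} (h : Pos Good N μ)
    (h' : Pos Good N ν) : Pos Good (2 * N + 1) fun ω => max (μ ω) (ν ω) := by
  obtain ⟨a1, ⟨ω₀, a2⟩, a3, a4⟩ := h
  obtain ⟨b1, -, b3, b4⟩ := h'
  have s : (Function.support fun ω => max (μ ω) (ν ω)) ⊆
      Function.support μ ∪ Function.support ν := fun ω e => by_contra fun z => e (by
    simp only [Set.mem_union, Function.mem_support, not_or, not_not] at z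
    simp [z.1, z.2])
  have c : (Function.support fun ω => max (μ ω) (ν ω)).encard ≤ (2 * N + 1 + 1 : ℕ) := by
    refine ((Set.encard_le_encard s).trans (Set.encard_union_le _ _)).trans
      ((add_le_add a3 b3).trans_eq ?_)
    rw [← Nat.cast_add]
    exact congrArg _ (by ring)
  refine ⟨fun ω => ⟨(a1 ω).1.trans (le_max_left _ _), max_le (a1 ω).2 (b1 ω).2⟩, ⟨ω₀, ?_⟩, c,
    fun σ H ⟨ω, hω⟩ h1 h2 => hG H (MulAction.stabilizer Q ω ⊓ H) inf_le_right ?_ ?_⟩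
  · refine a2.trans (mul_le_mul ?_ (le_max_left _ _) (a1 _).1 (by positivity))
    push_cast
    linarith [Nat.cast_nonneg (α := ℝ) N]
  · rw [Subgroup.inf_relIndex_right]
    change (MulAction.stabilizer H ω).index ≠ 0
    rw [MulAction.index_stabilizer]
    refine Set.ncard_ne_zero_of_mem (MulAction.mem_orbit_self ω)
      (((Set.finite_of_encard_le_coe c).subset h1).subset ?_)
    rintro _ ⟨g, rfl⟩
    exact h2 _ g.2 _ hω
  · have k : ∀ g ∈ MulAction.stabilizer Q ω ⊓ H, ∀ x ∈ ({ω} : Set Ω), g • x ∈ ({ω} : Set Ω) := by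
      rintro g hg _ rfl
      exact hg.1
    exact (s (h1 hω)).elim
      (fun e => a4 {ω} _ (Set.singleton_nonempty ω) (Set.singleton_subset_iff.2 e) k)
      fun e => b4 {ω} _ (Set.singleton_nonempty ω) (Set.singleton_subset_iff.2 e) k

section

open Function

variable {Ω' : Type} [MulAction Q Ω'] {i : Ω → Ω'}

theorem Sd_cl (hi : Injective i) (e : ∀ (g : Q) ω, i (g • ω) = g • i ω) {η : ℝ} (h0 : 0 ≤ η)
    {g : Q} {μ ν : Ω → ℝ} (h : Cl η g μ ν) : Cl η g (extend i μ 0) (extend i ν 0) := by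
  intro ω
  by_cases k : ∃ a, i a = ω
  · obtain ⟨a, rfl⟩ := k
    rw [← e, hi.extend_apply, hi.extend_apply]
    exact h a
  · rw [extend_apply' _ _ _ k, extend_apply' _ _ _ fun ⟨a, ha⟩ =>
      k ⟨g⁻¹ • a, by rw [e, ha, inv_smul_smul]⟩]
    simpa using h0

theorem Sd_supp (hi : Injective i) (μ : Ω → ℝ) : support (extend i μ 0) = i '' support μ := by
  ext ω
  by_cases k : ∃ a, i a = ω
  · obtain ⟨a, rfl⟩ := k
    rw [mem_support, hi.extend_apply, hi.mem_set_image, mem_support]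
  · rw [mem_support, extend_apply' _ _ _ k]
    exact ⟨fun h => (h rfl).elim, fun ⟨a, _, ha⟩ => (k ⟨a, ha⟩).elim⟩

theorem Sd_pos (hi : Injective i) (e : ∀ (g : Q) ω, i (g • ω) = g • i ω)
    {Good : Subgroup Q → Prop} {N : ℕ} {μ : Ω → ℝ} (h : Pos Good N μ) :
    Pos Good N (extend i μ 0) := by
  obtain ⟨h1, ⟨a, h2⟩, h3, h4⟩ := h
  refine ⟨fun ω => ?_, ⟨i a, by rwa [hi.extend_apply]⟩, ?_, fun σ H ⟨ω, hω⟩ k1 k2 => ?_⟩
  · by_cases k : ∃ a, i a = ω
    · obtain ⟨a, rfl⟩ := k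
      rw [hi.extend_apply]
      exact h1 a
    · rw [extend_apply' _ _ _ k]
      exact ⟨le_rfl, zero_le_one⟩
  · rwa [Sd_supp hi, hi.encard_image]
  · rw [Sd_supp hi] at k1
    obtain ⟨a, -, rfl⟩ := k1 hω
    exact h4 (i ⁻¹' σ) H ⟨a, hω⟩ (fun a ha => hi.mem_set_image.1 (k1 ha)) fun g hg a ha => by
      rw [Set.mem_preimage, e]
      exact k2 g hg _ ha

end

theorem exists_seq {Good : Subgroup Q → Prop} (h : CDat Q Good) (S : Finset Q) :
    ∃ (N : ℕ) (Ω : Type) (_ : MulAction Q Ω) (B : ℕ → Type) (_ : ∀ m, Fintype (B m))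
      (_ : ∀ m, DecidableEq (B m)) (p : ∀ m, B m → Ω → ℝ),
      (∀ m : ℕ, Nonempty (CD (B m) S N (1 / ((m : ℝ) + 1)) (p m))) ∧ ∀ m b, Pos Good N (p m b) := by
  obtain ⟨N, hN⟩ := h
  have pos : ∀ m : ℕ, (0 : ℝ) < 1 / (m + 1) := fun m => Nat.one_div_pos_of_nat
  choose Ω act B fB dB p hC hp using fun m : ℕ => hN S _ (pos m)
  have hi : ∀ m, Function.Injective (Sigma.mk m : Ω m → Σ m, Ω m) := fun m => sigma_mk_injective
  refine ⟨N, Σ m, Ω m, inferInstance, B, fB, dB,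
    fun m b => Function.extend (Sigma.mk m) (p m b) 0, fun m => (hC m).map fun C => ?_,
    fun m b => Sd_pos (hi m) (fun _ _ => rfl) (hp m b)⟩
  exact { C with
    d_cl := fun a b e => Sd_cl (hi m) (fun _ _ => rfl) (pos m).le (C.d_cl a b e)
    Φ_cl := fun g hg a b e => Sd_cl (hi m) (fun _ _ => rfl) (pos m).le (C.Φ_cl g hg a b e)
    H_cl := fun g hg h hh a b e =>
      Sd_cl (hi m) (fun _ _ => rfl) (pos m).le (C.H_cl g hg h hh a b e) }

end Pool.Agent.Work.MP_9d1ffa_al.Ct.LL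
end
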