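import Pool.Agent.Work.MP_9d1ffa_al.LL.Lw
import Pool.Agent.Work.MP_9d1ffa_al.LL.M1
import Pool.Agent.Work.MP_9d1ffa_al.LL.Lc
import Pool.Agent.Work.MP_9d1ffa_al.LL.Gt
import Pool.Agent.Work.MP_9d1ffa_al.LL.FinB
import Pool.Agent.Work.MP_9d1ffa_al.LL.Sd
import Pool.Agent.Work.MP_9d1ffa_al.WL.En
import Pool.Agent.Work.MP_9d1ffa_al.Ct.GTop
import Pool.Agent.Work.MP_9d1ffa_al.WL.BI

-- merged part: Pool.Agent.Work.MP_9d1ffa_al.LL.Ta
section
/-! The algebra of the transfer of quadratic forms to chain complexes. -/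

set_option linter.unusedSectionVars false
set_option linter.unusedVariables false

namespace Pool.Agent.Work.MP_9d1ffa_al.Ct.LL

variable {O : Type 1} [Add O] [Zero O] {𝒞 : SCat O} {ε : ℤˣ} {a D P : O}

/-- a form whose symmetrisation is the differential of a contractible complex -/
theorem Ta_rf {Θ δ κ κ' G : 𝒞.Hom P P} (h1 : sy ε Θ = κ * δ) (h2 : κ' * κ = 1) (dd : δ * δ = 0)
    (hc : δ * G + G * δ = 1) (h0 : δ.ct * Θ * δ = 0) : RF ε Θ := by
  have a1 : δ * (G * δ) = δ := by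
    have := congrArg (δ * ·) hc
    simpa only [Hm.mul_add, Fa_r dd, Hm.zero_mul, zero_add, Hm.mul_one] using this
  have a2 : sy ε Θ * ((ε : ℤ) • (G * κ').ct) = (G * δ).ct := by
    rw [Hm.mul_smul, ← Hm.smul_mul, ← sy_ct, ← conjTranspose_mul, h1, Hm.mul_assoc, Fa_r h2,
      Hm.one_mul]
  have a3 : 1 - (G * δ).ct = G.ct * δ.ct := by
    rw [sub_eq_iff_eq_add, ← conjTranspose_mul, ← conjTranspose_add, hc, conjTranspose_one]
  refine ⟨(ε : ℤ) • (G * κ').ct, ?_, Eqv.of_eq ?_⟩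
  · rw [a2]
    apply ct_inj
    rw [conjTranspose_mul, conjTranspose_conjTranspose, sy_ct, Hm.smul_mul, h1, Hm.mul_assoc, a1]
  · rw [a2, a3, conjTranspose_mul, conjTranspose_conjTranspose, conjTranspose_conjTranspose,
      Hm.mul_assoc G.ct, ← Hm.mul_assoc _ δ, Hm.mul_assoc G.ct, h0, Hm.mul_zero, Hm.zero_mul]

theorem Ta_fix {δ g t t' : 𝒞.Hom P P} (dd : δ * δ = 0) (h : δ * g + g * δ = t) (h1 : t * t' = 1)
    (h2 : t' * t = 1) : δ * (g * t') + g * t' * δ = 1 := by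
  have c : δ * t = t * δ := by
    rw [← h]
    simp only [Hm.mul_add, Hm.add_mul, Hm.mul_assoc, Fa_r dd, dd, Hm.zero_mul, Hm.mul_zero,
      zero_add, add_zero]
  have c' : t' * δ = δ * t' := by
    rw [← Hm.mul_one (t' * δ), ← h1, Hm.mul_assoc, Fa_r c, Hm.mul_assoc, Fa_r h2, Hm.one_mul]
  rw [Hm.mul_assoc, c', ← Hm.mul_assoc, ← Hm.mul_assoc, ← Hm.add_mul, h, h1]

variable {d ψ : 𝒞.Hom D D}

theorem Ta_sy (hψ : ψ * d = d.ct * ψ) : sy ε ψ * d = d.ct * sy ε ψ := by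
  have := congrArg (·.ct) hψ
  simp only [conjTranspose_mul, conjTranspose_conjTranspose] at this
  rw [sy, Hm.add_mul, Hm.mul_add, Hm.smul_mul, Hm.mul_smul, hψ, this]

/-- a chain level form whose symmetrisation is a homotopy equivalence -/
theorem rf_chain {ν h k : 𝒞.Hom D D} (dd : d * d = 0) (hψ : ψ * d = d.ct * ψ)
    (hν : d * ν = ν * d.ct) (h1 : ν * sy ε ψ = 1 + d * h + h * d)
    (h2 : sy ε ψ * ν = 1 + d.ct * k + k * d.ct) : RF ε (fromBlocks ψ d.ct 0 0) := by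
  have dd' : d.ct * d.ct = 0 := by rw [Fa_ct dd, conjTranspose_zero]
  have e := Ta_sy (ε := ε) hψ
  have q : fromBlocks (-d) 0 (sy ε ψ) d.ct * fromBlocks (-d) 0 (sy ε ψ) d.ct = 0 := by
    simp [fromBlocks_multiply, dd, dd', e]
  refine Ta_rf (δ := fromBlocks (-d) 0 (sy ε ψ) d.ct) (κ := fromBlocks 0 1 (-((ε : ℤ) • 1)) 0)
    (κ' := fromBlocks 0 (-((ε : ℤ) • 1)) 1 0) ?_ ?_ q
    (Ta_fix (g := fromBlocks h ν 0 (-k)) (t := fromBlocks 1 0 (sy ε ψ * h - k * sy ε ψ) 1)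
      (t' := fromBlocks 1 0 (-(sy ε ψ * h - k * sy ε ψ)) 1) q ?_ ?_ ?_) ?_
  · simp [sy_blocks, fromBlocks_multiply, sy_zero]
  · simp only [fromBlocks_multiply, Hm.mul_zero, Hm.zero_mul, Hm.mul_neg, Hm.neg_mul, Hm.mul_one,
      Hm.smul_mul, Hm.one_mul, smul_neg, eps_eps, neg_neg, neg_zero, add_zero, zero_add,
      fromBlocks_one]
  · simp only [fromBlocks_multiply, fromBlocks_add, h1, h2, hν, Hm.mul_zero, Hm.zero_mul,
      Hm.mul_neg, Hm.neg_mul, add_zero, zero_add]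
    congr 1 <;> abel
  · simp [fromBlocks_multiply]
  · simp [fromBlocks_multiply]
  · simp [fromBlocks_multiply, fromBlocks_conjTranspose, dd', Hm.mul_assoc, hψ, Fa_r dd']

/-- a chain homotopy of the form is absorbed by a shear -/
theorem Ta_shear (ψ d j : 𝒞.Hom D D) :
    Iso ε (fromBlocks (ψ + d.ct * j + j * d) d.ct 0 (0 : 𝒞.Hom D D)) (fromBlocks ψ d.ct 0 0) := by
  refine Iso.symm ⟨fromBlocks 1 (sy ε j).ct 0 1, fromBlocks 1 (-(sy ε j).ct) 0 1, ?_, ?_, ?_⟩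
  · simp [fromBlocks_multiply]
  · simp [fromBlocks_multiply]
  · simp only [fromBlocks_multiply, fromBlocks_conjTranspose, conjTranspose_one,
      conjTranspose_zero, conjTranspose_conjTranspose, Hm.mul_zero, Hm.zero_mul, Hm.mul_one,
      Hm.one_mul, add_zero, zero_add]
    refine eqv_blocks ?_ (Eqv.refl _) rfl
    rw [sy, Hm.mul_add, ← add_assoc, Hm.mul_smul]
    refine (Eqv.refl _).add ?_
    simpa only [conjTranspose_mul] using eqv_swap (ε := ε) (j * d)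

/-- if the symmetrisation is an isomorphism, the chain level form is the form itself -/
theorem Ta_strict (dd : d * d = 0) (hψ : ψ * d = d.ct * ψ) (h : NS ε ψ)
    (k : SL ε (fromBlocks ψ d.ct 0 (0 : 𝒞.Hom D D))) : SL ε ψ := by
  obtain ⟨μ, h1, h2⟩ := h.inv
  have dd' : d.ct * d.ct = 0 := by rw [Fa_ct dd, conjTranspose_zero]
  have e := Ta_sy (ε := ε) hψ
  refine k.push (U := fromCols 1 0) (W := fromRows 1 (d * μ).ct) ?_ ?_
  · simp [fromCols_mul_fromRows]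
  · rw [conjTranspose_fromRows_eq_fromCols_conjTranspose, fromRows_mul, fromRows_mul_fromCols]
    simp only [conjTranspose_one, conjTranspose_conjTranspose, Hm.mul_one, Hm.one_mul]
    refine eqv_blocks (Eqv.refl _) (Eqv.of_eq ?_) ?_
    · simp only [conjTranspose_mul, Hm.mul_assoc, Fa_r hψ, Fa_r dd', Hm.zero_mul, Hm.mul_zero]
    · rw [conjTranspose_mul (d * μ).ct, conjTranspose_conjTranspose, ← Hm.smul_mul, ← Hm.add_mul,
        ← sy, Fa_r e, Hm.mul_assoc, h1, Hm.mul_one, conjTranspose_zero, smul_zero, add_zero]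

/-- the form `ψ` on a retract of rank one, and a hyperbolic form on the complement -/
theorem Ta_sub {ψ ψ₀ : 𝒞.Hom a a} {u w : 𝒞.Hom a D} {μ H : 𝒞.Hom D D} (hψ : NS ε ψ)
    (m1 : μ.ct = μ) (m2 : μ * μ = 1) (m3 : u * μ = w) (m4 : u * w.ct = 1) (n1 : H * H = 0)
    (n2 : H * H.ct + H.ct * H = 1) (n3 : μ * H = H * μ) (n4 : u * H = ψ₀ * u)
    (n5 : H * u.ct = u.ct * ψ₀) :
    NS ε (w.ct * (ψ - ψ₀) * w + μ * H) ∧ u * (w.ct * (ψ - ψ₀) * w + μ * H) * u.ct = ψ ∧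
      SubD ε (w.ct * (ψ - ψ₀) * w + μ * H) (H * H.ct * (1 - w.ct * u)) u := by
  obtain ⟨ν, h1, h2⟩ := hψ.inv
  have c1 : w * μ = u := by rw [← m3, Hm.mul_assoc, m2, Hm.mul_one]
  have c2 : μ * u.ct = w.ct := by rw [← m3, conjTranspose_mul, m1]
  have c3 : μ * w.ct = u.ct := by rw [← c1, conjTranspose_mul, m1]
  have c4 : w * u.ct = 1 := by
    rw [← conjTranspose_conjTranspose w, ← conjTranspose_mul, m4, conjTranspose_one]
  have c5 : H * μ = μ * H := n3.symm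
  have c6 : H.ct * μ = μ * H.ct := by rw [← m1, ← conjTranspose_mul, n3, conjTranspose_mul, m1]
  have c7 : H.ct * u.ct = u.ct * ψ₀.ct := by rw [← conjTranspose_mul, n4, conjTranspose_mul]
  have c8 : u * H.ct = ψ₀.ct * u := by
    rw [← conjTranspose_conjTranspose u, ← conjTranspose_mul, n5, conjTranspose_mul]
  have c9 : H * w.ct = w.ct * ψ₀ := by rw [← c2, Fa_r c5, Hm.mul_assoc, n5, Hm.mul_assoc]
  have c10 : H.ct * w.ct = w.ct * ψ₀.ct := by rw [← c2, Fa_r c6, Hm.mul_assoc, c7, Hm.mul_assoc]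
  have c11 : w * H = ψ₀ * w := by rw [← m3, Hm.mul_assoc, n3, Fa_r n4, Hm.mul_assoc]
  have c12 : w * H.ct = ψ₀.ct * w := by rw [← m3, Hm.mul_assoc, ← c6, Fa_r c8, Hm.mul_assoc]
  have c13 : H.ct * H.ct = 0 := by rw [Fa_ct n1, conjTranspose_zero]
  have c14 : H.ct * H = 1 - H * H.ct := eq_sub_of_add_eq' n2
  have p1 : ψ₀ * ψ₀ = 0 := by
    have := congrArg (u * · * w.ct) n1
    simpa only [Hm.mul_assoc, c9, Fa_r c9, Fa_r m4, Hm.one_mul, Hm.mul_zero, Hm.zero_mul]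
      using this
  have p2 : ψ₀.ct * ψ₀.ct = 0 := by rw [Fa_ct p1, conjTranspose_zero]
  have p3 : ψ₀.ct * ψ₀ = 1 - ψ₀ * ψ₀.ct := by
    have := congrArg (u * · * w.ct) c14
    simpa only [Hm.mul_assoc, c9, c10, Fa_r c9, Fa_r c10, Fa_r m4, m4, Hm.one_mul, Hm.mul_one,
      Hm.mul_sub, Hm.sub_mul] using this
  have q1 : H * (H.ct * (H * μ)) = H * μ := by
    rw [Fa_r c14, Hm.sub_mul, Hm.mul_sub, Hm.one_mul, Hm.mul_assoc, Fa_r n1, Hm.zero_mul, sub_zero]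
  have q2 : μ * (H.ct * (H * μ)) = 1 - H * H.ct := by
    rw [Fa_r c14, Hm.sub_mul, Hm.mul_sub, Hm.one_mul, m2, Hm.mul_assoc, c6, Fa_r c5, Hm.mul_assoc,
      Fa_r m2, Hm.one_mul]
  have q3 : w * (H * μ) = ψ₀ * u := by rw [Fa_r c11, Hm.mul_assoc, c1]
  have s : sy ε (w.ct * (ψ - ψ₀) * w + μ * H) =
      w.ct * (sy ε ψ - ψ₀ - (ε : ℤ) • ψ₀.ct) * w + μ * (H + (ε : ℤ) • H.ct) := by
    simp only [sy, conjTranspose_add, conjTranspose_mul, conjTranspose_sub,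
      conjTranspose_conjTranspose, m1, c6, Hm.mul_add, Hm.add_mul, Hm.mul_sub, Hm.sub_mul,
      Hm.mul_smul, Hm.smul_mul, Hm.mul_assoc, smul_add, smul_sub]
    abel
  refine ⟨ns_of_left (C := u.ct * ν * u + (H.ct + (ε : ℤ) • H) * (μ - u.ct * u)) ?_, ?_,
    Eqv.of_eq ?_, ?_, (ε : ℤ) • (H * μ), w.ct, 1, ?_⟩
  · rw [s]
    simp only [Hm.mul_add, Hm.add_mul, Hm.mul_sub, Hm.sub_mul, Hm.mul_smul, Hm.smul_mul,
      Hm.mul_assoc, Fa_r m4, Fa_r m3, Fa_r m2, Fa_r c3, Fa_r h2, Hm.one_mul, c11, c12, Fa_r c7,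
      Fa_r n5, Fa_r p1, Fa_r p2, Fa_r p3, n1, c13, c14, Hm.zero_mul, Hm.mul_zero, smul_add,
      smul_sub, eps_eps, smul_zero]
    abel
  · simp only [Hm.mul_add, Hm.add_mul, Hm.mul_sub, Hm.sub_mul, Hm.mul_assoc, Fa_r m4, Fa_r m3, c4,
      n5, Fa_r c4, Hm.one_mul, Hm.mul_one]
    abel
  · simp only [conjTranspose_mul, conjTranspose_sub, conjTranspose_one,
      conjTranspose_conjTranspose, Hm.mul_add, Hm.add_mul, Hm.mul_sub, Hm.sub_mul, Hm.mul_assoc,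
      Fa_r m4, Fa_r m3, Fa_r c4, Fa_r c2, Hm.one_mul, Fa_r c11, c12, Fa_r n5, Fa_r n1, Fa_r p1,
      Hm.zero_mul, Hm.mul_zero]
    abel
  · rw [s]
    simp only [conjTranspose_mul, conjTranspose_sub, conjTranspose_one,
      conjTranspose_conjTranspose, Hm.mul_add, Hm.add_mul, Hm.mul_sub, Hm.sub_mul, Hm.mul_assoc,
      Hm.mul_smul, Hm.smul_mul, Fa_r m4, Fa_r m3, Fa_r c4, Hm.one_mul, Fa_r c11, Fa_r c12, c12,
      smul_sub]
    abel
  · rw [s]
    simp only [conjTranspose_mul, conjTranspose_sub, conjTranspose_one,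
      conjTranspose_conjTranspose, Hm.mul_add, Hm.add_mul, Hm.mul_sub, Hm.sub_mul, Hm.mul_assoc,
      Hm.mul_smul, Hm.smul_mul, Fa_r c4, Hm.one_mul, Hm.mul_one, smul_sub, smul_add, eps_eps,
      q1, q2, q3, Fa_r n1, Fa_r n5, Fa_r c7, Fa_r p1, Fa_r p3, Fa_r c2, Fa_r c10, Fa_r c9,
      Hm.zero_mul, Hm.mul_zero, smul_zero]
    abel

/-- the end of the transfer argument -/
theorem z_of_tr (hS : SFI 𝒞) {ψ ψ₀ : 𝒞.Hom a a} {u w : 𝒞.Hom a D} {μ H d j : 𝒞.Hom D D}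
    (hψ : NS ε ψ) (m1 : μ.ct = μ) (m2 : μ * μ = 1) (m3 : u * μ = w) (m4 : u * w.ct = 1)
    (n1 : H * H = 0) (n2 : H * H.ct + H.ct * H = 1) (n3 : μ * H = H * μ) (n4 : u * H = ψ₀ * u)
    (n5 : H * u.ct = u.ct * ψ₀) (dd : d * d = 0) (d1 : w * d = 0) (d2 : d.ct * μ = μ * d)
    (d3 : d * H = H * d)
    (h : SL ε (fromBlocks (w.ct * (ψ - ψ₀) * w + μ * H + d.ct * j + j * d) d.ct 0
      (0 : 𝒞.Hom D D))) : Z ε ψ := by
  obtain ⟨k1, k2, k3⟩ := Ta_sub hψ m1 m2 m3 m4 n1 n2 n3 n4 n5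
  have d1' : d.ct * w.ct = 0 := by rw [Fa_ct d1, conjTranspose_zero]
  have := k3.z hS (z_of_sl hS k1 (Ta_strict dd ?_ k1 (h.iso (Ta_shear _ d j)))) (k2.symm ▸ hψ)
  · rwa [k2] at this
  · simp only [Hm.mul_add, Hm.add_mul, Hm.mul_assoc, d1, Fa_r d1', Fa_r d2, d3, Hm.mul_zero,
      Hm.zero_mul]

end Pool.Agent.Work.MP_9d1ffa_al.Ct.LL
end

-- merged part: Pool.Agent.Work.MP_9d1ffa_al.LL.MK
section
/-! The Mayer-Vietoris argument for idempotents. -/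

set_option linter.unusedSectionVars false
set_option linter.unusedVariables false

namespace Pool.Agent.Work.MP_9d1ffa_al.Ct.LL

variable {O : Type 1} [Add O] [Zero O] {𝒞 𝒟 : SCat O} {I J A B C₁ C₂ c c' b b' : O}

/-- frames of an idempotent and of its complement -/
theorem mk_frames {E : 𝒞.Hom J J} (hE : E * E = E)
    (h : FreeOn b (fromBlocks E 0 0 (1 : 𝒞.Hom c c)))
    (h' : FreeOn b' (fromBlocks (1 - E) 0 0 (1 : 𝒞.Hom c' c'))) :
    ∃ (W : 𝒞.Hom J b) (W' : 𝒞.Hom J b') (V : 𝒞.Hom c b) (V' : 𝒞.Hom c' b'),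
      Iv (fromRows (fromCols W W') (fromBlocks V 0 0 V')) ∧ E * W = W ∧ E * W' = 0 := by
  obtain ⟨U, W, h1, h2⟩ := h
  obtain ⟨U', W', h1', h2'⟩ := h'
  rw [← fromCols_toCols U, ← fromRows_toRows W] at h1 h2
  rw [← fromCols_toCols U', ← fromRows_toRows W'] at h1' h2'
  rw [fromCols_mul_fromRows] at h1 h1'
  rw [fromRows_mul_fromCols, fromBlocks_inj] at h2 h2'
  obtain ⟨w1, w2, w3, w4⟩ := h2
  obtain ⟨w1', w2', w3', w4'⟩ := h2'
  have a1 : E * W.toRows₁ = W.toRows₁ := by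
    rw [← w1, Hm.mul_assoc, eq_sub_of_add_eq h1, Hm.mul_sub, Hm.mul_one,
      ← Hm.mul_assoc, w2, Hm.zero_mul, sub_zero]
  have a2 : (1 - E) * W'.toRows₁ = W'.toRows₁ := by
    rw [← w1', Hm.mul_assoc, eq_sub_of_add_eq h1', Hm.mul_sub, Hm.mul_one,
      ← Hm.mul_assoc, w2', Hm.zero_mul, sub_zero]
  have a3 : U.toCols₁ * E = U.toCols₁ := by
    rw [← w1, ← Hm.mul_assoc, eq_sub_of_add_eq h1, Hm.sub_mul, Hm.one_mul,
      Hm.mul_assoc, w3, Hm.mul_zero, sub_zero]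
  have a4 : U'.toCols₁ * (1 - E) = U'.toCols₁ := by
    rw [← w1', ← Hm.mul_assoc, eq_sub_of_add_eq h1', Hm.sub_mul, Hm.one_mul,
      Hm.mul_assoc, w3', Hm.mul_zero, sub_zero]
  have a5 : E * W'.toRows₁ = 0 := by
    rw [← a2, ← Hm.mul_assoc, Hm.mul_sub, Hm.mul_one, hE, sub_self, Hm.zero_mul]
  have a6 : U.toCols₁ * W'.toRows₁ = 0 := by rw [← a3, Hm.mul_assoc, a5, Hm.mul_zero]
  have a7 : U'.toCols₁ * W.toRows₁ = 0 := by
    rw [← a4, Hm.mul_assoc, Hm.sub_mul, Hm.one_mul, a1, sub_self, Hm.mul_zero]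
  refine ⟨W.toRows₁, W'.toRows₁, W.toRows₂, W'.toRows₂,
    ⟨fromCols (fromRows U.toCols₁ U'.toCols₁) (fromBlocks U.toCols₂ 0 0 U'.toCols₂), ?_, ?_⟩, a1,
    a5⟩
  · rw [fromRows_mul_fromCols, fromCols_mul_fromRows, fromCols_mul_fromBlocks,
      fromBlocks_mul_fromRows, fromBlocks_multiply]
    simp [w1, w2, w3, w4, w1', w2', w3', w4']
  · rw [fromCols_mul_fromRows, fromRows_mul_fromCols, fromBlocks_multiply, fromBlocks_add]
    simp [h1, h1', a6, a7]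

/-- transport along a unitary morphism -/
theorem mk_sf {w : 𝒞.Hom J I} (hw : Unt w) {E : 𝒞.Hom I I} (h : SFIdem (w * E * w.ct)) :
    SFIdem E := by
  obtain ⟨a, b, U, W, h1, h2⟩ := h
  have e : w.ct * (w * E * w.ct * w) = E := by
    rw [Hm.mul_assoc _ w.ct, hw.2, Hm.mul_one, ← Hm.mul_assoc, hw.2, Hm.one_mul]
  refine ⟨a, b, U * fromBlocks w 0 0 1, fromBlocks w.ct 0 0 1 * W, ?_, ?_⟩
  · rw [Hm.mul_assoc, ← Hm.mul_assoc _ _ W, fromBlocks_multiply]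
    simp [hw.1, h1]
  · rw [Hm.mul_assoc, ← Hm.mul_assoc W, h2, fromBlocks_multiply, fromBlocks_multiply]
    simp [e]

/-- the blocks of an invertible block diagonal matrix are invertible -/
theorem mk_iv {x : 𝒞.Hom A B} {y : 𝒞.Hom I J} (h : Iv (fromBlocks x 0 0 y)) : Iv x ∧ Iv y := by
  obtain ⟨g, h1, h2⟩ := h
  obtain ⟨a, b, c, d, rfl⟩ := exists_blocks g
  rw [fromBlocks_multiply, ← fromBlocks_one, fromBlocks_inj] at h1 h2
  exact ⟨⟨a, by simpa using h1.1, by simpa using h2.1⟩, d, by simpa using h1.2.2.2,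
    by simpa using h2.2.2.2⟩

/-- the embedding of the two middle objects -/
def kM (𝒞 : SCat O) (A C₁ C₂ B : O) : 𝒞.Hom (C₁ + C₂) ((A + C₁) + (C₂ + B)) :=
  fromBlocks (fromCols 0 1) 0 0 (fromCols 1 0)

/-- the embedding of the first object -/
def kA (𝒞 : SCat O) (A C₁ C₂ B : O) : 𝒞.Hom A ((A + C₁) + (C₂ + B)) := fromCols (fromCols 1 0) 0

/-- the embedding of the last object -/
def kB (𝒞 : SCat O) (A C₁ C₂ B : O) : 𝒞.Hom B ((A + C₁) + (C₂ + B)) := fromCols 0 (fromCols 0 1)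

theorem MK_op (z : ∀ x : 𝒞.Hom A B, x = 0) (x : 𝒞.Hom B A) : x = 0 :=
  ct_inj (by rw [z x.ct, conjTranspose_zero])

theorem MK_unt (𝒞 : SCat O) (A C₁ C₂ B : O) :
    Unt (fromRows (fromRows (kA 𝒞 A C₁ C₂ B) (kB 𝒞 A C₁ C₂ B)) (kM 𝒞 A C₁ C₂ B)) := by
  constructor <;> simp [kA, kB, kM, fromBlocks_conjTranspose, fromBlocks_multiply,
    conjTranspose_fromRows_eq_fromCols_conjTranspose,
    conjTranspose_fromCols_eq_fromRows_conjTranspose, fromCols_mul_fromRows, fromBlocks_add,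
    fromRows_fromCols_eq_fromBlocks, fromCols_fromRows_eq_fromBlocks]

theorem MK_four {I' J' K K' L L' : O} (a₁ : 𝒞.Hom I I') (a₂ : 𝒞.Hom J J') (b₁ : 𝒞.Hom I K')
    (b₂ : 𝒞.Hom J L') (d₁ : 𝒞.Hom K K') (d₂ : 𝒞.Hom L L') :
    sFour 𝒞 I J K L * fromBlocks (fromBlocks a₁ 0 0 a₂) (fromBlocks b₁ 0 0 b₂) 0
      (fromBlocks d₁ 0 0 d₂) * (sFour 𝒞 I' J' K' L').ct =
      fromBlocks (fromBlocks a₁ b₁ 0 d₁) 0 0 (fromBlocks a₂ b₂ 0 d₂) := by
  simp [sFour, fromBlocks_conjTranspose, fromBlocks_multiply, fromBlocks_add]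

/-- the idempotent on the two middle objects -/
theorem mk_mid {u u' : 𝒞.Hom ((A + C₁) + (C₂ + B)) ((A + C₁) + (C₂ + B))} (h1 : u * u' = 1)
    (h2 : u' * u = 1) (z1 : ∀ x : 𝒞.Hom A C₂, x = 0) (z2 : ∀ x : 𝒞.Hom A B, x = 0)
    (z3 : ∀ x : 𝒞.Hom C₁ B, x = 0) :
    ∃ p : 𝒞.Hom (C₁ + C₂) (C₁ + C₂), p * p = p ∧
      u' * fromBlocks 1 0 0 0 * u * (kM 𝒞 A C₁ C₂ B).ct = (kM 𝒞 A C₁ C₂ B).ct * p := by
  obtain ⟨v1, v2⟩ := MK_unt 𝒞 A C₁ C₂ B
  rw [conjTranspose_fromRows_eq_fromCols_conjTranspose,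
    conjTranspose_fromRows_eq_fromCols_conjTranspose] at v1 v2
  rw [fromRows_mul_fromCols, ← fromBlocks_one, fromBlocks_inj, fromRows_mul _ _ (kM 𝒞 A C₁ C₂ B).ct,
    ← fromRows_zero, fromRows_ext_iff] at v1
  rw [fromCols_mul_fromRows, fromCols_mul_fromRows] at v2
  have a1 : kA 𝒞 A C₁ C₂ B * u' * fromBlocks 1 0 0 0 = kA 𝒞 A C₁ C₂ B * u' := by
    obtain ⟨x, y, e⟩ := exists_cols (kA 𝒞 A C₁ C₂ B * u')
    obtain ⟨y1, y2, rfl⟩ := exists_cols y
    rw [e, z1 y1, z2 y2]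
    simp [fromCols_mul_fromBlocks]
  have a2 : kB 𝒞 A C₁ C₂ B * u' * fromBlocks 1 0 0 0 =
      (0 : 𝒞.Hom B ((A + C₁) + (C₂ + B))) := by
    obtain ⟨x, y, e⟩ := exists_cols (kB 𝒞 A C₁ C₂ B * u')
    obtain ⟨x1, x2, rfl⟩ := exists_cols x
    rw [e, MK_op z2 x1, MK_op z3 x2]
    simp [fromCols_mul_fromBlocks]
  have hπ : (fromBlocks 1 0 0 0 : 𝒞.Hom ((A + C₁) + (C₂ + B)) ((A + C₁) + (C₂ + B))) *
      fromBlocks 1 0 0 0 = fromBlocks 1 0 0 0 := by simp [fromBlocks_multiply]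
  generalize (fromBlocks 1 0 0 0 : 𝒞.Hom ((A + C₁) + (C₂ + B)) ((A + C₁) + (C₂ + B))) = π
    at a1 a2 hπ ⊢
  have b1 : kA 𝒞 A C₁ C₂ B * (u' * π * u * (kM 𝒞 A C₁ C₂ B).ct) = 0 := by
    rw [← Hm.mul_assoc, ← Hm.mul_assoc, ← Hm.mul_assoc, a1, Hm.mul_assoc _ u', h2, Hm.mul_one,
      v1.2.1.1]
  have b2 : kB 𝒞 A C₁ C₂ B * (u' * π * u * (kM 𝒞 A C₁ C₂ B).ct) = 0 := by
    rw [← Hm.mul_assoc, ← Hm.mul_assoc, ← Hm.mul_assoc, a2, Hm.zero_mul, Hm.zero_mul]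
  have b3 : u' * π * u * (kM 𝒞 A C₁ C₂ B).ct =
      (kM 𝒞 A C₁ C₂ B).ct * (kM 𝒞 A C₁ C₂ B * (u' * π * u * (kM 𝒞 A C₁ C₂ B).ct)) := by
    conv_lhs => rw [← Hm.one_mul (_ * (kM 𝒞 A C₁ C₂ B).ct), ← v2]
    rw [Hm.add_mul, Hm.add_mul, Hm.mul_assoc _ (kA 𝒞 A C₁ C₂ B), Hm.mul_assoc _ (kB 𝒞 A C₁ C₂ B),
      b1, b2, Hm.mul_zero, Hm.mul_zero, zero_add, zero_add, Hm.mul_assoc _ (kM 𝒞 A C₁ C₂ B)]
  refine ⟨_, ?_, b3⟩
  rw [Hm.mul_assoc, Hm.mul_assoc _ (kM 𝒞 A C₁ C₂ B).ct, ← b3, ← Hm.mul_assoc (u' * π * u),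
    ← Hm.mul_assoc (u' * π * u), ← Hm.mul_assoc (u' * π * u), Hm.mul_assoc _ u u', h1, Hm.mul_one,
    Hm.mul_assoc u' π π, hπ]

/-- the block diagonal form -/
theorem mk_diag {u u' : 𝒞.Hom ((A + C₁) + (C₂ + B)) ((A + C₁) + (C₂ + B))} (h1 : u * u' = 1)
    (z1 : ∀ x : 𝒞.Hom A C₂, x = 0) (z2 : ∀ x : 𝒞.Hom A B, x = 0)
    (z3 : ∀ x : 𝒞.Hom C₁ B, x = 0) {p : 𝒞.Hom (C₁ + C₂) (C₁ + C₂)}
    (hp : u' * fromBlocks 1 0 0 0 * u * (kM 𝒞 A C₁ C₂ B).ct = (kM 𝒞 A C₁ C₂ B).ct * p)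
    {W : 𝒞.Hom (C₁ + C₂) b} {W' : 𝒞.Hom (C₁ + C₂) b'} (V : 𝒞.Hom c b) (V' : 𝒞.Hom c' b')
    (e : p * W = W) (e' : p * W' = 0) :
    ∃ (G₁ : 𝒞.Hom ((A + C₁) + c) (A + b)) (G₂ : 𝒞.Hom ((C₂ + B) + c') (B + b')),
      sFour 𝒞 (A + C₁) (C₂ + B) c c' * (fromBlocks u 0 0 (1 : 𝒞.Hom (c + c') (c + c')) *
        fromBlocks (fromCols (kA 𝒞 A C₁ C₂ B).ct (kB 𝒞 A C₁ C₂ B).ct)
          ((kM 𝒞 A C₁ C₂ B).ct * fromCols W W') 0 (fromBlocks V 0 0 V')) *
        (sFour 𝒞 A B b b').ct = fromBlocks G₁ 0 0 G₂ := by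
  have k : fromBlocks 1 0 0 0 * (u * (kM 𝒞 A C₁ C₂ B).ct) = u * (kM 𝒞 A C₁ C₂ B).ct * p := by
    rw [Hm.mul_assoc u, ← hp, ← Hm.mul_assoc u, ← Hm.mul_assoc u, ← Hm.mul_assoc u, h1, Hm.one_mul,
      Hm.mul_assoc]
  obtain ⟨x1, x2, hx⟩ := exists_rows (u * (kA 𝒞 A C₁ C₂ B).ct)
  obtain ⟨y1, y2, hy⟩ := exists_rows (u * (kB 𝒞 A C₁ C₂ B).ct)
  obtain ⟨s1, s2, hs⟩ := exists_rows (u * ((kM 𝒞 A C₁ C₂ B).ct * W))
  obtain ⟨t1, t2, ht⟩ := exists_rows (u * ((kM 𝒞 A C₁ C₂ B).ct * W'))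
  obtain rfl : x2 = 0 := by
    obtain ⟨a, b, rfl⟩ := exists_rows x2
    rw [MK_op z1 a, MK_op z2 b, fromRows_zero]
  obtain rfl : y1 = 0 := by
    obtain ⟨a, b, rfl⟩ := exists_rows y1
    rw [z2 a, z3 b, fromRows_zero]
  obtain rfl : s2 = 0 := by
    have a := congrArg (· * W) k
    simp only [Hm.mul_assoc, e, hs, fromBlocks_mul_fromRows, fromRows_ext_iff, Hm.zero_mul,
      add_zero] at a
    exact a.2.symm
  obtain rfl : t1 = 0 := by
    have a := congrArg (· * W') k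
    simp only [Hm.mul_assoc, e', ht, fromBlocks_mul_fromRows, Hm.zero_mul, Hm.mul_zero, Hm.one_mul,
      add_zero] at a
    simpa using congrArg (·.toRows₁) a
  refine ⟨fromBlocks x1 s1 0 V, fromBlocks y2 t2 0 V', ?_⟩
  rw [← MK_four, fromBlocks_multiply]
  simp only [Hm.zero_mul, Hm.mul_zero, Hm.one_mul, add_zero, zero_add, mul_fromCols, hx, hy, hs, ht,
    fromCols_fromRows_eq_fromBlocks]

namespace La

variable {Λ : La 𝒞 𝒟}

theorem MK_tr {w : 𝒟.Hom I J} (hw : Unt w) (h : Λ.Dg (fun _ n => 0 ≤ n) w)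
    (h' : Λ.Dg (fun _ n => 0 ≤ n) w.ct) : Λ.Tr w ∧ Λ.Tr w.ct :=
  ⟨tr_unit hw.1 hw.2 h h', tr_unit hw.2 hw.1 h' h⟩

theorem tr_four (a b c d : O) : Λ.Tr (sFour 𝒟 a b c d) ∧ Λ.Tr (sFour 𝒟 a b c d).ct := by
  refine MK_tr unt_four ?_ ?_ <;>
    simp only [sFour, fromBlocks_conjTranspose, conjTranspose_zero, conjTranspose_one, dg_blocks,
      dg_zero, dg_one, and_self]

theorem tr_frame {W : 𝒟.Hom (C₁ + C₂) b} {W' : 𝒟.Hom (C₁ + C₂) b'} {V : 𝒟.Hom c b}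
    {V' : 𝒟.Hom c' b'} (h : Λ.Tr (fromRows (fromCols W W') (fromBlocks V 0 0 V'))) :
    Λ.Tr (fromBlocks (fromCols (kA 𝒟 A C₁ C₂ B).ct (kB 𝒟 A C₁ C₂ B).ct)
      ((kM 𝒟 A C₁ C₂ B).ct * fromCols W W') 0 (fromBlocks V 0 0 V')) := by
  have h1 := (MK_tr (Λ := Λ) (MK_unt 𝒟 A C₁ C₂ B) ?_ ?_).2
  have h2 := (MK_tr (Λ := Λ) (unt_assoc (I := A + B) (J := C₁ + C₂) (K := c + c')) ?_ ?_).2
  · have h3 := (((Tr.stab (c + c')).2 h1).mul h2).mul (Λ.kt.sum (Λ.kt.one (I := A + B)) h)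
    simpa [sAssoc, fromBlocks_conjTranspose, fromBlocks_multiply,
      conjTranspose_fromRows_eq_fromCols_conjTranspose,
      conjTranspose_fromCols_eq_fromRows_conjTranspose, fromCols_mul_fromRows,
      fromCols_mul_fromBlocks, fromRows_fromCols_eq_fromBlocks,
      fromCols_fromRows_eq_fromBlocks] using h3
  all_goals
    simp only [sAssoc, kA, kB, kM, fromBlocks_conjTranspose, conjTranspose_zero, conjTranspose_one,
      conjTranspose_fromRows_eq_fromCols_conjTranspose,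
      conjTranspose_fromCols_eq_fromRows_conjTranspose, dg_blocks, dg_rows, dg_cols, dg_zero,
      dg_one, and_self]

end La

theorem MK_win (Λ : La 𝒞 𝒟) {P : O → Prop} (w : ∀ a n, P a → P (Λ.wo a n)) (h : SFr 𝒞 P)
    {x : 𝒟.Hom I J} (hJ : P J) (hx : Iv x) : Λ.Tr x :=
  La.tr_win hx fun n E hE => let ⟨a, b, _, _, k⟩ := h _ (w _ n hJ) E hE; ⟨a, b, k⟩

/-- the Mayer-Vietoris theorem for idempotents -/
theorem mvK (Λ : La 𝒞 𝒟) {P₁ P₂ P₀ : Cls O} (cut : Cut4 𝒞 𝒟 P₁.P P₂.P P₀.P)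
    (le₁ : ∀ a, P₀.P a → P₁.P a) (le₂ : ∀ a, P₀.P a → P₂.P a)
    (w₁ : ∀ a n, P₁.P a → P₁.P (Λ.wo a n)) (w₂ : ∀ a n, P₂.P a → P₂.P (Λ.wo a n))
    (h₁ : SFr 𝒞 P₁.P) (h₂ : SFr 𝒞 P₂.P) (h₀ : SFr 𝒟 P₀.P) : SFI 𝒞 := by
  intro I E hE
  obtain ⟨A, C₁, C₂, B, w, hw, pA, p1, p2, pB, z1, z2, z3⟩ := cut I
  refine mk_sf hw (La.Tr.sf (Λ := Λ) ?_ ?_)
  · rw [Hm.mul_assoc (w * E), ← Hm.mul_assoc w.ct, ← Hm.mul_assoc w.ct, hw.2, Hm.one_mul,
      ← Hm.mul_assoc, Hm.mul_assoc w, hE]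
  generalize Λ.zz _ 1 * Λ.cst (w * E * w.ct) + Λ.cst (1 - w * E * w.ct) = u
  rintro ⟨u', e1, e2⟩
  obtain ⟨p, hp, hk⟩ := mk_mid e1 e2 z1 z2 z3
  obtain ⟨c, b, -, pb, f⟩ := h₀ _ (P₀.hadd _ _ p1 p2) p hp
  obtain ⟨c', b', -, pb', f'⟩ := h₀ _ (P₀.hadd _ _ p1 p2) (1 - p) (by
    rw [Hm.mul_sub, Hm.sub_mul, Hm.sub_mul 1, hp]
    simp)
  obtain ⟨W, W', V, V', hg, e, e'⟩ := mk_frames hp f f'
  obtain ⟨G₁, G₂, hG⟩ := mk_diag e1 z1 z2 z3 hk V V' e e'
  have tF := La.tr_frame (A := A) (B := B) (MK_win Λ w₁ h₁ (le₁ _ (P₀.hadd _ _ pb pb')) hg)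
  obtain ⟨i1, i2⟩ : Iv G₁ ∧ Iv G₂ := mk_iv (hG ▸ (ktIv 𝒟).mul ((ktIv 𝒟).mul unt_four.iv
    ((ktIv 𝒟).mul ((ktIv 𝒟).sum ⟨u', e1, e2⟩ (ktIv 𝒟).one) (Λ.kt.inv tF))) unt_four.ct.iv)
  have t := Λ.kt.sum (MK_win Λ w₁ h₁ (P₁.hadd _ _ pA (le₁ _ pb)) i1)
    (MK_win Λ w₂ h₂ (P₂.hadd _ _ pB (le₂ _ pb')) i2)
  rw [← hG] at t
  exact (La.Tr.stab _).1 (Λ.kt.of_mul (Λ.kt.of_mul' (Λ.kt.of_mul t (La.tr_four _ _ _ _).2)
    (La.tr_four _ _ _ _).1) tF)

end Pool.Agent.Work.MP_9d1ffa_al.Ct.LL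
end

-- merged part: Pool.Agent.Work.MP_9d1ffa_al.LL.Gu
section
/-! The Mayer-Vietoris step for germs. -/

set_option linter.unusedSectionVars false
set_option linter.unusedVariables false

namespace Pool.Agent.Work.MP_9d1ffa_al.Ct.LL

open Filter WL

variable {X Ω K K' : Type} [Group K] [Group K'] {ρ : K →* Equiv.Perm X} {σ : K →* Equiv.Perm Ω}
  {ρ' : K' →* Equiv.Perm X} {σ' : K' →* Equiv.Perm Ω} {𝒜 𝒜₁ 𝒜₂ : ℝ → Set (Ω → ℝ)}
  {P : Set (Ω → ℝ)}

theorem Opn.mono (h : Opn σ 𝒜) {c c' : ℝ} (h0 : 0 < c') (k : c' ≤ c) : 𝒜 c ⊆ 𝒜 c' :=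
  fun μ e => h c c' 0 1 μ μ h0 le_rfl (by linarith) e (by rw [map_one]; exact cl_rfl le_rfl μ)

theorem Opn.ln (h : Opn σ 𝒜) : Opn (ln σ) 𝒜 := fun c c' η g => h c c' η g.1

/-- A germ vanishes if the labels of source and target are separated. -/
theorem gm_zero (h : Opn σ 𝒜) {a b : ℕ → LOb X Ω} {c c' : ℝ} (h0 : 0 < c') (k : c' < c)
    (ha : ∀ᶠ m in atTop, ∀ i, (a m).p i ∈ 𝒜 c) (hb : ∀ᶠ m in atTop, ∀ j, (b m).p j ∉ 𝒜 c')
    (x : (Gm (cs ρ σ)).Hom a b) : x = 0 := by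
  obtain ⟨y, hy⟩ := exists_rp x
  refine (hy.eq_iff Rp.zero).2 (((hy.sm (c - c') (sub_pos.2 k)).and (ha.and hb)).mono
    fun m e => hom_ext (ρ := ρ) fun i j g => by_contra fun n => e.2.2 j ?_)
  have := cl_symm (e.1 i j g n)
  rw [← map_inv] at this
  exact h c c' _ g⁻¹ _ _ h0 (sub_pos.2 k).le (by linarith) (e.2.1 i) this

/-- the four parts of an object -/
noncomputable def Gu_w (ρ : K →* Equiv.Perm X) (a : Ob X) (p q r : a.I → Prop) :
    (OC ρ).Hom ((sub a (fun i => p i ∧ ¬ q i) + sub a fun i => p i ∧ q i ∧ r i) +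
      (sub a (fun i => p i ∧ q i ∧ ¬ r i) + sub a fun i => ¬ p i)) a :=
  fromRows (fromRows (inc ρ a _) (inc ρ a _)) (fromRows (inc ρ a _) (inc ρ a _))

theorem Gu_pm (a : Ob X) (p q r : a.I → Prop) : IsPm (Gu_w ρ a p q r)
    (Sum.elim (Sum.elim Subtype.val Subtype.val) (Sum.elim Subtype.val Subtype.val)) :=
  ((isPm_inc _).rows (isPm_inc _)).rows ((isPm_inc _).rows (isPm_inc _))

theorem Gu_unt (a : Ob X) (p q r : a.I → Prop) : Unt (Gu_w ρ a p q r) := by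
  refine (Gu_pm a p q r).unt ⟨?_, fun i => ?_⟩
  · rintro ((⟨i, h⟩ | ⟨i, h⟩) | ⟨i, h⟩ | ⟨i, h⟩) ((⟨j, k⟩ | ⟨j, k⟩) | ⟨j, k⟩ | ⟨j, k⟩)
      (rfl : i = j) <;> first | rfl | tauto
  · by_cases h : p i
    · by_cases k : q i
      · by_cases l : r i
        · exact ⟨.inl (.inr ⟨i, h, k, l⟩), rfl⟩
        · exact ⟨.inr (.inl ⟨i, h, k, l⟩), rfl⟩
      · exact ⟨.inl (.inl ⟨i, h, k⟩), rfl⟩
    · exact ⟨.inr (.inr ⟨i, h⟩), rfl⟩

/-- cutting a germ object into four parts by its labels -/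
theorem cut4 (h₁ : Opn σ' 𝒜₁) (h₂ : Opn σ' 𝒜₂) :
    Cut4 (GC ρ σ fun c => P ∩ (𝒜₁ c ∪ 𝒜₂ c)) (GC ρ' σ' fun c => P ∩ (𝒜₁ c ∪ 𝒜₂ c))
      (Cls.res _ (lev X fun c => P ∩ 𝒜₁ c)).P (Cls.res _ (lev X fun c => P ∩ 𝒜₂ c)).P
      (Cls.res _ (lev X fun c => P ∩ (𝒜₁ c ∩ 𝒜₂ c))).P := by
  rintro ⟨a, hI⟩
  obtain ⟨c, hc, h⟩ := id hI
  have c2 : 0 < c / 2 := by positivity
  have c4 : 0 < c / 4 := by positivity
  replace h : ∀ᶠ m in atTop, ∀ i, (a m).p i ∈ P ∧ ((a m).p i ∈ 𝒜₁ c ∨ (a m).p i ∈ 𝒜₂ c) :=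
    h.mono fun m e i => (e i).elim fun c' k =>
      ⟨k.2.1, k.2.2.imp (fun z => h₁.mono hc k.1 z) fun z => h₂.mono hc k.1 z⟩
  let p : ∀ m, (a m).a.I → Prop := fun m i => (a m).p i ∈ 𝒜₁ (c / 4)
  let q : ∀ m, (a m).a.I → Prop := fun m i => (a m).p i ∈ 𝒜₂ (c / 2)
  let r : ∀ m, (a m).a.I → Prop := fun m i => (a m).p i ∈ 𝒜₁ (c / 2)
  let s : (∀ m, (a m).a.I → Prop) → (lev X fun c => P ∩ (𝒜₁ c ∪ 𝒜₂ c)).T := fun u =>
    ⟨fun m => lsub (a m) (u m), lev_of hI fun _ i => ⟨i.1, rfl⟩⟩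
  have hw : (cs ρ σ).Sm (a := ((s (fun m i => p m i ∧ ¬ q m i) +
      s fun m i => p m i ∧ q m i ∧ r m i) + (s (fun m i => p m i ∧ q m i ∧ ¬ r m i) +
      s fun m i => ¬ p m i)).1) (b := a) fun m => Gu_w ρ (a m).a (p m) (q m) (r m) :=
    Cs.sm_of_zero (.of_forall fun m => cn_pm1 (Gu_pm _ _ _ _) (by rintro ((i | i) | i | i) <;> rfl))
  have hA : ∀ᶠ m in atTop, ∀ i, ((s fun m i => p m i ∧ ¬ q m i).1 m).p i ∈ 𝒜₁ c :=
    h.mono fun m e i => (e i.1).2.resolve_right fun z => i.2.2 (h₂.mono c2 (by linarith) z)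
  refine ⟨s fun m i => p m i ∧ ¬ q m i, s fun m i => p m i ∧ q m i ∧ r m i,
    s fun m i => p m i ∧ q m i ∧ ¬ r m i, s fun m i => ¬ p m i, gm _ hw,
    ⟨((rp_gm hw).mul (rp_gm hw).ct).ext Rp.one fun m => (Gu_unt _ _ _ _).1,
      ((rp_gm hw).ct.mul (rp_gm hw)).ext Rp.one fun m => (Gu_unt _ _ _ _).2⟩,
    ⟨c, hc, (h.and hA).mono fun m e i => ⟨c, le_rfl, (e.1 i.1).1, e.2 i⟩⟩,
    ⟨c / 2, c2, h.mono fun m e i => ⟨_, le_rfl, (e i.1).1, i.2.2.2, i.2.2.1⟩⟩,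
    ⟨c / 4, c4, h.mono fun m e i =>
      ⟨_, le_rfl, (e i.1).1, i.2.1, h₂.mono c4 (by linarith) i.2.2.1⟩⟩,
    ⟨c, hc, h.mono fun m e i => ⟨c, le_rfl, (e i.1).1,
      (e i.1).2.resolve_left fun z => i.2 (h₁.mono c4 (by linarith) z)⟩⟩,
    gm_zero h₁ c2 (by linarith) hA (.of_forall fun m j => j.2.2.2),
    gm_zero h₁ c4 (by linarith) hA (.of_forall fun m j => j.2),
    gm_zero h₁ c4 (c := c / 2) (by linarith) (.of_forall fun m i => i.2.2.2)
      (.of_forall fun m j => j.2)⟩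

theorem gv_mv (h₁ : Opn σ 𝒜₁) (h₂ : Opn σ 𝒜₂) (H₁ : GV ρ σ fun c => P ∩ 𝒜₁ c)
    (H₂ : GV ρ σ fun c => P ∩ 𝒜₂ c) (H₀ : GV ρ σ fun c => P ∩ (𝒜₁ c ∩ 𝒜₂ c))
    (H : GV (ln ρ) (ln σ) fun c => P ∩ (𝒜₁ c ∩ 𝒜₂ c)) : GV ρ σ fun c => P ∩ (𝒜₁ c ∪ 𝒜₂ c) := by
  have l₁ : ∀ a, (lev X fun c => P ∩ 𝒜₁ c).P a → (lev X fun c => P ∩ (𝒜₁ c ∪ 𝒜₂ c)).P a :=
    fun _ h => lev_mono h fun _ _ z => ⟨z.1, Or.inl z.2⟩
  have l₂ : ∀ a, (lev X fun c => P ∩ 𝒜₂ c).P a → (lev X fun c => P ∩ (𝒜₁ c ∪ 𝒜₂ c)).P a :=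
    fun _ h => lev_mono h fun _ _ z => ⟨z.1, Or.inr z.2⟩
  have k₁ : ∀ a, (lev X fun c => P ∩ (𝒜₁ c ∩ 𝒜₂ c)).P a → (lev X fun c => P ∩ 𝒜₁ c).P a :=
    fun _ h => lev_mono h fun _ _ z => ⟨z.1, z.2.1⟩
  have k₂ : ∀ a, (lev X fun c => P ∩ (𝒜₁ c ∩ 𝒜₂ c)).P a → (lev X fun c => P ∩ 𝒜₂ c).P a :=
    fun _ h => lev_mono h fun _ _ z => ⟨z.1, z.2.2⟩
  have l₀ := fun a h => l₁ a (k₁ a h)
  have hS : SFI (GC ρ σ fun c => P ∩ (𝒜₁ c ∪ 𝒜₂ c)) :=
    mvK (laG ρ σ _) (cut4 h₁.ln h₂.ln) (fun a => k₁ a.1) (fun a => k₂ a.1)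
      (fun a n => lev_wo a.1 n) (fun a n => lev_wo a.1 n) (sfr_of l₁ H₁.sfi) (sfr_of l₂ H₂.sfi)
      (sfr_of l₀ H.sfi)
  refine v3_of hS (fun ε => mv0 hS (cut4 h₁ h₂) (fun a => k₁ a.1) (fun a => k₂ a.1)
    (slr_of l₁ H₁ ε) (slr_of l₂ H₂ ε) (bxr_of l₀ H₀ stab_gc ε)) fun η => ?_
  have := mv1 (ε := -η) (cut4 (ρ := ρ) (ρ' := ρ) (σ := σ) h₁ h₂) (fun a => k₁ a.1) (fun a => k₂ a.1)
    (slr_of l₀ H₀ _) (ulr_of l₁ H₁ stab_gc _) (bxr_of l₂ H₂ stab_gc _)
  rwa [neg_neg] at this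

end Pool.Agent.Work.MP_9d1ffa_al.Ct.LL
end

-- merged part: Pool.Agent.Work.MP_9d1ffa_al.LL.Gi
section
/-! The induction over the thresholds. -/

set_option linter.unusedSectionVars false
set_option linter.unusedVariables false

namespace Pool.Agent.Work.MP_9d1ffa_al.Ct.LL

open Filter WL

variable {X Ω K : Type} [Group K] {ρ : K →* Equiv.Perm X} {σ : K →* Equiv.Perm Ω}

theorem VZ.v3 (h : VZ ρ) : V3 (OC ρ) := v3_of h.v0.1 h.v0.2 h.van1

theorem gv_empty {𝒜 : ℝ → Set (Ω → ℝ)} (h : ∀ c, 𝒜 c = ∅) : GV ρ σ 𝒜 := fun a => by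
  obtain ⟨c, -, hc⟩ := a.2
  have e : (1 : (Gm (cs ρ σ)).Hom a.1 a.1) = 0 := (Rp.one.eq_iff Rp.zero).2 (hc.mono fun m k =>
    val_inj (funext fun i => (k i).elim fun c' z => by rw [h] at z; exact z.2.elim))
  exact Tri.zero.unt (u := 0) ⟨(Hm.zero_mul _).trans e.symm, to_zero _ |>.trans (to_zero _).symm⟩

theorem gv_ind {δ : ℝ} (hδ : 0 < δ) {𝒦 : Set (Set Ω)} (h𝒦 : ∀ s ∈ 𝒦, ∀ t, t ⊆ s → t ∈ 𝒦)
    (J : List ℕ) (hJ : ∀ r ∈ J, (2 * r + 2) * δ ≤ 1) :
    ∀ (K : Type) [Group K] (ρ : K →* Equiv.Perm X) (σ : K →* Equiv.Perm Ω) (I : Finset ℕ),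
      (∀ r ∈ I, (2 * r + 2) * δ ≤ 1) →
      (∀ ν : Ω → ℝ, (Function.support ν).Nonempty → Function.support ν ∈ 𝒦 →
        VZ (ρ.comp (Stc σ ν).subtype)) →
      GV ρ σ fun c => PP 𝒦 ∩ (MI Ω δ I c ∩ UJ Ω δ J c) := by
  induction J with
  | nil =>
    intro K _ ρ σ I _ _
    exact gv_empty fun c => Set.eq_empty_of_forall_notMem fun μ ⟨_, _, r, hr, _⟩ =>
      List.not_mem_nil hr
  | cons r J ih =>
    intro K _ ρ σ I hI hK
    have hJ' := ih fun s hs => hJ s (List.mem_cons_of_mem _ hs)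
    have hI' : ∀ s ∈ insert r I, (2 * s + 2) * δ ≤ 1 := fun s hs =>
      (Finset.mem_insert.1 hs).elim (fun e => hJ s (e ▸ List.mem_cons_self)) (hI s)
    have sub : ∀ c, MI Ω δ (insert r I) c ⊆ MI Ω δ I c := fun c μ h s hs =>
      h s (Finset.mem_insert_of_mem hs)
    have H := hJ' _ (ln ρ) (ln σ) (insert r I) hI' fun ν h1 h2 =>
      (hK ν h1 h2).sub_int _ fun _ => Iff.rfl
    have e : ∀ c, PP 𝒦 ∩ (MI Ω δ (insert r I) c ∩ UJ Ω δ J c) =
        PP 𝒦 ∩ (MI Ω δ (insert r I) c ∩ (MI Ω δ I c ∩ UJ Ω δ J c)) := fun c =>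
      congrArg _ (Set.ext fun μ => ⟨fun h => ⟨h.1, sub c h.1, h.2⟩, fun h => ⟨h.1, h.2.2⟩⟩)
    refine gv_congr (fun c => ?_) (gv_mv (opn_MI δ (insert r I)) (opn_MU δ I J)
      (gv_base hδ (Finset.insert_nonempty r I) hI' h𝒦 fun ν h1 h2 => (hK ν h1 h2).v3)
      (hJ' K ρ σ I hI hK) (gv_congr e (hJ' K ρ σ _ hI' hK)) (gv_congr e H))
    refine congrArg _ (Set.ext fun μ => ⟨fun h => h.elim (fun h => ⟨sub c h, r,
      List.mem_cons_self, h r (Finset.mem_insert_self r I)⟩) fun h =>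
        ⟨h.1, h.2.imp fun s hs => ⟨List.mem_cons_of_mem _ hs.1, hs.2⟩⟩, ?_⟩)
    rintro ⟨h1, s, hs, h2⟩
    rcases List.mem_cons.1 hs with rfl | hs
    · exact Or.inl fun t ht => (Finset.mem_insert.1 ht).elim (fun e => e ▸ h2) (h1 t)
    · exact Or.inr ⟨h1, s, hs, h2⟩

variable {Q : Type} [Group Q] [MulAction Q Ω]

/-- the action of `K` on `Ω` -/
abbrev sg (φ : K →* Q) (Ω : Type) [MulAction Q Ω] : K →* Equiv.Perm Ω :=
  (MulAction.toPermHom Q Ω).comp φ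

/-- The squeezing theorem. -/
theorem exists_gv {Good : Subgroup Q → Prop} (φ : K →* Q) (ρ : K →* Equiv.Perm X)
    (hK : ∀ L : Subgroup K, φ.ker ≤ L → Good (L.map φ) → VZ (ρ.comp L.subtype)) (N : ℕ) :
    ∃ 𝒜 : ℝ → Set (Ω → ℝ), GV ρ (sg φ Ω) 𝒜 ∧
      ∀ a : ℕ → LOb X Ω, (∀ m i, Pos Good N ((a m).p i)) → (lev X 𝒜).P a := by
  have d0 : (0 : ℝ) < 1 / ((2 * N + 4) * (N + 1)) := by positivity
  refine ⟨_, gv_ind d0 (𝒦 := {s | ∃ μ, Pos Good N μ ∧ s ⊆ Function.support μ})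
    (fun s ⟨μ, h, h'⟩ t k => ⟨μ, h, k.trans h'⟩) (List.range (N + 2)) (fun r hr => by
      have : (r : ℝ) + 1 ≤ N + 2 := by exact_mod_cast List.mem_range.1 hr
      have : (0 : ℝ) ≤ (2 * N + 4) * N := by positivity
      rw [mul_one_div, div_le_one (by positivity)]
      linarith) K ρ _ ∅ (fun r hr => absurd hr (Finset.notMem_empty r))
    fun ν h1 ⟨μ, h2, h3⟩ => hK _ (fun g hg ω => ?_) (h2.2.2.2 _ _ h1 h3 ?_), fun a ha =>
      ⟨_, d0, .of_forall fun m i => ⟨_, le_rfl, ⟨(ha m i).1, _, ha m i, subset_rfl⟩,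
        fun r hr => absurd hr (Finset.notMem_empty r), pos_UJ (ha m i)⟩⟩⟩
  · change ν (φ g • ω) = ν ω
    rw [show φ g = 1 from hg, one_smul]
  · rintro _ ⟨g, hg, rfl⟩ ω hω
    exact fun e => hω ((hg ω).symm.trans e)

end Pool.Agent.Work.MP_9d1ffa_al.Ct.LL
end

-- merged part: Pool.Agent.Work.MP_9d1ffa_al.LL.Tm
section
/-! The transfer for idempotents. -/

set_option linter.unusedSectionVars false
set_option linter.unusedVariables false

namespace Pool.Agent.Work.MP_9d1ffa_al.Ct.LL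

open Filter WL

section

variable {O : Type 1} [Add O] [Zero O] {𝒞 𝒟 : SCat O} {Λ : Lau 𝒞 𝒟} {N : Cs 𝒞} {N' : Cs 𝒟}

theorem ev_tr (h : CLau Λ N N') {P : Cls (ℕ → O)} (hS : SFI (full (Gm N) P)) {a : ℕ → O}
    (ha : ∀ n : ℕ → ℕ, P.P fun m => wo (a m) (n m)) {w w' : ∀ m, 𝒟.Hom (a m) (a m)}
    (h1 : ∀ m, w m * w' m = 1) (h2 : ∀ m, w' m * w m = 1) (s1 : N'.Sm w) (s2 : N'.Sm w') :
    ∀ᶠ m in atTop, Λ.Tr (w m) := by
  choose s hs using fun m => Lau.exists_pos (Λ := Λ) (w m)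
  choose n hn using fun m => Lau.exists_bdd (Λ := Λ) (Λ.zz (a m) (s m) * w m)
  have hn' : ∀ m, Λ.Dg (· ≤ n m) (Λ.zz (a m) (s m) * w m) := fun m =>
    (hn m).mono fun _ h => (abs_le.1 h).2
  have a1 := fun m => (Lau.KT_inv (Λ := Λ) (s m)).1.2 (h1 m)
  have a2 := fun m => (Lau.KT_inv (Λ := Λ) (s m)).2.2 (h2 m)
  have sm : N.Sm (a := fun m => wo (a m) (n m)) (b := fun m => wo (a m) (n m)) fun m =>
      Λ.win (n m) (Λ.zz (a m) (s m) * w m) (w' m * Λ.zz (a m) (-s m)) := fun η hη =>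
    ((s1 _ (half_pos hη)).and (s2 _ (half_pos hη))).mono fun m e => h.c (Cs.mul0 (N'.mono
      (N'.mul (h.f _ (Cs.mul0' (h.wi _ _) (Cs.mul0 e.2 (h.z _ _)))) (Cs.mul0' (h.z _ _) e.1))
      (add_halves η).le) (h.wc _ _))
  have r := rp_gm sm
  filter_upwards [ev_sf (P := P) (a := ⟨_, ha n⟩) r (hS _ _ ((r.mul r).ext r fun m =>
    Lau.win_idem (a1 m) (a2 m) (hs m) (hn' m)))] with m e
  exact ⟨w' m, s m, Lau.fr_win (a1 m) (a2 m) (hs m) (hn' m) e⟩

end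

variable {X Ω K Q : Type} [Group K] [Group Q] [MulAction Q Ω] {ρ : K →* Equiv.Perm X}

theorem tr_fgt {a b : LOb X Ω} {w : (LC (ln ρ) Ω).Hom a b} (h : (lauL ρ Ω).Tr w) :
    (lauO ρ).Tr (I := a.a) (J := b.a) w := by
  obtain ⟨u', N, m1, m2, m3, c, d, B, Ba, D, Da, p0, p1, p2, p3⟩ := h
  have k : ∀ L : Ob X, (Set.range fun _ : L.I => (0 : Ω → ℝ)).Finite := fun L =>
    (Set.finite_singleton 0).subset Set.range_const_subset
  exact ⟨u', N, m1, m2, m3, c.a, d.a, B, Ba, D, Da, p0, p1, fun L => p2 ⟨L, _, k L⟩,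
    fun L => p3 ⟨L, _, k L⟩⟩

theorem tr_one {a b : Ob X} (u : (OC (ln ρ)).Hom a b) (h : Sup (· = 1) u) (hu : Unt u) :
    (lauO ρ).kt.D u := by
  have k : ∀ {a b : Ob X} {u : (OC (ln ρ)).Hom a b}, Sup (· = 1) u → (lauO ρ).Dg (0 ≤ ·) u :=
    fun h => (h.mono (S' := fun g : K × Multiplicative ℤ => 0 ≤ g.2.toAdd)
      fun g e => by rw [e]; exact le_rfl).fm_eq
  exact Lau.tr_unit hu.1 hu.2 (k h) (k (BFil_sup_ct h))

theorem Tm_deg {B : Type} [Fintype B] {I : Ob X} {c : B → ℕ} {r : ℤ} {M : K → Matrix B B ℤ}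
    (h : ∀ g a b, M g a b ≠ 0 → (c a : ℤ) = c b + r) (x : (OC ρ).Hom I I) :
    Deg (I := tn I B) (fun s => c s.2) r (trM M x) := fun _ _ e =>
  let ⟨g, k⟩ := CA_ne.1 e
  h g _ _ (trM_ne k).1

theorem Tm_rank {B : Type} [Fintype B] {I : Ob X} {u v : B → ℤ} (e : v ⬝ᵥ u = 1) (D : KT (OC ρ))
    {y : (OC ρ).Hom I I} (h : D.D (1 + trM (fun _ => Matrix.vecMulVec u v) y)) : D.D (1 + y) := by
  have e1 : Matrix.replicateRow Unit v * Matrix.replicateCol Unit u = 1 := by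
    rw [Matrix.replicateRow_mul_replicateCol, e]
    rfl
  have := kt_swap D (trM (fun _ => Matrix.replicateCol Unit u) y * tU ρ I)
    ((tU ρ I).ct * trM (fun _ => Matrix.replicateRow Unit v) 1) (by
      rwa [Hm.mul_assoc, Fa_r (unt_tU I).1, Hm.one_mul, trM_const, Hm.mul_one,
        ← Matrix.vecMulVec_eq])
  rwa [Hm.mul_assoc, Fa_r (trM_const _ _ _ _), Hm.one_mul, e1, ← tU_conj, Hm.mul_assoc,
    (unt_tU I).2, Hm.mul_one, Fa_r (unt_tU I).2, Hm.one_mul] at this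

theorem Tm_trF {B : Type} [Fintype B] [DecidableEq B] {I : Ob X} (Φ : K → Matrix B B ℤ)
    (x : (OC ρ).Hom I I) : trF Φ 1 (1 + x) = 1 + trM Φ x := by
  rw [trF, add_sub_cancel_left, trM_one, add_comm]

theorem ktransfer {B : Type} [Fintype B] [DecidableEq B] {S : Finset Q} {N : ℕ} {ε : ℝ}
    {p : B → Ω → ℝ} (C : CD B S N ε p) (h0 : 0 ≤ ε) (φ : K →* Q) (D : KT (OC ρ))
    (hu : ∀ {a b : Ob X} (u : (OC ρ).Hom a b), Sup (· = 1) u → Unt u → D.D u) {I : Ob X}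
    {x y : (OC ρ).Hom I I} (hx : Sup (fun g => φ g ∈ S) x) (hy : Sup (fun g => φ g ∈ S) y)
    (e : (1 + x) * (1 + y) = 1) (e' : (1 + y) * (1 + x) = 1) :
    ∃ A A' : (OC ρ).Hom (tn I B + tn I B) (tn I B + tn I B), (A * A' = 1 ∧ A' * A = 1) ∧
      (Cn (sg φ Ω) ((6 * N + 15) * ε) (I := tn I B + tn I B) (J := tn I B + tn I B)
          (Sum.elim (fun s => p s.2) fun s => p s.2) (Sum.elim (fun s => p s.2) fun s => p s.2) A ∧
        Cn (sg φ Ω) ((6 * N + 15) * ε) (I := tn I B + tn I B) (J := tn I B + tn I B)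
          (Sum.elim (fun s => p s.2) fun s => p s.2) (Sum.elim (fun s => p s.2) fun s => p s.2) A') ∧
      (D.D A → D.D (1 + y)) := by
  have s1 : ∀ {x : (OC ρ).Hom I I}, Sup (fun g => φ g ∈ S) x →
      Sup (fun g => φ g ∈ S) (1 + x - 1) := fun h => by rwa [add_sub_cancel_left]
  have H := fun {x y : (OC ρ).Hom I I} (hx : Sup (fun g => φ g ∈ S) x)
      (hy : Sup (fun g => φ g ∈ S) y) => trF_mul (d := C.d) (Φ := fun g => C.Φ (φ g))
    (H := fun g h => C.H (φ g) (φ h)) (fun g hg h hh => by rw [map_mul]; exact C.dH _ hg _ hh)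
    (P := fun h => Deg (I := tn I B) (fun s => C.dg s.2) 1 h ∧
      Cn (sg φ Ω) ε (I := tn I B) (J := tn I B) (fun s => p s.2) (fun s => p s.2) h)
    ⟨Deg.zero, cn_zero⟩ (fun a b ha hb => ⟨ha.1.add hb.1, ha.2.add hb.2⟩)
    (fun g hg h hh z hz => ⟨Tm_deg (fun _ a b k => by rw [C.H_dg _ _ a b k]; rfl) _,
      cn_trM hz fun _ k a b k' => by
        have := C.H_cl _ hg _ hh a b k'
        rw [← map_mul, ← k] at this
        exact this⟩) sup_one sup_one (s1 hx) (s1 hy) (Hm.mul_one _)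
  obtain ⟨h, e1, gh, ch⟩ := H hx hy e
  obtain ⟨k, e2, gk, ck⟩ := H hy hx e'
  have e3 := trM_htpy (d := C.d) (Φ := fun g => C.Φ (φ g)) (Jh := fun g => C.J (φ g))
    (fun g hg => C.dJ _ hg) hx
  have EE : Matrix.vecMulVec C.u C.v * Matrix.vecMulVec C.u C.v = Matrix.vecMulVec C.u C.v := by
    rw [Matrix.vecMulVec_mul_vecMulVec, C.vu, one_smul]
  have inv : ∀ x y : (OC ρ).Hom I I, (1 + x) * (1 + y) = 1 →
      (1 + trM (fun _ => Matrix.vecMulVec C.u C.v) x) *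
        (1 + trM (fun _ => Matrix.vecMulVec C.u C.v) y) = 1 := fun x y e => by
    rw [Hm.mul_add, Hm.mul_one, Hm.add_mul, Hm.one_mul, add_assoc, add_eq_left] at e
    rw [Hm.mul_add, Hm.mul_one, Hm.add_mul, Hm.one_mul, trM_const, EE, add_assoc, ← trM_add,
      ← trM_add, e, trM_zero, add_zero]
  have bot : ∀ x : (OC ρ).Hom I I, Bot (I := tn I B) (fun s => C.dg s.2)
      (trM (fun _ => Matrix.vecMulVec C.u C.v) x) := fun x a b k =>
    let ⟨_, k⟩ := CA_ne.1 k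
    ⟨C.u_dg _ (left_ne_zero_of_mul (trM_ne k).1), C.v_dg _ (right_ne_zero_of_mul (trM_ne k).1)⟩
  have du : C.d.mulVec C.u = 0 := by
    funext a
    refine Finset.sum_eq_zero fun b _ => ?_
    by_contra k
    have h1 := C.d_dg a b (left_ne_zero_of_mul k)
    have h2 := C.u_dg b (right_ne_zero_of_mul k)
    omega
  have gΦ : ∀ x : (OC ρ).Hom I I, Deg (I := tn I B) (fun s => C.dg s.2) 0
      (trF (fun g => C.Φ (φ g)) 1 (1 + x)) := fun x => by
    rw [Tm_trF]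
    exact Deg.one.add (Tm_deg (fun _ a b k => by rw [C.Φ_dg _ a b k, add_zero]) _)
  have cΦ : ∀ x : (OC ρ).Hom I I, Sup (fun g => φ g ∈ S) x →
      Cn (sg φ Ω) ε (I := tn I B) (J := tn I B) (fun s => p s.2) (fun s => p s.2)
        (trF (fun g => C.Φ (φ g)) 1 (1 + x)) := fun x hx => by
    rw [Tm_trF]
    exact ((cn_pm1 isPm_one fun _ => rfl).mono h0).add
      (cn_trM hx fun g hg a b k => C.Φ_cl _ hg a b k)
  have dΦ := fun {x : (OC ρ).Hom I I} (hx : Sup (fun g => φ g ∈ S) x) =>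
    trF_comm (d := C.d) (Φ := fun g => C.Φ (φ g)) (fun g hg => C.dΦ _ hg) sup_one (s1 hx)
  have cd : Cn (sg φ Ω) ε (I := tn I B) (J := tn I B) (fun s => p s.2) (fun s => p s.2)
      (trM (fun _ => C.d) (1 : (OC ρ).Hom I I)) :=
    cn_trM sup_one fun _ k a b k' => by
      have := C.d_cl a b k'
      rw [← map_one φ, ← k] at this
      exact this
  obtain ⟨A, A', a1, a2, a3⟩ := cone D hu (I := tn I B) (c := fun s => C.dg s.2)
    (d := trM (fun _ => C.d) 1) (j := trM (fun g => C.J (φ g)) x) (fun s => C.dg_le s.2)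
    (by rw [trM_const, C.dd, trM_zero']) (dΦ hx) (dΦ hy) (sub_eq_iff_eq_add'.2 e1)
    (sub_eq_iff_eq_add'.2 e2) (by rw [Tm_trF, add_sub_add_left_eq_sub, e3, add_sub_cancel_left])
    (inv x y e) (inv y x e')
    (by rw [trM_const, Matrix.vecMulVec_mul, C.vd, Matrix.vecMulVec_zero, trM_zero'])
    (by rw [trM_const, Matrix.mul_vecMulVec, du, Matrix.zero_vecMulVec, trM_zero'])
    (Tm_deg (fun _ a b k => by rw [← C.d_dg a b k]; push_cast; ring) _) (gΦ x) (gΦ y) gh gk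
    (Tm_deg (fun _ a b k => by rw [C.J_dg _ a b k]; rfl) _)
    (bot x) (bot y) h0 cd (cΦ x hx) (cΦ y hy) ch ck
  exact ⟨A, A', a1, a2, fun t => Tm_rank C.vu D (a3 t)⟩

/-- the copies of an object with the labels of the basis -/
def ltn (I : Ob X) {B : Type} [Fintype B] (p : B → Ω → ℝ) : LOb X Ω :=
  ⟨tn I B, fun s => p s.2, (Set.finite_range p).subset fun _ ⟨s, h⟩ => ⟨s.2, h⟩⟩

theorem sfi_core {Good : Subgroup Q → Prop} (h : CDat Q Good) (φ : K →* Q) (ρ : K →* Equiv.Perm X)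
    (hK : ∀ L : Subgroup K, φ.ker ≤ L → Good (L.map φ) → VZ (ρ.comp L.subtype)) : SFI (OC ρ) := by
  classical
  intro I E hE
  refine Lau.Tr.sf (Λ := lauO ρ) hE fun _ => ?_
  have e := Lau.std_inv (Λ := lauO ρ) hE (neg_add_cancel 1)
  have e' := Lau.std_inv (Λ := lauO ρ) hE (add_neg_cancel 1)
  generalize (lauO ρ).zz I 1 * (lauO ρ).cst E + (lauO ρ).cst (1 - E) = u at e e' ⊢
  generalize (lauO ρ).zz I (-1) * (lauO ρ).cst E + (lauO ρ).cst (1 - E) = u' at e e'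
  obtain ⟨y, rfl⟩ : ∃ y, u = 1 + y := ⟨u - 1, (add_sub_cancel _ _).symm⟩
  obtain ⟨x, rfl⟩ : ∃ x, u' = 1 + x := ⟨u' - 1, (add_sub_cancel _ _).symm⟩
  obtain ⟨s, hx⟩ := exists_sup_finset x
  obtain ⟨t, hy⟩ := exists_sup_finset y
  obtain ⟨N, Ω, _, B, _, _, p, hC, hp⟩ :=
    exists_seq h ((s ∪ t).image (φ.comp (MonoidHom.fst K (Multiplicative ℤ))))
  obtain ⟨𝒜, hG, hA⟩ := exists_gv (Ω := Ω) φ ρ hK N
  choose A A' a1 a2 a3 using fun m => ktransfer (hC m).some (by positivity)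
    (φ.comp (MonoidHom.fst K (Multiplicative ℤ))) (lauO ρ).kt tr_one
    (hx.mono fun g k => Finset.mem_image_of_mem _ (Finset.mem_union_left _ k))
    (hy.mono fun g k => Finset.mem_image_of_mem _ (Finset.mem_union_right _ k)) e e'
  obtain ⟨m, hm⟩ := (ev_tr (clau ρ (sg φ Ω)) hG.sfi (a := fun m => ltn I (p m) + ltn I (p m))
    (fun n => lev_wo _ n (hA _ fun m => Sum.rec (fun s => hp m s.2) fun s => hp m s.2))
    (w := A) (w' := A') (fun m => (a1 m).1) (fun m => (a1 m).2)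
    (Cs.sm_of_div _ (.of_forall fun m => (a2 m).1))
    (Cs.sm_of_div _ (.of_forall fun m => (a2 m).2))).exists
  exact a3 m (tr_fgt hm)

end Pool.Agent.Work.MP_9d1ffa_al.Ct.LL
end

-- merged part: Pool.Agent.Work.MP_9d1ffa_al.LL.Tl
section
/-! The transfer for quadratic forms. -/

set_option linter.unusedSectionVars false
set_option linter.unusedVariables false

namespace Pool.Agent.Work.MP_9d1ffa_al.Ct.LL

open Filter WL

/-- it suffices to consider forms on doubles -/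
theorem van0_of_double {O : Type 1} [Add O] [Zero O] {𝒞 : SCat O} {ε : ℤˣ}
    (ha : ∀ a : O, ∃ (b : O) (u : 𝒞.Hom b (a + b)), Unt u)
    (h : ∀ (b : O) (ψ : 𝒞.Hom (b + b) (b + b)), NS ε ψ → Z ε ψ) : Van0 𝒞 ε := fun a ψ hψ => by
  obtain ⟨b, u, hu⟩ := ha a
  have w : Unt (fromBlocks u 0 0 (1 : 𝒞.Hom b b) * (sAssoc 𝒞 a b b).ct) :=
    (hu.sum unt_one).mul unt_assoc.ct
  have e := iso_unt (ε := ε) (fromBlocks ψ 0 0 (hypF 𝒞 b)) w
  exact (Z.iso e.symm (h b _ ((hψ.sum ns_hyp).iso e))).cancel (z_hyp b)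

variable {X Ω K Q B : Type} [Group K] [Group Q] [MulAction Q Ω] [Fintype B] [DecidableEq B]
  {ρ : K →* Equiv.Perm X} {I : Ob X} {ε : ℤˣ} {Φ : K → Matrix B B ℤ} {μ : Matrix B B ℤ}

theorem trF_ct (h : ∀ g, (Φ g⁻¹).transpose * μ = μ * Φ g) (x₀ x : (OC ρ).Hom I I) :
    (trF Φ x₀ x).ct * trM (fun _ => μ) 1 = trM (fun _ => μ) 1 * trF Φ x₀.ct x.ct := by
  rw [trF, trF, conjTranspose_add, Hm.add_mul, Hm.mul_add, trM_ct, trM_ct, trM_right sup_one,
    trM_left sup_one, trM_const, trM_const, conjTranspose_sub]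
  simp only [h, Hm.mul_one, Hm.one_mul, Matrix.transpose_one, Matrix.mul_one, Matrix.one_mul]

theorem tc_ct (E : Matrix B B ℤ) :
    (trM (fun _ => E) (1 : (OC ρ).Hom I I)).ct = trM (fun _ => E.transpose) 1 := by
  rw [trM_ct, conjTranspose_one]

theorem tc_mul (E F : Matrix B B ℤ) :
    trM (fun _ => E) (1 : (OC ρ).Hom I I) * trM (fun _ => F) (1 : (OC ρ).Hom I I) =
      trM (fun _ => E * F) 1 := by rw [trM_const, Hm.mul_one]

theorem trF_sy (h : ∀ g, (Φ g⁻¹).transpose * μ = μ * Φ g) (hμ : μ.transpose = μ)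
    (x₀ x : (OC ρ).Hom I I) : sy ε (trM (fun _ => μ) 1 * trF Φ x₀ x) =
      trM (fun _ => μ) 1 * trF Φ (sy ε x₀) (sy ε x) := by
  rw [sy, conjTranspose_mul, tc_ct, hμ, trF_ct h, ← Hm.mul_smul, ← Hm.mul_add, trF, trF, trF, sy, sy,
    add_sub_add_comm, ← smul_sub, trM_add, trM_add, trM_zsmul, trM_zsmul, smul_add]
  congr 1
  abel

theorem cn_trF {σ : K →* Equiv.Perm Ω} {η : ℝ} {p : B → Ω → ℝ} {T : K → Prop} (h0 : 0 ≤ η)
    (h : ∀ g, T g → ∀ a b, Φ g a b ≠ 0 → Cl η (σ g) (p b) (p a)) {x₀ x : (OC ρ).Hom I I}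
    (h₀ : Sup (· = 1) x₀) (hx : Sup T (x - x₀)) :
    Cn σ η (I := tn I B) (J := tn I B) (fun s => p s.2) (fun s => p s.2) (trF Φ x₀ x) :=
  (cn_trM hx h).add (cn_trM h₀ fun g e a b k => by
    obtain rfl : a = b := by_contra fun n => k (Matrix.one_apply_ne n)
    rw [e, map_one]
    exact cl_rfl h0 _)

/-- the transfer of a form at one level -/
theorem ltransfer {S : Finset Q} {η : ℝ} {p : B → Ω → ℝ} (C : SD B S η p) (h0 : 0 ≤ η) (φ : K →* Q)
    {ψ ν ψ₀ : (OC ρ).Hom I I} (h1 : sy ε ψ * ν = 1) (h2 : ν * sy ε ψ = 1) (s₀ : Sup (· = 1) ψ₀)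
    (k1 : ψ₀ * ψ₀ = 0) (k2 : ψ₀ * ψ₀.ct + ψ₀.ct * ψ₀ = 1)
    (s1 : Sup (fun g => φ g ∈ S) (ψ - ψ₀)) (s2 : Sup (fun g => φ g ∈ S) (sy ε ψ - sy ε ψ₀))
    (s3 : Sup (fun g => φ g ∈ S) (ν - (ψ₀.ct + (ε : ℤ) • ψ₀))) :
    ∃ d θ g h k : (OC ρ).Hom (tn I B) (tn I B),
      (d * d = 0 ∧ θ * d = d.ct * θ ∧ d * g = g * d.ct ∧ g * sy ε θ = 1 + d * h + h * d ∧
        sy ε θ * g = 1 + d.ct * k + k * d.ct) ∧
      (∀ x ∈ [d, θ, g, h, k], Cn (sg φ Ω) (3 * η) (I := tn I B) (J := tn I B) (fun s => p s.2)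
        (fun s => p s.2) x) ∧
      (SFI (OC ρ) → SL ε (fromBlocks θ d.ct 0 (0 : (OC ρ).Hom (tn I B) (tn I B))) → Z ε ψ) := by
  have t1 : Sup (· = 1) ψ₀.ct := BFil_sup_ct s₀
  have t2 : Sup (· = 1) (sy ε ψ₀) := s₀.add (t1.zsmul _)
  have t3 : Sup (· = 1) (ψ₀.ct + (ε : ℤ) • ψ₀) := t1.add (s₀.zsmul _)
  have k3 : ψ₀.ct * ψ₀.ct = 0 := by rw [← conjTranspose_mul, k1, conjTranspose_zero]
  have k4 : sy ε ψ₀ * (ψ₀.ct + (ε : ℤ) • ψ₀) = 1 := by
    simp only [sy, Hm.add_mul, Hm.mul_add, Hm.mul_smul, Hm.smul_mul, k1, k3, eps_eps, smul_zero,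
      add_zero, zero_add, smul_add, k2]
  have k5 : (ψ₀.ct + (ε : ℤ) • ψ₀) * sy ε ψ₀ = 1 := by
    simp only [sy, Hm.add_mul, Hm.mul_add, Hm.mul_smul, Hm.smul_mul, k1, k3, eps_eps, smul_zero,
      add_zero, zero_add, smul_add]
    rw [add_comm, k2]
  have hΦ : ∀ g : K, (C.Φ (φ g⁻¹)).transpose * C.μ = C.μ * C.Φ (φ g) := fun g => by
    rw [map_inv, C.Φμ]
  have H := fun {x₀ y₀ x y : (OC ρ).Hom I I} => trF_mul (x₀ := x₀) (y₀ := y₀) (x := x) (y := y)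
    (T := fun g => φ g ∈ S) (d := C.d) (Φ := fun g => C.Φ (φ g)) (H := fun g h => C.H (φ g) (φ h))
    (fun g hg h hh => by rw [map_mul]; exact C.dH _ hg _ hh)
    (P := Cn (sg φ Ω) η (I := tn I B) (J := tn I B) (fun s => p s.2) fun s => p s.2) cn_zero
    (fun _ _ => Cn.add) fun g hg h hh z hz => cn_trM hz fun _ e a b k => by
      rw [e]
      change Cl η (φ (g * h)) _ _
      rw [map_mul]
      exact C.H_cl _ hg _ hh a b k
  obtain ⟨h, e1, ch⟩ := H t3 t2 s3 s2 k5 h2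
  obtain ⟨k, e2, ck⟩ := H t2 t3 s2 s3 k4 h1
  have c1 : ∀ E : Matrix B B ℤ, (∀ a b, E a b ≠ 0 → Cl η (1 : Q) (p b) (p a)) →
      Cn (sg φ Ω) η (I := tn I B) (J := tn I B) (fun s => p s.2) (fun s => p s.2)
        (trM (fun _ => E) (1 : (OC ρ).Hom I I)) := fun E hE => cn_trM sup_one fun g e a b k => by
    rw [e, map_one]
    exact fun ω => by simpa using hE a b k ω
  have cF := fun {x₀ x : (OC ρ).Hom I I} => cn_trF (x₀ := x₀) (x := x) (σ := sg φ Ω) (p := p)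
    (Φ := fun g => C.Φ (φ g)) (T := fun g => φ g ∈ S) h0 fun g hg => C.Φ_cl _ hg
  have dF := fun {x₀ x : (OC ρ).Hom I I} => trF_comm (x₀ := x₀) (x := x) (d := C.d)
    (Φ := fun g => C.Φ (φ g)) (T := fun g => φ g ∈ S) fun g hg => C.dΦ _ hg
  have cμ := c1 _ C.μ_cl
  have m1 : (trM (fun _ => C.μ) (1 : (OC ρ).Hom I I)).ct = trM (fun _ => C.μ) 1 := by
    rw [tc_ct, C.μT]
  have m2 : trM (fun _ => C.μ) (1 : (OC ρ).Hom I I) * trM (fun _ => C.μ) (1 : (OC ρ).Hom I I) = 1 := by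
    rw [tc_mul, C.μμ, trM_one]
  have m3 : (trM (fun _ => C.d) (1 : (OC ρ).Hom I I)).ct * trM (fun _ => C.μ) (1 : (OC ρ).Hom I I) =
      trM (fun _ => C.μ) (1 : (OC ρ).Hom I I) * trM (fun _ => C.d) (1 : (OC ρ).Hom I I) := by
    rw [tc_ct, tc_mul, tc_mul, C.dμ]
  have dd : trM (fun _ => C.d) (1 : (OC ρ).Hom I I) * trM (fun _ => C.d) (1 : (OC ρ).Hom I I) = 0 := by
    rw [tc_mul, C.dd, trM_zero']
  have sθ := trF_sy (ε := ε) (Φ := fun g => C.Φ (φ g)) hΦ C.μT ψ₀ ψ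
  have eJ := trM_htpy (T := fun g => φ g ∈ S) (d := C.d) (Φ := fun g => C.Φ (φ g))
    (Jh := fun g => C.J (φ g)) (fun g hg => C.dJ _ hg) s1
  refine ⟨trM (fun _ => C.d) 1, trM (fun _ => C.μ) 1 * trF (fun g => C.Φ (φ g)) ψ₀ ψ,
    trF (fun g => C.Φ (φ g)) (ψ₀.ct + (ε : ℤ) • ψ₀) ν * trM (fun _ => C.μ) 1, h,
    trM (fun _ => C.μ) 1 * k * trM (fun _ => C.μ) 1, ?_, ?_, fun hS hL => ?_⟩
  · have d1 := dF s₀ s1
    have d3 := dF t3 s3
    rw [sθ]
    generalize trM (fun _ => C.d) (1 : (OC ρ).Hom I I) = d at *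
    generalize trM (fun _ => C.μ) (1 : (OC ρ).Hom I I) = m at *
    have m4 : d * m = m * d.ct := by
      rw [← Hm.one_mul (d * m), ← m2, Hm.mul_assoc, ← Hm.mul_assoc m d, ← m3, Hm.mul_assoc d.ct, m2,
        Hm.mul_one]
    refine ⟨dd, ?_, ?_, ?_, ?_⟩
    · rw [Hm.mul_assoc, ← d1, ← Hm.mul_assoc, ← m3, Hm.mul_assoc]
    · rw [← Hm.mul_assoc, d3, Hm.mul_assoc, m4, Hm.mul_assoc]
    · rw [Hm.mul_assoc, ← Hm.mul_assoc m, m2, Hm.one_mul, e1, add_assoc]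
    · rw [Hm.mul_assoc, ← Hm.mul_assoc _ _ m, e2, Hm.add_mul, Hm.add_mul, Hm.mul_add, Hm.mul_add,
        Hm.one_mul, m2, add_assoc, Hm.mul_assoc k, m4]
      simp only [← Hm.mul_assoc, m3]
  · simp only [List.mem_cons, List.not_mem_nil, or_false, forall_eq_or_imp, forall_eq]
    exact ⟨(c1 _ C.d_cl).mono (by linarith), (cμ.mul (cF s₀ s1)).mono (by linarith),
      ((cF t3 s3).mul cμ).mono (by linarith), ch.mono (by linarith),
      ((cμ.mul ck).mul cμ).mono (by linarith)⟩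
  · have U := unt_tU (ρ := ρ) I
    have r1 : ∀ (a : B → ℤ) (E : Matrix B B ℤ) (x : (OC ρ).Hom I I),
        (tU ρ I).ct * trM (fun _ => Matrix.replicateRow Unit a) (1 : (OC ρ).Hom I I) * trM (fun _ => E) x =
          x * ((tU ρ I).ct * trM (fun _ => Matrix.replicateRow Unit (Matrix.vecMul a E)) (1 : (OC ρ).Hom I I)) :=
      fun a E x => by
        have e : (tU ρ I).ct * trM (fun _ => (1 : Matrix Unit Unit ℤ)) x = x * (tU ρ I).ct := by
          rw [← tU_conj, ← Hm.mul_assoc, ← Hm.mul_assoc, U.2, Hm.one_mul]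
        rw [Hm.mul_assoc, trM_const, ← Hm.mul_assoc x, ← e, Hm.mul_assoc, trM_const, Matrix.one_mul,
          Matrix.replicateRow_vecMul, Hm.one_mul, Hm.mul_one]
    have r2 : ∀ (a b : B → ℤ) (x : (OC ρ).Hom I I),
        ((tU ρ I).ct * trM (fun _ => Matrix.replicateRow Unit a) (1 : (OC ρ).Hom I I)).ct * x *
          ((tU ρ I).ct * trM (fun _ => Matrix.replicateRow Unit b) (1 : (OC ρ).Hom I I)) =
          trM (fun _ => Matrix.vecMulVec a b) x := fun a b x => by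
      rw [conjTranspose_mul, conjTranspose_conjTranspose, ← Hm.mul_assoc, Hm.mul_assoc _ (tU ρ I),
        Hm.mul_assoc _ (tU ρ I * x), tU_conj, trM_ct, conjTranspose_one, trM_const, trM_const,
        Matrix.mul_one, Hm.one_mul, Hm.mul_one, Matrix.transpose_replicateRow,
        Matrix.vecMulVec_eq Unit]
    have uμ : Matrix.vecMul C.u C.μ = C.v := by rw [← C.μT, Matrix.vecMul_transpose, C.μu]
    have a1 := r1 C.u 1 ψ₀
    have a2 := congrArg SCat.Hom.ct (r1 C.u 1 ψ₀.ct)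
    rw [Matrix.vecMul_one] at a1 a2
    rw [conjTranspose_mul, conjTranspose_mul ψ₀.ct, trM_ct, Matrix.transpose_one,
      conjTranspose_conjTranspose] at a2
    refine z_of_tr hS (OL0_ns h1 h2) (ψ₀ := ψ₀) (d := trM (fun _ => C.d) 1)
      (u := (tU ρ I).ct * trM (fun _ => Matrix.replicateRow Unit C.u) (1 : (OC ρ).Hom I I))
      (w := (tU ρ I).ct * trM (fun _ => Matrix.replicateRow Unit C.v) (1 : (OC ρ).Hom I I))
      (H := trM (fun _ => 1) ψ₀) (j := trM (fun _ => C.μ) (1 : (OC ρ).Hom I I) * trM (fun g => C.J (φ g)) (ψ - ψ₀))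
      m1 m2 (by rw [r1, uμ, Hm.one_mul]) ?_ (by rw [trM_const, k1, trM_zero]) ?_ ?_ a1 a2 dd ?_ m3
      ?_ ?_
    · rw [conjTranspose_mul, conjTranspose_conjTranspose, trM_ct, conjTranspose_one, Hm.mul_assoc,
        ← Hm.mul_assoc (trM _ _), trM_const, Hm.mul_one, Matrix.transpose_replicateRow,
        Matrix.replicateRow_mul_replicateCol, dotProduct_comm, C.vu,
        show (Matrix.of fun (_ _ : Unit) => (1 : ℤ)) = 1 from rfl, trM_one, Hm.one_mul, U.2]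
    · rw [trM_ct, Matrix.transpose_one, trM_const, trM_const, ← trM_add, k2, Matrix.mul_one, trM_one]
    · rw [trM_const, trM_const, Matrix.mul_one, Matrix.one_mul, Hm.mul_one, Hm.one_mul]
    · rw [r1, C.vd, Matrix.replicateRow_zero, trM_zero', Hm.mul_zero, Hm.mul_zero]
    · rw [trM_const, trM_const, Matrix.mul_one, Matrix.one_mul, Hm.mul_one, Hm.one_mul]
    · convert hL using 2
      rw [r2, trF, eJ, Hm.mul_add, Hm.mul_add, Hm.mul_add, trM_const (x := 1) (y := ψ - ψ₀),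
        Matrix.mul_vecMulVec, C.μu, Hm.one_mul, ← Hm.mul_assoc, ← Hm.mul_assoc, ← Hm.mul_assoc, m3]
      abel

theorem van0_core {Good : Subgroup Q → Prop} (hG : FIc Good) (h : CDat Q Good) (φ : K →* Q)
    (ρ : K →* Equiv.Perm X)
    (hK : ∀ L : Subgroup K, φ.ker ≤ L → Good (L.map φ) → VZ (ρ.comp L.subtype)) (hS : SFI (OC ρ))
    (ε : ℤˣ) : Van0 (OC ρ) ε := by
  classical
  refine van0_of_double (fun a => ⟨_, _, unt_swU id a⟩) fun b ψ hψ => ?_
  obtain ⟨ν, h1, h2⟩ := hψ.inv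
  obtain ⟨T₁, s1⟩ := exists_sup_finset (ψ - hypF (OC ρ) b)
  obtain ⟨T₂, s2⟩ := exists_sup_finset (sy ε ψ - sy ε (hypF (OC ρ) b))
  obtain ⟨T₃, s3⟩ := exists_sup_finset (ν - ((hypF (OC ρ) b).ct + (ε : ℤ) • hypF (OC ρ) b))
  obtain ⟨S', hS'⟩ := exists_sd ((T₁ ∪ T₂ ∪ T₃).image φ)
  obtain ⟨N, Ω, _, B, _, _, p, hC, hp⟩ := exists_seq h S'
  have pos : ∀ m : ℕ, (0 : ℝ) ≤ 1 / ((m : ℝ) + 1) := fun m => Nat.one_div_pos_of_nat.le
  choose d θ g hh k e c z using fun m : ℕ => ltransfer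
    (hS' Ω (B m) N _ (p m) (pos m) (hC m).some).some (mul_nonneg zero_le_two (pos m)) φ h1 h2
    (ψ₀ := hypF (OC ρ) b) (sup_fromBlocks.2 ⟨sup_zero, sup_one, sup_zero, sup_zero⟩)
    (by simp [hypF, fromBlocks_multiply])
    (by simp [hypF, fromBlocks_multiply, fromBlocks_conjTranspose, fromBlocks_add])
    (s1.mono fun _ y => Finset.mem_image_of_mem _
      (Finset.mem_union_left _ (Finset.mem_union_left _ y)))
    (s2.mono fun _ y => Finset.mem_image_of_mem _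
      (Finset.mem_union_left _ (Finset.mem_union_right _ y)))
    (s3.mono fun _ y => Finset.mem_image_of_mem _ (Finset.mem_union_right _ y))
  obtain ⟨𝒜, hV, hA⟩ := exists_gv (Ω := Ω) φ ρ hK (2 * N + 1)
  let a : (lev X 𝒜).T := ⟨fun m => ltn (b + b) fun s : B m × B m => fun ω =>
    max (p m s.1 ω) (p m s.2 ω), hA _ fun m i => pos_max hG (hp m _) (hp m _)⟩
  have sm : ∀ x : ∀ m, (LC ρ Ω).Hom (a.1 m) (a.1 m), (∀ m, x m ∈ [d m, θ m, g m, hh m, k m]) →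
      (cs ρ (sg φ Ω)).Sm x := fun x hx => Cs.sm_of_div 6 (.of_forall fun m =>
    (c m _ (hx m)).mono (le_of_eq (by ring)))
  have rd := rp_gm (sm d fun _ => .head _)
  have rθ := rp_gm (sm θ fun _ => .tail _ (.head _))
  have rg := rp_gm (sm g fun _ => .tail _ (.tail _ (.head _)))
  have rh := rp_gm (sm hh fun _ => .tail _ (.tail _ (.tail _ (.head _))))
  have rk := rp_gm (sm k fun _ => .tail _ (.tail _ (.tail _ (.tail _ (.head _)))))
  have R := rf_chain (𝒞 := GC ρ (sg φ Ω) 𝒜) (D := a) (ε := ε)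
    ((rd.mul rd).ext Rp.zero fun m => (e m).1)
    ((rθ.mul rd).ext (rd.ct.mul rθ) fun m => (e m).2.1)
    ((rd.mul rg).ext (rg.mul rd.ct) fun m => (e m).2.2.1)
    ((rg.mul (rθ.sy ε)).ext ((Rp.one.add (rd.mul rh)).add (rh.mul rd)) fun m => (e m).2.2.2.1)
    (((rθ.sy ε).mul rg).ext ((Rp.one.add (rd.ct.mul rk)).add (rk.mul rd.ct))
      fun m => (e m).2.2.2.2)
  obtain ⟨m, hm⟩ := (ev_sl (a := a + a) (Rp.blocks rθ rd.ct Rp.zero Rp.zero)
    (sl_of_rf hV.sfi (hV.van0 ε) R)).exists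
  exact z m hS (hm.map (fgt ρ Ω))

theorem coreZ : CoreZ := fun Q _ Good hG h K X _ φ ρ hK =>
  have hS := sfi_core h φ ρ hK
  ⟨hS, van0_core hG h φ ρ hK hS⟩

end Pool.Agent.Work.MP_9d1ffa_al.Ct.LL
end

-- merged part: Pool.Agent.Work.MP_9d1ffa_al.LL.AbD
section
/-! Virtually cyclic groups and the infinite dihedral group. -/

namespace Pool.Agent.Work.MP_9d1ffa_al.Ct.LL

open Function

variable {V L Γ : Type} [Group V] [Group L] [Group Γ]

/-- an action on the integers by isometries -/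
structure Dh (V : Type) [Group V] where
  σ : V →* ℤˣ
  c : V → ℤ
  mul : ∀ g h, c (g * h) = c g + σ g * c h

namespace Dh

variable (D : Dh V)

theorem one : D.c 1 = 0 := by simpa using D.mul 1 1

theorem inv (g : V) : D.c g⁻¹ = -(D.σ g * D.c g) := by
  have := D.mul g⁻¹ g
  rw [inv_mul_cancel, D.one, map_inv, Int.units_inv_eq_self] at this
  omega

/-- the pull back -/
def comp (φ : L →* V) : Dh L :=
  ⟨D.σ.comp φ, fun g => D.c (φ g), fun g h => by rw [map_mul, D.mul]; rfl⟩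

/-- the stabiliser of the point `m / 2` -/
def St (m : ℤ) : Subgroup V where
  carrier := {g | 2 * D.c g + D.σ g * m = m}
  mul_mem' := fun {g h} k k' => by
    change 2 * D.c (g * h) + D.σ (g * h) * m = m
    replace k : 2 * D.c g + D.σ g * m = m := k
    replace k' : 2 * D.c h + D.σ h * m = m := k'
    rw [D.mul, map_mul, Units.val_mul]
    linear_combination k + D.σ g * k'
  one_mem' := by simp [D.one]
  inv_mem' := fun {g} k => by
    change 2 * D.c g⁻¹ + D.σ g⁻¹ * m = m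
    rw [D.inv, map_inv, Int.units_inv_eq_self]
    replace k : 2 * D.c g + D.σ g * m = m := k
    rcases Int.units_eq_one_or (D.σ g) with e | e <;> rw [e] at k ⊢ <;> simp at k ⊢ <;> omega

theorem mem_St {m : ℤ} {g : V} : g ∈ D.St m ↔ 2 * D.c g + D.σ g * m = m := Iff.rfl

theorem zpow {t : V} (h1 : D.σ t = 1) (h2 : D.c t = 1) (n : ℤ) : D.c (t ^ n) = n := by
  induction n using Int.induction_on with
  | zero => simpa using D.one
  | succ n ih => rw [zpow_add_one, D.mul, ih, map_zpow, h1, h2]; simp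
  | pred n ih => rw [zpow_sub_one, D.mul, ih, map_zpow, D.inv, h1, h2]; simp [sub_eq_add_neg]

theorem univ₀ {a b : V} (ha : D.σ a = -1 ∧ D.c a = 0) (hb : D.σ b = -1 ∧ D.c b = 1) (α β : V → Γ)
    (hα : ∀ x y, D.c x = 0 → D.c y = 0 → α (x * y) = α x * α y)
    (hβ : ∀ x y, x ∈ D.St 1 → y ∈ D.St 1 → β (x * y) = β x * β y)
    (e : ∀ x, D.σ x = 1 → D.c x = 0 → α x = β x) :
    ∃ s : V →* Γ, ∀ g, s g = (β b * α a) ^ D.c g * α ((b * a) ^ (-D.c g) * g) := by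
  have b1 : b ∈ D.St 1 := by simp [mem_St, hb.1, hb.2]
  have n1 : ∀ x, D.σ x = 1 → D.c x = 0 → x ∈ D.St 1 := fun x h h' => by simp [mem_St, h, h']
  have t1 : D.σ (b * a) = 1 := by simp [ha.1, hb.1]
  have t2 : D.c (b * a) = 1 := by simp [D.mul, ha.2, hb.2]
  have k1 : ∀ x y, D.c x = 0 → D.c y = 0 → x * (b * a) = (b * a) ^ (D.σ x : ℤ) * y →
      α x * (β b * α a) = (β b * α a) ^ (D.σ x : ℤ) * α y := fun x y hx hy k => by
    rcases Int.units_eq_one_or (D.σ x) with h | h <;> rw [h] at k ⊢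
    · have s1 : D.σ (b⁻¹ * x * b) = 1 := by simp [h, hb.1]
      have s2 : D.c (b⁻¹ * x * b) = 0 := by simp [D.mul, D.inv, h, hx, hb.1, hb.2]
      have e1 := hβ _ _ b1 (n1 _ s1 s2)
      have e2 := hα _ _ s2 ha.2
      rw [show b * (b⁻¹ * x * b) = x * b by group, hβ _ _ (n1 _ h hx) b1, ← e _ h hx,
        ← e _ s1 s2] at e1
      rw [Units.val_one, zpow_one] at k ⊢
      rw [mul_assoc, mul_assoc, ← mul_assoc x, mul_assoc x, k, mul_assoc, inv_mul_cancel_left,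
        hα _ _ ha.2 hy] at e2
      rw [← mul_assoc, e1, mul_assoc, ← e2, mul_assoc]
    · have s1 : D.σ (a * x) = 1 := by simp [h, ha.1]
      have s2 : D.c (a * x) = 0 := by simp [D.mul, hx, ha.2]
      have s3 : D.σ (b * (a * x) * b) = 1 := by simp [s1, hb.1]
      have s4 : D.c (b * (a * x) * b) = 0 := by
        rw [D.mul, D.mul, map_mul, s1, s2, hb.1, hb.2]
        simp
      rw [Units.val_neg, Units.val_one, zpow_neg_one, eq_inv_mul_iff_mul_eq] at k ⊢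
      rw [← k, show b * a * (x * (b * a)) = b * (a * x) * b * a by group, hα _ _ s4 ha.2,
        e _ s3 s4, hβ _ _ (mul_mem b1 (n1 _ s1 s2)) b1, hβ _ _ b1 (n1 _ s1 s2), ← e _ s1 s2,
        hα _ _ ha.2 hx]
      simp only [mul_assoc]
  generalize b * a = t at k1 t1 t2
  generalize β b * α a = τ at k1
  have c1 : ∀ (k l : ℤ) x, D.c (t ^ k * x * t ^ l) = k + D.c x + D.σ x * l := fun k l x => by
    simp [D.mul, D.zpow t1 t2, t1]
  have c2 : ∀ (k l : ℤ) x, D.σ (t ^ k * x * t ^ l) = D.σ x := fun k l x => by simp [t1]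
  have k2 : ∀ (l : ℤ) x, D.c x = 0 →
      α x * τ ^ l = τ ^ (D.σ x * l) * α (t ^ (-(D.σ x * l)) * x * t ^ l) := fun l x hx => by
    induction l using Int.induction_on with
    | zero => simp
    | succ l ih =>
      have := k1 (t ^ (-(D.σ x * (l : ℤ))) * x * t ^ (l : ℤ))
        (t ^ (-(D.σ x * (l + 1 : ℤ))) * x * t ^ (l + 1 : ℤ))
        (by rw [c1, hx]; ring) (by rw [c1, hx]; ring) (by rw [c2]; group)
      rw [zpow_add_one, ← mul_assoc, ih, mul_assoc, this, c2, ← mul_assoc, ← zpow_add, mul_add,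
        mul_one, zpow_add_one]
    | pred l ih =>
      have := k1 (t ^ (-(D.σ x * (-l - 1 : ℤ))) * x * t ^ (-l - 1 : ℤ))
        (t ^ (-(D.σ x * (-l : ℤ))) * x * t ^ (-l : ℤ))
        (by rw [c1, hx]; ring) (by rw [c1, hx]; ring) (by rw [c2]; group)
      rw [zpow_sub_one τ, ← mul_assoc, ih, mul_inv_eq_iff_eq_mul, mul_assoc (τ ^ _), this, c2,
        ← mul_assoc, ← zpow_add]
      congr 2
      ring
  have c3 : ∀ g, D.c (t ^ (-D.c g) * g) = 0 := fun g => by simp [D.mul, D.zpow t1 t2, t1, D.inv]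
  refine ⟨MonoidHom.mk' (fun g => τ ^ D.c g * α (t ^ (-D.c g) * g)) fun g h => ?_, fun _ => rfl⟩
  have c4 : D.σ (t ^ (-D.c g) * g) = D.σ g := by simp [t1]
  rw [mul_assoc, ← mul_assoc (α _), k2 _ _ (c3 g), c4, mul_assoc, ← hα _ _ (by
    rw [c1, c3, c4]; ring) (c3 h), ← mul_assoc (τ ^ _), ← zpow_add, D.mul]
  congr 2
  group

/-- the group is an amalgamated free product of the stabilisers of two points -/
theorem univ {a b : V} (ha : D.σ a = -1 ∧ D.c a = 0) (hb : D.σ b = -1 ∧ D.c b = 1)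
    (α : D.St 0 →* Γ) (β : D.St 1 →* Γ) (e : ∀ x h0 h1, α ⟨x, h0⟩ = β ⟨x, h1⟩) :
    ∃ s : V →* Γ, ∀ r : Γ →* V, (∀ x, r (α x) = x) → (∀ x, r (β x) = x) → ∀ g, r (s g) = g := by
  classical
  have m : ∀ x, D.c x = 0 → x ∈ D.St 0 := fun x h => by simp [mem_St, h]
  have b1 : b ∈ D.St 1 := by simp [mem_St, hb.1, hb.2]
  obtain ⟨s, hs⟩ := D.univ₀ ha hb (fun x => if h : x ∈ D.St 0 then α ⟨x, h⟩ else 1)
    (fun x => if h : x ∈ D.St 1 then β ⟨x, h⟩ else 1)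
    (fun x y hx hy => by
      rw [dif_pos (m x hx), dif_pos (m y hy), dif_pos (mul_mem (m x hx) (m y hy)), ← map_mul]
      rfl)
    (fun x y hx hy => by
      rw [dif_pos hx, dif_pos hy, dif_pos (mul_mem hx hy), ← map_mul]
      rfl)
    fun x h h' => by
      rw [dif_pos (m x h'), dif_pos (show x ∈ D.St 1 by simp [mem_St, h, h'])]
      exact e ..
  refine ⟨s, fun r h1 h2 g => ?_⟩
  have t1 : D.σ (b * a) = 1 := by simp [ha.1, hb.1]
  have t2 : D.c (b * a) = 1 := by simp [D.mul, ha.2, hb.2]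
  rw [hs, dif_pos b1, dif_pos (m a ha.2), dif_pos (m _ (by
    rw [D.mul, D.zpow t1 t2, map_zpow, t1]; simp)), map_mul, map_zpow, map_mul, h1, h1, h2]
  simp

end Dh

theorem exists_dh (A : Subgroup V) [A.Normal] [A.FiniteIndex] (θ : A →* Multiplicative ℤ)
    (hθ : Injective θ) {z : A} (hz : z ≠ 1) :
    ∃ D : Dh V, ∀ x : A, D.σ x = 1 ∧ (D.c x = 0 → x = 1) := by
  have := isCyclic_of_injective θ hθ
  have z0 : (θ z).toAdd ≠ 0 := fun e => hz (hθ (e.trans (map_one θ).symm))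
  choose u hu using fun g : V => MonoidHom.map_cyclic (MulAut.conjNormal (H := A) g).toMonoidHom
  have hv : ∀ g x, (θ (MulAut.conjNormal g x)).toAdd = u g * (θ x).toAdd := fun g x => by
    rw [show MulAut.conjNormal g x = _ from hu g x, map_zpow, toAdd_zpow, smul_eq_mul]
  have u1 : ∀ x : A, u x = 1 := fun x => mul_right_cancel₀ z0 (by
    rw [← hv, show MulAut.conjNormal (x : V) z = x * z * x⁻¹ from Subtype.ext (by simp)]
    simp)
  let σ : V →* ℤˣ := MonoidHom.toHomUnits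
    { toFun := u
      map_one' := u1 1
      map_mul' := fun g h => mul_right_cancel₀ z0 (by
        rw [← hv, map_mul, MulAut.mul_apply, hv, hv, mul_assoc]) }
  let σ' : V ⧸ A →* ℤˣ := QuotientGroup.lift A σ fun x hx => Units.ext (u1 ⟨x, hx⟩)
  have := Fintype.ofFinite (V ⧸ A)
  have m : ∀ (g : V) (q : V ⧸ A), q.out⁻¹ * g * ((g : V ⧸ A)⁻¹ * q).out ∈ A := fun g q =>
    (QuotientGroup.eq_one_iff _).1 (by simp)
  refine ⟨⟨σ, fun g => ∑ q, σ' q * (θ ⟨_, m g q⟩).toAdd, fun g h => ?_⟩,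
    fun x => ⟨Units.ext (u1 x), fun e => hθ ?_⟩⟩
  · rw [Finset.mul_sum, ← Equiv.sum_comp (Equiv.mulLeft (g : V ⧸ A)⁻¹)
      fun q => σ g * (σ' q * (θ ⟨_, m h q⟩).toAdd), ← Finset.sum_add_distrib]
    refine Finset.sum_congr rfl fun q _ => ?_
    rw [Equiv.coe_mulLeft, ← mul_assoc (σ g : ℤ), ← Units.val_mul,
      show σ g * σ' ((g : V ⧸ A)⁻¹ * q) = σ' q by
        rw [map_mul, map_inv]; exact mul_inv_cancel_left _ _, ← mul_add, ← toAdd_mul, ← map_mul]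
    simp [mul_assoc]
  · have k : ∀ q : V ⧸ A, σ' q * (θ ⟨_, m x q⟩).toAdd = (θ x).toAdd := fun q => by
      have e1 : ((x : V) : V ⧸ A) = 1 := (QuotientGroup.eq_one_iff _).2 x.2
      rw [show (⟨_, m x q⟩ : A) = MulAut.conjNormal q.out⁻¹ x from Subtype.ext (by simp [e1]), hv,
        ← mul_assoc, show u q.out⁻¹ = σ' q⁻¹ by
          conv_rhs => rw [← q.out_eq, ← QuotientGroup.mk_inv]
          rfl, ← Units.val_mul, ← map_mul, mul_inv_cancel, map_one, Units.val_one, one_mul]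
    replace e : ∑ q : V ⧸ A, σ' q * (θ ⟨_, m x q⟩).toAdd = 0 := e
    simp only [k, Finset.sum_const, smul_eq_zero, Finset.card_eq_zero, Finset.univ_eq_empty_iff,
      not_isEmpty_of_nonempty, false_or] at e
    exact e.trans (map_one θ).symm

/-- a virtually cyclic group is finite by cyclic or finite by dihedral -/
theorem vz_dih (h : WL.VZ 1 V) : WL.FC V ∨ ∃ (D : Dh V) (a b : V), (D.σ a = -1 ∧ D.c a = 0) ∧
    (D.σ b = -1 ∧ D.c b = 1) ∧ ∀ n, {g | D.c g = n}.Finite := by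
  obtain ⟨A, θ, _, _, hθ⟩ := h
  rcases subsingleton_or_nontrivial A with _ | _
  · exact .inl (WL.fc_of_ker (QuotientGroup.mk' A) 1 fun g e _ => congrArg Subtype.val
      (Subsingleton.elim (⟨g, (QuotientGroup.eq_one_iff g).1 e⟩ : A) 1))
  obtain ⟨z, hz⟩ := exists_ne (1 : A)
  let ι := AddEquiv.toMultiplicative (AddEquiv.funUnique (Fin 1) ℤ)
  obtain ⟨D, hD⟩ := exists_dh A (ι.toMonoidHom.comp θ) (ι.injective.comp hθ) hz
  by_cases h : ∀ g, D.σ g = 1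
  · exact .inl (WL.fc_of_ker (QuotientGroup.mk' A)
      (MonoidHom.mk' (fun g => Multiplicative.ofAdd (D.c g)) fun g g' => by simp [D.mul, h])
      fun g e e' => congrArg Subtype.val ((hD ⟨g, (QuotientGroup.eq_one_iff g).1 e⟩).2 e'))
  obtain ⟨a, ha⟩ := not_forall.1 h
  replace ha := (Int.units_eq_one_or _).resolve_left ha
  let S : AddSubgroup ℤ :=
    { carrier := {n | ∃ g, D.σ g = 1 ∧ D.c g = n}
      add_mem' := by
        rintro _ _ ⟨g, h1, rfl⟩ ⟨g', h2, rfl⟩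
        exact ⟨g * g', by simp [h1, h2], by simp [D.mul, h1]⟩
      zero_mem' := ⟨1, map_one _, D.one⟩
      neg_mem' := by
        rintro _ ⟨g, h1, rfl⟩
        exact ⟨g⁻¹, by simp [h1], by simp [D.inv, h1]⟩ }
  obtain ⟨d, hd⟩ := Int.subgroup_cyclic S
  obtain ⟨t, t1, t2⟩ : d ∈ S := hd ▸ AddSubgroup.mem_closure_singleton_self d
  have k1 : ∀ g, D.σ g = 1 → ∃ n, n * d = D.c g := fun g hg =>
    AddSubgroup.mem_closure_singleton.1 (hd ▸ (⟨g, hg, rfl⟩ : _ ∈ S))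
  have d0 : d ≠ 0 := fun e => by
    obtain ⟨n, hn⟩ := k1 z (hD z).1
    exact hz ((hD z).2 (by rw [← hn, e, mul_zero]))
  have k2 : ∀ g, ∃ n, 2 * (n * d) = 2 * D.c g - (1 - D.σ g) * D.c a := fun g => by
    rcases Int.units_eq_one_or (D.σ g) with e | e
    · exact (k1 g e).imp fun n hn => by simp [e, hn]
    · refine (k1 (g * a⁻¹) (by simp [e, ha])).imp fun n hn => ?_
      rw [hn, D.mul, D.inv, e, ha]
      simp
      ring
  choose c hc using k2
  have d2 : ∀ {x y : ℤ}, 2 * (x * d) = 2 * (y * d) → x = y := fun e =>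
    mul_right_cancel₀ d0 (mul_left_cancel₀ two_ne_zero e)
  have mul : ∀ g h, c (g * h) = c g + D.σ g * c h := fun g h => d2 (by
    rw [hc, D.mul, map_mul, Units.val_mul]
    linear_combination -hc g - D.σ g * hc h)
  refine .inr ⟨⟨D.σ, c, mul⟩, a, t * a, ⟨ha, d2 ?_⟩, ⟨by simp [t1, ha], d2 ?_⟩, fun n => ?_⟩
  · change 2 * (c a * d) = _
    rw [hc, ha]
    simp
  · change 2 * (c (t * a) * d) = _
    rw [hc, D.mul, map_mul, t1, ha, t2]
    simp
    ring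
  · refine Set.Finite.of_finite_image (f := fun g => (g : V ⧸ A)) (Set.toFinite _)
      fun g (hg : c g = n) g' (hg' : c g' = n) e => ?_
    have e1 := mul g (g⁻¹ * g')
    rw [mul_inv_cancel_left, hg, hg', left_eq_add, mul_eq_zero, or_iff_right (Units.ne_zero _)] at e1
    have e2 := hc (g⁻¹ * g')
    have e3 := hD ⟨_, QuotientGroup.eq.1 e⟩
    rw [e1, e3.1] at e2
    exact inv_mul_eq_one.1 (congrArg Subtype.val (e3.2 (by simpa using e2.symm)))

end Pool.Agent.Work.MP_9d1ffa_al.Ct.LL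
end

-- merged part: Pool.Agent.Work.MP_9d1ffa_al.LL.AbT
section
/-! The absolute vanishing property: trees and virtually cyclic quotients. -/

namespace Pool.Agent.Work.MP_9d1ffa_al.Ct.LL

open Function Monoid WL

variable {G H K L Q Γ V A B X : Type} [Group G] [Group H] [Group K] [Group L] [Group Q] [Group Γ]
  [Group V] [Group A] [Group B]

/-- the group rings of torsion free poly-(virtually abelian) groups are good -/
def GPZ : Prop :=
  ∀ (n : ℕ) (D : Type) [Group D], (∀ g : D, IsOfFinOrder g → g = 1) → WL.PZ n D → VN.Good (ZG D)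

/-- all free actions have the vanishing property -/
def WA (K : Type) [Group K] : Prop := ∀ (X : Type) (ρ : K →* Equiv.Perm X), Free ρ → VZ ρ

theorem VZ.prod {ρ : G →* Equiv.Perm X} (h : VZ ρ) (hK : FA K) :
    VZ (ρ.comp (MonoidHom.fst G K)) := fun _ _ hK' =>
  (h _ (hK.prod hK')).bij MulEquiv.prodAssoc.symm.toMonoidHom (MulEquiv.bijective _) fun _ => rfl

theorem vz_sub {Good : Subgroup Q → Prop} (φ : G →* Q)
    (h : ∀ L : Subgroup G, Good (L.map φ) → WA L) {ρ : G →* Equiv.Perm X} (hρ : Free ρ)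
    (hK : FA K) (L : Subgroup (G × K)) (k : (φ.comp (MonoidHom.fst G K)).ker ≤ L)
    (e : Good (L.map (φ.comp (MonoidHom.fst G K)))) :
    VZ ((ρ.comp (MonoidHom.fst G K)).comp L.subtype) := by
  obtain ⟨f, h1, h2⟩ := exists_sub (L.map (MonoidHom.fst G K)) L fun g =>
    ⟨fun hg => ⟨g, hg, rfl⟩, fun ⟨y, hy, e⟩ => by
      have := mul_mem hy (k (show y⁻¹ * g ∈ _ by
        rw [MonoidHom.mem_ker, MonoidHom.comp_apply, map_mul, map_inv, e]
        exact (congrArg φ (inv_mul_cancel g.1)).trans (map_one φ)))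
      rwa [mul_inv_cancel_left] at this⟩
  exact ((h _ (by rwa [Subgroup.map_map]) X _ (hρ.comp (Subgroup.subtype_injective _))).prod
    hK).bij f h1 fun g => congrArg ρ (h2 g)

theorem wf_wa : WF WA where
  iso G H _ _ e h X ρ k := (h X _ (k.comp (f := e.toMonoidHom) e.injective)).bij e.toMonoidHom
    e.bijective fun _ => rfl
  loc G _ h X ρ k K _ hK := by
    classical
    exact V0.loc fun S => ⟨_, inferInstance,
      px K (Subgroup.closure (S.image Prod.fst : Set G)).subtype,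
      (Subgroup.subtype_injective _).prodMap injective_id, fun g hg => ⟨(⟨g.1, Subgroup.subset_closure
        (Finset.mem_coe.2 (Finset.mem_image_of_mem _ hg))⟩, g.2), rfl⟩,
      h (S.image Prod.fst) X _ (k.comp (Subgroup.subtype_injective _)) K hK⟩
  thm Q _ Good h1 h2 G _ φ h X ρ k K _ hK := coreZ Q Good h1 h2 _ X _ _ (vz_sub φ h k hK)

theorem WA.vk (h : WA G) : VK G := fun X ρ k n ε => (h X ρ k _ (fa_zn n)).2 ε

theorem WA.sk (h : WA G) : SK G := fun X ρ k n => (h X ρ k _ (fa_zn n)).1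

theorem wa_of (h : ∀ (X : Type) (ρ : G →* Equiv.Perm X), Free ρ → ∀ (K : Type) [Group K], FA K →
    SFI (OC (ρ.comp (MonoidHom.fst G K)))) (h' : VK G) : WA G := fun X ρ k K _ hK =>
  ⟨h X ρ k K hK, fun _ => h'.fa hK k⟩

theorem wa_triv [Subsingleton G] : WA G := fun X ρ _ K _ _ =>
  have e : ∀ g, ρ.comp (MonoidHom.fst G K) g = 1 := fun g =>
    (congrArg ρ (Subsingleton.elim g.1 1)).trans (map_one ρ)
  ⟨sfi_triv e, van0_triv e⟩

/-- finitely generated subgroups of the products with free abelian groups have good group rings -/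
def GA (A : Type) [Group A] : Prop :=
  ∀ (n : ℕ) (D : Type) [Group D] (f : D →* A × Zn n), Injective f → Group.FG D → VN.Good (ZG D)

theorem ga_vnil (hG : GPZ) (tf : TF A) (U : Subgroup A) [U.FiniteIndex] [Group.IsNilpotent U] :
    GA A := fun n D _ f hf _ => by
  let p := (MonoidHom.fst A (Zn n)).comp f
  have := finiteIndex_comap p U
  have := nil_inj (G := U × Zn n) ((p.subgroupComap U).prod
    (((MonoidHom.snd A _).comp f).comp (U.comap p).subtype)) fun _ _ e => Subtype.ext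
      (hf (Prod.ext (congrArg (fun x => x.1.1) e) (congrArg (fun x => x.2) e)))
  obtain ⟨m, hm⟩ := pz_of_vnil (U.comap p)
  exact hG m D (TF.inj (tf.prod (fa_zn n).tf) f hf) hm

theorem unil_good (C : Cut Γ V A) (hA : GA A) (two : NoTwo Γ) (n : ℕ) (ε : ℤˣ) :
    UNilTree (Γ × Zn n) (C.prod (Zn n)).T ε := by
  refine unilTree_good (C.prod _).isTree (C.prod _).act (fun g a e => ?_)
    fun a b hab ⟨g, h1, h2⟩ D hD hfg => ?_
  · rw [two.prod (fa_zn n).tf.two g e, one_smul]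
  obtain ⟨E, x, χ, hE, -, -, k3, k4⟩ := (C.prod _).rev hab h1 h2
  have key : ∀ m : A × Zn n →* V × Zn n, Injective m → E = m.range → VN.Good (ZG D) :=
    fun m hm e => hA n D ((MonoidHom.ofInjective hm).symm.toMonoidHom.comp
      ((χ.comp (Subgroup.inclusion hD)).codRestrict _ fun z => e ▸ (k4 _).1))
      ((MonoidHom.ofInjective hm).symm.injective.comp fun _ _ q =>
        k3.comp (Subgroup.inclusion_injective hD) (congrArg Subtype.val q))
      ((Group.fg_iff_subgroup_fg D).2 hfg)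
  exact ⟨D, inferInstance, ⟨MulEquiv.refl _⟩,
    hE.elim (key _ (C.prod _).iinj) (key _ (C.prod _).jinj)⟩

theorem hSp : Split := fun _ _ _ _ _ _ _ C ρ _ h1 h2 h3 h4 h5 => split C ρ h1 h2 h3 h4 h5

theorem hLi : Line := fun _ _ _ ρ _ h1 h2 => van1_of_line ρ h1 h2

theorem cutG (C : Cut Γ V A) (hA : WA A) (hA' : GA A) (h : NoTwo V ∧ VK V) : NoTwo Γ ∧ VK Γ :=
  ⟨C.noTwo h.1, fun X σ hσ n ε => Onto.van0 (f := (AH.of σ C.v).prd (Zn n))
    (hSp X _ _ _ (C.prod (Zn n)) (σ.comp (MonoidHom.fst _ _)) ε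
      (fun g y e => ⟨(1, g.2), Prod.ext ((map_one C.v).trans (hσ g.1 y e).symm) rfl⟩)
      (unil_good C hA' (C.noTwo h.1) n ε) ((C.noTwo h.1).prod (fa_zn n).tf.two)
      (hA.sk X _ (hσ.comp C.vainj) n) (((hA X _ (hσ.comp C.vainj)).prod (fa_zn n)).van1 _))
    (h.2 X _ (hσ.comp C.vinj) n ε)⟩

theorem amalgG (i : A →* G) (j : A →* H) (hi : Injective i) (hj : Injective j) (p : G →* L)
    (q : H →* L) (e : ∀ a, p (i a) = q (j a))
    (univ : ∀ (Γ : Type) [Group Γ] (α : G →* Γ) (β : H →* Γ), (∀ a, α (i a) = β (j a)) →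
      ∃ s : L →* Γ, ∀ r : Γ →* L, (∀ x, r (α x) = p x) → (∀ x, r (β x) = q x) → ∀ g, r (s g) = g)
    (hA : WA A) (hA' : GA A) (h : NoTwo G ∧ VK G) (h' : NoTwo H ∧ VK H) : VK L := by
  let i' : A →* Coprod G H := Coprod.inl.comp i
  let j' : A →* Coprod G H := Coprod.inr.comp j
  have hi' : Injective i' := Coprod.inl_injective.comp hi
  have hj' : Injective j' := Coprod.inr_injective.comp hj
  let ψ : j'.range ≃* i'.range := (MonoidHom.ofInjective hj').symm.trans (MonoidHom.ofInjective hi')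
  have hψ : ∀ a, (ψ ⟨j' a, a, rfl⟩ : Coprod G H) = i' a := fun a => by
    have : (MonoidHom.ofInjective hj').symm ⟨j' a, a, rfl⟩ = a := (MulEquiv.symm_apply_eq _).2 rfl
    simp only [ψ, MulEquiv.trans_apply, this]
    rfl
  have rel : ∀ a, HNNExtension.of (i' a) * HNNExtension.t =
      (HNNExtension.t * HNNExtension.of (j' a) : HNNExtension _ _ _ ψ) := fun a => by
    rw [← hψ]
    exact (HNNExtension.t_mul_of (φ := ψ) ⟨j' a, a, rfl⟩).symm
  obtain ⟨C, -⟩ := cut_of_univ ⟨HNNExtension.of, i', j', HNNExtension.t, rel⟩ hi' hj'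
    (eq_top_iff.2 fun g hg => by
      clear hg
      induction g using HNNExtension.induction_on with
      | of g => exact Subgroup.subset_closure (Or.inr ⟨g, rfl⟩)
      | t => exact Subgroup.subset_closure (Or.inl rfl)
      | mul x y hx hy => exact mul_mem hx hy
      | inv x hx => exact inv_mem hx)
    fun Γ' _ f τ k => ⟨HNNExtension.lift f τ (by
        rintro ⟨_, a, rfl⟩
        rw [hψ]
        exact (k a).symm),
      fun x => HNNExtension.lift_of _ _ _ x, HNNExtension.lift_t _ _ _⟩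
  obtain ⟨s, hs⟩ := univ (HNNExtension _ _ _ ψ) (HNNExtension.of.comp Coprod.inl)
    ((MulAut.conj HNNExtension.t).toMonoidHom.comp (HNNExtension.of.comp Coprod.inr))
    fun a => eq_mul_inv_of_mul_eq (rel a)
  let r : HNNExtension _ _ _ ψ →* L := HNNExtension.lift (Coprod.lift p q) 1 (by
    rintro ⟨_, a, rfl⟩
    rw [hψ, one_mul, mul_one]
    exact (e a).symm)
  exact (cutG C hA hA' ((closed_vk hSp hLi).cop _ _ h h')).2.ret s r
    (hs r (fun x => by simp [r]) fun x => by simp [r])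

theorem wa_cut (C : Cut Γ V A) (two : NoTwo V) (hW : WhK Γ) (hV : WA V) (hA : WA A) (hA' : GA A) :
    WA Γ :=
  wa_of (fun X σ hσ K _ hK => sfi_cut C σ hσ (hW.sfi hK) (hV X _ (hσ.comp C.vinj) K hK).1
    (hA X _ (hσ.comp C.vainj) _ hK.prod_int).1) (cutG C hA hA' ⟨two, hV.vk⟩).2

theorem exists_cut (χ : L →* Multiplicative ℤ) : χ.ker = ⊤ ∨ Nonempty (Cut L χ.ker χ.ker) := by
  obtain ⟨⟨_, t, rfl⟩, ht⟩ := IsCyclic.exists_generator (α := χ.range)
  have k : ∀ g, ∃ n : ℤ, (χ g).toAdd = n * (χ t).toAdd := fun g =>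
    (ht ⟨_, g, rfl⟩).imp fun n hn => by
      rw [← show χ t ^ n = χ g from congrArg Subtype.val hn, toAdd_zpow, smul_eq_mul]
  by_cases h : (χ t).toAdd = 0
  · exact .inl (top_unique fun g _ => (k g).elim fun n hn => by
      rw [h, mul_zero] at hn
      exact hn)
  have d := mul_self_pos.2 h
  refine .inr ⟨{
    v := χ.ker.subtype
    i := MonoidHom.id _
    j := (MulAut.conjNormal t⁻¹).toMonoidHom
    t := t
    rel := fun a => by simp [mul_assoc]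
    pos := fun g => 0 < (χ g).toAdd * (χ t).toAdd
    vinj := χ.ker.subtype_injective
    iinj := injective_id
    right := fun g x => by rw [map_mul, show χ (χ.ker.subtype x) = 1 from x.2, mul_one]
    one := by simp
    tpos := d
    up := fun g e => by
      rw [map_mul, toAdd_mul, add_mul]
      exact add_pos e d
    cross := fun g e e' => ?_
    gen := top_unique fun g _ => ?_ }⟩
  · obtain ⟨n, hn⟩ := k g
    rw [map_mul, toAdd_mul, hn, ← add_one_mul, mul_assoc, mul_pos_iff_of_pos_right d] at e'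
    rw [hn, mul_assoc, mul_pos_iff_of_pos_right d] at e
    rw [show n = 0 by omega, zero_mul] at hn
    exact ⟨⟨g, hn⟩, rfl⟩
  · obtain ⟨n, hn⟩ := k g
    rw [← inv_mul_cancel_right g (t ^ n)]
    refine mul_mem (Subgroup.subset_closure (.inr ⟨⟨_, ?_⟩, rfl⟩))
      (Subgroup.zpow_mem _ (Subgroup.subset_closure (Set.mem_insert _ _)) _)
    change (χ (g * (t ^ n)⁻¹)).toAdd = 0
    simp [hn]

/-- all subgroups have trivial Whitehead groups -/
def SW (G : Type) [Group G] : Prop :=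
  ∀ (L : Type) [Group L] (f : L →* G), Injective f → WhK L

/-- subgroups with a finite image -/
def FK (φ : G →* Q) : Prop :=
  ∀ (L : Type) [Group L] (f : L →* G), Injective f → Finite (φ.comp f).range → WA L ∧ GA L

theorem SW.inj (h : SW G) (f : H →* G) (hf : Injective f) : SW H := fun L _ g hg =>
  h L (f.comp g) (hf.comp hg)

theorem FK.sub {φ : G →* Q} (h : FK φ) (L : Subgroup G) : FK (φ.subgroupMap L) :=
  fun L' _ f hf k => h L' (L.subtype.comp f) (L.subtype_injective.comp hf)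
    ((Set.finite_range fun x : ((φ.subgroupMap L).comp f).range => (x.1 : Q)).subset (by
      rintro _ ⟨x, rfl⟩
      exact ⟨⟨_, x, rfl⟩, rfl⟩))

theorem wa_fc (φ : G →* Q) (hQ : FC Q) (tf : TF G) (hW : SW G) (hF : FK φ) : WA G := by
  obtain ⟨χ, _⟩ := hQ
  have k := hF _ (χ.comp φ).ker.subtype Subtype.val_injective
    ((Set.finite_range fun x : χ.ker => (x.1 : Q)).subset (by
      rintro _ ⟨x, rfl⟩
      exact ⟨⟨_, x.2⟩, rfl⟩))
  rcases exists_cut (χ.comp φ) with e | ⟨⟨C⟩⟩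
  · exact wf_wa.iso _ _ ((MulEquiv.subgroupCongr e).trans Subgroup.topEquiv) k.1
  · exact wa_cut C (TF.inj tf _ (Subgroup.subtype_injective _)).two
      (hW G (MonoidHom.id G) injective_id) k.1 k.1 k.2

theorem cdat_fc (h : WL.VZ 1 Q) : CDat Q fun H => FC H := by
  obtain ⟨A, θ, _, _, hθ⟩ := h
  obtain ⟨C, hs, hC⟩ := exists_coc A θ hθ
  have := Fintype.ofFinite (Q ⧸ A)
  exact (zt_one C hs ⟨0, 1⟩ (fun g e k => hC 1 g e fun j => Fin.fin_one_eq_zero j ▸ k)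
    (grid_bl _)).cdat

theorem wa_vc (φ : G →* Q) (hφ : Surjective φ) (hQ : WL.VZ 1 Q) (tf : TF G) (hW : SW G)
    (hF : FK φ) : WA G := by
  rcases vz_dih hQ with h | ⟨D, a, b, ha, hb, hD⟩
  · exact wa_fc φ h tf hW hF
  obtain ⟨a, rfl⟩ := hφ a
  obtain ⟨b, rfl⟩ := hφ b
  have k : ∀ L : Subgroup G, L ≤ (D.comp φ).St 0 ∨ L ≤ (D.comp φ).St 1 → WA L ∧ GA L :=
    fun L h => hF L L.subtype L.subtype_injective (((hD 0).union (hD 1)).subset (by
      rintro _ ⟨x, rfl⟩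
      change D.c (φ x) = 0 ∨ D.c (φ x) = 1
      rcases h with h | h <;> have e := ((D.comp φ).mem_St).1 (h x.2) <;>
        rcases Int.units_eq_one_or ((D.comp φ).σ x) with e' | e' <;> rw [e'] at e <;>
        change 2 * D.c (φ x) + _ = _ at e <;> simp at e <;> omega))
  have two : ∀ L : Subgroup G, NoTwo L := fun L => (TF.inj tf _ L.subtype_injective).two
  refine wa_of (fun X ρ hρ K _ hK => sfi_core (cdat_fc hQ) (φ.comp (MonoidHom.fst G K)) _
    (vz_sub (Good := fun H => FC H) φ (fun L e => wa_fc _ e (TF.inj tf _ L.subtype_injective)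
      (hW.inj _ L.subtype_injective) (hF.sub L)) hρ hK))
    (amalgG (A := ((D.comp φ).St 0 ⊓ (D.comp φ).St 1 : Subgroup G)) (Subgroup.inclusion inf_le_left)
      (Subgroup.inclusion inf_le_right) (Subgroup.inclusion_injective _)
      (Subgroup.inclusion_injective _) (Subgroup.subtype _) (Subgroup.subtype _) (fun _ => rfl)
      (fun Γ _ α β e => (D.comp φ).univ ha hb α β fun x h0 h1 => e ⟨x, h0, h1⟩)
      (k _ (.inl inf_le_left)).1 (k _ (.inl inf_le_left)).2 ⟨two _, (k _ (.inl le_rfl)).1.vk⟩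
      ⟨two _, (k _ (.inr le_rfl)).1.vk⟩)

theorem wa_vz (φ : G →* Q) (hQ : Rl WA (WL.VZ 1) Q) (tf : TF G) (hW : SW G) (hF : FK φ) :
    WA G :=
  hQ G φ fun L e => wa_vc _ (φ.subgroupMap_surjective L) e (TF.inj tf _ L.subtype_injective)
    (hW.inj _ L.subtype_injective) (hF.sub L)

end Pool.Agent.Work.MP_9d1ffa_al.Ct.LL
end

-- merged part: Pool.Agent.Work.MP_9d1ffa_al.LL.AbF
section
/-! The absolute vanishing property for torsion free groups that are virtually central by linear. -/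

namespace Pool.Agent.Work.MP_9d1ffa_al.Ct.LL

open Function Subgroup WL

variable {G L R : Type} [Group G] [Group L] [CommRing R] {n : ℕ}

theorem wa_vnil (hG : GPZ) (tf : TF G) (U : Subgroup G) [U.FiniteIndex] [Group.IsNilpotent U] :
    WA G := wf_wa.loc G fun T => by
  let N := closure (T : Set G)
  have : Group.FG N := (Group.fg_iff_subgroup_fg N).2 ⟨T, rfl⟩
  have nil : ∀ (L : Type) [Group L] (f : L →* G), Injective f → Group.IsNilpotent (U.comap f) :=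
    fun L _ f hf => nil_inj (G := U) (f.subgroupComap U)
      fun _ _ e => Subtype.ext (hf (congrArg (fun x : U => x.1) e))
  have := nil N N.subtype N.subtype_injective
  have := finiteIndex_comap N.subtype U
  have tf' := TF.inj tf _ N.subtype_injective
  refine wa_vz (MonoidHom.id N) (wf_wa.rl_vnil (U.comap N.subtype)) tf' (fun L _ f hf => ?_)
    fun L _ f hf _ => ?_
  · have := nil L _ (show Injective (N.subtype.comp f) from N.subtype_injective.comp hf)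
    have := finiteIndex_comap (N.subtype.comp f) U
    exact (wc_of_vnil (thmA_of A1.vanM) (TF.inj tf' f hf) (U.comap (N.subtype.comp f))).1
  · have k : ∀ x : L, x = 1 := fun x => hf ((tf' _ ((Subgroup.subtype _).isOfFinOrder
      (isOfFinOrder_of_finite (((MonoidHom.id N).comp f).rangeRestrict x)))).trans (map_one f).symm)
    have : Subsingleton L := ⟨fun a b => (k a).trans (k b).symm⟩
    exact ⟨wa_triv, ga_vnil hG (TF.inj tf' f hf) ⊤⟩

theorem wa_na (hG : GPZ) (tf : TF L) (hW : SW L) (H₀ : Subgroup L) [H₀.Normal] [H₀.FiniteIndex]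
    (hn : Group.IsNilpotent (⁅H₀, H₀⁆ : Subgroup L)) : WA L := wf_wa.loc L fun T => by
  let N := closure (T : Set L)
  have : Group.FG N := (Group.fg_iff_subgroup_fg N).2 ⟨T, rfl⟩
  let φ := (QuotientGroup.mk' ⁅H₀, H₀⁆).comp N.subtype
  have : ((H₀.subgroupOf N).map φ.rangeRestrict).FiniteIndex := ⟨ne_zero_of_dvd_ne_zero
    FiniteIndex.index_ne_zero (index_map_dvd _ φ.rangeRestrict_surjective)⟩
  obtain ⟨r, hr⟩ := vz_of_comm ((H₀.subgroupOf N).map φ.rangeRestrict) (by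
    rintro _ ⟨a, ha, rfl⟩ _ ⟨b, hb, rfl⟩
    refine Subtype.ext (commutatorElement_eq_one_iff_mul_comm.1 ?_)
    exact (map_commutatorElement φ a b).symm.trans
      ((QuotientGroup.eq_one_iff _).2 (commutator_mem_commutator ha hb)))
  refine wa_vz φ.rangeRestrict (wf_wa.rl_vz r _ hr) (TF.inj tf _ N.subtype_injective)
    (hW.inj _ N.subtype_injective) fun L' _ f hf _ => ?_
  have := nil_inj (G := (⁅H₀, H₀⁆ : Subgroup L)) (((N.subtype.comp f).comp
    (φ.rangeRestrict.comp f).ker.subtype).codRestrict _ fun x =>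
      (QuotientGroup.eq_one_iff _).1 (congrArg Subtype.val x.2)) fun _ _ e =>
        Subtype.ext (hf (Subtype.ext (congrArg (fun x : (⁅H₀, H₀⁆ : Subgroup L) => x.1) e)))
  have tf' := TF.inj tf (N.subtype.comp f) (N.subtype_injective.comp hf)
  exact ⟨wa_vnil hG tf' (φ.rangeRestrict.comp f).ker, ga_vnil hG tf' (φ.rangeRestrict.comp f).ker⟩

theorem cen_comap {H : Subgroup G} {ρ : H →* GL (Fin n) R} (hρ : ρ.ker ≤ center H) {f : L →* G}
    (hf : Injective f) : (ρ.comp (f.subgroupComap H)).ker ≤ center (H.comap f) := fun x hx =>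
  mem_center_iff.2 fun y => Subtype.ext (hf (by
    simpa using congrArg Subtype.val (mem_center_iff.1 (hρ hx) (f.subgroupComap H y))))

theorem wa_central (hG : GPZ) (H : Subgroup G) (hH : H.FiniteIndex) (ρ : H →* GL (Fin n) R)
    (hρ : ρ.ker ≤ center H) (tf : TF G) : WA G := by
  have hP := wf_wa.closed 0
  have hW : SW G := fun L _ f hf => whk_central thmC _ (BI_comap f H) _ (cen_comap hρ hf)
    (TF.inj tf f hf)
  refine (hP.fin G H hH (hP.ker H _ ρ (hP.gl_ring thmC R n)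
    (fun a _ b hb => mem_center_iff.1 (hρ hb) a) fun a _ => pow_zero a)).w (MonoidHom.id G)
    injective_id fun L hL => wf_wa.loc L fun T => ?_
  have := (Group.fg_iff_subgroup_fg (closure (T : Set L))).2 ⟨T, rfl⟩
  let f : closure (T : Set L) →* G := L.subtype.comp (Subgroup.subtype _)
  have hf : Injective f := Subtype.val_injective.comp Subtype.val_injective
  have := BI_comap f H
  obtain ⟨U, _, _⟩ := na_central _ (cen_comap hρ hf) ((hL.sub _).sub _)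
  have : (U.map (H.comap f).subtype).FiniteIndex := ⟨by
    rw [index_map_subtype]
    exact mul_ne_zero FiniteIndex.index_ne_zero FiniteIndex.index_ne_zero⟩
  refine wa_na hG (TF.inj tf f hf) (hW.inj f hf) (U.map (H.comap f).subtype).normalCore ?_
  have e := commutator_mono (U.map (H.comap f).subtype).normalCore_le
    (U.map (H.comap f).subtype).normalCore_le
  rw [← map_commutator] at e
  have := Group.nilpotent_of_mulEquiv (equivMapOfInjective ⁅U, U⁆ _ (H.comap f).subtype_injective)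
  exact Group.nilpotent_of_mulEquiv (subgroupOfEquivOfLe e)

theorem abs_final (hG : GPZ) (G : Type) [Group G] (tf : ∀ g : G, IsOfFinOrder g → g = 1)
    (H : Subgroup G) (hH : H.FiniteIndex) (R : Type) [CommRing R] (n : ℕ) (ρ : H →* GL (Fin n) R)
    (hρ : ρ.ker ≤ Subgroup.center H) : Van G :=
  van_iff.2 (wa_central hG H hH ρ hρ tf).vk

end Pool.Agent.Work.MP_9d1ffa_al.Ct.LL
end

-- merged part: Pool.Agent.Work.MP_9d1ffa_al.LL.AbG
section
/-! The induction over the infinite cyclic factors. -/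

namespace Pool.Agent.Work.MP_9d1ffa_al.VN

open Matrix Function WL

variable {G H : Type} [Group G] [Group H]

theorem AS.equiv {R S : Type} [Ring R] [StarRing R] [Ring S] [StarRing S] (h : AS S) (e : R ≃+* S)
    (he : ∀ x, e (star x) = star (e x)) : AS R :=
  h.rst ⟨Unit, (Matrix.scalar Unit).comp e, fun x => Matrix.ext fun _ _ => by simp [he],
    e.toAddEquiv.trans (AddEquiv.funUnique Unit S).symm, fun x y => funext fun _ => by
      simp [vecMul, dotProduct]⟩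

theorem nt_int : NT ℤ :=
  ⟨inferInstance, Coh.trn fun _ _ _ _ => ⟨0, inferInstance, inferInstance⟩⟩

theorem int_dual (P : Cx ℤ) (v : P.I → ℤ) : v ᵥ* P.dual.d = P.d *ᵥ v := vecMul_transpose _ _

theorem tj_int {I : Ideal ℤ} {n : ℤ} (h : n ≠ 0) (hn : n ∈ I) : I ∈ Tj ℤ 1 := fun b P ε r k hk => by
  rcases (show k = -b ∨ -b < k by omega) with rfl | l
  · refine fun v hv h0 => ⟨0, (zero_vecMul _).trans (funext fun i => by_contra fun e => ?_)⟩
    have q : P.p i = b := neg_injective (hv i (Ne.symm e))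
    have a : Vd P.p b (n • (Pi.single i 1 : P.I → ℤ)) := Vd.smul (fun j l => by
      rw [of_not_not fun a => l (Pi.single_eq_of_ne a _), q]) n
    obtain ⟨x, hx⟩ := I.mkQ_surjective (ε (Pi.single i 1))
    obtain ⟨w, hw⟩ := (r.ker (n • Pi.single i 1)).1 (by
      rw [map_smul, ← hx, ← map_smul]
      exact (Submodule.Quotient.mk_eq_zero _).2 (I.mul_mem_right x hn))
    have := congrArg (· ⬝ᵥ v) hw
    simp only [vecMulLinear_apply, a.pj_eq, ← dotProduct_mulVec, ← int_dual, h0, smul_dotProduct]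
      at this
    exact e (Eq.symm (by simpa [h] using this))
  · exact ex_of_ne fun i e => by
      have := r.deg i
      simp only at e
      omega

theorem as_int : AS ℤ := by
  refine as_of nt_int 1 fun P b d l => ?_
  have g : Ge P.dual (-b - (1 : ℕ)) := fun k hk v hv h0 => by
    obtain ⟨w, hw⟩ := SHer.col (fun _ _ _ h => inferInstance) l (-k) (by omega) v
      (fun i e => by have := hv i e; simp only at this; omega) ((int_dual P v).symm.trans h0)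
    exact ⟨w, (int_dual P w).trans hw⟩
  refine ⟨fun q => ?_, g⟩
  rcases lt_trichotomy q (-b - 1) with e | rfl | e
  · exact (g q e).tx _
  swap
  · exact fun v _ => tj_zero (by omega) _
  intro v hv
  have h0 := (int_dual P v).symm.trans hv.2
  let φ : (P.I → ℤ) →ₗ[ℤ] ℚ := (Algebra.linearMap ℤ ℚ).comp ((dotProductBilin ℤ ℤ).flip v)
  have k : LinearMap.ker P.d.vecMulLinear ≤ LinearMap.ker φ := fun w hw => by
    obtain ⟨u, hu⟩ := l (b + 1) (by omega) _ (vd_pj w) (by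
      rw [← pj_vecMul w P.hd (c := b) (by omega), show w ᵥ* P.d = 0 from hw, vd_zero.pj_eq])
    have : w ⬝ᵥ v = pj P.p (b + 1) w ⬝ᵥ v := Finset.sum_congr rfl fun i _ => by
      by_cases a : v i = 0
      · rw [a, mul_zero, mul_zero]
      · rw [pj, if_pos (by have := hv.1 i a; simp only at this; omega)]
    change algebraMap ℤ ℚ (w ⬝ᵥ v) = 0
    rw [this, ← hu, ← dotProduct_mulVec, h0, dotProduct_zero, map_zero]
  obtain ⟨ψ, hψ⟩ := (Module.Baer.of_divisible ℚ).extension_property _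
    (LinearMap.range P.d.vecMulLinear).injective_subtype
    (((LinearMap.ker _).liftQ φ k).comp P.d.vecMulLinear.quotKerEquivRange.symm.toLinearMap)
  have e : ∀ w, ψ (w ᵥ* P.d) = φ w := fun w => (LinearMap.congr_fun hψ ⟨_, w, rfl⟩).trans (by
    rw [LinearMap.comp_apply, LinearEquiv.coe_coe, LinearMap.quotKerEquivRange_symm_apply_image]
    rfl)
  obtain ⟨n, hn⟩ := IsLocalization.exist_integer_multiples_of_finite (nonZeroDivisors ℤ)
    fun i => ψ (Pi.single i 1)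
  choose u hu using hn
  rw [show -b - (-b - 1) = 1 by ring]
  refine tj_int (nonZeroDivisors.coe_ne_zero n) ⟨u, (int_dual P u).trans (funext fun i => ?_)⟩
  have a := e (Pi.single i 1)
  rw [single_one_vecMul, pi_eq_sum_univ' (P.d.row i), map_sum] at a
  refine (algebraMap ℤ ℚ).injective_int ?_
  change algebraMap ℤ ℚ (∑ j, P.d i j * u j) = algebraMap ℤ ℚ (n * v i)
  rw [map_sum, map_mul, show algebraMap ℤ ℚ (v i) = φ (Pi.single i 1) by simp [φ], ← a, Finset.mul_sum]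
  refine Finset.sum_congr rfl fun j _ => ?_
  rw [map_mul, hu, map_smul]
  simp [mul_left_comm]

theorem as_triv [Subsingleton G] : AS (ZG G) :=
  as_int.equiv (MonoidAlgebra.uniqueRingEquiv G) fun x => (coeff_star x 1).trans (by
    rw [inv_one]
    rfl)

theorem AS.fin (h : AS (ZG H)) (f : H →* G) (hf : Injective f) [f.range.FiniteIndex] : AS (ZG G) :=
  (exists_rst f hf).elim fun ρ => h.rst ρ

theorem AS.bij (h : AS (ZG H)) (f : H →* G) (hf : Bijective f) : AS (ZG G) :=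
  have : f.range.FiniteIndex := by
    rw [f.range_eq_top.2 hf.2]
    infer_instance
  h.fin f hf.1

theorem coh_pz {n : ℕ} (tf : TF G) (h : WL.PZ n G) : Coh (ZG G) :=
  coh_of_pz tf h (wc_of_pz (thmA_of A1.vanM) n G tf h).1.sfi₀

theorem nt_pz {n : ℕ} (tf : TF G) (h : WL.PZ n G) : NT (ZG G) :=
  ⟨no_of_pz n G h, (coh_pz tf h).trn⟩

/-- the step for twisted Laurent extensions -/
def StepAS : Prop :=
  ∀ (L : Type) [Group L] (χ : L →* Multiplicative ℤ), Surjective χ → NT (ZG χ.ker) → NT (ZG L) →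
    AS (ZG χ.ker) → AS (ZG L)

variable (hs : StepAS)
include hs

theorem as_cyc {n : ℕ} (tf : TF G) (h : WL.PZ n G) (ψ : G →* Multiplicative ℤ)
    (k : AS (ZG ψ.ker)) : AS (ZG G) := by
  cases finite_or_infinite ψ.range with
  | inl _ =>
    have : ψ.ker.subtype.range.FiniteIndex := by
      rw [Subgroup.range_subtype]
      infer_instance
    exact k.fin _ ψ.ker.subtype_injective
  | inr _ =>
    let e := (intCyclicMulEquiv (G := ψ.range)).symm
    let χ := e.toMonoidHom.comp ψ.rangeRestrict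
    have m : ψ.ker = χ.ker := Subgroup.ext fun x =>
      ((e.map_eq_one_iff (x := ψ.rangeRestrict x)).trans Subtype.ext_iff).symm
    exact hs G χ (e.surjective.comp ψ.rangeRestrict_surjective)
      (nt_pz (TF.inj tf _ χ.ker.subtype_injective) (h.inj _ χ.ker.subtype_injective)) (nt_pz tf h)
      (m ▸ k)

theorem as_pi {n : ℕ} (r : ℕ) : ∀ (G : Type) [Group G], TF G → WL.PZ n G →
    ∀ θ : G →* Multiplicative (Fin r → ℤ), AS (ZG θ.ker) → AS (ZG G) := by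
  induction r with
  | zero =>
    intro G _ _ _ θ h
    have : θ.ker.subtype.range.FiniteIndex := by
      rw [Subgroup.range_subtype]
      infer_instance
    exact h.fin _ θ.ker.subtype_injective
  | succ r ih =>
    intro G _ tf hG θ h
    let χ : G →* Multiplicative ℤ := MonoidHom.mk'
      (fun g => Multiplicative.ofAdd ((θ g).toAdd 0)) fun g g' => by simp
    let θ' : χ.ker →* Multiplicative (Fin r → ℤ) := MonoidHom.mk'
      (fun g => Multiplicative.ofAdd fun j => (θ g).toAdd j.succ) fun g g' => by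
        ext j
        simp
    let f : θ.ker →* θ'.ker := MonoidHom.mk' (fun g => ⟨⟨g, congrFun g.2 0⟩,
      funext fun j => congrFun g.2 j.succ⟩) fun _ _ => rfl
    exact as_cyc hs tf hG χ (ih _ (TF.inj tf _ χ.ker.subtype_injective)
      (hG.inj _ χ.ker.subtype_injective) θ' (h.bij f
        ⟨fun _ _ e => Subtype.ext (congrArg (fun x => x.1.1) e),
          fun g => ⟨⟨g, funext (Fin.cases g.1.2 (congrFun g.2))⟩, rfl⟩⟩))

theorem as_pz (n : ℕ) : ∀ (G : Type) [Group G], TF G → WL.PZ n G → AS (ZG G) := by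
  induction n with
  | zero =>
    intro G _ tf h
    have : Finite G := h
    have : Subsingleton G := ⟨fun a b =>
      (tf a (isOfFinOrder_of_finite a)).trans (tf b (isOfFinOrder_of_finite b)).symm⟩
    exact as_triv
  | succ n ih =>
    intro G _ tf hG
    obtain ⟨Q, _, φ, r, ⟨A, θ, _, _, hθ⟩, h⟩ := id hG
    have : (A.comap φ).subtype.range.FiniteIndex := by
      rw [Subgroup.range_subtype, ← QuotientGroup.ker_mk' A, MonoidHom.comap_ker]
      infer_instance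
    have j : Injective ((A.comap φ).subtype.comp (θ.comp (φ.subgroupComap A)).ker.subtype) :=
      Subtype.val_injective.comp Subtype.val_injective
    refine (as_pi hs r _ (TF.inj tf _ (A.comap φ).subtype_injective)
      (hG.inj _ (A.comap φ).subtype_injective) (θ.comp (φ.subgroupComap A))
      (ih _ (TF.inj tf _ j) (h _ _ j ?_))).fin _ (A.comap φ).subtype_injective
    refine (Set.finite_singleton 1).subset ?_
    rintro _ ⟨g, rfl⟩
    exact congrArg Subtype.val ((injective_iff_map_eq_one θ).1 hθ _ g.2)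

theorem gpz_of : Ct.LL.GPZ := fun n D _ tf h => good_of_coh (coh_pz tf h) (as_pz hs n D tf h).af

end Pool.Agent.Work.MP_9d1ffa_al.VN
end

-- merged part: Pool.Agent.Work.MP_9d1ffa_al.LL.AbH
section
/-! Group rings of extensions by the infinite cyclic group are twisted Laurent extensions. -/

namespace Pool.Agent.Work.MP_9d1ffa_al.VN

open Function MonoidAlgebra

theorem step_as : StepAS := fun L _ χ hχ hR hΛ h => by
  obtain ⟨t, ht⟩ := hχ (Multiplicative.ofAdd 1)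
  let U := (of ℤ L).toHomUnits
  have hU : ∀ g, (U g : ZG L) = single g 1 := fun _ => rfl
  have hi : (↑(U t)⁻¹ : ZG L) = single t⁻¹ 1 := by rw [← map_inv, hU]
  refine Sk.as ⟨gm χ.ker.subtype, U t, mapDomainRingEquiv ℤ (MulAut.conjNormal t),
    VGrp_cp _ χ.ker.subtype_injective 1, mapDomain_star _, by rw [hi, hU, star_single], fun r => ?_,
    VGrp_cp_mul _ _ 1, ?_, fun n => ?_, ?_⟩ h hR hΛ
  · induction r using induction_linear with
    | zero => simp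
    | add a b ha hb => simp only [map_add, mul_add, add_mul, ha, hb]
    | single g n => simp [hU, VGrp_gm_single, single_mul_single]
  · ext g
    rw [VGrp_coeff_cp, one_mul, ← map_one (gm χ.ker.subtype), VGrp_coeff_gm _ χ.ker.subtype_injective]
  · ext g
    rw [VGrp_coeff_cp, one_mul, hU, single_pow, one_pow, coeff_single, Finsupp.single_eq_of_ne]
    · rfl
    · intro e
      have := congrArg (fun x => (χ x).toAdd) e
      simp [show χ g = 1 from g.2, ht] at this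
      omega
  · refine eq_top_iff.2 fun x _ => ?_
    induction x using induction_linear with
    | zero => exact zero_mem _
    | add a b ha hb => exact add_mem (ha trivial) (hb trivial)
    | single g n =>
      have m : g * t ^ (-(χ g).toAdd) ∈ χ.ker := by
        rw [MonoidHom.mem_ker, map_mul, map_zpow, ht, ← ofAdd_zsmul]
        simp
      have : (single g n : ZG L) = gm χ.ker.subtype (single ⟨_, m⟩ n) * ↑(U t ^ (χ g).toAdd) := by
        rw [← map_zpow, hU, VGrp_gm_single, single_mul_single]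
        simp
      rw [this]
      refine mul_mem (Subring.subset_closure (.inl ⟨_, rfl⟩)) ?_
      rcases (χ g).toAdd with k | k
      · rw [Int.ofNat_eq_natCast, zpow_natCast, Units.val_pow_eq_pow_val]
        exact pow_mem (Subring.subset_closure (.inr (.inl rfl))) _
      · rw [zpow_negSucc, ← inv_pow, Units.val_pow_eq_pow_val]
        exact pow_mem (Subring.subset_closure (.inr (.inr rfl))) _

theorem gpz : Ct.LL.GPZ := gpz_of step_as

end Pool.Agent.Work.MP_9d1ffa_al.VN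
end
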