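import Pool.Agent.Work.MP_9d1ffa_al.LL.FinB
import Pool.Agent.Work.MP_9d1ffa_al.Rt.RDefs

/-! The fibred statement for groups that are virtually solvable by linear. -/

namespace Pool.Agent.Work.MP_9d1ffa_al.Ct.LL

open WL Function

variable {G X : Type} [Group G] {ρ : G →* Equiv.Perm X}

/-- virtually cyclic, or finitely generated, virtually solvable and not virtually nilpotent -/
def Sm (L : Type) [Group L] : Prop :=
  (∃ C : Subgroup L, C.FiniteIndex ∧ IsCyclic C) ∨ (Group.FG L ∧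
    (∃ S : Subgroup L, S.FiniteIndex ∧ Group.IsSolvable S) ∧
      ∀ U : Subgroup L, U.FiniteIndex → ¬ Group.IsNilpotent U)

theorem Sm.iso {H : Type} [Group H] (e : G ≃* H) (h : Sm G) : Sm H := by
  have fi : ∀ {A B : Type} [Group A] [Group B] (e : A ≃* B) (C : Subgroup A) (_ : C.FiniteIndex),
      (C.map e.toMonoidHom).FiniteIndex := fun e C _ =>
    ⟨ne_zero_of_dvd_ne_zero Subgroup.FiniteIndex.index_ne_zero (C.index_map_dvd e.surjective)⟩
  rcases h with ⟨C, h, _⟩ | ⟨_, ⟨S, h, _⟩, k⟩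
  · exact .inl ⟨_, fi e C h, isCyclic_of_surjective _ (e.toMonoidHom.subgroupMap_surjective C)⟩
  · exact .inr ⟨Group.fg_of_surjective (f := e.toMonoidHom) e.surjective, ⟨_, fi e S h,
      Group.isSolvable_of_surjective (e.toMonoidHom.subgroupMap_surjective S)⟩, fun U hU _ =>
        k _ (fi e.symm U hU) (nilpotent_of_surjective _
          (e.symm.toMonoidHom.subgroupMap_surjective U))⟩

/-- the small subgroups have fixed points -/
def Fx (ρ : G →* Equiv.Perm X) : Prop := ∀ L : Subgroup G, Sm L → ∃ x, ∀ g ∈ L, ρ g x = x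

theorem Fx.inj (h : Fx ρ) {K : Type} [Group K] (f : K →* G) (hf : Injective f) :
    Fx (ρ.comp f) := fun L e =>
  (h _ (e.iso (L.equivMapOfInjective f hf))).imp fun _ k g hg => k _ ⟨g, hg, rfl⟩

/-- the class of the fibred statement -/
def WR (K : Type) [Group K] : Prop := ∀ (X : Type) (ρ : K →* Equiv.Perm X), Fx ρ → VF ρ

theorem vf_of_fix (x : X) (h : ∀ g, ρ g x = x) : VF ρ := fun _ _ φ =>
  (flq_of_fix (ρ := ρ.comp φ) x fun g => h (φ g)).elim fun F => ⟨F.sfi, F.van0⟩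

theorem wr_sm (h : Sm G) : WR G := fun _ _ k =>
  let ⟨x, hx⟩ := k ⊤ (h.iso Subgroup.topEquiv.symm)
  vf_of_fix x fun g => hx g trivial

theorem wf_wr (hC : Core) : WF WR where
  iso G H _ _ e h X ρ k := by
    have := (h X _ (k.inj e.toMonoidHom e.injective)).comp e.symm.toMonoidHom
    rwa [show (ρ.comp e.toMonoidHom).comp e.symm.toMonoidHom = ρ from
      MonoidHom.ext fun g => congrArg ρ (e.apply_symm_apply g)] at this
  loc G _ h X ρ k K _ φ := by
    classical
    exact V0.loc fun S => ⟨_, inferInstance, ((Subgroup.closure (S.image φ : Set G)).comap φ).subtype,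
      Subgroup.subtype_injective _, fun g hg => ⟨⟨g, Subgroup.subset_closure
        (Finset.mem_coe.2 (Finset.mem_image_of_mem φ hg))⟩, rfl⟩,
      h (S.image φ) X _ (k.inj _ (Subgroup.subtype_injective _)) _ (φ.subgroupComap _)⟩
  thm Q _ Good h1 h2 K _ φ h X ρ k K' _ ψ := hC Q Good h1 h2 K' X (φ.comp ψ) _ fun L e =>
    (h (L.map ψ) (by rwa [Subgroup.map_map]) X _ (k.inj _ (Subgroup.subtype_injective _))).comp
      (ψ.subgroupMap L)

theorem wr_sc (hC : Core) (h : Sc 0 G) : WR G := (wf_wr hC).loc G fun T => by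
  have := (Group.fg_iff_subgroup_fg (Subgroup.closure (T : Set G))).2 ⟨T, rfl⟩
  by_cases e : ∃ U : Subgroup (Subgroup.closure (T : Set G)), U.FiniteIndex ∧ Group.IsNilpotent U
  · obtain ⟨U, _, _⟩ := e
    refine (wf_wr hC).rl_vnil U _ (MonoidHom.id _) fun L ⟨A, θ, _, _, hθ⟩ => ?_
    have := cyc_one
    exact (wf_wr hC).iso _ _ (MulEquiv.subgroupCongr L.map_id)
      (wr_sm (.inl ⟨A, ‹_›, isCyclic_of_injective θ hθ⟩))
  · obtain ⟨S, h1, h2, -⟩ := h.sub (Subgroup.closure (T : Set G))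
    exact wr_sm (.inr ⟨‹_›, ⟨S, h1, h2⟩, fun U k k' => e ⟨U, k, k'⟩⟩)

theorem closed_solv {P : (G : Type) → [Group G] → Prop} (hP : Closed2 0 P) {Q : Type} [Group Q]
    (φ : G →* Q) (hQ : P Q) (h : Group.IsSolvable φ.ker) : P G := by
  obtain ⟨m, hm⟩ := h.solvable
  refine hP.of_chain φ hQ (fun m => (derivedSeries φ.ker m).map φ.ker.subtype)
    ((MonoidHom.range_eq_map _).symm.trans φ.ker.range_subtype)
    (fun m => Subgroup.map_mono (Subgroup.commutator_le_left _ _)) (fun m => ?_)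
    (fun m a _ => by simp) (m := m) (by simp [hm])
  rintro _ ⟨a, ha, rfl⟩ _ ⟨b, hb, rfl⟩
  exact ⟨a * b * a⁻¹ * b⁻¹, Subgroup.commutator_mem_commutator ha hb, rfl⟩

theorem vanF_of (h : VF ρ) : VanF ρ := fun K _ φ ε a ψ μ c1 _c2 _ h2 => by
  refine (z_iff_hyp (ψ := mk ψ c1)).1 ((h K φ).2 ε a _ (ns_of_left (C := mk μ _c2) (val_inj ?_)))
  rw [val_mul, val_sy, val_one, val_mk, val_mk]
  exact h2

theorem lin (hC : Core) (H : Subgroup G) (hH : H.FiniteIndex) (R : Type) [CommRing R] (n : ℕ)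
    (π : H →* GL (Fin n) R) (hπ : Group.IsSolvable π.ker) (h : Fx ρ) : VF ρ := by
  have hP := (wf_wr hC).closed 0
  exact (hP.fin G H hH (closed_solv hP π (hP.gl_ring thmC R n) hπ)).w (MonoidHom.id G)
    injective_id (fun L e => wr_sc hC e) X ρ h

/-- the statement of the hand-in -/
theorem lin_final (hC : Core) (G X : Type) [Group G] (ρ : G →* Equiv.Perm X) (H : Subgroup G)
    (hH : H.FiniteIndex) (R : Type) [CommRing R] (n : ℕ) (π : H →* GL (Fin n) R)
    (hπ : Group.IsSolvable π.ker)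
    (hc : ∀ L : Subgroup G, (∃ C : Subgroup L, C.FiniteIndex ∧ IsCyclic C) →
      ∃ x, ∀ g ∈ L, ρ g x = x)
    (hs : ∀ L : Subgroup G, L.FG → (∃ S : Subgroup L, S.FiniteIndex ∧ Group.IsSolvable S) →
      (∀ U : Subgroup L, U.FiniteIndex → ¬ Group.IsNilpotent U) → ∃ x, ∀ g ∈ L, ρ g x = x) :
    VanF ρ :=
  vanF_of (lin hC H hH R n π hπ fun L e => e.elim (hc L) fun k =>
    hs L ((Group.fg_iff_subgroup_fg L).1 k.1) k.2.1 k.2.2)

end Pool.Agent.Work.MP_9d1ffa_al.Ct.LL
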