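import Pool.Agent.Work.MP_9d1ffa_al.LL.Lc

/-! Thresholds and rounding of labels. -/

set_option linter.unusedSectionVars false
set_option linter.unusedVariables false

namespace Pool.Agent.Work.MP_9d1ffa_al.Ct.LL

open Filter WL

noncomputable section

variable {K Ω : Type} [Group K] [MulAction K Ω]

/-- positions with values in the unit interval and support in `𝒦` -/
def PP (𝒦 : Set (Set Ω)) : Set (Ω → ℝ) :=
  {μ | (∀ ω, 0 ≤ μ ω ∧ μ ω ≤ 1) ∧ Function.support μ ∈ 𝒦}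

/-- positions that stay away from the threshold `(2 r + 1) δ` and exceed it somewhere -/
def Th (Ω : Type) (δ : ℝ) (r : ℕ) (c : ℝ) : Set (Ω → ℝ) :=
  {μ | (∀ ω, c ≤ |μ ω - (2 * r + 1) * δ|) ∧ ∃ ω, (2 * r + 1) * δ < μ ω}

def MI (Ω : Type) (δ : ℝ) (I : Finset ℕ) (c : ℝ) : Set (Ω → ℝ) := {μ | ∀ r ∈ I, μ ∈ Th Ω δ r c}

open Classical in
/-- the step function -/
def stp (δ : ℝ) (I : Finset ℕ) (x : ℝ) : ℝ :=
  2 * δ * ((I.filter fun r : ℕ => (2 * r + 1) * δ < x).sup (fun r => r + 1) : ℕ)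

theorem stp_far {δ : ℝ} (hδ : 0 < δ) {I : Finset ℕ} {r : ℕ} (hr : r ∈ I) (x : ℝ) :
    ((2 * r + 1) * δ < x → (2 * r + 1) * δ + δ ≤ stp δ I x) ∧
      (x ≤ (2 * r + 1) * δ → stp δ I x + δ ≤ (2 * r + 1) * δ) := by
  classical
  unfold stp
  constructor
  · intro h
    have : r + 1 ≤ (I.filter fun r : ℕ => (2 * r + 1) * δ < x).sup fun r => r + 1 :=
      Finset.le_sup (f := fun r : ℕ => r + 1) (Finset.mem_filter.2 ⟨hr, h⟩)
    have := mul_le_mul_of_nonneg_left (Nat.cast_le (α := ℝ).2 this) hδ.le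
    push_cast at this ⊢
    linarith
  · intro h
    have : ((I.filter fun r : ℕ => (2 * r + 1) * δ < x).sup fun r => r + 1) ≤ r :=
      Finset.sup_le fun s hs => by
        have := lt_of_mul_lt_mul_right ((Finset.mem_filter.1 hs).2.trans_le h) hδ.le
        exact Nat.succ_le_of_lt (Nat.cast_lt (α := ℝ).1 (by linarith))
    have := mul_le_mul_of_nonneg_left (Nat.cast_le (α := ℝ).2 this) hδ.le
    linarith

theorem stp_eq {δ η c : ℝ} {I : Finset ℕ} {g : K} {μ ν : Ω → ℝ} (hμ : μ ∈ MI Ω δ I c)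
    (h : Cl η g μ ν) (hη : η < c) : Cl 0 g (stp δ I ∘ μ) (stp δ I ∘ ν) := by
  intro ω
  rw [abs_nonpos_iff, sub_eq_zero, Function.comp_apply, Function.comp_apply, stp, stp]
  refine congrArg (fun J : Finset ℕ => 2 * δ * (J.sup (fun r => r + 1) : ℕ))
    (Finset.filter_congr fun r hr => ?_)
  have h1 := abs_le.1 (h ω)
  rcases le_abs.1 ((hμ r hr).1 ω) with h2 | h2
  · exact iff_of_true (by linarith [h1.1]) (by linarith [h1.1, h1.2])
  · exact iff_of_false (not_lt.2 (by linarith [h1.2])) (not_lt.2 (by linarith [h1.1, h1.2]))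

theorem Ds_bd {δ : ℝ} (hδ : 0 < δ) {I : Finset ℕ} (hI : ∀ r ∈ I, (2 * r + 2) * δ ≤ 1) (x : ℝ) :
    0 ≤ stp δ I x ∧ stp δ I x ≤ 1 := by
  refine ⟨by unfold stp; positivity, ?_⟩
  refine Finset.sup_induction (p := fun m : ℕ => 2 * δ * m ≤ 1) (by simp)
    (fun a ha b hb => sup_ind (p := fun m : ℕ => 2 * δ * m ≤ 1) a b ha hb) fun r hr => ?_
  have := hI r (Finset.mem_filter.1 hr).1
  push_cast
  linarith

/-- the segment from `μ` to its rounding -/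
theorem stp_seg {δ c : ℝ} (hδ : 0 < δ) (hc : 0 < c) {I : Finset ℕ} (hI : ∀ r ∈ I, (2 * r + 2) * δ ≤ 1)
    {𝒦 : Set (Set Ω)} (h𝒦 : ∀ s ∈ 𝒦, ∀ t, t ⊆ s → t ∈ 𝒦) {μ : Ω → ℝ}
    (hμ : μ ∈ PP 𝒦 ∩ MI Ω δ I c) {t : ℝ} (h0 : 0 ≤ t) (h1 : t ≤ 1) :
    (fun ω => (1 - t) * μ ω + t * stp δ I (μ ω)) ∈ PP 𝒦 ∩ MI Ω δ I (min c δ) := by
  obtain ⟨⟨m1, m2⟩, m3⟩ := hμ
  have t1 := sub_nonneg.2 h1
  have k : ∀ r ∈ I, ∀ ω, ((2 * r + 1) * δ < μ ω →
      min c δ ≤ (1 - t) * μ ω + t * stp δ I (μ ω) - (2 * r + 1) * δ) ∧ (μ ω ≤ (2 * r + 1) * δ →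
      min c δ ≤ -((1 - t) * μ ω + t * stp δ I (μ ω) - (2 * r + 1) * δ)) := fun r hr ω => by
    have a1 := (m3 r hr).1 ω
    have a2 := mul_le_mul_of_nonneg_left (min_le_left c δ) t1
    have a3 := mul_le_mul_of_nonneg_left (min_le_right c δ) h0
    constructor
    · intro e
      rw [abs_of_pos (sub_pos.2 e)] at a1
      have a4 := mul_le_mul_of_nonneg_left a1 t1
      have a5 := mul_le_mul_of_nonneg_left ((stp_far hδ hr _).1 e) h0
      linarith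
    · intro e
      rw [abs_of_nonpos (sub_nonpos.2 e)] at a1
      have a4 := mul_le_mul_of_nonneg_left a1 t1
      have a5 := mul_le_mul_of_nonneg_left ((stp_far hδ hr _).2 e) h0
      linarith
  refine ⟨⟨fun ω => ?_, h𝒦 _ m2 _ fun ω e z => e ?_⟩, fun r hr => ⟨fun ω => ?_, ?_⟩⟩
  · obtain ⟨a1, a2⟩ := Ds_bd hδ hI (μ ω)
    have a3 := mul_le_mul_of_nonneg_left (m1 ω).2 t1
    have a4 := mul_le_mul_of_nonneg_left a2 h0
    exact ⟨add_nonneg (mul_nonneg t1 (m1 ω).1) (mul_nonneg h0 a1), by linarith⟩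
  · have e0 : stp δ I 0 = 0 := by
      rw [stp, Finset.filter_false_of_mem fun r _ => not_lt.2 (by positivity)]
      simp
    beta_reduce
    rw [z, e0, mul_zero, mul_zero, add_zero]
  · rcases lt_or_ge ((2 * r + 1) * δ) (μ ω) with e | e
    exacts [le_abs.2 (Or.inl ((k r hr ω).1 e)), le_abs.2 (Or.inr ((k r hr ω).2 e))]
  · obtain ⟨ω, e⟩ := (m3 r hr).2
    exact ⟨ω, sub_pos.1 ((lt_min hc hδ).trans_le ((k r hr ω).1 e))⟩

def UJ (Ω : Type) (δ : ℝ) (J : List ℕ) (c : ℝ) : Set (Ω → ℝ) := {μ | ∃ r ∈ J, μ ∈ Th Ω δ r c}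

/-- Pigeonhole: a value is `δ`-close to at most one of the `N + 2` thresholds, `0` to none, and
there are at most `N + 1` nonzero values; `1 / (N + 1) = (2 N + 4) δ`. -/
theorem pos_UJ {Good : Subgroup K → Prop} {N : ℕ} {μ : Ω → ℝ} (h : Pos Good N μ) :
    μ ∈ UJ Ω (1 / ((2 * N + 4) * (N + 1))) (List.range (N + 2)) (1 / ((2 * N + 4) * (N + 1))) := by
  obtain ⟨-, ⟨ω₀, h0⟩, hc, -⟩ := h
  have hN : (0 : ℝ) < N + 1 := by positivity
  obtain ⟨δ, hδ⟩ : ∃ δ : ℝ, δ = 1 / ((2 * N + 4) * (N + 1)) := ⟨_, rfl⟩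
  rw [← hδ]
  have d0 : 0 < δ := by rw [hδ]; positivity
  have d1 : (2 * N + 4) * δ ≤ μ ω₀ := by
    refine le_of_mul_le_mul_left (le_of_eq_of_le ?_ h0) hN
    rw [hδ]
    field_simp
  by_contra H
  have k : ∀ r : ℕ, ∃ ω, r < N + 2 → |μ ω - (2 * r + 1) * δ| < δ := fun r => by
    by_contra c
    push Not at c
    have hr := (c ω₀).1
    refine H ⟨r, List.mem_range.2 hr, fun ω => (c ω).2, ω₀, lt_of_lt_of_le ?_ d1⟩
    have : (r : ℝ) < N + 2 := by exact_mod_cast hr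
    have : (r : ℝ) + 1 ≤ N + 2 := by exact_mod_cast hr
    exact mul_lt_mul_of_pos_right (by linarith) d0
  choose f hf using k
  have lt : ∀ r s : ℕ, r < N + 2 → s < N + 2 → f r = f s → ¬r < s := fun r s hr hs e c => by
    have a := (abs_lt.1 (hf r hr)).2
    have b := (abs_lt.1 (hf s hs)).1
    have : (r : ℝ) + 1 ≤ s := by exact_mod_cast c
    rw [e] at a
    linarith [mul_le_mul_of_nonneg_right this d0.le]
  have := (Set.encard_le_encard_of_injOn (s := (Finset.range (N + 2) : Set ℕ)) (f := f)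
    (t := Function.support μ) (fun r hr => ?_) fun r hr s hs e => ?_).trans hc
  · rw [Set.encard_coe_eq_coe_finsetCard, Finset.card_range, Nat.cast_le] at this
    omega
  · have b := (abs_lt.1 (hf r (Finset.mem_range.1 hr))).1
    have : 0 ≤ (r : ℝ) * δ := by positivity
    exact ne_of_gt (by linarith)
  · have hr := Finset.mem_range.1 hr
    have hs := Finset.mem_range.1 hs
    exact le_antisymm (not_lt.1 (lt s r hs hr e.symm)) (not_lt.1 (lt r s hr hs e))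

end

section

variable {K Ω : Type} [Group K] {σ : K →* Equiv.Perm Ω}

theorem opn_Th (δ : ℝ) (r : ℕ) : Opn σ (Th Ω δ r) := by
  rintro c c' η g μ ν h0 - k ⟨h1, ω₀, h2⟩ h
  refine ⟨fun ω => ?_, σ g • ω₀, ?_⟩
  · have e := h ((σ g)⁻¹ • ω)
    rw [smul_inv_smul, abs_sub_comm] at e
    have := abs_sub_le (μ ((σ g)⁻¹ • ω)) (ν ω) ((2 * r + 1) * δ)
    linarith [h1 ((σ g)⁻¹ • ω)]
  · have e := h1 ω₀
    rw [abs_of_pos (sub_pos.2 h2)] at e
    linarith [(abs_le.1 (h ω₀)).1]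

theorem opn_MI (δ : ℝ) (I : Finset ℕ) : Opn σ (MI Ω δ I) :=
  fun c c' η g μ ν h0 h1 k hμ h r hr => opn_Th δ r c c' η g μ ν h0 h1 k (hμ r hr) h

theorem opn_MU (δ : ℝ) (I : Finset ℕ) (J : List ℕ) :
    Opn σ fun c => MI Ω δ I c ∩ UJ Ω δ J c :=
  fun c c' η g μ ν h0 h1 k hμ h => ⟨opn_MI δ I c c' η g μ ν h0 h1 k hμ.1 h,
    hμ.2.imp fun r hr => ⟨hr.1, opn_Th δ r c c' η g μ ν h0 h1 k hr.2 h⟩⟩

end

end Pool.Agent.Work.MP_9d1ffa_al.Ct.LL
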